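import Pool.Agent.PWD.Bridge

/-!
# Periods without domains: the statement in terms of the definitions of the hand-in
-/

set_option autoImplicit false

open MeasureTheory MvPolynomial Real

namespace Pool.Agent.PWD

open Pool.Agent.Helper23.PeriodDefs (evalMulti)

theorem fin_T (hVS : St_VS) :
    -- (U)
    (∀ (n : ℕ) (I : Set (Fin n)) (q : Fin n → (Fin n → ℝ) → ℝ) (P : (Fin n → ℝ) → ℝ)
      (m : Fin n → ℕ) (v : ℝ), 1 ≤ n → T.MixTower I q → T.IsPoly Set.univ P →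
      T.Val (T.quot P q m) v →
      (∃ (a : ℝ) (e : ℕ), IsAlgebraic ℚ a ∧ v = a * π ^ (e + 1)) ∧ (v ≠ 0 → Transcendental ℚ v)) ∧
    -- (R)
    ((T.IsPeriod (1 / π) ↔ ∃ n, 1 ≤ n ∧ T.Rs n 1) ∧
      (T.IsPeriod (1 / π) ↔ ∀ x : ℝ, 0 < x → (T.IsPeriod x ↔ ∃ n, 1 ≤ n ∧ T.Rs n x)) ∧
      (¬ T.IsPeriod (1 / π) ↔
        ∀ (n : ℕ) (v : ℝ), 1 ≤ n → T.W n v → v ≠ 0 → Transcendental ℚ v) ∧
      (∀ (n : ℕ) (a : ℝ), 1 ≤ n → T.V n a → 0 < a → T.Rs (n + 1) (π ^ 2 * a))) ∧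
    -- (W)
    (∀ (n : ℕ) (v : ℝ), 1 ≤ n →
      (T.W n v ↔ ∃ a b : ℝ, T.V n a ∧ T.V n b ∧ v = π * (a - b)) ∧
      (T.Wp n v ↔ ∃ a : ℝ, T.V n a ∧ 0 < a ∧ v = π * a) ∧
      (T.Wp n v ↔ T.W n v ∧ 0 < v)) ∧
    -- (D)
    (∀ n : ℕ, 1 ≤ n → (T.V n (1 / π) ↔ T.Wp n 1) ∧
      (T.V n (1 / π) ↔ ∀ (m : ℕ) (f : (Fin m → ℝ) → ℝ), T.AESAPos f → Integrable f →
        ∃ P Q : MvPolynomial (Fin (m + n)) ℚ, T.Pos P Q ∧ T.IsMarginal P Q f)) ∧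
    -- (P)
    ((∀ x : ℝ, T.IsPeriod x ↔ ∃ n, 1 ≤ n ∧ T.W n (π * x)) ∧
      (∀ x : ℝ, 0 < x → (T.IsPeriod x ↔ ∃ n, 1 ≤ n ∧ T.V n x)) ∧
      ((∀ x ∈ ({exp 1, 1 / π, eulerMascheroniConstant} : Set ℝ), ¬ T.IsPeriod x) ↔
        ∀ n : ℕ, 1 ≤ n → ¬ T.Wp n 1 ∧ ¬ T.Wp n (π * exp 1) ∧
          ¬ T.Wp n (π * eulerMascheroniConstant))) ∧
    -- (S)
    (∀ (m : ℕ) (f : (Fin m → ℝ) → ℝ),
      (T.AESA f ↔ ∃ P Q : MvPolynomial (Fin (m + 1)) ℚ, Q ≠ 0 ∧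
        T.IsLineInt P Q (fun x => π * f x)) ∧
      (T.AESAPos f ↔ ∃ P Q : MvPolynomial (Fin (m + 1)) ℚ, T.Pos P Q ∧
        T.IsLineInt P Q (fun x => π * f x))) := by
  have hpi := Real.pi_pos
  obtain ⟨u, ⟨r0, r1, r2, r3⟩, w, d, ⟨p1, p2, p3⟩, s⟩ := fin_main hVS
  refine ⟨?_, ⟨?_, ?_, ?_, ?_⟩, ?_, ?_, ⟨?_, ?_, ?_⟩, ?_⟩
  · intro n I q P m v hn hq hP hv
    obtain ⟨hi, rfl⟩ := hv
    obtain ⟨q', hq', hT⟩ := br_tower I q hq
    obtain ⟨P', rfl⟩ := br_poly _ _ hP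
    obtain rfl : q = fun i => evalMulti (q' i) := by
      funext i
      exact (hq' i).symm
    obtain ⟨⟨a, e, h1⟩, h2⟩ := thm_MXU thm_ONB thm_MXA n I q' P' m hn hT hi
    exact ⟨⟨a, e, mem_algebraicClosure_iff.1 a.2, h1⟩, h2⟩
  · rw [br_P, r1]
    simp only [br_Rs]
  · rw [br_P, r2]
    simp only [br_Rs, br_P]
  · rw [br_P, r3]
    simp only [br_W]
  · intro n a hn h h0
    exact (br_Rs _ _).2 (r0 n a hn h h0)
  · intro n v hn
    rw [br_W, br_Wp]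
    exact w n v hn
  · intro n hn
    rw [br_Wp]
    refine ⟨(d n hn).1, (d n hn).2.trans ?_⟩
    constructor
    · rintro h m f ⟨g, h1, h2, h3⟩ h4
      obtain ⟨P, Q, hQ, hp, hi, hx⟩ := h m g ((br_SAFun g).1 h1) (Filter.Eventually.of_forall h2)
        (h4.congr h3)
      refine ⟨P, Q, ⟨hQ, hp⟩, hi, ?_⟩
      filter_upwards [hx, h3] with x hx hx3
      refine ⟨hx.1, ?_⟩
      rw [hx3]
      exact hx.2.symm
    · intro h m f h1 h2 h3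
      obtain ⟨g, g1, g2, g3⟩ := spp_mod f h1 h2
      obtain ⟨P, Q, ⟨hQ, hp⟩, hi, hx⟩ := h m f ⟨g, (br_SAFun g).2 g1, g2, g3⟩ h3
      refine ⟨P, Q, hQ, hp, hi, ?_⟩
      filter_upwards [hx] with x hx
      exact ⟨hx.1, hx.2.symm⟩
  · intro x
    rw [br_P, p1]
    simp only [br_W]
  · intro x hx
    exact p2 x hx
  · refine p3.trans ?_
    have e0 : (0 : ℝ) < exp 1 := Real.exp_pos 1
    have g0 : (0 : ℝ) < eulerMascheroniConstant :=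
      lt_trans (by norm_num) Real.one_half_lt_eulerMascheroniConstant
    refine forall_congr' fun n => forall_congr' fun hn => ?_
    rw [br_Wp, br_Wp, br_Wp, (w n 1 hn).2.2, (w n _ hn).2.2, (w n _ hn).2.2]
    have h1 : (0 : ℝ) < 1 := one_pos
    have h2 : (0 : ℝ) < π * exp 1 := by positivity
    have h3 : (0 : ℝ) < π * eulerMascheroniConstant := mul_pos hpi g0
    simp only [h1, h2, h3, and_true]
  · intro m f
    obtain ⟨s1, s2⟩ := s m f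
    have key : ∀ P Q : MvPolynomial (Fin (m + 1)) ℚ,
        T.IsLineInt P Q (fun x => π * f x) ↔
        ∀ᵐ x : Fin m → ℝ,
          Integrable (fun t : ℝ => rat P Q (Fin.snoc x t : Fin (m + 1) → ℝ)) ∧
          f x = 1 / Real.pi * ∫ t : ℝ, rat P Q (Fin.snoc x t : Fin (m + 1) → ℝ) := by
      intro P Q
      refine Filter.eventually_congr (Filter.Eventually.of_forall fun x => ?_)
      refine and_congr Iff.rfl ?_
      constructor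
      · intro h
        have h' : (∫ t : ℝ, rat P Q (Fin.snoc x t : Fin (m + 1) → ℝ)) = π * f x := h
        rw [h']
        field_simp
      · intro h
        show (∫ t : ℝ, rat P Q (Fin.snoc x t : Fin (m + 1) → ℝ)) = π * f x
        rw [h]
        field_simp
    simp only [key, T.AESA, T.AESAPos, br_SAFun]
    refine ⟨s1, s2.trans ?_⟩
    simp only [T.Pos, and_assoc]
    rfl

end Pool.Agent.PWD
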