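import Mathlib

/-!
# Periods without domains: the definitions used by the hand-in
-/

set_option autoImplicit false

open MeasureTheory MvPolynomial

namespace Pool.Agent.PWD.T

/-- `v` is the value of the absolutely convergent integral of `f` -/
def Val {α : Type} [MeasureSpace α] (f : α → ℝ) (v : ℝ) : Prop := Integrable f ∧ ∫ x, f x = v

/-- the rational function `P / Q` -/
noncomputable def rat {n : ℕ} (P Q : MvPolynomial (Fin n) ℚ) (x : Fin n → ℝ) : ℝ :=
  aeval x P / aeval x Q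

/-- `P / Q` is positive off its poles, and `Q` is not zero -/
def Pos {n : ℕ} (P Q : MvPolynomial (Fin n) ℚ) : Prop :=
  Q ≠ 0 ∧ ∀ x : Fin n → ℝ, aeval x Q ≠ 0 → 0 < rat P Q x

/-- semialgebraic sets: membership in `S` depends only on the signs of finitely many polynomials
with rational coefficients -/
def SA {n : ℕ} (S : Set (Fin n → ℝ)) : Prop :=
  ∃ F : Finset (MvPolynomial (Fin n) ℚ), ∀ x y : Fin n → ℝ,
    (∀ p ∈ F, SignType.sign (aeval x p) = SignType.sign (aeval y p)) → x ∈ S → y ∈ S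

/-- semialgebraic functions: the graph is a semialgebraic set -/
def SAFun {n : ℕ} (f : (Fin n → ℝ) → ℝ) : Prop :=
  SA {z : Fin (n + 1) → ℝ | z (Fin.last n) = f (Fin.init z)}

/-- `f` is almost everywhere equal to a semialgebraic function -/
def AESA {n : ℕ} (f : (Fin n → ℝ) → ℝ) : Prop := ∃ g, SAFun g ∧ f =ᵐ[volume] g

/-- `f` is almost everywhere equal to a positive semialgebraic function -/
def AESAPos {n : ℕ} (f : (Fin n → ℝ) → ℝ) : Prop :=
  ∃ g, SAFun g ∧ (∀ x, 0 < g x) ∧ f =ᵐ[volume] g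

/-- for almost every `x` in `ℝᵐ` the number `f x` is the integral over the line of `(P / Q)(x, t)` -/
def IsLineInt {m : ℕ} (P Q : MvPolynomial (Fin (m + 1)) ℚ) (f : (Fin m → ℝ) → ℝ) : Prop :=
  ∀ᵐ x : Fin m → ℝ, Val (fun t : ℝ => rat P Q (Fin.snoc x t)) (f x)

/-- `P / Q` is integrable on `ℝᵐ⁺ⁿ` and `f` is its marginal on `ℝᵐ`: for almost every `x` in `ℝᵐ` the
number `f x` is the integral over `ℝⁿ` of `(P / Q)(x, z)` -/
def IsMarginal {m n : ℕ} (P Q : MvPolynomial (Fin (m + n)) ℚ) (f : (Fin m → ℝ) → ℝ) : Prop :=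
  Integrable (rat P Q) ∧
    ∀ᵐ x : Fin m → ℝ, Val (fun z : Fin n → ℝ => rat P Q (Fin.append x z)) (f x)

/-- the finite volumes of semialgebraic sets in `ℝⁿ` -/
def V (n : ℕ) (v : ℝ) : Prop :=
  ∃ S : Set (Fin n → ℝ), SA S ∧ volume S ≠ ⊤ ∧ v = (volume S).toReal

/-- the absolutely convergent integrals over `ℝⁿ` of rational functions -/
def W (n : ℕ) (v : ℝ) : Prop := ∃ P Q : MvPolynomial (Fin n) ℚ, Q ≠ 0 ∧ Val (rat P Q) v

/-- the absolutely convergent integrals over `ℝⁿ` of positive rational functions -/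
def Wp (n : ℕ) (v : ℝ) : Prop := ∃ P Q : MvPolynomial (Fin n) ℚ, Pos P Q ∧ Val (rat P Q) v

/-- the convergent integrals over `ℝⁿ` of `1 / (A² + B²)`, `A` and `B` polynomials without common real
zero -/
def Rs (n : ℕ) (v : ℝ) : Prop := ∃ A B : MvPolynomial (Fin n) ℚ,
  (∀ x : Fin n → ℝ, 0 < aeval x A ^ 2 + aeval x B ^ 2) ∧
  Val (fun x : Fin n → ℝ => 1 / (aeval x A ^ 2 + aeval x B ^ 2)) v

/-- real periods, in the form of the frozen statement S17403 -/
def IsPeriod (x : ℝ) : Prop :=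
  ∃ (k : ℕ) (n m : Fin k → ℕ)
    (p : ∀ j : Fin k, Fin (m j) → MvPolynomial (Fin (n j)) ℚ)
    (P Q : ∀ j : Fin k, MvPolynomial (Fin (n j)) ℚ),
    (∀ j : Fin k,
      MeasureTheory.IntegrableOn
        (fun y : Fin (n j) → ℝ => MvPolynomial.aeval y (P j) / MvPolynomial.aeval y (Q j))
        {y : Fin (n j) → ℝ | ∀ i, 0 ≤ MvPolynomial.aeval y (p j i)}) ∧
    x = ∑ j : Fin k,
      ∫ y in {y : Fin (n j) → ℝ | ∀ i, 0 ≤ MvPolynomial.aeval y (p j i)},
        MvPolynomial.aeval y (P j) / MvPolynomial.aeval y (Q j)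

/-- polynomial functions of the `x_i`, `i ∈ J`, with real algebraic coefficients -/
inductive IsPoly {n : ℕ} (J : Set (Fin n)) : ((Fin n → ℝ) → ℝ) → Prop
  | const (c : ℝ) (hc : IsAlgebraic ℚ c) : IsPoly J (fun _ => c)
  | var (i : Fin n) (hi : i ∈ J) : IsPoly J (fun x => x i)
  | add {f g : (Fin n → ℝ) → ℝ} (hf : IsPoly J f) (hg : IsPoly J g) : IsPoly J (fun x => f x + g x)
  | mul {f g : (Fin n → ℝ) → ℝ} (hf : IsPoly J f) (hg : IsPoly J g) : IsPoly J (fun x => f x * g x)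

/-- the value at `(u, v)` of the binary form with the coefficients `c_0, ..., c_d` -/
def form (d : ℕ) (c : ℕ → ℝ) (u v : ℝ) : ℝ := ∑ j ∈ Finset.range (d + 1), c j * u ^ j * v ^ (d - j)

/-- `M` is a product of a positive algebraic constant and of powers of the `q_i`, `i < k`, where for
`i ∉ I` the exponent is even -/
def IsProd {n : ℕ} (I : Set (Fin n)) (q : Fin n → (Fin n → ℝ) → ℝ) (k : Fin n)
    (M : (Fin n → ℝ) → ℝ) : Prop :=
  ∃ (c : ℝ) (e : Fin n → ℕ), 0 < c ∧ IsAlgebraic ℚ c ∧ (∀ i ∉ I, Even (e i)) ∧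
    ∀ x, M x = c * ∏ i ∈ Finset.Iio k, q i x ^ e i

/-- mixed towers: `q_k` is a polynomial in the `x_i`, `i ≤ k`, and, with `u = M x_k + b`, `b` a
polynomial in the `x_i`, `i < k`, either `k ∈ I`, `M q_k = u² + s` and `M`, `s` are products as above; or
`k ∉ I`, `q_k = f(u, s)` for a positive binary form `f` with algebraic coefficients, and `M`, `s` are
products of positive constants and of any `q_i`, `i < k`. -/
def MixTower {n : ℕ} (I : Set (Fin n)) (q : Fin n → (Fin n → ℝ) → ℝ) : Prop :=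
  ∀ k, IsPoly {i | i ≤ k} (q k) ∧ ∃ M s b : (Fin n → ℝ) → ℝ, IsPoly {i | i < k} b ∧
    ((k ∈ I ∧ IsProd I q k M ∧ IsProd I q k s ∧ ∀ x, M x * q k x = (M x * x k + b x) ^ 2 + s x) ∨
      (k ∉ I ∧ IsProd Set.univ q k M ∧ IsProd Set.univ q k s ∧ ∃ (d : ℕ) (c : ℕ → ℝ),
        (∀ j, IsAlgebraic ℚ (c j)) ∧ (∀ u v : ℝ, u ≠ 0 ∨ v ≠ 0 → 0 < form d c u v) ∧
        ∀ x, q k x = form d c (M x * x k + b x) (s x)))

/-- the function `P / (q_1^(m_1) ... q_n^(m_n))` -/
noncomputable def quot {n : ℕ} (P : (Fin n → ℝ) → ℝ) (q : Fin n → (Fin n → ℝ) → ℝ) (m : Fin n → ℕ)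
    (x : Fin n → ℝ) : ℝ :=
  P x / ∏ k, q k x ^ m k

end Pool.Agent.PWD.T
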