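import Mathlib

/-!
# Periods without domains: Fubini for `Fin.snoc`
-/

set_option autoImplicit false

open MeasureTheory

namespace Pool.Agent.PWD

/-- `(x, t) ↦ Fin.snoc x t` as a measurable equivalence. -/
noncomputable def snocM (n : ℕ) : ((Fin n → ℝ) × ℝ) ≃ᵐ (Fin (n + 1) → ℝ) :=
  MeasurableEquiv.prodComm.trans
    (MeasurableEquiv.piFinSuccAbove (fun _ : Fin (n + 1) => ℝ) (Fin.last n)).symm

theorem snocM_apply (n : ℕ) (x : Fin n → ℝ) (t : ℝ) :
    snocM n (x, t) = (Fin.snoc x t : Fin (n + 1) → ℝ) := by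
  show (Fin.insertNth (α := fun _ => ℝ) (Fin.last n) t x : Fin (n + 1) → ℝ) = _
  rw [Fin.insertNth_last']

theorem snocM_mp (n : ℕ) : MeasurePreserving (snocM n)
    ((volume : Measure (Fin n → ℝ)).prod (volume : Measure ℝ)) volume := by
  have h1 : MeasurePreserving (MeasurableEquiv.prodComm : ((Fin n → ℝ) × ℝ) ≃ᵐ (ℝ × (Fin n → ℝ)))
      ((volume : Measure (Fin n → ℝ)).prod (volume : Measure ℝ))
      ((volume : Measure ℝ).prod (volume : Measure (Fin n → ℝ))) :=
    Measure.measurePreserving_swap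
  exact ((volume_preserving_piFinSuccAbove (fun _ : Fin (n + 1) => ℝ) (Fin.last n)).symm _).comp h1

/-- integrability on `ℝⁿ⁺¹` in terms of the product -/
theorem integrable_snoc_iff {E : Type} [NormedAddCommGroup E] (n : ℕ)
    (f : (Fin (n + 1) → ℝ) → E) :
    Integrable f ↔ Integrable (fun p : (Fin n → ℝ) × ℝ => f (Fin.snoc p.1 p.2))
      ((volume : Measure (Fin n → ℝ)).prod (volume : Measure ℝ)) := by
  rw [← (snocM_mp n).integrable_comp_emb (snocM n).measurableEmbedding]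
  have : f ∘ (snocM n) = fun p : (Fin n → ℝ) × ℝ => f (Fin.snoc p.1 p.2) := by
    funext p
    show f (snocM n (p.1, p.2)) = _
    rw [snocM_apply]
  rw [this]

/-- Fubini -/
theorem integral_snoc {E : Type} [NormedAddCommGroup E] [NormedSpace ℝ E] [CompleteSpace E] (n : ℕ)
    (f : (Fin (n + 1) → ℝ) → E) (hf : Integrable f) :
    (∫ y, f y) = ∫ x : Fin n → ℝ, ∫ t : ℝ, f (Fin.snoc x t) := by
  have h1 := (snocM_mp n).integral_comp (snocM n).measurableEmbedding f
  rw [← h1]
  have : (fun p : (Fin n → ℝ) × ℝ => f (snocM n p)) =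
      fun p : (Fin n → ℝ) × ℝ => f (Fin.snoc p.1 p.2) := by
    funext p
    show f (snocM n (p.1, p.2)) = _
    rw [snocM_apply]
  rw [this]
  exact integral_prod _ ((integrable_snoc_iff n f).mp hf)

/-- slices are a.e. integrable -/
theorem integrable_snoc_ae {E : Type} [NormedAddCommGroup E] (n : ℕ)
    (f : (Fin (n + 1) → ℝ) → E) (hf : Integrable f) :
    ∀ᵐ x : Fin n → ℝ, Integrable (fun t : ℝ => f (Fin.snoc x t)) :=
  ((integrable_snoc_iff n f).mp hf).prod_right_ae

theorem integrable_snoc_norm {E : Type} [NormedAddCommGroup E] (n : ℕ)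
    (f : (Fin (n + 1) → ℝ) → E) (hf : Integrable f) :
    Integrable (fun x : Fin n → ℝ => ∫ t : ℝ, ‖f (Fin.snoc x t)‖) :=
  ((integrable_snoc_iff n f).mp hf).integral_norm_prod_left

/-- Tonelli criterion -/
theorem integrable_of_snoc {E : Type} [NormedAddCommGroup E] (n : ℕ)
    (f : (Fin (n + 1) → ℝ) → E) (hm : AEStronglyMeasurable f)
    (h1 : ∀ᵐ x : Fin n → ℝ, Integrable (fun t : ℝ => f (Fin.snoc x t)))
    (h2 : Integrable (fun x : Fin n → ℝ => ∫ t : ℝ, ‖f (Fin.snoc x t)‖)) : Integrable f := by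
  rw [integrable_snoc_iff]
  have hm2 : AEStronglyMeasurable (fun p : (Fin n → ℝ) × ℝ => f (Fin.snoc p.1 p.2))
      ((volume : Measure (Fin n → ℝ)).prod (volume : Measure ℝ)) := by
    have := hm.comp_measurePreserving (snocM_mp n)
    have e : f ∘ (snocM n) = fun p : (Fin n → ℝ) × ℝ => f (Fin.snoc p.1 p.2) := by
      funext p
      show f (snocM n (p.1, p.2)) = _
      rw [snocM_apply]
    rwa [e] at this
  rw [integrable_prod_iff hm2]
  exact ⟨h1, h2⟩

/-- a.e. statements transfer -/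
theorem ae_snoc (n : ℕ) (p : (Fin (n + 1) → ℝ) → Prop) (h : ∀ᵐ y : Fin (n + 1) → ℝ, p y) :
    ∀ᵐ x : Fin n → ℝ, ∀ᵐ t : ℝ, p (Fin.snoc x t) := by
  have h1 := (snocM_mp n).quasiMeasurePreserving.ae h
  have h2 := Measure.ae_ae_of_ae_prod h1
  filter_upwards [h2] with x hx
  filter_upwards [hx] with t ht
  rwa [snocM_apply] at ht

end Pool.Agent.PWD
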