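import Mathlib

/-!
# Periods without domains: zero sets of polynomials are null sets
-/

set_option autoImplicit false

open MeasureTheory

namespace Pool.Agent.PWD

theorem nul_fin (n : ℕ) : ∀ p : MvPolynomial (Fin n) ℝ, p ≠ 0 →
    ∀ᵐ x : Fin n → ℝ, MvPolynomial.eval x p ≠ 0 := by
  induction n with
  | zero =>
    intro p hp
    refine Filter.Eventually.of_forall fun x hx => hp ?_
    rw [MvPolynomial.eq_C_of_isEmpty p] at hx ⊢
    rw [MvPolynomial.eval_C] at hx
    rw [hx, MvPolynomial.C_0]
  | succ n ih =>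
    intro p hp
    set f := MvPolynomial.finSuccEquiv ℝ n p with hf
    have hf0 : f ≠ 0 := by
      rw [hf]
      exact (map_ne_zero_iff _ (MvPolynomial.finSuccEquiv ℝ n).injective).mpr hp
    have hl : f.leadingCoeff ≠ 0 := Polynomial.leadingCoeff_ne_zero.mpr hf0
    have h1 := ih _ hl
    have hmp := (volume_preserving_piFinSuccAbove (fun _ : Fin (n + 1) => ℝ) 0).symm
      (MeasurableEquiv.piFinSuccAbove (fun _ : Fin (n + 1) => ℝ) 0)
    have happ : ∀ q : ℝ × (Fin n → ℝ),
        (MeasurableEquiv.piFinSuccAbove (fun _ : Fin (n + 1) => ℝ) 0).symm q =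
          (Fin.cons q.1 q.2 : Fin (n + 1) → ℝ) := by
      intro q
      show (Fin.insertNth (α := fun _ => ℝ) 0 q.1 q.2 : Fin (n + 1) → ℝ) = _
      rw [Fin.insertNth_zero']
    have hmeas : MeasurableSet {x : Fin (n + 1) → ℝ | MvPolynomial.eval x p ≠ 0} := by
      have : Continuous fun x : Fin (n + 1) → ℝ => MvPolynomial.eval x p :=
        MvPolynomial.continuous_eval p
      exact (isOpen_ne_fun this continuous_const).measurableSet
    rw [← hmp.map_eq, ae_map_iff hmp.measurable.aemeasurable hmeas]
    have hmeas2 : MeasurableSet {q : ℝ × (Fin n → ℝ) | MvPolynomial.eval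
        ((MeasurableEquiv.piFinSuccAbove (fun _ : Fin (n + 1) => ℝ) 0).symm q) p ≠ 0} :=
      hmp.measurable hmeas
    have hsw : ∀ᵐ q : (Fin n → ℝ) × ℝ ∂((volume : Measure (Fin n → ℝ)).prod (volume : Measure ℝ)),
        MvPolynomial.eval (Fin.cons q.2 q.1 : Fin (n + 1) → ℝ) p ≠ 0 := by
      have hm3 : MeasurableSet {q : (Fin n → ℝ) × ℝ |
          MvPolynomial.eval (Fin.cons q.2 q.1 : Fin (n + 1) → ℝ) p ≠ 0} := by
        have := measurable_swap hmeas2
        refine (this).congr ?_
        ext q
        simp only [Set.mem_preimage, Set.mem_ofPred_eq, happ, Prod.fst_swap, Prod.snd_swap]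
      rw [Measure.ae_prod_iff_ae_ae hm3]
      filter_upwards [h1] with x hx
      have hg : f.map (MvPolynomial.eval x) ≠ 0 := by
        intro h0
        apply hx
        have := congrArg (fun g => Polynomial.coeff g f.natDegree) h0
        simpa using this
      have hfin : (f.map (MvPolynomial.eval x)).rootSet ℝ |>.Finite :=
        Polynomial.rootSet_finite _ _
      have h2 : ∀ᵐ t : ℝ, t ∉ (f.map (MvPolynomial.eval x)).rootSet ℝ :=
        measure_eq_zero_iff_ae_notMem.mp (hfin.measure_zero _)
      filter_upwards [h2] with t ht h3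
      apply ht
      rw [Polynomial.mem_rootSet]
      refine ⟨hg, ?_⟩
      rw [MvPolynomial.eval_eq_eval_mv_eval'] at h3
      rw [Polynomial.coe_aeval_eq_eval]
      exact h3
    have h4 : ∀ᵐ q : ℝ × (Fin n → ℝ) ∂((volume : Measure ℝ).prod (volume : Measure (Fin n → ℝ))),
        MvPolynomial.eval (Fin.cons q.1 q.2 : Fin (n + 1) → ℝ) p ≠ 0 := by
      have := (Measure.measurePreserving_swap (μ := (volume : Measure ℝ))
        (ν := (volume : Measure (Fin n → ℝ)))).quasiMeasurePreserving.ae hsw
      filter_upwards [this] with q hq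
      exact hq
    filter_upwards [h4] with q hq
    rw [happ]
    exact hq

/-- The zero set of a nonzero polynomial is a null set. -/
theorem ae_aeval_ne {ι : Type} [Fintype ι] (p : MvPolynomial ι ℚ) (hp : p ≠ 0) :
    ∀ᵐ x : ι → ℝ, MvPolynomial.aeval x p ≠ 0 := by
  classical
  set e := Fintype.equivFin ι with he
  set p' : MvPolynomial (Fin (Fintype.card ι)) ℝ :=
    MvPolynomial.map (algebraMap ℚ ℝ) (MvPolynomial.rename e p) with hp'
  have h0 : p' ≠ 0 := by
    rw [hp']
    exact (map_ne_zero_iff _ (MvPolynomial.map_injective _ (algebraMap ℚ ℝ).injective)).mpr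
      ((map_ne_zero_iff _ (MvPolynomial.rename_injective e e.injective)).mpr hp)
  have h1 := nul_fin _ p' h0
  have hmp := (volume_measurePreserving_piCongrLeft (fun _ : Fin (Fintype.card ι) => ℝ) e)
  have h2 := hmp.quasiMeasurePreserving.ae h1
  filter_upwards [h2] with x hx h3
  apply hx
  rw [hp', MvPolynomial.eval_map, MvPolynomial.eval₂_rename]
  have : (MeasurableEquiv.piCongrLeft (fun _ : Fin (Fintype.card ι) => ℝ) e) x ∘ e = x := by
    funext i
    show (Equiv.piCongrLeft (fun _ : Fin (Fintype.card ι) => ℝ) e) x (e i) = x i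
    rw [Equiv.piCongrLeft_apply_apply]
  rw [this]
  exact h3

end Pool.Agent.PWD
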