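import Pool.Agent.PWD.LEC
import Pool.Agent.PWD.FUB
import Pool.Agent.PWQ.MSB

/-!
# The volume of a semialgebraic set is the integral of a semialgebraic function
-/

set_option autoImplicit false

open MeasureTheory Pool.Agent.PWQ

namespace Pool.Agent.PWD

theorem snoc_reindex {m : ℕ} (z : Option (Fin m) → ℝ) :
    (fun k : Fin (m + 1) => z (Fin.lastCases (motive := fun _ => Option (Fin m)) none
      (fun i => some i) k)) = (Fin.snoc (fun i => z (some i)) (z none) : Fin (m + 1) → ℝ) := by
  funext k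
  refine Fin.lastCases ?_ (fun i => ?_) k
  · simp
  · simp

theorem SA_opt {m : ℕ} {U : Set (Fin (m + 1) → ℝ)} (hU : SA U) :
    SA {z : Option (Fin m) → ℝ | (Fin.snoc (fun i => z (some i)) (z none) : Fin (m + 1) → ℝ) ∈ U} := by
  have h := SA_reindex hU (fun k : Fin (m + 1) =>
    (Fin.lastCases (motive := fun _ => Option (Fin m)) none (fun i => some i) k))
  simpa only [snoc_reindex] using h

theorem thm_LEN : St_LEN := by
  intro m U hU hfin
  have hmeas : MeasurableSet U := measurableSet_of_SA hU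
  set S : Set (Option (Fin m) → ℝ) :=
    {z | (Fin.snoc (fun i => z (some i)) (z none) : Fin (m + 1) → ℝ) ∈ U} with hS
  have hSA : SA S := SA_opt hU
  have hsl : ∀ x : Fin m → ℝ, {t : ℝ | pt t x ∈ S} =
      Prod.mk x ⁻¹' ((snocM m) ⁻¹' U) := by
    intro x
    ext t
    show (Fin.snoc x t : Fin (m + 1) → ℝ) ∈ U ↔ snocM m (x, t) ∈ U
    rw [snocM_apply]
  have hpre : MeasurableSet ((snocM m) ⁻¹' U) := (snocM m).measurable hmeas
  have hvol : ∫⁻ x : Fin m → ℝ, volume {t : ℝ | pt t x ∈ S} = volume U := by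
    rw [← (snocM_mp m).measure_preimage_equiv U, Measure.prod_apply hpre]
    simp only [hsl]
  have hms : Measurable (fun x : Fin m → ℝ => volume {t : ℝ | pt t x ∈ S}) := by
    simp only [hsl]
    exact measurable_measure_prodMk_left hpre
  have hne : ∫⁻ x : Fin m → ℝ, volume {t : ℝ | pt t x ∈ S} ≠ ⊤ := by
    rw [hvol]
    exact hfin
  refine ⟨len S, SA_len hSA, fun x => ENNReal.toReal_nonneg, ?_, ?_⟩
  · exact integrable_toReal_of_lintegral_ne_top hms.aemeasurable hne
  · have h1 : (∫ x : Fin m → ℝ, len S x) =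
        (∫⁻ x : Fin m → ℝ, volume {t : ℝ | pt t x ∈ S}).toReal :=
      integral_toReal hms.aemeasurable (ae_lt_top hms hne)
    rw [h1, hvol]

end Pool.Agent.PWD
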