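import Pool.Agent.PWD.CMP
import Pool.Agent.PWD.FUB
import Pool.Agent.PWQ.MSB

/-!
# The region under the graph of a semialgebraic function
-/

set_option autoImplicit false

open MeasureTheory Pool.Agent.PWQ

namespace Pool.Agent.PWD

theorem SA_init {m : ℕ} {A : (Fin m → ℝ) → ℝ} (hA : SA (graph A)) :
    SA (graph (fun z : Fin (m + 1) → ℝ => A (Fin.init z))) :=
  SA_reindex hA (fun o : Option (Fin m) =>
    (o.elim none (fun i => some i.castSucc) : Option (Fin (m + 1))))

theorem SA_region {m : ℕ} {A : (Fin m → ℝ) → ℝ} (hA : SA (graph A)) :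
    SA {z : Fin (m + 1) → ℝ | 0 < z (Fin.last m) ∧ z (Fin.last m) < A (Fin.init z)} := by
  have h1 := thm_CMP (ι := Fin (m + 1)) (κ := Unit) (fun _ z => A (Fin.init z))
    (fun _ => SA_init hA)
    {w | w ∈ {w | 0 < MvPolynomial.aeval w (MvPolynomial.X (Sum.inl (Fin.last m)) :
        MvPolynomial (Fin (m + 1) ⊕ Unit) ℚ)} ∧
      w ∈ {w | MvPolynomial.aeval w (MvPolynomial.X (Sum.inl (Fin.last m)) :
        MvPolynomial (Fin (m + 1) ⊕ Unit) ℚ) <
        MvPolynomial.aeval w (MvPolynomial.X (Sum.inr ()) :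
        MvPolynomial (Fin (m + 1) ⊕ Unit) ℚ)}}
    (SA_and (SA_pos _) (SA_lt _ _))
  simpa using h1

theorem vol_region {m : ℕ} {A : (Fin m → ℝ) → ℝ} (hA : Measurable A) :
    volume {z : Fin (m + 1) → ℝ | 0 < z (Fin.last m) ∧ z (Fin.last m) < A (Fin.init z)} =
      ∫⁻ x : Fin m → ℝ, ENNReal.ofReal (A x) := by
  have h1 := (snocM_mp m).measure_preimage_equiv
    {z : Fin (m + 1) → ℝ | 0 < z (Fin.last m) ∧ z (Fin.last m) < A (Fin.init z)}
  have h2 : (snocM m) ⁻¹' {z : Fin (m + 1) → ℝ | 0 < z (Fin.last m) ∧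
      z (Fin.last m) < A (Fin.init z)} =
      regionBetween (fun _ : Fin m → ℝ => (0 : ℝ)) A Set.univ := by
    ext p
    obtain ⟨x, t⟩ := p
    simp only [Set.mem_preimage, snocM_apply, Set.mem_setOf_eq, Fin.snoc_last, Fin.init_snoc,
      regionBetween, Set.mem_univ, true_and, Set.mem_Ioo]
  rw [← h1, h2, volume_regionBetween_eq_lintegral aemeasurable_const hA.aemeasurable
    MeasurableSet.univ]
  simp

theorem thm_SBG : St_SBG := by
  intro m A hA
  exact ⟨SA_region hA, vol_region (thm_MSF A hA)⟩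

end Pool.Agent.PWD
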