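import Pool.Agent.PWD.DefF
import Pool.Agent.PWD.SBG
import Pool.Agent.PWD.LEN

/-!
# Volumes as integrals of semialgebraic functions
-/

set_option autoImplicit false

open MeasureTheory Pool.Agent.PWQ

namespace Pool.Agent.PWD

theorem SA_graph_rat {ι : Type} (c : ℚ) : SA (graph (fun _ : ι → ℝ => (c : ℝ))) := by
  have h := SA_eq (i := Option ι) (MvPolynomial.X none) (MvPolynomial.C c)
  simpa [graph] using h

theorem SA_graph_zero {ι : Type} : SA (graph (fun _ : ι → ℝ => (0 : ℝ))) := by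
  have h := SA_graph_rat (ι := ι) 0
  simpa using h

theorem SA_posSet {ι : Type} {A : (ι → ℝ) → ℝ} (hA : SA (graph A)) : SA {x : ι → ℝ | 0 < A x} := by
  have h := thm_CMP (ι := ι) (κ := Unit) (fun _ => A) (fun _ => hA)
    {w | 0 < MvPolynomial.aeval w (MvPolynomial.X (Sum.inr ()) : MvPolynomial (ι ⊕ Unit) ℚ)}
    (SA_pos _)
  simpa using h

theorem SA_sum2 {ι : Type} {A B : (ι → ℝ) → ℝ} (hA : SA (graph A)) (hB : SA (graph B)) :
    SA (graph (fun x => A x + B x)) := by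
  have h1 := thm_DIF _ _ SA_graph_zero hB
  have h2 := thm_DIF _ _ hA h1
  simpa using h2

theorem V_of_fun {m : ℕ} {A : (Fin m → ℝ) → ℝ} (hA : SA (graph A)) (h0 : ∀ x, 0 ≤ A x)
    (hi : Integrable A) : V (m + 1) (∫ x, A x) := by
  obtain ⟨h1, h2⟩ := thm_SBG m A hA
  have h3 : ∫⁻ x : Fin m → ℝ, ENNReal.ofReal (A x) = ENNReal.ofReal (∫ x, A x) :=
    (ofReal_integral_eq_lintegral_ofReal hi (Filter.Eventually.of_forall h0)).symm
  rw [h3] at h2
  refine ⟨_, h1, ?_, ?_⟩
  · rw [h2]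
    exact ENNReal.ofReal_ne_top
  · rw [h2, ENNReal.toReal_ofReal (integral_nonneg h0)]

theorem thm_VIN : St_VIN := by
  intro m v
  constructor
  · rintro ⟨S, hS, hf, rfl⟩
    obtain ⟨l, h1, h2, h3, h4⟩ := thm_LEN m S hS hf
    exact ⟨l, h1, h2, h3, h4.symm⟩
  · rintro ⟨A, h1, h2, h3, rfl⟩
    exact V_of_fun h1 h2 h3

theorem thm_VDI : St_VDI := by
  classical
  intro m v
  constructor
  · rintro ⟨a, b, ha, hb, rfl⟩
    obtain ⟨A, h1, h2, h3, rfl⟩ := (thm_VIN m a).1 ha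
    obtain ⟨B, k1, k2, k3, rfl⟩ := (thm_VIN m b).1 hb
    exact ⟨fun x => A x - B x, thm_DIF A B h1 k1, h3.sub k3, (integral_sub h3 k3).symm⟩
  · rintro ⟨A, h1, h2, rfl⟩
    have h3 : SA (graph (fun x => if x ∈ {x : Fin m → ℝ | 0 < A x} then A x else (0 : ℝ))) :=
      thm_CAS A (fun _ => 0) {x | 0 < A x} h1 SA_graph_zero (SA_posSet h1)
    have h4 : (fun x => if x ∈ {x : Fin m → ℝ | 0 < A x} then A x else (0 : ℝ)) =
        fun x => max (A x) 0 := by
      funext x
      by_cases hx : 0 < A x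
      · simp [hx, hx.le]
      · have : A x ≤ 0 := not_lt.1 hx
        simp [hx, this]
    rw [h4] at h3
    have h5 : SA (graph (fun x => max (A x) 0 - A x)) := thm_DIF _ _ h3 h1
    have h6 : Integrable (fun x => max (A x) 0) := h2.pos_part
    have h7 : Integrable (fun x => max (A x) 0 - A x) := h6.sub h2
    refine ⟨_, _, V_of_fun h3 (fun x => le_max_right _ _) h6,
      V_of_fun h5 (fun x => sub_nonneg.2 (le_max_left _ _)) h7, ?_⟩
    rw [integral_sub h6 h2]
    ring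

theorem thm_VAD : St_VAD := by
  intro n a b hn ha hb
  obtain ⟨m, rfl⟩ : ∃ m, n = m + 1 := ⟨n - 1, by omega⟩
  obtain ⟨A, h1, h2, h3, rfl⟩ := (thm_VIN m a).1 ha
  obtain ⟨B, k1, k2, k3, rfl⟩ := (thm_VIN m b).1 hb
  rw [← integral_add h3 k3]
  exact V_of_fun (SA_sum2 h1 k1) (fun x => add_nonneg (h2 x) (k2 x)) (h3.add k3)

theorem thm_VSU : St_VSU := by
  classical
  rintro n a ⟨S, hS, hf, rfl⟩
  have h1 : SA (graph (fun x => if x ∈ S then (1 : ℝ) else 0)) := by
    have h := SA_graph_rat (ι := Fin n) 1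
    have h2 := thm_CAS (fun _ : Fin n → ℝ => ((1 : ℚ) : ℝ)) (fun _ => 0) S h SA_graph_zero hS
    simpa using h2
  have hm : MeasurableSet S := measurableSet_of_SA hS
  have h3 : (fun x => if x ∈ S then (1 : ℝ) else 0) = S.indicator (fun _ => (1 : ℝ)) := by
    funext x
    simp [Set.indicator]
  have h4 : Integrable (S.indicator (fun _ : Fin n → ℝ => (1 : ℝ))) := by
    rw [integrable_indicator_iff hm]
    exact integrableOn_const hf
  have h5 : (∫ x, S.indicator (fun _ : Fin n → ℝ => (1 : ℝ)) x) = (volume S).toReal := by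
    rw [integral_indicator hm]
    simp [Measure.real]
  have h6 := V_of_fun (m := n) (A := fun x => if x ∈ S then (1 : ℝ) else 0) h1
    (fun x => by split_ifs <;> norm_num) (by rw [h3]; exact h4)
  rw [h3, h5] at h6
  exact h6

end Pool.Agent.PWD
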