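import Pool.Agent.PWD.DefF
import Pool.Agent.PWD.LEN
import Pool.Agent.PWD.SBG

/-!
# Lengths on the line are the algebraic numbers (helper15)
-/

set_option autoImplicit false

open MeasureTheory Set
open Pool.Agent.PWQ

namespace Pool.Agent.PWD

/-- an algebraic constant is a semialgebraic function -/
theorem SA_alg {ι : Type} {a : ℝ} (ha : IsAlgebraic ℚ a) :
    SA (graph fun _ : ι → ℝ => a) := by
  obtain ⟨p, hp0, hp⟩ := ha
  have hfin : (p.rootSet ℝ \ {a}).Finite := (Polynomial.rootSet_finite p ℝ).sdiff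
  obtain ⟨δ, hδ, hball⟩ := Metric.isOpen_iff.1 hfin.isClosed.isOpen_compl a (fun h => h.2 rfl)
  obtain ⟨q1, h1, h2⟩ := exists_rat_btwn (sub_lt_self a hδ)
  obtain ⟨q2, h3, h4⟩ := exists_rat_btwn (lt_add_of_pos_right a hδ)
  have hP : SA {z : Option ι → ℝ | Polynomial.aeval (z none) p = 0} := by
    have := SA_zero (Polynomial.aeval (MvPolynomial.X none : MvPolynomial (Option ι) ℚ) p)
    refine (congrArg SA ?_).mp this
    ext z
    change MvPolynomial.aeval z (Polynomial.aeval (MvPolynomial.X none) p) = 0 ↔ _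
    rw [← Polynomial.aeval_algHom_apply, MvPolynomial.aeval_X]
    rfl
  have hQ1 : SA {z : Option ι → ℝ | (q1 : ℝ) < z none} := by
    have := SA_lt (MvPolynomial.C q1 : MvPolynomial (Option ι) ℚ) (MvPolynomial.X none)
    simpa only [MvPolynomial.aeval_X, MvPolynomial.aeval_C, eq_ratCast] using this
  have hQ2 : SA {z : Option ι → ℝ | z none < (q2 : ℝ)} := by
    have := SA_lt (MvPolynomial.X none) (MvPolynomial.C q2 : MvPolynomial (Option ι) ℚ)
    simpa only [MvPolynomial.aeval_X, MvPolynomial.aeval_C, eq_ratCast] using this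
  refine (congrArg SA ?_).mp (SA_and hP (SA_and hQ1 hQ2))
  ext z
  change (Polynomial.aeval (z none) p = 0 ∧ (q1 : ℝ) < z none ∧ z none < (q2 : ℝ)) ↔ z none = a
  constructor
  · rintro ⟨h5, h6, h7⟩
    by_contra h8
    have h9 : z none ∈ Metric.ball a δ := by
      rw [Metric.mem_ball, Real.dist_eq, abs_lt]
      constructor <;> linarith
    exact hball h9 ⟨(Polynomial.mem_rootSet.2 ⟨hp0, h5⟩), h8⟩
  · intro h
    rw [h]
    exact ⟨hp, h2, h3⟩

/-- a semialgebraic point is algebraic -/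
theorem alg_of_SA {ι : Type} [Unique ι] {a : ℝ} (ha : SA {z : ι → ℝ | z default = a}) :
    IsAlgebraic ℚ a := by
  obtain ⟨T, hT⟩ := SA_iff_basic.1 ha
  have h1 : (fun _ => a : ι → ℝ) ∈ {z : ι → ℝ | z default = a} := rfl
  rw [hT] at h1
  obtain ⟨c, hc, h2, h3⟩ := h1
  by_contra htr
  have hai : AlgebraicIndependent ℚ (fun _ : ι => a) :=
    algebraicIndependent_unique_type_iff.2 htr
  have h4 : c.1 = 0 := by
    have := algebraicIndependent_iff.1 hai c.1 h2
    exact this
  obtain ⟨δ, hδ, hball⟩ := Metric.isOpen_iff.1 (isOpen_pos c.2) _ h3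
  have h5 : (fun _ => a + δ / 2 : ι → ℝ) ∈ Metric.ball (fun _ => a : ι → ℝ) δ := by
    rw [Metric.mem_ball, dist_pi_lt_iff hδ]
    intro _
    rw [Real.dist_eq, abs_lt]
    constructor <;> linarith
  have h6 : (fun _ => a + δ / 2 : ι → ℝ) ∈ {z : ι → ℝ | z default = a} := by
    rw [hT]
    exact ⟨c, hc, by rw [h4, map_zero], hball h5⟩
  change a + δ / 2 = a at h6
  linarith

theorem thm_VON : St_VON := by
  intro a
  constructor
  · rintro ⟨S, hS, hS1, hS2⟩
    refine ⟨by rw [hS2]; exact ENNReal.toReal_nonneg, ?_⟩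
    obtain ⟨l, hl, -, -, hl4⟩ := thm_LEN 0 S hS hS1
    rw [← hS2] at hl4
    have h1 : (∫ x : Fin 0 → ℝ, l x) = l default := by
      rw [volume_pi, Measure.pi_of_empty, integral_dirac]
      exact congrArg l (Subsingleton.elim _ _)
    rw [h1] at hl4
    have : Unique (Option (Fin 0)) := ⟨⟨none⟩, fun o => by cases o with
      | none => rfl
      | some i => exact i.elim0⟩
    refine alg_of_SA (ι := Option (Fin 0)) ?_
    refine (congrArg SA ?_).mp hl
    ext z
    have e : graph l = {z : Option (Fin 0) → ℝ | z none = l (fun i => z (some i))} := rfl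
    have e2 : (fun i : Fin 0 => z (some i)) = default := Subsingleton.elim _ _
    rw [e, Set.mem_ofPred_eq, Set.mem_ofPred_eq, e2, hl4]
    exact iff_of_eq (congrArg (fun o : Option (Fin 0) => z o = a) (Subsingleton.elim _ _))
  · rintro ⟨ha0, ha⟩
    obtain ⟨h1, h2⟩ := thm_SBG 0 (fun _ => a) (SA_alg ha)
    have h3 : (∫⁻ _ : Fin 0 → ℝ, ENNReal.ofReal a) = ENNReal.ofReal a := by
      rw [volume_pi, Measure.pi_of_empty, lintegral_dirac]
    rw [h3] at h2
    refine ⟨_, h1, ?_, ?_⟩
    · rw [h2]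
      exact ENNReal.ofReal_ne_top
    · rw [h2, ENNReal.toReal_ofReal ha0]

end Pool.Agent.PWD
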