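import Pool.Agent.PWD.StV
import Pool.Agent.PWD.VIN
import Pool.Agent.PWD.VON
import Pool.Agent.PWQ.MSB

/-!
# PWD [VSA]: a rational number can be subtracted from a larger volume
-/

set_option autoImplicit false

open MeasureTheory Filter Topology Set
open Pool.Agent.PWQ

namespace Pool.Agent.PWD

/-- a semialgebraic set is open up to a null set -/
theorem vsa_open {ι : Type} [Fintype ι] {S : Set (ι → ℝ)} (hS : SA S) :
    ∃ U, U ⊆ S ∧ IsOpen U ∧ volume U = volume S := by
  classical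
  obtain ⟨T, hT⟩ := SA_iff_basic.1 hS
  obtain ⟨U, hU⟩ : ∃ U : Set (ι → ℝ), U = ⋃ c ∈ T.filter (fun c => c.1 = 0),
    {x | ∀ g ∈ c.2, 0 < MvPolynomial.aeval x g} := ⟨_, rfl⟩
  have hmem : ∀ x, x ∈ U ↔ ∃ c ∈ T, c.1 = 0 ∧ ∀ g ∈ c.2, 0 < MvPolynomial.aeval x g := by
    intro x
    rw [hU, mem_iUnion₂]
    constructor
    · rintro ⟨c, hc, hx⟩
      rw [Finset.mem_filter] at hc
      exact ⟨c, hc.1, hc.2, hx⟩
    · rintro ⟨c, hc, h0, hx⟩
      exact ⟨c, Finset.mem_filter.2 ⟨hc, h0⟩, hx⟩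
  have hUS : U ⊆ S := by
    intro x hx
    obtain ⟨c, hc, h0, hx⟩ := (hmem x).1 hx
    rw [hT]
    exact ⟨c, hc, by rw [h0, map_zero], hx⟩
  refine ⟨U, hUS, ?_, ?_⟩
  · rw [hU]
    exact isOpen_biUnion fun c _ => isOpen_pos c.2
  · refine le_antisymm (measure_mono hUS) ?_
    have h1 : ∀ᵐ x : ι → ℝ, ∀ c ∈ T, c.1 ≠ 0 → MvPolynomial.aeval x c.1 ≠ 0 := by
      rw [eventually_all_finset]
      intro c _
      by_cases h0 : c.1 = 0
      · exact Eventually.of_forall fun x h => absurd h0 h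
      · exact (ae_aeval_ne c.1 h0).mono fun x hx _ => hx
    have h5 : ∀ᵐ x : ι → ℝ, x ∈ S → x ∈ U := by
      refine h1.mono fun x hx hxS => ?_
      rw [hT] at hxS
      obtain ⟨c, hc, h2, h3⟩ := hxS
      have h4 : c.1 = 0 := by
        by_contra h4
        exact hx c hc h4 h2
      exact (hmem x).2 ⟨c, hc, h4, h3⟩
    exact measure_mono_ae h5

/-- the cube of the grid of mesh `1/N` which contains `x` -/
noncomputable def vcell {n : ℕ} (N : ℕ) (x : Fin n → ℝ) (i : Fin n) : ℤ := ⌊(N : ℝ) * x i⌋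

/-- finite unions of cubes of a grid inside an open set -/
theorem vsa_grid {n : ℕ} {U : Set (Fin n → ℝ)} (hU : IsOpen U) {r : ENNReal}
    (hr : r < volume U) : ∃ (N : ℕ) (T : Finset (Fin n → ℤ)), 0 < N ∧
      {x : Fin n → ℝ | vcell N x ∈ T} ⊆ U ∧ r < volume {x : Fin n → ℝ | vcell N x ∈ T} := by
  classical
  obtain ⟨K, hKU, hK, hrK⟩ := hU.exists_lt_isCompact hr
  obtain ⟨δ, hδ, hth⟩ := hK.exists_thickening_subset_open hU hKU
  obtain ⟨N, hN⟩ := exists_nat_gt (1 / δ)
  have hN0 : (0 : ℝ) < N := lt_trans (by positivity) hN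
  have hNδ : 1 / (N : ℝ) < δ := by
    rw [div_lt_iff₀ hN0]
    rw [div_lt_iff₀ hδ] at hN
    linarith
  obtain ⟨R, hR⟩ := hK.isBounded.exists_norm_le
  have hfin : (vcell (n := n) N '' K).Finite := by
    refine Set.Finite.subset (Set.finite_Icc (fun _ : Fin n => ⌊-(N * R)⌋) fun _ => ⌊N * R⌋) ?_
    rintro _ ⟨x, hx, rfl⟩
    have h1 : ∀ i, |x i| ≤ R := fun i => (norm_le_pi_norm x i).trans (hR x hx)
    constructor
    · intro i
      refine Int.floor_le_floor ?_
      have := (abs_le.1 (h1 i)).1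
      nlinarith
    · intro i
      refine Int.floor_le_floor ?_
      have := (abs_le.1 (h1 i)).2
      nlinarith
  refine ⟨N, hfin.toFinset, by exact_mod_cast hN0, ?_, lt_of_lt_of_le hrK (measure_mono ?_)⟩
  · intro x hx
    have hx' : vcell N x ∈ hfin.toFinset := hx
    rw [Set.Finite.mem_toFinset] at hx'
    obtain ⟨y, hy, hxy⟩ := hx'
    refine hth (Metric.mem_thickening_iff.2 ⟨y, hy, ?_⟩)
    refine lt_of_le_of_lt ?_ hNδ
    rw [dist_pi_le_iff (by positivity)]
    intro i
    have h2 : ⌊(N : ℝ) * y i⌋ = ⌊(N : ℝ) * x i⌋ := congrFun hxy i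
    have h3 := Int.abs_sub_lt_one_of_floor_eq_floor h2
    rw [Real.dist_eq, abs_sub_comm, le_div_iff₀ hN0]
    have h4 : |(N : ℝ) * y i - N * x i| = |y i - x i| * N := by
      rw [← mul_sub, abs_mul, abs_of_pos hN0, mul_comm]
    linarith
  · intro x hx
    change vcell N x ∈ hfin.toFinset
    rw [Set.Finite.mem_toFinset]
    exact ⟨x, hx, rfl⟩

theorem vsa_cube {n : ℕ} (N : ℕ) (hN : 0 < N) (c : Fin n → ℤ) :
    {x : Fin n → ℝ | vcell N x = c} =
      Set.pi univ fun i => Ico ((c i : ℝ) / N) ((c i + 1 : ℝ) / N) := by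
  have hN0 : (0 : ℝ) < N := by exact_mod_cast hN
  ext x
  constructor
  · intro h i _
    have h1 : ⌊(N : ℝ) * x i⌋ = c i := congrFun h i
    rw [Int.floor_eq_iff] at h1
    exact ⟨by rw [div_le_iff₀ hN0]; linarith [h1.1], by rw [lt_div_iff₀ hN0]; linarith [h1.2]⟩
  · intro h
    funext i
    have h1 := h i (mem_univ i)
    change ⌊(N : ℝ) * x i⌋ = c i
    rw [Int.floor_eq_iff]
    have h2 := h1.1
    have h3 := h1.2
    rw [div_le_iff₀ hN0] at h2
    rw [lt_div_iff₀ hN0] at h3
    exact ⟨by linarith, by linarith⟩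

theorem vsa_vol {n : ℕ} (N : ℕ) (hN : 0 < N) (T : Finset (Fin n → ℤ)) :
    volume {x : Fin n → ℝ | vcell N x ∈ T} = T.card * ENNReal.ofReal ((1 / (N : ℝ)) ^ n) := by
  have hN0 : (0 : ℝ) < N := by exact_mod_cast hN
  have e : {x : Fin n → ℝ | vcell N x ∈ T} = ⋃ c ∈ T, {x : Fin n → ℝ | vcell N x = c} := by
    ext x
    rw [mem_iUnion₂]
    constructor
    · exact fun h => ⟨vcell N x, h, rfl⟩
    · rintro ⟨c, hc, hx⟩
      change vcell N x ∈ T
      rw [show vcell N x = c from hx]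
      exact hc
  have h1 : ∀ c : Fin n → ℤ, volume {x : Fin n → ℝ | vcell N x = c} =
      ENNReal.ofReal ((1 / (N : ℝ)) ^ n) := by
    intro c
    rw [vsa_cube N hN, Real.volume_pi_Ico, ENNReal.ofReal_pow (by positivity)]
    have h2 : ∀ i : Fin n, ENNReal.ofReal ((c i + 1 : ℝ) / N - (c i : ℝ) / N) =
        ENNReal.ofReal (1 / (N : ℝ)) := by
      intro i
      congr 1
      ring
    rw [Finset.prod_congr rfl fun i _ => h2 i, Finset.prod_const, Finset.card_univ,
      Fintype.card_fin]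
  rw [e, measure_biUnion_finset]
  · rw [Finset.sum_congr rfl fun c _ => h1 c, Finset.sum_const, nsmul_eq_mul]
  · intro c _ c' _ hcc
    rw [Function.onFun, Set.disjoint_left]
    intro x hx hx'
    exact hcc (hx.symm.trans hx')
  · intro c _
    rw [vsa_cube N hN]
    exact MeasurableSet.univ_pi fun i => measurableSet_Ico

theorem vsa_SA {n : ℕ} (N : ℕ) (T : Finset (Fin n → ℤ)) :
    SA {x : Fin n → ℝ | vcell N x ∈ T} := by
  have h1 : ∀ c : Fin n → ℤ, SA {x : Fin n → ℝ | vcell N x = c} := by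
    intro c
    have h2 := SA_ball (Finset.univ : Finset (Fin n)) (fun i => {x : Fin n → ℝ |
      (x ∈ {x : Fin n → ℝ | MvPolynomial.aeval x (MvPolynomial.C (c i : ℚ)) ≤
        MvPolynomial.aeval x (MvPolynomial.C (N : ℚ) * MvPolynomial.X i)}) ∧
      (x ∈ {x : Fin n → ℝ | MvPolynomial.aeval x (MvPolynomial.C (N : ℚ) * MvPolynomial.X i) <
        MvPolynomial.aeval x (MvPolynomial.C ((c i : ℚ) + 1))})}) fun i _ =>
      SA_and (SA_le _ _) (SA_lt _ _)
    have e : {x : Fin n → ℝ | vcell N x = c} = {x | ∀ k ∈ (Finset.univ : Finset (Fin n)),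
      x ∈ (fun i => {x : Fin n → ℝ |
      (x ∈ {x : Fin n → ℝ | MvPolynomial.aeval x (MvPolynomial.C (c i : ℚ)) ≤
        MvPolynomial.aeval x (MvPolynomial.C (N : ℚ) * MvPolynomial.X i)}) ∧
      (x ∈ {x : Fin n → ℝ | MvPolynomial.aeval x (MvPolynomial.C (N : ℚ) * MvPolynomial.X i) <
        MvPolynomial.aeval x (MvPolynomial.C ((c i : ℚ) + 1))})}) k} := by
      ext x
      have h3 : x ∈ {x : Fin n → ℝ | vcell N x = c} ↔
          ∀ i, (c i : ℝ) ≤ N * x i ∧ (N : ℝ) * x i < c i + 1 := by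
        constructor
        · intro h i
          exact Int.floor_eq_iff.1 (congrFun h i)
        · intro h
          funext i
          exact Int.floor_eq_iff.2 (h i)
      rw [h3]
      constructor
      · intro h i _
        constructor
        · change MvPolynomial.aeval x _ ≤ MvPolynomial.aeval x _
          simpa using (h i).1
        · change MvPolynomial.aeval x _ < MvPolynomial.aeval x _
          simpa using (h i).2
      · intro h i
        have h4 := h i (Finset.mem_univ i)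
        have h5 : MvPolynomial.aeval x (MvPolynomial.C (c i : ℚ)) ≤
          MvPolynomial.aeval x (MvPolynomial.C (N : ℚ) * MvPolynomial.X i) := h4.1
        have h6 : MvPolynomial.aeval x (MvPolynomial.C (N : ℚ) * MvPolynomial.X i) <
          MvPolynomial.aeval x (MvPolynomial.C ((c i : ℚ) + 1)) := h4.2
        constructor
        · simpa using h5
        · simpa using h6
    rw [e]
    exact h2
  have h2 := SA_bex T (fun c => {x : Fin n → ℝ | vcell N x = c}) fun c _ => h1 c
  have e : {x : Fin n → ℝ | vcell N x ∈ T} =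
      {x | ∃ c ∈ T, x ∈ (fun c => {x : Fin n → ℝ | vcell N x = c}) c} := by
    ext x
    constructor
    · exact fun h => ⟨vcell N x, h, rfl⟩
    · rintro ⟨c, hc, hx⟩
      change vcell N x ∈ T
      rw [show vcell N x = c from hx]
      exact hc
  rw [e]
  exact h2

/-- nonnegative rational numbers are volumes -/
theorem vsa_rat (q : ℚ) (hq : 0 ≤ q) (m : ℕ) : V (m + 1) (q : ℝ) := by
  induction m with
  | zero => exact (thm_VON _).2 ⟨by exact_mod_cast hq, isAlgebraic_algebraMap q⟩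
  | succ m ih => exact thm_VSU _ _ ih

/-- [VSA] a rational number can be subtracted from a larger volume -/
theorem thm_VSA : St_VSA := by
  intro n v C hn hV hC
  obtain ⟨m, rfl⟩ : ∃ m, n = m + 1 := ⟨n - 1, by omega⟩
  rcases le_or_gt C 0 with hC0 | hC0
  · have h1 := vsa_rat (-C) (by linarith) m
    have h2 := thm_VAD (m + 1) _ _ hn hV h1
    have e : v - (C : ℝ) = v + ((-C : ℚ) : ℝ) := by push_cast; ring
    rw [e]
    exact h2
  · obtain ⟨S, hS, hfin, rfl⟩ := hV
    obtain ⟨U, hUS, hU, hvol⟩ := vsa_open hS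
    have hr : ENNReal.ofReal (C : ℝ) < volume U := by
      rw [hvol]
      exact (ENNReal.ofReal_lt_iff_lt_toReal (by exact_mod_cast hC0.le) hfin).2 hC
    obtain ⟨N, T, hN, hTU, hT⟩ := vsa_grid hU hr
    set F : Set (Fin (m + 1) → ℝ) := {x | vcell N x ∈ T} with hF
    have hFS : F ⊆ S := hTU.trans hUS
    have hFSA : SA F := vsa_SA N T
    have hFfin : volume F ≠ ⊤ := ne_top_of_le_ne_top hfin (measure_mono hFS)
    have hFv : (volume F).toReal = ((T.card * (1 / (N : ℚ)) ^ (m + 1) : ℚ) : ℝ) := by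
      rw [hF, vsa_vol N hN T, ENNReal.toReal_mul, ENNReal.toReal_natCast,
        ENNReal.toReal_ofReal (by positivity)]
      push_cast
      ring
    have hCF : (C : ℝ) < (volume F).toReal :=
      (ENNReal.ofReal_lt_iff_lt_toReal (by exact_mod_cast hC0.le) hFfin).1 hT
    have h1 : V (m + 1) ((volume (S \ F)).toReal) :=
      ⟨S \ F, SA_diff hS hFSA, ne_top_of_le_ne_top hfin (measure_mono sdiff_subset), rfl⟩
    have h2 : (volume (S \ F)).toReal = (volume S).toReal - (volume F).toReal := by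
      rw [measure_sdiff hFS (measurableSet_of_SA hFSA).nullMeasurableSet hFfin,
        ENNReal.toReal_sub_of_le (measure_mono hFS) hfin]
    have h3 : V (m + 1) (((T.card * (1 / (N : ℚ)) ^ (m + 1) - C : ℚ)) : ℝ) := by
      refine vsa_rat _ ?_ m
      rw [hFv] at hCF
      have : C < T.card * (1 / (N : ℚ)) ^ (m + 1) := by exact_mod_cast hCF
      linarith
    have h4 := thm_VAD (m + 1) _ _ hn h1 h3
    have e : (volume S).toReal - (C : ℝ) =
        (volume (S \ F)).toReal + (((T.card * (1 / (N : ℚ)) ^ (m + 1) - C : ℚ)) : ℝ) := by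
      rw [h2, hFv]
      push_cast
      ring
    rw [e]
    exact h4

end Pool.Agent.PWD
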