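import Pool.Agent.PWD.StV

/-!
# Growth at `0` of a function which satisfies a polynomial relation (VSG)
-/

set_option autoImplicit false

open MeasureTheory Filter Topology

namespace Pool.Agent.PWD

namespace VSGx

/-- The size of a polynomial near `0`. -/
theorem size (p : Polynomial ℝ) (hp : p ≠ 0) : ∃ c C : ℝ, 0 < c ∧ 0 < C ∧
    ∃ o ≤ p.natDegree, ∀ᶠ w in 𝓝[>] (0 : ℝ), c * w ^ o ≤ |p.eval w| ∧ |p.eval w| ≤ C * w ^ o := by
  obtain ⟨q, hq, hqd⟩ := Polynomial.exists_eq_pow_rootMultiplicity_mul_and_not_dvd p hp 0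
  rw [Polynomial.C_0, sub_zero] at hq hqd
  set o := p.rootMultiplicity 0 with ho
  have hq0 : q ≠ 0 := by
    rintro rfl
    exact hqd (dvd_zero _)
  have hqe : q.eval 0 ≠ 0 := by
    intro h
    apply hqd
    have h1 := Polynomial.dvd_iff_isRoot.2 (show q.IsRoot 0 from h)
    rwa [Polynomial.C_0, sub_zero] at h1
  have hpos : 0 < |q.eval 0| := abs_pos.2 hqe
  refine ⟨|q.eval 0| / 2, 2 * |q.eval 0|, by positivity, by positivity, o, ?_, ?_⟩
  · rw [hq, Polynomial.natDegree_mul (pow_ne_zero _ Polynomial.X_ne_zero) hq0,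
      Polynomial.natDegree_X_pow]
    omega
  · have hc : Tendsto (fun w : ℝ => |q.eval w|) (𝓝[>] 0) (𝓝 |q.eval 0|) :=
      (q.continuous.abs.tendsto 0).mono_left nhdsWithin_le_nhds
    filter_upwards [hc.eventually (lt_mem_nhds (half_lt_self hpos)),
      hc.eventually (gt_mem_nhds (show |q.eval 0| < 2 * |q.eval 0| by linarith)),
      self_mem_nhdsWithin] with w h1 h2 hw
    have hw0 : (0 : ℝ) < w := hw
    have hwo : 0 < w ^ o := pow_pos hw0 o
    have he : |p.eval w| = w ^ o * |q.eval w| := by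
      rw [hq, Polynomial.eval_mul, Polynomial.eval_pow, Polynomial.eval_X, abs_mul,
        abs_of_pos hwo]
    rw [he, mul_comm _ (w ^ o), mul_comm _ (w ^ o)]
    exact ⟨mul_le_mul_of_nonneg_left h1.le hwo.le, mul_le_mul_of_nonneg_left h2.le hwo.le⟩

/-- Common constants. -/
theorem sizes (p : ℕ → Polynomial ℝ) (D : ℕ) (hD : ∀ i, (p i).natDegree ≤ D) (d : ℕ) :
    ∃ c C : ℝ, 0 < c ∧ 0 < C ∧ ∃ o : ℕ → ℕ, (∀ i, o i ≤ D) ∧ ∀ᶠ w in 𝓝[>] (0 : ℝ),
      ∀ i ≤ d, p i ≠ 0 → c * w ^ o i ≤ |(p i).eval w| ∧ |(p i).eval w| ≤ C * w ^ o i := by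
  have h : ∀ i, ∃ c C : ℝ, 0 < c ∧ 0 < C ∧ ∃ o ≤ D, (p i ≠ 0 → ∀ᶠ w in 𝓝[>] (0 : ℝ),
      c * w ^ o ≤ |(p i).eval w| ∧ |(p i).eval w| ≤ C * w ^ o) := by
    intro i
    by_cases hp : p i = 0
    · exact ⟨1, 1, one_pos, one_pos, 0, Nat.zero_le _, fun h => absurd hp h⟩
    · obtain ⟨c, C, hc, hC, o, ho, h⟩ := size (p i) hp
      exact ⟨c, C, hc, hC, o, ho.trans (hD i), fun _ => h⟩
  choose c C hc hC o ho h using h
  have hne : (Finset.range (d + 1)).Nonempty := ⟨0, by simp⟩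
  obtain ⟨i0, -, hi0⟩ := Finset.exists_min_image (Finset.range (d + 1)) c hne
  obtain ⟨i1, -, hi1⟩ := Finset.exists_max_image (Finset.range (d + 1)) C hne
  refine ⟨c i0, C i1, hc i0, hC i1, o, ho, ?_⟩
  have h2 : ∀ᶠ w in 𝓝[>] (0 : ℝ), ∀ i ∈ Finset.range (d + 1), p i ≠ 0 →
      c i * w ^ o i ≤ |(p i).eval w| ∧ |(p i).eval w| ≤ C i * w ^ o i := by
    rw [Filter.eventually_all_finset]
    intro i _
    by_cases hp : p i = 0
    · exact Eventually.of_forall fun w h => absurd hp h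
    · filter_upwards [h i hp] with w hw _ using hw
  filter_upwards [h2, self_mem_nhdsWithin] with w hw hw0 i hi hp
  have hw0' : (0 : ℝ) < w := hw0
  have hi' : i ∈ Finset.range (d + 1) := by simp; omega
  obtain ⟨h3, h4⟩ := hw i hi' hp
  have hwo : 0 ≤ w ^ o i := (pow_pos hw0' _).le
  exact ⟨(mul_le_mul_of_nonneg_right (hi0 i hi') hwo).trans h3,
    h4.trans (mul_le_mul_of_nonneg_right (hi1 i hi') hwo)⟩

/-- Two terms of the same size. -/
theorem two {d : ℕ} {x : ℕ → ℝ} (hs : ∑ i ∈ Finset.range (d + 1), x i = 0)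
    (hne : ∃ i ≤ d, x i ≠ 0) : ∃ i ≤ d, ∃ j < i, x i ≠ 0 ∧ x j ≠ 0 ∧
      |x i| ≤ (d + 1) * |x j| ∧ |x j| ≤ (d + 1) * |x i| := by
  obtain ⟨i0, hi0, hm⟩ := Finset.exists_max_image (Finset.range (d + 1)) (fun i => |x i|)
    ⟨0, by simp⟩
  have hi0' : i0 ≤ d := by simpa [Nat.lt_succ_iff] using hi0
  have hx0 : x i0 ≠ 0 := by
    obtain ⟨i, hi, hxi⟩ := hne
    intro h
    have h1 := hm i (by simp; omega)
    simp only [h, abs_zero] at h1
    exact hxi (abs_nonpos_iff.1 h1)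
  have h1 : |x i0| ≤ ∑ i ∈ (Finset.range (d + 1)).erase i0, |x i| := by
    have h2 := Finset.add_sum_erase (Finset.range (d + 1)) x hi0
    rw [hs] at h2
    have h3 : x i0 = - ∑ i ∈ (Finset.range (d + 1)).erase i0, x i := by linarith
    rw [h3, abs_neg]
    exact Finset.abs_sum_le_sum_abs _ _
  have h4 : ∃ j ∈ (Finset.range (d + 1)).erase i0, |x i0| ≤ (d + 1) * |x j| := by
    by_contra hcon
    push Not at hcon
    have h5 : ∑ j ∈ (Finset.range (d + 1)).erase i0, ((d : ℝ) + 1) * |x j| ≤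
        ∑ j ∈ (Finset.range (d + 1)).erase i0, |x i0| :=
      Finset.sum_le_sum fun j hj => (hcon j hj).le
    rw [← Finset.mul_sum, Finset.sum_const, Finset.card_erase_of_mem hi0, Finset.card_range,
      nsmul_eq_mul] at h5
    have h6 : 0 < |x i0| := abs_pos.2 hx0
    have h7 : ((d : ℝ) + 1) * |x i0| ≤ (d : ℝ) * |x i0| := by
      refine (mul_le_mul_of_nonneg_left h1 (by positivity)).trans (h5.trans (le_of_eq ?_))
      simp
    nlinarith
  obtain ⟨j, hj, hij⟩ := h4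
  have hj0 : j ≠ i0 := (Finset.mem_erase.1 hj).1
  have hjd : j ≤ d := by simpa [Nat.lt_succ_iff] using (Finset.mem_erase.1 hj).2
  have hxj : x j ≠ 0 := by
    intro h
    rw [h, abs_zero, mul_zero] at hij
    exact hx0 (abs_nonpos_iff.1 hij)
  have hji : |x j| ≤ (d + 1) * |x i0| := by
    have h8 := hm j (Finset.mem_erase.1 hj).2
    have h9 : |x i0| ≤ ((d : ℝ) + 1) * |x i0| := by
      have h10 : 0 ≤ |x i0| := abs_nonneg _
      have h11 : (0 : ℝ) ≤ d := Nat.cast_nonneg d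
      nlinarith
    exact h8.trans h9
  rcases lt_or_gt_of_ne hj0 with h | h
  · exact ⟨i0, hi0', j, h, hx0, hxj, hij, hji⟩
  · exact ⟨j, hjd, i0, h, hxj, hx0, hji, hij⟩

end VSGx

open VSGx in
theorem thm_VSG : St_VSG := by
  intro d D p g hne hD hrel
  obtain ⟨c0, C0, hc0, hC0, o, ho, hsz⟩ := sizes p D hD d
  have hd1 : (0 : ℝ) < d + 1 := by positivity
  refine ⟨c0 / ((d + 1) * C0), (d + 1) * C0 / c0, by positivity, by positivity, ?_⟩
  filter_upwards [hrel, hsz, self_mem_nhdsWithin] with w hw1 hw2 hw0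
  have hw : (0 : ℝ) < w := hw0
  obtain ⟨hg0, hsum⟩ := hw1
  rcases hg0.eq_or_lt with hg | hg
  · exact Or.inl hg.symm
  · refine Or.inr ?_
    obtain ⟨i, hi, j, hji, hxi, hxj, h1, h2⟩ := two hsum (by
      obtain ⟨i, hi, hpi⟩ := hne
      refine ⟨i, hi, mul_ne_zero ?_ (pow_pos hg i).ne'⟩
      have h3 := (hw2 i hi hpi).1
      have h4 : 0 < c0 * w ^ o i := mul_pos hc0 (pow_pos hw _)
      exact abs_pos.1 (h4.trans_le h3))
    have hpi : p i ≠ 0 := by
      intro h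
      rw [h, Polynomial.eval_zero, zero_mul] at hxi
      exact hxi rfl
    have hpj : p j ≠ 0 := by
      intro h
      rw [h, Polynomial.eval_zero, zero_mul] at hxj
      exact hxj rfl
    obtain ⟨a1, a2⟩ := hw2 i hi hpi
    obtain ⟨b1, b2⟩ := hw2 j (hji.le.trans hi) hpj
    obtain ⟨k, rfl⟩ : ∃ k, i = j + k := ⟨i - j, by omega⟩
    have hgj : 0 < g w ^ j := pow_pos hg j
    have hgk : 0 < g w ^ k := pow_pos hg k
    have e1 : |(p (j + k)).eval w * g w ^ (j + k)| =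
        g w ^ j * (|(p (j + k)).eval w| * g w ^ k) := by
      rw [abs_mul, abs_of_pos (pow_pos hg _), pow_add]
      ring
    have e2 : |(p j).eval w * g w ^ j| = g w ^ j * |(p j).eval w| := by
      rw [abs_mul, abs_of_pos hgj]
      ring
    rw [e1, e2] at h1 h2
    have h1' : |(p (j + k)).eval w| * g w ^ k ≤ (d + 1) * |(p j).eval w| := by
      have : g w ^ j * (|(p (j + k)).eval w| * g w ^ k) ≤
        g w ^ j * ((d + 1) * |(p j).eval w|) := by linarith
      exact le_of_mul_le_mul_left this hgj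
    have h2' : |(p j).eval w| ≤ (d + 1) * (|(p (j + k)).eval w| * g w ^ k) := by
      have : g w ^ j * |(p j).eval w| ≤
        g w ^ j * ((d + 1) * (|(p (j + k)).eval w| * g w ^ k)) := by linarith
      exact le_of_mul_le_mul_left this hgj
    refine ⟨k, o j, o (j + k), by omega, by omega, ho j, ho (j + k), ?_, ?_⟩
    · rw [div_mul_eq_mul_div, div_le_iff₀ (by positivity)]
      calc c0 * w ^ o j ≤ |(p j).eval w| := b1
        _ ≤ (d + 1) * (|(p (j + k)).eval w| * g w ^ k) := h2'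
        _ ≤ (d + 1) * ((C0 * w ^ o (j + k)) * g w ^ k) := by gcongr
        _ = g w ^ k * w ^ o (j + k) * ((d + 1) * C0) := by ring
    · rw [div_mul_eq_mul_div, le_div_iff₀ hc0]
      calc g w ^ k * w ^ o (j + k) * c0 = (c0 * w ^ o (j + k)) * g w ^ k := by ring
        _ ≤ |(p (j + k)).eval w| * g w ^ k := by gcongr
        _ ≤ (d + 1) * |(p j).eval w| := h1'
        _ ≤ (d + 1) * (C0 * w ^ o j) := by gcongr
        _ = (d + 1) * C0 * w ^ o j := by ring

end Pool.Agent.PWD
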