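import Pool.Agent.PWD.StV

/-!
# The one-variable bound (VSO)
-/

set_option autoImplicit false

open MeasureTheory Filter Topology

namespace Pool.Agent.PWD

namespace VSOx

/-! ### Polynomial relations near `0` -/

/-- a polynomial relation for the germ of `g` at `0+` -/
def Rl (d D : ℕ) (g : ℝ → ℝ) : Prop := ∃ p : ℕ → Polynomial ℝ, (∃ i ≤ d, p i ≠ 0) ∧
  (∀ i, (p i).natDegree ≤ D) ∧
  ∀ᶠ w in 𝓝[>] (0 : ℝ), ∑ i ∈ Finset.range (d + 1), (p i).eval w * g w ^ i = 0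

theorem rl_shift {d D : ℕ} {p : ℕ → Polynomial ℝ} {A : ℝ → ℝ} (hp : ∃ i ≤ d, p i ≠ 0)
    (hD : ∀ i, (p i).natDegree ≤ D)
    (hr : ∀ y, ∑ i ∈ Finset.range (d + 1), (p i).eval y * A y ^ i = 0) (z s : ℝ) (hs : s ≠ 0) :
    Rl d D (fun w => A (z + s * w)) := by
  refine ⟨fun i => (p i).comp (Polynomial.C z + Polynomial.C s * Polynomial.X), ?_, ?_, ?_⟩
  · obtain ⟨i, hi, hpi⟩ := hp
    refine ⟨i, hi, fun h => hpi (Polynomial.funext fun y => ?_)⟩
    have h1 := congrArg (Polynomial.eval ((y - z) / s)) h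
    simp only [Polynomial.eval_comp, Polynomial.eval_add, Polynomial.eval_C, Polynomial.eval_mul,
      Polynomial.eval_X, Polynomial.eval_zero] at h1
    rw [mul_div_cancel₀ _ hs, add_sub_cancel] at h1
    rw [h1, Polynomial.eval_zero]
  · intro i
    refine Polynomial.natDegree_comp_le.trans ?_
    have h1 : (Polynomial.C z + Polynomial.C s * Polynomial.X).natDegree ≤ 1 := by
      compute_degree
    calc (p i).natDegree * _ ≤ (p i).natDegree * 1 := Nat.mul_le_mul_left _ h1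
      _ ≤ D := by rw [mul_one]; exact hD i
  · refine Eventually.of_forall fun w => ?_
    simpa [Polynomial.eval_comp] using hr (z + s * w)

theorem rl_inf {d D : ℕ} {p : ℕ → Polynomial ℝ} {A : ℝ → ℝ} (hp : ∃ i ≤ d, p i ≠ 0)
    (hD : ∀ i, (p i).natDegree ≤ D)
    (hr : ∀ y, ∑ i ∈ Finset.range (d + 1), (p i).eval y * A y ^ i = 0) (s : ℝ) (hs : s ≠ 0) :
    Rl d D (fun w => A (s * w⁻¹)) := by
  obtain ⟨q, hq1, hq2, hq3⟩ : ∃ q : ℕ → Polynomial ℝ, (∃ i ≤ d, q i ≠ 0) ∧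
      (∀ i, (q i).natDegree ≤ D) ∧
      ∀ y, ∑ i ∈ Finset.range (d + 1), (q i).eval y * A (s * y) ^ i = 0 := by
    refine ⟨fun i => (p i).comp (Polynomial.C s * Polynomial.X), ?_, ?_, ?_⟩
    · obtain ⟨i, hi, hpi⟩ := hp
      refine ⟨i, hi, fun h => hpi (Polynomial.funext fun y => ?_)⟩
      have h1 := congrArg (Polynomial.eval (y / s)) h
      simp only [Polynomial.eval_comp, Polynomial.eval_C, Polynomial.eval_mul,
        Polynomial.eval_X, Polynomial.eval_zero] at h1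
      rw [mul_div_cancel₀ _ hs] at h1
      rw [h1, Polynomial.eval_zero]
    · intro i
      refine Polynomial.natDegree_comp_le.trans ?_
      have h1 : (Polynomial.C s * Polynomial.X).natDegree ≤ 1 := by
        compute_degree
      calc (p i).natDegree * _ ≤ (p i).natDegree * 1 := Nat.mul_le_mul_left _ h1
        _ ≤ D := by rw [mul_one]; exact hD i
    · intro y
      simpa [Polynomial.eval_comp] using hr (s * y)
  refine ⟨fun i => (q i).reflect D, ?_, ?_, ?_⟩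
  · obtain ⟨i, hi, hqi⟩ := hq1
    exact ⟨i, hi, fun h => hqi (Polynomial.reflect_eq_zero_iff.1 h)⟩
  · intro i
    exact Polynomial.natDegree_reflect_le.trans (max_le le_rfl (hq2 i))
  · filter_upwards [self_mem_nhdsWithin] with w hw
    have hw0 : (0 : ℝ) < w := hw
    have hwi : w⁻¹ ≠ 0 := inv_ne_zero hw0.ne'
    have h1 : ∀ i, ((q i).reflect D).eval w = w ^ D * (q i).eval w⁻¹ := by
      intro i
      have : Invertible (w⁻¹ : ℝ) := invertibleOfNonzero hwi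
      have h2 := Polynomial.eval₂_reflect_mul_pow (RingHom.id ℝ) (w⁻¹) D (q i) (hq2 i)
      rw [invOf_eq_inv, inv_inv] at h2
      have h3 : ((q i).reflect D).eval w * (w⁻¹) ^ D = (q i).eval w⁻¹ := h2
      rw [← h3, mul_comm, mul_assoc, ← mul_pow, inv_mul_cancel₀ hw0.ne', one_pow, mul_one]
    have h4 := hq3 w⁻¹
    calc ∑ i ∈ Finset.range (d + 1), ((q i).reflect D).eval w * A (s * w⁻¹) ^ i
        = w ^ D * ∑ i ∈ Finset.range (d + 1), (q i).eval w⁻¹ * A (s * w⁻¹) ^ i := by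
          rw [Finset.mul_sum]
          refine Finset.sum_congr rfl fun i _ => ?_
          rw [h1]
          ring
      _ = 0 := by rw [h4, mul_zero]

/-! ### Consequences of the growth lemma -/

theorem fin {u w c C : ℝ} {d k m n : ℕ} (hw : 0 < w) (hw1 : w < 1) (hu : 0 ≤ u) (hu1 : u ≤ 1)
    (huc : u < c) (hk : 1 ≤ k) (hkd : k ≤ d) (hC : 0 < C) (h1 : c * w ^ m ≤ u ^ k * w ^ n)
    (h2 : u ^ k * w ^ n ≤ C * w ^ m) : u ^ d ≤ C * w := by
  have hwn : 0 < w ^ n := pow_pos hw n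
  have hwm : 0 < w ^ m := pow_pos hw m
  have hc : 0 < c := hu.trans_lt huc
  have huk : u ^ k ≤ u := pow_le_of_le_one hu hu1 (by omega)
  have h3 : c * w ^ m < c * w ^ n := h1.trans_lt (mul_lt_mul_of_pos_right (huk.trans_lt huc) hwn)
  have h4 : w ^ m < w ^ n := lt_of_mul_lt_mul_left h3 hc.le
  have h5 : n < m := (pow_lt_pow_iff_right_of_lt_one₀ hw hw1).1 h4
  obtain ⟨e, rfl⟩ : ∃ e, m = n + 1 + e := ⟨m - (n + 1), by omega⟩
  have h6 : w ^ e ≤ 1 := pow_le_one₀ hw.le hw1.le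
  have h7 : u ^ k * w ^ n ≤ (C * w) * w ^ n := by
    refine h2.trans ?_
    have h8 : C * w ^ (n + 1 + e) = (C * w) * w ^ n * w ^ e := by ring
    rw [h8]
    exact mul_le_of_le_one_right (by positivity) h6
  exact (pow_le_pow_of_le_one hu hu1 hkd).trans (le_of_mul_le_mul_right h7 hwn)

theorem ev_one : ∀ᶠ w in 𝓝[>] (0 : ℝ), w < 1 :=
  (gt_mem_nhds one_pos).filter_mono nhdsWithin_le_nhds

theorem rpart (hG : St_VSG) {d D : ℕ} {R : ℝ → ℝ} (hQ : Rl d D R) (hR : ∀ w, 1 ≤ R w) :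
    ∃ C : ℝ, 0 < C ∧ ∀ᶠ w in 𝓝[>] (0 : ℝ), R w * w ^ D ≤ C := by
  obtain ⟨p, hp, hD, hr⟩ := hQ
  obtain ⟨c, C, hc, hC, h⟩ := hG d D p R hp hD
    (hr.mono fun w hw => ⟨zero_le_one.trans (hR w), hw⟩)
  refine ⟨C, hC, ?_⟩
  filter_upwards [h, self_mem_nhdsWithin, ev_one] with w hw hw0 hw1
  have hw0' : (0 : ℝ) < w := hw0
  rcases hw with hw | ⟨k, a, b, hk, hkd, ha, hb, h1, h2⟩
  · have := hR w
    linarith
  · have h3 : R w ≤ R w ^ k := le_self_pow₀ (hR w) (by omega)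
    have h4 : w ^ D ≤ w ^ b := pow_le_pow_of_le_one hw0'.le hw1.le hb
    have h5 : w ^ a ≤ 1 := pow_le_one₀ hw0'.le hw1.le
    calc R w * w ^ D ≤ R w ^ k * w ^ b :=
          mul_le_mul h3 h4 (pow_pos hw0' _).le (pow_nonneg (zero_le_one.trans (hR w)) _)
      _ ≤ C * w ^ a := h2
      _ ≤ C := mul_le_of_le_one_right hC.le h5

theorem npart (hG : St_VSG) {d D : ℕ} {g : ℝ → ℝ} (hd : 1 ≤ d) (hQ : Rl d D g)
    (hg : ∀ w, 0 ≤ g w) (hl : Tendsto (fun w => w * g w) (𝓝[>] 0) (𝓝 0)) :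
    ∃ C : ℝ, 0 < C ∧ ∀ᶠ w in 𝓝[>] (0 : ℝ), (w * g w) ^ d ≤ C * w := by
  obtain ⟨p, hp, hD, hr⟩ := hQ
  obtain ⟨c, C, hc, hC, h⟩ := hG d D p g hp hD (hr.mono fun w hw => ⟨hg w, hw⟩)
  refine ⟨C, hC, ?_⟩
  filter_upwards [h, self_mem_nhdsWithin, ev_one, hl.eventually (gt_mem_nhds hc),
    hl.eventually (gt_mem_nhds one_pos)] with w hw hw0 hw1 huc hu1
  have hw0' : (0 : ℝ) < w := hw0
  have hu : 0 ≤ w * g w := mul_nonneg hw0'.le (hg w)
  rcases hw with hw | ⟨k, a, b, hk, hkd, ha, hb, h1, h2⟩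
  · rw [hw, mul_zero, zero_pow (by omega)]
    positivity
  · refine fin (m := a + k) (n := b) hw0' hw1 hu hu1.le huc hk hkd hC ?_ ?_
    · calc c * w ^ (a + k) = (c * w ^ a) * w ^ k := by ring
        _ ≤ (g w ^ k * w ^ b) * w ^ k := mul_le_mul_of_nonneg_right h1 (pow_pos hw0' k).le
        _ = (w * g w) ^ k * w ^ b := by ring
    · calc (w * g w) ^ k * w ^ b = (g w ^ k * w ^ b) * w ^ k := by ring
        _ ≤ (C * w ^ a) * w ^ k := mul_le_mul_of_nonneg_right h2 (pow_pos hw0' k).le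
        _ = C * w ^ (a + k) := by ring

theorem fpart (hG : St_VSG) {d D : ℕ} {g : ℝ → ℝ} (hd : 1 ≤ d) (hQ : Rl d D g)
    (hg : ∀ w, 0 ≤ g w) (hl : Tendsto (fun w => w⁻¹ * g w) (𝓝[>] 0) (𝓝 0)) :
    ∃ C : ℝ, 0 < C ∧ ∀ᶠ w in 𝓝[>] (0 : ℝ), (w⁻¹ * g w) ^ d ≤ C * w := by
  obtain ⟨p, hp, hD, hr⟩ := hQ
  obtain ⟨c, C, hc, hC, h⟩ := hG d D p g hp hD (hr.mono fun w hw => ⟨hg w, hw⟩)
  refine ⟨C, hC, ?_⟩
  filter_upwards [h, self_mem_nhdsWithin, ev_one, hl.eventually (gt_mem_nhds hc),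
    hl.eventually (gt_mem_nhds one_pos)] with w hw hw0 hw1 huc hu1
  have hw0' : (0 : ℝ) < w := hw0
  have hu : 0 ≤ w⁻¹ * g w := mul_nonneg (inv_nonneg.2 hw0'.le) (hg w)
  have hgu : g w = w * (w⁻¹ * g w) := by rw [← mul_assoc, mul_inv_cancel₀ hw0'.ne', one_mul]
  rcases hw with hw | ⟨k, a, b, hk, hkd, ha, hb, h1, h2⟩
  · rw [hw, mul_zero, zero_pow (by omega)]
    positivity
  · have he : g w ^ k * w ^ b = (w⁻¹ * g w) ^ k * w ^ (k + b) := by
      conv_lhs => rw [hgu]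
      ring
    rw [he] at h1 h2
    exact fin hw0' hw1 hu hu1.le huc hk hkd hC h1 h2

/-! ### Integrability -/

theorem low {A : ℝ → ℝ} (hA : ∀ y, 0 ≤ A y) (hI : Integrable A) {a b a' b' c : ℝ} (h1 : a' ≤ a)
    (h2 : a ≤ b) (h3 : b ≤ b') (hc : ∀ t ∈ Set.Ioo a b, c ≤ A t) :
    (b - a) * c ≤ ∫ t in a'..b', A t := by
  rw [intervalIntegral.integral_of_le (h1.trans (h2.trans h3))]
  have h4 : ∫ t in Set.Ioo a b, A t ≤ ∫ t in Set.Ioc a' b', A t := by
    refine setIntegral_mono_set hI.integrableOn (Eventually.of_forall fun t => hA t) ?_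
    refine LE.le.eventuallyLE fun t ht => ⟨lt_of_le_of_lt h1 ht.1, ht.2.le.trans h3⟩
  refine le_trans ?_ h4
  have h5 : ∫ t in Set.Ioo a b, c ≤ ∫ t in Set.Ioo a b, A t := by
    refine setIntegral_mono_on ?_ hI.integrableOn measurableSet_Ioo hc
    exact integrableOn_const (by simp)
  have h6 : ∫ t in Set.Ioo a b, c = (b - a) * c := by
    rw [setIntegral_const, smul_eq_mul, Real.volume_real_Ioo_of_le h2]
  rw [← h6]
  exact h5

theorem lim0 {A : ℝ → ℝ} {δ : ℝ} (hδ : 0 < δ) (hA : ∀ y, 0 ≤ A y) (hI : Integrable A)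
    (hm : MonotoneOn A (Set.Ioo 0 δ) ∨ AntitoneOn A (Set.Ioo 0 δ)) :
    Tendsto (fun w => w * A w) (𝓝[>] 0) (𝓝 0) := by
  have hsm : ∀ᶠ w in 𝓝[>] (0 : ℝ), w < δ / 2 :=
    (gt_mem_nhds (half_pos hδ)).filter_mono nhdsWithin_le_nhds
  rcases hm with hm | hm
  · have h1 : Tendsto (fun w : ℝ => w * A (δ / 2)) (𝓝[>] 0) (𝓝 0) := by
      have h2 : Tendsto (fun w : ℝ => w * A (δ / 2)) (𝓝 0) (𝓝 (0 * A (δ / 2))) :=
        tendsto_id.mul_const _
      rw [zero_mul] at h2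
      exact h2.mono_left nhdsWithin_le_nhds
    refine tendsto_of_tendsto_of_tendsto_of_le_of_le' tendsto_const_nhds h1 ?_ ?_
    · filter_upwards [self_mem_nhdsWithin] with w hw
      exact mul_nonneg (le_of_lt hw) (hA w)
    · filter_upwards [self_mem_nhdsWithin, hsm] with w hw hw1
      have hw0 : (0 : ℝ) < w := hw
      exact mul_le_mul_of_nonneg_left (hm ⟨hw0, by linarith⟩ ⟨by linarith, by linarith⟩ hw1.le)
        hw0.le
  · have h1 : Tendsto (fun w : ℝ => ∫ t in (0 : ℝ)..w, A t) (𝓝[>] 0) (𝓝 0) := by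
      have h2 := (hI.continuous_primitive 0).tendsto 0
      rw [intervalIntegral.integral_same] at h2
      exact h2.mono_left nhdsWithin_le_nhds
    refine tendsto_of_tendsto_of_tendsto_of_le_of_le' tendsto_const_nhds h1 ?_ ?_
    · filter_upwards [self_mem_nhdsWithin] with w hw
      exact mul_nonneg (le_of_lt hw) (hA w)
    · filter_upwards [self_mem_nhdsWithin, hsm] with w hw hw1
      have hw0 : (0 : ℝ) < w := hw
      have h3 := low hA hI (a := 0) (b := w) (a' := 0) (b' := w) (c := A w) le_rfl hw0.le le_rfl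
        (fun t ht => hm ⟨ht.1, by linarith [ht.2]⟩ ⟨hw0, by linarith⟩ ht.2.le)
      rwa [sub_zero] at h3

theorem limI {B : ℝ → ℝ} {T : ℝ} (hT : 0 < T) (hB : ∀ y, 0 ≤ B y) (hI : Integrable B)
    (hm : ∀ b, MonotoneOn B (Set.Ioo T b) ∨ AntitoneOn B (Set.Ioo T b)) :
    Tendsto (fun w => w⁻¹ * B w⁻¹) (𝓝[>] 0) (𝓝 0) := by
  have h0 : Tendsto (fun y : ℝ => y * B y) atTop (𝓝 0) := by
    have h1 : Tendsto (fun y : ℝ => ∫ t in (0 : ℝ)..y, B t) atTop
        (𝓝 (∫ t in Set.Ioi (0 : ℝ), B t)) :=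
      intervalIntegral_tendsto_integral_Ioi 0 hI.integrableOn tendsto_id
    have h2 : Tendsto (fun y : ℝ => ∫ t in (0 : ℝ)..(2 * y), B t) atTop
        (𝓝 (∫ t in Set.Ioi (0 : ℝ), B t)) :=
      h1.comp (tendsto_id.const_mul_atTop two_pos)
    have h3 : Tendsto (fun y : ℝ => ∫ t in (0 : ℝ)..(y / 2), B t) atTop
        (𝓝 (∫ t in Set.Ioi (0 : ℝ), B t)) :=
      h1.comp (tendsto_id.atTop_div_const two_pos)
    have h4 : Tendsto (fun y : ℝ => 2 * ∫ t in (y / 2)..(2 * y), B t) atTop (𝓝 0) := by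
      have h5 := (h2.sub h3).const_mul 2
      rw [sub_self, mul_zero] at h5
      refine h5.congr fun y => ?_
      rw [intervalIntegral.integral_interval_sub_left hI.intervalIntegrable
        hI.intervalIntegrable]
    refine tendsto_of_tendsto_of_tendsto_of_le_of_le' tendsto_const_nhds h4 ?_ ?_
    · filter_upwards [eventually_gt_atTop 0] with y hy
      exact mul_nonneg hy.le (hB y)
    · filter_upwards [eventually_gt_atTop (2 * T)] with y hy
      rcases hm (3 * y) with h | h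
      · have h6 := low hB hI (a := y) (b := 2 * y) (a' := y / 2) (b' := 2 * y) (c := B y)
          (by linarith) (by linarith) le_rfl
          (fun t ht => h ⟨by linarith, by linarith⟩ ⟨by linarith [ht.1], by linarith [ht.2]⟩
            ht.1.le)
        have h7 : 0 ≤ y * B y := mul_nonneg (by linarith) (hB y)
        nlinarith
      · have h6 := low hB hI (a := y / 2) (b := y) (a' := y / 2) (b' := 2 * y) (c := B y)
          le_rfl (by linarith) (by linarith)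
          (fun t ht => h ⟨by linarith [ht.1], by linarith [ht.2]⟩ ⟨by linarith, by linarith⟩
            ht.2.le)
        nlinarith
  exact h0.comp tendsto_inv_nhdsGT_zero

/-! ### The bounds -/

/-- the expression which has to be bounded -/
def FF (d D : ℕ) (A R : ℝ → ℝ) (y v : ℝ) : ℝ :=
  A y ^ (d * (D + 1)) * R y * v ^ (d * (D + 1) - 1) * (1 + v ^ 2)

/-- bounded along a filter -/
def Bd (d D : ℕ) (A R : ℝ → ℝ) (Z : Finset ℝ) (f : Filter ℝ) : Prop :=
  ∃ C : ℝ, ∀ᶠ y in f, ∀ v : ℝ, 0 ≤ v → (∀ z ∈ Z, v ≤ |y - z|) → FF d D A R y v ≤ C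

theorem FF_mono {d D : ℕ} {A R : ℝ → ℝ} {y v a r V : ℝ} (hA : 0 ≤ A y) (hAa : A y ≤ a)
    (hR : 0 ≤ R y) (hRr : R y ≤ r) (hv : 0 ≤ v) (hvV : v ≤ V) :
    FF d D A R y v ≤ a ^ (d * (D + 1)) * r * V ^ (d * (D + 1) - 1) * (1 + V ^ 2) := by
  have ha : 0 ≤ a := hA.trans hAa
  have hr : 0 ≤ r := hR.trans hRr
  have hV : 0 ≤ V := hv.trans hvV
  unfold FF
  gcongr

theorem near_bd (hG : St_VSG) {d D : ℕ} {A R : ℝ → ℝ} {Z : Finset ℝ} (hd : 1 ≤ d)
    (hA : ∀ y, 0 ≤ A y) (hR : ∀ y, 1 ≤ R y) {z s : ℝ} (hz : z ∈ Z) (hs : |s| = 1)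
    (hQA : Rl d D (fun w => A (z + s * w))) (hQR : Rl d D (fun w => R (z + s * w)))
    (hl : Tendsto (fun w => w * A (z + s * w)) (𝓝[>] 0) (𝓝 0)) :
    Bd d D A R Z (map (fun w => z + s * w) (𝓝[>] 0)) := by
  obtain ⟨C1, hC1, h1⟩ := npart hG hd hQA (fun w => hA _) hl
  obtain ⟨C2, hC2, h2⟩ := rpart hG hQR (fun w => hR _)
  refine ⟨2 * C1 ^ (D + 1) * C2, ?_⟩
  rw [eventually_map]
  filter_upwards [h1, h2, self_mem_nhdsWithin, ev_one] with w h1 h2 hw0 hw1 v hv hvz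
  have hw : (0 : ℝ) < w := hw0
  have hvw : v ≤ w := by
    have h3 := hvz z hz
    rwa [add_sub_cancel_left, abs_mul, hs, one_mul, abs_of_pos hw] at h3
  set a := A (z + s * w) with ha
  set r := R (z + s * w) with hr
  have ha0 : 0 ≤ a := hA _
  have hr0 : 0 ≤ r := zero_le_one.trans (hR _)
  refine (FF_mono ha0 le_rfl hr0 le_rfl hv hvw).trans ?_
  have hq : 1 ≤ d * (D + 1) := Nat.mul_pos hd (Nat.succ_pos D)
  have h4 : w * (a ^ (d * (D + 1)) * r * w ^ (d * (D + 1) - 1) * (1 + w ^ 2)) ≤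
      w * (2 * C1 ^ (D + 1) * C2) := by
    have h5 : w ^ (d * (D + 1)) = w * w ^ (d * (D + 1) - 1) := by
      rw [← pow_succ', Nat.sub_add_cancel hq]
    have h6 : w * (a ^ (d * (D + 1)) * r * w ^ (d * (D + 1) - 1) * (1 + w ^ 2)) =
        ((w * a) ^ d) ^ (D + 1) * r * (1 + w ^ 2) := by
      rw [← pow_mul, mul_pow, h5]
      ring
    rw [h6]
    have h7 : ((w * a) ^ d) ^ (D + 1) ≤ (C1 * w) ^ (D + 1) :=
      pow_le_pow_left₀ (by positivity) h1 _
    have h8 : 1 + w ^ 2 ≤ 2 := by nlinarith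
    calc ((w * a) ^ d) ^ (D + 1) * r * (1 + w ^ 2) ≤ (C1 * w) ^ (D + 1) * r * 2 := by gcongr
      _ = 2 * C1 ^ (D + 1) * w * (r * w ^ D) := by ring
      _ ≤ 2 * C1 ^ (D + 1) * w * C2 := by gcongr
      _ = w * (2 * C1 ^ (D + 1) * C2) := by ring
  exact le_of_mul_le_mul_left h4 hw

theorem far_bd (hG : St_VSG) {d D : ℕ} {A R : ℝ → ℝ} {Z : Finset ℝ} (hd : 1 ≤ d)
    (hA : ∀ y, 0 ≤ A y) (hR : ∀ y, 1 ≤ R y) {z s : ℝ} (hz : z ∈ Z) (hs : |s| = 1)
    (hQA : Rl d D (fun w => A (s * w⁻¹))) (hQR : Rl d D (fun w => R (s * w⁻¹)))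
    (hl : Tendsto (fun w => w⁻¹ * A (s * w⁻¹)) (𝓝[>] 0) (𝓝 0)) :
    Bd d D A R Z (map (fun w => s * w⁻¹) (𝓝[>] 0)) := by
  obtain ⟨C1, hC1, h1⟩ := fpart hG hd hQA (fun w => hA _) hl
  obtain ⟨C2, hC2, h2⟩ := rpart hG hQR (fun w => hR _)
  refine ⟨5 * 2 ^ (d * (D + 1) - 1) * C1 ^ (D + 1) * C2, ?_⟩
  have h9 : ∀ᶠ w in 𝓝[>] (0 : ℝ), |z| ≤ w⁻¹ :=
    tendsto_inv_nhdsGT_zero.eventually (eventually_ge_atTop _)
  have h10 : ∀ᶠ w in 𝓝[>] (0 : ℝ), 1 ≤ w⁻¹ :=
    tendsto_inv_nhdsGT_zero.eventually (eventually_ge_atTop _)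
  rw [eventually_map]
  filter_upwards [h1, h2, self_mem_nhdsWithin, h9, h10] with w h1 h2 hw0 h9 h10 v hv hvz
  have hw : (0 : ℝ) < w := hw0
  have hwi : w * w⁻¹ = 1 := mul_inv_cancel₀ hw.ne'
  set x := w⁻¹ with hx
  have hx0 : 0 < x := inv_pos.2 hw
  have hvw : v ≤ 2 * x := by
    have h3 := hvz z hz
    have h4 : |s * x - z| ≤ |s * x| + |z| := abs_sub _ _
    rw [abs_mul, hs, one_mul, abs_of_pos hx0] at h4
    linarith
  set a := A (s * x) with ha
  set r := R (s * x) with hr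
  have ha0 : 0 ≤ a := hA _
  have hr0 : 0 ≤ r := zero_le_one.trans (hR _)
  refine (FF_mono ha0 le_rfl hr0 le_rfl hv hvw).trans ?_
  have hq : 1 ≤ d * (D + 1) := Nat.mul_pos hd (Nat.succ_pos D)
  have h5 : x ^ (d * (D + 1)) = x * x ^ (d * (D + 1) - 1) := by
    rw [← pow_succ', Nat.sub_add_cancel hq]
  have h8 : 1 + (2 * x) ^ 2 ≤ 5 * x ^ 2 := by nlinarith
  have h7 : ((x * a) ^ d) ^ (D + 1) ≤ (C1 * w) ^ (D + 1) :=
    pow_le_pow_left₀ (by positivity) h1 _
  calc a ^ (d * (D + 1)) * r * (2 * x) ^ (d * (D + 1) - 1) * (1 + (2 * x) ^ 2)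
      ≤ a ^ (d * (D + 1)) * r * (2 * x) ^ (d * (D + 1) - 1) * (5 * x ^ 2) := by gcongr
    _ = 5 * 2 ^ (d * (D + 1) - 1) * ((x * a) ^ d) ^ (D + 1) * (r * x) := by
        rw [← pow_mul, mul_pow x a, h5]
        ring
    _ ≤ 5 * 2 ^ (d * (D + 1) - 1) * (C1 * w) ^ (D + 1) * (r * x) := by gcongr
    _ = 5 * 2 ^ (d * (D + 1) - 1) * C1 ^ (D + 1) * (r * w ^ D) * (w * x) := by ring
    _ = 5 * 2 ^ (d * (D + 1) - 1) * C1 ^ (D + 1) * (r * w ^ D) := by rw [hwi, mul_one]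
    _ ≤ 5 * 2 ^ (d * (D + 1) - 1) * C1 ^ (D + 1) * C2 := by gcongr

theorem nhds_le (z : ℝ) {P : ℝ → Prop} (h0 : P z) (h1 : ∀ᶠ w in 𝓝[>] (0 : ℝ), P (z + 1 * w))
    (h2 : ∀ᶠ w in 𝓝[>] (0 : ℝ), P (z + (-1) * w)) : ∀ᶠ y in 𝓝 z, P y := by
  obtain ⟨δ1, hδ1, h1⟩ := mem_nhdsGT_iff_exists_Ioo_subset.1 h1
  obtain ⟨δ2, hδ2, h2⟩ := mem_nhdsGT_iff_exists_Ioo_subset.1 h2
  have hδ1' : (0 : ℝ) < δ1 := hδ1
  have hδ2' : (0 : ℝ) < δ2 := hδ2
  filter_upwards [Ioo_mem_nhds (show z - δ2 < z by linarith) (show z < z + δ1 by linarith)]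
    with y hy
  rcases lt_trichotomy y z with h | h | h
  · have h3 : P (z + (-1) * (z - y)) := h2 ⟨by linarith, by linarith [hy.1]⟩
    have h4 : z + (-1) * (z - y) = y := by ring
    rwa [h4] at h3
  · rw [h]
    exact h0
  · have h3 : P (z + 1 * (y - z)) := h1 ⟨by linarith, by linarith [hy.2]⟩
    have h4 : z + 1 * (y - z) = y := by ring
    rwa [h4] at h3

/-- an interval around a point which misses a finite set except the point -/
theorem gap (Z : Finset ℝ) (y : ℝ) : ∃ δ > 0, ∀ z ∈ Z, z ≠ y → δ ≤ |z - y| := by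
  classical
  by_cases h : (Z.filter (fun z => z ≠ y)).Nonempty
  · obtain ⟨z0, hz0, h0⟩ := Finset.exists_min_image _ (fun z => |z - y|) h
    refine ⟨|z0 - y|, abs_pos.2 (sub_ne_zero.2 (Finset.mem_filter.1 hz0).2), fun z hz hzy => ?_⟩
    exact h0 z (Finset.mem_filter.2 ⟨hz, hzy⟩)
  · refine ⟨1, one_pos, fun z hz hzy => ?_⟩
    exact absurd ⟨z, Finset.mem_filter.2 ⟨hz, hzy⟩⟩ h

/-- bounds from monotonicity -/
theorem mon_bd {B : ℝ → ℝ} {a b y t : ℝ} (hB : ∀ y, 0 ≤ B y)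
    (hm : MonotoneOn B (Set.Ioo a b) ∨ AntitoneOn B (Set.Ioo a b)) {a' b' : ℝ} (h1 : a < a')
    (h2 : b' < b) (hy : a' ≤ y) (hy' : y ≤ b') : B y ≤ B a' + B b' := by
  have ha := hB a'
  have hb := hB b'
  rcases hm with h | h
  · have h3 := h ⟨by linarith, by linarith⟩ ⟨by linarith, by linarith⟩ hy'
    linarith
  · have h3 := h ⟨by linarith, by linarith⟩ ⟨by linarith, by linarith⟩ hy
    linarith

end VSOx

open VSOx in
theorem thm_VSO (hG : St_VSG) : St_VSO := by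
  intro d D p r A R Z hd hp hr hpD hrD hpA hrR hA hR hI hZ hmA hmR
  have hR0 : ∀ y, 0 ≤ R y := fun y => zero_le_one.trans (hR y)
  obtain ⟨z0, hz0⟩ := hZ
  -- infinity
  obtain ⟨T, hT0, hT⟩ : ∃ T : ℝ, 0 < T ∧ ∀ z ∈ Z, |z| < T := by
    obtain ⟨z1, -, h1⟩ := Finset.exists_max_image Z (fun z => |z|) ⟨z0, hz0⟩
    exact ⟨|z1| + 1, by positivity, fun z hz => lt_of_le_of_lt (h1 z hz) (by linarith)⟩
  have hfar : ∀ s : ℝ, s = 1 ∨ s = -1 → Bd d D A R Z (map (fun w => s * w⁻¹) (𝓝[>] 0)) := by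
    intro s hs
    have hs1 : |s| = 1 := by
      rcases hs with rfl | rfl <;> simp
    have hs0 : s ≠ 0 := by
      intro h
      rw [h, abs_zero] at hs1
      exact zero_ne_one hs1
    refine far_bd hG hd hA hR hz0 hs1 (rl_inf hp hpD hpA s hs0) (rl_inf hr hrD hrR s hs0) ?_
    refine limI (B := fun y => A (s * y)) hT0 (fun y => hA _) (hI.comp_mul_left' hs0) fun b => ?_
    rcases hs with rfl | rfl
    · simp only [one_mul]
      refine hmA T b fun z hz h => ?_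
      have := hT z hz
      have := le_abs_self z
      linarith [h.1]
    · rcases hmA (-b) (-T) (fun z hz h => by
        have := hT z hz
        have := neg_abs_le z
        linarith [h.2]) with h | h
      · refine Or.inr fun x hx y hy hxy => ?_
        exact h ⟨by linarith [hy.2], by linarith [hy.1]⟩ ⟨by linarith [hx.2], by linarith [hx.1]⟩
          (by linarith)
      · refine Or.inl fun x hx y hy hxy => ?_
        exact h ⟨by linarith [hy.2], by linarith [hy.1]⟩ ⟨by linarith [hx.2], by linarith [hx.1]⟩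
          (by linarith)
  -- finite points
  have hloc : ∀ y : ℝ, Bd d D A R Z (𝓝 y) := by
    intro y
    obtain ⟨δ, hδ, hgap⟩ := gap Z y
    by_cases hy : y ∈ Z
    · have hside : ∀ s : ℝ, s = 1 ∨ s = -1 →
          Bd d D A R Z (map (fun w => y + s * w) (𝓝[>] 0)) := by
        intro s hs
        have hs1 : |s| = 1 := by
          rcases hs with rfl | rfl <;> simp
        have hs0 : s ≠ 0 := by
          intro h
          rw [h, abs_zero] at hs1
          exact zero_ne_one hs1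
        refine near_bd hG hd hA hR hy hs1 (rl_shift hp hpD hpA y s hs0)
          (rl_shift hr hrD hrR y s hs0) ?_
        refine lim0 (A := fun w => A (y + s * w)) hδ (fun y => hA _)
          ((hI.comp_add_left y).comp_mul_left' hs0) ?_
        rcases hs with rfl | rfl
        · rcases hmA y (y + δ) (fun z hz h => by
            have h1 := hgap z hz (ne_of_gt h.1)
            rw [abs_of_pos (by linarith [h.1])] at h1
            linarith [h.2]) with h | h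
          · refine Or.inl fun u hu v hv huv => ?_
            exact h ⟨by linarith [hu.1], by linarith [hu.2]⟩
              ⟨by linarith [hv.1], by linarith [hv.2]⟩ (by linarith)
          · refine Or.inr fun u hu v hv huv => ?_
            exact h ⟨by linarith [hu.1], by linarith [hu.2]⟩
              ⟨by linarith [hv.1], by linarith [hv.2]⟩ (by linarith)
        · rcases hmA (y - δ) y (fun z hz h => by
            have h1 := hgap z hz (ne_of_lt h.2)
            rw [abs_of_neg (by linarith [h.2])] at h1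
            linarith [h.1]) with h | h
          · refine Or.inr fun u hu v hv huv => ?_
            exact h ⟨by linarith [hv.2], by linarith [hv.1]⟩
              ⟨by linarith [hu.2], by linarith [hu.1]⟩ (by linarith)
          · refine Or.inl fun u hu v hv huv => ?_
            exact h ⟨by linarith [hv.2], by linarith [hv.1]⟩
              ⟨by linarith [hu.2], by linarith [hu.1]⟩ (by linarith)
      obtain ⟨C1, h1⟩ := hside 1 (Or.inl rfl)
      obtain ⟨C2, h2⟩ := hside (-1) (Or.inr rfl)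
      rw [eventually_map] at h1 h2
      refine ⟨max (FF d D A R y 0) (max C1 C2), nhds_le y ?_ ?_ ?_⟩
      · intro v hv hvz
        have h3 := hvz y hy
        rw [sub_self, abs_zero] at h3
        have h4 : v = 0 := le_antisymm h3 hv
        rw [h4]
        exact le_max_left _ _
      · filter_upwards [h1] with w hw v hv hvz
        exact (hw v hv hvz).trans ((le_max_left _ _).trans (le_max_right _ _))
      · filter_upwards [h2] with w hw v hv hvz
        exact (hw v hv hvz).trans ((le_max_right _ _).trans (le_max_right _ _))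
    · have hmiss : ∀ z ∈ Z, z ∉ Set.Ioo (y - δ) (y + δ) := by
        intro z hz h
        have h1 := hgap z hz (fun h2 => hy (h2 ▸ hz))
        have h2 : |z - y| < δ := abs_lt.2 ⟨by linarith [h.1], by linarith [h.2]⟩
        linarith
      refine ⟨(A (y - δ / 2) + A (y + δ / 2)) ^ (d * (D + 1)) *
        (R (y - δ / 2) + R (y + δ / 2)) * (|y - z0| + δ) ^ (d * (D + 1) - 1) *
        (1 + (|y - z0| + δ) ^ 2), ?_⟩
      filter_upwards [Icc_mem_nhds (show y - δ / 2 < y by linarith)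
        (show y < y + δ / 2 by linarith)] with x hx v hv hvz
      refine FF_mono (hA x) ?_ (hR0 x) ?_ hv ?_
      · exact mon_bd (t := 0) hA (hmA _ _ hmiss) (by linarith) (by linarith) hx.1 hx.2
      · exact mon_bd (t := 0) hR0 (hmR _ _ hmiss) (by linarith) (by linarith) hx.1 hx.2
      · refine (hvz z0 hz0).trans ?_
        have h5 : |x - z0| ≤ |x - y| + |y - z0| := abs_sub_le x y z0
        have h6 : |x - y| ≤ δ := abs_le.2 ⟨by linarith [hx.1], by linarith [hx.2]⟩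
        linarith
  -- assembly
  obtain ⟨C1, h1⟩ := hfar 1 (Or.inl rfl)
  obtain ⟨C2, h2⟩ := hfar (-1) (Or.inr rfl)
  rw [eventually_map] at h1 h2
  have h1' := tendsto_inv_atTop_nhdsGT_zero.eventually h1
  have h2' := tendsto_inv_atTop_nhdsGT_zero.eventually h2
  simp only [inv_inv, one_mul] at h1' h2'
  obtain ⟨T1, hT1⟩ := eventually_atTop.1 h1'
  obtain ⟨T2, hT2⟩ := eventually_atTop.1 h2'
  have hK : ∃ C : ℝ, ∀ y ∈ Set.Icc (-T2) T1, ∀ v : ℝ, 0 ≤ v → (∀ z ∈ Z, v ≤ |y - z|) →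
      FF d D A R y v ≤ C := by
    refine isCompact_Icc.induction_on (p := fun s : Set ℝ => ∃ C : ℝ, ∀ y ∈ s, ∀ v : ℝ, 0 ≤ v →
      (∀ z ∈ Z, v ≤ |y - z|) → FF d D A R y v ≤ C) ?_ ?_ ?_ ?_
    · exact ⟨0, fun y hy => hy.elim⟩
    · rintro s t hst ⟨C, hC⟩
      exact ⟨C, fun y hy => hC y (hst hy)⟩
    · rintro s t ⟨C, hC⟩ ⟨C', hC'⟩
      refine ⟨max C C', fun y hy v hv hvz => ?_⟩
      rcases hy with hy | hy
      · exact (hC y hy v hv hvz).trans (le_max_left _ _)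
      · exact (hC' y hy v hv hvz).trans (le_max_right _ _)
    · intro y _
      obtain ⟨C, hC⟩ := hloc y
      exact ⟨_, mem_nhdsWithin_of_mem_nhds hC, C, fun x hx => hx⟩
  obtain ⟨C3, hC3⟩ := hK
  refine ⟨max C1 (max C2 C3), fun y v hv hvz => ?_⟩
  change FF d D A R y v ≤ _
  by_cases hy1 : T1 ≤ y
  · exact (hT1 y hy1 v hv hvz).trans (le_max_left _ _)
  · by_cases hy2 : y ≤ -T2
    · have h5 := hT2 (-y) (by linarith)
      have h6 : (-1 : ℝ) * -y = y := by ring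
      rw [h6] at h5
      exact (h5 v hv hvz).trans ((le_max_left _ _).trans (le_max_right _ _))
    · push Not at hy1 hy2
      exact (hC3 y ⟨hy2.le, hy1.le⟩ v hv hvz).trans ((le_max_right _ _).trans (le_max_right _ _))

end Pool.Agent.PWD
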