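import Pool.Agent.PWD.VSI
import Pool.Agent.PWD.VSA
import Pool.Agent.PWD.VSG
import Pool.Agent.PWD.VSO

/-!
# PWD [VSF]: nonnegative differences of volumes are volumes
-/

set_option autoImplicit false

open MeasureTheory Filter Topology Pool.Agent.PWQ

namespace Pool.Agent.PWD

/-- nonnegative algebraic numbers are volumes -/
theorem vsf_alg (a : ℝ) (h0 : 0 ≤ a) (ha : IsAlgebraic ℚ a) (m : ℕ) : V (m + 1) a := by
  induction m with
  | zero => exact (thm_VON a).2 ⟨h0, ha⟩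
  | succ m ih => exact thm_VSU _ _ ih

/-- The complement of a volume in a large rational number is a volume. -/
theorem vsf_compl (hI : St_VSI) (m : ℕ) (b : ℝ) (hb : V (m + 1) b) :
    ∃ C : ℚ, b < C ∧ V (m + 1) ((C : ℝ) - b) := by
  classical
  obtain ⟨B, sB, B0, iB, rfl⟩ := (thm_VIN m b).1 hb
  have s1 : SA (graph fun _ : Fin m → ℝ => (1 : ℝ)) := by
    simpa using SA_graph_rat (ι := Fin m) 1
  obtain ⟨Q, M, -, sM, iM, aM, leM⟩ := hI m B (fun _ => 1) sB s1 B0 (fun _ => le_rfl) iB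
  have leM' : ∀ᵐ x, B x ≤ M x := by
    filter_upwards [leM] with x hx
    rwa [Real.one_rpow, mul_one] at hx
  have h1 : (∫ x, B x) ≤ ∫ x, M x := integral_mono_ae iB iM leM'
  have sE : SA (graph fun x => |M x - B x|) := SA_absF (thm_DIF _ _ sM sB)
  have h2 : (∫ x, |M x - B x|) = (∫ x, M x) - ∫ x, B x := by
    rw [← integral_sub iM iB]
    refine integral_congr_ae ?_
    filter_upwards [leM'] with x hx
    exact abs_of_nonneg (by linarith)
  have h3 := V_of_fun sE (fun x => abs_nonneg _) (iM.sub iB).abs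
  rw [h2] at h3
  obtain ⟨C, hC⟩ := exists_rat_gt (∫ x, M x)
  refine ⟨C, lt_of_le_of_lt h1 hC, ?_⟩
  have h4 := vsf_alg ((C : ℝ) - ∫ x, M x) (by linarith)
    ((isAlgebraic_algebraMap (R := ℚ) (A := ℝ) C).sub aM) m
  have h5 := thm_VAD (m + 1) _ _ (by omega) h4 h3
  have e : (C : ℝ) - (∫ x, B x) = (C : ℝ) - (∫ x, M x) + ((∫ x, M x) - ∫ x, B x) := by ring
  rw [e]
  exact h5

theorem thm_VSF (hA : St_VSA) (hI : St_VSI) : St_VSF := by
  intro n a b hn ha hb hab
  obtain ⟨m, rfl⟩ : ∃ m, n = m + 1 := ⟨n - 1, by omega⟩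
  rcases eq_or_lt_of_le hab with h | h
  · rw [h, sub_self]
    exact vsf_alg 0 le_rfl isAlgebraic_zero m
  · obtain ⟨C, -, h1⟩ := vsf_compl hI m b hb
    have h2 := thm_VAD (m + 1) _ _ hn ha h1
    have h3 := hA (m + 1) _ C hn h2 (by linarith)
    have e : a + ((C : ℝ) - b) - C = a - b := by ring
    rwa [e] at h3

/-- **Nonnegative differences of volumes are volumes.** -/
theorem thm_VS : St_VSF := thm_VSF thm_VSA (thm_VSI (thm_VSO thm_VSG) thm_VSH)

end Pool.Agent.PWD
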