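import Pool.Agent.PWD.St

set_option autoImplicit false

open Polynomial

namespace Pool.Agent.PWD

theorem avg_par {S : Type} [CommRing S] (u : S) (A : S[X]) :
    ∃ E O : S[X], ∀ (L : Type) [Field L] (φ : S →+* L) (s τ : L), s ^ 2 = φ u →
      A.eval₂ φ (τ + s) = E.eval₂ φ τ + s * O.eval₂ φ τ := by
  induction A using Polynomial.induction_on with
  | C a =>
    refine ⟨C a, 0, fun L _ φ s τ _ => ?_⟩
    simp
  | add p q hp hq =>
    obtain ⟨E1, O1, h1⟩ := hp
    obtain ⟨E2, O2, h2⟩ := hq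
    refine ⟨E1 + E2, O1 + O2, fun L _ φ s τ hs => ?_⟩
    rw [eval₂_add, h1 L φ s τ hs, h2 L φ s τ hs, eval₂_add, eval₂_add]
    ring
  | monomial n a h =>
    obtain ⟨E, O, h1⟩ := h
    refine ⟨E * X + C u * O, E + O * X, fun L _ φ s τ hs => ?_⟩
    rw [pow_succ, ← mul_assoc, eval₂_mul, h1 L φ s τ hs, eval₂_X, eval₂_add, eval₂_add,
      eval₂_mul, eval₂_mul, eval₂_mul, eval₂_X, eval₂_C]
    linear_combination (O.eval₂ φ τ) * hs

theorem sgn_cons {L : Type} [Field L] {k : ℕ} (b : Bool) (ε : Fin k → Bool) (s : Fin (k + 1) → L) :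
    sgn (Fin.cons b ε : Fin (k + 1) → Bool) s =
      (if b then s 0 else - s 0) + sgn ε (fun i => s i.succ) := by
  unfold sgn
  rw [Fin.sum_univ_succ]
  simp

theorem thm_AVG : St_AVG := by
  intro S _ k
  induction k with
  | zero =>
    intro u A₀ B₀
    refine ⟨A₀, B₀, fun L _ φ s τ _ => ?_⟩
    have h0 : ∀ ε : Fin 0 → Bool, sgn ε s = 0 := fun ε => by simp [sgn]
    constructor
    · rw [Fintype.prod_unique, h0, sub_zero]
    · intro _
      rw [Fintype.sum_unique, h0, sub_zero]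
  | succ k ih =>
    intro u A₀ B₀
    obtain ⟨A, B, hAB⟩ := ih (fun i => u i.succ) A₀ B₀
    obtain ⟨EA, OA, hA⟩ := avg_par (u 0) A
    obtain ⟨EB, OB, hB⟩ := avg_par (u 0) B
    refine ⟨2 * (EA * EB - C (u 0) * OA * OB), EB ^ 2 - C (u 0) * OB ^ 2,
      fun L _ φ s τ hs => ?_⟩
    have hs0 : s 0 ^ 2 = φ (u 0) := hs 0
    have hs1 : (-(s 0)) ^ 2 = φ (u 0) := by rw [neg_pow_two]; exact hs0
    obtain ⟨p1, p2⟩ := hAB L φ (fun i => s i.succ) (τ + s 0) (fun i => hs i.succ)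
    obtain ⟨m1, m2⟩ := hAB L φ (fun i => s i.succ) (τ + -(s 0)) (fun i => hs i.succ)
    have a1 := hA L φ (s 0) τ hs0
    have a2 := hA L φ (-(s 0)) τ hs1
    have b1 := hB L φ (s 0) τ hs0
    have b2 := hB L φ (-(s 0)) τ hs1
    have eB : (EB ^ 2 - C (u 0) * OB ^ 2).eval₂ φ τ =
        B.eval₂ φ (τ + s 0) * B.eval₂ φ (τ + -(s 0)) := by
      rw [b1, b2, eval₂_sub, eval₂_mul, eval₂_pow, eval₂_pow, eval₂_C, ← hs0]
      ring
    have eA : (2 * (EA * EB - C (u 0) * OA * OB)).eval₂ φ τ =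
        A.eval₂ φ (τ + s 0) * B.eval₂ φ (τ + -(s 0)) +
          A.eval₂ φ (τ + -(s 0)) * B.eval₂ φ (τ + s 0) := by
      rw [a1, a2, b1, b2, eval₂_mul, eval₂_sub, eval₂_mul, eval₂_mul, eval₂_mul, eval₂_C, ← hs0]
      have : (2 : S[X]).eval₂ φ τ = 2 := by
        have : (2 : S[X]) = C 2 := by
          rw [← one_add_one_eq_two, ← one_add_one_eq_two, C_add, C_1]
        rw [this, eval₂_C, map_ofNat]
      rw [this]
      ring
    have hcons : ∀ (f : (Fin (k + 1) → Bool) → L),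
        (∏ ε, f ε = (∏ ε : Fin k → Bool, f (Fin.cons false ε)) *
          ∏ ε : Fin k → Bool, f (Fin.cons true ε)) ∧
        (∑ ε, f ε = (∑ ε : Fin k → Bool, f (Fin.cons false ε)) +
          ∑ ε : Fin k → Bool, f (Fin.cons true ε)) := by
      intro f
      constructor
      · rw [← Equiv.prod_comp (Fin.consEquiv (fun _ : Fin (k + 1) => Bool)) f,
          Fintype.prod_prod_type, Fintype.prod_bool, mul_comm]
        rfl
      · rw [← Equiv.sum_comp (Fin.consEquiv (fun _ : Fin (k + 1) => Bool)) f,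
          Fintype.sum_prod_type, Fintype.sum_bool, add_comm]
        rfl
    have hf : ∀ ε : Fin k → Bool, τ - sgn (Fin.cons false ε : Fin (k + 1) → Bool) s =
        τ + s 0 - sgn ε (fun i => s i.succ) := by
      intro ε
      rw [sgn_cons]
      simp
      ring
    have ht : ∀ ε : Fin k → Bool, τ - sgn (Fin.cons true ε : Fin (k + 1) → Bool) s =
        τ + -(s 0) - sgn ε (fun i => s i.succ) := by
      intro ε
      rw [sgn_cons]
      simp
      ring
    constructor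
    · rw [eB, p1, m1, (hcons _).1]
      simp_rw [hf, ht]
    · intro hne
      rw [eB] at hne
      obtain ⟨n1, n2⟩ := mul_ne_zero_iff.mp hne
      rw [(hcons _).2]
      simp_rw [hf, ht]
      rw [← p2 n1, ← m2 n2, eB, eA]
      field_simp

end Pool.Agent.PWD
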