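import Pool.Agent.PWD.PIE

/-!
# A semialgebraic function is generically bounded by a rational function
-/

set_option autoImplicit false

open Polynomial

namespace Pool.Agent.PWD

theorem root_le {p : ℝ[X]} {a : ℝ} (ha : p.eval a = 0) (hp : p.leadingCoeff ≠ 0) :
    |a| ≤ 1 + ∑ i ∈ Finset.range p.natDegree, (1 + (p.coeff i / p.leadingCoeff) ^ 2) := by
  have h0 : p ≠ 0 := fun h => hp (by rw [h, leadingCoeff_zero])
  have h1 := Polynomial.IsRoot.norm_lt_cauchyBound h0 (a := a) ha
  have h2 : (cauchyBound p : ℝ) ≤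
      1 + ∑ i ∈ Finset.range p.natDegree, (1 + (p.coeff i / p.leadingCoeff) ^ 2) := by
    have h3 : (Finset.range p.natDegree).sup (fun i => ‖p.coeff i‖₊) ≤
        ∑ i ∈ Finset.range p.natDegree, ‖p.coeff i‖₊ := by
      apply Finset.sup_le
      intro i hi
      exact Finset.single_le_sum (f := fun i => ‖p.coeff i‖₊) (fun _ _ => zero_le) hi
    have h4 : cauchyBound p ≤ (∑ i ∈ Finset.range p.natDegree, ‖p.coeff i‖₊) /
        ‖p.leadingCoeff‖₊ + 1 := by
      unfold cauchyBound
      gcongr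
    have h5 : (cauchyBound p : ℝ) ≤ (∑ i ∈ Finset.range p.natDegree, ‖p.coeff i‖) /
        ‖p.leadingCoeff‖ + 1 := by
      have := NNReal.coe_le_coe.2 h4
      push_cast at this
      exact this
    refine h5.trans ?_
    rw [Finset.sum_div, add_comm]
    gcongr with i hi
    rw [← norm_div, Real.norm_eq_abs]
    nlinarith [sq_abs (p.coeff i / p.leadingCoeff), sq_nonneg (|p.coeff i / p.leadingCoeff| - 1)]
  have h6 : |a| = ((‖a‖₊ : NNReal) : ℝ) := by rw [coe_nnnorm, Real.norm_eq_abs]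
  rw [h6]
  exact (NNReal.coe_le_coe.2 h1.le).trans h2

theorem thm_BDS : St_BDS := by
  classical
  intro ι _ A hA
  obtain ⟨J, I, _, _, f, g, r, hr, hd, hgen⟩ := thm_PIE A hA
  obtain ⟨R, hR⟩ : ∃ R : MvPolynomial ι ℚ, R = r * ∏ j, (f j).leadingCoeff := ⟨_, rfl⟩
  obtain ⟨m, hm⟩ : ∃ m : J → MvPolynomial ι ℚ,
    m = fun j => r * ∏ l ∈ Finset.univ.erase j, (f l).leadingCoeff := ⟨_, rfl⟩
  have hRm : ∀ j, R = (f j).leadingCoeff * m j := by
    intro j
    rw [hR, hm]
    show _ = _ * (_ * _)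
    rw [← Finset.mul_prod_erase Finset.univ (fun l => (f l).leadingCoeff) (Finset.mem_univ j)]
    ring
  have hlc0 : ∀ j, (f j).leadingCoeff ≠ 0 := by
    intro j
    rw [Ne, Polynomial.leadingCoeff_eq_zero]
    intro h
    have := hd j
    rw [h, Polynomial.natDegree_zero] at this
    omega
  refine ⟨∑ j, (R ^ 2 + ∑ i ∈ Finset.range (f j).natDegree, (R ^ 2 + ((f j).coeff i * m j) ^ 2)), R,
    by rw [hR]; exact mul_ne_zero hr (Finset.prod_ne_zero_iff.2 fun j _ => hlc0 j), ?_⟩
  intro x hx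
  have hrx : MvPolynomial.aeval x r ≠ 0 := by
    intro h
    apply hx
    rw [hR, map_mul, h, zero_mul]
  obtain ⟨h1, _, _, _, j, ⟨h5, _⟩, _⟩ := hgen x hrx
  have hlead : (spR x (f j)).leadingCoeff = MvPolynomial.aeval x (f j).leadingCoeff := by
    unfold spR
    exact Polynomial.leadingCoeff_map_of_leadingCoeff_ne_zero _ (h1 j)
  have hdeg : (spR x (f j)).natDegree = (f j).natDegree := by
    unfold spR
    exact Polynomial.natDegree_map_of_leadingCoeff_ne_zero _ (h1 j)
  have h6 := root_le h5 (by rw [hlead]; exact h1 j)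
  rw [hdeg, hlead] at h6
  refine h6.trans ?_
  rw [map_sum, Finset.sum_div]
  have hpos : ∀ l ∈ Finset.univ, 0 ≤ MvPolynomial.aeval x (R ^ 2 + ∑ i ∈ Finset.range (f l).natDegree,
      (R ^ 2 + ((f l).coeff i * m l) ^ 2)) / MvPolynomial.aeval x R ^ 2 := by
    intro l _
    apply div_nonneg
    · rw [map_add, map_sum, map_pow]
      refine add_nonneg (sq_nonneg _) (Finset.sum_nonneg fun i _ => ?_)
      rw [map_add, map_pow, map_pow]
      positivity
    · positivity
  refine le_trans (le_of_eq ?_) (Finset.single_le_sum hpos (Finset.mem_univ j))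
  have hR2 : MvPolynomial.aeval x R ^ 2 ≠ 0 := pow_ne_zero 2 hx
  have hRx : MvPolynomial.aeval x R =
      MvPolynomial.aeval x (f j).leadingCoeff * MvPolynomial.aeval x (m j) := by
    rw [hRm j, map_mul]
  have hmx : MvPolynomial.aeval x (m j) ≠ 0 := by
    intro h
    rw [h, mul_zero] at hRx
    exact hx hRx
  rw [map_add, map_sum, map_pow, add_div, div_self hR2, Finset.sum_div]
  congr 1
  apply Finset.sum_congr rfl
  intro i _
  rw [map_add, map_pow, map_pow, map_mul, add_div, div_self hR2]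
  congr 1
  unfold spR
  rw [Polynomial.coeff_map]
  rw [hRx]
  have hl := h1 j
  show ((MvPolynomial.aeval x) ((f j).coeff i) / _) ^ 2 = _
  field_simp

end Pool.Agent.PWD
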