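import Mathlib

/-!
# Bezout relations with one denominator
-/

set_option autoImplicit false

open Polynomial

namespace Pool.Agent.PWD

theorem bezout {R : Type} [CommRing R] [IsDomain R] [UniqueFactorizationMonoid R]
    {f g : R[X]} (hf : Irreducible f) (hd : f.natDegree ≠ 0) (hfg : ¬ f ∣ g) :
    ∃ (u v : R[X]) (r : R), r ≠ 0 ∧ u * f + v * g = C r := by
  classical
  have : IsGCDMonoid R := inferInstance
  let K := FractionRing R
  have hp : f.IsPrimitive := hf.isPrimitive hd
  have h1 : Irreducible (f.map (algebraMap R K)) :=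
    (hp.irreducible_iff_irreducible_map_fraction_map (K := K)).1 hf
  have h2 : ¬ f.map (algebraMap R K) ∣ g.map (algebraMap R K) := fun h =>
    hfg (hp.dvd_of_fraction_map_dvd_fraction_map h)
  have h3 : IsCoprime (f.map (algebraMap R K)) (g.map (algebraMap R K)) :=
    (h1.coprime_iff_not_dvd).2 h2
  obtain ⟨a, b, hab⟩ := h3
  obtain ⟨c, hc, hc1⟩ := IsLocalization.integerNormalization_spec (nonZeroDivisors R) a
  obtain ⟨d, hd, hd1⟩ := IsLocalization.integerNormalization_spec (nonZeroDivisors R) b
  set a' := IsLocalization.integerNormalization (nonZeroDivisors R) a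
  set b' := IsLocalization.integerNormalization (nonZeroDivisors R) b
  refine ⟨C d * a', C c * b', c * d, mul_ne_zero (nonZeroDivisors.ne_zero hc)
    (nonZeroDivisors.ne_zero hd), ?_⟩
  apply map_injective (algebraMap R K) (IsFractionRing.injective _ _)
  rw [Polynomial.map_add, Polynomial.map_mul, Polynomial.map_mul, Polynomial.map_mul,
    Polynomial.map_mul, hc1, hd1, map_C, map_C, map_C, map_mul, C_mul]
  rw [Algebra.smul_def, Algebra.smul_def, Polynomial.algebraMap_apply, Polynomial.algebraMap_apply]
  linear_combination (C ((algebraMap R K) c) * C ((algebraMap R K) d)) * hab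

end Pool.Agent.PWD
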