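import Pool.Agent.PWD.St

set_option autoImplicit false

namespace Pool.Agent.PWD

theorem sgn_succ {L : Type} [Field L] {k : ℕ} (ε : Fin (k + 1) → Bool) (s : Fin (k + 1) → L) :
    sgn ε s = (if ε 0 then s 0 else - s 0) + sgn (fun i => ε i.succ) (fun i => s i.succ) := by
  unfold sgn
  rw [Fin.sum_univ_succ]

theorem bnd_tel {k : ℕ} (w : Fin k → ℝ) (M : Fin (k + 1) → ℝ)
    (h : ∀ i, M i.succ + w i ≤ M i.castSucc) : M (Fin.last k) + ∑ i, w i ≤ M 0 := by
  induction k with
  | zero => simp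
  | succ k ih =>
    have h1 := ih (fun i => w i.succ) (fun i => M i.succ) (fun i => by
      have := h i.succ
      rwa [← Fin.succ_castSucc] at this)
    have h0 := h 0
    rw [Fin.castSucc_zero] at h0
    rw [Fin.sum_univ_succ]
    rw [Fin.succ_last] at h1
    linarith

theorem sgn_norm {k : ℕ} (ε : Fin k → Bool) (s : Fin k → ℂ) : ‖sgn ε s‖ ≤ ∑ i, ‖s i‖ := by
  unfold sgn
  refine (norm_sum_le _ _).trans (Finset.sum_le_sum fun i _ => ?_)
  split_ifs
  · exact le_refl _
  · rw [norm_neg]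

theorem bnd_real (k : ℕ) : ∀ (σ : Fin k → ℂ) (L : Fin k → ℝ) (M : Fin (k + 1) → ℝ),
    (∀ i, 0 ≤ L i) →
    (∀ i, M i.succ ≤ L i * ‖σ i‖) → (∀ i, M i.succ + L i * ‖σ i‖ ≤ M i.castSucc) →
    (∀ i, (σ i).re = 0 ∨ (σ i).im = 0) → (∃ i, (σ i).im ≠ 0) →
    ∀ ε : Fin k → Bool, M (Fin.last k) ≤ |(sgn ε (fun i => (L i : ℂ) * σ i)).im| := by
  induction k with
  | zero =>
    intro σ L M _ _ _ _ ⟨i, _⟩
    exact i.elim0
  | succ k ih =>
    intro σ L M hL h1 h2 h3 ⟨i, hi⟩ ε
    rw [sgn_succ, Complex.add_im]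
    have h2' : ∀ i : Fin k, M i.succ.succ + L i.succ * ‖σ i.succ‖ ≤ M i.castSucc.succ := by
      intro j
      have := h2 j.succ
      rwa [← Fin.succ_castSucc] at this
    by_cases h0 : (σ 0).im = 0
    · have hz : (if ε 0 then (L 0 : ℂ) * σ 0 else -((L 0 : ℂ) * σ 0)).im = 0 := by
        split_ifs
        · rw [Complex.im_ofReal_mul, h0, mul_zero]
        · rw [Complex.neg_im, Complex.im_ofReal_mul, h0, mul_zero, neg_zero]
      rw [hz, zero_add]
      have hi0 : i ≠ 0 := by
        rintro rfl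
        exact hi h0
      obtain ⟨j, rfl⟩ := Fin.exists_succ_eq.mpr hi0
      have := ih (fun i => σ i.succ) (fun i => L i.succ) (fun i => M i.succ)
        (fun i => hL _) (fun i => h1 _) h2' (fun i => h3 _) ⟨j, hi⟩ (fun i => ε i.succ)
      have e : (fun i : Fin (k + 1) => M i.succ) (Fin.last k) = M (Fin.last (k + 1)) := by
        show M (Fin.last k).succ = _
        rw [Fin.succ_last]
      rw [← e]
      exact this
    · have hre : (σ 0).re = 0 := (h3 0).resolve_right h0
      have hn : ‖σ 0‖ = |(σ 0).im| := by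
        rw [Complex.norm_eq_sqrt_sq_add_sq, hre]
        simp [Real.sqrt_sq_eq_abs]
      have hz : |(if ε 0 then (L 0 : ℂ) * σ 0 else -((L 0 : ℂ) * σ 0)).im| = L 0 * ‖σ 0‖ := by
        rw [hn]
        split_ifs
        · rw [Complex.im_ofReal_mul, abs_mul, abs_of_nonneg (hL 0)]
        · rw [Complex.neg_im, abs_neg, Complex.im_ofReal_mul, abs_mul, abs_of_nonneg (hL 0)]
      have ht := bnd_tel (fun i : Fin k => L i.succ * ‖σ i.succ‖) (fun i => M i.succ) h2'
      rw [Fin.succ_last] at ht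
      have hs : |(sgn (fun i => ε i.succ) (fun i => (L i.succ : ℂ) * σ i.succ)).im| ≤
          ∑ i : Fin k, L i.succ * ‖σ i.succ‖ := by
        refine (Complex.abs_im_le_norm _).trans ((sgn_norm _ _).trans (le_of_eq ?_))
        refine Finset.sum_congr rfl fun i _ => ?_
        rw [norm_mul, Complex.norm_real, Real.norm_of_nonneg (hL _)]
      have h5 := h1 0
      have h6 := abs_sub_abs_le_abs_sub
        ((if ε 0 then (L 0 : ℂ) * σ 0 else -((L 0 : ℂ) * σ 0)).im)
        (-(sgn (fun i => ε i.succ) (fun i => (L i.succ : ℂ) * σ i.succ)).im)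
      rw [abs_neg, sub_neg_eq_add, hz] at h6
      linarith

theorem thm_BND : St_BND := by
  intro k a σ l L M hl hL h1 h2 h3 h4 h5 ε
  unfold cen
  rw [Complex.add_im, Complex.im_ofReal_mul]
  by_cases ha : a.im = 0
  · rw [ha, mul_zero, zero_add]
    have h6 : ∃ i, (σ i).im ≠ 0 := by
      rcases h5 with h | h
      · exact absurd ha h
      · exact h
    exact bnd_real k σ L M hL h1 h2 (h4 ha) h6 ε
  · have ht := bnd_tel (fun i : Fin k => L i * ‖σ i‖) M h2
    have hs : |(sgn ε (fun i => (L i : ℂ) * σ i)).im| ≤ ∑ i : Fin k, L i * ‖σ i‖ := by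
      refine (Complex.abs_im_le_norm _).trans ((sgn_norm _ _).trans (le_of_eq ?_))
      refine Finset.sum_congr rfl fun i _ => ?_
      rw [norm_mul, Complex.norm_real, Real.norm_of_nonneg (hL _)]
    have h6 := abs_sub_abs_le_abs_sub (l * a.im) (-(sgn ε (fun i => (L i : ℂ) * σ i)).im)
    rw [abs_neg, sub_neg_eq_add, abs_mul, abs_of_nonneg hl] at h6
    have h7 := h3 ha
    linarith

end Pool.Agent.PWD
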