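import Pool.Agent.PWD.FRB

/-!
# Periods in the frozen form are differences of volumes
-/

set_option autoImplicit false

open MeasureTheory Pool.Agent.PWQ

namespace Pool.Agent.PWD

theorem aeval_rename_some {ι : Type} (z : Option ι → ℝ) (p : MvPolynomial ι ℚ) :
    MvPolynomial.aeval z (MvPolynomial.rename some p) =
      MvPolynomial.aeval (fun i => z (some i)) p := by
  rw [MvPolynomial.aeval_rename]
  rfl

theorem SA_graph_div {ι : Type} (P Q : MvPolynomial ι ℚ) :
    SA (graph (fun x : ι → ℝ => MvPolynomial.aeval x P / MvPolynomial.aeval x Q)) := by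
  have h1 := SA_eq (i := Option ι) (MvPolynomial.X none * MvPolynomial.rename some Q)
    (MvPolynomial.rename some P)
  have h2 := SA_zero (i := Option ι) (MvPolynomial.rename some Q)
  have h3 := SA_zero (i := Option ι) (MvPolynomial.X none)
  have h4 := SA_or (SA_and (SA_not h2) h1) (SA_and h2 h3)
  have e : graph (fun x : ι → ℝ => MvPolynomial.aeval x P / MvPolynomial.aeval x Q) =
      {x | x ∈ {x | x ∈ {x : Option ι → ℝ | x ∉ {x : Option ι → ℝ |
          MvPolynomial.aeval x (MvPolynomial.rename some Q) = 0}} ∧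
        x ∈ {x : Option ι → ℝ | MvPolynomial.aeval x (MvPolynomial.X none *
          MvPolynomial.rename some Q) = MvPolynomial.aeval x (MvPolynomial.rename some P)}} ∨
        x ∈ {x | x ∈ {x : Option ι → ℝ | MvPolynomial.aeval x (MvPolynomial.rename some Q) = 0} ∧
          x ∈ {x : Option ι → ℝ | MvPolynomial.aeval x (MvPolynomial.X none :
            MvPolynomial (Option ι) ℚ) = 0}}} := by
    ext z
    show z none = _ / _ ↔ (¬ (MvPolynomial.aeval z (MvPolynomial.rename some Q) = 0) ∧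
      MvPolynomial.aeval z (MvPolynomial.X none * MvPolynomial.rename some Q) =
        MvPolynomial.aeval z (MvPolynomial.rename some P)) ∨
      (MvPolynomial.aeval z (MvPolynomial.rename some Q) = 0 ∧
        MvPolynomial.aeval z (MvPolynomial.X none : MvPolynomial (Option ι) ℚ) = 0)
    rw [map_mul, MvPolynomial.aeval_X, aeval_rename_some, aeval_rename_some]
    by_cases hQ : MvPolynomial.aeval (fun i => z (some i)) Q = 0
    · rw [hQ, div_zero]
      simp
    · rw [eq_div_iff hQ]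
      simp [hQ]
  rw [e]
  exact h4

theorem Vd_basic {n m : ℕ} (p : Fin m → MvPolynomial (Fin n) ℚ) (P Q : MvPolynomial (Fin n) ℚ)
    (h : IntegrableOn (fun y : Fin n → ℝ => MvPolynomial.aeval y P / MvPolynomial.aeval y Q)
      {y : Fin n → ℝ | ∀ i, 0 ≤ MvPolynomial.aeval y (p i)}) :
    Vd (n + 1) (∫ y in {y : Fin n → ℝ | ∀ i, 0 ≤ MvPolynomial.aeval y (p i)},
      MvPolynomial.aeval y P / MvPolynomial.aeval y Q) := by
  classical
  have hD : SA {y : Fin n → ℝ | ∀ i, 0 ≤ MvPolynomial.aeval y (p i)} := by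
    have := SA_ball (Finset.univ : Finset (Fin m))
      (fun i => {y : Fin n → ℝ | 0 ≤ MvPolynomial.aeval y (p i)}) (fun i _ => SA_nonneg _)
    simpa using this
  have hm := measurableSet_of_SA hD
  rw [thm_VDI]
  have h1 := thm_CAS _ _ _ (SA_graph_div P Q) SA_graph_zero hD
  have h3 : (fun x => if x ∈ {y : Fin n → ℝ | ∀ i, 0 ≤ MvPolynomial.aeval y (p i)} then
      MvPolynomial.aeval x P / MvPolynomial.aeval x Q else 0) =
      {y : Fin n → ℝ | ∀ i, 0 ≤ MvPolynomial.aeval y (p i)}.indicator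
        (fun y => MvPolynomial.aeval y P / MvPolynomial.aeval y Q) := by
    funext x
    rw [Set.indicator_apply]
  refine ⟨_, h1, ?_, ?_⟩
  · rw [h3]
    exact (integrable_indicator_iff hm).2 h
  · rw [← integral_indicator hm, h3]

theorem Vd_lift {n : ℕ} {x : ℝ} (h : Vd n x) : ∀ k, Vd (n + k) x := by
  intro k
  induction k with
  | zero => exact h
  | succ k ih =>
    obtain ⟨a, b, ha, hb, hx⟩ := ih
    exact ⟨a, b, thm_VSU _ _ ha, thm_VSU _ _ hb, hx⟩

theorem Vd_le {n N : ℕ} (hN : n ≤ N) {x : ℝ} (h : Vd n x) : Vd N x := by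
  obtain ⟨k, rfl⟩ := Nat.exists_eq_add_of_le hN
  exact Vd_lift h k

theorem Vd_add {n : ℕ} (hn : 1 ≤ n) {x y : ℝ} (hx : Vd n x) (hy : Vd n y) : Vd n (x + y) := by
  obtain ⟨a, b, ha, hb, rfl⟩ := hx
  obtain ⟨c, d, hc, hd, rfl⟩ := hy
  exact ⟨a + c, b + d, thm_VAD n a c hn ha hc, thm_VAD n b d hn hb hd, by ring⟩

theorem V_zero (n : ℕ) : V n 0 :=
  ⟨∅, SA_empty, by simp, by simp⟩

theorem Vd_sum {n : ℕ} (hn : 1 ≤ n) {α : Type} (s : Finset α) (f : α → ℝ)
    (h : ∀ a ∈ s, Vd n (f a)) : Vd n (∑ a ∈ s, f a) := by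
  classical
  induction s using Finset.induction_on with
  | empty => exact ⟨0, 0, V_zero n, V_zero n, by simp⟩
  | insert a s ha ih =>
    rw [Finset.sum_insert ha]
    exact Vd_add hn (h a (Finset.mem_insert_self _ _))
      (ih fun b hb => h b (Finset.mem_insert_of_mem hb))

theorem thm_FRZ : St_FRZ := by
  intro x
  constructor
  · rintro ⟨k, n, m, p, P, Q, h1, rfl⟩
    refine ⟨(Finset.univ.sup n) + 1, by omega, Vd_sum (by omega) _ _ (fun j _ => ?_)⟩
    exact Vd_le (Nat.succ_le_succ (Finset.le_sup (f := n) (Finset.mem_univ j)))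
      (Vd_basic (p j) (P j) (Q j) (h1 j))
  · rintro ⟨n, _, a, b, ha, hb, rfl⟩
    rw [isPeriod_iff, sub_eq_add_neg]
    exact (V_isPeriodG ha).add (V_isPeriodG hb).neg

end Pool.Agent.PWD
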