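import Pool.Agent.PWD.StE
import Pool.Agent.PWQ.PRJ

/-!
# Substitution of semialgebraic functions
-/

set_option autoImplicit false

open Pool.Agent.PWQ

namespace Pool.Agent.PWD

theorem thm_CMP : St_CMP := by
  classical
  intro ι κ _ B hB S hS
  have : Fintype κ := Fintype.ofFinite κ
  have h1 : ∀ k : κ, SA {w : ι ⊕ κ → ℝ | w (Sum.inr k) = B k (fun i => w (Sum.inl i))} := by
    intro k
    have := SA_reindex (hB k) (fun o : Option ι => (o.elim (Sum.inr k) Sum.inl : ι ⊕ κ))
    exact this
  have h2 : SA {w : ι ⊕ κ → ℝ | ∀ k ∈ (Finset.univ : Finset κ),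
      w ∈ {w : ι ⊕ κ → ℝ | w (Sum.inr k) = B k (fun i => w (Sum.inl i))}} :=
    SA_ball Finset.univ _ (fun k _ => h1 k)
  have h3 := SA_ex_fin (SA_and h2 hS)
  have h4 : {x : ι → ℝ | Sum.elim x (fun k => B k x) ∈ S} = {x | ∃ y : κ → ℝ, Sum.elim x y ∈
      {w | w ∈ {w : ι ⊕ κ → ℝ | ∀ k ∈ (Finset.univ : Finset κ),
        w ∈ {w : ι ⊕ κ → ℝ | w (Sum.inr k) = B k (fun i => w (Sum.inl i))}} ∧ w ∈ S}} := by
    ext x
    constructor
    · intro hx
      refine ⟨fun k => B k x, ?_, hx⟩
      intro k _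
      rfl
    · rintro ⟨y, hy1, hy2⟩
      have h5 : y = fun k => B k x := by
        funext k
        exact hy1 k (Finset.mem_univ k)
      rw [h5] at hy2
      exact hy2
  rw [h4]
  exact h3

theorem thm_DIF : St_DIF := by
  intro ι A B hA hB
  -- functions on `Option ι → ℝ`
  have h1 : ∀ (F : (ι → ℝ) → ℝ), SA (graph F) →
      SA (graph (fun z : Option ι → ℝ => F (fun i => z (some i)))) := by
    intro F hF
    exact SA_reindex hF (fun o : Option ι => (o.elim none (fun i => some (some i)) :
      Option (Option ι)))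
  have h2 := thm_CMP (ι := Option ι) (κ := Bool)
    (fun b => if b then (fun z => A (fun i => z (some i))) else (fun z => B (fun i => z (some i))))
    (by
      intro b
      cases b
      · exact h1 B hB
      · exact h1 A hA)
    {w | w (Sum.inl none) = w (Sum.inr true) - w (Sum.inr false)}
    (by
      have := SA_eq (i := Option ι ⊕ Bool) (MvPolynomial.X (Sum.inl none))
        (MvPolynomial.X (Sum.inr true) - MvPolynomial.X (Sum.inr false))
      simpa using this)
  exact h2

theorem thm_CAS : St_CAS := by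
  intro ι A B S _ hA hB hS
  have h1 : SA {z : Option ι → ℝ | (fun i => z (some i)) ∈ S} := SA_reindex hS some
  have h2 := SA_or (SA_and h1 hA) (SA_and (SA_not h1) hB)
  have h3 : graph (fun x => if x ∈ S then A x else B x) =
      {z | z ∈ {x | x ∈ {z : Option ι → ℝ | (fun i => z (some i)) ∈ S} ∧ x ∈ graph A} ∨
        z ∈ {x | x ∈ {x | x ∉ {z : Option ι → ℝ | (fun i => z (some i)) ∈ S}} ∧ x ∈ graph B}} := by
    ext z
    by_cases hz : (fun i => z (some i)) ∈ S
    · simp [graph, hz]
    · simp [graph, hz]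
  rw [h3]
  exact h2

end Pool.Agent.PWD
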