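import Pool.Agent.PWD.CNV
import Pool.Agent.PWD.FUB

/-!
# PWD [WSB]: integrals over the whole space are `π` times volumes
-/

set_option autoImplicit false

open MeasureTheory Filter Topology

namespace Pool.Agent.PWD

open Pool.Agent.PWQ

theorem sa_abs {ι : Type} (A : (ι → ℝ) → ℝ) (hA : SA (graph A)) :
    SA (graph fun x => |A x|) := by
  have h1 : SA {z : Option ι → ℝ | 0 ≤ z none} := by
    have := SA_nonneg (i := Option ι) (MvPolynomial.X none)
    simpa only [MvPolynomial.aeval_X] using this
  have h2 : SA {z : Option ι → ℝ | (fun k : Option ι => MvPolynomial.aeval z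
      (k.elim (-MvPolynomial.X none) fun i => MvPolynomial.X (some i) :
        MvPolynomial (Option ι) ℚ)) ∈ graph A} := SA_sub hA _
  have h3 := SA_and h1 (SA_or hA h2)
  have e : (graph fun x => |A x|) = {z : Option ι → ℝ | z ∈ {z : Option ι → ℝ | 0 ≤ z none} ∧
      z ∈ {z | z ∈ graph A ∨ z ∈ {z : Option ι → ℝ | (fun k : Option ι => MvPolynomial.aeval z
      (k.elim (-MvPolynomial.X none) fun i => MvPolynomial.X (some i) :
        MvPolynomial (Option ι) ℚ)) ∈ graph A}}} := by
    ext z
    have e1 : (fun k : Option ι => MvPolynomial.aeval z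
      (k.elim (-MvPolynomial.X none) fun i => MvPolynomial.X (some i) :
        MvPolynomial (Option ι) ℚ)) = fun k : Option ι => k.elim (-z none) fun i => z (some i) := by
      funext k
      cases k <;> simp
    constructor
    · intro h
      have h' : z none = |A (fun i => z (some i))| := h
      refine ⟨?_, ?_⟩
      · change 0 ≤ z none
        rw [h']
        exact abs_nonneg _
      · rcases abs_choice (A (fun i => z (some i))) with h4 | h4
        · left
          change z none = _
          rw [h', h4]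
        · right
          change (fun k : Option ι => MvPolynomial.aeval z
            (k.elim (-MvPolynomial.X none) fun i => MvPolynomial.X (some i) :
              MvPolynomial (Option ι) ℚ)) ∈ graph A
          rw [e1]
          change - z none = A (fun i => z (some i))
          rw [h', h4]
          ring
    · rintro ⟨h4, h5⟩
      change z none = |A (fun i => z (some i))|
      have h4' : 0 ≤ z none := h4
      rcases h5 with h5 | h5
      · have h6 : z none = A (fun i => z (some i)) := h5
        rw [← h6, abs_of_nonneg h4']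
      · change (fun k : Option ι => MvPolynomial.aeval z
            (k.elim (-MvPolynomial.X none) fun i => MvPolynomial.X (some i) :
              MvPolynomial (Option ι) ℚ)) ∈ graph A at h5
        rw [e1] at h5
        have h6 : - z none = A (fun i => z (some i)) := h5
        rw [← h6, abs_neg, abs_of_nonneg h4']
  rw [e]
  exact h3

/-- The semialgebraic function of the line integral, with its integral. -/
theorem wsb_main (m : ℕ) (P Q : MvPolynomial (Fin (m + 1)) ℚ) (hQ : Q ≠ 0)
    (hi : Integrable (fun x : Fin (m + 1) → ℝ => rat P Q x)) :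
    ∃ A : (Fin m → ℝ) → ℝ, SA (graph A) ∧ Integrable A ∧
      (∀ᵐ x : Fin m → ℝ, (∫ t : ℝ, rat P Q (Fin.snoc x t : Fin (m + 1) → ℝ)) = Real.pi * A x) ∧
      (∫ x : Fin (m + 1) → ℝ, rat P Q x) = Real.pi * ∫ x, A x := by
  obtain ⟨A, hA, hA2⟩ := thm_CNV m P Q hQ (integrable_snoc_ae m _ hi)
  have h1 : Integrable (fun x : Fin m → ℝ =>
      ∫ t : ℝ, rat P Q (Fin.snoc x t : Fin (m + 1) → ℝ)) :=
    ((integrable_snoc_iff m _).1 hi).integral_prod_left
  have h2 : Integrable (fun x : Fin m → ℝ => Real.pi * A x) := h1.congr hA2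
  have h3 : Integrable A := by
    have := h2.const_mul (Real.pi)⁻¹
    refine this.congr (Eventually.of_forall fun x => ?_)
    simp only
    rw [inv_mul_cancel_left₀ Real.pi_ne_zero]
  refine ⟨A, hA, h3, hA2, ?_⟩
  rw [integral_snoc m _ hi, integral_congr_ae hA2, integral_const_mul]

/-- `WSB`, the signed part. -/
theorem thm_WSB (h : St_VDI) (m : ℕ) (v : ℝ) (hv : W (m + 1) v) :
    ∃ x, Vd (m + 1) x ∧ v = Real.pi * x := by
  obtain ⟨P, Q, hQ, hi, rfl⟩ := hv
  obtain ⟨A, hA, hAi, _, he⟩ := wsb_main m P Q hQ hi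
  exact ⟨∫ x, A x, (h m _).2 ⟨A, hA, hAi, rfl⟩, he⟩

theorem wp_pos (n : ℕ) (v : ℝ) (hv : Wp n v) : 0 < v := by
  obtain ⟨P, Q, hQ, hi, hpos, rfl⟩ := hv
  have hae : ∀ᵐ x : Fin n → ℝ, 0 < rat P Q x := by
    filter_upwards [ae_aeval_ne Q hQ] with x hx
    exact hpos x hx
  have h0 : 0 ≤ᵐ[volume] fun x : Fin n → ℝ => rat P Q x := by
    filter_upwards [hae] with x hx
    exact hx.le
  rw [integral_pos_iff_support_of_nonneg_ae h0 hi]
  have h1 : (volume : Measure (Fin n → ℝ)) (Function.support fun x : Fin n → ℝ => rat P Q x)ᶜ = 0 := by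
    refine measure_mono_null ?_ (ae_iff.1 hae)
    intro x hx
    simp only [Function.mem_support, ne_eq, Set.mem_compl_iff, not_not] at hx
    change ¬ 0 < rat P Q x
    rw [hx]
    exact lt_irrefl _
  by_contra h2
  have h3 : (volume : Measure (Fin n → ℝ)) (Function.support fun x : Fin n → ℝ => rat P Q x) = 0 :=
    le_antisymm (not_lt.1 h2) zero_le
  have h4 : (volume : Measure (Fin n → ℝ)) Set.univ = 0 := by
    rw [← Set.union_compl_self (Function.support fun x : Fin n → ℝ => rat P Q x)]
    exact measure_union_null h3 h1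
  have h5 : (volume : Measure (Fin n → ℝ)) ≠ 0 := NeZero.ne _
  exact h5 (Measure.measure_univ_eq_zero.1 h4)

/-- `WSB`, the positive part. -/
theorem thm_WSP (h : St_VIN) (m : ℕ) (v : ℝ) (hv : Wp (m + 1) v) :
    ∃ a, V (m + 1) a ∧ 0 < a ∧ v = Real.pi * a := by
  have hv0 := wp_pos _ _ hv
  obtain ⟨P, Q, hQ, hi, hpos, rfl⟩ := hv
  obtain ⟨A, hA, hAi, hA2, he⟩ := wsb_main m P Q hQ hi
  have hae : ∀ᵐ x : Fin (m + 1) → ℝ, 0 ≤ rat P Q x := by
    filter_upwards [ae_aeval_ne Q hQ] with x hx
    exact (hpos x hx).le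
  have hA0 : ∀ᵐ x : Fin m → ℝ, |A x| = A x := by
    filter_upwards [ae_snoc m _ hae, hA2] with x hx hx2
    have h1 : 0 ≤ ∫ t : ℝ, rat P Q (Fin.snoc x t : Fin (m + 1) → ℝ) :=
      integral_nonneg_of_ae hx
    rw [hx2] at h1
    exact abs_of_nonneg (nonneg_of_mul_nonneg_right h1 Real.pi_pos)
  have hBi : Integrable (fun x => |A x|) := hAi.congr (by
    filter_upwards [hA0] with x hx
    exact hx.symm)
  have hBe : (∫ x, |A x|) = ∫ x, A x := integral_congr_ae hA0
  refine ⟨∫ x, |A x|, (h m _).2 ⟨fun x => |A x|, sa_abs A hA, fun x => abs_nonneg _, hBi, rfl⟩,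
    ?_, ?_⟩
  · rw [hBe]
    rw [he] at hv0
    exact (pos_iff_pos_of_mul_pos hv0).1 Real.pi_pos
  · rw [hBe]
    exact he

end Pool.Agent.PWD
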