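import Pool.Agent.PWD.StM
import Pool.Agent.PWD.WSB
import Pool.Agent.PWD.CMP
import Pool.Agent.PWD.VIN

/-!
# Periods without domains: marginals of rational functions
-/

set_option autoImplicit false

open MeasureTheory Filter
open Pool.Agent.PWQ

namespace Pool.Agent.PWD

/-- the product of two semialgebraic functions -/
theorem SA_mul2 {ι : Type} {A B : (ι → ℝ) → ℝ} (hA : SA (graph A)) (hB : SA (graph B)) :
    SA (graph (fun x => A x * B x)) := by
  have h := thm_CMP (ι := Option ι) (κ := Bool)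
    (fun b z => if b then A (fun i => z (some i)) else B (fun i => z (some i)))
    (fun b => by
      have key : ∀ C : (ι → ℝ) → ℝ, SA (graph C) →
          SA (graph (fun z : Option ι → ℝ => C (fun i => z (some i)))) := by
        intro C hC
        exact SA_reindex hC (Option.map some)
      cases b
      · simpa using key B hB
      · simpa using key A hA)
    {w | MvPolynomial.aeval w (MvPolynomial.X (Sum.inl none) : MvPolynomial (Option ι ⊕ Bool) ℚ) =
      MvPolynomial.aeval w (MvPolynomial.X (Sum.inr true) * MvPolynomial.X (Sum.inr false) :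
        MvPolynomial (Option ι ⊕ Bool) ℚ)}
    (SA_eq _ _)
  simpa [graph] using h

theorem SA_graph_comp {ι κ : Type} {C : (ι → ℝ) → ℝ} (hC : SA (graph C)) (g : ι → κ) :
    SA (graph (fun z : κ → ℝ => C (fun i => z (g i)))) :=
  SA_reindex hC (Option.map g)

/-- `(x, y) ↦ Fin.append x y` as a measurable equivalence -/
theorem exists_appendM (m k : ℕ) : ∃ E : ((Fin m → ℝ) × (Fin k → ℝ)) ≃ᵐ (Fin (m + k) → ℝ),
    MeasurePreserving E ((volume : Measure (Fin m → ℝ)).prod volume) volume ∧
    ∀ (x : Fin m → ℝ) (y : Fin k → ℝ), E (x, y) = Fin.append x y := by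
  obtain ⟨E, hE⟩ : ∃ E : ((Fin m → ℝ) × (Fin k → ℝ)) ≃ᵐ (Fin (m + k) → ℝ),
      E = (MeasurableEquiv.sumPiEquivProdPi (fun _ : Fin m ⊕ Fin k => ℝ)).symm.trans
        (MeasurableEquiv.piCongrLeft (fun _ : Fin (m + k) => ℝ) finSumFinEquiv) := ⟨_, rfl⟩
  refine ⟨E, ?_, ?_⟩
  · rw [hE]
    exact (volume_measurePreserving_piCongrLeft (fun _ : Fin (m + k) => ℝ) finSumFinEquiv).comp
      (volume_measurePreserving_sumPiEquivProdPi_symm (fun _ : Fin m ⊕ Fin k => ℝ))
  · intro x y
    funext i
    rw [hE]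
    refine Fin.addCases (fun i => ?_) (fun j => ?_) i
    · rw [Fin.append_left]
      have : Fin.castAdd k i = finSumFinEquiv (Sum.inl i : Fin m ⊕ Fin k) := by simp
      rw [this]
      exact Equiv.piCongrLeft_apply_apply (fun _ : Fin (m + k) => ℝ) finSumFinEquiv _ _
    · rw [Fin.append_right]
      have : Fin.natAdd m j = finSumFinEquiv (Sum.inr j : Fin m ⊕ Fin k) := by simp
      rw [this]
      exact Equiv.piCongrLeft_apply_apply (fun _ : Fin (m + k) => ℝ) finSumFinEquiv _ _

theorem ae_append (m k : ℕ) (p : (Fin (m + k) → ℝ) → Prop) (h : ∀ᵐ w : Fin (m + k) → ℝ, p w) :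
    ∀ᵐ x : Fin m → ℝ, ∀ᵐ y : Fin k → ℝ, p (Fin.append x y) := by
  obtain ⟨E, hE, hE2⟩ := exists_appendM m k
  have h1 := hE.quasiMeasurePreserving.ae h
  have h2 := Measure.ae_ae_of_ae_prod h1
  filter_upwards [h2] with x hx
  filter_upwards [hx] with y hy
  rwa [hE2] at hy

theorem ae_append_of (m k : ℕ) (p : (Fin m → ℝ) → (Fin k → ℝ) → Prop)
    (h : ∀ᵐ z : (Fin m → ℝ) × (Fin k → ℝ), p z.1 z.2) :
    ∀ᵐ w : Fin (m + k) → ℝ, p (fun i => w (Fin.castAdd k i)) (fun j => w (Fin.natAdd m j)) := by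
  obtain ⟨E, hE, hE2⟩ := exists_appendM m k
  have h1 := (hE.symm E).quasiMeasurePreserving.ae h
  filter_upwards [h1] with w hw
  have h3 : E ((E.symm w).1, (E.symm w).2) = w := E.apply_symm_apply w
  rw [hE2] at h3
  have e1 : (fun i => w (Fin.castAdd k i)) = (E.symm w).1 := by
    funext i
    conv_lhs => rw [← h3]
    rw [Fin.append_left]
  have e2 : (fun j => w (Fin.natAdd m j)) = (E.symm w).2 := by
    funext j
    conv_lhs => rw [← h3]
    rw [Fin.append_right]
  rw [e1, e2]
  exact hw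

theorem integrable_append_mul (m k : ℕ) (f : (Fin m → ℝ) → ℝ) (A : (Fin k → ℝ) → ℝ)
    (hf : Integrable f) (hA : Integrable A) :
    Integrable (fun w : Fin (m + k) → ℝ =>
      f (fun i => w (Fin.castAdd k i)) * A (fun j => w (Fin.natAdd m j))) := by
  obtain ⟨E, hE, hE2⟩ := exists_appendM m k
  rw [← hE.integrable_comp_emb E.measurableEmbedding]
  have e : (fun w : Fin (m + k) → ℝ =>
      f (fun i => w (Fin.castAdd k i)) * A (fun j => w (Fin.natAdd m j))) ∘ E =
      fun z : (Fin m → ℝ) × (Fin k → ℝ) => f z.1 * A z.2 := by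
    funext z
    obtain ⟨x, y⟩ := z
    simp only [Function.comp, hE2, Fin.append_left, Fin.append_right]
  rw [e]
  exact hf.mul_prod hA

theorem pos_int {f : ℝ → ℝ} (hi : Integrable f) (h : ∀ᵐ t : ℝ, 0 < f t) : 0 < ∫ t, f t := by
  have h0 : 0 ≤ᵐ[volume] f := h.mono fun t ht => ht.le
  rw [integral_pos_iff_support_of_nonneg_ae h0 hi]
  have h1 : (Function.support f) =ᵐ[volume] (Set.univ : Set ℝ) := by
    filter_upwards [h] with t ht
    exact propext ⟨fun _ => trivial, fun _ => ne_of_gt ht⟩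
  rw [measure_congr h1]
  simp

/-- `MRG` -/
theorem thm_MRG (hS : St_SIMP) : St_MRG := by
  intro n hn hW m f hf hf0 hfi
  obtain ⟨k, rfl⟩ : ∃ k, n = k + 1 := ⟨n - 1, by omega⟩
  obtain ⟨P₀, Q₀, hQ₀, hi₀, hpos₀, h1⟩ := hW
  obtain ⟨A, hA, hAi, hA2, hA3⟩ := wsb_main k P₀ Q₀ hQ₀ hi₀
  have hA1 : Real.pi * ∫ x, A x = 1 := by rw [← hA3, ← h1]
  have hA0 : ∀ᵐ x : Fin k → ℝ, 0 < A x := by
    have h2 : ∀ᵐ x : Fin (k + 1) → ℝ, 0 < rat P₀ Q₀ x := by
      filter_upwards [ae_aeval_ne Q₀ hQ₀] with x hx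
      exact hpos₀ x hx
    filter_upwards [ae_snoc k _ h2, hA2, integrable_snoc_ae k _ hi₀] with x hx hx2 hx3
    have h3 := pos_int hx3 hx
    rw [hx2] at h3
    exact (pos_iff_pos_of_mul_pos h3).1 Real.pi_pos
  obtain ⟨g, hg⟩ : ∃ g : (Fin (m + k) → ℝ) → ℝ, g = fun w =>
      f (fun i => w (Fin.castAdd k i)) * A (fun j => w (Fin.natAdd m j)) := ⟨_, rfl⟩
  have hgS : SA (graph g) := by
    rw [hg]
    exact SA_mul2 (SA_graph_comp hf _) (SA_graph_comp hA _)
  have hg0 : ∀ᵐ w, 0 < g w := by
    rw [hg]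
    refine ae_append_of m k (fun x y => 0 < f x * A y) ?_
    filter_upwards [Measure.quasiMeasurePreserving_fst.ae hf0,
      Measure.quasiMeasurePreserving_snd.ae hA0] with z h2 h3
    exact mul_pos h2 h3
  have hgi : Integrable g := by
    rw [hg]
    exact integrable_append_mul m k f A hfi hAi
  obtain ⟨P, Q, hQ, hpos, h2⟩ := hS (m + k) g hgS hg0
  have hnn : ∀ z, 0 ≤ rat P Q z := by
    intro z
    by_cases hz : MvPolynomial.aeval z Q = 0
    · unfold rat
      rw [hz, div_zero]
    · exact (hpos z hz).le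
  have hm : Measurable (fun z : Fin (m + k + 1) → ℝ => rat P Q z) := by
    unfold rat
    exact (continuous_aeval' P).measurable.div (continuous_aeval' Q).measurable
  refine ⟨P, Q, hQ, hpos, ?_, ?_⟩
  · refine integrable_of_snoc (m + k) _ hm.aestronglyMeasurable (h2.mono fun w hw => hw.1) ?_
    refine (hgi.const_mul Real.pi).congr ?_
    filter_upwards [h2] with w hw
    simp only [Real.norm_of_nonneg (hnn _)]
    exact hw.2.symm
  · filter_upwards [ae_append m k _ h2] with x hx
    have hs : ∀ (y : Fin k → ℝ) (t : ℝ), (Fin.append x (Fin.snoc y t : Fin (k + 1) → ℝ)) =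
        (Fin.snoc (Fin.append x y) t : Fin (m + k + 1) → ℝ) := fun y t => Fin.append_snoc x y t
    have hgx : ∀ y : Fin k → ℝ, g (Fin.append x y) = f x * A y := by
      intro y
      rw [hg]
      simp only [Fin.append_left, Fin.append_right]
    have hFi : Integrable (fun z : Fin (k + 1) → ℝ => rat P Q (@Fin.append m (k + 1) ℝ x z)) := by
      refine integrable_of_snoc k _ ?_ ?_ ?_
      · refine (hm.comp ?_).aestronglyMeasurable
        exact measurable_pi_lambda _ fun i => by
          refine Fin.addCases (fun i => ?_) (fun j => ?_) i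
          · simp only [Fin.append_left]
            exact measurable_const
          · simp only [Fin.append_right]
            exact measurable_pi_apply j
      · filter_upwards [hx] with y hy
        simp only [hs]
        exact hy.1
      · refine (hAi.const_mul (Real.pi * f x)).congr ?_
        filter_upwards [hx] with y hy
        simp only [Real.norm_of_nonneg (hnn _), hs]
        rw [hy.2, hgx]
        ring
    refine ⟨hFi, ?_⟩
    rw [integral_snoc k _ hFi]
    have h3 : (fun y : Fin k → ℝ => ∫ t : ℝ, rat P Q (@Fin.append m (k + 1) ℝ x (Fin.snoc y t : Fin (k + 1) → ℝ)))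
        =ᵐ[volume] fun y => (Real.pi * f x) * A y := by
      filter_upwards [hx] with y hy
      simp only [hs]
      rw [hy.2, hgx]
      ring
    rw [integral_congr_ae h3, integral_const_mul]
    calc f x = f x * (Real.pi * ∫ y, A y) := by rw [hA1, mul_one]
      _ = _ := by ring

end Pool.Agent.PWD
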