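import Pool.Agent.PWD.StX
import Pool.Agent.ITR.ABT

/-!
# PWD [MXA]: mixed towers give abstract mixed towers
-/

set_option autoImplicit false

open MeasureTheory Filter Topology

namespace Pool.Agent.PWD

open Pool.Agent.Helper23.PeriodDefs
open Pool.Agent.Helper23.Quadric (PF evx)
open Pool.Agent.Helper23.PeriodProof (RB)
open Pool.Agent.ITR (PosProd DepOn)
open Pool.Agent.ITR.ABT

theorem hform_pos (f : Polynomial RealAlg) (hf : ∀ t : ℝ, 0 < Polynomial.aeval t f) (u v : ℝ)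
    (hv : 0 < v) : 0 < hform f u v := by
  have h : hform f u v = v ^ f.natDegree * Polynomial.aeval (u / v) f := by
    unfold hform
    rw [Polynomial.aeval_eq_sum_range, Finset.mul_sum]
    refine Finset.sum_congr rfl fun j hj => ?_
    have hj' : j ≤ f.natDegree := by
      have := Finset.mem_range.1 hj
      omega
    have e : v ^ f.natDegree = v ^ (f.natDegree - j) * v ^ j := by
      rw [← pow_add, Nat.sub_add_cancel hj']
    have e2 : f.coeff j • (u / v) ^ j = (f.coeff j : ℝ) * (u / v) ^ j := rfl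
    rw [e2, e, div_pow]
    have h1 := (pow_pos hv j).ne'
    field_simp
  rw [h]
  exact mul_pos (pow_pos hv _) (hf _)

theorem mixProd_pos {n : ℕ} (I : Set (Fin n)) (q : Fin n → MultiPoly n) (k : Fin n)
    (x : Fin n → ℝ) (hq : ∀ i < k, 0 < evalMulti (q i) x)
    (p : (Fin n → ℝ) → ℝ) (hp : MixProd I q k p) : 0 < p x := by
  induction hp with
  | const c hc => exact hc
  | gen i hi _ => exact hq i hi
  | sq i hi => exact pow_pos (hq i hi) 2
  | mul _ _ ha hb => exact mul_pos ha hb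

theorem mix_pos_aux {n : ℕ} (I : Set (Fin n)) (q : Fin n → MultiPoly n) (hq : MixTower I q)
    (x : Fin n → ℝ) : ∀ (k : ℕ) (i : Fin n), (i : ℕ) = k → 0 < evalMulti (q i) x := by
  intro k
  induction k using Nat.strong_induction_on with
  | _ k ih =>
    intro i hi
    obtain ⟨_, M, s, b, _, h⟩ := hq i
    have hlt : ∀ j < i, 0 < evalMulti (q j) x := fun j hj => by
      have h1 : (j : ℕ) < (i : ℕ) := hj
      exact ih (j : ℕ) (by omega) j rfl
    rcases h with ⟨_, hM, hs, hid⟩ | ⟨_, hM, hs, f, hf, hid⟩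
    · have h1 := mixProd_pos I q i x hlt M hM
      have h2 := mixProd_pos I q i x hlt s hs
      have h4 : 0 < M x * evalMulti (q i) x := by
        rw [hid x]
        positivity
      exact (mul_pos_iff_of_pos_left h1).mp h4
    · rw [hid x]
      exact hform_pos f hf _ _ (posProd_pos q i x hlt s hs)

theorem mix_pos {n : ℕ} (I : Set (Fin n)) (q : Fin n → MultiPoly n) (hq : MixTower I q)
    (x : Fin n → ℝ) (i : Fin n) : 0 < evalMulti (q i) x :=
  mix_pos_aux I q hq x i i rfl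

theorem mtow_pf {n : ℕ} (q : Fin n → MultiPoly n) (hq : ∀ i x, 0 < evalMulti (q i) x) (N : ℕ)
    (w : (Fin N → ℝ) → ℝ) (hw : w ∈ tow q N) : w ∈ PF RB N ∧ ∀ x, 0 < w x := by
  unfold tow at hw
  induction hw using Submonoid.closure_induction with
  | mem w hw =>
    rcases hw with ⟨c, hc, rfl⟩ | ⟨i, hi, rfl⟩
    · exact ⟨Pool.Agent.Helper23.Quadric.const_mem_PF
        (Pool.Agent.Helper23.PeriodProof.coe_mem_RB c), fun _ => hc⟩
    · exact ⟨aeval_ext_mem n N (q i), fun x => hq i _⟩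
  | one => exact ⟨(PF RB N).one_mem, fun _ => one_pos⟩
  | mul a b _ _ ha hb =>
    exact ⟨(PF RB N).mul_mem ha.1 hb.1, fun x => mul_pos (ha.2 x) (hb.2 x)⟩

theorem posProd_snoc' {n : ℕ} (q : Fin n → MultiPoly n)
    (hq : ∀ k, DepOn {i | i ≤ k} (evalMulti (q k)))
    (N : ℕ) (k : Fin n) (hk : (k : ℕ) = N) (p : (Fin n → ℝ) → ℝ)
    (hp : PosProd q k p) (y : Fin N → ℝ) (t : ℝ) :
    p (ext n (N + 1) (Fin.snoc y t)) = p (ext n N y) := by
  induction hp with
  | const c hc => rfl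
  | gen i hi =>
    refine dep_snoc (hq i) (fun j hj => ?_) y t
    have h1 : (i : ℕ) < (k : ℕ) := hi
    have h2 : (j : ℕ) ≤ (i : ℕ) := hj
    omega
  | mul _ _ ha hb =>
    show _ * _ = _ * _
    rw [ha, hb]

theorem mixProd_snoc {n : ℕ} (I : Set (Fin n)) (q : Fin n → MultiPoly n)
    (hq : ∀ k, DepOn {i | i ≤ k} (evalMulti (q k)))
    (N : ℕ) (k : Fin n) (hk : (k : ℕ) = N) (p : (Fin n → ℝ) → ℝ)
    (hp : MixProd I q k p) (y : Fin N → ℝ) (t : ℝ) :
    p (ext n (N + 1) (Fin.snoc y t)) = p (ext n N y) := by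
  induction hp with
  | const c hc => rfl
  | gen i hi _ =>
    refine dep_snoc (hq i) (fun j hj => ?_) y t
    have h1 : (i : ℕ) < (k : ℕ) := hi
    have h2 : (j : ℕ) ≤ (i : ℕ) := hj
    omega
  | sq i hi =>
    have h3 : evalMulti (q i) (ext n (N + 1) (Fin.snoc y t)) = evalMulti (q i) (ext n N y) := by
      refine dep_snoc (hq i) (fun j hj => ?_) y t
      have h1 : (i : ℕ) < (k : ℕ) := hi
      have h2 : (j : ℕ) ≤ (i : ℕ) := hj
      omega
    show _ ^ 2 = _ ^ 2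
    rw [h3]
  | mul _ _ ha hb =>
    show _ * _ = _ * _
    rw [ha, hb]

theorem mtow_split {n : ℕ} (q : Fin n → MultiPoly n)
    (hq : ∀ k, DepOn {i | i ≤ k} (evalMulti (q k)))
    (N : ℕ) (k : Fin n) (hk : (k : ℕ) = N) (w : (Fin (N + 1) → ℝ) → ℝ)
    (hw : w ∈ tow q (N + 1)) :
    ∃ w₀ ∈ tow q N, ∃ m : ℕ, ∀ (y : Fin N → ℝ) (t : ℝ),
      w (Fin.snoc y t) = w₀ y *
        (evalMulti (q k) (ext n (N + 1) (Fin.snoc y t : Fin (N + 1) → ℝ))) ^ m := by
  unfold tow at hw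
  induction hw using Submonoid.closure_induction with
  | mem w hw =>
    rcases hw with ⟨c, hc, rfl⟩ | ⟨i, hi, rfl⟩
    · exact ⟨_, const_mem_tow q N c hc, 0, fun y t => by rw [pow_zero, mul_one]⟩
    · by_cases hik : i = k
      · subst hik
        refine ⟨1, (tow q N).one_mem, 1, fun y t => ?_⟩
        rw [pow_one, Pi.one_apply, one_mul]
      · have h1 : (i : ℕ) < N := by
          have h2 : (i : ℕ) ≠ (k : ℕ) := fun h => hik (Fin.ext h)
          omega
        refine ⟨_, q_mem_tow q N i h1, 0, fun y t => ?_⟩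
        rw [pow_zero, mul_one]
        refine dep_snoc (hq i) (fun j hj => ?_) y t
        have h2 : (j : ℕ) ≤ (i : ℕ) := hj
        omega
  | one =>
    refine ⟨1, (tow q N).one_mem, 0, fun y t => ?_⟩
    rw [pow_zero, mul_one]
    rfl
  | mul a b _ _ ha hb =>
    obtain ⟨a₀, ha₀, ma, ha⟩ := ha
    obtain ⟨b₀, hb₀, mb, hb⟩ := hb
    refine ⟨a₀ * b₀, (tow q N).mul_mem ha₀ hb₀, ma + mb, fun y t => ?_⟩
    rw [Pi.mul_apply, Pi.mul_apply, ha, hb, pow_add]
    ring

/-- the smaller monoid -/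
noncomputable def towA {n : ℕ} (I : Set (Fin n)) (q : Fin n → MultiPoly n) (N : ℕ) :
    Submonoid ((Fin N → ℝ) → ℝ) :=
  Submonoid.closure ({f | ∃ c : RealAlg, (0 : ℝ) < c ∧ f = fun _ => (c : ℝ)} ∪
    ({f | ∃ i : Fin n, (i : ℕ) < N ∧ i ∈ I ∧ f = fun y => evalMulti (q i) (ext n N y)} ∪
    {f | ∃ i : Fin n, (i : ℕ) < N ∧ f = fun y => evalMulti (q i) (ext n N y) ^ 2}))

theorem const_mem_towA {n : ℕ} (I : Set (Fin n)) (q : Fin n → MultiPoly n) (N : ℕ) (c : RealAlg)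
    (hc : (0 : ℝ) < c) : (fun _ : Fin N → ℝ => (c : ℝ)) ∈ towA I q N :=
  Submonoid.subset_closure (Or.inl ⟨c, hc, rfl⟩)

theorem q_mem_towA {n : ℕ} (I : Set (Fin n)) (q : Fin n → MultiPoly n) (N : ℕ) (i : Fin n)
    (hi : (i : ℕ) < N) (hI : i ∈ I) :
    (fun y : Fin N → ℝ => evalMulti (q i) (ext n N y)) ∈ towA I q N :=
  Submonoid.subset_closure (Or.inr (Or.inl ⟨i, hi, hI, rfl⟩))

theorem sq_mem_towA {n : ℕ} (I : Set (Fin n)) (q : Fin n → MultiPoly n) (N : ℕ) (i : Fin n)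
    (hi : (i : ℕ) < N) :
    (fun y : Fin N → ℝ => evalMulti (q i) (ext n N y) ^ 2) ∈ towA I q N :=
  Submonoid.subset_closure (Or.inr (Or.inr ⟨i, hi, rfl⟩))

theorem towA_le {n : ℕ} (I : Set (Fin n)) (q : Fin n → MultiPoly n) (N : ℕ)
    (w : (Fin N → ℝ) → ℝ) (hw : w ∈ towA I q N) : w ∈ tow q N := by
  unfold towA at hw
  induction hw using Submonoid.closure_induction with
  | mem w hw =>
    rcases hw with ⟨c, hc, rfl⟩ | ⟨i, hi, _, rfl⟩ | ⟨i, hi, rfl⟩
    · exact const_mem_tow q N c hc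
    · exact q_mem_tow q N i hi
    · exact (tow q N).pow_mem (q_mem_tow q N i hi) 2
  | one => exact (tow q N).one_mem
  | mul a b _ _ ha hb => exact (tow q N).mul_mem ha hb

theorem towA_sq {n : ℕ} (I : Set (Fin n)) (q : Fin n → MultiPoly n) (N : ℕ)
    (w : (Fin N → ℝ) → ℝ) (hw : w ∈ tow q N) : w ^ 2 ∈ towA I q N := by
  unfold tow at hw
  induction hw using Submonoid.closure_induction with
  | mem w hw =>
    rcases hw with ⟨c, hc, rfl⟩ | ⟨i, hi, rfl⟩
    · exact (towA I q N).pow_mem (const_mem_towA I q N c hc) 2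
    · exact sq_mem_towA I q N i hi
  | one =>
    rw [one_pow]
    exact (towA I q N).one_mem
  | mul a b _ _ ha hb =>
    rw [mul_pow]
    exact (towA I q N).mul_mem ha hb

theorem mixProd_towA {n : ℕ} (I : Set (Fin n)) (q : Fin n → MultiPoly n) (N : ℕ) (k : Fin n)
    (hk : (k : ℕ) = N) (p : (Fin n → ℝ) → ℝ) (hp : MixProd I q k p) :
    (fun y : Fin N → ℝ => p (ext n N y)) ∈ towA I q N := by
  induction hp with
  | const c hc => exact const_mem_towA I q N c hc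
  | gen i hi hI =>
    have h1 : (i : ℕ) < (k : ℕ) := hi
    exact q_mem_towA I q N i (by omega) hI
  | sq i hi =>
    have h1 : (i : ℕ) < (k : ℕ) := hi
    exact sq_mem_towA I q N i (by omega)
  | mul _ _ ha hb => exact (towA I q N).mul_mem ha hb

theorem towA_split {n : ℕ} (I : Set (Fin n)) (q : Fin n → MultiPoly n)
    (hq : ∀ k, DepOn {i | i ≤ k} (evalMulti (q k)))
    (N : ℕ) (k : Fin n) (hk : (k : ℕ) = N) (w : (Fin (N + 1) → ℝ) → ℝ)
    (hw : w ∈ towA I q (N + 1)) :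
    ∃ w₀ ∈ towA I q N, ∃ m : ℕ, (k ∉ I → ∃ l, m = 2 * l) ∧ ∀ (y : Fin N → ℝ) (t : ℝ),
      w (Fin.snoc y t) = w₀ y *
        (evalMulti (q k) (ext n (N + 1) (Fin.snoc y t : Fin (N + 1) → ℝ))) ^ m := by
  have hdep : ∀ i : Fin n, (i : ℕ) < N → ∀ (y : Fin N → ℝ) (t : ℝ),
      evalMulti (q i) (ext n (N + 1) (Fin.snoc y t : Fin (N + 1) → ℝ)) =
        evalMulti (q i) (ext n N y) := by
    intro i h1 y t
    refine dep_snoc (hq i) (fun j hj => ?_) y t
    have h2 : (j : ℕ) ≤ (i : ℕ) := hj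
    omega
  unfold towA at hw
  induction hw using Submonoid.closure_induction with
  | mem w hw =>
    rcases hw with ⟨c, hc, rfl⟩ | ⟨i, hi, hI, rfl⟩ | ⟨i, hi, rfl⟩
    · exact ⟨_, const_mem_towA I q N c hc, 0, fun _ => ⟨0, rfl⟩,
        fun y t => by rw [pow_zero, mul_one]⟩
    · by_cases hik : i = k
      · subst hik
        refine ⟨1, (towA I q N).one_mem, 1, fun h => absurd hI h, fun y t => ?_⟩
        rw [pow_one, Pi.one_apply, one_mul]
      · have h1 : (i : ℕ) < N := by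
          have h2 : (i : ℕ) ≠ (k : ℕ) := fun h => hik (Fin.ext h)
          omega
        refine ⟨_, q_mem_towA I q N i h1 hI, 0, fun _ => ⟨0, rfl⟩, fun y t => ?_⟩
        rw [pow_zero, mul_one]
        exact hdep i h1 y t
    · by_cases hik : i = k
      · subst hik
        refine ⟨1, (towA I q N).one_mem, 2, fun _ => ⟨1, rfl⟩, fun y t => ?_⟩
        rw [Pi.one_apply, one_mul]
      · have h1 : (i : ℕ) < N := by
          have h2 : (i : ℕ) ≠ (k : ℕ) := fun h => hik (Fin.ext h)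
          omega
        refine ⟨_, sq_mem_towA I q N i h1, 0, fun _ => ⟨0, rfl⟩, fun y t => ?_⟩
        rw [pow_zero, mul_one]
        simp only
        rw [hdep i h1 y t]
  | one =>
    refine ⟨1, (towA I q N).one_mem, 0, fun _ => ⟨0, rfl⟩, fun y t => ?_⟩
    rw [pow_zero, mul_one]
    rfl
  | mul a b _ _ ha hb =>
    obtain ⟨a₀, ha₀, ma, hma, ha⟩ := ha
    obtain ⟨b₀, hb₀, mb, hmb, hb⟩ := hb
    refine ⟨a₀ * b₀, (towA I q N).mul_mem ha₀ hb₀, ma + mb, fun h => ?_, fun y t => ?_⟩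
    · obtain ⟨l, hl⟩ := hma h
      obtain ⟨l', hl'⟩ := hmb h
      exact ⟨l + l', by omega⟩
    · rw [Pi.mul_apply, Pi.mul_apply, ha, hb, pow_add]
      ring

/-- [MXA] mixed towers give abstract ones -/
theorem thm_MXA : St_MXA := by
  intro n I q hq
  have hd : ∀ k, DepOn {i | i ≤ k} (evalMulti (q k)) := fun k => (hq k).1
  refine ⟨towA I q, tow q, ⟨fun N _ w hw => mtow_pf q (fun i x => mix_pos I q hq x i) N w hw,
    fun N _ w hw => towA_le I q N w hw, fun N _ w hw => towA_sq I q N w hw, fun N hN => ?_⟩,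
    fun m => ?_⟩
  · obtain ⟨_, M, s, b, hb, h⟩ := hq ⟨N, hN⟩
    refine ⟨fun y => M (ext n N y), fun y => evalMulti b (ext n N y),
      fun y => s (ext n N y), fun z => evalMulti (q ⟨N, hN⟩) (ext n (N + 1) z),
      aeval_ext_mem n N b, fun w hw => mtow_split q hd N ⟨N, hN⟩ rfl w hw, ?_⟩
    rcases h with ⟨hI, hM, hs, hid⟩ | ⟨hI, hM, hs, f, hf, hid⟩
    · refine Or.inl ⟨mixProd_towA I q N ⟨N, hN⟩ rfl M hM, mixProd_towA I q N ⟨N, hN⟩ rfl s hs,
        fun y t => ?_, fun w hw => ?_⟩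
      · have h3 := hid (ext n (N + 1) (Fin.snoc y t : Fin (N + 1) → ℝ))
        rw [mixProd_snoc I q hd N ⟨N, hN⟩ rfl M hM, mixProd_snoc I q hd N ⟨N, hN⟩ rfl s hs,
          dep_snoc hb (fun i hi => hi), ext_snoc_eq y t ⟨N, hN⟩ rfl] at h3
        exact h3
      · obtain ⟨w₀, hw₀, m, _, h⟩ := towA_split I q hd N ⟨N, hN⟩ rfl w hw
        exact ⟨w₀, hw₀, m, h⟩
    · refine Or.inr ⟨posProd_tow q N ⟨N, hN⟩ rfl M hM, posProd_tow q N ⟨N, hN⟩ rfl s hs,
        ⟨f, hf, fun y t => ?_⟩, fun w hw => ?_⟩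
      · have h3 := hid (ext n (N + 1) (Fin.snoc y t : Fin (N + 1) → ℝ))
        rw [posProd_snoc' q hd N ⟨N, hN⟩ rfl M hM, posProd_snoc' q hd N ⟨N, hN⟩ rfl s hs,
          dep_snoc hb (fun i hi => hi), ext_snoc_eq y t ⟨N, hN⟩ rfl] at h3
        exact h3
      · obtain ⟨w₀, hw₀, m, hm, h⟩ := towA_split I q hd N ⟨N, hN⟩ rfl w hw
        obtain ⟨l, rfl⟩ := hm hI
        exact ⟨w₀, hw₀, l, h⟩
  · have h1 : (fun x : Fin n → ℝ => ∏ k, evalMulti (q k) x ^ m k) =
        ∏ k, (fun x : Fin n → ℝ => evalMulti (q k) (ext n n x)) ^ m k := by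
      funext x
      rw [Finset.prod_apply]
      refine Finset.prod_congr rfl fun k _ => ?_
      rw [Pi.pow_apply, ext_self]
    rw [h1]
    exact (tow q n).prod_mem fun k _ => (tow q n).pow_mem (q_mem_tow q n k k.isLt) _

end Pool.Agent.PWD
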