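import Pool.Agent.PWD.StX
import Pool.Agent.ITR.Asm2
import Pool.Agent.Helper23.PiTrans

/-!
# PWD [MXI]: the induction for mixed towers
-/

set_option autoImplicit false

open MeasureTheory Filter Topology

namespace Pool.Agent.PWD

open Pool.Agent.ITR Pool.Agent.Helper23 Pool.Agent.Helper23.PeriodDefs
open Pool.Agent.Helper23.Quadric (PF evx mem_PF)
open Pool.Agent.Helper23.PeriodProof (RB toRB aeval_toRB sqrt_mem_RB)

/-- one integration, in general -/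
theorem mix_fub (N : ℕ) (F : (Fin (N + 1) → ℝ) → ℝ) (r h : (Fin N → ℝ) → ℝ)
    (g : (Fin N → ℝ) → ℝ → ℝ) (c : ℝ) (hc : c ≠ 0) (hr : ∀ y, r y ≠ 0) (hF : Integrable F)
    (hdec : ∀ (y : Fin N → ℝ) (t : ℝ), F (Fin.snoc y t) = r y * g y t)
    (hval : ∀ y : Fin N → ℝ, Integrable (g y) → ∫ t : ℝ, g y t = c * h y) :
    Integrable (fun y => r y * h y) ∧ ∫ x, F x = c * ∫ y, r y * h y := by
  obtain ⟨hF1, hF2, hF3⟩ := (thm_FUB N).1 _ hF
  simp only [hdec] at hF1 hF2 hF3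
  have hv : ∀ᵐ y : Fin N → ℝ, ∫ t : ℝ, r y * g y t = c * (r y * h y) := by
    filter_upwards [hF1] with y hy
    rw [integrable_const_mul_iff (isUnit_iff_ne_zero.mpr (hr y))] at hy
    rw [integral_const_mul, hval y hy]
    ring
  refine ⟨?_, ?_⟩
  · have h1 := hF2.congr hv
    rwa [integrable_const_mul_iff (isUnit_iff_ne_zero.mpr hc)] at h1
  · rw [hF3, integral_congr_ae hv, integral_const_mul]

/-- one integration of `P/√w` -/
theorem mix_step (hO : St_ONB) (n : ℕ) (A B : ∀ N : ℕ, Submonoid ((Fin N → ℝ) → ℝ))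
    (hT : AbsMix n A B) (N : ℕ) (hN : N < n) (P : (Fin (N + 1) → ℝ) → ℝ) (hP : P ∈ PF RB (N + 1))
    (w : (Fin (N + 1) → ℝ) → ℝ) (hw : w ∈ A (N + 1))
    (hint : Integrable (fun x : Fin (N + 1) → ℝ => P x / √(w x))) :
    ∃ P₁ ∈ PF RB N, ∃ w₁ ∈ A N, ∃ e : ℕ, Integrable (fun y : Fin N → ℝ => P₁ y / √(w₁ y)) ∧
      ∫ x : Fin (N + 1) → ℝ, P x / √(w x) = Real.pi ^ e * ∫ y : Fin N → ℝ, P₁ y / √(w₁ y) := by
  obtain ⟨M, b, s, q, hb, -, ⟨hM, hs, hq, hst⟩ | ⟨hM, hs, ⟨f, hf, hq⟩, hst⟩⟩ := hT.st N hN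
  · obtain ⟨w₀, hw₀, m, hwm⟩ := hst w hw
    obtain ⟨hMP, hM0⟩ := hT.pf N (by omega) M (hT.ab N (by omega) _ hM)
    obtain ⟨hsP, hs0⟩ := hT.pf N (by omega) s (hT.ab N (by omega) _ hs)
    obtain ⟨hw₀P, hw₀0⟩ := hT.pf N (by omega) w₀ (hT.ab N (by omega) _ hw₀)
    obtain ⟨P₁, hP₁, a, hint1⟩ := thm_ONE thm_SLS RB N m P q M b s hP hMP hb hsP hM0 hs0 hq
    have hr0 : ∀ y : Fin N → ℝ, (√(w₀ y))⁻¹ ≠ 0 := fun y =>
      inv_ne_zero (Real.sqrt_pos.mpr (hw₀0 y)).ne'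
    obtain ⟨i1, i2⟩ := mix_fub N _ (fun y => (√(w₀ y))⁻¹)
      (fun y => P₁ y / √(M y ^ a * s y ^ (m - 1)))
      (fun y t => P (Fin.snoc y t) / √(q (Fin.snoc y t) ^ m)) (Real.pi ^ ((m + 1) % 2))
      (pow_ne_zero _ Real.pi_ne_zero) hr0 hint
      (fun y t => by rw [hwm, Real.sqrt_mul (hw₀0 y).le, inv_mul_eq_div, div_div, mul_comm])
      hint1
    have e1 : ∀ y : Fin N → ℝ, (√(w₀ y))⁻¹ * (P₁ y / √(M y ^ a * s y ^ (m - 1))) =
        P₁ y / √((w₀ * (M ^ a * s ^ (m - 1))) y) := by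
      intro y
      simp only [Pi.mul_apply, Pi.pow_apply]
      rw [Real.sqrt_mul (hw₀0 y).le, inv_mul_eq_div, div_div, mul_comm]
    simp only [e1] at i1 i2
    exact ⟨P₁, hP₁, _, (A N).mul_mem hw₀ ((A N).mul_mem ((A N).pow_mem hM a)
      ((A N).pow_mem hs (m - 1))), _, i1, i2⟩
  · obtain ⟨w₀, hw₀, m, hwm⟩ := hst w hw
    obtain ⟨hMP, hM0⟩ := hT.pf N (by omega) M hM
    obtain ⟨hsP, hs0⟩ := hT.pf N (by omega) s hs
    obtain ⟨hw₀P, hw₀0⟩ := hT.pf N (by omega) w₀ (hT.ab N (by omega) _ hw₀)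
    obtain ⟨P₁, hP₁, a, c, hint1⟩ := hO N m P q M b s f hP hMP hb hsP hM0 hs0 hf hq
    have hr0 : ∀ y : Fin N → ℝ, (√(w₀ y))⁻¹ ≠ 0 := fun y =>
      inv_ne_zero (Real.sqrt_pos.mpr (hw₀0 y)).ne'
    have hqp : ∀ (y : Fin N → ℝ) (t : ℝ), 0 < q (Fin.snoc y t) := by
      intro y t
      rw [hq]
      have hsy := hs0 y
      have e : hform f (M y * t + b y) (s y) =
          s y ^ f.natDegree * Polynomial.aeval ((M y * t + b y) / s y) f := by
        unfold hform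
        rw [Polynomial.aeval_eq_sum_range, Finset.mul_sum]
        refine Finset.sum_congr rfl fun j hj => ?_
        have hj' : j ≤ f.natDegree := by
          have := Finset.mem_range.1 hj
          omega
        rw [Algebra.smul_def]
        have h1 : s y ^ f.natDegree = s y ^ (f.natDegree - j) * s y ^ j := by
          rw [← pow_add]
          congr 1
          omega
        rw [h1, div_pow]
        have h2 : (algebraMap RealAlg ℝ) (f.coeff j) = (f.coeff j : ℝ) := rfl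
        rw [h2]
        field_simp
      rw [e]
      exact mul_pos (pow_pos hsy _) (hf _)
    obtain ⟨i1, i2⟩ := mix_fub N _ (fun y => (√(w₀ y))⁻¹)
      (fun y => P₁ y / (M y ^ a * s y ^ c))
      (fun y t => P (Fin.snoc y t) / q (Fin.snoc y t) ^ m) Real.pi
      Real.pi_ne_zero hr0 hint
      (fun y t => by
        have h1 : √(q (Fin.snoc y t) ^ (2 * m)) = q (Fin.snoc y t) ^ m := by
          rw [mul_comm 2 m, pow_mul]
          exact Real.sqrt_sq (pow_nonneg (hqp y t).le _)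
        rw [hwm, Real.sqrt_mul (hw₀0 y).le, h1, inv_mul_eq_div, div_div, mul_comm])
      hint1
    have e1 : ∀ y : Fin N → ℝ, (√(w₀ y))⁻¹ * (P₁ y / (M y ^ a * s y ^ c)) =
        P₁ y / √((w₀ * (M ^ a * s ^ c) ^ 2) y) := by
      intro y
      simp only [Pi.mul_apply, Pi.pow_apply]
      have h1 : 0 ≤ M y ^ a * s y ^ c := by
        have := hM0 y
        have := hs0 y
        positivity
      rw [Real.sqrt_mul (hw₀0 y).le, Real.sqrt_sq h1, inv_mul_eq_div, div_div]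
      congr 1
      ring
    simp only [e1] at i1 i2
    refine ⟨P₁, hP₁, _, (A N).mul_mem hw₀ (hT.sq N (by omega) _ ((B N).mul_mem
      ((B N).pow_mem hM a) ((B N).pow_mem hs c))), 1, i1, ?_⟩
    rw [pow_one]
    exact i2

/-- the first integration of a rational function -/
theorem mix_top (hO : St_ONB) (n : ℕ) (A B : ∀ N : ℕ, Submonoid ((Fin N → ℝ) → ℝ))
    (hT : AbsMix n A B) (N : ℕ) (hN : N < n) (P : (Fin (N + 1) → ℝ) → ℝ) (hP : P ∈ PF RB (N + 1))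
    (v : (Fin (N + 1) → ℝ) → ℝ) (hv : v ∈ B (N + 1))
    (hint : Integrable (fun x : Fin (N + 1) → ℝ => P x / v x)) :
    ∃ P₁ ∈ PF RB N, ∃ w₁ ∈ A N, Integrable (fun y : Fin N → ℝ => P₁ y / √(w₁ y)) ∧
      ∫ x : Fin (N + 1) → ℝ, P x / v x = Real.pi * ∫ y : Fin N → ℝ, P₁ y / √(w₁ y) := by
  obtain ⟨M, b, s, q, hb, hB, ⟨hM, hs, hq, -⟩ | ⟨hM, hs, ⟨f, hf, hq⟩, -⟩⟩ := hT.st N hN
  · obtain ⟨v₀, hv₀, m, hwm⟩ := hB v hv
    obtain ⟨hMP, hM0⟩ := hT.pf N (by omega) M (hT.ab N (by omega) _ hM)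
    obtain ⟨hsP, hs0⟩ := hT.pf N (by omega) s (hT.ab N (by omega) _ hs)
    obtain ⟨hv₀P, hv₀0⟩ := hT.pf N (by omega) v₀ hv₀
    obtain ⟨P₁, hP₁, a, hint1⟩ := thm_ONE thm_SLS RB N (2 * m) P q M b s hP hMP hb hsP hM0 hs0 hq
    have hqp : ∀ (y : Fin N → ℝ) (t : ℝ), 0 < q (Fin.snoc y t) := by
      intro y t
      have h1 := hq y t
      have h2 : 0 < (M y * t + b y) ^ 2 + s y := add_pos_of_nonneg_of_pos (sq_nonneg _) (hs0 y)
      rw [← h1] at h2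
      exact (pos_iff_pos_of_mul_pos h2).1 (hM0 y)
    have hsq : ∀ (y : Fin N → ℝ) (t : ℝ),
        √(q (Fin.snoc y t) ^ (2 * m)) = q (Fin.snoc y t) ^ m := by
      intro y t
      rw [mul_comm 2 m, pow_mul]
      exact Real.sqrt_sq (pow_nonneg (hqp y t).le _)
    have h21 : (2 * m + 1) % 2 = 1 := by omega
    simp only [hsq, h21, pow_one] at hint1
    obtain ⟨i1, i2⟩ := mix_fub N _ (fun y => (v₀ y)⁻¹)
      (fun y => P₁ y / √(M y ^ a * s y ^ (2 * m - 1)))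
      (fun y t => P (Fin.snoc y t) / q (Fin.snoc y t) ^ m) Real.pi
      Real.pi_ne_zero (fun y => inv_ne_zero (hv₀0 y).ne') hint
      (fun y t => by rw [hwm, inv_mul_eq_div, div_div, mul_comm])
      hint1
    have e1 : ∀ y : Fin N → ℝ, (v₀ y)⁻¹ * (P₁ y / √(M y ^ a * s y ^ (2 * m - 1))) =
        P₁ y / √((v₀ ^ 2 * (M ^ a * s ^ (2 * m - 1))) y) := by
      intro y
      simp only [Pi.mul_apply, Pi.pow_apply]
      rw [Real.sqrt_mul (sq_nonneg _), Real.sqrt_sq (hv₀0 y).le, inv_mul_eq_div, div_div, mul_comm]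
    simp only [e1] at i1 i2
    exact ⟨P₁, hP₁, _, (A N).mul_mem (hT.sq N (by omega) _ hv₀)
      ((A N).mul_mem ((A N).pow_mem hM a) ((A N).pow_mem hs (2 * m - 1))), i1, i2⟩
  · obtain ⟨v₀, hv₀, m, hwm⟩ := hB v hv
    obtain ⟨hMP, hM0⟩ := hT.pf N (by omega) M hM
    obtain ⟨hsP, hs0⟩ := hT.pf N (by omega) s hs
    obtain ⟨hv₀P, hv₀0⟩ := hT.pf N (by omega) v₀ hv₀
    obtain ⟨P₁, hP₁, a, c, hint1⟩ := hO N m P q M b s f hP hMP hb hsP hM0 hs0 hf hq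
    obtain ⟨i1, i2⟩ := mix_fub N _ (fun y => (v₀ y)⁻¹)
      (fun y => P₁ y / (M y ^ a * s y ^ c))
      (fun y t => P (Fin.snoc y t) / q (Fin.snoc y t) ^ m) Real.pi
      Real.pi_ne_zero (fun y => inv_ne_zero (hv₀0 y).ne') hint
      (fun y t => by rw [hwm, inv_mul_eq_div, div_div, mul_comm])
      hint1
    have e1 : ∀ y : Fin N → ℝ, (v₀ y)⁻¹ * (P₁ y / (M y ^ a * s y ^ c)) =
        P₁ y / √(((v₀ * (M ^ a * s ^ c)) ^ 2) y) := by
      intro y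
      simp only [Pi.mul_apply, Pi.pow_apply]
      have h1 : 0 ≤ v₀ y * (M y ^ a * s y ^ c) := by
        have := hM0 y
        have := hs0 y
        have := hv₀0 y
        positivity
      rw [Real.sqrt_sq h1, inv_mul_eq_div, div_div]
      congr 1
      ring
    simp only [e1] at i1 i2
    exact ⟨P₁, hP₁, _, hT.sq N (by omega) _ ((B N).mul_mem hv₀ ((B N).mul_mem
      ((B N).pow_mem hM a) ((B N).pow_mem hs c))), i1, i2⟩

theorem mix_ind (hO : St_ONB) (n : ℕ) (A B : ∀ N : ℕ, Submonoid ((Fin N → ℝ) → ℝ))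
    (hT : AbsMix n A B) (N : ℕ) : N ≤ n → ∀ P ∈ PF RB N, ∀ w ∈ A N,
    Integrable (fun x : Fin N → ℝ => P x / √(w x)) →
    ∃ a ∈ RB, ∃ e : ℕ, ∫ x : Fin N → ℝ, P x / √(w x) = a * Real.pi ^ e := by
  induction N with
  | zero =>
    intro hN P hP w hw hint
    refine ⟨P isEmptyElim / √(w isEmptyElim), ?_, 0, ?_⟩
    · have h1 : ∀ i : Fin 0, (isEmptyElim : Fin 0 → ℝ) i ∈ RB := fun i => i.elim0
      obtain ⟨hwP, hw0⟩ := hT.pf 0 hN w (hT.ab 0 hN _ hw)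
      exact RB.div_mem (Quadric.mem_of_mem_PF hP h1)
        (sqrt_mem_RB _ (Quadric.mem_of_mem_PF hwP h1) (hw0 _).le)
    · rw [Quadric.integral_fin_zero, pow_zero, mul_one]
  | succ N ih =>
    intro hN P hP w hw hint
    obtain ⟨P₁, hP₁, w₁, hw₁, e, hi, hv⟩ := mix_step hO n A B hT N (by omega) P hP w hw hint
    obtain ⟨a, ha, e', hv'⟩ := ih (by omega) P₁ hP₁ w₁ hw₁ hi
    refine ⟨a, ha, e + e', ?_⟩
    rw [hv, hv', pow_add]
    ring

/-- `MXI` -/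
theorem thm_MXI (hO : St_ONB) : St_MXI := by
  intro n A B hT hn P hP v hv hint
  obtain ⟨N, rfl⟩ : ∃ N, n = N + 1 := ⟨n - 1, by omega⟩
  obtain ⟨P₁, hP₁, w₁, hw₁, hi, he⟩ := mix_top hO (N + 1) A B hT N (by omega) P hP v hv hint
  obtain ⟨a, ha, e, hv'⟩ := mix_ind hO (N + 1) A B hT N (by omega) P₁ hP₁ w₁ hw₁ hi
  refine ⟨a, ha, e, ?_⟩
  rw [he, hv', pow_succ]
  ring

/-- `MXU` -/
theorem thm_MXU (hO : St_ONB) (hA : St_MXA) : St_MXU := by
  intro n I q P m hn hq hint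
  obtain ⟨A, B, hT, hB⟩ := hA n I q hq
  have hPF : (fun x : Fin n → ℝ => MvPolynomial.aeval x P) ∈ PF RB n := by
    have h := mem_PF (B := RB) (MvPolynomial.map toRB P)
    have h2 : (fun x : Fin n → ℝ => MvPolynomial.aeval x (MvPolynomial.map toRB P)) =
        fun x : Fin n → ℝ => MvPolynomial.aeval x P := funext fun x => aeval_toRB P x
    rw [h2] at h
    exact h
  obtain ⟨a, ha, e, h⟩ := thm_MXI hO n A B hT hn _ hPF _ (hB m) hint
  have h' : (∫ x : Fin n → ℝ, evalMulti P x / ∏ k, evalMulti (q k) x ^ m k) =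
      a * Real.pi ^ (e + 1) := h
  refine ⟨⟨⟨a, ha⟩, e, h'⟩, fun hne => ?_⟩
  rw [h'] at hne ⊢
  have ha0 : a ≠ 0 := left_ne_zero_of_mul hne
  have haA : IsAlgebraic ℚ a := (mem_algebraicClosure_iff ..).1 ha
  intro halg
  have h1 : IsAlgebraic ℚ (Real.pi ^ (e + 1)) := by
    have := halg.mul haA.inv
    have h2 : a * Real.pi ^ (e + 1) * a⁻¹ = Real.pi ^ (e + 1) := by
      field_simp
    rwa [h2] at this
  exact Pool.Agent.Helper23.PiT.transcendental_pi (IsAlgebraic.of_pow (Nat.succ_pos e) h1)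

end Pool.Agent.PWD
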