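import Pool.Agent.PWD.DCA

/-!
# PWD [DEC]: an integrable rational function of one variable is `2 Re (α / g)`
-/

set_option autoImplicit false

open MeasureTheory Filter Topology Polynomial

namespace Pool.Agent.PWD

/-- `p / q = 2 Re (α / g)` on the real line, `g = ∏ (t - z_j)`, all `z_j` in the upper half plane,
`deg α ≤ d`, the coefficient of `α` of index `d` is purely imaginary. -/
def Rep (d : ℕ) (p q : ℝ[X]) (z : Fin (d + 1) → ℂ) (α : ℂ[X]) : Prop :=
  (∀ j, 0 < (z j).im) ∧ α.natDegree ≤ d ∧ (α.coeff d).re = 0 ∧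
    ∀ t : ℝ, ((p.eval t : ℝ) : ℂ) * ((∏ j, ((t : ℂ) - z j)) *
        ∏ j, ((t : ℂ) - (starRingEnd ℂ) (z j))) =
      ((q.eval t : ℝ) : ℂ) * (α.eval (t : ℂ) * (∏ j, ((t : ℂ) - (starRingEnd ℂ) (z j))) +
        (starRingEnd ℂ) (α.eval (t : ℂ)) * ∏ j, ((t : ℂ) - z j))

theorem rep_pad {d : ℕ} {p q : ℝ[X]} {z : Fin (d + 1) → ℂ} {α : ℂ[X]} (h : Rep d p q z α) :
    Rep (d + 1) p q (Fin.cons Complex.I z : Fin (d + 2) → ℂ) (α * (X - C Complex.I)) := by
  obtain ⟨h1, h2, h3, h4⟩ := h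
  refine ⟨fun j => ?_, ?_, ?_, fun t => ?_⟩
  · refine Fin.cases ?_ (fun j => ?_) j
    · simp
    · simpa using h1 j
  · refine natDegree_mul_le.trans ?_
    rw [natDegree_X_sub_C]
    omega
  · rw [coeff_mul_add_eq_of_natDegree_le h2 (natDegree_X_sub_C Complex.I).le]
    simpa [coeff_X, coeff_C] using h3
  · have e1 : (∏ j : Fin (d + 2), ((t : ℂ) - (Fin.cons Complex.I z : Fin (d + 2) → ℂ) j)) =
        ((t : ℂ) - Complex.I) * ∏ j, ((t : ℂ) - z j) := by
      rw [Fin.prod_univ_succ]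
      simp only [Fin.cons_zero, Fin.cons_succ]
    have e2 : (∏ j : Fin (d + 2), ((t : ℂ) -
        (starRingEnd ℂ) ((Fin.cons Complex.I z : Fin (d + 2) → ℂ) j))) =
        ((t : ℂ) - (starRingEnd ℂ) Complex.I) * ∏ j, ((t : ℂ) - (starRingEnd ℂ) (z j)) := by
      rw [Fin.prod_univ_succ]
      simp only [Fin.cons_zero, Fin.cons_succ]
    rw [e1, e2]
    simp only [eval_mul, eval_sub, eval_X, eval_C, map_mul, map_sub, Complex.conj_ofReal]
    linear_combination ((t : ℂ) - Complex.I) * ((t : ℂ) - (starRingEnd ℂ) Complex.I) * h4 t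

theorem rep_le {d e : ℕ} (hde : d ≤ e) {p q : ℝ[X]}
    (h : ∃ (z : Fin (d + 1) → ℂ) (α : ℂ[X]), Rep d p q z α) :
    ∃ (z : Fin (e + 1) → ℂ) (α : ℂ[X]), Rep e p q z α := by
  induction e, hde using Nat.le_induction with
  | base => exact h
  | succ e _ ih =>
    obtain ⟨z, α, h⟩ := ih
    exact ⟨_, _, rep_pad h⟩

theorem conj_eval_map (α : ℂ[X]) (t : ℝ) :
    (α.map (starRingEnd ℂ)).eval (t : ℂ) = (starRingEnd ℂ) (α.eval (t : ℂ)) := by
  rw [eval_map, ← Complex.conj_ofReal t, eval₂_at_apply, Complex.conj_ofReal]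

theorem dec_bez (d : ℕ) (z : Fin d → ℂ) (hz : ∀ j, 0 < (z j).im) (p : ℝ[X])
    (hp : p.degree < 2 * d) :
    ∃ α : ℂ[X], α.degree < d ∧ p.map (algebraMap ℝ ℂ) =
      α * (∏ j, (X - C ((starRingEnd ℂ) (z j)))) +
        α.map (starRingEnd ℂ) * ∏ j, (X - C (z j)) := by
  obtain ⟨g, hg⟩ : ∃ g : ℂ[X], g = ∏ j, (X - C (z j)) := ⟨_, rfl⟩
  obtain ⟨g', hg'⟩ : ∃ g' : ℂ[X], g' = ∏ j, (X - C ((starRingEnd ℂ) (z j))) := ⟨_, rfl⟩
  rw [← hg, ← hg']
  have hgm : g.Monic := by
    rw [hg]; exact monic_prod_of_monic _ _ fun j _ => monic_X_sub_C _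
  have hgm' : g'.Monic := by
    rw [hg']; exact monic_prod_of_monic _ _ fun j _ => monic_X_sub_C _
  have hgd : g.natDegree = d := by
    rw [hg, natDegree_prod_of_monic _ _ fun j _ => monic_X_sub_C _]; simp
  have hgd' : g'.natDegree = d := by
    rw [hg', natDegree_prod_of_monic _ _ fun j _ => monic_X_sub_C _]; simp
  have hgD : g.degree = d := by rw [degree_eq_natDegree hgm.ne_zero, hgd]
  have hgD' : g'.degree = d := by rw [degree_eq_natDegree hgm'.ne_zero, hgd']
  have c1 : g.map (starRingEnd ℂ) = g' := by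
    rw [hg, hg', Polynomial.map_prod]
    simp
  have c2 : g'.map (starRingEnd ℂ) = g := by
    rw [hg, hg', Polynomial.map_prod]
    simp
  have c3 : (p.map (algebraMap ℝ ℂ)).map (starRingEnd ℂ) = p.map (algebraMap ℝ ℂ) := by
    rw [Polynomial.map_map]
    congr 1
    ext x
    simp
  have hco : IsCoprime g' g := by
    rw [hg, hg']
    refine IsCoprime.prod_left fun i _ => IsCoprime.prod_right fun j _ => ?_
    refine isCoprime_X_sub_C_of_isUnit_sub (IsUnit.mk0 _ ?_)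
    intro h
    have := congrArg Complex.im h
    simp at this
    linarith [hz i, hz j]
  obtain ⟨u, v, huv⟩ := hco
  obtain ⟨P, hP⟩ : ∃ P : ℂ[X], P = p.map (algebraMap ℝ ℂ) := ⟨_, rfl⟩
  rw [← hP] at c3 ⊢
  have hPd : P.degree < 2 * d := by rw [hP, degree_map]; exact hp
  obtain ⟨a, ha⟩ : ∃ a, a = (P * u) %ₘ g := ⟨_, rfl⟩
  have had : a.degree < d := by rw [ha, ← hgD]; exact degree_modByMonic_lt _ hgm
  obtain ⟨w, hw⟩ : ∃ w, w = (P * u) /ₘ g * g' + P * v := ⟨_, rfl⟩
  have e1 : P = a * g' + w * g := by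
    have := modByMonic_add_div (P * u) g
    rw [hw]
    rw [← ha] at this
    linear_combination (-P) * huv - g' * this
  have hwd : w.degree < d := by
    have h1 : (w * g).degree < 2 * d := by
      have : w * g = P - a * g' := by linear_combination -e1
      rw [this]
      refine (degree_sub_le _ _).trans_lt (max_lt hPd ?_)
      refine (degree_mul_le _ _).trans_lt ?_
      rw [hgD', two_mul]
      exact WithBot.add_lt_add_right (by simp) had
    rw [hgm.degree_mul, hgD, two_mul] at h1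
    exact lt_of_add_lt_add_right h1
  have e2 : P = a.map (starRingEnd ℂ) * g + w.map (starRingEnd ℂ) * g' := by
    have := congrArg (Polynomial.map (starRingEnd ℂ)) e1
    rw [c3, Polynomial.map_add, Polynomial.map_mul, Polynomial.map_mul, c1, c2] at this
    exact this
  refine ⟨C (1 / 2) * (a + w.map (starRingEnd ℂ)), ?_, ?_⟩
  · refine (degree_mul_le _ _).trans_lt ?_
    have h1 : (a + w.map (starRingEnd ℂ)).degree < d :=
      (degree_add_le _ _).trans_lt (max_lt had (degree_map_le.trans_lt hwd))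
    have h2 : (C (1 / 2 : ℂ)).degree = 0 := degree_C (by norm_num)
    rw [h2, zero_add]
    exact h1
  · have h3 : (w.map (starRingEnd ℂ)).map (starRingEnd ℂ) = w := by
      rw [Polynomial.map_map]
      have : (starRingEnd ℂ).comp (starRingEnd ℂ) = RingHom.id ℂ := by
        ext x
        simp
      rw [this, Polynomial.map_id]
    rw [Polynomial.map_mul, Polynomial.map_add, h3, map_C]
    have h4 : (starRingEnd ℂ) (1 / 2) = 1 / 2 := by
      rw [map_div₀, map_one]
      congr 1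
      exact Complex.conj_ofReal 2
    rw [h4]
    have h5 : (C (1 / 2 : ℂ)) * 2 = (1 : ℂ[X]) := by
      have : (2 : ℂ[X]) = C 2 := (map_ofNat C 2).symm
      rw [this, ← C_mul]
      norm_num
    linear_combination (C (1 / 2 : ℂ)) * e1 + (C (1 / 2 : ℂ)) * e2 - P * h5

/-- `DEC`. -/
theorem thm_DEC (D : ℕ) (p q : ℝ[X]) (hq : q ≠ 0) (hD : q.natDegree ≤ D)
    (hi : Integrable (fun t : ℝ => p.eval t / q.eval t)) :
    ∃ (z : Fin (D + 1) → ℂ) (α : ℂ[X]), Rep D p q z α := by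
  classical
  by_cases hp : p = 0
  · refine ⟨fun _ => Complex.I, 0, fun _ => by simp, by simp, by simp, fun t => ?_⟩
    simp [hp]
  obtain ⟨h, hh⟩ : ∃ h, h = EuclideanDomain.gcd p q := ⟨_, rfl⟩
  have hh0 : h ≠ 0 := by
    intro h0
    rw [h0] at hh
    exact hp (EuclideanDomain.gcd_eq_zero_iff.1 hh.symm).1
  obtain ⟨p₁, hp₁⟩ : h ∣ p := hh ▸ EuclideanDomain.gcd_dvd_left p q
  obtain ⟨q₁, hq₁⟩ : h ∣ q := hh ▸ EuclideanDomain.gcd_dvd_right p q
  have hco : IsCoprime p₁ q₁ := by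
    refine ⟨EuclideanDomain.gcdA p q, EuclideanDomain.gcdB p q, ?_⟩
    have h1 := EuclideanDomain.gcd_eq_gcd_ab p q
    rw [← hh] at h1
    have h2 : h * (EuclideanDomain.gcdA p q * p₁ + EuclideanDomain.gcdB p q * q₁) = h * 1 := by
      linear_combination -h1 - (EuclideanDomain.gcdA p q) * hp₁ -
        (EuclideanDomain.gcdB p q) * hq₁
    exact mul_left_cancel₀ hh0 h2
  have hp10 : p₁ ≠ 0 := by rintro rfl; exact hp (by rw [hp₁]; simp)
  have hq10 : q₁ ≠ 0 := by rintro rfl; exact hq (by rw [hq₁]; simp)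
  have hi1 : Integrable (fun t : ℝ => p₁.eval t / q₁.eval t) := by
    refine hi.congr ?_
    have h1 : (h.rootSet ℝ).Finite := h.rootSet_finite ℝ
    filter_upwards [h1.countable.ae_notMem volume] with t ht
    have h2 : h.eval t ≠ 0 := by
      intro h3
      exact ht ((mem_rootSet_of_ne hh0).2 (by simpa [aeval_def] using h3))
    rw [hp₁, hq₁, eval_mul, eval_mul, mul_div_mul_left _ _ h2]
  have hnr := dca_root p₁ q₁ hq10 hco hi1
  have hdg := dca_deg p₁ q₁ hp10 hq10 hi1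
  obtain ⟨c, d, z, hc, hz, hd, hfac⟩ := dca_fac q₁.natDegree q₁ le_rfl hq10 hnr
  obtain ⟨e, rfl⟩ : ∃ e, d = e + 1 := ⟨d - 1, by omega⟩
  have hpd : (C c⁻¹ * p₁ : ℝ[X]).natDegree ≤ 2 * e := by
    refine (natDegree_C_mul_le _ _).trans ?_
    omega
  have hpdd : (C c⁻¹ * p₁ : ℝ[X]).degree < 2 * ((e + 1 : ℕ) : WithBot ℕ) := by
    refine lt_of_le_of_lt degree_le_natDegree ?_
    have : (2 : WithBot ℕ) * ((e + 1 : ℕ) : WithBot ℕ) = ((2 * (e + 1) : ℕ) : WithBot ℕ) := by
      push_cast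
      rfl
    rw [this]
    exact_mod_cast (by omega : (C c⁻¹ * p₁ : ℝ[X]).natDegree < 2 * (e + 1))
  obtain ⟨α, hα, hbez⟩ := dec_bez (e + 1) z hz (C c⁻¹ * p₁) hpdd
  have hαd : α.natDegree ≤ e := by
    by_cases h0 : α = 0
    · simp [h0]
    · rw [degree_eq_natDegree h0] at hα
      have := Nat.cast_lt.1 hα
      omega
  have hre : (α.coeff e).re = 0 := by
    have h1 := congrArg (fun f : ℂ[X] => f.coeff (e + (e + 1))) hbez
    simp only [coeff_add] at h1
    have m1 : (∏ j, (X - C ((starRingEnd ℂ) (z j)))).Monic :=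
      monic_prod_of_monic _ _ fun j _ => monic_X_sub_C _
    have m2 : (∏ j, (X - C (z j))).Monic := monic_prod_of_monic _ _ fun j _ => monic_X_sub_C _
    have d1 : (∏ j, (X - C ((starRingEnd ℂ) (z j)))).natDegree = e + 1 := by
      rw [natDegree_prod_of_monic _ _ fun j _ => monic_X_sub_C _]; simp
    have d2 : (∏ j, (X - C (z j))).natDegree = e + 1 := by
      rw [natDegree_prod_of_monic _ _ fun j _ => monic_X_sub_C _]; simp
    rw [coeff_mul_add_eq_of_natDegree_le hαd d1.le,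
      coeff_mul_add_eq_of_natDegree_le (natDegree_map_le.trans hαd) d2.le] at h1
    have l1 : (∏ j, (X - C ((starRingEnd ℂ) (z j)))).coeff (e + 1) = 1 := by
      have := m1.coeff_natDegree
      rwa [d1] at this
    have l2 : (∏ j, (X - C (z j))).coeff (e + 1) = 1 := by
      have := m2.coeff_natDegree
      rwa [d2] at this
    rw [l1, l2, coeff_map, coeff_map,
      coeff_eq_zero_of_natDegree_lt (by omega : (C c⁻¹ * p₁ : ℝ[X]).natDegree < e + (e + 1))] at h1
    have h2 := congrArg Complex.re h1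
    simp at h2
    linarith
  have hrep : Rep e p q z α := by
    refine ⟨hz, hαd, hre, fun t => ?_⟩
    have h1 := congrArg (fun f : ℂ[X] => f.eval (t : ℂ)) hbez
    have h2 := congrArg (fun f : ℂ[X] => f.eval (t : ℂ)) hfac
    simp only [eval_add, eval_mul, eval_prod, eval_sub, eval_X, eval_C, conj_eval_map,
      Polynomial.map_mul, map_C, Finset.prod_mul_distrib] at h1 h2
    have h3 : (p₁.map (algebraMap ℝ ℂ)).eval (t : ℂ) = ((p₁.eval t : ℝ) : ℂ) := by
      rw [eval_map, ← Complex.coe_algebraMap, eval₂_at_apply]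
    have h4 : (q₁.map (algebraMap ℝ ℂ)).eval (t : ℂ) = ((q₁.eval t : ℝ) : ℂ) := by
      rw [eval_map, ← Complex.coe_algebraMap, eval₂_at_apply]
    rw [h3] at h1
    rw [h4] at h2
    rw [hp₁, hq₁, eval_mul, eval_mul]
    push_cast
    have hc' : (c : ℂ) ≠ 0 := by exact_mod_cast hc
    have h5 : (c : ℂ) * (algebraMap ℝ ℂ) c⁻¹ = 1 := by
      rw [Complex.coe_algebraMap, Complex.ofReal_inv, mul_inv_cancel₀ hc']
    rw [h2]
    linear_combination ((h.eval t : ℝ) : ℂ) * (c : ℂ) *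
      ((∏ j, ((t : ℂ) - z j)) * ∏ j, ((t : ℂ) - (starRingEnd ℂ) (z j))) * h1 -
      ((h.eval t : ℝ) : ℂ) * ((p₁.eval t : ℝ) : ℂ) *
      ((∏ j, ((t : ℂ) - z j)) * ∏ j, ((t : ℂ) - (starRingEnd ℂ) (z j))) * h5
  refine rep_le ?_ ⟨z, α, hrep⟩
  have : q.natDegree = h.natDegree + q₁.natDegree := by
    rw [hq₁, natDegree_mul hh0 hq10]
  omega

end Pool.Agent.PWD
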