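import Pool.Agent.PWD.CNV
import Pool.Agent.PWD.DEC
import Pool.Agent.PWD.VON
import Pool.Agent.PWD.CMP
import Pool.Agent.Helper23.PeriodDefs

/-!
# The line integral of a rational function with algebraic coefficients (helper15)
-/

set_option autoImplicit false

open MeasureTheory Polynomial
open Pool.Agent.PWQ

namespace Pool.Agent.PWD

/-- the fibre of a semialgebraic set over an algebraic point is algebraic if it is one point -/
theorem alg_fibre {ι : Type} [Finite ι] {Φ : Set (Option ι → ℝ)} (hΦ : SA Φ) {x : ι → ℝ}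
    (hx : ∀ i, IsAlgebraic ℚ (x i)) {y : ℝ} (hy : ∀ t : ℝ, pt t x ∈ Φ ↔ t = y) :
    IsAlgebraic ℚ y := by
  have h1 : SA {w : Unit ⊕ ι → ℝ | (fun o : Option ι => w (o.elim (Sum.inl ()) Sum.inr)) ∈ Φ} :=
    SA_reindex hΦ _
  have h2 := thm_CMP (ι := Unit) (κ := ι) (fun k _ => x k) (fun k => SA_alg (hx k)) _ h1
  refine alg_of_SA (ι := Unit) ((congrArg SA ?_).mp h2)
  ext z
  have e : (fun o : Option ι => (Sum.elim z fun k => x k : Unit ⊕ ι → ℝ)
      (o.elim (Sum.inl ()) Sum.inr)) = pt (z ()) x := by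
    funext o
    cases o <;> rfl
  change (fun o : Option ι => (Sum.elim z fun k => x k : Unit ⊕ ι → ℝ)
      (o.elim (Sum.inl ()) Sum.inr)) ∈ Φ ↔ z () = y
  rw [e]
  exact hy _

/-- The line integral of a rational function with algebraic coefficients is `π` times an
algebraic number. -/
theorem thm_OVF (p q : ℝ[X]) (hp : ∀ i, IsAlgebraic ℚ (p.coeff i))
    (hq : ∀ i, IsAlgebraic ℚ (q.coeff i)) (hi : Integrable fun t : ℝ => p.eval t / q.eval t) :
    ∃ κ : ℝ, IsAlgebraic ℚ κ ∧ (∫ t : ℝ, p.eval t / q.eval t) = Real.pi * κ := by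
  by_cases hq0 : q = 0
  · refine ⟨0, isAlgebraic_zero, ?_⟩
    rw [hq0]
    simp
  obtain ⟨N, hN⟩ : ∃ N, N = max p.natDegree q.natDegree := ⟨_, rfl⟩
  have hpN : p.natDegree < N + 1 := by omega
  have hqN : q.natDegree < N + 1 := by omega
  let ι : Type := Bool × Fin (N + 1)
  let x : ι → ℝ := fun i => if i.1 then p.coeff i.2 else q.coeff i.2
  have hx : ∀ i, IsAlgebraic ℚ (x i) := by
    rintro ⟨b, i⟩
    cases b
    · exact hq i
    · exact hp i
  let U : Bool → MvPolynomial (Option ι) ℚ := fun b =>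
    ∑ i : Fin (N + 1), MvPolynomial.X (some (b, i)) * MvPolynomial.X none ^ (i : ℕ)
  have hU : ∀ (b : Bool) (t : ℝ), MvPolynomial.aeval (pt t x) (U b) =
      ∑ i : Fin (N + 1), x (b, i) * t ^ (i : ℕ) := by
    intro b t
    change MvPolynomial.aeval (pt t x) (∑ i : Fin (N + 1), MvPolynomial.X (some (b, i)) *
      MvPolynomial.X none ^ (i : ℕ)) = _
    rw [map_sum]
    refine Finset.sum_congr rfl fun i _ => ?_
    rw [map_mul, map_pow, MvPolynomial.aeval_X, MvPolynomial.aeval_X]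
    rfl
  have hUp : ∀ t : ℝ, MvPolynomial.aeval (pt t x) (U true) = p.eval t := by
    intro t
    rw [hU, eval_eq_sum_range' hpN, ← Fin.sum_univ_eq_sum_range fun i => p.coeff i * t ^ i]
    rfl
  have hUq : ∀ t : ℝ, MvPolynomial.aeval (pt t x) (U false) = q.eval t := by
    intro t
    rw [hU, eval_eq_sum_range' hqN, ← Fin.sum_univ_eq_sum_range fun i => q.coeff i * t ^ i]
    rfl
  obtain ⟨D, hD⟩ : ∃ D, D = q.natDegree := ⟨_, rfl⟩
  obtain ⟨z, α, hz, hα1, hα2, hα3⟩ := thm_DEC D p q hq0 hD.ge hi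
  obtain ⟨κ, hκ⟩ : ∃ κ, κ = -2 * (α.coeff D).im := ⟨_, rfl⟩
  have hαs : ∀ t : ℂ, α.eval t = ∑ k : Fin (D + 1), α.coeff k * t ^ (k : ℕ) := by
    intro t
    rw [eval_eq_sum_range' (Nat.lt_succ_of_le hα1),
      ← Fin.sum_univ_eq_sum_range fun i => α.coeff i * t ^ i]
  have hint := (cnv_line D p q hq0 z (fun k => α.coeff k) hz (by simpa using hα2) (by
    intro t
    have := hα3 t
    rw [hαs] at this
    exact this)).2
  have hint' : (∫ t : ℝ, p.eval t / q.eval t) = Real.pi * κ := by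
    rw [hint, hκ]
    simp
  refine ⟨κ, ?_, hint'⟩
  refine alg_fibre (lsa_rel D (U true) (U false)) hx fun y => ?_
  have e : ∀ y, (fun i => pt y x (some i)) = x := fun y => rfl
  constructor
  · rintro ⟨z', a', h1, h2, h3, h4⟩
    simp only [e, hUp, hUq] at h4
    have h5 := (cnv_line D p q hq0 z' a' h1 h2 h4).2
    rw [← h3, hint'] at h5
    exact (mul_left_cancel₀ Real.pi_ne_zero h5).symm
  · intro hy
    rw [hy]
    refine ⟨z, fun k => α.coeff k, hz, by simpa using hα2, ?_, ?_⟩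
    · change κ = _
      rw [hκ]
      simp
    · intro t
      simp only [e, hUp, hUq]
      have := hα3 t
      rw [hαs] at this
      exact this

open Pool.Agent.Helper23.PeriodDefs in
/-- the same for polynomials over the field of the real algebraic numbers -/
theorem ovf_alg (P f : Polynomial RealAlg)
    (hi : Integrable fun t : ℝ => aeval t P / aeval t f) :
    ∃ κ : RealAlg, (∫ t : ℝ, aeval t P / aeval t f) = Real.pi * (κ : ℝ) := by
  have h1 : ∀ (g : Polynomial RealAlg) (t : ℝ),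
      aeval t g = (g.map (algebraMap RealAlg ℝ)).eval t := fun g t => by
    rw [eval_map, aeval_def]
  have h2 : ∀ (g : Polynomial RealAlg) (i : ℕ),
      IsAlgebraic ℚ ((g.map (algebraMap RealAlg ℝ)).coeff i) := by
    intro g i
    rw [coeff_map]
    exact mem_algebraicClosure_iff.1 (g.coeff i).2
  simp only [h1] at hi ⊢
  obtain ⟨κ, hκ, h3⟩ := thm_OVF _ _ (h2 P) (h2 f) hi
  exact ⟨⟨κ, mem_algebraicClosure_iff.2 hκ⟩, h3⟩

end Pool.Agent.PWD
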