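import Pool.Agent.PWD.StX
import Pool.Agent.PWD.OVF
import Pool.Agent.ITR.SLS

/-!
# PWD [ONB]: mixed towers, one integration, second kind
-/

set_option autoImplicit false

open MeasureTheory Filter Topology Asymptotics

namespace Pool.Agent.PWD

open Pool.Agent.Helper23
open Pool.Agent.Helper23.PeriodDefs
open Pool.Agent.Helper23.Quadric (PF evx)
open Pool.Agent.Helper23.PeriodProof (RB coe_mem_RB)

/-- one end -/
theorem onb_end (p q : Polynomial ℝ) (hq : ∀ t : ℝ, q.eval t ≠ 0)
    (h : p.natDegree + 2 ≤ q.natDegree) :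
    (fun t : ℝ => p.eval t / q.eval t) =O[atTop] fun t : ℝ => (1 + t ^ 2)⁻¹ := by
  have hq0 : q ≠ 0 := by
    intro h0
    exact hq 0 (by rw [h0]; simp)
  have h1 : ((1 + Polynomial.X ^ 2) * p : Polynomial ℝ).degree ≤ q.degree := by
    rw [Polynomial.degree_eq_natDegree hq0]
    refine Polynomial.degree_le_of_natDegree_le ?_
    refine (Polynomial.natDegree_mul_le).trans ?_
    have h2 : (1 + Polynomial.X ^ 2 : Polynomial ℝ).natDegree ≤ 2 := by
      compute_degree
    omega
  have h2 := Polynomial.isBigO_atTop_of_degree_le _ _ h1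
  have h3 : (fun t : ℝ => (1 + t ^ 2) * p.eval t * ((1 + t ^ 2)⁻¹ * (q.eval t)⁻¹)) =O[atTop]
      fun t : ℝ => q.eval t * ((1 + t ^ 2)⁻¹ * (q.eval t)⁻¹) := by
    refine IsBigO.mul ?_ (isBigO_refl _ _)
    refine h2.congr_left fun t => ?_
    simp
  refine h3.congr (fun t => ?_) fun t => ?_
  · have : (1 + t ^ 2 : ℝ) ≠ 0 := by positivity
    have := hq t
    field_simp
  · have := hq t
    field_simp

/-- rational functions without real poles, of degree at most `-2`, are integrable -/
theorem onb_int (p q : Polynomial ℝ) (hq : ∀ t : ℝ, q.eval t ≠ 0)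
    (h : p.natDegree + 2 ≤ q.natDegree) : Integrable (fun t : ℝ => p.eval t / q.eval t) := by
  have h0 : Continuous (fun t : ℝ => p.eval t / q.eval t) :=
    p.continuous.div q.continuous hq
  have h1 := onb_end p q hq h
  have h2 := onb_end (p.comp (-Polynomial.X)) (q.comp (-Polynomial.X))
    (fun t => by simpa using hq (-t)) (by
      rw [Polynomial.natDegree_comp, Polynomial.natDegree_comp]
      simpa using h)
  have h3 : (fun t : ℝ => p.eval t / q.eval t) =O[atBot] fun t : ℝ => (1 + t ^ 2)⁻¹ := by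
    have h4 := h2.comp_tendsto (tendsto_neg_atBot_atTop (G := ℝ))
    refine h4.congr (fun t => ?_) fun t => ?_
    · simp
    · simp
  refine h0.locallyIntegrable.integrable_of_isBigO_atBot_atTop h3
    (integrable_inv_one_add_sq.integrableAtFilter _) h1
    (integrable_inv_one_add_sq.integrableAtFilter _)

theorem onb_aeval (f : Polynomial RealAlg) (t : ℝ) :
    Polynomial.aeval t f = (f.map (algebraMap RealAlg ℝ)).eval t := by
  rw [Polynomial.eval_map, Polynomial.aeval_def]

theorem onb_hform (f : Polynomial RealAlg) (u v : ℝ) :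
    hform f (v * u) v = v ^ f.natDegree * Polynomial.aeval u f := by
  rw [hform, Polynomial.aeval_eq_sum_range, Finset.mul_sum]
  refine Finset.sum_congr rfl fun j hj => ?_
  have hj' : j ≤ f.natDegree := by
    rw [Finset.mem_range] at hj; omega
  have e : v ^ f.natDegree = v ^ j * v ^ (f.natDegree - j) := by
    rw [← pow_add]; congr 1; omega
  rw [e, Algebra.smul_def, mul_pow]
  change (f.coeff j : ℝ) * _ * _ = _ * ((f.coeff j : ℝ) * _)
  ring

/-- [ONB] one integration, second kind -/
theorem thm_ONB : St_ONB := by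
  intro n m P q M b s f hP hM hb hs hM0 hs0 hf hq
  obtain ⟨p, hp⟩ := ITR.thm_SLS RB n P hP
  set Mm : PF RB n := ⟨M, hM⟩ with hMm
  set bm : PF RB n := ⟨b, hb⟩ with hbm
  set sm : PF RB n := ⟨s, hs⟩ with hsm
  set D := p.natDegree with hD
  set d := f.natDegree with hd
  set p₁ : Polynomial (PF RB n) := ∑ k ∈ Finset.range (D + 1),
    Polynomial.C (p.coeff k * Mm ^ (D - k)) * (Polynomial.C sm * Polynomial.X - Polynomial.C bm) ^ k
    with hp₁
  obtain ⟨F, hF⟩ : ∃ F : Polynomial RealAlg, F = f ^ m := ⟨_, rfl⟩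
  obtain ⟨Fr, hFr⟩ : ∃ Fr : Polynomial ℝ, Fr = F.map (algebraMap RealAlg ℝ) := ⟨_, rfl⟩
  have hFe : ∀ t : ℝ, Fr.eval t = Polynomial.aeval t f ^ m := by
    intro t
    rw [hFr, ← onb_aeval, hF, map_pow]
  have hF0 : ∀ t : ℝ, Fr.eval t ≠ 0 := fun t => by
    rw [hFe]
    exact (pow_pos (hf t) m).ne'
  have hFd : Fr.natDegree = d * m := by
    rw [hFr, Polynomial.natDegree_map, hF, Polynomial.natDegree_pow, hd, mul_comm]
  have hI : ∀ k, k + 2 ≤ d * m → Integrable (fun u : ℝ => u ^ k / Fr.eval u) := by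
    intro k hk
    have := onb_int (Polynomial.X ^ k) Fr hF0 (by rw [hFd, Polynomial.natDegree_X_pow]; exact hk)
    simpa using this
  have hJ : ∀ k, ∃ κ : RealAlg, k + 2 ≤ d * m →
      ∫ u : ℝ, u ^ k / Fr.eval u = Real.pi * (κ : ℝ) := by
    intro k
    by_cases h : k + 2 ≤ d * m
    · have h1 := hI k h
      have e : ∀ u : ℝ, u ^ k / Fr.eval u =
          Polynomial.aeval u (Polynomial.X ^ k : Polynomial RealAlg) / Polynomial.aeval u F := by
        intro u
        rw [map_pow, Polynomial.aeval_X, onb_aeval, hFr]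
      simp only [e] at h1 ⊢
      obtain ⟨κ, hκ⟩ := ovf_alg _ _ h1
      exact ⟨κ, fun _ => hκ⟩
    · exact ⟨0, fun h' => absurd h' h⟩
  choose κ hκ using hJ
  set G : (Fin n → ℝ) → ℝ := ∑ k ∈ (Finset.range (d * m)).filter (fun k => k + 2 ≤ d * m),
    (p₁.coeff k : (Fin n → ℝ) → ℝ) * (fun _ => (κ k : ℝ)) with hG
  have hGm : G ∈ PF RB n := by
    refine (PF RB n).sum_mem fun k _ => ?_
    exact (PF RB n).mul_mem (p₁.coeff k).2 (Quadric.const_mem_PF (coe_mem_RB (κ k)))
  refine ⟨s * G, (PF RB n).mul_mem hs hGm, D + 1, d * m, fun y hint => ?_⟩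
  have hMy := hM0 y
  have hsy := hs0 y
  have hq0 : ∀ u : ℝ, q (Fin.snoc y (s y / M y * (u - b y / s y))) ^ m =
      s y ^ (d * m) * Fr.eval u := by
    intro u
    have e : M y * (s y / M y * (u - b y / s y)) + b y = s y * u := by
      field_simp
      ring
    rw [hq, e, onb_hform, mul_pow, ← pow_mul, hFe]
  have hP0 : ∀ u : ℝ, M y ^ D * P (Fin.snoc y (s y / M y * (u - b y / s y))) =
      (p₁.map (evx RB y)).eval u := by
    intro u
    rw [hp, Polynomial.eval_map, Polynomial.eval₂_eq_sum_range, Finset.mul_sum, hp₁,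
      Polynomial.map_sum, Polynomial.eval_finsetSum]
    refine Finset.sum_congr rfl fun k hk => ?_
    have hk' : k ≤ D := by
      rw [Finset.mem_range] at hk; omega
    rw [Polynomial.map_mul, Polynomial.map_pow, Polynomial.map_sub, Polynomial.map_mul,
      Polynomial.map_C, Polynomial.map_C, Polynomial.map_C, Polynomial.map_X,
      Polynomial.eval_mul, Polynomial.eval_pow, Polynomial.eval_sub, Polynomial.eval_mul,
      Polynomial.eval_C, Polynomial.eval_C, Polynomial.eval_C, Polynomial.eval_X, map_mul, map_pow]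
    have e1 : evx RB y Mm = M y := rfl
    have e2 : evx RB y bm = b y := rfl
    have e5 : evx RB y sm = s y := rfl
    rw [e1, e2, e5]
    have e3 : s y / M y * (u - b y / s y) = (s y * u - b y) / M y := by field_simp
    have e4 : M y ^ D = M y ^ (D - k) * M y ^ k := by rw [← pow_add]; congr 1; omega
    rw [e3, e4, div_pow]
    field_simp
  have hsub : ∀ g : ℝ → ℝ, Integrable g →
      Integrable (fun u : ℝ => g (s y / M y * (u - b y / s y))) ∧
      ∫ t : ℝ, g t = s y / M y * ∫ u : ℝ, g (s y / M y * (u - b y / s y)) := by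
    intro g hg
    have hr : s y / M y ≠ 0 := by positivity
    have h1 : Integrable (fun u : ℝ => g (s y / M y * u)) := hg.comp_mul_left' hr
    refine ⟨h1.comp_sub_right (b y / s y), ?_⟩
    rw [integral_sub_right_eq_self (fun u : ℝ => g (s y / M y * u)) (b y / s y),
      Measure.integral_comp_mul_left g (s y / M y), abs_of_pos (by positivity), smul_eq_mul,
      ← mul_assoc, mul_inv_cancel₀ hr, one_mul]
  obtain ⟨h1, h2⟩ := hsub _ hint
  have h3 : ∀ u : ℝ, P (Fin.snoc y (s y / M y * (u - b y / s y))) /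
      q (Fin.snoc y (s y / M y * (u - b y / s y))) ^ m =
      (M y ^ D * s y ^ (d * m))⁻¹ * ((p₁.map (evx RB y)).eval u / Fr.eval u) := by
    intro u
    rw [← hP0, hq0]
    have := hF0 u
    field_simp
  simp only [h3] at h1 h2
  have h4 : Integrable (fun u : ℝ => (p₁.map (evx RB y)).eval u / Fr.eval u) := by
    rwa [integrable_const_mul_iff (isUnit_iff_ne_zero.mpr (by positivity))] at h1
  have h5 : ∀ u : ℝ, (p₁.map (evx RB y)).eval u / Fr.eval u =
      ∑ k ∈ (Finset.range (d * m)).filter (fun k => k + 2 ≤ d * m),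
        (p₁.map (evx RB y)).coeff k * (u ^ k / Fr.eval u) := by
    intro u
    by_cases h0 : p₁.map (evx RB y) = 0
    · rw [h0]
      simp
    have h6 := dca_deg _ Fr h0 (fun h => hF0 0 (by rw [h]; simp)) h4
    rw [hFd] at h6
    rw [Polynomial.eval_eq_sum_range, Finset.sum_div]
    refine (Finset.sum_subset ?_ ?_).trans (Finset.sum_congr rfl fun k _ => by ring)
    · intro k hk
      rw [Finset.mem_range] at hk
      rw [Finset.mem_filter, Finset.mem_range]
      omega
    · intro k _ hk
      rw [Finset.mem_range, not_lt] at hk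
      rw [Polynomial.coeff_eq_zero_of_natDegree_lt (by omega)]
      simp
  have h7 : (∫ u : ℝ, (p₁.map (evx RB y)).eval u / Fr.eval u) = Real.pi * G y := by
    simp only [h5]
    rw [integral_finsetSum _ fun k hk => ((hI k (Finset.mem_filter.1 hk).2).const_mul _), hG,
      Finset.sum_apply, Finset.mul_sum]
    refine Finset.sum_congr rfl fun k hk => ?_
    rw [integral_const_mul, hκ k (Finset.mem_filter.1 hk).2, Polynomial.coeff_map,
      Quadric.evx_apply]
    simp only [Pi.mul_apply]
    ring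
  rw [h2, integral_const_mul, h7]
  simp only [Pi.mul_apply]
  field_simp
  ring

end Pool.Agent.PWD
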