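import Pool.Agent.PWD.DefF
import Pool.Agent.PWQ.MSB

/-!
# Products of volumes (helper15)
-/

set_option autoImplicit false

open MeasureTheory Set
open Pool.Agent.PWQ

namespace Pool.Agent.PWD

theorem thm_VMU : St_VMU := by
  rintro n k a b ⟨S, hS, hS1, hS2⟩ ⟨T, hT, hT1, hT2⟩
  obtain ⟨E, hE⟩ : ∃ E : ((Fin n → ℝ) × (Fin k → ℝ)) ≃ᵐ (Fin (n + k) → ℝ),
      E = (MeasurableEquiv.sumPiEquivProdPi (fun _ : Fin n ⊕ Fin k => ℝ)).symm.trans
        (MeasurableEquiv.piCongrLeft (fun _ : Fin (n + k) => ℝ) finSumFinEquiv) := ⟨_, rfl⟩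
  have hmp : MeasurePreserving E ((volume : Measure (Fin n → ℝ)).prod volume) volume := by
    rw [hE]
    exact (volume_measurePreserving_piCongrLeft (fun _ : Fin (n + k) => ℝ) finSumFinEquiv).comp
      (volume_measurePreserving_sumPiEquivProdPi_symm (fun _ : Fin n ⊕ Fin k => ℝ))
  have hE1 : ∀ (x : Fin n → ℝ) (y : Fin k → ℝ) (i : Fin n), E (x, y) (Fin.castAdd k i) = x i := by
    intro x y i
    rw [hE]
    have : Fin.castAdd k i = finSumFinEquiv (Sum.inl i : Fin n ⊕ Fin k) := by simp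
    rw [this]
    exact Equiv.piCongrLeft_apply_apply (fun _ : Fin (n + k) => ℝ) finSumFinEquiv _ _
  have hE2 : ∀ (x : Fin n → ℝ) (y : Fin k → ℝ) (j : Fin k), E (x, y) (Fin.natAdd n j) = y j := by
    intro x y j
    rw [hE]
    have : Fin.natAdd n j = finSumFinEquiv (Sum.inr j : Fin n ⊕ Fin k) := by simp
    rw [this]
    exact Equiv.piCongrLeft_apply_apply (fun _ : Fin (n + k) => ℝ) finSumFinEquiv _ _
  have hvol : volume {z : Fin (n + k) → ℝ | (fun i => z (Fin.castAdd k i)) ∈ S ∧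
      (fun j => z (Fin.natAdd n j)) ∈ T} = volume S * volume T := by
    rw [← hmp.measure_preimage_equiv, ← Measure.prod_prod]
    congr 1
    ext ⟨x, y⟩
    change ((fun i => E (x, y) (Fin.castAdd k i)) ∈ S ∧ (fun j => E (x, y) (Fin.natAdd n j)) ∈ T) ↔
      (x, y) ∈ S ×ˢ T
    simp only [hE1, hE2]
    rfl
  refine ⟨{z : Fin (n + k) → ℝ | (fun i => z (Fin.castAdd k i)) ∈ S ∧
      (fun j => z (Fin.natAdd n j)) ∈ T}, SA_and (SA_reindex hS _) (SA_reindex hT _), ?_, ?_⟩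
  · rw [hvol]
    exact ENNReal.mul_ne_top hS1 hT1
  · rw [hvol, ENNReal.toReal_mul, hS2, hT2]

end Pool.Agent.PWD
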