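import Pool.Agent.PWD.FRZ
import Pool.Agent.PWD.VMU
import Pool.Agent.PWD.VON

/-!
# Periods and integrals over the whole space
-/

set_option autoImplicit false

open MeasureTheory

namespace Pool.Agent.PWD

theorem Vd_mul {n k : ℕ} (h : 1 ≤ n + k) {x y : ℝ} (hx : Vd n x) (hy : Vd k y) :
    Vd (n + k) (x * y) := by
  obtain ⟨a, b, ha, hb, rfl⟩ := hx
  obtain ⟨c, d, hc, hd, rfl⟩ := hy
  exact ⟨a * c + b * d, a * d + b * c,
    thm_VAD _ _ _ h (thm_VMU _ _ _ _ ha hc) (thm_VMU _ _ _ _ hb hd),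
    thm_VAD _ _ _ h (thm_VMU _ _ _ _ ha hd) (thm_VMU _ _ _ _ hb hc), by ring⟩

theorem Vd_alg {v : ℝ} (h : IsAlgebraic ℚ v) : Vd 1 v := by
  rcases le_total 0 v with h1 | h1
  · exact ⟨v, 0, (thm_VON v).2 ⟨h1, h⟩, V_zero 1, by ring⟩
  · exact ⟨0, -v, V_zero 1, (thm_VON (-v)).2 ⟨by linarith, h.neg⟩, by ring⟩

theorem thm_ZOL (hW : St_WVD) : St_ZOL := by
  have hpi : Real.pi ≠ 0 := Real.pi_ne_zero
  have hA : ∀ x : ℝ, IsPeriod x ↔ ∃ n, 1 ≤ n ∧ W n (Real.pi * x) := by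
    intro x
    rw [thm_FRZ x]
    constructor
    · rintro ⟨n, hn, h⟩
      exact ⟨n, hn, (hW n _ hn).2 ⟨x, h, rfl⟩⟩
    · rintro ⟨n, hn, h⟩
      obtain ⟨y, hy, hxy⟩ := (hW n _ hn).1 h
      have : x = y := mul_left_cancel₀ hpi hxy
      exact ⟨n, hn, by rw [this]; exact hy⟩
  have hC : IsPeriod (1 / Real.pi) → ∀ v : ℝ, IsAlgebraic ℚ v → ∃ n, 1 ≤ n ∧ W n v := by
    intro h v hv
    obtain ⟨n, hn, hV⟩ := (thm_FRZ _).1 h
    refine ⟨n + 1, by omega, (hW _ _ (by omega)).2 ⟨1 / Real.pi * v,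
      Vd_mul (by omega) hV (Vd_alg hv), ?_⟩⟩
    field_simp
  refine ⟨hA, ⟨?_, ?_⟩, hC⟩
  · intro h n v hn hWv hv0 hal
    apply h
    obtain ⟨y, hy, hvy⟩ := (hW n _ hn).1 hWv
    rw [thm_FRZ]
    refine ⟨n + 1, by omega, ?_⟩
    have h1 : 1 / Real.pi = y * v⁻¹ := by
      rw [hvy]
      have hy0 : y ≠ 0 := by
        intro h0
        rw [h0, mul_zero] at hvy
        exact hv0 hvy
      field_simp
    rw [h1]
    exact Vd_mul (by omega) hy (Vd_alg hal.inv)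
  · intro h hper
    obtain ⟨n, hn, h1⟩ := (hA _).1 hper
    rw [mul_one_div_cancel hpi] at h1
    exact h n 1 hn h1 one_ne_zero isAlgebraic_one

end Pool.Agent.PWD
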