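import Pool.Agent.PWD.RPI
import Pool.Agent.PWD.ZOL

/-!
# PWD [RPD]: the period `1/π` and differences of integrals of reciprocals of positive polynomials
-/

set_option autoImplicit false

open MeasureTheory

namespace Pool.Agent.PWD

/-- `v` is a difference of two integrals over `ℝⁿ` of reciprocals of positive polynomials. -/
def Rd (n : ℕ) (v : ℝ) : Prop := ∃ a b : ℝ, Rc n a ∧ Rc n b ∧ v = a - b

theorem V_one_of (n : ℕ) (hn : 1 ≤ n) : V n 1 := by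
  obtain ⟨m, rfl⟩ : ∃ m, n = m + 1 := ⟨n - 1, by omega⟩
  induction m with
  | zero => exact (thm_VON 1).2 ⟨zero_le_one, isAlgebraic_one⟩
  | succ m ih => exact thm_VSU _ _ (ih (by omega))

theorem V_nn {n : ℕ} {a : ℝ} (h : V n a) : 0 ≤ a := by
  obtain ⟨S, -, -, rfl⟩ := h
  exact ENNReal.toReal_nonneg

/-- `π²` times a difference of volumes is a difference of integrals of reciprocals. -/
theorem rd_of_vd (hH : St_HRW) (n : ℕ) (x : ℝ) (hn : 1 ≤ n) (h : Vd n x) :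
    Rd (n + 1) (Real.pi ^ 2 * x) := by
  obtain ⟨a, b, ha, hb, rfl⟩ := h
  have h1 := V_one_of n hn
  have a0 := V_nn ha
  have b0 := V_nn hb
  refine ⟨_, _, rc_of_rs _ _ (rc_of_vol hH n (a + 1) hn (thm_VAD n _ _ hn ha h1) (by linarith)),
    rc_of_rs _ _ (rc_of_vol hH n (b + 1) hn (thm_VAD n _ _ hn hb h1) (by linarith)), ?_⟩
  ring

/-- A difference of integrals of reciprocals is `π` times a difference of volumes. -/
theorem vd_of_rd (n : ℕ) (v : ℝ) (hn : 1 ≤ n) (h : Rd n v) : ∃ x, Vd n x ∧ v = Real.pi * x := by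
  obtain ⟨a, b, ha, hb, rfl⟩ := h
  obtain ⟨a', h1, -, rfl⟩ := vol_of_rc n a hn ha
  obtain ⟨b', h2, -, rfl⟩ := vol_of_rc n b hn hb
  exact ⟨a' - b', ⟨a', b', h1, h2, rfl⟩, by ring⟩

theorem per_of_rc (n : ℕ) (v : ℝ) (h : Rc n v) : IsPeriod v := by
  obtain ⟨D, hD, hI, rfl⟩ := h
  refine ⟨1, fun _ => n, fun _ => 0, fun _ i => i.elim0, fun _ => 1, fun _ => D, ?_, ?_⟩
  · intro j
    simpa [IntegrableOn] using hI
  · simp

theorem per_sub {x y : ℝ} (hx : IsPeriod x) (hy : IsPeriod y) : IsPeriod (x - y) := by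
  obtain ⟨n, hn, h1⟩ := (thm_FRZ _).1 hx
  obtain ⟨k, hk, a, b, ha, hb, rfl⟩ := (thm_FRZ _).1 hy
  refine (thm_FRZ _).2 ⟨max n k, by omega, ?_⟩
  have h2 : Vd k (b - a) := ⟨b, a, hb, ha, rfl⟩
  have h3 := Vd_add (by omega) (Vd_le (le_max_left n k) h1) (Vd_le (le_max_right n k) h2)
  have e : x - (a - b) = x + (b - a) := by ring
  rw [e]
  exact h3

theorem thm_RPD (hH : St_HRW) :
    (∀ x : ℝ, IsPeriod x → ∃ n, 1 ≤ n ∧ Rd n (Real.pi ^ 2 * x)) ∧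
    (∀ (n : ℕ) (v : ℝ), 1 ≤ n → Rd n v → IsPeriod v ∧ ∃ x, IsPeriod x ∧ v = Real.pi * x) ∧
    (IsPeriod (1 / Real.pi) ↔ ∃ n, 1 ≤ n ∧ Rd n 1) ∧
    (¬ IsPeriod (1 / Real.pi) ↔
      ∀ (n : ℕ) (v : ℝ), 1 ≤ n → Rd n v → v ≠ 0 → Transcendental ℚ v) ∧
    (IsPeriod (1 / Real.pi) ↔ ∀ x : ℝ, IsPeriod x ↔ ∃ n, 1 ≤ n ∧ Rd n x) := by
  have hpi := Real.pi_pos
  have key : ∀ x : ℝ, IsPeriod (1 / Real.pi) → IsPeriod x → ∃ n, 1 ≤ n ∧ Rd n x := by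
    intro x hp hx
    obtain ⟨n, hn, h1⟩ := (thm_FRZ _).1 hp
    obtain ⟨k, hk, h2⟩ := (thm_FRZ _).1 hx
    have h3 := Vd_mul (by omega) h2 h1
    have h4 := Vd_mul (by omega) h3 h1
    have h5 := rd_of_vd hH _ _ (by omega) h4
    refine ⟨k + n + n + 1, by omega, ?_⟩
    have e : Real.pi ^ 2 * (x * (1 / Real.pi) * (1 / Real.pi)) = x := by
      field_simp
    rwa [e] at h5
  have back : ∀ (n : ℕ) (v : ℝ), 1 ≤ n → Rd n v → ∃ x, IsPeriod x ∧ v = Real.pi * x := by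
    intro n v hn h
    obtain ⟨x, hx, rfl⟩ := vd_of_rd n v hn h
    exact ⟨x, (thm_FRZ _).2 ⟨n, hn, hx⟩, rfl⟩
  have per : ∀ (n : ℕ) (v : ℝ), 1 ≤ n → Rd n v → IsPeriod v := by
    rintro n v hn ⟨a, b, ha, hb, rfl⟩
    exact per_sub (per_of_rc n a ha) (per_of_rc n b hb)
  have alg : ∀ (n : ℕ) (v : ℝ), 1 ≤ n → Rd n v → v ≠ 0 → IsAlgebraic ℚ v →
      IsPeriod (1 / Real.pi) := by
    intro n v hn h h0 ha
    obtain ⟨x, hx, rfl⟩ := vd_of_rd n v hn h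
    have h1 := Vd_mul (by omega) hx (Vd_alg ha.inv)
    refine (thm_FRZ _).2 ⟨n + 1, by omega, ?_⟩
    have hx0 : x ≠ 0 := by
      rintro rfl
      exact h0 (mul_zero _)
    have e : x * (Real.pi * x)⁻¹ = 1 / Real.pi := by
      field_simp
    rwa [e] at h1
  have one : IsPeriod 1 := (thm_FRZ _).2 ⟨1, le_rfl, Vd_alg isAlgebraic_one⟩
  refine ⟨?_, fun n v hn h => ⟨per n v hn h, back n v hn h⟩, ⟨fun h => key 1 h one, ?_⟩,
    ⟨?_, ?_⟩, ⟨fun h x => ⟨key x h, ?_⟩, ?_⟩⟩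
  · intro x hx
    obtain ⟨n, hn, h⟩ := (thm_FRZ _).1 hx
    exact ⟨n + 1, by omega, rd_of_vd hH n x hn h⟩
  · rintro ⟨n, hn, h⟩
    exact alg n 1 hn h one_ne_zero isAlgebraic_one
  · intro h n v hn hv h0 ha
    exact h (alg n v hn hv h0 ha)
  · intro h hp
    obtain ⟨n, hn, h1⟩ := key 1 hp one
    exact h n 1 hn h1 one_ne_zero isAlgebraic_one
  · rintro ⟨n, hn, h1⟩
    exact per n x hn h1
  · intro h
    obtain ⟨n, hn, h1⟩ := (h 1).1 one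
    exact alg n 1 hn h1 one_ne_zero isAlgebraic_one

end Pool.Agent.PWD
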