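import Pool.Agent.PWD.REC
import Pool.Agent.PWD.WSB
import Pool.Agent.PWD.VMU
import Pool.Agent.PWD.VON

/-!
# PWD [RPI]: `1/π` and reciprocals of positive polynomials
-/

set_option autoImplicit false

open MeasureTheory

namespace Pool.Agent.PWD

theorem wp_of_rc (n : ℕ) (v : ℝ) (h : Rc n v) : Wp n v := by
  obtain ⟨D, hD, hI, hv⟩ := h
  have e : (fun x : Fin n → ℝ => 1 / MvPolynomial.aeval x D) = fun x => rat 1 D x := by
    funext x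
    unfold rat
    rw [map_one]
  rw [e] at hI
  have hv' : v = ∫ x : Fin n → ℝ, rat 1 D x := by
    rw [hv, e]
  refine ⟨1, D, ?_, hI, ?_, hv'⟩
  · rintro rfl
    have := hD 0
    rw [map_zero] at this
    exact lt_irrefl _ this
  · intro x _
    unfold rat
    rw [map_one]
    exact one_div_pos.2 (hD x)

theorem rc_of_rs (n : ℕ) (v : ℝ) (h : Rs n v) : Rc n v := by
  obtain ⟨A, B, hD, hI, hv⟩ := h
  have e : ∀ x : Fin n → ℝ, MvPolynomial.aeval x (A ^ 2 + B ^ 2) =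
      MvPolynomial.aeval x A ^ 2 + MvPolynomial.aeval x B ^ 2 := by
    intro x
    rw [map_add, map_pow, map_pow]
  refine ⟨A ^ 2 + B ^ 2, ?_, ?_, ?_⟩
  · simpa only [e] using hD
  · simpa only [e] using hI
  · simpa only [e] using hv

theorem vol_of_rc (n : ℕ) (v : ℝ) (hn : 1 ≤ n) (h : Rc n v) :
    ∃ a : ℝ, V n a ∧ 0 < a ∧ v = Real.pi * a := by
  obtain ⟨m, rfl⟩ : ∃ m, n = m + 1 := ⟨n - 1, by omega⟩
  exact thm_WSP thm_VIN m v (wp_of_rc _ v h)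

theorem rc_of_vol (hH : St_HRW) (n : ℕ) (a : ℝ) (hn : 1 ≤ n) (h : V n a) (ha : 0 < a) :
    Rs (n + 1) (Real.pi ^ 2 * a) := by
  obtain ⟨m, rfl⟩ : ∃ m, n = m + 1 := ⟨n - 1, by omega⟩
  exact thm_REC hH m a h ha

theorem rc_of_inv_pi (hH : St_HRW) (n : ℕ) (hn : 1 ≤ n) (h : V n (1 / Real.pi)) (k : ℕ)
    (hk : 1 ≤ k) (a : ℝ) (ha : V k a) (h0 : 0 < a) : Rs (k + (n + n) + 1) a := by
  have hpi := Real.pi_pos
  have h1 := thm_VMU n n _ _ h h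
  have h2 := thm_VMU k (n + n) _ _ ha h1
  have h3 := rc_of_vol hH (k + (n + n)) _ (by omega) h2 (by positivity)
  have e : Real.pi ^ 2 * (a * (1 / Real.pi * (1 / Real.pi))) = a := by
    field_simp
  rwa [e] at h3

theorem inv_pi_of_rc (n : ℕ) (hn : 1 ≤ n) (v : ℝ) (h : Rc n v) (hv : IsAlgebraic ℚ v) :
    V (n + 1) (1 / Real.pi) := by
  have hpi := Real.pi_pos
  obtain ⟨a, ha, h0, rfl⟩ := vol_of_rc n v hn h
  have h1 : V 1 (Real.pi * a)⁻¹ := (thm_VON _).2 ⟨by positivity, hv.inv⟩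
  have h2 := thm_VMU n 1 _ _ ha h1
  have e : a * (Real.pi * a)⁻¹ = 1 / Real.pi := by
    field_simp
  rwa [e] at h2

theorem thm_RPI (hH : St_HRW) :
    ((∃ n, 1 ≤ n ∧ V n (1 / Real.pi)) ↔ ∃ n, 1 ≤ n ∧ Rs n 1) ∧
    ((¬ ∃ n, 1 ≤ n ∧ V n (1 / Real.pi)) ↔
      ∀ (n : ℕ) (v : ℝ), 1 ≤ n → Rc n v → Transcendental ℚ v) ∧
    ((∃ n, 1 ≤ n ∧ V n (1 / Real.pi)) → ∀ (n : ℕ) (a : ℝ), 1 ≤ n → V n a → 0 < a →
      ∃ k, 1 ≤ k ∧ Rs k a) := by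
  have hone : V 1 1 := (thm_VON 1).2 ⟨zero_le_one, isAlgebraic_one⟩
  refine ⟨⟨?_, ?_⟩, ⟨?_, ?_⟩, ?_⟩
  · rintro ⟨n, hn, h⟩
    exact ⟨_, by omega, rc_of_inv_pi hH n hn h 1 le_rfl 1 hone one_pos⟩
  · rintro ⟨n, hn, h⟩
    exact ⟨n + 1, by omega, inv_pi_of_rc n hn 1 (rc_of_rs _ _ h) isAlgebraic_one⟩
  · intro h n v hn hv halg
    exact h ⟨n + 1, by omega, inv_pi_of_rc n hn v hv halg⟩
  · rintro h ⟨n, hn, h1⟩
    exact h _ 1 (by omega) (rc_of_rs _ _ (rc_of_inv_pi hH n hn h1 1 le_rfl 1 hone one_pos))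
      isAlgebraic_one
  · rintro ⟨n, hn, h⟩ k a hk ha h0
    exact ⟨_, by omega, rc_of_inv_pi hH n hn h k hk a ha h0⟩

end Pool.Agent.PWD
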