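import Mathlib

/-!
# Semialgebraic sets over the rational numbers
-/

set_option autoImplicit false

namespace Pool.Agent.PWD

/-- Membership in `S` depends only on the signs of finitely many polynomials with rational
coefficients. -/
def SA {ι : Type} (S : Set (ι → ℝ)) : Prop :=
  ∃ P : Finset (MvPolynomial ι ℚ), ∀ x y : ι → ℝ,
    (∀ p ∈ P, SignType.sign (MvPolynomial.aeval x p) = SignType.sign (MvPolynomial.aeval y p)) →
      x ∈ S → y ∈ S

/-- the point `(t, x)` -/
def pt {ι : Type} (t : ℝ) (x : ι → ℝ) : Option ι → ℝ := fun o => o.elim t x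

/-- the graph of a function -/
def graph {ι : Type} (A : (ι → ℝ) → ℝ) : Set (Option ι → ℝ) :=
  {z | z none = A (fun i => z (some i))}

end Pool.Agent.PWD
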