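import Pool.Agent.PWD.St
import Pool.Agent.PWD.Defs

/-!
# Volumes, integrals over the whole space, periods
-/

set_option autoImplicit false

open MeasureTheory

namespace Pool.Agent.PWD

/-- `v` is the volume of a semialgebraic set over `ℚ` in `ℝⁿ` of finite volume. -/
def V (n : ℕ) (v : ℝ) : Prop :=
  ∃ S : Set (Fin n → ℝ), SA S ∧ volume S ≠ ⊤ ∧ v = (volume S).toReal

/-- `v` is an absolutely convergent integral over `ℝⁿ` of a rational function over `ℚ`. -/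
def W (n : ℕ) (v : ℝ) : Prop :=
  ∃ P Q : MvPolynomial (Fin n) ℚ, Q ≠ 0 ∧ Integrable (fun x : Fin n → ℝ => rat P Q x) ∧
    v = ∫ x : Fin n → ℝ, rat P Q x

/-- `v` is an absolutely convergent integral over `ℝⁿ` of a positive rational function over `ℚ`. -/
def Wp (n : ℕ) (v : ℝ) : Prop :=
  ∃ P Q : MvPolynomial (Fin n) ℚ, Q ≠ 0 ∧ Integrable (fun x : Fin n → ℝ => rat P Q x) ∧
    (∀ x : Fin n → ℝ, MvPolynomial.aeval x Q ≠ 0 → 0 < rat P Q x) ∧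
    v = ∫ x : Fin n → ℝ, rat P Q x

/-- `x` is a real period, in the form of the frozen statement S17403. -/
def IsPeriod (x : ℝ) : Prop :=
  ∃ (k : ℕ) (n m : Fin k → ℕ)
    (p : ∀ j : Fin k, Fin (m j) → MvPolynomial (Fin (n j)) ℚ)
    (P Q : ∀ j : Fin k, MvPolynomial (Fin (n j)) ℚ),
    (∀ j : Fin k,
      MeasureTheory.IntegrableOn
        (fun y : Fin (n j) → ℝ => MvPolynomial.aeval y (P j) / MvPolynomial.aeval y (Q j))
        {y : Fin (n j) → ℝ | ∀ i, 0 ≤ MvPolynomial.aeval y (p j i)}) ∧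
    x = ∑ j : Fin k,
      ∫ y in {y : Fin (n j) → ℝ | ∀ i, 0 ≤ MvPolynomial.aeval y (p j i)},
        MvPolynomial.aeval y (P j) / MvPolynomial.aeval y (Q j)

/-- `x` is a difference of two volumes in `ℝⁿ`. -/
def Vd (n : ℕ) (x : ℝ) : Prop := ∃ a b : ℝ, V n a ∧ V n b ∧ x = a - b

/-- volumes as integrals of semialgebraic functions -/
def St_VIN : Prop := ∀ (m : ℕ) (v : ℝ), V (m + 1) v ↔ ∃ A : (Fin m → ℝ) → ℝ,
  SA (graph A) ∧ (∀ x, 0 ≤ A x) ∧ Integrable A ∧ v = ∫ x, A x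

/-- differences of volumes as integrals of semialgebraic functions -/
def St_VDI : Prop := ∀ (m : ℕ) (v : ℝ), Vd (m + 1) v ↔ ∃ A : (Fin m → ℝ) → ℝ,
  SA (graph A) ∧ Integrable A ∧ v = ∫ x, A x

def St_VAD : Prop := ∀ (n : ℕ) (a b : ℝ), 1 ≤ n → V n a → V n b → V n (a + b)

def St_VSU : Prop := ∀ (n : ℕ) (a : ℝ), V n a → V (n + 1) a

def St_VMU : Prop := ∀ (n k : ℕ) (a b : ℝ), V n a → V k b → V (n + k) (a * b)

def St_VON : Prop := ∀ a : ℝ, V 1 a ↔ 0 ≤ a ∧ IsAlgebraic ℚ a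

def St_FRZ : Prop := ∀ x : ℝ, IsPeriod x ↔ ∃ n, 1 ≤ n ∧ Vd n x

/-- part (1) -/
def St_WVD : Prop := ∀ (n : ℕ) (v : ℝ), 1 ≤ n → (W n v ↔ ∃ x, Vd n x ∧ v = Real.pi * x)

/-- parts (3) and (4) -/
def St_ZOL : Prop :=
  (∀ x : ℝ, IsPeriod x ↔ ∃ n, 1 ≤ n ∧ W n (Real.pi * x)) ∧
  (¬ IsPeriod (1 / Real.pi) ↔ ∀ (n : ℕ) (v : ℝ), 1 ≤ n → W n v → v ≠ 0 → Transcendental ℚ v) ∧
  (IsPeriod (1 / Real.pi) → ∀ v : ℝ, IsAlgebraic ℚ v → ∃ n, 1 ≤ n ∧ W n v)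

end Pool.Agent.PWD
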