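import Pool.Agent.PWD.St

set_option autoImplicit false

open MeasureTheory Filter Topology

namespace Pool.Agent.PWD

theorem krn_real (a c : ℝ) (hc : 0 < c) :
    Integrable (fun t : ℝ => 1 / ((t - a) ^ 2 + c ^ 2)) ∧
      (∫ t : ℝ, 1 / ((t - a) ^ 2 + c ^ 2)) = Real.pi / c := by
  have h0 : ∀ t : ℝ, 1 / ((t - a) ^ 2 + c ^ 2) =
      (c ^ 2)⁻¹ * (fun s : ℝ => (1 + s ^ 2)⁻¹) (c⁻¹ * (t - a)) := by
    intro t
    have : (0 : ℝ) < (t - a) ^ 2 + c ^ 2 := by positivity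
    show _ = (c ^ 2)⁻¹ * (1 + (c⁻¹ * (t - a)) ^ 2)⁻¹
    rw [← mul_inv, one_div]
    congr 1
    field_simp
    ring
  have hfun : (fun t : ℝ => 1 / ((t - a) ^ 2 + c ^ 2)) =
      fun t : ℝ => (c ^ 2)⁻¹ * (fun s : ℝ => (1 + s ^ 2)⁻¹) (c⁻¹ * (t - a)) := funext h0
  have hi : Integrable (fun s : ℝ => (1 + s ^ 2)⁻¹) := integrable_inv_one_add_sq
  have hi2 : Integrable (fun s : ℝ => (fun s : ℝ => (1 + s ^ 2)⁻¹) (c⁻¹ * s)) :=
    hi.comp_mul_left' (inv_ne_zero hc.ne')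
  have hi3 := hi2.comp_sub_right a
  refine ⟨by rw [hfun]; exact hi3.const_mul _, ?_⟩
  rw [hfun, integral_const_mul]
  rw [integral_sub_right_eq_self (fun s : ℝ => (fun s : ℝ => (1 + s ^ 2)⁻¹) (c⁻¹ * s)) a]
  rw [Measure.integral_comp_mul_left (fun s : ℝ => (1 + s ^ 2)⁻¹) c⁻¹]
  rw [integral_univ_inv_one_add_sq, inv_inv, abs_of_pos hc, smul_eq_mul]
  field_simp

theorem krn_sq (G : ℝ) (θ : ℂ) (t : ℝ) :
    ‖((t : ℂ) - θ) ^ 2 + (G : ℂ) ^ 2‖ ^ 2 =
      ((t - θ.re) ^ 2 + (θ.im - G) ^ 2) * ((t - θ.re) ^ 2 + (θ.im + G) ^ 2) := by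
  have h1 : (((t : ℂ) - θ) ^ 2 + (G : ℂ) ^ 2).re = (t - θ.re) ^ 2 - θ.im ^ 2 + G ^ 2 := by
    simp [pow_two]
  have h2 : (((t : ℂ) - θ) ^ 2 + (G : ℂ) ^ 2).im = - (2 * (t - θ.re) * θ.im) := by
    simp [pow_two]
    ring
  rw [Complex.sq_norm, Complex.normSq_apply, h1, h2]
  ring

theorem krn_low (G : ℝ) (θ : ℂ) (t : ℝ) (hG : 0 < G) (h : G < |θ.im|) :
    (t - θ.re) ^ 2 + (|θ.im| - G) ^ 2 ≤ ‖((t : ℂ) - θ) ^ 2 + (G : ℂ) ^ 2‖ := by
  have h0 : 0 ≤ (t - θ.re) ^ 2 + (|θ.im| - G) ^ 2 := by positivity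
  refine le_of_sq_le_sq ?_ (norm_nonneg _)
  rw [krn_sq]
  rcases le_or_gt 0 θ.im with hb | hb
  · rw [abs_of_nonneg hb] at h ⊢
    have : (θ.im - G) ^ 2 ≤ (θ.im + G) ^ 2 := by nlinarith
    nlinarith [sq_nonneg (t - θ.re), sq_nonneg (θ.im - G)]
  · rw [abs_of_neg hb] at h ⊢
    have : (-θ.im - G) ^ 2 ≤ (θ.im - G) ^ 2 := by nlinarith
    nlinarith [sq_nonneg (t - θ.re), sq_nonneg (-θ.im - G)]

theorem krn_one_add_sq_sq :
    Integrable (fun s : ℝ => ((1 + s ^ 2) ^ 2)⁻¹) ∧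
      (∫ s : ℝ, ((1 + s ^ 2) ^ 2)⁻¹) = Real.pi / 2 := by
  have hpos : ∀ s : ℝ, 0 < 1 + s ^ 2 := fun s => by positivity
  have hint : Integrable (fun s : ℝ => ((1 + s ^ 2) ^ 2)⁻¹) := by
    refine integrable_inv_one_add_sq.mono' (Continuous.aestronglyMeasurable ?_)
      (Eventually.of_forall fun s => ?_)
    · exact Continuous.inv₀ (by fun_prop) fun s => (pow_pos (hpos s) 2).ne'
    · rw [Real.norm_of_nonneg (by positivity)]
      refine inv_anti₀ (hpos s) ?_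
      nlinarith [sq_nonneg s, hpos s]
  have hder : ∀ s : ℝ, HasDerivAt (fun s : ℝ => 1 / 2 * (s * (1 + s ^ 2)⁻¹ + Real.arctan s))
      (((1 + s ^ 2) ^ 2)⁻¹) s := by
    intro s
    have h1 : HasDerivAt (fun s : ℝ => 1 + s ^ 2) (2 * s) s := by
      have := ((hasDerivAt_id s).pow 2).const_add 1
      refine this.congr_deriv ?_
      simp
    have h2 := (hasDerivAt_id s).mul (h1.inv (hpos s).ne')
    have h3 := (h2.add (Real.hasDerivAt_arctan s)).const_mul (1 / 2 : ℝ)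
    refine h3.congr_deriv ?_
    have := (hpos s).ne'
    show 1 / 2 * (1 * (1 + s ^ 2)⁻¹ + s * (-(2 * s) / (1 + s ^ 2) ^ 2) + 1 / (1 + s ^ 2)) =
      ((1 + s ^ 2) ^ 2)⁻¹
    field_simp
    ring
  have hz : ∀ l : Filter ℝ, Tendsto (fun s : ℝ => |s|) l atTop →
      Tendsto (fun s : ℝ => s * (1 + s ^ 2)⁻¹) l (𝓝 0) := by
    intro l hl
    rw [tendsto_zero_iff_norm_tendsto_zero]
    refine squeeze_zero (fun s => norm_nonneg _) (fun s => ?_) hl.inv_tendsto_atTop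
    show ‖s * (1 + s ^ 2)⁻¹‖ ≤ |s|⁻¹
    rw [norm_mul, norm_inv, Real.norm_eq_abs, Real.norm_of_nonneg (hpos s).le]
    rcases eq_or_ne s 0 with h0 | h0
    · simp [h0]
    · have h1 : 0 < |s| := abs_pos.mpr h0
      rw [← div_eq_mul_inv, div_le_iff₀ (hpos s), inv_mul_eq_div, le_div_iff₀ h1,
        ← sq, sq_abs]
      linarith
  have hT : Tendsto (fun s : ℝ => 1 / 2 * (s * (1 + s ^ 2)⁻¹ + Real.arctan s)) atTop
      (𝓝 (1 / 2 * (0 + Real.pi / 2))) :=
    ((hz _ tendsto_abs_atTop_atTop).add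
      (tendsto_nhds_of_tendsto_nhdsWithin Real.tendsto_arctan_atTop)).const_mul _
  have hB : Tendsto (fun s : ℝ => 1 / 2 * (s * (1 + s ^ 2)⁻¹ + Real.arctan s)) atBot
      (𝓝 (1 / 2 * (0 + -(Real.pi / 2)))) :=
    ((hz _ tendsto_abs_atBot_atTop).add
      (tendsto_nhds_of_tendsto_nhdsWithin Real.tendsto_arctan_atBot)).const_mul _
  refine ⟨hint, ?_⟩
  rw [integral_of_hasDerivAt_of_tendsto hder hint hB hT]
  ring

theorem krn_real_sq (a G : ℝ) (hG : 0 < G) :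
    Integrable (fun t : ℝ => 2 * G ^ 3 / ((t - a) ^ 2 + G ^ 2) ^ 2) ∧
      (∫ t : ℝ, 2 * G ^ 3 / ((t - a) ^ 2 + G ^ 2) ^ 2) = Real.pi := by
  have h0 : ∀ t : ℝ, 2 * G ^ 3 / ((t - a) ^ 2 + G ^ 2) ^ 2 =
      (2 / G) * (fun s : ℝ => ((1 + s ^ 2) ^ 2)⁻¹) (G⁻¹ * (t - a)) := by
    intro t
    have : (0 : ℝ) < (t - a) ^ 2 + G ^ 2 := by positivity
    show _ = (2 / G) * ((1 + (G⁻¹ * (t - a)) ^ 2) ^ 2)⁻¹
    have h1 : 1 + (G⁻¹ * (t - a)) ^ 2 = ((t - a) ^ 2 + G ^ 2) / G ^ 2 := by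
      field_simp
      ring
    rw [h1]
    field_simp
  have hfun : (fun t : ℝ => 2 * G ^ 3 / ((t - a) ^ 2 + G ^ 2) ^ 2) =
      fun t : ℝ => (2 / G) * (fun s : ℝ => ((1 + s ^ 2) ^ 2)⁻¹) (G⁻¹ * (t - a)) := funext h0
  obtain ⟨hi, hv⟩ := krn_one_add_sq_sq
  have hi2 : Integrable (fun s : ℝ => (fun s : ℝ => ((1 + s ^ 2) ^ 2)⁻¹) (G⁻¹ * s)) :=
    hi.comp_mul_left' (inv_ne_zero hG.ne')
  have hi3 := hi2.comp_sub_right a
  refine ⟨by rw [hfun]; exact hi3.const_mul _, ?_⟩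
  rw [hfun, integral_const_mul]
  rw [integral_sub_right_eq_self (fun s : ℝ => (fun s : ℝ => ((1 + s ^ 2) ^ 2)⁻¹) (G⁻¹ * s)) a]
  rw [Measure.integral_comp_mul_left (fun s : ℝ => ((1 + s ^ 2) ^ 2)⁻¹) G⁻¹]
  rw [hv, inv_inv, abs_of_pos hG, smul_eq_mul]
  field_simp

theorem thm_KRN : St_KRN := by
  intro G θ hG
  constructor
  · intro him
    have hre : ∀ t : ℝ, ((t : ℂ) - θ) ^ 2 + (G : ℂ) ^ 2 = (((t - θ.re) ^ 2 + G ^ 2 : ℝ) : ℂ) := by
      intro t
      have : θ = ((θ.re : ℝ) : ℂ) := Complex.ext rfl (by simpa using him)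
      rw [this]
      push_cast
      simp
    have hpos : ∀ t : ℝ, 0 < (t - θ.re) ^ 2 + G ^ 2 := fun t => by positivity
    have hk : ker G θ = fun t => ((2 * G ^ 3 / ((t - θ.re) ^ 2 + G ^ 2) ^ 2 : ℝ) : ℂ) := by
      funext t
      unfold ker
      rw [hre t]
      push_cast
      ring
    obtain ⟨h1, h2⟩ := krn_real_sq θ.re G hG
    refine ⟨?_, ?_, ?_⟩
    · rw [hk]
      exact h1.ofReal
    · rw [hk]
      show (∫ t : ℝ, ((2 * G ^ 3 / ((t - θ.re) ^ 2 + G ^ 2) ^ 2 : ℝ) : ℂ)) = _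
      rw [integral_complex_ofReal, h2]
    · intro t
      refine ⟨?_, ?_, ?_⟩
      · rw [hre t]
        exact_mod_cast (hpos t).ne'
      · rw [hk]
        exact Complex.ofReal_im _
      · rw [hk]
        show 0 ≤ (((2 * G ^ 3 / ((t - θ.re) ^ 2 + G ^ 2) ^ 2 : ℝ)) : ℂ).re
        rw [Complex.ofReal_re]
        positivity
  · intro hb
    have hc : 0 < |θ.im| - G := by linarith
    have hlow := fun t => krn_low G θ t hG hb
    have hpos : ∀ t : ℝ, 0 < (t - θ.re) ^ 2 + (|θ.im| - G) ^ 2 := fun t => by positivity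
    have hne : ∀ t : ℝ, ((t : ℂ) - θ) ^ 2 + (G : ℂ) ^ 2 ≠ 0 := by
      intro t
      rw [← norm_pos_iff]
      exact lt_of_lt_of_le (hpos t) (hlow t)
    have hbd : ∀ t : ℝ, ‖ker G θ t‖ ≤ 2 * G ^ 3 / ((t - θ.re) ^ 2 + (|θ.im| - G) ^ 2) ^ 2 := by
      intro t
      unfold ker
      rw [norm_div, norm_mul, norm_pow, norm_pow, Complex.norm_real, Real.norm_of_nonneg hG.le,
        Complex.norm_ofNat]
      exact div_le_div_of_nonneg_left (by positivity) (pow_pos (hpos t) 2)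
        (pow_le_pow_left₀ (hpos t).le (hlow t) 2)
    have hcont : Continuous (ker G θ) := by
      unfold ker
      exact Continuous.div (by fun_prop) (by fun_prop) fun t => pow_ne_zero 2 (hne t)
    have hint : Integrable (ker G θ) := by
      obtain ⟨h1, _⟩ := krn_real_sq θ.re (|θ.im| - G) hc
      refine (h1.const_mul (G ^ 3 / (|θ.im| - G) ^ 3)).mono' hcont.aestronglyMeasurable
        (Eventually.of_forall fun t => (hbd t).trans (le_of_eq ?_))
      have := (hpos t).ne'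
      field_simp
    refine ⟨hint, ?_, fun t => ⟨hne t, hbd t⟩⟩
    set p : ℂ := θ + G * Complex.I with hp
    set q : ℂ := θ - G * Complex.I with hq
    have hpim : p.im = θ.im + G := by simp [hp]
    have hqim : q.im = θ.im - G := by simp [hq]
    have hpq : 0 < p.im * q.im := by
      rw [hpim, hqim]
      have : G ^ 2 < θ.im ^ 2 := by
        rw [← sq_abs θ.im]
        exact pow_lt_pow_left₀ hb hG.le (by norm_num)
      nlinarith
    have hp0 : ∀ t : ℝ, (t : ℂ) - p ≠ 0 := by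
      intro t h
      have : ((t : ℂ) - p).im = 0 := by rw [h]; rfl
      rw [Complex.sub_im, Complex.ofReal_im, zero_sub, neg_eq_zero] at this
      rw [this, zero_mul] at hpq
      exact lt_irrefl _ hpq
    have hq0 : ∀ t : ℝ, (t : ℂ) - q ≠ 0 := by
      intro t h
      have : ((t : ℂ) - q).im = 0 := by rw [h]; rfl
      rw [Complex.sub_im, Complex.ofReal_im, zero_sub, neg_eq_zero] at this
      rw [this, mul_zero] at hpq
      exact lt_irrefl _ hpq
    set w : ℝ → ℂ := fun t => ((t : ℂ) - p) / ((t : ℂ) - q) with hw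
    have hslit : ∀ t : ℝ, w t ∈ Complex.slitPlane := by
      intro t
      rw [Complex.mem_slitPlane_iff]
      by_contra hcon
      push Not at hcon
      obtain ⟨hr, hi⟩ := hcon
      have hwr : w t = ((w t).re : ℂ) := Complex.ext rfl (by simpa using hi)
      have h3 : (t : ℂ) - p = ((w t).re : ℂ) * ((t : ℂ) - q) := by
        rw [← hwr]
        simp only [hw]
        rw [div_mul_cancel₀ _ (hq0 t)]
      have h4 := congrArg Complex.im h3
      rw [Complex.im_ofReal_mul, Complex.sub_im, Complex.sub_im, Complex.ofReal_im] at h4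
      have h5 : p.im = (w t).re * q.im := by linarith
      rw [h5] at hpq
      nlinarith [sq_nonneg q.im]
    have hpq2 : p - q = 2 * G * Complex.I := by rw [hp, hq]; ring
    have hpq3 : p - q ≠ 0 := by
      rw [hpq2]
      have : (G : ℂ) ≠ 0 := by exact_mod_cast hG.ne'
      simp [this, Complex.I_ne_zero]
    have hprod : ∀ t : ℝ, ((t : ℂ) - p) * ((t : ℂ) - q) = ((t : ℂ) - θ) ^ 2 + (G : ℂ) ^ 2 := by
      intro t
      rw [hp, hq]
      linear_combination (-(G : ℂ) ^ 2) * Complex.I_sq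
    have hder : ∀ t : ℝ, HasDerivAt (fun t : ℝ => 2 * (G : ℂ) ^ 3 / (p - q) ^ 2 *
        (-((t : ℂ) - p)⁻¹ - ((t : ℂ) - q)⁻¹ - 2 / (p - q) * Complex.log (w t)))
        (ker G θ t) t := by
      intro t
      have ha : HasDerivAt (fun t : ℝ => (t : ℂ) - p) 1 t :=
        (Complex.ofRealCLM.hasDerivAt (x := t)).sub_const p
      have hb' : HasDerivAt (fun t : ℝ => (t : ℂ) - q) 1 t :=
        (Complex.ofRealCLM.hasDerivAt (x := t)).sub_const q
      have hwd := ha.div hb' (hq0 t)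
      have hl := (hwd.clog_real (hslit t)).const_mul (2 / (p - q))
      have h1 := (((ha.inv (hp0 t)).neg.sub (hb'.inv (hq0 t))).sub hl).const_mul
        (2 * (G : ℂ) ^ 3 / (p - q) ^ 2)
      refine h1.congr_deriv ?_
      unfold ker
      rw [← hprod t]
      have e1 := hp0 t
      have e2 := hq0 t
      show 2 * (G : ℂ) ^ 3 / (p - q) ^ 2 * (-(-1 / ((t : ℂ) - p) ^ 2) - -1 / ((t : ℂ) - q) ^ 2 -
        2 / (p - q) * ((1 * ((t : ℂ) - q) - ((t : ℂ) - p) * 1) / ((t : ℂ) - q) ^ 2 /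
        (((t : ℂ) - p) / ((t : ℂ) - q)))) = _
      field_simp
      ring
    have hinv0 : ∀ (c : ℂ) (l : Filter ℝ), Tendsto (fun t : ℝ => |t|) l atTop →
        Tendsto (fun t : ℝ => ((t : ℂ) - c)⁻¹) l (𝓝 0) := by
      intro c l hl
      have hn : ∀ t : ℝ, |t| - ‖c‖ ≤ ‖(t : ℂ) - c‖ := by
        intro t
        have := norm_sub_norm_le (t : ℂ) c
        rwa [Complex.norm_real, Real.norm_eq_abs] at this
      rw [tendsto_zero_iff_norm_tendsto_zero]
      simp_rw [norm_inv]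
      exact (tendsto_atTop_mono hn (tendsto_atTop_add_const_right _ _ hl)).inv_tendsto_atTop
    have hlim : ∀ l : Filter ℝ, Tendsto (fun t : ℝ => |t|) l atTop →
        Tendsto (fun t : ℝ => 2 * (G : ℂ) ^ 3 / (p - q) ^ 2 *
        (-((t : ℂ) - p)⁻¹ - ((t : ℂ) - q)⁻¹ - 2 / (p - q) * Complex.log (w t))) l (𝓝 0) := by
      intro l hl
      have h6 : w = fun t : ℝ => 1 + (q - p) * ((t : ℂ) - q)⁻¹ := by
        funext t
        simp only [hw]
        have := hq0 t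
        field_simp
        ring
      have h8 : Tendsto w l (𝓝 1) := by
        rw [h6]
        have := ((hinv0 q l hl).const_mul (q - p)).const_add 1
        simpa using this
      have h9 : Tendsto (fun t : ℝ => Complex.log (w t)) l (𝓝 0) := by
        have := h8.clog (by simp)
        rwa [Complex.log_one] at this
      have h10 := ((((hinv0 p l hl).neg).sub (hinv0 q l hl)).sub
        (h9.const_mul (2 / (p - q)))).const_mul (2 * (G : ℂ) ^ 3 / (p - q) ^ 2)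
      simpa using h10
    have := integral_of_hasDerivAt_of_tendsto hder hint (hlim _ tendsto_abs_atBot_atTop)
      (hlim _ tendsto_abs_atTop_atTop)
    rw [this, sub_zero]

end Pool.Agent.PWD
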