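import Pool.Agent.PWD.HPL
import Pool.Agent.PWD.KRN

/-!
# PWD [RSD]: the line integral of `2 Re (α / g)`, all roots of `g` in the upper half plane
-/

set_option autoImplicit false

open MeasureTheory Filter Topology Polynomial

namespace Pool.Agent.PWD

theorem rsd_low (z₀ : ℂ) (h : 0 < z₀.im) :
    ∃ κ : ℝ, 0 < κ ∧ ∀ z : ℂ, z.im ≤ 0 → κ * (1 + ‖z‖) ≤ ‖z - z₀‖ := by
  refine ⟨z₀.im / (1 + ‖z₀‖ + z₀.im), ?_, fun z hz => ?_⟩
  · have : 0 ≤ ‖z₀‖ := norm_nonneg _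
    positivity
  · have h1 : z₀.im ≤ ‖z - z₀‖ := by
      have := Complex.abs_im_le_norm (z - z₀)
      rw [Complex.sub_im, abs_of_nonpos (by linarith)] at this
      linarith
    have h2 : ‖z‖ - ‖z₀‖ ≤ ‖z - z₀‖ := norm_sub_norm_le _ _
    have h3 : 0 ≤ ‖z₀‖ := norm_nonneg _
    have h4 : 0 < 1 + ‖z₀‖ + z₀.im := by positivity
    rw [div_mul_eq_mul_div, div_le_iff₀ h4]
    have h5 : 0 ≤ ‖z - z₀‖ := norm_nonneg _
    nlinarith [norm_nonneg z]

theorem rsd_up (β : ℂ[X]) (n : ℕ) (hn : β.natDegree ≤ n) :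
    ∃ B : ℝ, 0 ≤ B ∧ ∀ z : ℂ, ‖β.eval z‖ ≤ B * (1 + ‖z‖) ^ n := by
  refine ⟨∑ i ∈ Finset.range (n + 1), ‖β.coeff i‖, Finset.sum_nonneg fun _ _ => norm_nonneg _,
    fun z => ?_⟩
  rw [eval_eq_sum_range' (Nat.lt_succ_of_le hn), Finset.sum_mul]
  refine (norm_sum_le _ _).trans (Finset.sum_le_sum fun i hi => ?_)
  rw [norm_mul, norm_pow]
  refine mul_le_mul_of_nonneg_left ?_ (norm_nonneg _)
  have h0 : 0 ≤ ‖z‖ := norm_nonneg z
  calc ‖z‖ ^ i ≤ (1 + ‖z‖) ^ i := pow_le_pow_left₀ h0 (by linarith) _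
    _ ≤ (1 + ‖z‖) ^ n := pow_le_pow_right₀ (by linarith) (by
      have := Finset.mem_range.1 hi
      omega)

theorem rsd_low_prod (d : ℕ) (z : Fin d → ℂ) (hz : ∀ j, 0 < (z j).im) :
    ∃ κ : ℝ, 0 < κ ∧ ∀ w : ℂ, w.im ≤ 0 → κ * (1 + ‖w‖) ^ d ≤ ‖∏ j, (w - z j)‖ := by
  choose κ hκ h using fun j => rsd_low (z j) (hz j)
  refine ⟨∏ j, κ j, Finset.prod_pos fun j _ => hκ j, fun w hw => ?_⟩
  rw [norm_prod]
  calc (∏ j, κ j) * (1 + ‖w‖) ^ d = ∏ j, (κ j * (1 + ‖w‖)) := by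
        rw [Finset.prod_mul_distrib, Finset.prod_const, Finset.card_univ, Fintype.card_fin]
    _ ≤ ∏ j, ‖w - z j‖ := Finset.prod_le_prod
        (fun j _ => mul_nonneg (hκ j).le (by have := norm_nonneg w; linarith)) fun j _ => h j w hw

/-- The part with at least quadratic decay has integral zero. -/
theorem rsd_zero (d : ℕ) (z : Fin (d + 1) → ℂ) (hz : ∀ j, 0 < (z j).im) (β : ℂ[X])
    (hβ : β.degree < d) :
    Integrable (fun t : ℝ => β.eval (t : ℂ) / ∏ j, ((t : ℂ) - z j)) ∧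
      (∫ t : ℝ, β.eval (t : ℂ) / ∏ j, ((t : ℂ) - z j)) = 0 := by
  obtain ⟨κ, hκ, hl⟩ := rsd_low_prod (d + 1) z hz
  have hne : ∀ w : ℂ, w.im ≤ 0 → (∏ j, (w - z j)) ≠ 0 := by
    intro w hw
    refine Finset.prod_ne_zero_iff.2 fun j _ h => ?_
    have := congrArg Complex.im h
    simp at this
    linarith [hz j]
  have hd : ∀ w : ℂ, w.im ≤ 0 →
      DifferentiableAt ℂ (fun w : ℂ => β.eval w / ∏ j, (w - z j)) w := by
    intro w hw
    refine DifferentiableAt.div β.differentiable.differentiableAt ?_ (hne w hw)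
    refine DifferentiableAt.fun_finsetProd fun j _ => ?_
    exact (differentiableAt_id).sub_const _
  obtain ⟨K, hK⟩ : ∃ K : ℝ, ∀ w : ℂ, w.im ≤ 0 →
      ‖β.eval w / ∏ j, (w - z j)‖ ≤ K / (1 + ‖w‖) ^ 2 := by
    rcases Nat.eq_zero_or_pos d with h0 | h0
    · subst h0
      have : β = 0 := by
        by_contra h
        rw [degree_eq_natDegree h] at hβ
        have := Nat.cast_lt.1 hβ
        omega
      refine ⟨0, fun w _ => ?_⟩
      simp [this]
    · have hnd : β.natDegree ≤ d - 1 := by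
        by_cases h : β = 0
        · simp [h]
        · rw [degree_eq_natDegree h] at hβ
          have := Nat.cast_lt.1 hβ
          omega
      obtain ⟨B, hB, hb⟩ := rsd_up β (d - 1) hnd
      refine ⟨B / κ, fun w hw => ?_⟩
      have hw0 : 0 < 1 + ‖w‖ := by
        have := norm_nonneg w
        linarith
      have hpos : 0 < κ * (1 + ‖w‖) ^ (d + 1) := by positivity
      rw [norm_div]
      refine (div_le_div₀ (by positivity) (hb w) hpos (hl w hw)).trans (le_of_eq ?_)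
      obtain ⟨e, rfl⟩ : ∃ e, d = e + 1 := ⟨d - 1, by omega⟩
      rw [Nat.add_sub_cancel]
      field_simp
      ring
  exact ⟨hpl_int _ K hd hK, hpl_zero _ K hd hK⟩

/-- `RSD`.  The line integral of `2 Re (α / g)`. -/
theorem thm_RSD (d : ℕ) (z : Fin (d + 1) → ℂ) (hz : ∀ j, 0 < (z j).im) (α : ℂ[X])
    (hα : α.natDegree ≤ d) (hre : (α.coeff d).re = 0) :
    Integrable (fun t : ℝ => 2 * (α.eval (t : ℂ) / ∏ j, ((t : ℂ) - z j)).re) ∧
      (∫ t : ℝ, 2 * (α.eval (t : ℂ) / ∏ j, ((t : ℂ) - z j)).re) =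
        -2 * Real.pi * (α.coeff d).im := by
  obtain ⟨γ, hγ⟩ : ∃ γ : ℂ[X], γ = ∏ j : Fin d, (X - C (z j.succ)) := ⟨_, rfl⟩
  have hγm : γ.Monic := by
    rw [hγ]
    exact monic_prod_of_monic _ _ fun j _ => monic_X_sub_C _
  have hγd : γ.natDegree = d := by
    rw [hγ, natDegree_prod_of_monic _ _ fun j _ => monic_X_sub_C _]
    simp
  obtain ⟨β, hβ⟩ : ∃ β : ℂ[X], β = α - C (α.coeff d) * γ := ⟨_, rfl⟩
  have hβd : β.degree < d := by
    rw [hβ, degree_lt_iff_coeff_zero]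
    intro m hm
    rw [coeff_sub, coeff_C_mul]
    rcases hm.lt_or_eq with h | h
    · rw [coeff_eq_zero_of_natDegree_lt (by omega : α.natDegree < m),
        coeff_eq_zero_of_natDegree_lt (by omega : γ.natDegree < m)]
      simp
    · subst h
      have : γ.coeff γ.natDegree = 1 := hγm
      rw [hγd] at this
      rw [this]
      simp
  obtain ⟨i1, i2⟩ := rsd_zero d z hz β hβd
  obtain ⟨k1, k2⟩ := krn_real (z 0).re (z 0).im (hz 0)
  have hne : ∀ t : ℝ, ∀ j, (t : ℂ) - z j ≠ 0 := by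
    intro t j h
    have := congrArg Complex.im h
    simp at this
    linarith [hz j]
  have hpt : ∀ t : ℝ, 2 * (α.eval (t : ℂ) / ∏ j, ((t : ℂ) - z j)).re =
      2 * (β.eval (t : ℂ) / ∏ j, ((t : ℂ) - z j)).re +
        (-2 * (α.coeff d).im * (z 0).im) * (1 / ((t - (z 0).re) ^ 2 + (z 0).im ^ 2)) := by
    intro t
    have e1 : α.eval (t : ℂ) / ∏ j, ((t : ℂ) - z j) =
        β.eval (t : ℂ) / ∏ j, ((t : ℂ) - z j) + α.coeff d / ((t : ℂ) - z 0) := by
      have e2 : γ.eval (t : ℂ) = ∏ j : Fin d, ((t : ℂ) - z j.succ) := by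
        rw [hγ, eval_prod]
        simp
      have e3 : (∏ j, ((t : ℂ) - z j)) = ((t : ℂ) - z 0) * γ.eval (t : ℂ) := by
        rw [Fin.prod_univ_succ, e2]
      have e4 : γ.eval (t : ℂ) ≠ 0 := by
        rw [e2]
        exact Finset.prod_ne_zero_iff.2 fun j _ => hne t _
      have e5 := hne t 0
      rw [e3, hβ, eval_sub, eval_mul, eval_C]
      field_simp
      ring
    have e6 : (α.coeff d / ((t : ℂ) - z 0)).re =
        (-(α.coeff d).im * (z 0).im) * (1 / ((t - (z 0).re) ^ 2 + (z 0).im ^ 2)) := by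
      rw [Complex.div_re, hre, Complex.normSq_apply]
      have e7 : (0 : ℝ) < (t - (z 0).re) ^ 2 + (z 0).im ^ 2 := by
        have := hz 0
        positivity
      simp only [Complex.sub_re, Complex.ofReal_re, Complex.sub_im, Complex.ofReal_im]
      have e8 : (t - (z 0).re) * (t - (z 0).re) + (0 - (z 0).im) * (0 - (z 0).im) =
        (t - (z 0).re) ^ 2 + (z 0).im ^ 2 := by ring
      rw [e8]
      field_simp
      ring
    rw [e1, Complex.add_re, e6]
    ring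
  have hint : Integrable (fun t : ℝ => 2 * (β.eval (t : ℂ) / ∏ j, ((t : ℂ) - z j)).re) :=
    (i1.re).const_mul 2
  have hfun : (fun t : ℝ => 2 * (α.eval (t : ℂ) / ∏ j, ((t : ℂ) - z j)).re) = fun t : ℝ =>
      2 * (β.eval (t : ℂ) / ∏ j, ((t : ℂ) - z j)).re +
        (-2 * (α.coeff d).im * (z 0).im) * (1 / ((t - (z 0).re) ^ 2 + (z 0).im ^ 2)) :=
    funext hpt
  rw [hfun]
  refine ⟨hint.add (k1.const_mul _), ?_⟩
  rw [integral_add hint (k1.const_mul _), integral_const_mul, integral_const_mul, k2]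
  have h0 : (∫ t : ℝ, (β.eval (t : ℂ) / ∏ j, ((t : ℂ) - z j)).re) = 0 := by
    have := integral_re i1
    simp only [RCLike.re_to_complex] at this
    rw [this, i2]
    simp
  rw [h0]
  have := (hz 0).ne'
  field_simp
  ring

end Pool.Agent.PWD
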