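import Mathlib

/-!
# A basis of irreducible factors
-/

set_option autoImplicit false

open Polynomial

namespace Pool.Agent.PWD

theorem unit_eq {ι : Type} {u : Polynomial (MvPolynomial ι ℚ)} (hu : IsUnit u) :
    ∃ c : ℚ, c ≠ 0 ∧ u = C (MvPolynomial.C c) := by
  obtain ⟨r, hr, rfl⟩ := Polynomial.isUnit_iff.1 hu
  obtain ⟨c, hc, rfl⟩ := MvPolynomial.isUnit_iff_eq_C_of_isReduced.1 hr
  exact ⟨c, hc.ne_zero, rfl⟩

theorem factor_basis {ι : Type} (P : Finset (Polynomial (MvPolynomial ι ℚ)))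
    (hP : ∀ p ∈ P, p ≠ 0) : ∃ S : Finset (Polynomial (MvPolynomial ι ℚ)),
      (∀ s ∈ S, Irreducible s) ∧ (∀ s ∈ S, ∀ t ∈ S, s ∣ t → s = t) ∧
      ∀ p ∈ P, ∃ (c : ℚ) (m : Multiset (Polynomial (MvPolynomial ι ℚ))), c ≠ 0 ∧
        (∀ s ∈ m, s ∈ S) ∧ p = C (MvPolynomial.C c) * m.prod := by
  classical
  let : StrongNormalizationMonoid (Polynomial (MvPolynomial ι ℚ)) :=
    UniqueFactorizationMonoid.strongNormalizationMonoid
  refine ⟨P.biUnion (fun p => (UniqueFactorizationMonoid.normalizedFactors p).toFinset), ?_, ?_, ?_⟩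
  · intro s hs
    rw [Finset.mem_biUnion] at hs
    obtain ⟨p, _, h2⟩ := hs
    rw [Multiset.mem_toFinset] at h2
    exact UniqueFactorizationMonoid.irreducible_of_normalized_factor s h2
  · intro s hs t ht hst
    rw [Finset.mem_biUnion] at hs ht
    obtain ⟨p, _, h2⟩ := hs
    obtain ⟨q, _, h4⟩ := ht
    rw [Multiset.mem_toFinset] at h2 h4
    have h5 := UniqueFactorizationMonoid.irreducible_of_normalized_factor s h2
    have h6 := UniqueFactorizationMonoid.irreducible_of_normalized_factor t h4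
    have h7 : Associated s t := h5.associated_of_dvd h6 hst
    have h8 := UniqueFactorizationMonoid.normalize_normalized_factor s h2
    have h9 := UniqueFactorizationMonoid.normalize_normalized_factor t h4
    rw [← h8, ← h9]
    exact normalize_eq_normalize_iff_associated.2 h7
  · intro p hp
    obtain ⟨u, hu⟩ := (UniqueFactorizationMonoid.prod_normalizedFactors (hP p hp))
    obtain ⟨c, hc, hc'⟩ := unit_eq u.isUnit
    refine ⟨c, UniqueFactorizationMonoid.normalizedFactors p, hc, fun s hs => ?_, ?_⟩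
    · rw [Finset.mem_biUnion]
      exact ⟨p, hp, Multiset.mem_toFinset.2 hs⟩
    · rw [hc', mul_comm] at hu
      exact hu.symm

end Pool.Agent.PWD
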