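import Pool.Agent.PWD.StC
import Pool.Agent.PWD.FBA

/-!
# Semialgebraic sets and irreducible polynomials
-/

set_option autoImplicit false

open Polynomial

namespace Pool.Agent.PWD

theorem aeval_pt {ι : Type} (x : ι → ℝ) (t : ℝ) (p : MvPolynomial (Option ι) ℚ) :
    MvPolynomial.aeval (pt t x) p = (spR x (MvPolynomial.optionEquivLeft ℚ ι p)).eval t := by
  have h : (MvPolynomial.aeval (pt t x) : MvPolynomial (Option ι) ℚ →ₐ[ℚ] ℝ) =
      ((Polynomial.aeval t).restrictScalars ℚ).comp ((Polynomial.mapAlgHom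
        (MvPolynomial.aeval x : MvPolynomial ι ℚ →ₐ[ℚ] ℝ)).comp
          (MvPolynomial.optionEquivLeft ℚ ι).toAlgHom) := by
    apply MvPolynomial.algHom_ext
    intro i
    cases i with
    | none => simp [pt, MvPolynomial.optionEquivLeft_X_none]
    | some i => simp [pt, MvPolynomial.optionEquivLeft_X_some]
  rw [h]
  simp [spR]

theorem pt_eta {ι : Type} (z : Option ι → ℝ) : pt (z none) (fun i => z (some i)) = z := by
  funext o
  cases o <;> rfl

theorem sa_basis {ι : Type} (S0 : Set (Option ι → ℝ)) (h : SA S0) :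
    ∃ S : Finset (Polynomial (MvPolynomial ι ℚ)),
      (∀ s ∈ S, Irreducible s) ∧ (∀ s ∈ S, ∀ t ∈ S, s ∣ t → s = t) ∧
      ∀ (x x' : ι → ℝ) (t t' : ℝ),
        (∀ s ∈ S, SignType.sign ((spR x s).eval t) = SignType.sign ((spR x' s).eval t')) →
          pt t x ∈ S0 → pt t' x' ∈ S0 := by
  classical
  obtain ⟨P, hP⟩ := h
  obtain ⟨S, h1, h2, h3⟩ := factor_basis
    ((P.image (MvPolynomial.optionEquivLeft ℚ ι)).filter (fun p => p ≠ 0))
    (fun p hp => (Finset.mem_filter.1 hp).2)
  refine ⟨S, h1, h2, fun x x' t t' hs => hP _ _ (fun p hp => ?_)⟩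
  rw [aeval_pt, aeval_pt]
  by_cases h0 : MvPolynomial.optionEquivLeft ℚ ι p = 0
  · rw [h0]
    simp [spR]
  · obtain ⟨c, m, hc, hm, hpm⟩ := h3 (MvPolynomial.optionEquivLeft ℚ ι p)
      (Finset.mem_filter.2 ⟨Finset.mem_image_of_mem _ hp, h0⟩)
    rw [hpm]
    have key : ∀ (y : ι → ℝ) (u : ℝ), SignType.sign ((spR y (C (MvPolynomial.C c) * m.prod)).eval u) =
        SignType.sign (c : ℝ) * (m.map (fun s => SignType.sign ((spR y s).eval u))).prod := by
      intro y u
      have h4 : (spR y (C (MvPolynomial.C c) * m.prod)).eval u =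
          (c : ℝ) * (m.map (fun s => (spR y s).eval u)).prod := by
        unfold spR
        rw [Polynomial.map_mul, Polynomial.eval_mul, Polynomial.map_C, Polynomial.eval_C]
        congr 1
        · simp
        · rw [Polynomial.map_multiset_prod, Polynomial.eval_multiset_prod, Multiset.map_map]
          rfl
      rw [h4, sign_mul]
      congr 1
      have h5 := map_multiset_prod (signHom : ℝ →*₀ SignType) (m.map (fun s => (spR y s).eval u))
      rw [Multiset.map_map] at h5
      exact h5
    rw [key, key]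
    congr 2
    apply Multiset.map_congr rfl
    intro s hs'
    exact hs s (hm s hs')

end Pool.Agent.PWD
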