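import Pool.Agent.PWD.LSA
import Pool.Agent.PWD.RSD
import Pool.Agent.PWD.SBA
import Pool.Agent.PWD.ZNL
import Pool.Agent.PWD.DefF

/-!
# PWD [CNV]: line integrals of rational functions are semialgebraic functions
-/

set_option autoImplicit false

open MeasureTheory Filter Topology Polynomial

namespace Pool.Agent.PWD

open Pool.Agent.PWQ

/-- the polynomial with the coefficients `a` -/
theorem cnv_poly (D : ℕ) (a : Fin (D + 1) → ℂ) : ∃ α : ℂ[X], α.natDegree ≤ D ∧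
    α.coeff D = a (Fin.last D) ∧ ∀ t : ℂ, α.eval t = ∑ k, a k * t ^ (k : ℕ) := by
  refine ⟨∑ k : Fin (D + 1), C (a k) * X ^ (k : ℕ), ?_, ?_, fun t => ?_⟩
  · refine natDegree_sum_le_of_forall_le _ _ fun k _ => ?_
    refine (natDegree_C_mul_X_pow_le _ _).trans ?_
    omega
  · rw [finsetSum_coeff, Finset.sum_eq_single (Fin.last D)]
    · simp
    · intro k _ hk
      rw [coeff_C_mul_X_pow, if_neg]
      intro h
      exact hk (Fin.ext (by rw [← h]; simp))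
    · intro h
      exact absurd (Finset.mem_univ _) h
  · rw [eval_finsetSum]
    simp

theorem cnv_line (D : ℕ) (p q : ℝ[X]) (hq : q ≠ 0) (z a : Fin (D + 1) → ℂ)
    (hz : ∀ j, 0 < (z j).im) (ha : (a (Fin.last D)).re = 0)
    (h : ∀ t : ℝ, ((p.eval t : ℝ) : ℂ) * ((∏ j, ((t : ℂ) - z j)) *
        ∏ j, ((t : ℂ) - (starRingEnd ℂ) (z j))) =
      ((q.eval t : ℝ) : ℂ) *
        ((∑ k, a k * (t : ℂ) ^ (k : ℕ)) * (∏ j, ((t : ℂ) - (starRingEnd ℂ) (z j))) +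
        (starRingEnd ℂ) (∑ k, a k * (t : ℂ) ^ (k : ℕ)) * ∏ j, ((t : ℂ) - z j))) :
    Integrable (fun t : ℝ => p.eval t / q.eval t) ∧
      (∫ t : ℝ, p.eval t / q.eval t) = Real.pi * (-2 * (a (Fin.last D)).im) := by
  obtain ⟨α, hα, hc, he⟩ := cnv_poly D a
  obtain ⟨i1, i2⟩ := thm_RSD D z hz α hα (by rw [hc]; exact ha)
  have hae : (fun t : ℝ => 2 * (α.eval (t : ℂ) / ∏ j, ((t : ℂ) - z j)).re) =ᵐ[volume]
      fun t : ℝ => p.eval t / q.eval t := by
    have h1 : (q.rootSet ℝ).Finite := q.rootSet_finite ℝ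
    filter_upwards [h1.countable.ae_notMem volume] with t ht
    have hqt : q.eval t ≠ 0 := by
      intro h3
      exact ht ((mem_rootSet_of_ne hq).2 (by simpa [aeval_def] using h3))
    obtain ⟨g, hg⟩ : ∃ g : ℂ, g = ∏ j, ((t : ℂ) - z j) := ⟨_, rfl⟩
    have hg0 : g ≠ 0 := by
      rw [hg]
      refine Finset.prod_ne_zero_iff.2 fun j _ h => ?_
      have := congrArg Complex.im h
      simp at this
      linarith [hz j]
    have hg' : (∏ j, ((t : ℂ) - (starRingEnd ℂ) (z j))) = (starRingEnd ℂ) g := by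
      rw [hg, map_prod]
      simp
    have h2 := h t
    rw [← he, hg', ← hg] at h2
    rw [← hg]
    have hcg : (starRingEnd ℂ) g ≠ 0 := by simpa using hg0
    have h3 : ((p.eval t / q.eval t : ℝ) : ℂ) =
        α.eval (t : ℂ) / g + (starRingEnd ℂ) (α.eval (t : ℂ) / g) := by
      rw [map_div₀]
      push_cast
      have hqt' : ((q.eval t : ℝ) : ℂ) ≠ 0 := by exact_mod_cast hqt
      rw [div_add_div _ _ hg0 hcg, div_eq_div_iff hqt' (mul_ne_zero hg0 hcg)]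
      linear_combination h2
    rw [Complex.add_conj] at h3
    exact (Complex.ofReal_injective h3).symm
  refine ⟨i1.congr hae, ?_⟩
  rw [← integral_congr_ae hae, i2, hc]
  ring

/-- the relabelling of the variables -/
def eo (n : ℕ) : Fin (n + 1) → Option (Fin n) := Fin.lastCases none some

theorem pt_eo (n : ℕ) (x : Fin n → ℝ) (t : ℝ) :
    pt t x ∘ eo n = (Fin.snoc x t : Fin (n + 1) → ℝ) := by
  funext i
  refine Fin.lastCases ?_ (fun i => ?_) i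
  · simp [eo, pt]
  · simp [eo, pt]

theorem eo_inj (n : ℕ) : Function.Injective (eo n) := by
  intro i j h
  revert h
  refine Fin.lastCases ?_ (fun i => ?_) i <;> refine Fin.lastCases ?_ (fun j => ?_) j <;>
    simp [eo]

/-- `f(x, ·)` as a polynomial of one variable -/
theorem aeval_snoc (n : ℕ) (P : MvPolynomial (Fin (n + 1)) ℚ) (x : Fin n → ℝ) (t : ℝ) :
    MvPolynomial.aeval (Fin.snoc x t : Fin (n + 1) → ℝ) P =
      (spR x (MvPolynomial.optionEquivLeft ℚ (Fin n) (MvPolynomial.rename (eo n) P))).eval t := by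
  rw [← aeval_pt, MvPolynomial.aeval_rename, pt_eo]

theorem spR_ae_ne (n : ℕ) (f : Polynomial (MvPolynomial (Fin n) ℚ)) (hf : f ≠ 0) :
    ∀ᵐ x : Fin n → ℝ, spR x f ≠ 0 := by
  filter_upwards [ae_aeval_ne f.leadingCoeff (leadingCoeff_ne_zero.2 hf)] with x hx h
  apply hx
  have := congrArg (fun p : ℝ[X] => p.coeff f.natDegree) h
  simpa [spR, coeff_map] using this

/-- `CNV`. -/
theorem thm_CNV (n : ℕ) (P Q : MvPolynomial (Fin (n + 1)) ℚ) (hQ : Q ≠ 0)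
    (hi : ∀ᵐ x : Fin n → ℝ, Integrable (fun t : ℝ => rat P Q (Fin.snoc x t : Fin (n + 1) → ℝ))) :
    ∃ A : (Fin n → ℝ) → ℝ, SA (graph A) ∧
      ∀ᵐ x : Fin n → ℝ, (∫ t : ℝ, rat P Q (Fin.snoc x t : Fin (n + 1) → ℝ)) = Real.pi * A x := by
  obtain ⟨P', hP'⟩ : ∃ P', P' = MvPolynomial.rename (eo n) P := ⟨_, rfl⟩
  obtain ⟨Q', hQ'⟩ : ∃ Q', Q' = MvPolynomial.rename (eo n) Q := ⟨_, rfl⟩
  obtain ⟨f, hf⟩ : ∃ f, f = MvPolynomial.optionEquivLeft ℚ (Fin n) P' := ⟨_, rfl⟩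
  obtain ⟨g, hg⟩ : ∃ g, g = MvPolynomial.optionEquivLeft ℚ (Fin n) Q' := ⟨_, rfl⟩
  have hg0 : g ≠ 0 := by
    rw [hg, hQ']
    simp only [ne_eq, EmbeddingLike.map_eq_zero_iff]
    exact (map_ne_zero_iff _ (MvPolynomial.rename_injective _ (eo_inj n))).2 hQ
  have eP : ∀ (x : Fin n → ℝ) (t : ℝ),
      MvPolynomial.aeval (Fin.snoc x t : Fin (n + 1) → ℝ) P = (spR x f).eval t := by
    intro x t
    rw [aeval_snoc, hf, hP']
  have eQ : ∀ (x : Fin n → ℝ) (t : ℝ),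
      MvPolynomial.aeval (Fin.snoc x t : Fin (n + 1) → ℝ) Q = (spR x g).eval t := by
    intro x t
    rw [aeval_snoc, hg, hQ']
  have er : ∀ x : Fin n → ℝ, (fun t : ℝ => rat P Q (Fin.snoc x t : Fin (n + 1) → ℝ)) =
      fun t : ℝ => (spR x f).eval t / (spR x g).eval t := by
    intro x
    funext t
    rw [rat, eP, eQ]
  obtain ⟨D, hD⟩ : ∃ D, D = g.natDegree := ⟨_, rfl⟩
  obtain ⟨A, hA, hA2⟩ := sa_fun _ (lsa_rel D P' Q')
  refine ⟨A, hA, ?_⟩
  filter_upwards [hi, spR_ae_ne n g hg0] with x hx hx2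
  rw [er] at hx ⊢
  have hmem : ∀ y : ℝ, pt y x ∈ {u : Option (Fin n) → ℝ | ∃ (z a : Fin (D + 1) → ℂ),
      (∀ j, 0 < (z j).im) ∧
      (a (Fin.last D)).re = 0 ∧ u none = -2 * (a (Fin.last D)).im ∧
      ∀ t : ℝ, ((MvPolynomial.aeval (pt t (fun i => u (some i))) P' : ℝ) : ℂ) *
        ((∏ j, ((t : ℂ) - z j)) * ∏ j, ((t : ℂ) - (starRingEnd ℂ) (z j))) =
      ((MvPolynomial.aeval (pt t (fun i => u (some i))) Q' : ℝ) : ℂ) *
        ((∑ k, a k * (t : ℂ) ^ (k : ℕ)) * (∏ j, ((t : ℂ) - (starRingEnd ℂ) (z j))) +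
        (starRingEnd ℂ) (∑ k, a k * (t : ℂ) ^ (k : ℕ)) * ∏ j, ((t : ℂ) - z j))} →
      (∫ t : ℝ, (spR x f).eval t / (spR x g).eval t) = Real.pi * y := by
    rintro y ⟨z, a, hz, ha, hy, ht⟩
    have hy' : y = -2 * (a (Fin.last D)).im := hy
    rw [hy']
    refine (cnv_line D (spR x f) (spR x g) hx2 z a hz ha fun t => ?_).2
    have := ht t
    have e1 : (fun i => pt y x (some i)) = x := rfl
    rw [e1, aeval_pt, aeval_pt, ← hf, ← hg] at this
    exact this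
  refine hmem _ (hA2 x ?_)
  have hgd : (spR x g).natDegree ≤ D := by
    rw [hD]
    exact natDegree_map_le
  obtain ⟨z, α, hz, hα, hre, hid⟩ := thm_DEC D (spR x f) (spR x g) hx2 hgd hx
  have hev : ∀ t : ℝ, α.eval (t : ℂ) = ∑ k : Fin (D + 1), α.coeff k * (t : ℂ) ^ (k : ℕ) := by
    intro t
    rw [eval_eq_sum_range' (Nat.lt_succ_of_le hα), Finset.sum_range]
  have hin : pt (-2 * (α.coeff D).im) x ∈ {u : Option (Fin n) → ℝ |
      ∃ (z a : Fin (D + 1) → ℂ), (∀ j, 0 < (z j).im) ∧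
      (a (Fin.last D)).re = 0 ∧ u none = -2 * (a (Fin.last D)).im ∧
      ∀ t : ℝ, ((MvPolynomial.aeval (pt t (fun i => u (some i))) P' : ℝ) : ℂ) *
        ((∏ j, ((t : ℂ) - z j)) * ∏ j, ((t : ℂ) - (starRingEnd ℂ) (z j))) =
      ((MvPolynomial.aeval (pt t (fun i => u (some i))) Q' : ℝ) : ℂ) *
        ((∑ k, a k * (t : ℂ) ^ (k : ℕ)) * (∏ j, ((t : ℂ) - (starRingEnd ℂ) (z j))) +
        (starRingEnd ℂ) (∑ k, a k * (t : ℂ) ^ (k : ℕ)) * ∏ j, ((t : ℂ) - z j))} := by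
    refine ⟨z, fun k => α.coeff k, hz, hre, rfl, fun t => ?_⟩
    have e1 : (fun i => pt (-2 * (α.coeff D).im) x (some i)) = x := rfl
    rw [e1, aeval_pt, aeval_pt, ← hf, ← hg, ← hev]
    exact hid t
  refine ⟨-2 * (α.coeff D).im, hin, fun y hy => ?_⟩
  have h1 := hmem _ hin
  have h2 := hmem _ hy
  rw [h1] at h2
  exact (mul_left_cancel₀ Real.pi_ne_zero h2).symm

end Pool.Agent.PWD
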