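import Pool.Agent.PWD.KRN
import Pool.Agent.PWD.FUB

set_option autoImplicit false

open MeasureTheory Filter Topology

namespace Pool.Agent.PWD

/-- the one-variable factor -/
noncomputable def wf (x : ℝ) : ℝ := ((√(1 + x ^ 2)) ^ 3)⁻¹

theorem wf_pos (x : ℝ) : 0 < wf x := by
  unfold wf
  have : 0 < √(1 + x ^ 2) := Real.sqrt_pos.mpr (by positivity)
  positivity

theorem wf_int : Integrable wf ∧ (∫ x : ℝ, wf x) = 2 := by
  have hpos : ∀ x : ℝ, 0 < 1 + x ^ 2 := fun x => by positivity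
  have hs : ∀ x : ℝ, 0 < √(1 + x ^ 2) := fun x => Real.sqrt_pos.mpr (hpos x)
  have hsq : ∀ x : ℝ, √(1 + x ^ 2) ^ 2 = 1 + x ^ 2 := fun x => Real.sq_sqrt (hpos x).le
  have hcont : Continuous wf := by
    unfold wf
    exact Continuous.inv₀ (by fun_prop) fun x => (pow_pos (hs x) 3).ne'
  have hint : Integrable wf := by
    refine integrable_inv_one_add_sq.mono' hcont.aestronglyMeasurable
      (Eventually.of_forall fun x => ?_)
    rw [Real.norm_of_nonneg (wf_pos x).le]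
    unfold wf
    refine inv_anti₀ (hpos x) ?_
    have h1 : 1 ≤ √(1 + x ^ 2) := by
      rw [Real.one_le_sqrt]
      nlinarith [sq_nonneg x]
    calc 1 + x ^ 2 = √(1 + x ^ 2) ^ 2 * 1 := by rw [hsq, mul_one]
      _ ≤ √(1 + x ^ 2) ^ 2 * √(1 + x ^ 2) := mul_le_mul_of_nonneg_left h1 (sq_nonneg _)
      _ = √(1 + x ^ 2) ^ 3 := by ring
  have hder : ∀ x : ℝ, HasDerivAt (fun x : ℝ => x / √(1 + x ^ 2)) (wf x) x := by
    intro x
    have h1 : HasDerivAt (fun x : ℝ => 1 + x ^ 2) (2 * x) x := by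
      have := ((hasDerivAt_id x).pow 2).const_add 1
      refine this.congr_deriv ?_
      simp
    have h2 := (hasDerivAt_id x).div (h1.sqrt (hpos x).ne') (hs x).ne'
    refine h2.congr_deriv ?_
    have h3 := (hs x).ne'
    have h4 := hsq x
    unfold wf
    show (1 * √(1 + x ^ 2) - x * (2 * x / (2 * √(1 + x ^ 2)))) / √(1 + x ^ 2) ^ 2 =
      (√(1 + x ^ 2) ^ 3)⁻¹
    field_simp
    rw [h4]
    ring
  have hl : ∀ l : Filter ℝ, Tendsto (fun x : ℝ => |x|) l atTop →
      Tendsto (fun x : ℝ => |x| / √(1 + x ^ 2)) l (𝓝 1) := by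
    intro l hl
    have h5 : Tendsto (fun x : ℝ => |x|⁻¹ ^ 2) l (𝓝 0) := by
      have := (hl.inv_tendsto_atTop).pow 2
      simpa using this
    have h6 : Tendsto (fun x : ℝ => (√(|x|⁻¹ ^ 2 + 1))⁻¹) l (𝓝 1) := by
      have := ((h5.add_const 1).sqrt).inv₀ (by simp)
      simpa using this
    refine h6.congr' ?_
    filter_upwards [hl.eventually_gt_atTop 0] with x hx
    have h7 : |x|⁻¹ ^ 2 + 1 = (1 + x ^ 2) / |x| ^ 2 := by
      rw [sq_abs]
      have : x ≠ 0 := abs_pos.mp hx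
      rw [inv_pow, sq_abs]
      field_simp
    rw [h7, Real.sqrt_div (hpos x).le, Real.sqrt_sq hx.le, inv_div]
  have hT : Tendsto (fun x : ℝ => x / √(1 + x ^ 2)) atTop (𝓝 1) := by
    refine (hl _ tendsto_abs_atTop_atTop).congr' ?_
    filter_upwards [eventually_ge_atTop 0] with x hx
    rw [abs_of_nonneg hx]
  have hB : Tendsto (fun x : ℝ => x / √(1 + x ^ 2)) atBot (𝓝 (-1)) := by
    refine ((hl _ tendsto_abs_atBot_atTop).neg).congr' ?_
    filter_upwards [eventually_le_atBot 0] with x hx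
    rw [abs_of_nonpos hx]
    ring
  refine ⟨hint, ?_⟩
  rw [integral_of_hasDerivAt_of_tendsto hder hint hB hT]
  norm_num

theorem wgt_line (q : ℝ) (hq : 0 < q) :
    Integrable (fun t : ℝ => 1 / (t ^ 2 + q) ^ 2) ∧
      (∫ t : ℝ, 1 / (t ^ 2 + q) ^ 2) = Real.pi / 2 * ((√q) ^ 3)⁻¹ := by
  have hs : 0 < √q := Real.sqrt_pos.mpr hq
  obtain ⟨h1, h2⟩ := krn_real_sq 0 (√q) hs
  have e : (fun t : ℝ => 1 / (t ^ 2 + q) ^ 2) =
      fun t : ℝ => (1 / (2 * (√q) ^ 3)) * (2 * (√q) ^ 3 / ((t - 0) ^ 2 + (√q) ^ 2) ^ 2) := by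
    funext t
    rw [Real.sq_sqrt hq.le, sub_zero]
    have : 0 < t ^ 2 + q := by positivity
    field_simp
  rw [e]
  refine ⟨h1.const_mul _, ?_⟩
  rw [integral_const_mul, h2]
  field_simp

theorem wgt_prod {n : ℕ} (x : Fin n → ℝ) : ((√(∏ i, (1 + x i ^ 2))) ^ 3)⁻¹ = ∏ i, wf (x i) := by
  unfold wf
  rw [Real.sqrt_prod _ fun i _ => by positivity, ← Finset.prod_pow, Finset.prod_inv_distrib]

theorem thm_WGT : St_WGT := by
  intro n
  have hq : ∀ x : Fin n → ℝ, 0 < ∏ i, (1 + x i ^ 2) := fun x =>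
    Finset.prod_pos fun i _ => by positivity
  have hpos : ∀ (x : Fin n → ℝ) (t : ℝ), 0 < t ^ 2 + ∏ i, (1 + x i ^ 2) := fun x t => by
    have := hq x
    positivity
  have hfun : ∀ (x : Fin n → ℝ) (t : ℝ),
      (fun y : Fin (n + 1) → ℝ => wgt (Fin.init y) (y (Fin.last n))) (Fin.snoc x t) =
      1 / (t ^ 2 + ∏ i, (1 + x i ^ 2)) ^ 2 := by
    intro x t
    show wgt (Fin.init (Fin.snoc x t : Fin (n + 1) → ℝ)) ((Fin.snoc x t : Fin (n + 1) → ℝ)
      (Fin.last n)) = _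
    rw [Fin.init_snoc, Fin.snoc_last]
    rfl
  have hin : ∀ x : Fin n → ℝ, (∫ t : ℝ, 1 / (t ^ 2 + ∏ i, (1 + x i ^ 2)) ^ 2) =
      Real.pi / 2 * ∏ i, wf (x i) := by
    intro x
    rw [(wgt_line _ (hq x)).2, wgt_prod]
  have hpi : Integrable (fun x : Fin n → ℝ => ∏ i, wf (x i)) :=
    Integrable.fintype_prod fun _ => wf_int.1
  have hI : Integrable (fun y : Fin (n + 1) → ℝ => wgt (Fin.init y) (y (Fin.last n))) := by
    refine integrable_of_snoc n _ (Continuous.aestronglyMeasurable ?_)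
      (Eventually.of_forall fun x => ?_) ?_
    · unfold wgt
      refine Continuous.div continuous_const ?_ fun y => (pow_pos (hpos _ _) 2).ne'
      refine Continuous.pow (Continuous.add (by fun_prop) ?_) 2
      refine continuous_finset_prod _ fun i _ => ?_
      show Continuous fun y : Fin (n + 1) → ℝ => 1 + (y i.castSucc) ^ 2
      fun_prop
    · simp_rw [hfun x]
      exact (wgt_line _ (hq x)).1
    · simp_rw [hfun]
      have : (fun x : Fin n → ℝ => ∫ t : ℝ, ‖1 / (t ^ 2 + ∏ i, (1 + x i ^ 2)) ^ 2‖) =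
          fun x => Real.pi / 2 * ∏ i, wf (x i) := by
        funext x
        rw [← hin x]
        refine integral_congr_ae (Eventually.of_forall fun t => ?_)
        exact Real.norm_of_nonneg (by have := hpos x t; positivity)
      rw [this]
      exact hpi.const_mul _
  refine ⟨hI, ?_⟩
  rw [integral_snoc n _ hI]
  simp_rw [hfun, hin]
  rw [integral_const_mul, integral_fintype_prod_volume_eq_pow, wf_int.2, Fintype.card_fin]
  ring

end Pool.Agent.PWD
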