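import Pool.Agent.PWD.PRA
import Pool.Agent.PWD.WGT
import Pool.Agent.PWD.DefF

/-!
# Periods without domains: `π ∫ A` as an integral over the whole space
-/

set_option autoImplicit false

open MeasureTheory

namespace Pool.Agent.PWD

theorem cont_aeval {ι : Type} (P : MvPolynomial ι ℚ) :
    Continuous (fun y : ι → ℝ => MvPolynomial.aeval y P) := by
  have : (fun y : ι → ℝ => MvPolynomial.aeval y P) =
      fun y : ι → ℝ => MvPolynomial.eval y (MvPolynomial.map (algebraMap ℚ ℝ) P) := by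
    funext y
    rw [MvPolynomial.aeval_def, MvPolynomial.eval_map]
  rw [this]
  exact MvPolynomial.continuous_eval _

theorem rat_measurable {ι : Type} [Fintype ι] (P Q : MvPolynomial ι ℚ) :
    Measurable (fun y : ι → ℝ => rat P Q y) := by
  unfold rat
  exact (cont_aeval P).measurable.div (cont_aeval Q).measurable

theorem wgt_slice {n : ℕ} (x : Fin n → ℝ) : Integrable (wgt x) ∧
    (∫ t : ℝ, wgt x t) = Real.pi / 2 * ∏ i, wf (x i) := by
  have hq : 0 < ∏ i, (1 + x i ^ 2) := Finset.prod_pos fun i _ => by positivity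
  obtain ⟨h1, h2⟩ := wgt_line _ hq
  exact ⟨h1, by rw [← wgt_prod]; exact h2⟩

theorem wgt_nonneg {n : ℕ} (x : Fin n → ℝ) (t : ℝ) : 0 ≤ wgt x t := by
  unfold wgt
  positivity

theorem integrable_of_snoc_bound (n : ℕ) (f : (Fin (n + 1) → ℝ) → ℝ) (hm : AEStronglyMeasurable f)
    (h1 : ∀ᵐ x : Fin n → ℝ, Integrable (fun t : ℝ => f (Fin.snoc x t)))
    (g : (Fin n → ℝ) → ℝ) (hg : Integrable g)
    (h2 : ∀ᵐ x : Fin n → ℝ, (∫ t : ℝ, ‖f (Fin.snoc x t)‖) ≤ g x) : Integrable f := by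
  refine integrable_of_snoc n f hm h1 ?_
  have hm2 : AEStronglyMeasurable (fun p : (Fin n → ℝ) × ℝ => ‖f (Fin.snoc p.1 p.2)‖)
      ((volume : Measure (Fin n → ℝ)).prod (volume : Measure ℝ)) := by
    have := (hm.comp_measurePreserving (snocM_mp n)).norm
    have e : (fun p : (Fin n → ℝ) × ℝ => ‖(f ∘ (snocM n)) p‖) =
        fun p : (Fin n → ℝ) × ℝ => ‖f (Fin.snoc p.1 p.2)‖ := by
      funext p
      show ‖f (snocM n (p.1, p.2))‖ = _
      rw [snocM_apply]
    rwa [e] at this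
  refine hg.mono' hm2.integral_prod_right' ?_
  filter_upwards [h2] with x hx
  rw [Real.norm_of_nonneg (integral_nonneg fun t => norm_nonneg _)]
  exact hx

/-- `WAI`. -/
def St_WAI : Prop :=
  ∀ (m : ℕ) (A : (Fin m → ℝ) → ℝ) (e : ℚ), SA (graph A) → Integrable A → 0 < e →
    ∃ P Q : MvPolynomial (Fin (m + 1)) ℚ, Q ≠ 0 ∧
      Integrable (fun y : Fin (m + 1) → ℝ => rat P Q y) ∧
      (∫ y : Fin (m + 1) → ℝ, rat P Q y) = Real.pi * ∫ x, A x ∧
      ∀ᵐ x : Fin m → ℝ, ∀ t : ℝ,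
        MvPolynomial.aeval (Fin.snoc x t : Fin (m + 1) → ℝ) Q ≠ 0 ∧ ∃ c : ℝ, 0 ≤ c ∧
          |rat P Q (Fin.snoc x t : Fin (m + 1) → ℝ) - c * A x| ≤ e * wgt x t

theorem pra_integrable (m : ℕ) (A : (Fin m → ℝ) → ℝ) (e : ℚ) (he : 0 < e)
    (P Q : MvPolynomial (Fin (m + 1)) ℚ)
    (hx : ∀ᵐ x : Fin m → ℝ,
        (∀ t : ℝ, MvPolynomial.aeval (Fin.snoc x t : Fin (m + 1) → ℝ) Q ≠ 0) ∧
        Integrable (fun t : ℝ => rat P Q (Fin.snoc x t : Fin (m + 1) → ℝ)) ∧
        (∫ t : ℝ, rat P Q (Fin.snoc x t : Fin (m + 1) → ℝ)) = Real.pi * A x ∧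
        ∀ t : ℝ, ∃ c : ℝ, 0 ≤ c ∧
          |rat P Q (Fin.snoc x t : Fin (m + 1) → ℝ) - c * A x| ≤ e * wgt x t)
    (hA : Integrable A) : Integrable (fun y : Fin (m + 1) → ℝ => rat P Q y) := by
  have heR : (0 : ℝ) < (e : ℝ) := by exact_mod_cast he
  have hwf : Integrable (fun x : Fin m → ℝ => ∏ i, wf (x i)) :=
    Integrable.fintype_prod fun _ => wf_int.1
  refine integrable_of_snoc_bound m _ (rat_measurable P Q).aestronglyMeasurable ?_
    (fun x => Real.pi * |A x| + 2 * e * (Real.pi / 2 * ∏ i, wf (x i)))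
    ((hA.abs.const_mul _).add ((hwf.const_mul _).const_mul _)) ?_
  · filter_upwards [hx] with x h
    exact h.2.1
  · filter_upwards [hx] with x h
    obtain ⟨-, h1, h2, h3⟩ := h
    obtain ⟨w1, w2⟩ := wgt_slice x
    have hs : ∃ s : ℝ, (s = 1 ∨ s = -1) ∧ s * A x = |A x| := by
      rcases le_or_gt 0 (A x) with h0 | h0
      · exact ⟨1, Or.inl rfl, by rw [abs_of_nonneg h0, one_mul]⟩
      · exact ⟨-1, Or.inr rfl, by rw [abs_of_neg h0]; ring⟩
    obtain ⟨s, hs1, hs2⟩ := hs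
    have hb : ∀ t : ℝ, ‖rat P Q (Fin.snoc x t : Fin (m + 1) → ℝ)‖ ≤
        s * rat P Q (Fin.snoc x t : Fin (m + 1) → ℝ) + 2 * e * wgt x t := by
      intro t
      obtain ⟨c, hc, hct⟩ := h3 t
      have h4 := abs_le.mp hct
      have h5 : 0 ≤ c * |A x| := mul_nonneg hc (abs_nonneg _)
      rw [Real.norm_eq_abs]
      rcases hs1 with rfl | rfl
      · rw [one_mul] at hs2 ⊢
        rw [← hs2] at h5
        rw [abs_le]
        constructor
        · linarith [h4.1, h4.2]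
        · linarith [h4.1, h4.2, mul_nonneg heR.le (wgt_nonneg x t)]
      · have h6 : A x = - |A x| := by linarith
        rw [h6] at h4
        rw [abs_le]
        constructor
        · linarith [h4.1, h4.2, mul_nonneg heR.le (wgt_nonneg x t)]
        · linarith [h4.1, h4.2]
    calc (∫ t : ℝ, ‖rat P Q (Fin.snoc x t : Fin (m + 1) → ℝ)‖) ≤
          ∫ t : ℝ, (s * rat P Q (Fin.snoc x t : Fin (m + 1) → ℝ) + 2 * e * wgt x t) :=
        integral_mono h1.norm ((h1.const_mul s).add (w1.const_mul _)) hb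
      _ = s * (Real.pi * A x) + 2 * e * (Real.pi / 2 * ∏ i, wf (x i)) := by
        rw [integral_add (h1.const_mul s) (w1.const_mul _), integral_const_mul,
          integral_const_mul, h2, w2]
      _ = Real.pi * |A x| + 2 * e * (Real.pi / 2 * ∏ i, wf (x i)) := by
        rw [← hs2]
        ring

theorem thm_WAI : St_WAI := by
  intro m A e hSA hA he
  obtain ⟨P, Q, hQ, hx⟩ := thm_PRA m A e hSA he
  have hint := pra_integrable m A e he P Q hx hA
  refine ⟨P, Q, hQ, hint, ?_, ?_⟩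
  · rw [integral_snoc m _ hint, ← integral_const_mul]
    refine integral_congr_ae ?_
    filter_upwards [hx] with x h
    exact h.2.2.1
  · filter_upwards [hx] with x h t
    exact ⟨h.1 t, h.2.2.2 t⟩

end Pool.Agent.PWD
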