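import Pool.Agent.PWD.StS
import Pool.Agent.PWD.WAI

set_option autoImplicit false

open MeasureTheory

namespace Pool.Agent.PWD

theorem thm_SIM : St_SIM := by
  rintro m A ⟨A', hSA, hAA⟩
  obtain ⟨P, Q, hQ, hx⟩ := thm_PRA m A' 1 hSA one_pos
  refine ⟨P, Q, hQ, ?_, fun hA => pra_integrable m A' 1 one_pos P Q hx (hA.congr hAA)⟩
  filter_upwards [hx, hAA] with x h h2
  exact ⟨h.2.1, by rw [h.2.2.1, h2]⟩

end Pool.Agent.PWD
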