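import Pool.Agent.PWD.SIMP
import Pool.Agent.PWD.SIM
import Pool.Agent.PWD.CNV

/-!
# PWD [SPP]: line integrals of rational functions, with and without positivity
-/

set_option autoImplicit false

open MeasureTheory
open Pool.Agent.PWQ

namespace Pool.Agent.PWD

/-- the line integral of a positive rational function is positive -/
theorem spp_pos (m : ℕ) (P Q : MvPolynomial (Fin (m + 1)) ℚ) (hQ : Q ≠ 0)
    (hpos : ∀ z : Fin (m + 1) → ℝ, MvPolynomial.aeval z Q ≠ 0 → 0 < rat P Q z) :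
    ∀ᵐ x : Fin m → ℝ, Integrable (fun t : ℝ => rat P Q (Fin.snoc x t : Fin (m + 1) → ℝ)) →
      0 < ∫ t : ℝ, rat P Q (Fin.snoc x t : Fin (m + 1) → ℝ) := by
  filter_upwards [ae_snoc m _ (ae_aeval_ne Q hQ)] with x hx hi
  have h0 : ∀ᵐ t : ℝ, 0 < rat P Q (Fin.snoc x t : Fin (m + 1) → ℝ) := by
    filter_upwards [hx] with t ht
    exact hpos _ ht
  have h1 : 0 ≤ᵐ[volume] fun t : ℝ => rat P Q (Fin.snoc x t : Fin (m + 1) → ℝ) := by
    filter_upwards [h0] with t ht
    exact ht.le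
  rw [integral_pos_iff_support_of_nonneg_ae h1 hi]
  have h2 : Function.support (fun t : ℝ => rat P Q (Fin.snoc x t : Fin (m + 1) → ℝ)) =ᵐ[volume]
      Set.univ := by
    rw [Filter.eventuallyEq_univ]
    filter_upwards [h0] with t ht
    exact ht.ne'
  rw [measure_congr h2]
  simp

/-- a semialgebraic function which is positive almost everywhere is almost everywhere equal to a
positive semialgebraic function -/
theorem spp_mod {m : ℕ} (A' : (Fin m → ℝ) → ℝ) (hS : SA (graph A')) (h0 : ∀ᵐ x, 0 < A' x) :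
    ∃ g : (Fin m → ℝ) → ℝ, SA (graph g) ∧ (∀ x, 0 < g x) ∧ A' =ᵐ[volume] g := by
  refine ⟨fun x => if 0 < A' x then A' x else 1, ?_, ?_, ?_⟩
  · have h1 := SA_and (SA_reindex (SA_posSet hS) some) hS
    have h2 := SA_and (SA_not (SA_reindex (SA_posSet hS) some))
      (SA_eq (MvPolynomial.X none) (1 : MvPolynomial (Option (Fin m)) ℚ))
    refine (congrArg SA ?_).mp (SA_or h1 h2)
    ext z
    show ((0 < A' fun i => z (some i)) ∧ z none = A' fun i => z (some i)) ∨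
      ((¬ 0 < A' fun i => z (some i)) ∧ MvPolynomial.aeval z
        (MvPolynomial.X none : MvPolynomial (Option (Fin m)) ℚ) =
        MvPolynomial.aeval z (1 : MvPolynomial (Option (Fin m)) ℚ)) ↔
      z none = if 0 < A' fun i => z (some i) then A' fun i => z (some i) else 1
    rw [MvPolynomial.aeval_X, map_one]
    by_cases hz : 0 < A' fun i => z (some i)
    · simp only [hz, true_and, not_true, false_and, or_false, if_true]
    · simp only [hz, false_and, not_false_iff, true_and, false_or, if_false]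
  · intro x
    by_cases hx : 0 < A' x
    · simp only [hx, if_true]
    · simp only [hx, if_false, one_pos]
  · filter_upwards [h0] with x hx
    simp only [hx, if_true]

theorem thm_SPP (m : ℕ) (A : (Fin m → ℝ) → ℝ) :
    ((∃ A' : (Fin m → ℝ) → ℝ, SA (graph A') ∧ A =ᵐ[volume] A') ↔
      ∃ P Q : MvPolynomial (Fin (m + 1)) ℚ, Q ≠ 0 ∧ ∀ᵐ x : Fin m → ℝ,
        Integrable (fun t : ℝ => rat P Q (Fin.snoc x t : Fin (m + 1) → ℝ)) ∧
        A x = 1 / Real.pi * ∫ t : ℝ, rat P Q (Fin.snoc x t : Fin (m + 1) → ℝ)) ∧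
    ((∃ A' : (Fin m → ℝ) → ℝ, SA (graph A') ∧ (∀ x, 0 < A' x) ∧ A =ᵐ[volume] A') ↔
      ∃ P Q : MvPolynomial (Fin (m + 1)) ℚ, Q ≠ 0 ∧
        (∀ z : Fin (m + 1) → ℝ, MvPolynomial.aeval z Q ≠ 0 → 0 < rat P Q z) ∧
        ∀ᵐ x : Fin m → ℝ,
        Integrable (fun t : ℝ => rat P Q (Fin.snoc x t : Fin (m + 1) → ℝ)) ∧
        A x = 1 / Real.pi * ∫ t : ℝ, rat P Q (Fin.snoc x t : Fin (m + 1) → ℝ)) := by
  have hpi := Real.pi_pos
  refine ⟨⟨?_, ?_⟩, ⟨?_, ?_⟩⟩
  · intro h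
    obtain ⟨P, Q, hQ, h1, _⟩ := thm_SIM m A h
    refine ⟨P, Q, hQ, ?_⟩
    filter_upwards [h1] with x hx
    refine ⟨hx.1, ?_⟩
    rw [hx.2]
    field_simp
  · rintro ⟨P, Q, hQ, h⟩
    obtain ⟨A', hA', h2⟩ := thm_CNV m P Q hQ (h.mono fun x hx => hx.1)
    refine ⟨A', hA', ?_⟩
    filter_upwards [h, h2] with x hx hx2
    rw [hx.2, hx2]
    field_simp
  · rintro ⟨A', hA', h0, hAA⟩
    obtain ⟨P, Q, hQ, hp, h1⟩ := thm_SIMP m A' hA' (Filter.Eventually.of_forall h0)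
    refine ⟨P, Q, hQ, hp, ?_⟩
    filter_upwards [h1, hAA] with x hx hx2
    refine ⟨hx.1, ?_⟩
    rw [hx.2, hx2]
    field_simp
  · rintro ⟨P, Q, hQ, hp, h⟩
    obtain ⟨A', hA', h2⟩ := thm_CNV m P Q hQ (h.mono fun x hx => hx.1)
    have h3 : ∀ᵐ x : Fin m → ℝ, 0 < A' x := by
      filter_upwards [h, h2, spp_pos m P Q hQ hp] with x h1 h2 h3
      have h4 := h3 h1.1
      rw [h2] at h4
      exact (mul_pos_iff_of_pos_left hpi).1 h4
    -- change the value on the exceptional set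
    obtain ⟨g, g1, g2, g3⟩ := spp_mod A' hA' h3
    refine ⟨g, g1, g2, ?_⟩
    filter_upwards [h, h2, g3] with x h4 h5 h6
    rw [h4.2, h5, ← h6]
    field_simp

end Pool.Agent.PWD
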