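import Pool.Agent.PWD.HRW
import Pool.Agent.PWD.RPI
import Pool.Agent.PWD.RPD
import Pool.Agent.PWD.ONB
import Pool.Agent.PWD.MXA
import Pool.Agent.PWD.MXI
import Pool.Agent.PWD.SPP
import Pool.Agent.PWD.MRG
import Pool.Agent.PWD.WSB
import Pool.Agent.PWD.WPI
import Pool.Agent.PWD.FRZ
import Pool.Agent.PWD.ZOL

/-!
# Periods without domains: the combined statement
-/

set_option autoImplicit false

open MeasureTheory

namespace Pool.Agent.PWD

open Pool.Agent.Helper23.PeriodDefs (MultiPoly evalMulti)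

/-- positive differences of volumes are volumes -/
def St_VS : Prop := ∀ (n : ℕ) (a b : ℝ), 1 ≤ n → V n a → V n b → b ≤ a → V n (a - b)

theorem fin_main (hVS : St_VS) :
    -- (U)
    (∀ (n : ℕ) (I : Set (Fin n)) (q : Fin n → MultiPoly n) (P : MultiPoly n) (m : Fin n → ℕ),
      1 ≤ n → MixTower I q →
      Integrable (fun x : Fin n → ℝ => evalMulti P x / ∏ k, evalMulti (q k) x ^ m k) →
      (∫ x : Fin n → ℝ, evalMulti P x / ∏ k, evalMulti (q k) x ^ m k) ≠ 0 →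
      Transcendental ℚ (∫ x : Fin n → ℝ, evalMulti P x / ∏ k, evalMulti (q k) x ^ m k)) ∧
    -- (R)
    ((∀ (n : ℕ) (a : ℝ), 1 ≤ n → V n a → 0 < a → Rs (n + 1) (Real.pi ^ 2 * a)) ∧
      (IsPeriod (1 / Real.pi) ↔ ∃ n, 1 ≤ n ∧ Rs n 1) ∧
      (IsPeriod (1 / Real.pi) ↔ ∀ x : ℝ, 0 < x → (IsPeriod x ↔ ∃ n, 1 ≤ n ∧ Rs n x)) ∧
      (¬ IsPeriod (1 / Real.pi) ↔
        ∀ (n : ℕ) (v : ℝ), 1 ≤ n → W n v → v ≠ 0 → Transcendental ℚ v)) ∧
    -- (W)
    (∀ (n : ℕ) (v : ℝ), 1 ≤ n →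
      (W n v ↔ ∃ a b : ℝ, V n a ∧ V n b ∧ v = Real.pi * (a - b)) ∧
      (Wp n v ↔ ∃ a : ℝ, V n a ∧ 0 < a ∧ v = Real.pi * a) ∧
      (Wp n v ↔ W n v ∧ 0 < v)) ∧
    -- (D)
    (∀ n : ℕ, 1 ≤ n → (V n (1 / Real.pi) ↔ Wp n 1) ∧
      (V n (1 / Real.pi) ↔ ∀ (m : ℕ) (f : (Fin m → ℝ) → ℝ), SA (graph f) →
        (∀ᵐ x : Fin m → ℝ, 0 < f x) → Integrable f →
        ∃ P Q : MvPolynomial (Fin (m + n)) ℚ, Q ≠ 0 ∧
          (∀ z : Fin (m + n) → ℝ, MvPolynomial.aeval z Q ≠ 0 → 0 < rat P Q z) ∧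
          Integrable (fun z : Fin (m + n) → ℝ => rat P Q z) ∧
          ∀ᵐ x : Fin m → ℝ, Integrable (fun z : Fin n → ℝ => rat P Q (Fin.append x z)) ∧
            f x = ∫ z : Fin n → ℝ, rat P Q (Fin.append x z))) ∧
    -- (P)
    ((∀ x : ℝ, IsPeriod x ↔ ∃ n, 1 ≤ n ∧ W n (Real.pi * x)) ∧
      (∀ x : ℝ, 0 < x → (IsPeriod x ↔ ∃ n, 1 ≤ n ∧ V n x)) ∧
      ((∀ x ∈ ({Real.exp 1, 1 / Real.pi, Real.eulerMascheroniConstant} : Set ℝ), ¬ IsPeriod x) ↔
        ∀ n : ℕ, 1 ≤ n → ¬ W n 1 ∧ ¬ W n (Real.pi * Real.exp 1) ∧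
          ¬ W n (Real.pi * Real.eulerMascheroniConstant))) ∧
    -- (S)
    (∀ (m : ℕ) (A : (Fin m → ℝ) → ℝ),
      ((∃ A' : (Fin m → ℝ) → ℝ, SA (graph A') ∧ A =ᵐ[volume] A') ↔
        ∃ P Q : MvPolynomial (Fin (m + 1)) ℚ, Q ≠ 0 ∧ ∀ᵐ x : Fin m → ℝ,
          Integrable (fun t : ℝ => rat P Q (Fin.snoc x t : Fin (m + 1) → ℝ)) ∧
          A x = 1 / Real.pi * ∫ t : ℝ, rat P Q (Fin.snoc x t : Fin (m + 1) → ℝ)) ∧
      ((∃ A' : (Fin m → ℝ) → ℝ, SA (graph A') ∧ (∀ x, 0 < A' x) ∧ A =ᵐ[volume] A') ↔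
        ∃ P Q : MvPolynomial (Fin (m + 1)) ℚ, Q ≠ 0 ∧
          (∀ z : Fin (m + 1) → ℝ, MvPolynomial.aeval z Q ≠ 0 → 0 < rat P Q z) ∧
          ∀ᵐ x : Fin m → ℝ,
          Integrable (fun t : ℝ => rat P Q (Fin.snoc x t : Fin (m + 1) → ℝ)) ∧
          A x = 1 / Real.pi * ∫ t : ℝ, rat P Q (Fin.snoc x t : Fin (m + 1) → ℝ))) := by
  have hpi := Real.pi_pos
  have hW : ∀ (n : ℕ) (v : ℝ), 1 ≤ n →
      (W n v ↔ ∃ a b : ℝ, V n a ∧ V n b ∧ v = Real.pi * (a - b)) ∧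
      (Wp n v ↔ ∃ a : ℝ, V n a ∧ 0 < a ∧ v = Real.pi * a) := by
    intro n v hn
    obtain ⟨m, rfl⟩ : ∃ m, n = m + 1 := ⟨n - 1, by omega⟩
    refine ⟨⟨fun h => ?_, ?_⟩, ⟨fun h => thm_WSP thm_VIN m v h, ?_⟩⟩
    · obtain ⟨x, ⟨a, b, ha, hb, rfl⟩, hv⟩ := thm_WSB thm_VDI m v h
      exact ⟨a, b, ha, hb, hv⟩
    · rintro ⟨a, b, ha, hb, rfl⟩
      exact thm_WPI.1 m _ ⟨a, b, ha, hb, rfl⟩
    · rintro ⟨a, ha, h0, rfl⟩
      exact thm_WPI.2 m _ ha h0
  have hWVD : St_WVD := by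
    intro n v hn
    rw [(hW n v hn).1]
    constructor
    · rintro ⟨a, b, ha, hb, h⟩
      exact ⟨a - b, ⟨a, b, ha, hb, rfl⟩, h⟩
    · rintro ⟨x, ⟨a, b, ha, hb, rfl⟩, h⟩
      exact ⟨a, b, ha, hb, h⟩
  obtain ⟨z1, z2, -⟩ := thm_ZOL hWVD
  obtain ⟨r1, r2, r3⟩ := thm_RPI thm_HRW
  have hV0 : V 1 0 := (thm_VON 0).2 ⟨le_rfl, isAlgebraic_zero⟩
  have hP : ∀ x : ℝ, 0 < x → (IsPeriod x ↔ ∃ n, 1 ≤ n ∧ V n x) := by
    intro x hx
    rw [thm_FRZ]
    constructor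
    · rintro ⟨n, hn, a, b, ha, hb, rfl⟩
      exact ⟨n, hn, hVS n a b hn ha hb (by linarith)⟩
    · rintro ⟨n, hn, h⟩
      refine ⟨n, hn, x, 0, h, ?_, by ring⟩
      obtain ⟨m, rfl⟩ : ∃ m, n = m + 1 := ⟨n - 1, by omega⟩
      clear h hn
      induction m with
      | zero => exact hV0
      | succ m ih => exact thm_VSU _ _ ih
  have hP1 : IsPeriod (1 / Real.pi) ↔ ∃ n, 1 ≤ n ∧ V n (1 / Real.pi) := hP _ (by positivity)
  have hD : ∀ n : ℕ, 1 ≤ n → (V n (1 / Real.pi) ↔ Wp n 1) := by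
    intro n hn
    rw [(hW n 1 hn).2]
    constructor
    · intro h
      exact ⟨1 / Real.pi, h, by positivity, by field_simp⟩
    · rintro ⟨a, ha, _, h⟩
      have : 1 / Real.pi = a := by
        rw [h]
        field_simp
      rw [this]
      exact ha
  refine ⟨fun n I q P m hn hq hi h0 => (thm_MXU thm_ONB thm_MXA n I q P m hn hq hi).2 h0,
    ⟨?_, ?_, ?_, z2⟩, ?_, ?_, ⟨z1, hP, ?_⟩, thm_SPP⟩
  · intro n a hn h h0
    exact rc_of_vol thm_HRW n a hn h h0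
  · rw [hP1]
    exact r1
  · constructor
    · intro h x h0
      constructor
      · intro hx
        obtain ⟨n, hn, h1⟩ := (hP x h0).1 hx
        exact r3 (hP1.1 h) n x hn h1 h0
      · rintro ⟨n, hn, h1⟩
        exact per_of_rc n x (rc_of_rs _ _ h1)
    · intro h
      have one : IsPeriod 1 := (hP 1 one_pos).2 ⟨1, le_rfl, V_one_of 1 le_rfl⟩
      rw [hP1, r1]
      exact (h 1 one_pos).1 one
  · intro n v hn
    refine ⟨(hW n v hn).1, (hW n v hn).2, ?_⟩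
    rw [(hW n v hn).1, (hW n v hn).2]
    constructor
    · rintro ⟨a, ha, h0, rfl⟩
      refine ⟨⟨a, 0, ha, ?_, by ring⟩, mul_pos hpi h0⟩
      obtain ⟨m, rfl⟩ : ∃ m, n = m + 1 := ⟨n - 1, by omega⟩
      clear ha hn
      induction m with
      | zero => exact hV0
      | succ m ih => exact thm_VSU _ _ ih
    · rintro ⟨⟨a, b, ha, hb, rfl⟩, h0⟩
      have h1 : 0 < a - b := (mul_pos_iff_of_pos_left hpi).1 h0
      exact ⟨a - b, hVS n a b hn ha hb (by linarith), h1, rfl⟩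
  · intro n hn
    refine ⟨hD n hn, fun h m f h1 h2 h3 => ?_, fun h => ?_⟩
    · exact thm_MRG thm_SIMP n hn ((hD n hn).1 h) m f h1 h2 h3
    · rw [hD n hn]
      have hone : SA (graph (fun _ : Fin 0 → ℝ => ((1 : ℚ) : ℝ))) := SA_graph_rat 1
      obtain ⟨P, Q, hQ, hp, -, hx⟩ := h 0 (fun _ => ((1 : ℚ) : ℝ)) hone (by simp) (by
        exact integrable_const _)
      obtain ⟨x, hx1, hx2⟩ := hx.exists
      obtain ⟨e, he⟩ : ∃ e : Fin (0 + n) → Fin n, e = Fin.cast (Nat.zero_add n) := ⟨_, rfl⟩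
      have hinj : Function.Injective e := by
        rw [he]
        exact Fin.cast_injective _
      have happ : ∀ z : Fin n → ℝ, Fin.append x z = z ∘ e := by
        intro z
        have h0 : x = Fin.elim0 := Subsingleton.elim _ _
        rw [h0, he]
        exact Fin.elim0_append z
      have hrat : ∀ z : Fin n → ℝ, rat (MvPolynomial.rename e P) (MvPolynomial.rename e Q) z =
          rat P Q (Fin.append x z) := by
        intro z
        unfold rat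
        rw [MvPolynomial.aeval_rename, MvPolynomial.aeval_rename, happ]
      refine ⟨MvPolynomial.rename e P, MvPolynomial.rename e Q, ?_, ?_, ?_, ?_⟩
      · intro h0
        exact hQ (MvPolynomial.rename_injective _ hinj (by rw [h0, map_zero]))
      · simp only [hrat]
        exact hx1
      · intro z hz
        rw [hrat]
        refine hp _ ?_
        rw [MvPolynomial.aeval_rename, ← happ] at hz
        exact hz
      · simp only [hrat]
        rw [← hx2]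
        norm_num
  · constructor
    · intro h n hn
      refine ⟨fun h1 => ?_, fun h1 => ?_, fun h1 => ?_⟩
      · refine h (1 / Real.pi) (by simp) ((z1 _).2 ⟨n, hn, ?_⟩)
        have e : Real.pi * (1 / Real.pi) = 1 := by field_simp
        rw [e]
        exact h1
      · exact h (Real.exp 1) (by simp) ((z1 _).2 ⟨n, hn, h1⟩)
      · exact h Real.eulerMascheroniConstant (by simp) ((z1 _).2 ⟨n, hn, h1⟩)
    · intro h x hx hper
      obtain ⟨n, hn, h1⟩ := (z1 x).1 hper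
      obtain ⟨a1, a2, a3⟩ := h n hn
      rcases hx with rfl | rfl | hx
      · exact a2 h1
      · have e : Real.pi * (1 / Real.pi) = 1 := by field_simp
        rw [e] at h1
        exact a1 h1
      · rw [Set.mem_singleton_iff.1 hx] at h1
        exact a3 h1

end Pool.Agent.PWD
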