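import Pool.Agent.PWD.Text
import Pool.Agent.PWD.FIN

/-!
# Periods without domains: the definitions of the hand-in and those of the modules
-/

set_option autoImplicit false

open MeasureTheory

namespace Pool.Agent.PWD

open Pool.Agent.Helper23.PeriodDefs (MultiPoly evalMulti RealAlg)
open Pool.Agent.ITR (PosProd DepOn)
open Pool.Agent.PWQ

theorem br_SAFun {n : ℕ} (f : (Fin n → ℝ) → ℝ) : T.SAFun f ↔ SA (graph f) := by
  constructor
  · intro h
    have h1 : SA {z : Fin (n + 1) → ℝ | z (Fin.last n) = f (Fin.init z)} := h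
    have h2 := SA_reindex h1 (fun i : Fin (n + 1) =>
      (Fin.lastCases none (fun j => some j) i : Option (Fin n)))
    refine (congrArg SA ?_).mp h2
    ext z
    show z (Fin.lastCases none (fun j => some j) (Fin.last n)) =
      f (Fin.init fun i : Fin (n + 1) => z (Fin.lastCases none (fun j => some j) i)) ↔
      z none = f (fun i => z (some i))
    rw [Fin.lastCases_last]
    have e : (Fin.init fun i : Fin (n + 1) => z (Fin.lastCases none (fun j => some j) i)) =
        fun i => z (some i) := by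
      funext i
      show z (Fin.lastCases none (fun j => some j) (Fin.castSucc i)) = z (some i)
      rw [Fin.lastCases_castSucc]
    rw [e]
  · intro h
    have h2 := SA_reindex h (fun o : Option (Fin n) => o.elim (Fin.last n) Fin.castSucc)
    exact h2

theorem br_W (n : ℕ) (v : ℝ) : T.W n v ↔ W n v :=
  ⟨fun ⟨P, Q, h, hi, hv⟩ => ⟨P, Q, h, hi, hv.symm⟩, fun ⟨P, Q, h, hi, hv⟩ => ⟨P, Q, h, hi, hv.symm⟩⟩

theorem br_Wp (n : ℕ) (v : ℝ) : T.Wp n v ↔ Wp n v :=
  ⟨fun ⟨P, Q, ⟨h, hp⟩, hi, hv⟩ => ⟨P, Q, h, hi, hp, hv.symm⟩,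
    fun ⟨P, Q, h, hi, hp, hv⟩ => ⟨P, Q, ⟨h, hp⟩, hi, hv.symm⟩⟩

theorem br_Rs (n : ℕ) (v : ℝ) : T.Rs n v ↔ Rs n v :=
  ⟨fun ⟨A, B, h, hi, hv⟩ => ⟨A, B, h, hi, hv.symm⟩, fun ⟨A, B, h, hi, hv⟩ => ⟨A, B, h, hi, hv.symm⟩⟩

theorem br_V (n : ℕ) (v : ℝ) : T.V n v ↔ V n v := Iff.rfl

theorem br_P (x : ℝ) : T.IsPeriod x ↔ IsPeriod x := Iff.rfl

theorem br_dep {n : ℕ} (J : Set (Fin n)) (f : (Fin n → ℝ) → ℝ) (hf : T.IsPoly J f) : DepOn J f := by
  induction hf with
  | const c hc =>
    intro x y h
    rfl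
  | var i hi =>
    intro x y h
    exact h i hi
  | add hf hg ihf ihg =>
    intro x y h
    show _ + _ = _ + _
    rw [ihf x y h, ihg x y h]
  | mul hf hg ihf ihg =>
    intro x y h
    show _ * _ = _ * _
    rw [ihf x y h, ihg x y h]

theorem br_poly {n : ℕ} (J : Set (Fin n)) (f : (Fin n → ℝ) → ℝ) (hf : T.IsPoly J f) :
    ∃ p : MultiPoly n, evalMulti p = f := by
  induction hf with
  | const c hc =>
    refine ⟨MvPolynomial.C ⟨c, mem_algebraicClosure_iff.2 hc⟩, ?_⟩
    funext x
    show MvPolynomial.aeval x _ = _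
    rw [MvPolynomial.aeval_C]
    rfl
  | var i hi =>
    refine ⟨MvPolynomial.X i, ?_⟩
    funext x
    show MvPolynomial.aeval x _ = _
    rw [MvPolynomial.aeval_X]
  | add hf hg ihf ihg =>
    obtain ⟨p, rfl⟩ := ihf
    obtain ⟨q, rfl⟩ := ihg
    refine ⟨p + q, ?_⟩
    funext x
    show MvPolynomial.aeval x _ = _
    rw [map_add]
    rfl
  | mul hf hg ihf ihg =>
    obtain ⟨p, rfl⟩ := ihf
    obtain ⟨q, rfl⟩ := ihg
    refine ⟨p * q, ?_⟩
    funext x
    show MvPolynomial.aeval x _ = _
    rw [map_mul]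
    rfl

theorem br_prod_mix {n : ℕ} (I : Set (Fin n)) (q : Fin n → MultiPoly n) (k : Fin n)
    (c : RealAlg) (e : Fin n → ℕ) (hc : 0 < (c : ℝ)) (he : ∀ i ∉ I, Even (e i))
    (s : Finset (Fin n)) (hs : ∀ i ∈ s, i < k) :
    MixProd I q k (fun x => (c : ℝ) * ∏ i ∈ s, evalMulti (q i) x ^ e i) := by
  classical
  induction s using Finset.induction_on with
  | empty =>
    have h := MixProd.const (I := I) (q := q) (k := k) c hc
    refine (congrArg (MixProd I q k) ?_).mp h
    funext x
    simp
  | insert a s ha ih =>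
    have h1 := ih fun i hi => hs i (Finset.mem_insert_of_mem hi)
    have hak := hs a (Finset.mem_insert_self a s)
    have key : ∀ m : ℕ, (a ∈ I ∨ Even m) → MixProd I q k (fun x => ((c : ℝ) *
        ∏ i ∈ s, evalMulti (q i) x ^ e i) * evalMulti (q a) x ^ m) := by
      intro m hm
      rcases hm with hm | ⟨j, rfl⟩
      · induction m with
        | zero =>
          refine (congrArg (MixProd I q k) ?_).mp h1
          funext x
          simp
        | succ m ihm =>
          refine (congrArg (MixProd I q k) ?_).mp (ihm.mul (MixProd.gen a hak hm))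
          funext x
          ring
      · induction j with
        | zero =>
          refine (congrArg (MixProd I q k) ?_).mp h1
          funext x
          simp
        | succ j ihj =>
          refine (congrArg (MixProd I q k) ?_).mp (ihj.mul (MixProd.sq a hak))
          funext x
          ring
    have h2 := key (e a) (by
      by_cases hI : a ∈ I
      · exact Or.inl hI
      · exact Or.inr (he a hI))
    refine (congrArg (MixProd I q k) ?_).mp h2
    funext x
    rw [Finset.prod_insert ha]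
    ring

theorem br_prod_pos {n : ℕ} (q : Fin n → MultiPoly n) (k : Fin n)
    (c : RealAlg) (e : Fin n → ℕ) (hc : 0 < (c : ℝ))
    (s : Finset (Fin n)) (hs : ∀ i ∈ s, i < k) :
    PosProd q k (fun x => (c : ℝ) * ∏ i ∈ s, evalMulti (q i) x ^ e i) := by
  classical
  induction s using Finset.induction_on with
  | empty =>
    have h := PosProd.const (q := q) (k := k) c hc
    refine (congrArg (PosProd q k) ?_).mp h
    funext x
    simp
  | insert a s ha ih =>
    have h1 := ih fun i hi => hs i (Finset.mem_insert_of_mem hi)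
    have hak := hs a (Finset.mem_insert_self a s)
    have key : ∀ m : ℕ, PosProd q k (fun x => ((c : ℝ) *
        ∏ i ∈ s, evalMulti (q i) x ^ e i) * evalMulti (q a) x ^ m) := by
      intro m
      induction m with
      | zero =>
        refine (congrArg (PosProd q k) ?_).mp h1
        funext x
        simp
      | succ m ihm =>
        refine (congrArg (PosProd q k) ?_).mp (ihm.mul (PosProd.gen a hak))
        funext x
        ring
    refine (congrArg (PosProd q k) ?_).mp (key (e a))
    funext x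
    rw [Finset.prod_insert ha]
    ring

theorem br_isProd {n : ℕ} (I : Set (Fin n)) (q : Fin n → MultiPoly n) (k : Fin n)
    (M : (Fin n → ℝ) → ℝ) (h : T.IsProd I (fun i => evalMulti (q i)) k M) : MixProd I q k M := by
  obtain ⟨c, e, hc, ha, he, hM⟩ := h
  have h1 := br_prod_mix I q k ⟨c, mem_algebraicClosure_iff.2 ha⟩ e hc he (Finset.Iio k)
    (fun i hi => Finset.mem_Iio.1 hi)
  refine (congrArg (MixProd I q k) ?_).mp h1
  funext x
  exact (hM x).symm

theorem br_isProd_univ {n : ℕ} (q : Fin n → MultiPoly n) (k : Fin n)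
    (M : (Fin n → ℝ) → ℝ) (h : T.IsProd Set.univ (fun i => evalMulti (q i)) k M) :
    PosProd q k M := by
  obtain ⟨c, e, hc, ha, -, hM⟩ := h
  have h1 := br_prod_pos q k ⟨c, mem_algebraicClosure_iff.2 ha⟩ e hc (Finset.Iio k)
    (fun i hi => Finset.mem_Iio.1 hi)
  refine (congrArg (PosProd q k) ?_).mp h1
  funext x
  exact (hM x).symm

/-- a positive binary form comes from a positive polynomial -/
theorem br_form (d : ℕ) (c : ℕ → ℝ) (hc : ∀ j, IsAlgebraic ℚ (c j))
    (hp : ∀ u v : ℝ, u ≠ 0 ∨ v ≠ 0 → 0 < T.form d c u v) :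
    ∃ f : Polynomial RealAlg, (∀ t : ℝ, 0 < Polynomial.aeval t f) ∧
      ∀ u v : ℝ, T.form d c u v = hform f u v := by
  obtain ⟨c', hc'⟩ : ∃ c' : ℕ → RealAlg, ∀ j, (c' j : ℝ) = c j :=
    ⟨fun j => ⟨c j, mem_algebraicClosure_iff.2 (hc j)⟩, fun j => rfl⟩
  obtain ⟨f, hf⟩ : ∃ f : Polynomial RealAlg, f = ∑ j ∈ Finset.range (d + 1),
    Polynomial.monomial j (c' j) := ⟨_, rfl⟩
  have hcoef : ∀ j, j ≤ d → f.coeff j = c' j := by
    intro j hj
    rw [hf, Polynomial.finsetSum_coeff]
    simp only [Polynomial.coeff_monomial]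
    rw [Finset.sum_ite_eq' (Finset.range (d + 1)) j]
    rw [if_pos (Finset.mem_range.2 (by omega))]
  have hlead : c d ≠ 0 := by
    have h := hp 1 0 (Or.inl one_ne_zero)
    intro h0
    have e : T.form d c 1 0 = 0 := by
      unfold T.form
      refine Finset.sum_eq_zero fun j hj => ?_
      rcases Nat.lt_or_ge j d with h1 | h1
      · rw [zero_pow (by omega), mul_zero]
      · have : j = d := by
          have := Finset.mem_range.1 hj
          omega
        rw [this, h0, zero_mul, zero_mul]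
    rw [e] at h
    exact lt_irrefl _ h
  have hdeg : f.natDegree = d := by
    refine Polynomial.natDegree_eq_of_le_of_coeff_ne_zero ?_ ?_
    · rw [hf]
      refine Polynomial.natDegree_sum_le_of_forall_le _ _ fun j hj => ?_
      refine (Polynomial.natDegree_monomial_le _).trans ?_
      have := Finset.mem_range.1 hj
      omega
    · rw [hcoef d le_rfl]
      intro h0
      apply hlead
      rw [← hc' d, h0]
      rfl
  have hval : ∀ u v : ℝ, T.form d c u v = hform f u v := by
    intro u v
    unfold T.form hform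
    rw [hdeg]
    refine Finset.sum_congr rfl fun j hj => ?_
    have := Finset.mem_range.1 hj
    rw [hcoef j (by omega), hc']
  refine ⟨f, fun t => ?_, hval⟩
  have h1 := hp t 1 (Or.inr one_ne_zero)
  have e : Polynomial.aeval t f = T.form d c t 1 := by
    rw [hf, map_sum]
    unfold T.form
    refine Finset.sum_congr rfl fun j _ => ?_
    rw [Polynomial.aeval_monomial, one_pow, mul_one, ← hc' j]
    rfl
  rw [e]
  exact h1

theorem br_tower {n : ℕ} (I : Set (Fin n)) (q : Fin n → (Fin n → ℝ) → ℝ) (h : T.MixTower I q) :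
    ∃ q' : Fin n → MultiPoly n, (∀ k, evalMulti (q' k) = q k) ∧ MixTower I q' := by
  choose q' hq' using fun k => br_poly _ _ (h k).1
  refine ⟨q', hq', ?_⟩
  obtain rfl : q = fun i => evalMulti (q' i) := by
    funext i
    exact (hq' i).symm
  intro k
  obtain ⟨h1, M, s, b, hb, h2⟩ := h k
  obtain ⟨b', hb'⟩ := br_poly _ _ hb
  have hbd := br_dep _ _ hb
  rw [← hb'] at hbd
  refine ⟨br_dep _ _ h1, M, s, b', hbd, ?_⟩
  rw [← hb'] at h2
  rcases h2 with ⟨hk, hM, hs, he⟩ | ⟨hk, hM, hs, d, c, hc, hp, he⟩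
  · exact Or.inl ⟨hk, br_isProd I q' k M hM, br_isProd I q' k s hs, he⟩
  · obtain ⟨f, hf, hv⟩ := br_form d c hc hp
    refine Or.inr ⟨hk, br_isProd_univ q' k M hM, br_isProd_univ q' k s hs, f, hf, fun x => ?_⟩
    rw [← hv]
    exact he x

end Pool.Agent.PWD
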