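import Pool.Agent.PWD.NUM

/-!
# Periods without domains: the chain of multipliers at a point
-/

set_option autoImplicit false

namespace Pool.Agent.PWD

theorem chn_pos {k : ℕ} (r K L : Fin k → ℝ) (M : Fin (k + 1) → ℝ) (hr : ∀ i, r i ≠ 0)
    (hK : ∀ i, 1 ≤ K i) (h1 : M (Fin.last k) = ∏ i, r i ^ 2)
    (h2 : ∀ i, L i * r i ^ 2 = (1 + r i ^ 2) * K i * M i.succ)
    (h3 : ∀ i, M i.castSucc = M i.succ + L i * K i) :
    (∀ i, 0 < M i) ∧ ∀ i, 0 ≤ L i := by
  have hL : ∀ i, 0 < M i.succ → 0 ≤ L i := by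
    intro i hi
    have hr2 : 0 < r i ^ 2 := by
      have := hr i
      positivity
    have h4 : 0 < L i * r i ^ 2 := by
      rw [h2]
      have := hK i
      positivity
    exact (pos_of_mul_pos_left h4 hr2.le).le
  have hM : ∀ i, 0 < M i := by
    intro i
    induction i using Fin.reverseInduction with
    | last =>
      rw [h1]
      exact Finset.prod_pos fun i _ => by
        have := hr i
        positivity
    | cast i ih =>
      rw [h3]
      have := hL i ih
      have := hK i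
      positivity
  exact ⟨hM, fun i => hL i (hM _)⟩

theorem chn_ineq {k : ℕ} (r K L : Fin k → ℝ) (M : Fin (k + 1) → ℝ) (w : Fin k → ℝ) (N : ℝ)
    (hr : ∀ i, r i ≠ 0)
    (hK : ∀ i, 1 ≤ K i) (h1 : M (Fin.last k) = ∏ i, r i ^ 2)
    (h2 : ∀ i, L i * r i ^ 2 = (1 + r i ^ 2) * K i * M i.succ)
    (h3 : ∀ i, M i.castSucc = M i.succ + L i * K i) (hN : 0 ≤ N)
    (hw1 : ∀ i, r i ^ 2 ≤ (1 + r i ^ 2) * K i * w i) (hw2 : ∀ i, w i ≤ K i) :
    (∀ i, 0 ≤ N * L i) ∧ (∀ i, N * M i.succ ≤ N * L i * w i) ∧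
      (∀ i, N * M i.succ + N * L i * w i ≤ N * M i.castSucc) := by
  obtain ⟨hM, hL⟩ := chn_pos r K L M hr hK h1 h2 h3
  refine ⟨fun i => mul_nonneg hN (hL i), fun i => ?_, fun i => ?_⟩
  · rw [mul_assoc]
    refine mul_le_mul_of_nonneg_left ?_ hN
    have hr2 : 0 < r i ^ 2 := by
      have := hr i
      positivity
    refine le_of_mul_le_mul_right ?_ hr2
    calc M i.succ * r i ^ 2 ≤ M i.succ * ((1 + r i ^ 2) * K i * w i) :=
          mul_le_mul_of_nonneg_left (hw1 i) (hM _).le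
      _ = L i * w i * r i ^ 2 := by linear_combination (-(w i)) * h2 i
  · rw [h3, mul_assoc, ← mul_add]
    refine mul_le_mul_of_nonneg_left ?_ hN
    have := mul_le_mul_of_nonneg_left (hw2 i) (hL i)
    linarith

end Pool.Agent.PWD
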