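import Mathlib

/-!
# PWD [DCA]: integrable rational functions of one variable, poles and degrees
-/

set_option autoImplicit false

open MeasureTheory Filter Topology Polynomial Asymptotics

namespace Pool.Agent.PWD

theorem dca_root (p q : ℝ[X]) (hq : q ≠ 0) (hc : IsCoprime p q)
    (hi : Integrable (fun t : ℝ => p.eval t / q.eval t)) (r : ℝ) : q.eval r ≠ 0 := by
  intro hr
  obtain ⟨s, hs⟩ := dvd_iff_isRoot.2 (show q.IsRoot r from hr)
  have hpr : p.eval r ≠ 0 := by
    obtain ⟨u, v, huv⟩ := hc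
    intro h
    have := congrArg (eval r) huv
    rw [eval_add, eval_mul, eval_mul, h, hr] at this
    simp at this
  have hfin : ∀ᶠ x in 𝓝[≠] r, q.eval x ≠ 0 := by
    have h1 : (q.rootSet ℝ).Finite := q.rootSet_finite ℝ
    have h2 : ∀ᶠ x in 𝓝[≠] r, x ∉ q.rootSet ℝ := by
      have h3 : (q.rootSet ℝ \ {r}).Finite := h1.subset Set.sdiff_subset
      have h4 : (q.rootSet ℝ \ {r})ᶜ ∈ 𝓝 r :=
        h3.isClosed.isOpen_compl.mem_nhds (by simp)
      have h5 : (q.rootSet ℝ \ {r})ᶜ ∈ 𝓝[≠] r := mem_nhdsWithin_of_mem_nhds h4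
      filter_upwards [h5, self_mem_nhdsWithin] with x hx hx2 hx3
      exact hx ⟨hx3, hx2⟩
    filter_upwards [h2] with x hx h
    exact hx ((mem_rootSet_of_ne hq).2 (by simpa [aeval_def] using h))
  have hpn : ∀ᶠ x in 𝓝[≠] r, p.eval x ≠ 0 :=
    (p.continuous.continuousAt.eventually_ne hpr).filter_mono nhdsWithin_le_nhds
  have hbig : (fun x : ℝ => (x - r)⁻¹) =O[𝓝[≠] r] fun t : ℝ => p.eval t / q.eval t := by
    have hb : (fun x : ℝ => s.eval x / p.eval x) =O[𝓝[≠] r] fun _ : ℝ => (1 : ℝ) := by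
      have : Tendsto (fun x : ℝ => s.eval x / p.eval x) (𝓝[≠] r) (𝓝 (s.eval r / p.eval r)) :=
        (s.continuous.continuousAt.div p.continuous.continuousAt hpr).mono_left
          nhdsWithin_le_nhds
      exact this.isBigO_one ℝ
    have h1 : (fun x : ℝ => (p.eval x / q.eval x) * (s.eval x / p.eval x)) =O[𝓝[≠] r]
        fun t : ℝ => p.eval t / q.eval t * 1 := (isBigO_refl _ _).mul hb
    refine (h1.congr' ?_ ?_)
    · filter_upwards [hfin, hpn, self_mem_nhdsWithin] with x hx hx2 hx3
      have h4 : x - r ≠ 0 := sub_ne_zero.2 hx3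
      have h5 : q.eval x = (x - r) * s.eval x := by
        rw [hs]
        simp
      rw [h5] at hx ⊢
      have h6 : s.eval x ≠ 0 := right_ne_zero_of_mul hx
      field_simp
    · exact Eventually.of_forall fun x => by simp
  exact not_intervalIntegrable_of_sub_inv_isBigO_punctured hbig (a := r) (b := r + 1)
    (by simp) (by simp) hi.intervalIntegrable

theorem dca_deg (p q : ℝ[X]) (hp : p ≠ 0) (hq : q ≠ 0)
    (hi : Integrable (fun t : ℝ => p.eval t / q.eval t)) : p.natDegree + 2 ≤ q.natDegree := by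
  by_contra hlt
  have hbig : (fun x : ℝ => x⁻¹) =O[atTop] fun t : ℝ => p.eval t / q.eval t := by
    have h1 := isEquivalent_atTop_div p q
    refine IsBigO.trans ?_ h1.symm.isBigO
    have hc : p.leadingCoeff / q.leadingCoeff ≠ 0 :=
      div_ne_zero (leadingCoeff_ne_zero.2 hp) (leadingCoeff_ne_zero.2 hq)
    have h2 : (fun x : ℝ => x⁻¹) =O[atTop] fun x : ℝ =>
        x ^ ((p.natDegree : ℤ) - q.natDegree) := by
      refine IsBigO.of_bound 1 ?_
      filter_upwards [eventually_ge_atTop (1 : ℝ)] with x hx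
      have hx0 : 0 < x := by linarith
      rw [one_mul, Real.norm_of_nonneg (by positivity), Real.norm_of_nonneg (by positivity),
        ← zpow_neg_one]
      exact zpow_le_zpow_right₀ hx (by omega)
    exact h2.trans (isBigO_const_mul_self (p.leadingCoeff / q.leadingCoeff)⁻¹ _ _ |>.congr
      (fun x => by rw [inv_mul_cancel_left₀ hc]) (fun x => rfl))
  have h3 : IntegrableAtFilter (fun x : ℝ => x⁻¹) atTop volume := by
    refine hbig.integrableAtFilter ?_ (hi.integrableAtFilter atTop)
    exact (measurable_inv.stronglyMeasurable).aestronglyMeasurable.stronglyMeasurableAtFilter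
  obtain ⟨s, hs, hs2⟩ := h3
  obtain ⟨a, ha⟩ := mem_atTop_sets.1 hs
  exact not_integrableOn_Ioi_inv (hs2.mono_set (s := Set.Ioi a) fun x hx => ha x (le_of_lt hx))

/-- A real polynomial without real roots is a constant times a product of quadratics. -/
theorem dca_fac (n : ℕ) : ∀ q : ℝ[X], q.natDegree ≤ n → q ≠ 0 → (∀ r : ℝ, q.eval r ≠ 0) →
    ∃ (c : ℝ) (d : ℕ) (z : Fin d → ℂ), c ≠ 0 ∧ (∀ j, 0 < (z j).im) ∧ q.natDegree = 2 * d ∧
      q.map (algebraMap ℝ ℂ) =
        C (c : ℂ) * ∏ j, ((X - C (z j)) * (X - C ((starRingEnd ℂ) (z j)))) := by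
  induction n using Nat.strong_induction_on with
  | _ n ih =>
    intro q hn hq hr
    by_cases h0 : q.natDegree = 0
    · obtain ⟨c, hc⟩ := natDegree_eq_zero.1 h0
      refine ⟨c, 0, Fin.elim0, ?_, fun j => Fin.elim0 j, by rw [h0], ?_⟩
      · rintro rfl
        exact hq (by rw [← hc]; simp)
      · rw [← hc]
        simp
    · have hdeg : 0 < (q.map (algebraMap ℝ ℂ)).degree := by
        rw [degree_map]
        exact natDegree_pos_iff_degree_pos.1 (Nat.pos_of_ne_zero h0)
      obtain ⟨w, hw⟩ := Complex.exists_root hdeg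
      have hw1 : aeval w q = 0 := by
        rw [IsRoot, eval_map, ← aeval_def] at hw
        exact hw
      have him : w.im ≠ 0 := by
        intro h
        have h1 : w = ((w.re : ℝ) : ℂ) := by
          apply Complex.ext <;> simp [h]
        rw [h1, aeval_def, ← Complex.coe_algebraMap, eval₂_at_apply] at hw1
        have h2 : q.eval w.re = 0 := by
          have := hw1
          simpa using this
        exact hr _ h2
      obtain ⟨z₀, hz₀, hz1⟩ : ∃ z₀ : ℂ, 0 < z₀.im ∧ aeval z₀ q = 0 := by
        rcases lt_or_gt_of_ne him with h | h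
        · refine ⟨(starRingEnd ℂ) w, by simpa using h, ?_⟩
          rw [aeval_conj, hw1, map_zero]
        · exact ⟨w, h, hw1⟩
      obtain ⟨s, hs⟩ := quadratic_dvd_of_aeval_eq_zero_im_ne_zero q hz1 hz₀.ne'
      have hs0 : s ≠ 0 := by
        rintro rfl
        exact hq (by rw [hs]; simp)
      have hquad : (X ^ 2 - C (2 * z₀.re) * X + C (‖z₀‖ ^ 2) : ℝ[X]).natDegree = 2 := by
        have : (X ^ 2 - C (2 * z₀.re) * X + C (‖z₀‖ ^ 2) : ℝ[X]) =
          C 1 * X ^ 2 + C (-(2 * z₀.re)) * X + C (‖z₀‖ ^ 2) := by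
          simp only [map_one, one_mul, map_neg, map_mul]
          ring
        rw [this]
        exact natDegree_quadratic one_ne_zero
      have hquad0 : (X ^ 2 - C (2 * z₀.re) * X + C (‖z₀‖ ^ 2) : ℝ[X]) ≠ 0 := by
        intro h
        rw [h] at hquad
        simp at hquad
      have hsd : q.natDegree = 2 + s.natDegree := by
        rw [hs, natDegree_mul hquad0 hs0, hquad]
      have hsr : ∀ r : ℝ, s.eval r ≠ 0 := by
        intro r h
        apply hr r
        rw [hs, eval_mul, h, mul_zero]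
      obtain ⟨c, d, z, hc, hz, hd, he⟩ := ih s.natDegree (by omega) s le_rfl hs0 hsr
      refine ⟨c, d + 1, Fin.cons z₀ z, hc, ?_, by omega, ?_⟩
      · intro j
        refine Fin.cases ?_ (fun j => ?_) j
        · simpa using hz₀
        · simpa using hz j
      · rw [hs, Polynomial.map_mul, he, Fin.prod_univ_succ]
        simp only [Fin.cons_zero, Fin.cons_succ]
        have hq2 : (X ^ 2 - C (2 * z₀.re) * X + C (‖z₀‖ ^ 2) : ℝ[X]).map (algebraMap ℝ ℂ) =
            (X - C z₀) * (X - C ((starRingEnd ℂ) z₀)) := by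
          simp only [Polynomial.map_add, Polynomial.map_sub, Polynomial.map_mul,
            Polynomial.map_pow, map_X, map_C, Complex.coe_algebraMap]
          have e1 : ((‖z₀‖ ^ 2 : ℝ) : ℂ) = z₀ * (starRingEnd ℂ) z₀ := by
            rw [Complex.mul_conj, Complex.normSq_eq_norm_sq]
          have e2 : ((2 * z₀.re : ℝ) : ℂ) = z₀ + (starRingEnd ℂ) z₀ := by
            rw [Complex.add_conj]
          rw [e1, e2]
          simp only [map_mul, map_add]
          ring
        rw [hq2]
        ring

end Pool.Agent.PWD
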