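import Pool.Agent.PWD.DefF

/-!
# Integrals of reciprocals of polynomials
-/

set_option autoImplicit false

open MeasureTheory

namespace Pool.Agent.PWD

/-- `v` is the convergent integral over `ℝⁿ` of `1 / D`, where `D` is a polynomial over `ℚ` which is
positive on `ℝⁿ`. -/
def Rc (n : ℕ) (v : ℝ) : Prop :=
  ∃ D : MvPolynomial (Fin n) ℚ, (∀ x : Fin n → ℝ, 0 < MvPolynomial.aeval x D) ∧
    Integrable (fun x : Fin n → ℝ => 1 / MvPolynomial.aeval x D) ∧
    v = ∫ x : Fin n → ℝ, 1 / MvPolynomial.aeval x D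

/-- `v` is the convergent integral over `ℝⁿ` of `1 / (A² + B²)`, where `A` and `B` are polynomials
over `ℚ` without common real zero; in other words the square of the norm of `1 / F` in `L²(ℝⁿ)`,
where `F = A + i B` is a polynomial over `ℚ(i)` without zeros in `ℝⁿ`. -/
def Rs (n : ℕ) (v : ℝ) : Prop :=
  ∃ A B : MvPolynomial (Fin n) ℚ,
    (∀ x : Fin n → ℝ, 0 < MvPolynomial.aeval x A ^ 2 + MvPolynomial.aeval x B ^ 2) ∧
    Integrable (fun x : Fin n → ℝ =>
      1 / (MvPolynomial.aeval x A ^ 2 + MvPolynomial.aeval x B ^ 2)) ∧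
    v = ∫ x : Fin n → ℝ, 1 / (MvPolynomial.aeval x A ^ 2 + MvPolynomial.aeval x B ^ 2)

/-- The integral of the reciprocal of the squared absolute value of a stable cubic polynomial on
the imaginary axis. -/
def St_HRW : Prop := ∀ f0 f1 f2 : ℝ, 0 < f0 → 0 < f1 → 0 < f2 → f0 < f1 * f2 →
  Integrable (fun t : ℝ => 1 / ((1 - f1 * t ^ 2) ^ 2 + t ^ 2 * (f2 - f0 * t ^ 2) ^ 2)) ∧
    (∫ t : ℝ, 1 / ((1 - f1 * t ^ 2) ^ 2 + t ^ 2 * (f2 - f0 * t ^ 2) ^ 2)) =
      Real.pi * f1 / (f1 * f2 - f0)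

end Pool.Agent.PWD
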