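import Pool.Agent.PWD.PTW
import Pool.Agent.PWD.BND

set_option autoImplicit false

open MeasureTheory

namespace Pool.Agent.PWD

theorem fib_scale (S : ℝ) (hS : 0 < S) (f : ℝ → ℂ) (hf : Integrable f) :
    Integrable (fun t : ℝ => (S : ℂ) * f (S * t)) ∧
      (∫ t : ℝ, (S : ℂ) * f (S * t)) = ∫ t : ℝ, f t := by
  refine ⟨(hf.comp_mul_left' hS.ne').const_mul _, ?_⟩
  rw [integral_const_mul, Measure.integral_comp_mul_left f S, abs_of_pos (inv_pos.mpr hS)]
  rw [Complex.real_smul, ← mul_assoc, ← Complex.ofReal_mul, mul_inv_cancel₀ hS.ne',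
    Complex.ofReal_one, one_mul]

theorem thm_FIB : St_FIB := by
  intro k a σ l L M G S m q hl hL h1 h2 h3 h4 hG hm hq hGm hS hS2
  have hSn : 0 ≤ S := by
    have : 0 ≤ l * ‖a‖ + ∑ i, L i * ‖σ i‖ :=
      add_nonneg (mul_nonneg hl (norm_nonneg _))
        (Finset.sum_nonneg fun i _ => mul_nonneg (hL i) (norm_nonneg _))
    linarith
  have hS0 : 0 < S := by
    rcases hSn.lt_or_eq with h | h
    · exact h
    · exfalso
      rw [← h] at hS2
      have := pow_pos hm 2
      nlinarith
  have hcn : ∀ ε : Fin k → Bool, 2 * |(cen l L a σ ε).re| ≤ S := by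
    intro ε
    refine le_trans ?_ hS
    have : ‖cen l L a σ ε‖ ≤ l * ‖a‖ + ∑ i, L i * ‖σ i‖ := by
      unfold cen
      refine (norm_add_le _ _).trans (add_le_add (le_of_eq ?_) ((sgn_norm _ _).trans
        (le_of_eq ?_)))
      · rw [norm_mul, Complex.norm_real, Real.norm_of_nonneg hl]
      · refine Finset.sum_congr rfl fun i _ => ?_
        rw [norm_mul, Complex.norm_real, Real.norm_of_nonneg (hL _)]
    have h5 := (Complex.abs_re_le_norm (cen l L a σ ε)).trans this
    linarith
  have hsc := fun ε : Fin k → Bool => fib_scale S hS0 (ker G (cen l L a σ ε))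
  by_cases hsel : a.im = 0 ∧ ∀ i, (σ i).im = 0
  · have him : ∀ ε : Fin k → Bool, (cen l L a σ ε).im = 0 := by
      intro ε
      unfold cen sgn
      rw [Complex.add_im, Complex.im_ofReal_mul, hsel.1, mul_zero, zero_add, Complex.im_sum]
      refine Finset.sum_eq_zero fun i _ => ?_
      split_ifs
      · rw [Complex.im_ofReal_mul, hsel.2, mul_zero]
      · rw [Complex.neg_im, Complex.im_ofReal_mul, hsel.2, mul_zero, neg_zero]
    have hk := fun ε => (thm_KRN G (cen l L a σ ε) hG).1 (him ε)
    refine ⟨?_, ?_, fun _ => ⟨?_, ?_⟩, fun h => absurd hsel h⟩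
    · intro ε t
      exact ((hk ε).2.2 (S * t)).1
    · exact integrable_finset_sum _ fun ε _ => (hsc ε (hk ε).1).1
    · rw [integral_finset_sum _ fun ε _ => (hsc ε (hk ε).1).1]
      rw [Finset.sum_congr rfl fun ε _ => ((hsc ε (hk ε).1).2.trans (hk ε).2.1)]
      rw [Finset.sum_const, Finset.card_univ, Fintype.card_fun, Fintype.card_bool,
        Fintype.card_fin, nsmul_eq_mul]
      push_cast
      ring
    · intro t
      constructor
      · rw [Complex.im_sum]
        refine Finset.sum_eq_zero fun ε _ => ?_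
        rw [Complex.im_ofReal_mul, ((hk ε).2.2 (S * t)).2.1, mul_zero]
      · rw [Complex.re_sum]
        refine Finset.sum_nonneg fun ε _ => ?_
        rw [Complex.re_ofReal_mul]
        exact mul_nonneg hSn ((hk ε).2.2 (S * t)).2.2
  · have h5 : a.im ≠ 0 ∨ ∃ i, (σ i).im ≠ 0 := by
      by_contra hcon
      push Not at hcon
      exact hsel hcon
    have hb : ∀ ε : Fin k → Bool, G + m ≤ |(cen l L a σ ε).im| := fun ε =>
      hGm.trans (thm_BND k a σ l L M hl hL h1 h2 h3 h4 h5 ε)
    have hk := fun ε => (thm_KRN G (cen l L a σ ε) hG).2 (by linarith [hb ε])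
    refine ⟨?_, ?_, fun h => absurd h hsel, fun _ => ⟨?_, ?_⟩⟩
    · intro ε t
      exact ((hk ε).2.2 (S * t)).1
    · exact integrable_finset_sum _ fun ε _ => (hsc ε (hk ε).1).1
    · rw [integral_finset_sum _ fun ε _ => (hsc ε (hk ε).1).1]
      exact Finset.sum_eq_zero fun ε _ => ((hsc ε (hk ε).1).2.trans (hk ε).2.1)
    · intro t
      refine (norm_sum_le _ _).trans ?_
      refine (Finset.sum_le_sum fun ε _ =>
        thm_PTW G S m q t (cen l L a σ ε) hG hm (hb ε) (hcn ε) hS2 hq).trans (le_of_eq ?_)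
      rw [Finset.sum_const, Finset.card_univ, Fintype.card_fun, Fintype.card_bool,
        Fintype.card_fin, nsmul_eq_mul]
      push_cast
      ring

end Pool.Agent.PWD
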