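import Pool.Agent.PWD.VIN

/-!
# The set of periods in the frozen form: additivity
-/

set_option autoImplicit false

open MeasureTheory Pool.Agent.PWQ

namespace Pool.Agent.PWD

/-- the same as `IsPeriod` with a finite index type -/
def IsPeriodG (x : ℝ) : Prop :=
  ∃ (J : Type) (_ : Fintype J) (n m : J → ℕ)
    (p : ∀ j : J, Fin (m j) → MvPolynomial (Fin (n j)) ℚ)
    (P Q : ∀ j : J, MvPolynomial (Fin (n j)) ℚ),
    (∀ j : J,
      MeasureTheory.IntegrableOn
        (fun y : Fin (n j) → ℝ => MvPolynomial.aeval y (P j) / MvPolynomial.aeval y (Q j))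
        {y : Fin (n j) → ℝ | ∀ i, 0 ≤ MvPolynomial.aeval y (p j i)}) ∧
    x = ∑ j : J,
      ∫ y in {y : Fin (n j) → ℝ | ∀ i, 0 ≤ MvPolynomial.aeval y (p j i)},
        MvPolynomial.aeval y (P j) / MvPolynomial.aeval y (Q j)

theorem isPeriod_iff (x : ℝ) : IsPeriod x ↔ IsPeriodG x := by
  constructor
  · rintro ⟨k, n, m, p, P, Q, h1, h2⟩
    exact ⟨Fin k, inferInstance, n, m, p, P, Q, h1, h2⟩
  · rintro ⟨J, hJ, n, m, p, P, Q, h1, h2⟩
    let e := (Fintype.equivFin J).symm
    refine ⟨Fintype.card J, fun j => n (e j), fun j => m (e j), fun j => p (e j),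
      fun j => P (e j), fun j => Q (e j), fun j => h1 (e j), ?_⟩
    rw [h2]
    exact (Equiv.sum_comp e (fun j => ∫ y in {y : Fin (n j) → ℝ |
      ∀ i, 0 ≤ MvPolynomial.aeval y (p j i)},
        MvPolynomial.aeval y (P j) / MvPolynomial.aeval y (Q j))).symm

theorem IsPeriodG.add {x y : ℝ} (hx : IsPeriodG x) (hy : IsPeriodG y) : IsPeriodG (x + y) := by
  obtain ⟨J, hJ, n, m, p, P, Q, h1, h2⟩ := hx
  obtain ⟨J', hJ', n', m', p', P', Q', h1', h2'⟩ := hy
  refine ⟨J ⊕ J', inferInstance, Sum.elim n n', Sum.elim m m',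
    fun j => Sum.rec (motive := fun j => Fin (Sum.elim m m' j) →
      MvPolynomial (Fin (Sum.elim n n' j)) ℚ) p p' j,
    fun j => Sum.rec (motive := fun j => MvPolynomial (Fin (Sum.elim n n' j)) ℚ) P P' j,
    fun j => Sum.rec (motive := fun j => MvPolynomial (Fin (Sum.elim n n' j)) ℚ) Q Q' j, ?_, ?_⟩
  · rintro (j | j)
    · exact h1 j
    · exact h1' j
  · rw [Fintype.sum_sum_type, h2, h2']
    rfl

theorem IsPeriodG.neg {x : ℝ} (hx : IsPeriodG x) : IsPeriodG (-x) := by
  obtain ⟨J, hJ, n, m, p, P, Q, h1, h2⟩ := hx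
  refine ⟨J, hJ, n, m, p, fun j => - P j, Q, ?_, ?_⟩
  · intro j
    have h3 := (h1 j).neg
    have h4 : (fun y : Fin (n j) → ℝ => MvPolynomial.aeval y (-P j) / MvPolynomial.aeval y (Q j)) =
        - (fun y : Fin (n j) → ℝ => MvPolynomial.aeval y (P j) / MvPolynomial.aeval y (Q j)) := by
      funext y
      simp [neg_div]
    rw [h4]
    exact h3
  · rw [h2, ← Finset.sum_neg_distrib]
    apply Finset.sum_congr rfl
    intro j _
    rw [← integral_neg]
    congr 1
    funext y
    rw [map_neg, neg_div]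

theorem IsPeriodG.zero : IsPeriodG 0 :=
  ⟨Empty, inferInstance, fun j => j.elim, fun j => j.elim, fun j => j.elim, fun j => j.elim,
    fun j => j.elim, fun j => j.elim, by simp⟩

theorem IsPeriodG.sum {α : Type} (s : Finset α) (f : α → ℝ) (h : ∀ a ∈ s, IsPeriodG (f a)) :
    IsPeriodG (∑ a ∈ s, f a) := by
  classical
  induction s using Finset.induction_on with
  | empty => simpa using IsPeriodG.zero
  | insert a s ha ih =>
    rw [Finset.sum_insert ha]
    exact (h a (Finset.mem_insert_self _ _)).add (ih fun b hb => h b (Finset.mem_insert_of_mem hb))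

theorem IsPeriodG.basic {n : ℕ} {κ : Type} [Fintype κ] (q : κ → MvPolynomial (Fin n) ℚ)
    (hfin : volume {y : Fin n → ℝ | ∀ i, 0 ≤ MvPolynomial.aeval y (q i)} ≠ ⊤) :
    IsPeriodG (volume {y : Fin n → ℝ | ∀ i, 0 ≤ MvPolynomial.aeval y (q i)}).toReal := by
  let e := Fintype.equivFin κ
  have hset : {y : Fin n → ℝ | ∀ i, 0 ≤ MvPolynomial.aeval y (q (e.symm i))} =
      {y : Fin n → ℝ | ∀ i, 0 ≤ MvPolynomial.aeval y (q i)} := by
    ext y
    constructor
    · intro h i
      have := h (e i)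
      rwa [Equiv.symm_apply_apply] at this
    · intro h i
      exact h _
  refine ⟨Unit, inferInstance, fun _ => n, fun _ => Fintype.card κ, fun _ i => q (e.symm i),
    fun _ => 1, fun _ => 1, ?_, ?_⟩
  · intro _
    rw [hset]
    simp only [map_one, div_one]
    exact integrableOn_const hfin
  · show _ = ∑ _j : Unit, ∫ y in {y : Fin n → ℝ | ∀ i : Fin (Fintype.card κ),
      0 ≤ MvPolynomial.aeval y (q (e.symm i))},
        MvPolynomial.aeval y (1 : MvPolynomial (Fin n) ℚ) /
          MvPolynomial.aeval y (1 : MvPolynomial (Fin n) ℚ)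
    rw [hset]
    simp [Measure.real]

end Pool.Agent.PWD
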