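import Pool.Agent.PWD.FRA
import Pool.Agent.PWD.ZNL

/-!
# Volumes of semialgebraic sets are periods in the frozen form
-/

set_option autoImplicit false

open MeasureTheory Pool.Agent.PWQ

namespace Pool.Agent.PWD

theorem V_isPeriodG {n : ℕ} {v : ℝ} (hv : V n v) : IsPeriodG v := by
  classical
  obtain ⟨S, hS, hfin, rfl⟩ := hv
  have hmS : MeasurableSet S := measurableSet_of_SA hS
  obtain ⟨P, hP⟩ := hS
  set P0 : Finset (MvPolynomial (Fin n) ℚ) := P.filter (fun p => p ≠ 0) with hP0
  -- signed polynomials and their basic closed sets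
  let q : (P0 → Bool) → P0 → MvPolynomial (Fin n) ℚ := fun σ p =>
    if σ p = true then (p : MvPolynomial (Fin n) ℚ) else -p
  let D : (P0 → Bool) → Set (Fin n → ℝ) := fun σ => {y | ∀ p, 0 ≤ MvPolynomial.aeval y (q σ p)}
  let C : (P0 → Bool) → Set (Fin n → ℝ) := fun σ => {y | ∀ p, 0 < MvPolynomial.aeval y (q σ p)}
  let G : Finset (P0 → Bool) := Finset.univ.filter (fun σ => C σ ⊆ S)
  have hgen : ∀ᵐ y : Fin n → ℝ, ∀ p ∈ P0, MvPolynomial.aeval y p ≠ 0 :=
    (Filter.eventually_all_finset P0).2 (fun p hp => ae_aeval_ne p (Finset.mem_filter.1 hp).2)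
  let s : (Fin n → ℝ) → P0 → Bool := fun y p =>
    decide (0 < MvPolynomial.aeval y (p : MvPolynomial (Fin n) ℚ))
  have hDs : ∀ y : Fin n → ℝ, (∀ p ∈ P0, MvPolynomial.aeval y p ≠ 0) → ∀ σ, y ∈ D σ → σ = s y := by
    intro y hy σ hσ
    funext p
    have h1 : 0 ≤ MvPolynomial.aeval y (q σ p) := hσ p
    have h2 := hy p p.2
    simp only [q, s] at h1 ⊢
    cases h3 : σ p with
    | true =>
      rw [h3] at h1
      simp only [if_true] at h1
      symm
      rw [decide_eq_true_iff]
      exact lt_of_le_of_ne h1 (Ne.symm h2)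
    | false =>
      rw [h3] at h1
      simp only [Bool.false_eq_true, if_false, map_neg] at h1
      symm
      rw [decide_eq_false_iff_not]
      linarith
  have hCs : ∀ y : Fin n → ℝ, (∀ p ∈ P0, MvPolynomial.aeval y p ≠ 0) → y ∈ C (s y) := by
    intro y hy p
    show 0 < MvPolynomial.aeval y (if s y p = true then (p : MvPolynomial (Fin n) ℚ) else -p)
    have h2 := hy p p.2
    by_cases h3 : 0 < MvPolynomial.aeval y (p : MvPolynomial (Fin n) ℚ)
    · have h4 : s y p = true := decide_eq_true h3
      rw [h4]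
      simpa using h3
    · have h4 : s y p = false := decide_eq_false h3
      rw [h4]
      simp only [Bool.false_eq_true, if_false, map_neg]
      have := lt_of_le_of_ne (not_lt.1 h3) h2
      linarith
  have hCD : ∀ σ, C σ ⊆ D σ := fun σ y hy p => (hy p).le
  have hSG : ∀ y : Fin n → ℝ, (∀ p ∈ P0, MvPolynomial.aeval y p ≠ 0) → (y ∈ S ↔ s y ∈ G) := by
    intro y hy
    constructor
    · intro hyS
      refine Finset.mem_filter.2 ⟨Finset.mem_univ _, ?_⟩
      intro y' hy'
      apply hP y y' _ hyS
      intro p hp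
      by_cases hp0 : p = 0
      · rw [hp0]
        simp
      · have hpP : p ∈ P0 := Finset.mem_filter.2 ⟨hp, hp0⟩
        have h1 := hCs y hy ⟨p, hpP⟩
        have h2 := hy' ⟨p, hpP⟩
        simp only [q] at h1 h2
        cases h3 : s y ⟨p, hpP⟩ with
        | true =>
          rw [h3] at h1 h2
          simp only [if_true] at h1 h2
          rw [sign_pos h1, sign_pos h2]
        | false =>
          rw [h3] at h1 h2
          simp only [Bool.false_eq_true, if_false, map_neg] at h1 h2
          rw [sign_neg (by linarith), sign_neg (by linarith)]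
    · intro h
      exact (Finset.mem_filter.1 h).2 (hCs y hy)
  have hDm : ∀ σ, MeasurableSet (D σ) := by
    intro σ
    have h1 : D σ = ⋂ p : P0, {y | 0 ≤ MvPolynomial.aeval y (q σ p)} := by
      ext y
      simp [D]
    rw [h1]
    exact MeasurableSet.iInter (fun p => measurableSet_of_SA (SA_nonneg _))
  have hDfin : ∀ σ ∈ G, volume (D σ) ≠ ⊤ := by
    intro σ hσ
    have h1 : volume (D σ) ≤ volume S := by
      apply measure_mono_ae
      filter_upwards [hgen] with y hy hyD
      have h2 := hDs y hy σ hyD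
      exact (Finset.mem_filter.1 hσ).2 (by rw [h2]; exact hCs y hy)
    exact (lt_of_le_of_lt h1 (lt_top_iff_ne_top.2 hfin)).ne
  have hind : (S.indicator (fun _ => (1 : ℝ))) =ᵐ[volume]
      fun y => ∑ σ ∈ G, (D σ).indicator (fun _ => (1 : ℝ)) y := by
    filter_upwards [hgen] with y hy
    by_cases hyS : y ∈ S
    · rw [Set.indicator_of_mem hyS, Finset.sum_eq_single (s y)]
      · rw [Set.indicator_of_mem (hCD _ (hCs y hy))]
      · intro σ _ hσ
        rw [Set.indicator_of_notMem]
        exact fun h => hσ (hDs y hy σ h)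
      · intro h
        exact absurd ((hSG y hy).1 hyS) h
    · rw [Set.indicator_of_notMem hyS]
      symm
      apply Finset.sum_eq_zero
      intro σ hσ
      rw [Set.indicator_of_notMem]
      intro h
      have h2 := hDs y hy σ h
      rw [h2] at hσ
      exact hyS ((hSG y hy).2 hσ)
  have hint : ∀ σ ∈ G, Integrable ((D σ).indicator (fun _ : Fin n → ℝ => (1 : ℝ))) := by
    intro σ hσ
    rw [integrable_indicator_iff (hDm σ)]
    exact integrableOn_const (hDfin σ hσ)
  have hval : ∀ T : Set (Fin n → ℝ), MeasurableSet T →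
      (∫ y, T.indicator (fun _ : Fin n → ℝ => (1 : ℝ)) y) = (volume T).toReal := by
    intro T hT
    rw [integral_indicator hT]
    simp [Measure.real]
  have hsum : (volume S).toReal = ∑ σ ∈ G, (volume (D σ)).toReal := by
    rw [← hval S hmS, integral_congr_ae hind, integral_finsetSum _ hint]
    exact Finset.sum_congr rfl (fun σ _ => hval _ (hDm σ))
  rw [hsum]
  exact IsPeriodG.sum G _ (fun σ hσ => IsPeriodG.basic (q σ) (hDfin σ hσ))

end Pool.Agent.PWD
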