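import Pool.Agent.PWD.StC
import Pool.Agent.PWD.BEZ

/-!
# Generic specialisations of irreducible polynomials
-/

set_option autoImplicit false

open Polynomial

namespace Pool.Agent.PWD

theorem spC_bezout {ι : Type} {f g u v : Polynomial (MvPolynomial ι ℚ)} {r : MvPolynomial ι ℚ}
    (h : u * f + v * g = C r) (x : ι → ℝ) :
    spC x u * spC x f + spC x v * spC x g = C ((MvPolynomial.aeval x r : ℝ) : ℂ) := by
  have h1 := congrArg (spC x) h
  unfold spC at h1 ⊢
  rw [Polynomial.map_add, Polynomial.map_mul, Polynomial.map_mul, Polynomial.map_C] at h1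
  exact h1

theorem spC_derivative {ι : Type} (x : ι → ℝ) (f : Polynomial (MvPolynomial ι ℚ)) :
    spC x (derivative f) = derivative (spC x f) := by
  unfold spC
  rw [Polynomial.derivative_map]

theorem generic {ι : Type} (S : Finset (Polynomial (MvPolynomial ι ℚ)))
    (hS : ∀ s ∈ S, Irreducible s) (hS2 : ∀ s ∈ S, ∀ t ∈ S, s ∣ t → s = t) :
    ∃ r : MvPolynomial ι ℚ, r ≠ 0 ∧ ∀ x : ι → ℝ, MvPolynomial.aeval x r ≠ 0 →
      (∀ s ∈ S, MvPolynomial.aeval x s.leadingCoeff ≠ 0) ∧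
      (∀ s ∈ S, 1 ≤ s.natDegree → (spC x s).roots.Nodup) ∧
      (∀ s ∈ S, 1 ≤ s.natDegree → ∀ t ∈ S, t ≠ s → ∀ a : ℂ, (spC x s).eval a = 0 →
        (spC x t).eval a ≠ 0) := by
  classical
  -- relations
  have hrel : ∀ s ∈ S, 1 ≤ s.natDegree → ∀ t ∈ S, t ≠ s →
      ∃ r : MvPolynomial ι ℚ, r ≠ 0 ∧ ∃ u v, u * s + v * t = C r := by
    intro s hs hd t ht hts
    obtain ⟨u, v, r, hr, h⟩ := bezout (hS s hs) (Nat.one_le_iff_ne_zero.1 hd)
      (fun h => hts (hS2 s hs t ht h).symm)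
    exact ⟨r, hr, u, v, h⟩
  have hder : ∀ s ∈ S, 1 ≤ s.natDegree →
      ∃ r : MvPolynomial ι ℚ, r ≠ 0 ∧ ∃ u v, u * s + v * derivative s = C r := by
    intro s hs hd
    have h0 : derivative s ≠ 0 := by
      intro h
      have := Polynomial.derivative_eq_zero.1 h
      omega
    have h1 : ¬ s ∣ derivative s := by
      intro h
      have h2 := Polynomial.natDegree_le_of_dvd h h0
      have h3 := Polynomial.natDegree_derivative_lt (p := s) (by omega)
      omega
    obtain ⟨u, v, r, hr, h⟩ := bezout (hS s hs) (Nat.one_le_iff_ne_zero.1 hd) h1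
    exact ⟨r, hr, u, v, h⟩
  let ρ : Polynomial (MvPolynomial ι ℚ) → Polynomial (MvPolynomial ι ℚ) → MvPolynomial ι ℚ :=
    fun s t => if h : ∃ r : MvPolynomial ι ℚ, r ≠ 0 ∧ ∃ u v, u * s + v * t = C r then
      h.choose else 1
  have hρ0 : ∀ s t, ρ s t ≠ 0 := by
    intro s t
    simp only [ρ]
    split_ifs with h
    · exact h.choose_spec.1
    · exact one_ne_zero
  have hρ : ∀ s t, (∃ r : MvPolynomial ι ℚ, r ≠ 0 ∧ ∃ u v, u * s + v * t = C r) →
      ∃ u v, u * s + v * t = C (ρ s t) := by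
    intro s t h
    have h1 : ρ s t = h.choose := by simp only [ρ]; rw [dif_pos h]
    rw [h1]
    exact h.choose_spec.2
  refine ⟨(∏ s ∈ S, s.leadingCoeff) * ((∏ s ∈ S, ρ s (derivative s)) *
    ∏ s ∈ S, ∏ t ∈ S, ρ s t), ?_, ?_⟩
  · refine mul_ne_zero ?_ (mul_ne_zero ?_ ?_)
    · rw [Finset.prod_ne_zero_iff]
      exact fun s hs => Polynomial.leadingCoeff_ne_zero.2 (hS s hs).ne_zero
    · rw [Finset.prod_ne_zero_iff]
      exact fun s _ => hρ0 _ _
    · rw [Finset.prod_ne_zero_iff]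
      intro s _
      rw [Finset.prod_ne_zero_iff]
      exact fun t _ => hρ0 _ _
  intro x hx
  rw [map_mul, map_mul, map_prod, map_prod, map_prod] at hx
  have hx1 := left_ne_zero_of_mul hx
  have hx2 := left_ne_zero_of_mul (right_ne_zero_of_mul hx)
  have hx3 := right_ne_zero_of_mul (right_ne_zero_of_mul hx)
  rw [Finset.prod_ne_zero_iff] at hx1 hx2 hx3
  refine ⟨hx1, ?_, ?_⟩
  · intro s hs hd
    obtain ⟨u, v, h⟩ := hρ s (derivative s) (hder s hs hd)
    have h1 := spC_bezout h x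
    rw [spC_derivative] at h1
    have h2 : ((MvPolynomial.aeval x (ρ s (derivative s)) : ℝ) : ℂ) ≠ 0 :=
      Complex.ofReal_ne_zero.2 (hx2 s hs)
    apply Polynomial.nodup_roots
    rw [Polynomial.separable_def]
    refine ⟨C (((MvPolynomial.aeval x (ρ s (derivative s)) : ℝ) : ℂ))⁻¹ * spC x u,
      C (((MvPolynomial.aeval x (ρ s (derivative s)) : ℝ) : ℂ))⁻¹ * spC x v, ?_⟩
    rw [mul_assoc, mul_assoc, ← mul_add, h1, ← C_mul, inv_mul_cancel₀ h2, C_1]
  · intro s hs hd t ht hts a ha hb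
    obtain ⟨u, v, h⟩ := hρ s t (hrel s hs hd t ht hts)
    have h1 := congrArg (fun p => p.eval a) (spC_bezout h x)
    simp only [eval_add, eval_mul, ha, hb, mul_zero, add_zero, eval_C] at h1
    have h3 := hx3 s hs
    rw [map_prod, Finset.prod_ne_zero_iff] at h3
    exact h3 t ht (Complex.ofReal_eq_zero.1 h1.symm)

end Pool.Agent.PWD
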