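import Mathlib

/-!
# PWD [HPL]: integrals over the real line of functions holomorphic in the lower half plane
-/

set_option autoImplicit false

open MeasureTheory Filter Topology

namespace Pool.Agent.PWD

theorem hpl_int (f : ℂ → ℂ) (K : ℝ) (hd : ∀ z : ℂ, z.im ≤ 0 → DifferentiableAt ℂ f z)
    (hb : ∀ z : ℂ, z.im ≤ 0 → ‖f z‖ ≤ K / (1 + ‖z‖) ^ 2) :
    Integrable (fun t : ℝ => f (t : ℂ)) := by
  have hc : Continuous (fun t : ℝ => f (t : ℂ)) := by
    rw [continuous_iff_continuousAt]
    intro t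
    exact ContinuousAt.comp (f := fun s : ℝ => (s : ℂ)) (g := f)
      (hd (t : ℂ) (by simp)).continuousAt Complex.continuous_ofReal.continuousAt
  have hK : 0 ≤ K := by
    have := hb 0 (by simp)
    simp only [norm_zero, add_zero, one_pow, div_one] at this
    exact (norm_nonneg _).trans this
  refine Integrable.mono' (integrable_inv_one_add_sq.const_mul K) hc.aestronglyMeasurable
    (Eventually.of_forall fun t => ?_)
  refine (hb (t : ℂ) (by simp)).trans ?_
  rw [div_eq_mul_inv, Complex.norm_real, Real.norm_eq_abs]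
  refine mul_le_mul_of_nonneg_left (inv_anti₀ (by positivity) ?_) hK
  have := abs_nonneg t
  nlinarith [sq_abs t]

theorem hpl_zero (f : ℂ → ℂ) (K : ℝ) (hd : ∀ z : ℂ, z.im ≤ 0 → DifferentiableAt ℂ f z)
    (hb : ∀ z : ℂ, z.im ≤ 0 → ‖f z‖ ≤ K / (1 + ‖z‖) ^ 2) :
    (∫ t : ℝ, f (t : ℂ)) = 0 := by
  have hi := hpl_int f K hd hb
  have hK : 0 ≤ K := by
    have := hb 0 (by simp)
    simp only [norm_zero, add_zero, one_pow, div_one] at this
    exact (norm_nonneg _).trans this
  have ht : Tendsto (fun r : ℝ => ∫ t in (-r)..r, f (t : ℂ)) atTop (𝓝 (∫ t : ℝ, f (t : ℂ))) :=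
    intervalIntegral_tendsto_integral hi tendsto_neg_atTop_atBot tendsto_id
  have h0 : Tendsto (fun r : ℝ => ∫ t in (-r)..r, f (t : ℂ)) atTop (𝓝 0) := by
    have hlim : Tendsto (fun r : ℝ => 4 * K * r⁻¹) atTop (𝓝 0) := by
      have := tendsto_inv_atTop_zero (𝕜 := ℝ)
      simpa using this.const_mul (4 * K)
    refine squeeze_zero_norm' ?_ hlim
    filter_upwards [eventually_gt_atTop (0 : ℝ)] with r hr
    have hrect := Complex.integral_boundary_rect_eq_zero_of_differentiableOn f
      (⟨-r, -r⟩ : ℂ) (⟨r, 0⟩ : ℂ) (by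
        intro z hz
        refine (hd z ?_).differentiableWithinAt
        have h2 : z.im ∈ Set.uIcc (-r) 0 := hz.2
        rw [Set.uIcc_of_le (by linarith)] at h2
        exact h2.2)
    simp only [Complex.ofReal_zero, zero_mul, add_zero] at hrect
    have key : ∀ z : ℂ, z.im ≤ 0 → r ≤ ‖z‖ → ‖f z‖ ≤ K / r ^ 2 := by
      intro z hz hz2
      refine (hb z hz).trans (div_le_div_of_nonneg_left hK (by positivity) ?_)
      have : 0 ≤ ‖z‖ := norm_nonneg z
      nlinarith
    have b1 : ‖∫ x in (-r)..r, f (x + ((-r : ℝ) : ℂ) * Complex.I)‖ ≤ K / r ^ 2 * |r - -r| := by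
      refine intervalIntegral.norm_integral_le_of_norm_le_const fun x _ => key _ ?_ ?_
      · simp; exact hr.le
      · refine le_trans ?_ (Complex.abs_im_le_norm _)
        simp [abs_of_pos hr]
    have b2 : ‖∫ y in (-r)..(0 : ℝ), f (((r : ℝ) : ℂ) + y * Complex.I)‖ ≤
        K / r ^ 2 * |0 - -r| := by
      refine intervalIntegral.norm_integral_le_of_norm_le_const fun y hy => key _ ?_ ?_
      · rw [Set.uIoc_of_le (by linarith)] at hy
        simpa using hy.2
      · refine le_trans ?_ (Complex.abs_re_le_norm _)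
        simp [abs_of_pos hr]
    have b3 : ‖∫ y in (-r)..(0 : ℝ), f (((-r : ℝ) : ℂ) + y * Complex.I)‖ ≤
        K / r ^ 2 * |0 - -r| := by
      refine intervalIntegral.norm_integral_le_of_norm_le_const fun y hy => key _ ?_ ?_
      · rw [Set.uIoc_of_le (by linarith)] at hy
        simpa using hy.2
      · refine le_trans ?_ (Complex.abs_re_le_norm _)
        simp [abs_of_pos hr]
    have e : (∫ t in (-r)..r, f (t : ℂ)) =
        (∫ x in (-r)..r, f (x + ((-r : ℝ) : ℂ) * Complex.I)) +
        Complex.I • (∫ y in (-r)..(0 : ℝ), f (((r : ℝ) : ℂ) + y * Complex.I)) -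
        Complex.I • (∫ y in (-r)..(0 : ℝ), f (((-r : ℝ) : ℂ) + y * Complex.I)) := by
      linear_combination -hrect
    rw [e]
    refine (norm_sub_le _ _).trans ((add_le_add (norm_add_le _ _) le_rfl).trans ?_)
    rw [norm_smul, norm_smul, Complex.norm_I, one_mul, one_mul]
    have e2 : |r - -r| = 2 * r := by rw [abs_of_pos (by linarith)]; ring
    have e3 : |0 - -r| = r := by rw [zero_sub, neg_neg, abs_of_pos hr]
    rw [e2] at b1
    rw [e3] at b2 b3
    have e4 : K / r ^ 2 * (2 * r) + K / r ^ 2 * r + K / r ^ 2 * r = 4 * K * r⁻¹ := by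
      field_simp
      ring
    linarith
  exact tendsto_nhds_unique ht h0

end Pool.Agent.PWD
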