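import Pool.Agent.PWD.DefR
import Pool.Agent.PWD.RSD

/-!
# PWD [HRW]: the integral of the reciprocal of the squared absolute value of a stable cubic
(helper15)
-/

set_option autoImplicit false

open MeasureTheory Polynomial

namespace Pool.Agent.PWD

theorem hrw_mset (s : Multiset ℂ) (hs : ∀ r ∈ s, 0 < r.im) :
    ∃ κ : ℝ, 0 < κ ∧ ∀ w : ℂ, w.im ≤ 0 →
      κ * (1 + ‖w‖) ^ Multiset.card s ≤ ‖(s.map fun r => w - r).prod‖ := by
  induction s using Multiset.induction_on with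
  | empty => exact ⟨1, one_pos, fun w _ => by simp⟩
  | cons a s ih =>
    obtain ⟨κ, hκ, h1⟩ := ih fun r hr => hs r (Multiset.mem_cons_of_mem hr)
    obtain ⟨κ', hκ', h2⟩ := rsd_low a (hs a (Multiset.mem_cons_self a s))
    refine ⟨κ' * κ, mul_pos hκ' hκ, fun w hw => ?_⟩
    rw [Multiset.map_cons, Multiset.prod_cons, norm_mul, Multiset.card_cons]
    have h0 : 0 ≤ ‖w‖ := norm_nonneg w
    calc κ' * κ * (1 + ‖w‖) ^ (Multiset.card s + 1)
        = (κ' * (1 + ‖w‖)) * (κ * (1 + ‖w‖) ^ Multiset.card s) := by ring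
      _ ≤ ‖w - a‖ * ‖(s.map fun r => w - r).prod‖ :=
          mul_le_mul (h2 w hw) (h1 w hw) (by positivity) (norm_nonneg _)

/-- Lower bound for a polynomial without zeros in the closed lower half plane. -/
theorem hrw_low (P : ℂ[X]) (hP : ∀ w : ℂ, w.im ≤ 0 → P.eval w ≠ 0) :
    ∃ κ : ℝ, 0 < κ ∧ ∀ w : ℂ, w.im ≤ 0 → κ * (1 + ‖w‖) ^ P.natDegree ≤ ‖P.eval w‖ := by
  have h0 : P ≠ 0 := by
    rintro rfl
    exact hP 0 (by simp) (by simp)
  obtain ⟨κ, hκ, h1⟩ := hrw_mset P.roots fun r hr => by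
    by_contra h
    exact hP r (not_lt.1 h) (isRoot_of_mem_roots hr)
  have hs := IsAlgClosed.splits P
  have hl : 0 < ‖P.leadingCoeff‖ := norm_pos_iff.2 (leadingCoeff_ne_zero.2 h0)
  refine ⟨‖P.leadingCoeff‖ * κ, mul_pos hl hκ, fun w hw => ?_⟩
  rw [hs.eval_eq_prod_roots, norm_mul, mul_assoc]
  refine mul_le_mul_of_nonneg_left ?_ (norm_nonneg _)
  have := h1 w hw
  rwa [IsAlgClosed.card_roots_eq_natDegree] at this

/-- The cubic has no zeros in the closed right half plane. -/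
theorem hrw_ne (f0 f1 f2 : ℝ) (h0 : 0 < f0) (h1 : 0 < f1) (h : f0 < f1 * f2) (z : ℂ)
    (hz : 0 ≤ z.re) : (f0 : ℂ) * z ^ 3 + f1 * z ^ 2 + f2 * z + 1 ≠ 0 := by
  intro hF
  have hz0 : z ≠ 0 := by
    rintro rfl
    simp at hF
  have hf1 : (f1 : ℂ) ≠ 0 := by exact_mod_cast h1.ne'
  have hAB : (1 / z + f1 * z) * (1 + ((f0 / f1 : ℝ) : ℂ) * z) = ((-((f1 * f2 - f0) / f1) : ℝ) : ℂ) := by
    push_cast
    field_simp
    linear_combination (f1 : ℂ) * hF
  have hA : 0 ≤ (1 / z + f1 * z).re := by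
    have : (1 / z).re = z.re / Complex.normSq z := by
      rw [one_div, Complex.inv_re]
    rw [Complex.add_re, this, Complex.re_ofReal_mul]
    have := Complex.normSq_nonneg z
    positivity
  have hB : 1 ≤ (1 + ((f0 / f1 : ℝ) : ℂ) * z).re := by
    rw [Complex.add_re, Complex.re_ofReal_mul, Complex.one_re]
    have : 0 ≤ f0 / f1 * z.re := by positivity
    linarith
  generalize (1 / z + (f1 : ℂ) * z) = A at hAB hA
  generalize (1 + ((f0 / f1 : ℝ) : ℂ) * z) = B at hAB hB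
  have hb : 0 < (f1 * f2 - f0) / f1 := div_pos (by linarith) h1
  generalize (f1 * f2 - f0) / f1 = b at hAB hb
  have e1 := congrArg Complex.re hAB
  have e2 := congrArg Complex.im hAB
  simp only [Complex.mul_re, Complex.mul_im, Complex.ofReal_re, Complex.ofReal_im] at e1 e2
  -- A.re * |B|² = - b * B.re
  have e3 : A.re * (B.re ^ 2 + B.im ^ 2) = -b * B.re := by
    linear_combination B.re * e1 + B.im * e2
  have e4 : 0 ≤ A.re * (B.re ^ 2 + B.im ^ 2) := by positivity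
  nlinarith

theorem thm_HRW : St_HRW := by
  intro f0 f1 f2 h0 h1 h2 h
  obtain ⟨H, hH⟩ : ∃ H, H = f1 * f2 - f0 := ⟨_, rfl⟩
  have hHp : 0 < H := by
    rw [hH]
    linarith
  obtain ⟨c, hc⟩ : ∃ c, c = f1 / (2 * H) := ⟨_, rfl⟩
  have hcH : 2 * c * H = f1 := by
    rw [hc]
    field_simp
  -- the polynomials in `t`, `z = i t`
  obtain ⟨P, hP⟩ : ∃ P : ℂ[X], P = C (-Complex.I * f0) * X ^ 3 + C (-(f1 : ℂ)) * X ^ 2 +
    C (Complex.I * f2) * X + C 1 := ⟨_, rfl⟩
  obtain ⟨N, hN⟩ : ∃ N : ℂ[X], N = C (-(c * f0 : ℂ)) * X ^ 2 +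
    C (Complex.I * (c * f1 + 1 / 2 - c * f2)) * X + C (1 / 2 - c : ℂ) := ⟨_, rfl⟩
  have hPe : ∀ w : ℂ, P.eval w = (f0 : ℂ) * (Complex.I * w) ^ 3 + f1 * (Complex.I * w) ^ 2 +
      f2 * (Complex.I * w) + 1 := by
    intro w
    rw [hP]
    simp only [eval_add, eval_mul, eval_C, eval_pow, eval_X]
    linear_combination (-(f0 : ℂ) * Complex.I * w ^ 3 - f1 * w ^ 2) * Complex.I_sq
  have hNe : ∀ w : ℂ, N.eval w = (c * f0 : ℂ) * (Complex.I * w) ^ 2 +
      (c * f1 + 1 / 2 - c * f2) * (Complex.I * w) + (1 / 2 - c) := by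
    intro w
    rw [hN]
    simp only [eval_add, eval_mul, eval_C, eval_pow, eval_X]
    linear_combination (-(c * f0 : ℂ) * w ^ 2) * Complex.I_sq
  have hre : ∀ w : ℂ, (Complex.I * w).re = -w.im := by
    intro w
    simp
  have hP0 : ∀ w : ℂ, w.im ≤ 0 → P.eval w ≠ 0 := by
    intro w hw
    rw [hPe]
    exact hrw_ne f0 f1 f2 h0 h1 h _ (by rw [hre]; linarith)
  have hL0 : ∀ w : ℂ, w.im ≤ 0 → Complex.I * w + 1 ≠ 0 := by
    intro w hw e
    have := congrArg Complex.re e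
    rw [Complex.add_re, hre] at this
    simp at this
    linarith
  have hPd : P.natDegree = 3 := by
    rw [hP]
    compute_degree!
    exact h0.ne'
  have hNd : N.natDegree ≤ 2 := by
    rw [hN]
    compute_degree
  obtain ⟨κ, hκ, hlow⟩ := hrw_low P hP0
  rw [hPd] at hlow
  obtain ⟨κ', hκ', hlow'⟩ := rsd_low Complex.I (by simp)
  obtain ⟨B, hB, hup⟩ := rsd_up N 2 hNd
  have hd : ∀ w : ℂ, w.im ≤ 0 →
      DifferentiableAt ℂ (fun w : ℂ => N.eval w / (P.eval w * (Complex.I * w + 1))) w := by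
    intro w hw
    refine DifferentiableAt.div N.differentiable.differentiableAt ?_
      (mul_ne_zero (hP0 w hw) (hL0 w hw))
    exact P.differentiable.differentiableAt.mul
      ((differentiableAt_id.const_mul _).add_const _)
  have hbd : ∀ w : ℂ, w.im ≤ 0 →
      ‖N.eval w / (P.eval w * (Complex.I * w + 1))‖ ≤ (B / (κ * κ')) / (1 + ‖w‖) ^ 2 := by
    intro w hw
    have hw0 : 0 < 1 + ‖w‖ := by
      have := norm_nonneg w
      linarith
    have e1 : ‖Complex.I * w + 1‖ = ‖w - Complex.I‖ := by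
      have : Complex.I * w + 1 = Complex.I * (w - Complex.I) := by
        linear_combination Complex.I_sq
      rw [this, norm_mul, Complex.norm_I, one_mul]
    rw [norm_div, norm_mul, e1]
    have e2 : κ * κ' * (1 + ‖w‖) ^ 4 ≤ ‖P.eval w‖ * ‖w - Complex.I‖ := by
      calc κ * κ' * (1 + ‖w‖) ^ 4 = (κ * (1 + ‖w‖) ^ 3) * (κ' * (1 + ‖w‖)) := by ring
        _ ≤ _ := mul_le_mul (hlow w hw) (hlow' w hw) (by positivity) (norm_nonneg _)
    refine (div_le_div₀ (by positivity) (hup w) (by positivity) e2).trans (le_of_eq ?_)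
    field_simp
  have i1 := hpl_int _ _ hd hbd
  have i2 := hpl_zero _ _ hd hbd
  have hpt : ∀ t : ℝ, 1 / ((1 - f1 * t ^ 2) ^ 2 + t ^ 2 * (f2 - f0 * t ^ 2) ^ 2) =
      2 * (N.eval (t : ℂ) / (P.eval (t : ℂ) * (Complex.I * t + 1))).re +
        2 * c * (1 + t ^ 2)⁻¹ := by
    intro t
    obtain ⟨p, hp⟩ : ∃ p : ℂ, p = P.eval (t : ℂ) := ⟨_, rfl⟩
    have hp0 : p ≠ 0 := by
      rw [hp]
      exact hP0 _ (by simp)
    have hp1 : p = ⟨1 - f1 * t ^ 2, t * (f2 - f0 * t ^ 2)⟩ := by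
      rw [hp, hPe]
      apply Complex.ext
      · simp [pow_succ]
        ring
      · simp [pow_succ]
        ring
    have hl0 := hL0 (t : ℂ) (by simp)
    obtain ⟨u, hu⟩ : ∃ u : ℂ, u = (c * f0 : ℂ) * (Complex.I * t) ^ 2 + c * f1 * (Complex.I * t) +
      1 / 2 := ⟨_, rfl⟩
    have e1 : N.eval (t : ℂ) / (P.eval (t : ℂ) * (Complex.I * t + 1)) =
        u / p - c / (Complex.I * t + 1) := by
      rw [div_sub_div _ _ hp0 hl0, ← hp, hNe, hu]
      congr 1
      rw [hp, hPe]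
      ring
    have e2 : ((c : ℂ) / (Complex.I * t + 1)).re = c * (1 + t ^ 2)⁻¹ := by
      rw [Complex.div_re]
      simp [Complex.normSq_apply]
      ring
    have hu1 : u = ⟨1 / 2 - c * f0 * t ^ 2, c * f1 * t⟩ := by
      rw [hu]
      apply Complex.ext
      · simp [pow_succ]
        ring
      · simp [pow_succ]
    have e3 : (u / p).re = (u.re * p.re + u.im * p.im) / (p.re ^ 2 + p.im ^ 2) := by
      rw [Complex.div_re, Complex.normSq_apply]
      ring
    have hD : 0 < (1 - f1 * t ^ 2) ^ 2 + t ^ 2 * (f2 - f0 * t ^ 2) ^ 2 := by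
      have := Complex.normSq_pos.2 hp0
      rw [hp1, Complex.normSq_mk] at this
      calc (0 : ℝ) < _ := this
        _ = _ := by ring
    rw [e1, Complex.sub_re, e2, e3, hu1, hp1]
    dsimp only
    have e4 : (1 - f1 * t ^ 2) ^ 2 + (t * (f2 - f0 * t ^ 2)) ^ 2 =
        (1 - f1 * t ^ 2) ^ 2 + t ^ 2 * (f2 - f0 * t ^ 2) ^ 2 := by ring
    rw [e4]
    have e5 : (1 / 2 - c * f0 * t ^ 2) * (1 - f1 * t ^ 2) +
        c * f1 * t * (t * (f2 - f0 * t ^ 2)) = 1 / 2 := by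
      have : 2 * c * (f1 * f2 - f0) = f1 := by rw [← hH]; exact hcH
      linear_combination (t ^ 2 / 2) * this
    rw [e5]
    field_simp
    ring
  have j1 : Integrable (fun t : ℝ =>
      2 * (N.eval (t : ℂ) / (P.eval (t : ℂ) * (Complex.I * t + 1))).re) := (i1.re).const_mul 2
  have j2 : Integrable (fun t : ℝ => 2 * c * (1 + t ^ 2)⁻¹) :=
    integrable_inv_one_add_sq.const_mul _
  have hfun : (fun t : ℝ => 1 / ((1 - f1 * t ^ 2) ^ 2 + t ^ 2 * (f2 - f0 * t ^ 2) ^ 2)) =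
      fun t : ℝ => 2 * (N.eval (t : ℂ) / (P.eval (t : ℂ) * (Complex.I * t + 1))).re +
        2 * c * (1 + t ^ 2)⁻¹ := funext hpt
  rw [hfun]
  refine ⟨j1.add j2, ?_⟩
  rw [integral_add j1 j2, integral_const_mul, integral_const_mul, integral_univ_inv_one_add_sq]
  have k0 : (∫ t : ℝ, (N.eval (t : ℂ) / (P.eval (t : ℂ) * (Complex.I * t + 1))).re) = 0 := by
    have := integral_re i1
    simp only [RCLike.re_to_complex] at this
    rw [this, i2]
    simp
  rw [k0, ← hH, hc]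
  field_simp
  ring

end Pool.Agent.PWD
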