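import Mathlib

/-!
# The integrals of `1 / (t⁴ + 1)` and `1 / (t⁶ + 1)`
-/

set_option autoImplicit false

open MeasureTheory Filter Topology

namespace Pool.Agent.PWD

theorem inn_log (s : ℝ) : Tendsto (fun t : ℝ => Real.log ((t ^ 2 + s * t + 1) / (t ^ 2 - s * t + 1)))
    atTop (𝓝 0) := by
  have h1 : Tendsto (fun t : ℝ => (t ^ 2 + s * t + 1) / (t ^ 2 - s * t + 1)) atTop (𝓝 1) := by
    have h2 : Tendsto (fun t : ℝ => (1 + s * t⁻¹ + t⁻¹ ^ 2) / (1 - s * t⁻¹ + t⁻¹ ^ 2)) atTop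
        (𝓝 ((1 + s * 0 + 0 ^ 2) / (1 - s * 0 + 0 ^ 2))) := by
      have h3 : Tendsto (fun t : ℝ => t⁻¹) atTop (𝓝 0) := tendsto_inv_atTop_zero
      apply Tendsto.div
      · exact (tendsto_const_nhds.add (h3.const_mul s)).add (h3.pow 2)
      · exact (tendsto_const_nhds.sub (h3.const_mul s)).add (h3.pow 2)
      · norm_num
    have h4 : ((1 + s * 0 + 0 ^ 2) / (1 - s * 0 + 0 ^ 2) : ℝ) = 1 := by norm_num
    rw [h4] at h2
    refine h2.congr' ?_
    filter_upwards [eventually_gt_atTop 0] with t ht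
    have e1 : 1 + s * t⁻¹ + t⁻¹ ^ 2 = (t ^ 2 + s * t + 1) / t ^ 2 := by
      field_simp
    have e2 : 1 - s * t⁻¹ + t⁻¹ ^ 2 = (t ^ 2 - s * t + 1) / t ^ 2 := by
      field_simp
    rw [e1, e2, div_div_div_cancel_right₀ (by positivity)]
  have h5 := (Real.continuousAt_log one_ne_zero).tendsto.comp h1
  rw [Real.log_one] at h5
  exact h5

theorem inn_log' (s : ℝ) : Tendsto (fun t : ℝ => Real.log ((t ^ 2 + s * t + 1) / (t ^ 2 - s * t + 1)))
    atBot (𝓝 0) := by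
  have h1 := (inn_log (-s)).comp tendsto_neg_atBot_atTop
  refine h1.congr fun t => ?_
  simp only [Function.comp]
  congr 1
  ring_nf

theorem inn_atan (a b : ℝ) (ha : 0 < a) :
    Tendsto (fun t : ℝ => Real.arctan (a * t + b)) atTop (𝓝 (Real.pi / 2)) := by
  have h1 : Tendsto (fun t : ℝ => a * t + b) atTop atTop :=
    tendsto_atTop_add_const_right _ _ (tendsto_id.const_mul_atTop ha)
  exact (Real.tendsto_arctan_atTop.mono_right nhdsWithin_le_nhds).comp h1

theorem inn_atan' (a b : ℝ) (ha : 0 < a) :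
    Tendsto (fun t : ℝ => Real.arctan (a * t + b)) atBot (𝓝 (-(Real.pi / 2))) := by
  have h1 : Tendsto (fun t : ℝ => a * t + b) atBot atBot :=
    tendsto_atBot_add_const_right _ _ (tendsto_id.const_mul_atBot ha)
  exact (Real.tendsto_arctan_atBot.mono_right nhdsWithin_le_nhds).comp h1

theorem inn_pos {s : ℝ} (hs : s ^ 2 < 4) (t : ℝ) : 0 < t ^ 2 + s * t + 1 := by
  nlinarith [sq_nonneg (t + s / 2)]

theorem inn_pos' {s : ℝ} (hs : s ^ 2 < 4) (t : ℝ) : 0 < t ^ 2 - s * t + 1 := by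
  nlinarith [sq_nonneg (t - s / 2)]

theorem inn_dlog {s : ℝ} (hs : s ^ 2 < 4) (t : ℝ) :
    HasDerivAt (fun t : ℝ => Real.log ((t ^ 2 + s * t + 1) / (t ^ 2 - s * t + 1)))
      ((2 * t + s) / (t ^ 2 + s * t + 1) - (2 * t - s) / (t ^ 2 - s * t + 1)) t := by
  have h1 : HasDerivAt (fun t : ℝ => t ^ 2 + s * t + 1) (2 * t + s) t := by
    have := ((hasDerivAt_pow 2 t).add ((hasDerivAt_id t).const_mul s)).add_const (1 : ℝ)
    simpa using this
  have h2 : HasDerivAt (fun t : ℝ => t ^ 2 - s * t + 1) (2 * t - s) t := by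
    have := ((hasDerivAt_pow 2 t).sub ((hasDerivAt_id t).const_mul s)).add_const (1 : ℝ)
    simpa using this
  have h3 := (h1.log (inn_pos hs t).ne').sub (h2.log (inn_pos' hs t).ne')
  refine h3.congr_of_eventuallyEq (Eventually.of_forall fun u => ?_)
  show Real.log ((u ^ 2 + s * u + 1) / (u ^ 2 - s * u + 1)) =
    Real.log (u ^ 2 + s * u + 1) - Real.log (u ^ 2 - s * u + 1)
  rw [Real.log_div (inn_pos hs u).ne' (inn_pos' hs u).ne']

theorem inn_datan (a b : ℝ) (t : ℝ) :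
    HasDerivAt (fun t : ℝ => Real.arctan (a * t + b)) (a / (1 + (a * t + b) ^ 2)) t := by
  have h1 : HasDerivAt (fun t : ℝ => a * t + b) a t := by
    have := ((hasDerivAt_id t).const_mul a).add_const b
    simpa using this
  have h2 := h1.arctan
  convert h2 using 1
  ring

theorem inn_int (N : ℕ) (hN : Even N) (h2 : 2 ≤ N) : Integrable (fun t : ℝ => 1 / (t ^ N + 1)) := by
  have h0 : Integrable (fun t : ℝ => 2 * (1 + t ^ 2)⁻¹) := integrable_inv_one_add_sq.const_mul 2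
  refine h0.mono' ?_ (Eventually.of_forall fun t => ?_)
  · apply Measurable.aestronglyMeasurable
    fun_prop
  · have h3 : 0 ≤ t ^ N := hN.pow_nonneg t
    rw [Real.norm_eq_abs, abs_of_nonneg (by positivity), ← div_eq_mul_inv,
      div_le_div_iff₀ (by positivity) (by positivity)]
    have h4 : t ^ 2 ≤ t ^ N + 1 := by
      rcases le_or_gt (|t|) 1 with h | h
      · have : t ^ 2 ≤ 1 := by
          rw [← sq_abs]
          exact pow_le_one₀ (abs_nonneg t) h
        linarith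
      · have h5 : |t| ^ 2 ≤ |t| ^ N := pow_le_pow_right₀ h.le h2
        rw [sq_abs, hN.pow_abs] at h5
        linarith
    linarith

theorem int4 : (∫ t : ℝ, 1 / (t ^ 4 + 1)) = Real.pi / Real.sqrt 2 := by
  set s := Real.sqrt 2 with hs
  have hs2 : s ^ 2 = 2 := Real.sq_sqrt (by norm_num)
  have hs0 : 0 < s := Real.sqrt_pos.2 (by norm_num)
  have hlt : s ^ 2 < 4 := by rw [hs2]; norm_num
  have hd : ∀ t : ℝ, HasDerivAt (fun t : ℝ =>
      1 / (4 * s) * Real.log ((t ^ 2 + s * t + 1) / (t ^ 2 - s * t + 1)) +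
        1 / (2 * s) * (Real.arctan (s * t + 1) + Real.arctan (s * t + (-1)))) (1 / (t ^ 4 + 1)) t := by
    intro t
    have h1 := ((inn_dlog hlt t).const_mul (1 / (4 * s))).add
      (((inn_datan s 1 t).add (inn_datan s (-1) t)).const_mul (1 / (2 * s)))
    refine HasDerivAt.congr_deriv h1 ?_
    have p1 := inn_pos hlt t
    have p2 := inn_pos' hlt t
    have e1 : 1 + (s * t + 1) ^ 2 = 2 * (t ^ 2 + s * t + 1) := by nlinarith
    have e2 : 1 + (s * t + (-1)) ^ 2 = 2 * (t ^ 2 - s * t + 1) := by nlinarith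
    have e3 : t ^ 4 + 1 = (t ^ 2 + s * t + 1) * (t ^ 2 - s * t + 1) := by
      have : (t ^ 2 + s * t + 1) * (t ^ 2 - s * t + 1) = t ^ 4 + (2 - s ^ 2) * t ^ 2 + 1 := by ring
      rw [this, hs2]
      ring
    rw [e1, e2, e3]
    obtain ⟨A, hA⟩ : ∃ A, A = t ^ 2 + s * t + 1 := ⟨_, rfl⟩
    obtain ⟨B, hB⟩ : ∃ B, B = t ^ 2 - s * t + 1 := ⟨_, rfl⟩
    rw [← hA] at p1
    rw [← hB] at p2
    rw [← hA, ← hB]
    field_simp
    rw [hA, hB]
    ring
  have hi := inn_int 4 (by decide) (by norm_num)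
  have h1 : Tendsto (fun t : ℝ =>
      1 / (4 * s) * Real.log ((t ^ 2 + s * t + 1) / (t ^ 2 - s * t + 1)) +
        1 / (2 * s) * (Real.arctan (s * t + 1) + Real.arctan (s * t + (-1)))) atTop
      (𝓝 (1 / (4 * s) * 0 + 1 / (2 * s) * (Real.pi / 2 + Real.pi / 2))) :=
    ((inn_log s).const_mul _).add (((inn_atan s 1 hs0).add (inn_atan s (-1) hs0)).const_mul _)
  have h2 : Tendsto (fun t : ℝ =>
      1 / (4 * s) * Real.log ((t ^ 2 + s * t + 1) / (t ^ 2 - s * t + 1)) +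
        1 / (2 * s) * (Real.arctan (s * t + 1) + Real.arctan (s * t + (-1)))) atBot
      (𝓝 (1 / (4 * s) * 0 + 1 / (2 * s) * (-(Real.pi / 2) + -(Real.pi / 2)))) :=
    ((inn_log' s).const_mul _).add (((inn_atan' s 1 hs0).add (inn_atan' s (-1) hs0)).const_mul _)
  rw [integral_of_hasDerivAt_of_tendsto hd hi h2 h1]
  field_simp
  ring

theorem int6 : (∫ t : ℝ, 1 / (t ^ 6 + 1)) = 2 * Real.pi / 3 := by
  set s := Real.sqrt 3 with hs
  have hs2 : s ^ 2 = 3 := Real.sq_sqrt (by norm_num)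
  have hs0 : 0 < s := Real.sqrt_pos.2 (by norm_num)
  have hlt : s ^ 2 < 4 := by rw [hs2]; norm_num
  have hd : ∀ t : ℝ, HasDerivAt (fun t : ℝ =>
      1 / (4 * s) * Real.log ((t ^ 2 + s * t + 1) / (t ^ 2 - s * t + 1)) +
        (1 / 3 * Real.arctan (1 * t + 0) +
        1 / 6 * (Real.arctan (2 * t + s) + Real.arctan (2 * t + (-s))))) (1 / (t ^ 6 + 1)) t := by
    intro t
    have h1 := ((inn_dlog hlt t).const_mul (1 / (4 * s))).add
      (((inn_datan 1 0 t).const_mul (1 / 3)).add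
        (((inn_datan 2 s t).add (inn_datan 2 (-s) t)).const_mul (1 / 6)))
    refine HasDerivAt.congr_deriv h1 ?_
    have p1 := inn_pos hlt t
    have p2 := inn_pos' hlt t
    have p3 : 0 < 1 + t ^ 2 := by positivity
    have e0 : 1 + (1 * t + 0) ^ 2 = 1 + t ^ 2 := by ring
    have e1 : 1 + (2 * t + s) ^ 2 = 4 * (t ^ 2 + s * t + 1) := by nlinarith
    have e2 : 1 + (2 * t + (-s)) ^ 2 = 4 * (t ^ 2 - s * t + 1) := by nlinarith
    have e3 : t ^ 6 + 1 = (1 + t ^ 2) * ((t ^ 2 + s * t + 1) * (t ^ 2 - s * t + 1)) := by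
      have : (t ^ 2 + s * t + 1) * (t ^ 2 - s * t + 1) = t ^ 4 + (2 - s ^ 2) * t ^ 2 + 1 := by ring
      rw [this, hs2]
      ring
    rw [e0, e1, e2, e3]
    obtain ⟨A, hA⟩ : ∃ A, A = t ^ 2 + s * t + 1 := ⟨_, rfl⟩
    obtain ⟨B, hB⟩ : ∃ B, B = t ^ 2 - s * t + 1 := ⟨_, rfl⟩
    rw [← hA] at p1
    rw [← hB] at p2
    rw [← hA, ← hB]
    field_simp
    rw [hA, hB]
    have hs3 : s ^ 3 = 3 * s := by rw [pow_succ, hs2]
    ring_nf
    rw [hs3]
    ring
  have hi := inn_int 6 (by decide) (by norm_num)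
  have h1 : Tendsto (fun t : ℝ =>
      1 / (4 * s) * Real.log ((t ^ 2 + s * t + 1) / (t ^ 2 - s * t + 1)) +
        (1 / 3 * Real.arctan (1 * t + 0) +
        1 / 6 * (Real.arctan (2 * t + s) + Real.arctan (2 * t + (-s))))) atTop
      (𝓝 (1 / (4 * s) * 0 + (1 / 3 * (Real.pi / 2) + 1 / 6 * (Real.pi / 2 + Real.pi / 2)))) :=
    ((inn_log s).const_mul _).add (((inn_atan 1 0 one_pos).const_mul _).add
      (((inn_atan 2 s two_pos).add (inn_atan 2 (-s) two_pos)).const_mul _))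
  have h2 : Tendsto (fun t : ℝ =>
      1 / (4 * s) * Real.log ((t ^ 2 + s * t + 1) / (t ^ 2 - s * t + 1)) +
        (1 / 3 * Real.arctan (1 * t + 0) +
        1 / 6 * (Real.arctan (2 * t + s) + Real.arctan (2 * t + (-s))))) atBot
      (𝓝 (1 / (4 * s) * 0 + (1 / 3 * (-(Real.pi / 2)) + 1 / 6 * (-(Real.pi / 2) + -(Real.pi / 2))))) :=
    ((inn_log' s).const_mul _).add (((inn_atan' 1 0 one_pos).const_mul _).add
      (((inn_atan' 2 s two_pos).add (inn_atan' 2 (-s) two_pos)).const_mul _))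
  rw [integral_of_hasDerivAt_of_tendsto hd hi h2 h1]
  field_simp
  ring

end Pool.Agent.PWD
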