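import Pool.Agent.PWD.WPI

/-!
# PWD [LBW]: the positive rational function with a lower bound
-/

set_option autoImplicit false

open MeasureTheory Set
open Pool.Agent.PWQ

namespace Pool.Agent.PWD

/-- a positive volume is `1/π` times the integral of a positive rational function, which is bounded
from below by the reciprocal of a polynomial -/
theorem lbw_pos (m : ℕ) (A : (Fin m → ℝ) → ℝ) (hA : SA (graph A))
    (h0 : ∀ x, 0 ≤ A x) (hi : Integrable A) (hpos : 0 < ∫ x, A x) :
    ∃ P Q G : MvPolynomial (Fin (m + 1)) ℚ, Q ≠ 0 ∧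
      Integrable (fun y : Fin (m + 1) → ℝ => rat P Q y) ∧
      (∀ y : Fin (m + 1) → ℝ, 0 < MvPolynomial.aeval y G) ∧
      (∀ y : Fin (m + 1) → ℝ, MvPolynomial.aeval y Q ^ 2 ≤
        MvPolynomial.aeval y G * (MvPolynomial.aeval y P * MvPolynomial.aeval y Q)) ∧
      (∫ y : Fin (m + 1) → ℝ, rat P Q y) = Real.pi * ∫ x, A x := by
  classical
  -- a set where `A` is large
  have h1 : ∃ q : ℚ, 0 < q ∧ volume {x : Fin m → ℝ | (q : ℝ) < A x} ≠ 0 := by
    by_contra h
    push Not at h
    have h2 : ∀ᵐ x : Fin m → ℝ, ∀ n : ℕ, A x ≤ ((1 / ((n : ℚ) + 1) : ℚ) : ℝ) := by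
      rw [ae_all_iff]
      intro n
      have h3 := h (1 / ((n : ℚ) + 1)) (by positivity)
      rw [ae_iff]
      simpa only [not_le] using h3
    have h3 : A =ᵐ[volume] fun _ => (0 : ℝ) := by
      filter_upwards [h2] with x hx
      refine le_antisymm ?_ (h0 x)
      refine ge_of_tendsto' (f := fun n : ℕ => 1 / ((n : ℝ) + 1))
        tendsto_one_div_add_atTop_nhds_zero_nat fun n => ?_
      have := hx n
      push_cast at this
      exact this
    rw [integral_congr_ae h3, integral_zero] at hpos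
    exact lt_irrefl _ hpos
  obtain ⟨q, hq, hvol⟩ := h1
  obtain ⟨a, b, hab, hbox⟩ := exists_box (SA_gt_graph hA q) hvol
  obtain ⟨C, hC⟩ : ∃ C : Set (Fin m → ℝ), 
      C = {x : Fin m → ℝ | ∀ i, (a i : ℝ) < x i ∧ x i < b i} := ⟨_, rfl⟩
  rw [← hC] at hbox
  have hCS : SA C := by
    rw [hC]
    exact SA_box a b
  have hCm : MeasurableSet C := measurableSet_of_SA hCS
  have hCv : volume C = ENNReal.ofReal (∏ i, ((b i : ℝ) - a i)) := by
    have e : C = Set.pi univ fun i => Ioo (a i : ℝ) (b i : ℝ) := by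
      rw [hC]
      ext x
      simp
    rw [e, Real.volume_pi_Ioo, ← ENNReal.ofReal_prod_of_nonneg]
    intro i _
    have := hab i
    have : (a i : ℝ) < b i := by exact_mod_cast this
    linarith
  have hvpos : (0 : ℝ) < ∏ i, ((b i : ℝ) - a i) := Finset.prod_pos fun i _ => by
    have := hab i
    have : (a i : ℝ) < b i := by exact_mod_cast this
    linarith
  have hCv' : volume.real C = ∏ i, ((b i : ℝ) - a i) := by
    rw [measureReal_def, hCv, ENNReal.toReal_ofReal hvpos.le]
  have hCfin : volume C ≠ ⊤ := by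
    rw [hCv]
    exact ENNReal.ofReal_ne_top
  -- the smaller function
  have hqS : SA (graph fun _ : Fin m → ℝ => (q : ℝ)) :=
    SA_alg (a := (q : ℝ)) (by
      have := isAlgebraic_algebraMap (R := ℚ) (A := ℝ) q
      exact this)
  have hA1S := thm_CAS (fun x => A x - q) A C (thm_DIF A _ hA hqS) hA hCS
  obtain ⟨A1, hA1⟩ : ∃ A1 : (Fin m → ℝ) → ℝ, A1 = fun x => if x ∈ C then A x - q else A x :=
    ⟨_, rfl⟩
  rw [← hA1] at hA1S
  have hA1e : A1 = fun x => A x - C.indicator (fun _ => (q : ℝ)) x := by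
    rw [hA1]
    funext x
    by_cases hx : x ∈ C
    · simp [hx]
    · simp [hx]
  have hind : Integrable (C.indicator fun _ => (q : ℝ)) :=
    (integrable_indicator_iff hCm).2 (integrableOn_const hCfin)
  have hA1i : Integrable A1 := by
    rw [hA1e]
    exact hi.sub hind
  have hA1v : (∫ x, A1 x) = (∫ x, A x) - q * ∏ i, ((b i : ℝ) - a i) := by
    rw [hA1e, integral_sub hi hind, integral_indicator_const _ hCm, hCv', smul_eq_mul]
    ring
  have hA1n : ∀ x, 0 ≤ A1 x := by
    intro x
    rw [hA1]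
    by_cases hx : x ∈ C
    · simp only [hx, if_true]
      have : (q : ℝ) < A x := hbox hx
      linarith
    · simp only [hx, if_false]
      exact h0 x
  -- the coefficient of the weight
  obtain ⟨d, hd⟩ : ∃ d : ℚ, d = 2 * (q * ∏ i, (b i - a i)) / 2 ^ m := ⟨_, rfl⟩
  have hd0 : 0 < d := by
    rw [hd]
    have : 0 < ∏ i, (b i - a i) := Finset.prod_pos fun i _ => sub_pos.2 (hab i)
    positivity
  have hdr : (d : ℝ) * (2 ^ m * Real.pi / 2) = Real.pi * (q * ∏ i, ((b i : ℝ) - a i)) := by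
    rw [hd]
    push_cast
    field_simp
  have hd0r : (0 : ℝ) < d := by exact_mod_cast hd0
  obtain ⟨P, Q, hQ, hPi, hPv, hPb⟩ := thm_WAI m A1 (d / 2) hA1S hA1i (half_pos hd0)
  obtain ⟨w1, w2⟩ := thm_WGT m
  obtain ⟨PF, hPF⟩ : ∃ PF, PF = P * dw m ^ 2 + MvPolynomial.C d * Q := ⟨_, rfl⟩
  have hDn : dw m ≠ 0 := by
    intro h
    have := dw_pos m 0
    rw [h, map_zero] at this
    exact lt_irrefl _ this
  have hPFe : ∀ y : Fin (m + 1) → ℝ, MvPolynomial.aeval y PF =
      MvPolynomial.aeval y P * MvPolynomial.aeval y (dw m) ^ 2 + d * MvPolynomial.aeval y Q := by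
    intro y
    rw [hPF, map_add, map_mul, map_mul, map_pow, MvPolynomial.aeval_C, eq_ratCast]
  have hrat : ∀ y : Fin (m + 1) → ℝ, MvPolynomial.aeval y Q ≠ 0 →
      rat PF (Q * dw m ^ 2) y = rat P Q y + d * wgt (Fin.init y) (y (Fin.last m)) := by
    intro y hy
    have hD := (dw_pos m y).ne'
    unfold rat
    rw [hPFe, map_mul, map_pow, wgt_eq]
    field_simp
  have hae : (fun y : Fin (m + 1) → ℝ => rat PF (Q * dw m ^ 2) y) =ᵐ[volume]
      fun y => rat P Q y + d * wgt (Fin.init y) (y (Fin.last m)) := by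
    filter_upwards [ae_aeval_ne Q hQ] with y hy
    exact hrat y hy
  refine ⟨PF, Q * dw m ^ 2, MvPolynomial.C (2 / d) * dw m ^ 2,
    mul_ne_zero hQ (pow_ne_zero 2 hDn),
    (hPi.add (w1.const_mul (d : ℝ))).congr hae.symm, ?_, ?_, ?_⟩
  · intro y
    have hD := dw_pos m y
    rw [map_mul, map_pow, MvPolynomial.aeval_C, eq_ratCast]
    push_cast
    positivity
  · -- the lower bound
    have hH : ∀ᵐ y : Fin (m + 1) → ℝ, 0 ≤ MvPolynomial.aeval y
        (PF * Q - MvPolynomial.C (d / 2) * Q ^ 2) := by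
      refine ae_of_snoc m _ ?_
      filter_upwards [hPb] with x hx t
      obtain ⟨-, c, hc, h2⟩ := hx t
      obtain ⟨y, hy⟩ : ∃ y : Fin (m + 1) → ℝ, y = Fin.snoc x t := ⟨_, rfl⟩
      have hw : wgt x t = 1 / MvPolynomial.aeval y (dw m) ^ 2 := by
        rw [← wgt_eq, hy, wgt_snoc]
      rw [← hy] at h2 ⊢
      rw [map_sub, map_mul, map_mul, map_pow, hPFe, MvPolynomial.aeval_C, eq_ratCast]
      rcases eq_or_ne (MvPolynomial.aeval y Q) 0 with h3 | h3
      · rw [h3]
        simp
      · have h4 : -((d : ℝ) / 2 * wgt x t) ≤ rat P Q y := by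
          have h5 : 0 ≤ c * A1 x := mul_nonneg hc (hA1n x)
          have h6 := (abs_le.1 h2).1
          push_cast at h6
          linarith
        rw [hw] at h4
        have hD := dw_pos m y
        have h7 : MvPolynomial.aeval y P = rat P Q y * MvPolynomial.aeval y Q := by
          unfold rat
          field_simp
        rw [h7]
        have h8 : -((d : ℝ) / 2) ≤ rat P Q y * MvPolynomial.aeval y (dw m) ^ 2 := by
          have h9 := mul_le_mul_of_nonneg_right h4 (sq_nonneg (MvPolynomial.aeval y (dw m)))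
          have h10 : -((d : ℝ) / 2 * (1 / MvPolynomial.aeval y (dw m) ^ 2)) *
              MvPolynomial.aeval y (dw m) ^ 2 = -((d : ℝ) / 2) := by
            field_simp
          linarith
        push_cast
        nlinarith [sq_nonneg (MvPolynomial.aeval y Q), mul_nonneg
          (by linarith : 0 ≤ rat P Q y * MvPolynomial.aeval y (dw m) ^ 2 + (d : ℝ) / 2)
          (sq_nonneg (MvPolynomial.aeval y Q))]
    have hopen : IsOpen {y : Fin (m + 1) → ℝ | MvPolynomial.aeval y
        (PF * Q - MvPolynomial.C (d / 2) * Q ^ 2) < 0} :=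
      isOpen_lt (continuous_aeval' _) continuous_const
    have hnull : volume {y : Fin (m + 1) → ℝ | MvPolynomial.aeval y
        (PF * Q - MvPolynomial.C (d / 2) * Q ^ 2) < 0} = 0 := by
      rw [ae_iff] at hH
      simpa only [not_le] using hH
    have hempty := (hopen.measure_eq_zero_iff volume).1 hnull
    intro y
    have hHy : 0 ≤ MvPolynomial.aeval y (PF * Q - MvPolynomial.C (d / 2) * Q ^ 2) := by
      by_contra h
      have : y ∈ {y : Fin (m + 1) → ℝ | MvPolynomial.aeval y
        (PF * Q - MvPolynomial.C (d / 2) * Q ^ 2) < 0} := not_le.1 h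
      rw [hempty] at this
      exact this
    rw [map_sub, map_mul, map_mul, map_pow, MvPolynomial.aeval_C, eq_ratCast] at hHy
    push_cast at hHy
    have hD := dw_pos m y
    rw [map_mul, map_mul, map_pow, MvPolynomial.aeval_C, eq_ratCast]
    push_cast
    have e1 : (2 : ℝ) / d * MvPolynomial.aeval y (dw m) ^ 2 * (MvPolynomial.aeval y PF *
        (MvPolynomial.aeval y Q * MvPolynomial.aeval y (dw m) ^ 2)) -
        (MvPolynomial.aeval y Q * MvPolynomial.aeval y (dw m) ^ 2) ^ 2 =
        2 / d * MvPolynomial.aeval y (dw m) ^ 4 *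
        (MvPolynomial.aeval y PF * MvPolynomial.aeval y Q -
          (d : ℝ) / 2 * MvPolynomial.aeval y Q ^ 2) := by
      field_simp
    have e2 : 0 ≤ 2 / (d : ℝ) * MvPolynomial.aeval y (dw m) ^ 4 *
        (MvPolynomial.aeval y PF * MvPolynomial.aeval y Q -
          (d : ℝ) / 2 * MvPolynomial.aeval y Q ^ 2) := by
      refine mul_nonneg (by positivity) ?_
      linarith
    linarith
  · rw [integral_congr_ae hae, integral_add hPi (w1.const_mul _), integral_const_mul, w2, hPv, hdr,
      hA1v]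
    ring

theorem thm_LBW (m : ℕ) (a : ℝ) (ha : V (m + 1) a) (hpos : 0 < a) :
    ∃ P Q G : MvPolynomial (Fin (m + 1)) ℚ, Q ≠ 0 ∧
      Integrable (fun y : Fin (m + 1) → ℝ => rat P Q y) ∧
      (∀ y : Fin (m + 1) → ℝ, 0 < MvPolynomial.aeval y G) ∧
      (∀ y : Fin (m + 1) → ℝ, MvPolynomial.aeval y Q ^ 2 ≤
        MvPolynomial.aeval y G * (MvPolynomial.aeval y P * MvPolynomial.aeval y Q)) ∧
      (∫ y : Fin (m + 1) → ℝ, rat P Q y) = Real.pi * a := by
  obtain ⟨A, hA, h0, hi, hv⟩ := (thm_VIN m a).1 ha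
  rw [hv] at hpos ⊢
  exact lbw_pos m A hA h0 hi hpos

end Pool.Agent.PWD
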