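import Pool.Agent.PWD.SBA
import Pool.Agent.PWD.GEN

/-!
# The pieces of a semialgebraic function
-/

set_option autoImplicit false

open Polynomial

namespace Pool.Agent.PWD

theorem spC_eval_ofReal {ι : Type} (x : ι → ℝ) (f : Polynomial (MvPolynomial ι ℚ)) (a : ℝ) :
    (spC x f).eval (a : ℂ) = ((spR x f).eval a : ℝ) := by
  unfold spC spR
  rw [← Polynomial.map_map, Polynomial.eval_map, ← Complex.coe_algebraMap,
    Polynomial.eval₂_at_apply]

/-- Points near `(t, x)` have the same signs for finitely many polynomials which do not vanish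
there. -/
theorem near_signs {ι : Type} (S : Finset (Polynomial (MvPolynomial ι ℚ))) (x : ι → ℝ) (t : ℝ)
    (h : ∀ s ∈ S, (spR x s).eval t ≠ 0) :
    ∃ t', t' ≠ t ∧ ∀ s ∈ S, SignType.sign ((spR x s).eval t) = SignType.sign ((spR x s).eval t') := by
  have h1 : ∀ᶠ t' in nhds t, ∀ s ∈ S,
      SignType.sign ((spR x s).eval t) = SignType.sign ((spR x s).eval t') := by
    rw [Filter.eventually_all_finset]
    intro s hs
    have hc : ContinuousAt (fun t' => (spR x s).eval t') t := (spR x s).continuous.continuousAt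
    rcases lt_or_gt_of_ne (h s hs) with h2 | h2
    · have h3 := hc.eventually_lt_const h2
      filter_upwards [h3] with t' ht'
      rw [sign_neg h2, sign_neg ht']
    · have h3 := hc.eventually_const_lt h2
      filter_upwards [h3] with t' ht'
      rw [sign_pos h2, sign_pos ht']
  have h4 := h1.filter_mono (nhdsWithin_le_nhds (s := {t}ᶜ))
  have h5 : ∀ᶠ t' in nhdsWithin t {t}ᶜ, t' ≠ t := eventually_mem_nhdsWithin
  obtain ⟨t', h6, h7⟩ := (h4.and h5).exists
  exact ⟨t', h7, h6⟩

theorem thm_PIE : St_PIE := by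
  classical
  intro ι _ A hA
  obtain ⟨S, hS1, hS2, hS3⟩ := sa_basis (graph A) hA
  obtain ⟨r, hr, hgen⟩ := generic S hS1 hS2
  have hgr : ∀ (x : ι → ℝ) (t : ℝ), pt t x ∈ graph A ↔ t = A x := by
    intro x t
    rfl
  -- the signed polynomials
  let g0 : S → (S → Bool) → S → Polynomial (MvPolynomial ι ℚ) := fun f σ i =>
    if i = f then 1 else if σ i then (i : Polynomial (MvPolynomial ι ℚ)) else -i
  let J : Type := {j : S × (S → Bool) // j.2 j.1 = true ∧
    1 ≤ (j.1 : Polynomial (MvPolynomial ι ℚ)).natDegree ∧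
    ∀ (x : ι → ℝ) (t : ℝ), (spR x (j.1 : Polynomial (MvPolynomial ι ℚ))).eval t = 0 →
      (∀ i, 0 < (spR x (g0 j.1 j.2 i)).eval t) → t = A x}
  have hneg : ∀ (x : ι → ℝ) (t : ℝ) (p : Polynomial (MvPolynomial ι ℚ)),
      (spR x (-p)).eval t = - (spR x p).eval t := by
    intro x t p
    unfold spR
    rw [Polynomial.map_neg, Polynomial.eval_neg]
  have hnegC : ∀ (x : ι → ℝ) (t : ℂ) (p : Polynomial (MvPolynomial ι ℚ)),
      (spC x (-p)).eval t = - (spC x p).eval t := by
    intro x t p
    unfold spC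
    rw [Polynomial.map_neg, Polynomial.eval_neg]
  have hone : ∀ (x : ι → ℝ) (t : ℝ), (spR x 1).eval t = 1 := by
    intro x t
    unfold spR
    rw [Polynomial.map_one, Polynomial.eval_one]
  have honeC : ∀ (x : ι → ℝ) (t : ℂ), (spC x 1).eval t = 1 := by
    intro x t
    unfold spC
    rw [Polynomial.map_one, Polynomial.eval_one]
  refine ⟨J, S, Fintype.ofFinite J, inferInstance, fun j => j.1.1, fun j i => g0 j.1.1 j.1.2 i, r, hr,
    fun j => j.2.2.1, ?_⟩
  intro x hx
  obtain ⟨hg1, hg2, hg3⟩ := hgen x hx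
  refine ⟨fun j => hg1 _ j.1.1.2, fun j => hg2 _ j.1.1.2 j.2.2.1, ?_, fun j T h1 h2 =>
    j.2.2.2 x T h1 h2, ?_⟩
  · intro j i a ha
    simp only [g0]
    split_ifs with h1 h2
    · rw [honeC]
      exact one_ne_zero
    · exact hg3 _ j.1.1.2 j.2.2.1 _ i.2 (fun h => h1 (Subtype.ext h)) a ha
    · rw [hnegC]
      exact neg_ne_zero.2 (hg3 _ j.1.1.2 j.2.2.1 _ i.2 (fun h => h1 (Subtype.ext h)) a ha)
  · -- a polynomial vanishing at `A x`
    have hex : ∃ f ∈ S, (spR x f).eval (A x) = 0 := by
      by_contra hcon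
      push Not at hcon
      obtain ⟨t', ht', hs⟩ := near_signs S x (A x) hcon
      exact ht' ((hgr x t').1 (hS3 x x (A x) t' hs ((hgr x (A x)).2 rfl)))
    obtain ⟨f, hf, hf0⟩ := hex
    have hfd : 1 ≤ f.natDegree := by
      by_contra hcon
      have h1 : f.natDegree = 0 := by omega
      rw [Polynomial.eq_C_of_natDegree_eq_zero h1] at hf0
      unfold spR at hf0
      rw [Polynomial.map_C, Polynomial.eval_C] at hf0
      have h2 := hg1 f hf
      rw [Polynomial.leadingCoeff, h1] at h2
      exact h2 hf0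
    have hothers : ∀ s ∈ S, s ≠ f → (spR x s).eval (A x) ≠ 0 := by
      intro s hs hsf h0
      have h1 := hg3 f hf hfd s hs hsf ((A x : ℝ) : ℂ) (by rw [spC_eval_ofReal, hf0]; simp)
      apply h1
      rw [spC_eval_ofReal, h0]
      simp
    let σ : S → Bool := fun i => if (i : Polynomial (MvPolynomial ι ℚ)) = f then true else
      decide (0 < (spR x (i : Polynomial (MvPolynomial ι ℚ))).eval (A x))
    have hσ : ∀ i : S, 0 < (spR x (g0 ⟨f, hf⟩ σ i)).eval (A x) := by
      intro i
      simp only [g0, σ]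
      by_cases h1 : i = ⟨f, hf⟩
      · rw [if_pos h1, hone]
        exact one_pos
      · have h2 : (i : Polynomial (MvPolynomial ι ℚ)) ≠ f := fun h => h1 (Subtype.ext h)
        rw [if_neg h1]
        simp only [h2, if_false]
        by_cases h3 : 0 < (spR x (i : Polynomial (MvPolynomial ι ℚ))).eval (A x)
        · simp [h3]
        · simp only [h3, decide_false, Bool.false_eq_true, if_false]
          rw [hneg]
          have h4 := hothers _ i.2 h2
          have h5 : (spR x (i : Polynomial (MvPolynomial ι ℚ))).eval (A x) < 0 :=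
            lt_of_le_of_ne (not_lt.1 h3) h4
          linarith
    have hcls : ∀ (x' : ι → ℝ) (t : ℝ), (spR x' f).eval t = 0 →
        (∀ i, 0 < (spR x' (g0 ⟨f, hf⟩ σ i)).eval t) → t = A x' := by
      intro x' t h1 h2
      apply (hgr x' t).1
      apply hS3 x x' (A x) t _ ((hgr x (A x)).2 rfl)
      intro s hs
      by_cases h3 : s = f
      · rw [h3, hf0, h1]
      · have h4 := hσ ⟨s, hs⟩
        have h5 := h2 ⟨s, hs⟩
        have h6 : (⟨s, hs⟩ : S) ≠ ⟨f, hf⟩ := fun h => h3 (Subtype.ext_iff.1 h)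
        simp only [g0, if_neg h6] at h4 h5
        by_cases h7 : σ ⟨s, hs⟩ = true
        · rw [if_pos h7] at h4 h5
          rw [sign_pos h4, sign_pos h5]
        · rw [if_neg h7, hneg] at h4 h5
          rw [sign_neg (by linarith), sign_neg (by linarith)]
    refine ⟨⟨(⟨f, hf⟩, σ), by simp [σ], hfd, hcls⟩, ⟨hf0, hσ⟩, ?_⟩
    rintro ⟨⟨⟨f', hf'⟩, σ'⟩, h1, h2, h3⟩ ⟨h4, h5⟩
    have h6 : f' = f := by
      by_contra hcon
      exact hothers f' hf' hcon h4
    subst h6
    apply Subtype.ext
    apply Prod.ext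
    · rfl
    · funext i
      show σ' i = σ i
      by_cases h7 : i = ⟨f', hf'⟩
      · rw [h7]
        have h8 : σ' ⟨f', hf'⟩ = true := h1
        rw [h8]
        simp [σ]
      · have h8 := h5 i
        have h9 := hσ i
        simp only [g0, if_neg h7] at h8 h9
        cases h10 : σ' i <;> cases h11 : σ i
        · rfl
        · rw [h10] at h8
          rw [h11] at h9
          simp only [Bool.false_eq_true, if_false, if_true] at h8 h9
          rw [hneg] at h8
          linarith
        · rw [h10] at h8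
          rw [h11] at h9
          simp only [Bool.false_eq_true, if_false, if_true] at h8 h9
          rw [hneg] at h9
          linarith
        · rfl

end Pool.Agent.PWD
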