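import Pool.Agent.PWD.LEB
import Pool.Agent.PWD.PIE
import Pool.Agent.PWQ.PRJ

/-!
# The pattern of the fibres of a semialgebraic set
-/

set_option autoImplicit false

open MeasureTheory Polynomial

namespace Pool.Agent.PWD

theorem exists_pat (V : Set ℝ) (Z : Finset ℝ) (N : ℕ) (hZ : Z.card ≤ N + 1)
    (h : ∀ t t' : ℝ, (∀ z ∈ Z, (z < t ↔ z < t') ∧ (t < z ↔ t' < z)) → (t ∈ V → t' ∈ V)) :
    ∃ (a : Fin (N + 1) → ℝ) (σ : Fin N → Bool) (s₀ s₁ : Bool), Pat V a σ s₀ s₁ := by
  classical
  obtain ⟨Z', hZZ', hcard⟩ := Infinite.exists_superset_card_eq Z (N + 1) hZ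
  set e := Z'.orderEmbOfFin hcard with he
  have hmem : ∀ z ∈ Z, ∃ i, e i = z := by
    intro z hz
    have h1 := Finset.range_orderEmbOfFin Z' hcard
    have h2 : z ∈ (Z' : Set ℝ) := hZZ' hz
    rw [← h1] at h2
    exact h2
  have hmono : StrictMono (fun i => e i) := e.strictMono
  have hiff : ∀ t t' : ℝ, (∀ i, (e i < t ↔ e i < t') ∧ (t < e i ↔ t' < e i)) → (t ∈ V ↔ t' ∈ V) := by
    intro t t' h1
    constructor
    · apply h
      intro z hz
      obtain ⟨i, rfl⟩ := hmem z hz
      exact h1 i
    · apply h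
      intro z hz
      obtain ⟨i, rfl⟩ := hmem z hz
      exact ⟨(h1 i).1.symm, (h1 i).2.symm⟩
  refine ⟨fun i => e i, fun k => decide ((e k.castSucc + e k.succ) / 2 ∈ V),
    decide (e 0 - 1 ∈ V), decide (e (Fin.last N) + 1 ∈ V), hmono, ?_, ?_, ?_⟩
  · intro t ht
    rw [decide_eq_true_iff]
    apply hiff
    intro i
    have h2 : e 0 ≤ e i := hmono.monotone (Fin.zero_le i)
    constructor
    · constructor <;> intro h3 <;> linarith
    · constructor <;> intro h3 <;> linarith
  · intro t ht
    rw [decide_eq_true_iff]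
    apply hiff
    intro i
    have h2 : e i ≤ e (Fin.last N) := hmono.monotone (Fin.le_last i)
    constructor
    · constructor <;> intro h3 <;> linarith
    · constructor <;> intro h3 <;> linarith
  · intro k t ht ht'
    rw [decide_eq_true_iff]
    apply hiff
    intro i
    rcases le_or_gt i k.castSucc with h1 | h1
    · have h2 : e i ≤ e k.castSucc := hmono.monotone h1
      constructor
      · constructor <;> intro h3 <;> linarith
      · constructor <;> intro h3 <;> linarith
    · have h2 : e k.succ ≤ e i := hmono.monotone (Fin.castSucc_lt_iff_succ_le.1 h1)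
      constructor
      · constructor <;> intro h3 <;> linarith
      · constructor <;> intro h3 <;> linarith

theorem sign_eq_of_no_root {f : ℝ[X]} {a b : ℝ} (h : ∀ v, (a ≤ v ∧ v ≤ b) ∨ (b ≤ v ∧ v ≤ a) →
    f.eval v ≠ 0) : SignType.sign (f.eval a) = SignType.sign (f.eval b) := by
  wlog hab : a ≤ b with H
  · exact (H (fun v hv => h v hv.symm) (le_of_not_ge hab)).symm
  rcases lt_or_gt_of_ne (h a (Or.inl ⟨le_rfl, hab⟩)) with h1 | h1
  · rcases lt_or_gt_of_ne (h b (Or.inl ⟨hab, le_rfl⟩)) with h2 | h2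
    · rw [sign_neg h1, sign_neg h2]
    · obtain ⟨v, hv, hv0⟩ := intermediate_value_Icc hab (f := fun v => f.eval v)
        f.continuous.continuousOn (Set.mem_Icc.2 ⟨h1.le, h2.le⟩)
      exact absurd hv0 (h v (Or.inl hv))
  · rcases lt_or_gt_of_ne (h b (Or.inl ⟨hab, le_rfl⟩)) with h2 | h2
    · obtain ⟨v, hv, hv0⟩ := intermediate_value_Icc' hab (f := fun v => f.eval v)
        f.continuous.continuousOn (Set.mem_Icc.2 ⟨h2.le, h1.le⟩)
      exact absurd hv0 (h v (Or.inl hv))
    · rw [sign_pos h1, sign_pos h2]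

/-- A uniform bound for the number of intervals of the fibres. -/
theorem fibre_pat {ι : Type} {S : Set (Option ι → ℝ)} (hS : SA S) :
    ∃ N : ℕ, ∀ x : ι → ℝ, ∃ (a : Fin (N + 1) → ℝ) (σ : Fin N → Bool) (s₀ s₁ : Bool),
      Pat {t | pt t x ∈ S} a σ s₀ s₁ := by
  classical
  obtain ⟨P, hP⟩ := hS
  refine ⟨∑ p ∈ P, (MvPolynomial.optionEquivLeft ℚ ι p).natDegree, fun x => ?_⟩
  set Z : Finset ℝ := P.biUnion (fun p => (spR x (MvPolynomial.optionEquivLeft ℚ ι p)).roots.toFinset)
    with hZ
  apply exists_pat _ Z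
  · have h1 : Z.card ≤ ∑ p ∈ P, (spR x (MvPolynomial.optionEquivLeft ℚ ι p)).roots.toFinset.card :=
      Finset.card_biUnion_le
    have h2 : ∑ p ∈ P, (spR x (MvPolynomial.optionEquivLeft ℚ ι p)).roots.toFinset.card ≤
        ∑ p ∈ P, (MvPolynomial.optionEquivLeft ℚ ι p).natDegree := by
      apply Finset.sum_le_sum
      intro p _
      refine (Multiset.toFinset_card_le _).trans ((Polynomial.card_roots' _).trans ?_)
      unfold spR
      exact Polynomial.natDegree_map_le
    omega
  · intro t t' h ht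
    show pt t' x ∈ S
    apply hP (pt t x) (pt t' x) _ ht
    intro p hp
    rw [aeval_pt, aeval_pt]
    by_cases h0 : spR x (MvPolynomial.optionEquivLeft ℚ ι p) = 0
    · rw [h0]
      simp
    · by_cases htt : t = t'
      · rw [htt]
      apply sign_eq_of_no_root
      intro v hv hv0
      have h1 : v ∈ Z := by
        rw [hZ, Finset.mem_biUnion]
        exact ⟨p, hp, by rw [Multiset.mem_toFinset, Polynomial.mem_roots h0]; exact hv0⟩
      have h2 := h v h1
      rcases hv with ⟨h3, h4⟩ | ⟨h3, h4⟩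
      · rcases lt_or_eq_of_le h3 with h5 | h5
        · have := h2.2.1 h5
          linarith
        · subst h5
          rcases lt_or_eq_of_le h4 with h6 | h6
          · exact lt_irrefl _ (h2.1.2 h6)
          · exact htt h6
      · rcases lt_or_eq_of_le h4 with h5 | h5
        · have := h2.1.1 h5
          linarith
        · subst h5
          rcases lt_or_eq_of_le h3 with h6 | h6
          · exact lt_irrefl _ (h2.2.2 h6)
          · exact htt h6.symm

end Pool.Agent.PWD
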