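import Mathlib

/-!
# The measure of a subset of the line with a given pattern
-/

set_option autoImplicit false

open MeasureTheory

namespace Pool.Agent.PWD

/-- `V` is constant on the intervals cut out by `a 0 < a 1 < ... < a N`. -/
def Pat (V : Set ℝ) {N : ℕ} (a : Fin (N + 1) → ℝ) (σ : Fin N → Bool) (s₀ s₁ : Bool) : Prop :=
  StrictMono a ∧ (∀ t, t < a 0 → (t ∈ V ↔ s₀ = true)) ∧
    (∀ t, a (Fin.last N) < t → (t ∈ V ↔ s₁ = true)) ∧
    ∀ (k : Fin N) (t : ℝ), a k.castSucc < t → t < a k.succ → (t ∈ V ↔ σ k = true)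

theorem vol_piece {V : Set ℝ} {a b : ℝ} {s : Bool}
    (h : ∀ t, a < t → t < b → (t ∈ V ↔ s = true)) :
    volume (V ∩ Set.Ioc a b) = ENNReal.ofReal (if s = true then b - a else 0) := by
  have h1 : volume (V ∩ Set.Ioc a b) = volume (V ∩ Set.Ioo a b) := by
    apply measure_congr
    have h2 : Set.Ioo a b =ᵐ[volume] Set.Ioc a b := Ioo_ae_eq_Ioc
    exact (Filter.EventuallyEq.inter (Filter.EventuallyEq.refl _ V) h2).symm
  rw [h1]
  cases s with
  | false =>
    have h3 : V ∩ Set.Ioo a b = ∅ := by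
      ext t
      simp only [Set.mem_inter_iff, Set.mem_Ioo, Set.mem_empty_iff_false, iff_false]
      rintro ⟨h4, h5, h6⟩
      have := (h t h5 h6).1 h4
      exact absurd this (by simp)
    rw [h3]
    simp
  | true =>
    have h3 : V ∩ Set.Ioo a b = Set.Ioo a b := by
      ext t
      simp only [Set.mem_inter_iff, Set.mem_Ioo, and_iff_right_iff_imp]
      rintro ⟨h5, h6⟩
      exact (h t h5 h6).2 rfl
    rw [h3, Real.volume_Ioo]
    simp

theorem vol_mid {V : Set ℝ} : ∀ {N : ℕ} (a : Fin (N + 1) → ℝ) (σ : Fin N → Bool), Monotone a →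
    (∀ (k : Fin N) (t : ℝ), a k.castSucc < t → t < a k.succ → (t ∈ V ↔ σ k = true)) →
    volume (V ∩ Set.Ioc (a 0) (a (Fin.last N))) =
      ENNReal.ofReal (∑ k : Fin N, if σ k = true then a k.succ - a k.castSucc else 0) := by
  intro N
  induction N with
  | zero =>
    intro a σ _ _
    simp
  | succ N ih =>
    intro a σ ha h
    have h1 := ih (fun k => a k.castSucc) (fun k => σ k.castSucc)
      (fun i j hij => ha (Fin.castSucc_le_castSucc_iff.2 hij))
      (fun k t h2 h3 => h k.castSucc t h2 (by rw [Fin.succ_castSucc]; exact h3))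
    have h2 := vol_piece (V := V) (h (Fin.last N))
    have h3 : a 0 ≤ a (Fin.last N).castSucc := ha (Fin.zero_le _)
    have h4 : a (Fin.last N).castSucc ≤ a (Fin.last (N + 1)) := ha (Fin.le_last _)
    have h5 := measure_inter_add_sdiff (μ := volume) (V ∩ Set.Ioc (a 0) (a (Fin.last (N + 1))))
      (measurableSet_Iic (a := a (Fin.last N).castSucc))
    have h6 : V ∩ Set.Ioc (a 0) (a (Fin.last (N + 1))) ∩ Set.Iic (a (Fin.last N).castSucc) =
        V ∩ Set.Ioc (a 0) (a (Fin.last N).castSucc) := by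
      ext t
      simp only [Set.mem_inter_iff, Set.mem_Ioc, Set.mem_Iic]
      constructor
      · rintro ⟨⟨h7, h8, _⟩, h9⟩
        exact ⟨h7, h8, h9⟩
      · rintro ⟨h7, h8, h9⟩
        exact ⟨⟨h7, h8, h9.trans h4⟩, h9⟩
    have h7 : (V ∩ Set.Ioc (a 0) (a (Fin.last (N + 1)))) \ Set.Iic (a (Fin.last N).castSucc) =
        V ∩ Set.Ioc (a (Fin.last N).castSucc) (a (Fin.last N).succ) := by
      ext t
      simp only [Set.mem_inter_iff, Set.mem_Ioc, Set.mem_sdiff, Set.mem_Iic, not_le]
      constructor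
      · rintro ⟨⟨h7, _, h9⟩, h10⟩
        exact ⟨h7, h10, h9⟩
      · rintro ⟨h7, h8, h9⟩
        exact ⟨⟨h7, lt_of_le_of_lt h3 h8, h9⟩, h8⟩
    rw [h6, h7] at h5
    rw [← h5, h2]
    have h8 : volume (V ∩ Set.Ioc (a 0) (a (Fin.last N).castSucc)) = _ := h1
    rw [h8, ← ENNReal.ofReal_add]
    · rw [Fin.sum_univ_castSucc]
      congr 1
    · apply Finset.sum_nonneg
      intro k _
      split_ifs
      · have : a k.castSucc.castSucc ≤ a k.succ.castSucc :=
          ha (Fin.castSucc_le_castSucc_iff.2 Fin.castSucc_lt_succ.le)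
        simpa using this
      · exact le_rfl
    · split_ifs
      · have := ha (Fin.castSucc_lt_succ (i := Fin.last N)).le
        linarith
      · exact le_rfl

theorem vol_pat {V : Set ℝ} {N : ℕ} {a : Fin (N + 1) → ℝ} {σ : Fin N → Bool} {s₀ s₁ : Bool}
    (h : Pat V a σ s₀ s₁) :
    (volume V).toReal = if s₀ = true ∨ s₁ = true then 0 else
      ∑ k : Fin N, if σ k = true then a k.succ - a k.castSucc else 0 := by
  obtain ⟨ha, h0, h1, hm⟩ := h
  split_ifs with hs
  · have htop : volume V = ⊤ := by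
      rcases hs with hs | hs
      · have h2 : Set.Iio (a 0) ⊆ V := fun t ht => (h0 t ht).2 hs
        have h3 := measure_mono (μ := volume) h2
        rw [Real.volume_Iio] at h3
        exact top_le_iff.1 h3
      · have h2 : Set.Ioi (a (Fin.last N)) ⊆ V := fun t ht => (h1 t ht).2 hs
        have h3 := measure_mono (μ := volume) h2
        rw [Real.volume_Ioi] at h3
        exact top_le_iff.1 h3
    rw [htop, ENNReal.toReal_top]
  · push Not at hs
    have hle : a 0 ≤ a (Fin.last N) := ha.monotone (Fin.zero_le _)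
    have h2 : volume V = volume (V ∩ Set.Ioc (a 0) (a (Fin.last N))) := by
      apply measure_congr
      have h3 : ∀ᵐ t : ℝ, t ≠ a 0 := by
        simp [ae_iff]
      filter_upwards [h3] with t ht
      apply propext
      show t ∈ V ↔ t ∈ V ∩ Set.Ioc (a 0) (a (Fin.last N))
      constructor
      · intro h4
        refine ⟨h4, ?_, ?_⟩
        · by_contra h5
          push Not at h5
          exact hs.1 ((h0 t (lt_of_le_of_ne h5 ht)).1 h4)
        · by_contra h5
          push Not at h5
          exact hs.2 ((h1 t h5).1 h4)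
      · exact fun h4 => h4.1
    rw [h2, vol_mid a σ ha.monotone hm, ENNReal.toReal_ofReal]
    apply Finset.sum_nonneg
    intro k _
    split_ifs
    · have := ha.monotone (Fin.castSucc_lt_succ (i := k)).le
      linarith
    · exact le_rfl

end Pool.Agent.PWD
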