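import Pool.Agent.PWD.LEA
import Pool.Agent.PWD.CMP

/-!
# The length of the fibres is a semialgebraic function
-/

set_option autoImplicit false

open MeasureTheory Polynomial Pool.Agent.PWQ

namespace Pool.Agent.PWD

theorem SA_fib {ι κ : Type} {S : Set (Option ι → ℝ)} (hS : SA S) (n : κ) (g : ι → κ) :
    SA {w : κ → ℝ | pt (w n) (fun i => w (g i)) ∈ S} := by
  have h := SA_reindex hS (fun o : Option ι => o.elim n g)
  have e : ∀ w : κ → ℝ, (fun o : Option ι => w (o.elim n g)) = pt (w n) (fun i => w (g i)) := by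
    intro w
    funext o
    cases o <;> rfl
  simpa only [e] using h

/-- the value of the length for a given pattern -/
noncomputable def patVal {N : ℕ} (a : Fin (N + 1) → ℝ) (σ : Fin N → Bool) (s₀ s₁ : Bool) : ℝ :=
  if s₀ = true ∨ s₁ = true then 0 else
    ∑ k : Fin N, if σ k = true then a k.succ - a k.castSucc else 0

theorem SA_all' {κ : Type} (p : (κ → ℝ) → ℝ → Prop)
    (h : SA {w : Option κ → ℝ | p (fun i => w (some i)) (w none)}) :
    SA {w : κ → ℝ | ∀ t, p w t} := SA_all h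

theorem SA_pat {ι : Type} {S : Set (Option ι → ℝ)} (hS : SA S) {N : ℕ} (σ : Fin N → Bool)
    (s₀ s₁ : Bool) : SA {w : Option ι ⊕ Fin (N + 1) → ℝ |
      Pat {t | pt t (fun i => w (Sum.inl (some i))) ∈ S} (fun k => w (Sum.inr k)) σ s₀ s₁} := by
  -- strict monotonicity
  have h1 : SA {w : Option ι ⊕ Fin (N + 1) → ℝ | StrictMono (fun k => w (Sum.inr k))} := by
    have h := SA_ball (Finset.univ : Finset (Fin N)) (fun k => {w : Option ι ⊕ Fin (N + 1) → ℝ |
      MvPolynomial.aeval w (MvPolynomial.X (Sum.inr k.castSucc) : MvPolynomial _ ℚ) <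
        MvPolynomial.aeval w (MvPolynomial.X (Sum.inr k.succ) : MvPolynomial _ ℚ)})
      (fun k _ => SA_lt _ _)
    simpa [Fin.strictMono_iff_lt_succ] using h
  -- the fibre condition
  have hf : SA {w : Option (Option ι ⊕ Fin (N + 1)) → ℝ |
      pt (w none) (fun i => w (some (Sum.inl (some i)))) ∈ S} :=
    SA_fib hS none (fun i => some (Sum.inl (some i)))
  have hl : ∀ p q : Option (Option ι ⊕ Fin (N + 1)),
      SA {w : Option (Option ι ⊕ Fin (N + 1)) → ℝ | w p < w q} := by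
    intro p q
    have h := SA_lt (i := Option (Option ι ⊕ Fin (N + 1))) (MvPolynomial.X p) (MvPolynomial.X q)
    simpa using h
  have h2 : SA {w : Option ι ⊕ Fin (N + 1) → ℝ | ∀ t, t < w (Sum.inr 0) →
      (pt t (fun i => w (Sum.inl (some i))) ∈ S ↔ s₀ = true)} :=
    SA_all' _ (SA_imp (hl none (some (Sum.inr 0))) (SA_iff hf (SA_const (s₀ = true))))
  have h3 : SA {w : Option ι ⊕ Fin (N + 1) → ℝ | ∀ t, w (Sum.inr (Fin.last N)) < t →
      (pt t (fun i => w (Sum.inl (some i))) ∈ S ↔ s₁ = true)} :=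
    SA_all' _ (SA_imp (hl (some (Sum.inr (Fin.last N))) none) (SA_iff hf (SA_const (s₁ = true))))
  have h4 : SA {w : Option ι ⊕ Fin (N + 1) → ℝ | ∀ k ∈ (Finset.univ : Finset (Fin N)),
      w ∈ {w : Option ι ⊕ Fin (N + 1) → ℝ | ∀ t, w (Sum.inr k.castSucc) < t →
        t < w (Sum.inr k.succ) → (pt t (fun i => w (Sum.inl (some i))) ∈ S ↔ σ k = true)}} :=
    SA_ball _ _ (fun k _ => SA_all' _ (SA_imp (hl (some (Sum.inr k.castSucc)) none)
      (SA_imp (hl none (some (Sum.inr k.succ))) (SA_iff hf (SA_const (σ k = true))))))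
  have h5 := SA_and h1 (SA_and h2 (SA_and h3 h4))
  have e : {w : Option ι ⊕ Fin (N + 1) → ℝ |
      Pat {t | pt t (fun i => w (Sum.inl (some i))) ∈ S} (fun k => w (Sum.inr k)) σ s₀ s₁} =
      {w | w ∈ {w : Option ι ⊕ Fin (N + 1) → ℝ | StrictMono (fun k => w (Sum.inr k))} ∧
        w ∈ {w | w ∈ {w : Option ι ⊕ Fin (N + 1) → ℝ | ∀ t, t < w (Sum.inr 0) →
          (pt t (fun i => w (Sum.inl (some i))) ∈ S ↔ s₀ = true)} ∧
          w ∈ {w | w ∈ {w : Option ι ⊕ Fin (N + 1) → ℝ | ∀ t, w (Sum.inr (Fin.last N)) < t →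
            (pt t (fun i => w (Sum.inl (some i))) ∈ S ↔ s₁ = true)} ∧
            w ∈ {w : Option ι ⊕ Fin (N + 1) → ℝ | ∀ k ∈ (Finset.univ : Finset (Fin N)),
              w ∈ {w : Option ι ⊕ Fin (N + 1) → ℝ | ∀ t, w (Sum.inr k.castSucc) < t →
                t < w (Sum.inr k.succ) →
                (pt t (fun i => w (Sum.inl (some i))) ∈ S ↔ σ k = true)}}}}} := by
    ext w
    constructor
    · rintro ⟨ha, hb, hc, hd⟩
      exact ⟨ha, hb, hc, fun k _ => hd k⟩
    · rintro ⟨ha, hb, hc, hd⟩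
      exact ⟨ha, hb, hc, fun k => hd k (Finset.mem_univ k)⟩
  rw [e]
  exact h5

theorem SA_patVal {ι : Type} {N : ℕ} (σ : Fin N → Bool) (s₀ s₁ : Bool) :
    SA {w : Option ι ⊕ Fin (N + 1) → ℝ |
      w (Sum.inl none) = patVal (fun k => w (Sum.inr k)) σ s₀ s₁} := by
  unfold patVal
  by_cases hs : s₀ = true ∨ s₁ = true
  · simp only [if_pos hs]
    have h := SA_eq (i := Option ι ⊕ Fin (N + 1)) (MvPolynomial.X (Sum.inl none)) 0
    simpa using h
  · simp only [if_neg hs]
    have h := SA_eq (i := Option ι ⊕ Fin (N + 1)) (MvPolynomial.X (Sum.inl none))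
      (∑ k : Fin N, if σ k = true then
        MvPolynomial.X (Sum.inr k.succ) - MvPolynomial.X (Sum.inr k.castSucc) else 0)
    have e : ∀ w : Option ι ⊕ Fin (N + 1) → ℝ, MvPolynomial.aeval w
        (∑ k : Fin N, if σ k = true then
          (MvPolynomial.X (Sum.inr k.succ) - MvPolynomial.X (Sum.inr k.castSucc) :
            MvPolynomial (Option ι ⊕ Fin (N + 1)) ℚ) else 0) =
        ∑ k : Fin N, if σ k = true then w (Sum.inr k.succ) - w (Sum.inr k.castSucc) else 0 := by
      intro w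
      rw [map_sum]
      apply Finset.sum_congr rfl
      intro k _
      split_ifs
      · simp
      · simp
    simp only [e, MvPolynomial.aeval_X] at h
    exact h

/-- the length of the fibres -/
noncomputable def len {ι : Type} (S : Set (Option ι → ℝ)) (x : ι → ℝ) : ℝ :=
  (volume {t : ℝ | pt t x ∈ S}).toReal

theorem SA_len {ι : Type} {S : Set (Option ι → ℝ)} (hS : SA S) : SA (graph (len S)) := by
  classical
  obtain ⟨N, hN⟩ := fibre_pat hS
  have h1 := SA_bex (Finset.univ : Finset ((Fin N → Bool) × Bool × Bool))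
    (fun s => {z : Option ι → ℝ | ∃ a : Fin (N + 1) → ℝ, Sum.elim z a ∈
      {w | w ∈ {w : Option ι ⊕ Fin (N + 1) → ℝ |
        Pat {t | pt t (fun i => w (Sum.inl (some i))) ∈ S} (fun k => w (Sum.inr k)) s.1 s.2.1 s.2.2} ∧
        w ∈ {w : Option ι ⊕ Fin (N + 1) → ℝ |
          w (Sum.inl none) = patVal (fun k => w (Sum.inr k)) s.1 s.2.1 s.2.2}}})
    (fun s _ => SA_ex_fin (SA_and (SA_pat hS s.1 s.2.1 s.2.2) (SA_patVal s.1 s.2.1 s.2.2)))
  have e : graph (len S) = {z : Option ι → ℝ | ∃ s ∈ (Finset.univ : Finset ((Fin N → Bool) × Bool × Bool)),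
      z ∈ {z : Option ι → ℝ | ∃ a : Fin (N + 1) → ℝ, Sum.elim z a ∈
      {w | w ∈ {w : Option ι ⊕ Fin (N + 1) → ℝ |
        Pat {t | pt t (fun i => w (Sum.inl (some i))) ∈ S} (fun k => w (Sum.inr k)) s.1 s.2.1 s.2.2} ∧
        w ∈ {w : Option ι ⊕ Fin (N + 1) → ℝ |
          w (Sum.inl none) = patVal (fun k => w (Sum.inr k)) s.1 s.2.1 s.2.2}}}} := by
    ext z
    constructor
    · intro hz
      obtain ⟨a, σ, s₀, s₁, hp⟩ := hN (fun i => z (some i))
      refine ⟨(σ, s₀, s₁), Finset.mem_univ _, a, hp, ?_⟩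
      show z none = patVal a σ s₀ s₁
      have h2 : z none = len S (fun i => z (some i)) := hz
      rw [h2]
      exact vol_pat hp
    · rintro ⟨⟨σ, s₀, s₁⟩, _, a, hp, hv⟩
      show z none = len S (fun i => z (some i))
      have h2 : z none = patVal a σ s₀ s₁ := hv
      rw [h2]
      exact (vol_pat hp).symm
  rw [e]
  exact h1

end Pool.Agent.PWD
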