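import Pool.Agent.PWQ.PRJ
import Pool.Agent.PWD.DEC

/-!
# PWD [LSA]: the semialgebraic relation of the line integral
-/

set_option autoImplicit false

open MvPolynomial

namespace Pool.Agent.PWD

open Pool.Agent.PWQ

/-- complex valued polynomial expressions with rational coefficients in real variables -/
def CI {S : Type} [CommRing S] (F : (S →+* ℝ) → ℂ) : Prop :=
  ∃ U W : S, ∀ φ : S →+* ℝ, F φ = ((φ U : ℝ) : ℂ) + ((φ W : ℝ) : ℂ) * Complex.I

section CI
variable {S : Type} [CommRing S]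

theorem ci_re (U : S) : CI fun φ : S →+* ℝ => ((φ U : ℝ) : ℂ) :=
  ⟨U, 0, fun φ => by simp⟩

theorem ci_mk (U W : S) : CI fun φ : S →+* ℝ => (⟨φ U, φ W⟩ : ℂ) :=
  ⟨U, W, fun φ => by apply Complex.ext <;> simp⟩

theorem ci_add {F G : (S →+* ℝ) → ℂ} (hF : CI F) (hG : CI G) : CI fun φ => F φ + G φ := by
  obtain ⟨U, W, h⟩ := hF
  obtain ⟨U', W', h'⟩ := hG
  refine ⟨U + U', W + W', fun φ => ?_⟩
  simp only [h, h', map_add]
  push_cast
  ring

theorem ci_sub {F G : (S →+* ℝ) → ℂ} (hF : CI F) (hG : CI G) : CI fun φ => F φ - G φ := by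
  obtain ⟨U, W, h⟩ := hF
  obtain ⟨U', W', h'⟩ := hG
  refine ⟨U - U', W - W', fun φ => ?_⟩
  simp only [h, h', map_sub]
  push_cast
  ring

theorem ci_mul {F G : (S →+* ℝ) → ℂ} (hF : CI F) (hG : CI G) : CI fun φ => F φ * G φ := by
  obtain ⟨U, W, h⟩ := hF
  obtain ⟨U', W', h'⟩ := hG
  refine ⟨U * U' - W * W', U * W' + W * U', fun φ => ?_⟩
  simp only [h, h', map_sub, map_add, map_mul]
  push_cast
  linear_combination ((φ W : ℝ) : ℂ) * ((φ W' : ℝ) : ℂ) * Complex.I_sq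

theorem ci_conj {F : (S →+* ℝ) → ℂ} (hF : CI F) : CI fun φ => (starRingEnd ℂ) (F φ) := by
  obtain ⟨U, W, h⟩ := hF
  refine ⟨U, -W, fun φ => ?_⟩
  simp only [h, map_add, map_mul, Complex.conj_ofReal, Complex.conj_I, map_neg]
  push_cast
  ring

theorem ci_prod {κ : Type} (s : Finset κ) (F : κ → (S →+* ℝ) → ℂ) (hF : ∀ j, CI (F j)) :
    CI fun φ => ∏ j ∈ s, F j φ := by
  classical
  induction s using Finset.induction_on with
  | empty => exact ⟨1, 0, fun φ => by simp⟩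
  | insert a s ha ih =>
    have := ci_mul (hF a) ih
    simpa only [Finset.prod_insert ha] using this

theorem ci_sum {κ : Type} (s : Finset κ) (F : κ → (S →+* ℝ) → ℂ) (hF : ∀ j, CI (F j)) :
    CI fun φ => ∑ j ∈ s, F j φ := by
  classical
  induction s using Finset.induction_on with
  | empty => exact ⟨0, 0, fun φ => by simp⟩
  | insert a s ha ih =>
    have := ci_add (hF a) ih
    simpa only [Finset.sum_insert ha] using this

theorem ci_pow {F : (S →+* ℝ) → ℂ} (hF : CI F) (k : ℕ) : CI fun φ => F φ ^ k := by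
  induction k with
  | zero => exact ⟨1, 0, fun φ => by simp⟩
  | succ k ih => simpa only [pow_succ] using ci_mul ih hF

end CI

/-- A function from a semialgebraic relation. -/
theorem sa_fun {ι : Type} (Φ : Set (Option ι → ℝ)) (hΦ : SA Φ) :
    ∃ A : (ι → ℝ) → ℝ, SA (graph A) ∧ ∀ x : ι → ℝ, (∃! y : ℝ, pt y x ∈ Φ) → pt (A x) x ∈ Φ := by
  classical
  obtain ⟨A, hA⟩ : ∃ A : (ι → ℝ) → ℝ, A = fun x => if h : ∃! y : ℝ, pt y x ∈ Φ then h.choose else 0 :=
    ⟨_, rfl⟩
  have hA1 : ∀ x : ι → ℝ, (∃! y : ℝ, pt y x ∈ Φ) → pt (A x) x ∈ Φ := by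
    intro x h
    rw [hA]
    simp only [dif_pos h]
    exact h.choose_spec.1
  refine ⟨A, ?_, hA1⟩
  -- the set of `(y, x)` with at most `y` in the fibre
  have s1 : SA {z : Option ι → ℝ | ∀ y : ℝ, pt y (fun i => z (some i)) ∈ Φ → y = z none} := by
    have h1 : SA {v : Option (Option ι) → ℝ |
        (fun o : Option ι => v (o.elim none (fun i => some (some i)))) ∈ Φ} :=
      SA_reindex hΦ _
    have h2 : SA {v : Option (Option ι) → ℝ | v none = v (some none)} := by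
      have := SA_eq (i := Option (Option ι)) (X none) (X (some none))
      simpa only [aeval_X] using this
    have h3 := SA_all (SA_imp h1 h2)
    have e : {z : Option ι → ℝ | ∀ y : ℝ, pt y (fun i => z (some i)) ∈ Φ → y = z none} =
        {z : Option ι → ℝ | ∀ t : ℝ, pt t z ∈ {v : Option (Option ι) → ℝ |
          v ∈ {v : Option (Option ι) → ℝ |
            (fun o : Option ι => v (o.elim none (fun i => some (some i)))) ∈ Φ} →
          v ∈ {v : Option (Option ι) → ℝ | v none = v (some none)}}} := by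
      ext z
      have e1 : ∀ t : ℝ, (fun o : Option ι => pt t z (o.elim none (fun i => some (some i)))) =
          pt t (fun i => z (some i)) := by
        intro t
        funext o
        cases o <;> rfl
      constructor
      · intro h t ht
        change (fun o : Option ι => pt t z (o.elim none (fun i => some (some i)))) ∈ Φ at ht
        rw [e1] at ht
        exact h t ht
      · intro h t ht
        refine h t ?_
        change (fun o : Option ι => pt t z (o.elim none (fun i => some (some i)))) ∈ Φ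
        rw [e1]
        exact ht
    rw [e]
    exact h3
  have s2 : SA {z : Option ι → ℝ | z ∈ Φ ∧
      z ∈ {z : Option ι → ℝ | ∀ y : ℝ, pt y (fun i => z (some i)) ∈ Φ → y = z none}} :=
    SA_and hΦ s1
  have s3 := SA_ex s2
  have s4 : SA {z : Option ι → ℝ | (fun i => z (some i)) ∈ {x : ι → ℝ | ∃ t : ℝ, pt t x ∈
      {z : Option ι → ℝ | z ∈ Φ ∧
      z ∈ {z : Option ι → ℝ | ∀ y : ℝ, pt y (fun i => z (some i)) ∈ Φ → y = z none}}}} :=
    SA_reindex s3 some
  have s5 : SA {z : Option ι → ℝ | z none = 0} := by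
    have := SA_zero (i := Option ι) (X none)
    simpa only [aeval_X] using this
  have s6 := SA_or s2 (SA_and s5 (SA_not s4))
  have e : graph A = {z | z ∈ {z : Option ι → ℝ | z ∈ Φ ∧
      z ∈ {z : Option ι → ℝ | ∀ y : ℝ, pt y (fun i => z (some i)) ∈ Φ → y = z none}} ∨
      z ∈ {x | x ∈ {z : Option ι → ℝ | z none = 0} ∧ x ∈ {x | x ∉ {z : Option ι → ℝ |
        (fun i => z (some i)) ∈ {x : ι → ℝ | ∃ t : ℝ, pt t x ∈
      {z : Option ι → ℝ | z ∈ Φ ∧
      z ∈ {z : Option ι → ℝ | ∀ y : ℝ, pt y (fun i => z (some i)) ∈ Φ → y = z none}}}}}}} := by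
    ext z
    obtain ⟨x, hx⟩ : ∃ x : ι → ℝ, x = fun i => z (some i) := ⟨_, rfl⟩
    have hz : z = pt (z none) x := by
      funext o
      cases o with
      | none => rfl
      | some i => rw [hx]; rfl
    have hgr : z ∈ graph A ↔ z none = A x := by rw [hx]; rfl
    rw [hgr]
    have hex : (∃ t : ℝ, pt t x ∈ {z : Option ι → ℝ | z ∈ Φ ∧
      z ∈ {z : Option ι → ℝ | ∀ y : ℝ, pt y (fun i => z (some i)) ∈ Φ → y = z none}}) ↔
        ∃! y : ℝ, pt y x ∈ Φ := Iff.rfl
    constructor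
    · intro h
      by_cases hu : ∃! y : ℝ, pt y x ∈ Φ
      · left
        have h1 := hA1 x hu
        rw [← h, ← hz] at h1
        refine ⟨h1, fun y hy => ?_⟩
        rw [← hx] at hy
        exact hu.unique hy (by rw [← hz]; exact h1)
      · right
        refine ⟨?_, ?_⟩
        · change z none = 0
          rw [h, hA]
          simp only [dif_neg hu]
        · change ¬ ((fun i => z (some i)) ∈ {x : ι → ℝ | ∃ t : ℝ, pt t x ∈ _})
          rw [← hx]
          exact fun h' => hu (hex.1 h')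
    · rintro (⟨h1, h2⟩ | ⟨h1, h2⟩)
      · have hu : ∃! y : ℝ, pt y x ∈ Φ := by
          refine ⟨z none, by change pt (z none) x ∈ Φ; rw [← hz]; exact h1, fun y hy => ?_⟩
          refine h2 y ?_
          rw [← hx]
          exact hy
        refine hu.unique ?_ (hA1 x hu)
        rw [← hz]
        exact h1
      · have hu : ¬ ∃! y : ℝ, pt y x ∈ Φ := by
          intro h'
          apply h2
          change (fun i => z (some i)) ∈ {x : ι → ℝ | ∃ t : ℝ, pt t x ∈ _}
          rw [← hx]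
          exact hex.2 h'
        have h3 : A x = 0 := by
          rw [hA]
          simp only [dif_neg hu]
        rw [h3]
        exact h1
  rw [e]
  exact s6

/-- The semialgebraic relation between `(y, x)`: `y` is `1 / π` times the line integral. -/
theorem lsa_rel {ι : Type} (D : ℕ) (P Q : MvPolynomial (Option ι) ℚ) :
    SA {u : Option ι → ℝ | ∃ (z a : Fin (D + 1) → ℂ), (∀ j, 0 < (z j).im) ∧
      (a (Fin.last D)).re = 0 ∧ u none = -2 * (a (Fin.last D)).im ∧
      ∀ t : ℝ, ((aeval (pt t (fun i => u (some i))) P : ℝ) : ℂ) * ((∏ j, ((t : ℂ) - z j)) *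
        ∏ j, ((t : ℂ) - (starRingEnd ℂ) (z j))) =
      ((aeval (pt t (fun i => u (some i))) Q : ℝ) : ℂ) *
        ((∑ k, a k * (t : ℂ) ^ (k : ℕ)) * (∏ j, ((t : ℂ) - (starRingEnd ℂ) (z j))) +
        (starRingEnd ℂ) (∑ k, a k * (t : ℂ) ^ (k : ℕ)) * ∏ j, ((t : ℂ) - z j))} := by
  classical
  -- the ring of polynomials in `t, (y, x), w`
  let κ : Type := Fin (D + 1) × Fin 4
  let V : Type := Option (Option ι ⊕ κ)
  let S : Type := MvPolynomial V ℚ
  let P' : S := rename (fun o : Option ι => o.elim none (fun i => some (Sum.inl (some i)))) P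
  let Q' : S := rename (fun o : Option ι => o.elim none (fun i => some (Sum.inl (some i)))) Q
  let ζ : Fin (D + 1) → (S →+* ℝ) → ℂ := fun j φ =>
    ⟨φ (X (some (Sum.inr (j, 0)))), φ (X (some (Sum.inr (j, 1))))⟩
  let α : Fin (D + 1) → (S →+* ℝ) → ℂ := fun j φ =>
    ⟨φ (X (some (Sum.inr (j, 2)))), φ (X (some (Sum.inr (j, 3))))⟩
  have hT : CI fun φ : S →+* ℝ => ((φ (X none) : ℝ) : ℂ) := ci_re _
  have hζ : ∀ j, CI (ζ j) := fun j => ci_mk _ _
  have hα : ∀ j, CI (α j) := fun j => ci_mk _ _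
  have h1 : CI fun φ : S →+* ℝ => ∏ j, (((φ (X none) : ℝ) : ℂ) - ζ j φ) :=
    ci_prod Finset.univ (fun j φ => ((φ (X none) : ℝ) : ℂ) - ζ j φ) fun j => ci_sub hT (hζ j)
  have h2 : CI fun φ : S →+* ℝ => ∏ j, (((φ (X none) : ℝ) : ℂ) - (starRingEnd ℂ) (ζ j φ)) :=
    ci_prod Finset.univ (fun j φ => ((φ (X none) : ℝ) : ℂ) - (starRingEnd ℂ) (ζ j φ)) fun j =>
      ci_sub hT (ci_conj (hζ j))
  have h3 : CI fun φ : S →+* ℝ => ∑ k, α k φ * ((φ (X none) : ℝ) : ℂ) ^ (k : ℕ) :=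
    ci_sum Finset.univ (fun k φ => α k φ * ((φ (X none) : ℝ) : ℂ) ^ (k : ℕ)) fun k =>
      ci_mul (hα k) (ci_pow hT _)
  obtain ⟨U, W, hUW⟩ := ci_sub (ci_mul (ci_re P') (ci_mul h1 h2))
    (ci_mul (ci_re Q') (ci_add (ci_mul h3 h2) (ci_mul (ci_conj h3) h1)))
  have key : ∀ (u : Option ι → ℝ) (w : κ → ℝ) (t : ℝ),
      ((aeval (pt t (fun i => u (some i))) P : ℝ) : ℂ) *
        ((∏ j : Fin (D + 1), ((t : ℂ) - (⟨w (j, 0), w (j, 1)⟩ : ℂ))) *
        ∏ j : Fin (D + 1), ((t : ℂ) - (starRingEnd ℂ) (⟨w (j, 0), w (j, 1)⟩ : ℂ))) -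
      ((aeval (pt t (fun i => u (some i))) Q : ℝ) : ℂ) *
        ((∑ k : Fin (D + 1), (⟨w (k, 2), w (k, 3)⟩ : ℂ) * (t : ℂ) ^ (k : ℕ)) *
          (∏ j : Fin (D + 1), ((t : ℂ) - (starRingEnd ℂ) (⟨w (j, 0), w (j, 1)⟩ : ℂ))) +
        (starRingEnd ℂ) (∑ k : Fin (D + 1), (⟨w (k, 2), w (k, 3)⟩ : ℂ) * (t : ℂ) ^ (k : ℕ)) *
          ∏ j : Fin (D + 1), ((t : ℂ) - (⟨w (j, 0), w (j, 1)⟩ : ℂ))) =
      ((aeval (pt t (Sum.elim u w)) U : ℝ) : ℂ) +
        ((aeval (pt t (Sum.elim u w)) W : ℝ) : ℂ) * Complex.I := by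
    intro u w t
    have h := hUW (aeval (pt t (Sum.elim u w)) : S →ₐ[ℚ] ℝ).toRingHom
    have e0 : (pt t (Sum.elim u w)) ∘
        (fun o : Option ι => o.elim none (fun i => some (Sum.inl (some i)))) =
        pt t (fun i => u (some i)) := by
      funext o
      cases o <;> rfl
    have e1 : (aeval (pt t (Sum.elim u w)) : S →ₐ[ℚ] ℝ) P' =
        aeval (pt t (fun i => u (some i))) P := by
      change aeval (pt t (Sum.elim u w)) (rename _ P) = _
      rw [aeval_rename, e0]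
    have e2 : (aeval (pt t (Sum.elim u w)) : S →ₐ[ℚ] ℝ) Q' =
        aeval (pt t (fun i => u (some i))) Q := by
      change aeval (pt t (Sum.elim u w)) (rename _ Q) = _
      rw [aeval_rename, e0]
    have e3 : (aeval (pt t (Sum.elim u w)) : S →ₐ[ℚ] ℝ) (X none) = t := by
      rw [aeval_X]
      rfl
    have e4 : ∀ (j : Fin (D + 1)) (c : Fin 4),
        (aeval (pt t (Sum.elim u w)) : S →ₐ[ℚ] ℝ) (X (some (Sum.inr (j, c)))) = w (j, c) := by
      intro j c
      rw [aeval_X]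
      rfl
    simp only [ζ, α, AlgHom.toRingHom_eq_coe, RingHom.coe_coe, e1, e2, e3, e4] at h
    exact h
  have key2 : ∀ (u : Option ι → ℝ) (w : κ → ℝ) (t : ℝ),
      (((aeval (pt t (fun i => u (some i))) P : ℝ) : ℂ) *
        ((∏ j : Fin (D + 1), ((t : ℂ) - (⟨w (j, 0), w (j, 1)⟩ : ℂ))) *
        ∏ j : Fin (D + 1), ((t : ℂ) - (starRingEnd ℂ) (⟨w (j, 0), w (j, 1)⟩ : ℂ))) =
      ((aeval (pt t (fun i => u (some i))) Q : ℝ) : ℂ) *
        ((∑ k : Fin (D + 1), (⟨w (k, 2), w (k, 3)⟩ : ℂ) * (t : ℂ) ^ (k : ℕ)) *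
          (∏ j : Fin (D + 1), ((t : ℂ) - (starRingEnd ℂ) (⟨w (j, 0), w (j, 1)⟩ : ℂ))) +
        (starRingEnd ℂ) (∑ k : Fin (D + 1), (⟨w (k, 2), w (k, 3)⟩ : ℂ) * (t : ℂ) ^ (k : ℕ)) *
          ∏ j : Fin (D + 1), ((t : ℂ) - (⟨w (j, 0), w (j, 1)⟩ : ℂ)))) ↔
      (aeval (pt t (Sum.elim u w)) U = 0 ∧ aeval (pt t (Sum.elim u w)) W = 0) := by
    intro u w t
    rw [← sub_eq_zero, key u w t]
    constructor
    · intro h
      have h1 := congrArg Complex.re h
      have h2 := congrArg Complex.im h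
      simp only [Complex.add_re, Complex.ofReal_re, Complex.mul_re, Complex.I_re, mul_zero,
        Complex.ofReal_im, Complex.I_im, mul_one, sub_zero, add_zero, Complex.zero_re,
        Complex.add_im, Complex.mul_im, zero_add, Complex.zero_im] at h1 h2
      exact ⟨h1, h2⟩
    · rintro ⟨h1, h2⟩
      rw [h1, h2]
      simp
  -- the four conditions
  have s1 : SA {v : Option ι ⊕ κ → ℝ | ∀ t : ℝ, pt t v ∈ {w : V → ℝ |
      w ∈ {w : V → ℝ | aeval w U = 0} ∧ w ∈ {w : V → ℝ | aeval w W = 0}}} :=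
    SA_all (SA_and (SA_zero U) (SA_zero W))
  have s2 : SA {v : Option ι ⊕ κ → ℝ | ∀ j ∈ (Finset.univ : Finset (Fin (D + 1))),
      v ∈ {v : Option ι ⊕ κ → ℝ | 0 < v (Sum.inr (j, 1))}} := by
    refine SA_ball _ _ fun j _ => ?_
    have := SA_pos (i := Option ι ⊕ κ) (X (Sum.inr (j, 1)))
    simpa only [aeval_X] using this
  have s3 : SA {v : Option ι ⊕ κ → ℝ | v (Sum.inr (Fin.last D, 2)) = 0} := by
    have := SA_zero (i := Option ι ⊕ κ) (X (Sum.inr (Fin.last D, 2)))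
    simpa only [aeval_X] using this
  have s4 : SA {v : Option ι ⊕ κ → ℝ | v (Sum.inl none) = -2 * v (Sum.inr (Fin.last D, 3))} := by
    have := SA_eq (i := Option ι ⊕ κ) (X (Sum.inl none)) (-2 * X (Sum.inr (Fin.last D, 3)))
    simpa only [aeval_X, map_mul, map_neg, map_ofNat] using this
  have s5 := SA_ex_fin (SA_and s2 (SA_and s3 (SA_and s4 s1)))
  convert s5 using 1
  ext u
  constructor
  · rintro ⟨z, a, hz, ha, hy, ht⟩
    refine ⟨fun k => if k.2 = 0 then (z k.1).re else if k.2 = 1 then (z k.1).im else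
      if k.2 = 2 then (a k.1).re else (a k.1).im, ?_, ?_, ?_, ?_⟩
    · intro j _
      simpa using hz j
    · simpa using ha
    · simpa using hy
    · intro t
      refine (key2 u _ t).1 ?_
      simpa using ht t
  · rintro ⟨w, h1, h2, h3, h4⟩
    refine ⟨fun j => ⟨w (j, 0), w (j, 1)⟩, fun j => ⟨w (j, 2), w (j, 3)⟩,
      fun j => h1 j (Finset.mem_univ _), h2, h3, fun t => ?_⟩
    exact (key2 u w t).2 (h4 t)

end Pool.Agent.PWD
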