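import Pool.Agent.PWD.St

/-!
# Periods without domains: numerical inequalities and complex square roots of real numbers
-/

set_option autoImplicit false

namespace Pool.Agent.PWD

/-- a complex square root of a real number -/
noncomputable def csq (r : ℝ) : ℂ :=
  if 0 ≤ r then ((√r : ℝ) : ℂ) else ((√(-r) : ℝ) : ℂ) * Complex.I

theorem csq_sq (r : ℝ) : csq r ^ 2 = (r : ℂ) := by
  unfold csq
  split_ifs with h
  · rw [← Complex.ofReal_pow, Real.sq_sqrt h]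
  · rw [mul_pow, ← Complex.ofReal_pow, Real.sq_sqrt (by linarith), Complex.I_sq]
    push_cast
    ring

theorem csq_norm (r : ℝ) : ‖csq r‖ = √|r| := by
  unfold csq
  split_ifs with h
  · rw [Complex.norm_real, Real.norm_of_nonneg (Real.sqrt_nonneg _), abs_of_nonneg h]
  · rw [norm_mul, Complex.norm_I, mul_one, Complex.norm_real,
      Real.norm_of_nonneg (Real.sqrt_nonneg _), abs_of_neg (by linarith)]

theorem csq_alt (r : ℝ) : (csq r).re = 0 ∨ (csq r).im = 0 := by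
  unfold csq
  split_ifs with h
  · right
    exact Complex.ofReal_im _
  · left
    simp

theorem csq_im (r : ℝ) : (csq r).im = 0 ↔ 0 ≤ r := by
  unfold csq
  split_ifs with h
  · simp [h]
  · have h1 : 0 < √(-r) := Real.sqrt_pos.mpr (by linarith)
    simp only [Complex.mul_im, Complex.ofReal_re, Complex.I_im, mul_one, Complex.ofReal_im,
      Complex.I_re, mul_zero, add_zero]
    constructor
    · intro h2
      exact absurd h2 h1.ne'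
    · intro h2
      exact absurd h2 h

theorem sqrt_upp (r : ℝ) : √|r| ≤ 1 + r ^ 2 := by
  have h0 : 0 ≤ √|r| := Real.sqrt_nonneg _
  have h1 : √|r| ^ 2 = |r| := Real.sq_sqrt (abs_nonneg r)
  have h2 : r ^ 2 = (√|r| ^ 2) ^ 2 := by rw [h1, sq_abs]
  rw [h2]
  set w := √|r|
  nlinarith [sq_nonneg (w - 1), sq_nonneg (w ^ 2 - 1), sq_nonneg w]

theorem sqrt_low (r : ℝ) : r ^ 2 ≤ (1 + r ^ 2) * (1 + r ^ 2) * √|r| := by
  have h0 : 0 ≤ √|r| := Real.sqrt_nonneg _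
  have h1 : √|r| ^ 2 = |r| := Real.sq_sqrt (abs_nonneg r)
  have h2 : r ^ 2 = (√|r| ^ 2) ^ 2 := by rw [h1, sq_abs]
  rw [h2]
  set w := √|r| with hw
  have h3 : w ^ 3 ≤ (1 + (w ^ 2) ^ 2) * (1 + (w ^ 2) ^ 2) := by
    rcases le_or_gt w 1 with h | h
    · have : w ^ 3 ≤ 1 := pow_le_one₀ h0 h
      nlinarith [sq_nonneg (w ^ 2), sq_nonneg ((w ^ 2) ^ 2)]
    · have h4 : w ^ 3 ≤ w ^ 4 := pow_le_pow_right₀ h.le (by norm_num)
      nlinarith [sq_nonneg (w ^ 2), sq_nonneg ((w ^ 2) ^ 2)]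
  calc (w ^ 2) ^ 2 = w ^ 3 * w := by ring
    _ ≤ (1 + (w ^ 2) ^ 2) * (1 + (w ^ 2) ^ 2) * w := mul_le_mul_of_nonneg_right h3 h0

theorem num_bound (P Q e p2 C q N : ℝ) (he : 0 < e) (hQ : Q ≠ 0) (hp : 0 < p2) (hC : 0 ≤ C)
    (hq : 1 ≤ q) (hN : 1 + 2 * Q ^ 2 * p2 + 128 / e * (1 + P ^ 2) * (1 + Q ^ 2) ^ 3 * p2 ^ 2 * C *
      q ^ 2 ≤ N) :
    |P / Q| * (8 * (Q ^ 2 * p2 ^ 2) ^ 3 * (N * C) * q ^ 2 / (N * p2 / 2) ^ 4) ≤ e := by
  have hA : 0 ≤ 128 / e * (1 + P ^ 2) * (1 + Q ^ 2) ^ 3 * p2 ^ 2 * C * q ^ 2 := by positivity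
  have hB : 0 ≤ 2 * Q ^ 2 * p2 := by positivity
  have hN1 : 1 ≤ N := by linarith
  have hN0 : 0 < N := by linarith
  have hN3 : N ≤ N ^ 3 := by nlinarith [sq_nonneg N, sq_nonneg (N - 1)]
  have hQa : 0 < |Q| := abs_pos.mpr hQ
  have hP1 : |P| ≤ 1 + P ^ 2 := by
    rw [← sq_abs P]
    nlinarith [sq_nonneg (|P| - 1), abs_nonneg P]
  have hQ5 : |Q| ^ 5 ≤ (1 + Q ^ 2) ^ 3 := by
    have h1 : |Q| ^ 5 ≤ 1 + |Q| ^ 6 := by
      rcases le_or_gt |Q| 1 with h | h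
      · have : |Q| ^ 5 ≤ 1 := pow_le_one₀ (abs_nonneg _) h
        have : 0 ≤ |Q| ^ 6 := by positivity
        linarith
      · have : |Q| ^ 5 ≤ |Q| ^ 6 := pow_le_pow_right₀ h.le (by norm_num)
        linarith
    have h2 : |Q| ^ 6 = (Q ^ 2) ^ 3 := by
      rw [← sq_abs Q]
      ring
    rw [h2] at h1
    nlinarith [sq_nonneg Q, sq_nonneg (Q ^ 2)]
  have key : |P / Q| * (8 * (Q ^ 2 * p2 ^ 2) ^ 3 * (N * C) * q ^ 2 / (N * p2 / 2) ^ 4) =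
      128 * |P| * |Q| ^ 5 * p2 ^ 2 * C * q ^ 2 / N ^ 3 := by
    rw [abs_div, ← sq_abs Q]
    field_simp
    ring
  rw [key, div_le_iff₀ (by positivity)]
  have h3 : 128 * |P| * |Q| ^ 5 * p2 ^ 2 * C * q ^ 2 ≤
      128 * (1 + P ^ 2) * (1 + Q ^ 2) ^ 3 * p2 ^ 2 * C * q ^ 2 := by
    gcongr
  have h4 : 128 * (1 + P ^ 2) * (1 + Q ^ 2) ^ 3 * p2 ^ 2 * C * q ^ 2 =
      e * (128 / e * (1 + P ^ 2) * (1 + Q ^ 2) ^ 3 * p2 ^ 2 * C * q ^ 2) := by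
    field_simp
  rw [h4] at h3
  refine h3.trans (mul_le_mul_of_nonneg_left ?_ he.le)
  linarith

end Pool.Agent.PWD
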