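import Pool.Agent.PWD.St

set_option autoImplicit false

namespace Pool.Agent.PWD

theorem thm_POL : St_POL := by
  intro S _ k
  induction k with
  | zero =>
    intro r K
    refine ⟨Fin.elim0, fun _ => 1, by simp, fun i => i.elim0, fun i => i.elim0⟩
  | succ k ih =>
    intro r K
    -- split off the index `0`
    obtain ⟨L, M, h1, h2, h3⟩ := ih (fun i => r i.succ) (fun i => K i.succ)
    -- multiply everything by `r 0 ^ 2`
    refine ⟨Fin.cons ((1 + r 0 ^ 2) * K 0 * M 0) (fun i => r 0 ^ 2 * L i),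
      Fin.cons (r 0 ^ 2 * M 0 + ((1 + r 0 ^ 2) * K 0 * M 0) * K 0) (fun i => r 0 ^ 2 * M i),
      ?_, ?_, ?_⟩
    · rw [← Fin.succ_last, Fin.cons_succ, h1, Fin.prod_univ_succ]
    · intro i
      refine Fin.cases ?_ (fun j => ?_) i
      · rw [Fin.cons_zero, Fin.cons_succ]
        ring
      · rw [Fin.cons_succ, Fin.cons_succ]
        linear_combination (r 0 ^ 2) * h2 j
    · intro i
      refine Fin.cases ?_ (fun j => ?_) i
      · rw [Fin.castSucc_zero, Fin.cons_zero, Fin.cons_zero, Fin.cons_succ]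
      · rw [← Fin.succ_castSucc, Fin.cons_succ, Fin.cons_succ, Fin.cons_succ]
        linear_combination (r 0 ^ 2) * h3 j

end Pool.Agent.PWD
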