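import Pool.Agent.PWD.StR
import Pool.Agent.PWD.BDS
import Pool.Agent.PWQ.PRJ

/-!
# Rational bounds for roots, imaginary parts and values (helper15)
-/

set_option autoImplicit false

open MvPolynomial Set
open Pool.Agent.PWQ

namespace Pool.Agent.PWD

/-- real and imaginary part of `f(x, u + i v)` as polynomials in `x, u, v` -/
theorem exists_reim {ι : Type} (f : Polynomial (MvPolynomial ι ℚ)) :
    ∃ F G : MvPolynomial (Option (Option (Option ι))) ℚ, ∀ (x : ι → ℝ) (y u v : ℝ),
      (spC x f).eval ((u : ℂ) + (v : ℂ) * Complex.I) =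
        ((aeval (pt v (pt u (pt y x))) F : ℝ) : ℂ) +
          ((aeval (pt v (pt u (pt y x))) G : ℝ) : ℂ) * Complex.I := by
  induction f using Polynomial.induction_on with
  | C a =>
    refine ⟨rename (fun i => some (some (some i))) a, 0, fun x y u v => ?_⟩
    unfold spC
    rw [Polynomial.map_C, Polynomial.eval_C, aeval_rename, map_zero, Complex.ofReal_zero, zero_mul,
      add_zero]
    rfl
  | add p q hp hq =>
    obtain ⟨F, G, h1⟩ := hp
    obtain ⟨F', G', h2⟩ := hq
    refine ⟨F + F', G + G', fun x y u v => ?_⟩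
    have e : spC x (p + q) = spC x p + spC x q := by
      unfold spC
      rw [Polynomial.map_add]
    rw [e, Polynomial.eval_add, h1 x y u v, h2 x y u v, map_add, map_add]
    push_cast
    ring
  | monomial n a h =>
    obtain ⟨F, G, h1⟩ := h
    refine ⟨F * X (some none) - G * X none, F * X none + G * X (some none), fun x y u v => ?_⟩
    have e : spC x (Polynomial.C a * Polynomial.X ^ (n + 1)) =
        spC x (Polynomial.C a * Polynomial.X ^ n) * Polynomial.X := by
      unfold spC
      rw [pow_succ, ← mul_assoc, Polynomial.map_mul, Polynomial.map_X]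
    rw [e, Polynomial.eval_mul, Polynomial.eval_X, h1 x y u v, map_sub, map_add, map_mul, map_mul,
      map_mul, map_mul, aeval_X, aeval_X]
    have e1 : pt v (pt u (pt y x)) none = v := rfl
    have e2 : pt v (pt u (pt y x)) (some none) = u := rfl
    rw [e1, e2]
    push_cast
    linear_combination (((aeval (pt v (pt u (pt y x))) G : ℝ) : ℂ) * v) * Complex.I_sq

/-- the conditions on a bound `y` at a root `a` -/
def Cond {ι I : Type} (g : I → Polynomial (MvPolynomial ι ℚ)) (x : ι → ℝ) (y : ℝ) (a : ℂ) : Prop :=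
  ‖a‖ ≤ y ∧ (a.im ≠ 0 → 1 ≤ y * |a.im|) ∧
    ∀ i, 1 ≤ y * ‖(spC x (g i)).eval a‖ ∧ ‖(spC x (g i)).eval a‖ ≤ y

theorem nrm_sq (a b : ℝ) : ‖(a : ℂ) + (b : ℂ) * Complex.I‖ ^ 2 = a ^ 2 + b ^ 2 := by
  rw [Complex.sq_norm, Complex.normSq_add_mul_I]

theorem nrm_le {a b y : ℝ} (hy : 0 ≤ y) :
    ‖(a : ℂ) + (b : ℂ) * Complex.I‖ ≤ y ↔ a ^ 2 + b ^ 2 ≤ y ^ 2 := by
  rw [← nrm_sq]
  exact (pow_le_pow_iff_left₀ (norm_nonneg _) hy two_ne_zero).symm

theorem le_nrm {a b y : ℝ} (hy : 0 ≤ y) :
    1 ≤ y * ‖(a : ℂ) + (b : ℂ) * Complex.I‖ ↔ 1 ≤ y ^ 2 * (a ^ 2 + b ^ 2) := by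
  rw [← nrm_sq, ← mul_pow]
  exact (one_le_sq_iff₀ (mul_nonneg hy (norm_nonneg _))).symm

theorem le_abs' {v y : ℝ} (hy : 0 ≤ y) : 1 ≤ y * |v| ↔ 1 ≤ y ^ 2 * v ^ 2 := by
  rw [← sq_abs v, ← mul_pow]
  exact (one_le_sq_iff₀ (mul_nonneg hy (abs_nonneg _))).symm

/-- the set of the pairs (bound, point) -/
theorem exists_B {ι J I : Type} [Fintype J] [Fintype I]
    (f : J → Polynomial (MvPolynomial ι ℚ)) (g : J → I → Polynomial (MvPolynomial ι ℚ)) :
    ∃ B : Set (Option ι → ℝ), SA B ∧ ∀ (y : ℝ) (x : ι → ℝ), pt y x ∈ B ↔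
      1 ≤ y ∧ ∀ j (a : ℂ), (spC x (f j)).eval a = 0 → Cond (g j) x y a := by
  choose F F' hF using fun j => exists_reim (f j)
  choose G G' hG using fun j i => exists_reim (g j i)
  obtain ⟨R, hRdef⟩ : ∃ R : J → Set (Option (Option (Option ι)) → ℝ), R = fun j =>
      {w | (aeval w (F j) = 0 ∧ aeval w (F' j) = 0) →
        (aeval w ((X (some none)) ^ 2 + (X none) ^ 2 : MvPolynomial (Option (Option (Option ι))) ℚ) ≤
            aeval w ((X (some (some none))) ^ 2 : MvPolynomial (Option (Option (Option ι))) ℚ) ∧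
          ((aeval w (X none : MvPolynomial (Option (Option (Option ι))) ℚ) = 0 ∨
            aeval w (1 : MvPolynomial (Option (Option (Option ι))) ℚ) ≤
            aeval w ((X (some (some none))) ^ 2 * (X none) ^ 2 :
              MvPolynomial (Option (Option (Option ι))) ℚ)) ∧
          ∀ i ∈ (Finset.univ : Finset I),
            aeval w (1 : MvPolynomial (Option (Option (Option ι))) ℚ) ≤
              aeval w ((X (some (some none))) ^ 2 * (G j i ^ 2 + G' j i ^ 2)) ∧
            aeval w (G j i ^ 2 + G' j i ^ 2) ≤ aeval w ((X (some (some none))) ^ 2 :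
              MvPolynomial (Option (Option (Option ι))) ℚ)))} := ⟨_, rfl⟩
  have hR : ∀ j, SA (R j) := by
    intro j
    rw [hRdef]
    exact SA_imp (SA_and (SA_zero (F j)) (SA_zero (F' j)))
      (SA_and (SA_le _ _) (SA_and (SA_or (SA_zero _) (SA_le _ _))
        (SA_ball Finset.univ (fun i => {w | aeval w
          (1 : MvPolynomial (Option (Option (Option ι))) ℚ) ≤
              aeval w ((X (some (some none))) ^ 2 * (G j i ^ 2 + G' j i ^ 2)) ∧
            aeval w (G j i ^ 2 + G' j i ^ 2) ≤ aeval w ((X (some (some none))) ^ 2 :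
              MvPolynomial (Option (Option (Option ι))) ℚ)})
          fun i _ => SA_and (SA_le _ _) (SA_le _ _))))
  refine ⟨{z | 1 ≤ z none ∧ ∀ j ∈ (Finset.univ : Finset J), ∀ u : ℝ, ∀ v : ℝ,
    pt v (pt u z) ∈ R j}, ?_, ?_⟩
  · have h1 : SA {z : Option ι → ℝ | 1 ≤ z none} := by
      have := SA_le (1 : MvPolynomial (Option ι) ℚ) (X none)
      simpa only [map_one, aeval_X] using this
    exact SA_and h1 (SA_ball Finset.univ (fun j => {z | ∀ u : ℝ, ∀ v : ℝ, pt v (pt u z) ∈ R j})
      fun j _ => SA_all (S := {w | ∀ v : ℝ, pt v w ∈ R j}) (SA_all (hR j)))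
  · intro y x
    have key : ∀ j (u v : ℝ), 1 ≤ y → (pt v (pt u (pt y x)) ∈ R j ↔
        ((spC x (f j)).eval ((u : ℂ) + (v : ℂ) * Complex.I) = 0 →
          Cond (g j) x y ((u : ℂ) + (v : ℂ) * Complex.I))) := by
      intro j u v hy
      have hy0 : 0 ≤ y := zero_le_one.trans hy
      have e1 : aeval (pt v (pt u (pt y x)))
          (X none : MvPolynomial (Option (Option (Option ι))) ℚ) = v := by
        rw [aeval_X]
        rfl
      have e2 : aeval (pt v (pt u (pt y x)))
          (X (some none) : MvPolynomial (Option (Option (Option ι))) ℚ) = u := by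
        rw [aeval_X]
        rfl
      have e3 : aeval (pt v (pt u (pt y x)))
          (X (some (some none)) : MvPolynomial (Option (Option (Option ι))) ℚ) = y := by
        rw [aeval_X]
        rfl
      have h0 : (spC x (f j)).eval ((u : ℂ) + (v : ℂ) * Complex.I) = 0 ↔
          (aeval (pt v (pt u (pt y x))) (F j) = 0 ∧ aeval (pt v (pt u (pt y x))) (F' j) = 0) := by
        rw [hF j x y u v]
        constructor
        · intro h
          have hr := congrArg Complex.re h
          have hi := congrArg Complex.im h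
          simp only [Complex.add_re, Complex.ofReal_re, Complex.mul_re, Complex.I_re, mul_zero,
            Complex.ofReal_im, Complex.I_im, sub_zero, add_zero, Complex.zero_re,
            Complex.add_im, Complex.mul_im, mul_one, zero_add, Complex.zero_im] at hr hi
          exact ⟨hr, hi⟩
        · rintro ⟨h1, h2⟩
          rw [h1, h2, Complex.ofReal_zero, zero_mul, add_zero]
      have him : ((u : ℂ) + (v : ℂ) * Complex.I).im = v := by simp
      have hc : Cond (g j) x y ((u : ℂ) + (v : ℂ) * Complex.I) ↔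
          (u ^ 2 + v ^ 2 ≤ y ^ 2 ∧ ((v = 0 ∨ 1 ≤ y ^ 2 * v ^ 2) ∧
            ∀ i ∈ (Finset.univ : Finset I),
              1 ≤ y ^ 2 * (aeval (pt v (pt u (pt y x))) (G j i) ^ 2 +
                aeval (pt v (pt u (pt y x))) (G' j i) ^ 2) ∧
              aeval (pt v (pt u (pt y x))) (G j i) ^ 2 +
                aeval (pt v (pt u (pt y x))) (G' j i) ^ 2 ≤ y ^ 2)) := by
        unfold Cond
        rw [nrm_le hy0, him]
        refine and_congr Iff.rfl (and_congr ?_ ?_)
        · rw [le_abs' hy0]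
          exact ⟨fun h => or_iff_not_imp_left.2 h, fun h => or_iff_not_imp_left.1 h⟩
        · refine ⟨fun h i _ => ?_, fun h i => ?_⟩
          · have := h i
            rw [hG j i x y u v, le_nrm hy0, nrm_le hy0] at this
            exact this
          · have := h i (Finset.mem_univ i)
            rw [hG j i x y u v, le_nrm hy0, nrm_le hy0]
            exact this
      rw [h0, hc, hRdef]
      change ((_ ∧ _) → (_ ∧ ((_ ∨ _) ∧ _))) ↔ _
      simp only [map_add, map_pow, map_mul, map_one, e1, e2, e3]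
    constructor
    · rintro ⟨h1, h2⟩
      change 1 ≤ y at h1
      refine ⟨h1, fun j a ha => ?_⟩
      have h3 := (key j a.re a.im h1).1 (h2 j (Finset.mem_univ j) a.re a.im)
      rw [Complex.re_add_im] at h3
      exact h3 ha
    · rintro ⟨h1, h2⟩
      exact ⟨h1, fun j _ u v => (key j u v h1).2 (h2 j _)⟩

/-- the least element of the fibres of a semialgebraic set is a semialgebraic function -/
theorem SA_graph_sInf {ι : Type} {B : Set (Option ι → ℝ)} (hB : SA B)
    (hb : ∀ y x, pt y x ∈ B → 1 ≤ y)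
    (hcl : ∀ x, (∃ y, pt y x ∈ B) → pt (sInf {y | pt y x ∈ B}) x ∈ B) :
    SA (graph fun x => sInf {y | pt y x ∈ B}) := by
  have hf : ∀ (t : ℝ) (z : Option ι → ℝ),
      (fun o : Option ι => pt t z (o.elim none fun i => some (some i))) =
        pt t (fun i => z (some i)) := by
    intro t z
    funext o
    cases o <;> rfl
  have h1 : SA {w : Option (Option ι) → ℝ |
      (fun o : Option ι => w (o.elim none fun i => some (some i))) ∈ B} := SA_reindex hB _
  have h2 : SA {w : Option (Option ι) → ℝ | w none < w (some none)} := by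
    have := SA_lt (X none : MvPolynomial (Option (Option ι)) ℚ) (X (some none))
    simpa only [aeval_X] using this
  have h3 := SA_all (SA_imp h2 (SA_not h1))
  have h4 := SA_all (SA_not h1)
  have h5 : SA {z : Option ι → ℝ | z none = 0} := by
    have := SA_zero (X none : MvPolynomial (Option ι) ℚ)
    simpa only [aeval_X] using this
  have h6 := SA_or (SA_and hB h3) (SA_and h4 h5)
  refine (congrArg SA ?_).mp h6
  ext z
  have hz : pt (z none) (fun i => z (some i)) = z := by
    funext o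
    cases o <;> rfl
  have hbd : BddBelow {y | pt y (fun i => z (some i)) ∈ B} := ⟨1, fun y hy => hb y _ hy⟩
  change ((z ∈ B ∧ ∀ t : ℝ, t < z none →
      ¬ (fun o : Option ι => pt t z (o.elim none fun i => some (some i))) ∈ B) ∨
    ((∀ t : ℝ, ¬ (fun o : Option ι => pt t z (o.elim none fun i => some (some i))) ∈ B) ∧
      z none = 0)) ↔ z none = sInf {y | pt y (fun i => z (some i)) ∈ B}
  simp only [hf]
  constructor
  · rintro (⟨h7, h8⟩ | ⟨h7, h8⟩)
    · have h9 : pt (z none) (fun i => z (some i)) ∈ B := by rwa [hz]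
      refine le_antisymm ?_ (csInf_le hbd h9)
      by_contra h10
      exact h8 _ (not_le.1 h10) (hcl _ ⟨_, h9⟩)
    · have : {y | pt y (fun i => z (some i)) ∈ B} = ∅ := eq_empty_of_forall_notMem h7
      rw [this, Real.sInf_empty, h8]
  · intro h7
    by_cases h8 : ∃ y, pt y (fun i => z (some i)) ∈ B
    · left
      have h9 := hcl _ h8
      rw [← h7, hz] at h9
      refine ⟨h9, fun t ht h10 => ?_⟩
      rw [h7] at ht
      exact not_le.2 ht (csInf_le hbd h10)
    · right
      have h9 : ∀ t, ¬ pt t (fun i => z (some i)) ∈ B := not_exists.1 h8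
      refine ⟨h9, ?_⟩
      have : {y | pt y (fun i => z (some i)) ∈ B} = ∅ := eq_empty_of_forall_notMem h9
      rw [h7, this, Real.sInf_empty]

/-- the conditions hold for all large `y` -/
theorem ev_cond {ι I : Type} [Finite I] (g : I → Polynomial (MvPolynomial ι ℚ)) (x : ι → ℝ) (a : ℂ)
    (h : ∀ i, (spC x (g i)).eval a ≠ 0) : ∀ᶠ y in Filter.atTop, Cond g x y a := by
  have key : ∀ c : ℝ, 0 < c → ∀ᶠ y in Filter.atTop, 1 ≤ y * c := by
    intro c hc
    filter_upwards [Filter.eventually_ge_atTop (1 / c)] with y hy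
    rwa [div_le_iff₀ hc] at hy
  refine (Filter.eventually_ge_atTop _).and (Filter.Eventually.and ?_ ?_)
  · by_cases ha : a.im = 0
    · exact Filter.Eventually.of_forall fun y h => absurd ha h
    · exact (key _ (abs_pos.2 ha)).mono fun y hy _ => hy
  · rw [Filter.eventually_all]
    exact fun i => (key _ (norm_pos_iff.2 (h i))).and (Filter.eventually_ge_atTop _)

theorem thm_RBD : St_RBD := by
  intro ι J I _ _ _ f g r hr hgen
  obtain ⟨B, hB, hBc⟩ := exists_B f g
  have hb : ∀ y x, pt y x ∈ B → 1 ≤ y := fun y x h => ((hBc y x).1 h).1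
  have hcl : ∀ x, (∃ y, pt y x ∈ B) → pt (sInf {y | pt y x ∈ B}) x ∈ B := by
    intro x hx
    have hle : ∀ c : ℝ, (∀ y, pt y x ∈ B → c ≤ y) → c ≤ sInf {y | pt y x ∈ B} := fun c hc =>
      le_csInf hx hc
    have hmul : ∀ c : ℝ, 0 ≤ c → (∀ y, pt y x ∈ B → 1 ≤ y * c) →
        1 ≤ sInf {y | pt y x ∈ B} * c := by
      intro c hc h
      obtain ⟨y0, hy0⟩ := hx
      have hc0 : 0 < c := by
        rcases hc.eq_or_lt with h1 | h1
        · have := h y0 hy0
          rw [← h1, mul_zero] at this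
          exact absurd this (by norm_num)
        · exact h1
      have := hle (1 / c) fun y hy => by
        rw [div_le_iff₀ hc0]
        exact h y hy
      rwa [div_le_iff₀ hc0] at this
    rw [hBc]
    refine ⟨hle 1 fun y hy => hb y x hy, fun j a ha => ⟨?_, fun him => ?_, fun i => ⟨?_, ?_⟩⟩⟩
    · exact hle _ fun y hy => (((hBc y x).1 hy).2 j a ha).1
    · exact hmul _ (abs_nonneg _) fun y hy => (((hBc y x).1 hy).2 j a ha).2.1 him
    · exact hmul _ (norm_nonneg _) fun y hy => ((((hBc y x).1 hy).2 j a ha).2.2 i).1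
    · exact hle _ fun y hy => ((((hBc y x).1 hy).2 j a ha).2.2 i).2
  obtain ⟨p, r1, hr1, hp⟩ := thm_BDS _ (SA_graph_sInf hB hb hcl)
  refine ⟨r * r1, p * r ^ 2 + 1, mul_ne_zero hr hr1, fun x hx => ?_⟩
  rw [map_mul] at hx ⊢
  have hrx : aeval x r ≠ 0 := left_ne_zero_of_mul hx
  have hr1x : aeval x r1 ≠ 0 := right_ne_zero_of_mul hx
  obtain ⟨hg1, -, hg3⟩ := hgen x hrx
  -- the fibre is not empty
  have hne : ∃ y, pt y x ∈ B := by
    have h1 : ∀ᶠ y in Filter.atTop, ∀ j, ∀ a ∈ (spC x (f j)).roots.toFinset,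
        Cond (g j) x y a := by
      rw [Filter.eventually_all]
      intro j
      rw [Filter.eventually_all_finset]
      intro a ha
      rw [Multiset.mem_toFinset] at ha
      exact ev_cond (g j) x a fun i => hg3 j i a (Polynomial.isRoot_of_mem_roots ha)
    obtain ⟨y, h2, h3⟩ := (h1.and (Filter.eventually_ge_atTop 1)).exists
    refine ⟨y, (hBc y x).2 ⟨h3, fun j a ha => h2 j a ?_⟩⟩
    rw [Multiset.mem_toFinset, Polynomial.mem_roots']
    refine ⟨fun h0 => ?_, ha⟩
    have h4 := congrArg (fun q : Polynomial ℂ => q.coeff (f j).natDegree) h0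
    unfold spC at h4
    rw [Polynomial.coeff_map, Polynomial.coeff_zero] at h4
    apply hg1 j
    have h5 : ((aeval x (f j).leadingCoeff : ℝ) : ℂ) = 0 := h4
    exact_mod_cast h5
  obtain ⟨y, hy⟩ : ∃ y, y = sInf {y | pt y x ∈ B} := ⟨_, rfl⟩
  have h1 := (hBc _ x).1 (hcl x hne)
  have h2 := hp x hr1x
  rw [← hy] at h1
  change |sInf {y | pt y x ∈ B}| ≤ _ at h2
  rw [← hy] at h2
  obtain ⟨h3, h4⟩ := h1
  have h5 : 0 < aeval x r1 ^ 2 := by positivity
  have h6 : 0 < aeval x r ^ 2 := by positivity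
  have h7 : y * aeval x r1 ^ 2 ≤ aeval x p := by
    have := (le_abs_self y).trans h2
    rwa [le_div_iff₀ h5] at this
  have h8 : aeval x r1 ^ 2 ≤ aeval x p := by nlinarith
  obtain ⟨P, hP⟩ : ∃ P, P = aeval x (p * r ^ 2 + 1) := ⟨_, rfl⟩
  have hP' : P = aeval x p * aeval x r ^ 2 + 1 := by
    rw [hP, map_add, map_mul, map_pow, map_one]
  rw [← hP]
  have h9 : y * (aeval x r * aeval x r1) ^ 2 ≤ P := by
    rw [hP']
    nlinarith
  have h10 : ∀ c : ℝ, 0 ≤ c → 1 ≤ y * c → (aeval x r * aeval x r1) ^ 2 ≤ P * c := by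
    intro c hc h
    have : (aeval x r * aeval x r1) ^ 2 ≤ (y * (aeval x r * aeval x r1) ^ 2) * c := by
      nlinarith [sq_nonneg (aeval x r * aeval x r1)]
    exact this.trans (mul_le_mul_of_nonneg_right h9 hc)
  have h11 : ∀ c : ℝ, c ≤ y → c * (aeval x r * aeval x r1) ^ 2 ≤ P := by
    intro c hc
    exact (mul_le_mul_of_nonneg_right hc (sq_nonneg _)).trans h9
  refine ⟨hrx, ?_, ?_, fun j a ha => ?_⟩
  · rw [hP']
    nlinarith
  · have := h11 1 h3
    rwa [one_mul] at this
  · obtain ⟨c1, c2, c3⟩ := h4 j a ha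
    exact ⟨h11 _ c1, fun him => h10 _ (abs_nonneg _) (c2 him), fun i =>
      ⟨h10 _ (norm_nonneg _) (c3 i).1, h11 _ (c3 i).2⟩⟩

end Pool.Agent.PWD
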