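import Pool.Agent.PWD.SGL
import Pool.Agent.PWD.RBD
import Pool.Agent.PWD.PIE
import Pool.Agent.PWD.ZNL

/-!
# Periods without domains: the main proposition
-/

set_option autoImplicit false

open MeasureTheory Polynomial

namespace Pool.Agent.PWD

theorem rat_sum {ι J : Type} [Fintype J] [DecidableEq J] (A B : J → MvPolynomial ι ℚ) (y : ι → ℝ)
    (h : ∀ j, MvPolynomial.aeval y (B j) ≠ 0) :
    rat (∑ j, A j * ∏ i ∈ Finset.univ.erase j, B i) (∏ j, B j) y = ∑ j, rat (A j) (B j) y := by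
  unfold rat
  rw [map_sum, map_prod, Finset.sum_div]
  refine Finset.sum_congr rfl fun j _ => ?_
  rw [map_mul, map_prod, ← Finset.mul_prod_erase Finset.univ
    (fun i => MvPolynomial.aeval y (B i)) (Finset.mem_univ j)]
  have h1 : ∏ i ∈ Finset.univ.erase j, MvPolynomial.aeval y (B i) ≠ 0 :=
    Finset.prod_ne_zero_iff.mpr fun i _ => h i
  exact mul_div_mul_right _ _ h1

theorem thm_PRA : St_PRA := by
  classical
  intro n F e hSA he
  obtain ⟨J, I, _, _, f, g, r, hr, -, hx⟩ := thm_PIE F hSA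
  obtain ⟨d, P, hd, hb⟩ := thm_RBD (Fin n) J I f g r hr fun x hx0 =>
    ⟨(hx x hx0).1, (hx x hx0).2.1, (hx x hx0).2.2.1⟩
  have hae := ae_aeval_ne d hd
  obtain ⟨x₀, hx₀⟩ := hae.exists
  have hJ : 0 < Fintype.card J := by
    obtain ⟨j, -⟩ := (hx x₀ (hb x₀ hx₀).1).2.2.2.2
    exact Fintype.card_pos_iff.mpr ⟨j⟩
  have hJq : (0 : ℚ) < Fintype.card J := by exact_mod_cast hJ
  have hJr : (0 : ℝ) < Fintype.card J := by exact_mod_cast hJ
  set eI := (Fintype.equivFin I).symm with heI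
  have hS := fun j : J => thm_SGL n (Fintype.card I) (f j) (fun i => g j (eI i)) d P
    (e / Fintype.card J) (div_pos he hJq) hd (fun x hdx => by
      obtain ⟨h1, h2, h3, h4⟩ := hb x hdx
      obtain ⟨k1, k2, k3, -, -⟩ := hx x h1
      refine ⟨k1 j, k2 j, h2, h3, fun a ha => ?_⟩
      obtain ⟨l1, l2, l3⟩ := h4 j a ha
      exact ⟨l1, l2, fun i => l3 (eI i)⟩)
  choose A B hAB using hS
  refine ⟨∑ j, A j * ∏ i ∈ Finset.univ.erase j, B i, ∏ j, B j, ?_, ?_⟩
  · intro h0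
    have h1 : ∀ j, MvPolynomial.aeval (Fin.snoc x₀ 0 : Fin (n + 1) → ℝ) (B j) ≠ 0 := fun j =>
      (hAB j x₀ hx₀).1 0
    have h2 : MvPolynomial.aeval (Fin.snoc x₀ 0 : Fin (n + 1) → ℝ) (∏ j, B j) ≠ 0 := by
      rw [map_prod]
      exact Finset.prod_ne_zero_iff.mpr fun j _ => h1 j
    rw [h0, map_zero] at h2
    exact h2 rfl
  filter_upwards [hae] with x hdx
  obtain ⟨hrx, -, -, -⟩ := hb x hdx
  obtain ⟨-, -, -, hu, j₀, ⟨hj1, hj2⟩, hj3⟩ := hx x hrx
  have hne : ∀ t j, MvPolynomial.aeval (Fin.snoc x t : Fin (n + 1) → ℝ) (B j) ≠ 0 := fun t j =>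
    (hAB j x hdx).1 t
  have hrs : ∀ t : ℝ, rat (∑ j, A j * ∏ i ∈ Finset.univ.erase j, B i) (∏ j, B j)
      (Fin.snoc x t : Fin (n + 1) → ℝ) =
      ∑ j, rat (A j) (B j) (Fin.snoc x t : Fin (n + 1) → ℝ) := fun t =>
    rat_sum A B _ (hne t)
  have hother : ∀ j, j ≠ j₀ → (∫ t : ℝ, rat (A j) (B j) (Fin.snoc x t : Fin (n + 1) → ℝ)) = 0 ∧
      ∀ t : ℝ, |rat (A j) (B j) (Fin.snoc x t : Fin (n + 1) → ℝ)| ≤
        ((e / Fintype.card J : ℚ) : ℝ) * wgt x t := by
    intro j hj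
    refine (hAB j x hdx).2.2.1 fun T hT hg => hj ?_
    have hg' : ∀ i, 0 < (spR x (g j i)).eval T := fun i => by
      have := hg (eI.symm i)
      rwa [Equiv.apply_symm_apply] at this
    have hTA := hu j T hT hg'
    subst hTA
    exact hj3 j ⟨hT, hg'⟩
  have hmain := (hAB j₀ x hdx).2.2.2 (F x) hj1 (fun i => hj2 (eI i)) (fun T' hT' hg => by
    refine hu j₀ T' hT' fun i => ?_
    have := hg (eI.symm i)
    rwa [Equiv.apply_symm_apply] at this)
  refine ⟨fun t => ?_, ?_, ?_, ?_⟩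
  · rw [map_prod]
    exact Finset.prod_ne_zero_iff.mpr fun j _ => hne t j
  · simp_rw [hrs]
    exact integrable_finsetSum _ fun j _ => (hAB j x hdx).2.1
  · simp_rw [hrs]
    rw [integral_finsetSum _ fun j _ => (hAB j x hdx).2.1,
      ← Finset.add_sum_erase _ _ (Finset.mem_univ j₀), hmain.1,
      Finset.sum_eq_zero fun j hj => (hother j (Finset.ne_of_mem_erase hj)).1, add_zero]
  · intro t
    obtain ⟨c, hc, hct⟩ := hmain.2 t
    refine ⟨c, hc, ?_⟩
    rw [hrs, ← Finset.add_sum_erase _ _ (Finset.mem_univ j₀)]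
    have h1 : |∑ j ∈ Finset.univ.erase j₀, rat (A j) (B j) (Fin.snoc x t : Fin (n + 1) → ℝ)| ≤
        ∑ _j ∈ Finset.univ.erase j₀, ((e / Fintype.card J : ℚ) : ℝ) * wgt x t :=
      (Finset.abs_sum_le_sum_abs _ _).trans
        (Finset.sum_le_sum fun j hj => (hother j (Finset.ne_of_mem_erase hj)).2 t)
    have h2 : ((e / Fintype.card J : ℚ) : ℝ) * wgt x t +
        ∑ _j ∈ Finset.univ.erase j₀, ((e / Fintype.card J : ℚ) : ℝ) * wgt x t = e * wgt x t := by
      rw [Finset.add_sum_erase Finset.univ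
        (fun _ : J => ((e / Fintype.card J : ℚ) : ℝ) * wgt x t) (Finset.mem_univ j₀),
        Finset.sum_const, Finset.card_univ, nsmul_eq_mul]
      push_cast
      field_simp
    have h3 : rat (A j₀) (B j₀) (Fin.snoc x t : Fin (n + 1) → ℝ) +
        ∑ j ∈ Finset.univ.erase j₀, rat (A j) (B j) (Fin.snoc x t : Fin (n + 1) → ℝ) - c * F x =
        (rat (A j₀) (B j₀) (Fin.snoc x t : Fin (n + 1) → ℝ) - c * F x) +
        ∑ j ∈ Finset.univ.erase j₀, rat (A j) (B j) (Fin.snoc x t : Fin (n + 1) → ℝ) := by ring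
    rw [h3]
    refine (abs_add_le _ _).trans ?_
    linarith

end Pool.Agent.PWD
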