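import Pool.Agent.PWD.KRN

set_option autoImplicit false

namespace Pool.Agent.PWD

theorem ptw_low (S m q t a b : ℝ) (hm : 0 < m) (hb : m ≤ b) (ha : 2 * |a| ≤ S)
    (hS : 2 * m ^ 2 ≤ S ^ 2) (hq : 1 ≤ q) :
    m ^ 2 / (2 * q) * (t ^ 2 + q) ≤ (S * t - a) ^ 2 + b ^ 2 := by
  have hS0 : 0 ≤ S := le_trans (by positivity) ha
  have hb2 : m ^ 2 ≤ b ^ 2 := pow_le_pow_left₀ hm.le hb 2
  have h1 : m ^ 2 / (2 * q) * (t ^ 2 + q) ≤ m ^ 2 / 2 * (t ^ 2 + 1) := by
    have hq0 : 0 < q := by linarith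
    rw [div_mul_eq_mul_div, div_le_iff₀ (by positivity)]
    have : m ^ 2 / 2 * (t ^ 2 + 1) * (2 * q) = m ^ 2 * (q * t ^ 2 + q) := by ring
    rw [this]
    have h2 : t ^ 2 ≤ q * t ^ 2 := by nlinarith [sq_nonneg t]
    nlinarith [sq_nonneg m]
  refine h1.trans ?_
  rcases le_or_gt 1 |t| with ht | ht
  · have h2 : S * |t| / 2 ≤ |S * t - a| := by
      have h3 : |S * t| - |a| ≤ |S * t - a| := abs_sub_abs_le_abs_sub _ _
      rw [abs_mul, abs_of_nonneg hS0] at h3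
      have h4 : |a| ≤ S * |t| / 2 := by nlinarith
      linarith
    have h5 : (S * |t| / 2) ^ 2 ≤ (S * t - a) ^ 2 := by
      rw [← sq_abs (S * t - a)]
      exact pow_le_pow_left₀ (by positivity) h2 2
    have h6 : (S * |t| / 2) ^ 2 = S ^ 2 * t ^ 2 / 4 := by
      rw [div_pow, mul_pow, sq_abs]
      norm_num
    rw [h6] at h5
    nlinarith [sq_nonneg t, sq_nonneg m]
  · have h2 : t ^ 2 ≤ 1 := by
      rw [← sq_abs]
      nlinarith [abs_nonneg t]
    nlinarith [sq_nonneg (S * t - a), sq_nonneg m]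

theorem thm_PTW : St_PTW := by
  intro G S m q t θ hG hm hθ ha hS hq
  have hb : G < |θ.im| := by linarith
  have hq0 : 0 < q := by linarith
  have hS0 : 0 ≤ S := le_trans (by positivity) ha
  obtain ⟨-, -, hk⟩ := (thm_KRN G θ hG).2 hb
  obtain ⟨-, h1⟩ := hk (S * t)
  have hlow := ptw_low S m q t θ.re (|θ.im| - G) hm (by linarith) ha hS hq
  have hpos : 0 < m ^ 2 / (2 * q) * (t ^ 2 + q) := by positivity
  have h2 : 2 * G ^ 3 / ((S * t - θ.re) ^ 2 + (|θ.im| - G) ^ 2) ^ 2 ≤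
      2 * G ^ 3 / (m ^ 2 / (2 * q) * (t ^ 2 + q)) ^ 2 :=
    div_le_div_of_nonneg_left (by positivity) (by positivity)
      (pow_le_pow_left₀ hpos.le hlow 2)
  rw [norm_mul, Complex.norm_real, Real.norm_of_nonneg hS0]
  refine (mul_le_mul_of_nonneg_left (h1.trans h2) hS0).trans (le_of_eq ?_)
  have : 0 < t ^ 2 + q := by positivity
  field_simp
  ring

end Pool.Agent.PWD
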