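import Pool.Agent.PWD.LBW
import Pool.Agent.PWD.DefR

/-!
# PWD [REC]: `π²` times a volume is the integral of the reciprocal of a positive polynomial
-/

set_option autoImplicit false

open MeasureTheory
open Pool.Agent.PWQ

namespace Pool.Agent.PWD

/-- the real part of the cubic polynomial -/
noncomputable def cuA (n : ℕ) (F1 : MvPolynomial (Fin n) ℚ) : MvPolynomial (Fin (n + 1)) ℚ :=
  1 - MvPolynomial.rename Fin.castSucc F1 * MvPolynomial.X (Fin.last n) ^ 2

/-- the imaginary part of the cubic polynomial -/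
noncomputable def cuB (n : ℕ) (F0 F2 : MvPolynomial (Fin n) ℚ) : MvPolynomial (Fin (n + 1)) ℚ :=
  MvPolynomial.X (Fin.last n) * (MvPolynomial.rename Fin.castSucc F2 -
    MvPolynomial.rename Fin.castSucc F0 * MvPolynomial.X (Fin.last n) ^ 2)

/-- the squared absolute value of the cubic polynomial -/
noncomputable def cub (n : ℕ) (F0 F1 F2 : MvPolynomial (Fin n) ℚ) : MvPolynomial (Fin (n + 1)) ℚ :=
  cuA n F1 ^ 2 + cuB n F0 F2 ^ 2

theorem aeval_cub (n : ℕ) (F0 F1 F2 : MvPolynomial (Fin n) ℚ) (x : Fin n → ℝ) (t : ℝ) :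
    MvPolynomial.aeval (Fin.snoc x t : Fin (n + 1) → ℝ) (cub n F0 F1 F2) =
      (1 - MvPolynomial.aeval x F1 * t ^ 2) ^ 2 +
        t ^ 2 * (MvPolynomial.aeval x F2 - MvPolynomial.aeval x F0 * t ^ 2) ^ 2 := by
  have h : ∀ p : MvPolynomial (Fin n) ℚ, MvPolynomial.aeval (Fin.snoc x t : Fin (n + 1) → ℝ)
      (MvPolynomial.rename Fin.castSucc p) = MvPolynomial.aeval x p := by
    intro p
    rw [MvPolynomial.aeval_rename]
    congr 2
    funext i
    simp
  unfold cub cuA cuB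
  simp only [map_add, map_sub, map_mul, map_pow, map_one, h, MvPolynomial.aeval_X, Fin.snoc_last]
  ring

theorem cub_pos (f0 f1 f2 t : ℝ) (h : f1 * f2 ≠ f0 ∨ f1 = 0) :
    0 < (1 - f1 * t ^ 2) ^ 2 + t ^ 2 * (f2 - f0 * t ^ 2) ^ 2 := by
  by_contra hc
  have h1 : 0 ≤ (1 - f1 * t ^ 2) ^ 2 := sq_nonneg _
  have h2 : 0 ≤ t ^ 2 * (f2 - f0 * t ^ 2) ^ 2 := by positivity
  have h3 : (1 - f1 * t ^ 2) ^ 2 = 0 := by linarith
  have h4 : t ^ 2 * (f2 - f0 * t ^ 2) ^ 2 = 0 := by linarith
  have h5 : 1 - f1 * t ^ 2 = 0 := by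
    rwa [sq_eq_zero_iff] at h3
  have ht : t ≠ 0 := by
    rintro rfl
    norm_num at h5
  have h6 : f2 - f0 * t ^ 2 = 0 := by
    rcases mul_eq_zero.1 h4 with h | h
    · exact absurd h (by positivity)
    · rwa [sq_eq_zero_iff] at h
  rcases h with h | h
  · refine h ?_
    have h7 : f1 * f2 - f0 = 0 := by linear_combination f1 * h6 - f0 * h5
    linarith
  · rw [h] at h5
    norm_num at h5

theorem thm_REC (hH : St_HRW) (m : ℕ) (a : ℝ) (ha : V (m + 1) a) (hpos : 0 < a) :
    Rs (m + 2) (Real.pi ^ 2 * a) := by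
  obtain ⟨P, Q, G, hQ, hI, hG, hb, hv⟩ := thm_LBW m a ha hpos
  obtain ⟨F1, hF1⟩ : ∃ F1, F1 = P * Q ^ 3 := ⟨_, rfl⟩
  obtain ⟨F2, hF2⟩ : ∃ F2, F2 = MvPolynomial.C 2 * G := ⟨_, rfl⟩
  obtain ⟨F0, hF0⟩ : ∃ F0, F0 = Q ^ 2 * (MvPolynomial.C 2 * G * (P * Q) - Q ^ 2) := ⟨_, rfl⟩
  have e1 : ∀ y : Fin (m + 1) → ℝ, MvPolynomial.aeval y F1 =
      MvPolynomial.aeval y P * MvPolynomial.aeval y Q ^ 3 := by
    intro y
    rw [hF1, map_mul, map_pow]
  have e2 : ∀ y : Fin (m + 1) → ℝ, MvPolynomial.aeval y F2 = 2 * MvPolynomial.aeval y G := by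
    intro y
    rw [hF2, map_mul, MvPolynomial.aeval_C, eq_ratCast]
    norm_num
  have e0 : ∀ y : Fin (m + 1) → ℝ, MvPolynomial.aeval y F0 = MvPolynomial.aeval y Q ^ 2 *
      (2 * MvPolynomial.aeval y G * (MvPolynomial.aeval y P * MvPolynomial.aeval y Q) -
        MvPolynomial.aeval y Q ^ 2) := by
    intro y
    rw [hF0, map_mul, map_sub, map_mul, map_mul, map_mul, map_pow, MvPolynomial.aeval_C, eq_ratCast]
    norm_num
  have hH' : ∀ y : Fin (m + 1) → ℝ, MvPolynomial.aeval y F1 * MvPolynomial.aeval y F2 -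
      MvPolynomial.aeval y F0 = MvPolynomial.aeval y Q ^ 4 := by
    intro y
    rw [e0, e1, e2]
    ring
  have hDpos : ∀ (y : Fin (m + 1) → ℝ) (t : ℝ),
      0 < MvPolynomial.aeval (Fin.snoc y t : Fin (m + 2) → ℝ) (cub (m + 1) F0 F1 F2) := by
    intro y t
    rw [aeval_cub]
    refine cub_pos _ _ _ _ ?_
    rcases eq_or_ne (MvPolynomial.aeval y Q) 0 with h | h
    · right
      rw [e1, h]
      ring
    · left
      intro h2
      have h3 := hH' y
      rw [h2, sub_self] at h3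
      exact h (pow_eq_zero_iff (by norm_num) |>.1 h3.symm)
  have hfib : ∀ y : Fin (m + 1) → ℝ, MvPolynomial.aeval y Q ≠ 0 →
      Integrable (fun t : ℝ => 1 / MvPolynomial.aeval (Fin.snoc y t : Fin (m + 2) → ℝ)
        (cub (m + 1) F0 F1 F2)) ∧
      (∫ t : ℝ, 1 / MvPolynomial.aeval (Fin.snoc y t : Fin (m + 2) → ℝ)
        (cub (m + 1) F0 F1 F2)) = Real.pi * rat P Q y ∧ 0 < rat P Q y := by
    intro y hy
    simp only [aeval_cub]
    have hb' := hb y
    have hGy := hG y
    have hQ2 : 0 < MvPolynomial.aeval y Q ^ 2 := by positivity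
    have hPQ : 0 < MvPolynomial.aeval y P * MvPolynomial.aeval y Q := by
      by_contra hc
      have := mul_nonneg hGy.le (neg_nonneg.2 (not_lt.1 hc))
      nlinarith
    have h1 : 0 < MvPolynomial.aeval y F1 := by
      rw [e1]
      have : MvPolynomial.aeval y P * MvPolynomial.aeval y Q ^ 3 =
        MvPolynomial.aeval y P * MvPolynomial.aeval y Q * MvPolynomial.aeval y Q ^ 2 := by ring
      rw [this]
      positivity
    have h2 : 0 < MvPolynomial.aeval y F2 := by
      rw [e2]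
      positivity
    have h0 : 0 < MvPolynomial.aeval y F0 := by
      rw [e0]
      refine mul_pos hQ2 ?_
      nlinarith
    have h4 : MvPolynomial.aeval y F0 < MvPolynomial.aeval y F1 * MvPolynomial.aeval y F2 := by
      have := hH' y
      have h5 : 0 < MvPolynomial.aeval y Q ^ 4 := by positivity
      linarith
    obtain ⟨i1, i2⟩ := hH _ _ _ h0 h1 h2 h4
    refine ⟨i1, ?_, ?_⟩
    · rw [i2, hH' y, e1]
      unfold rat
      field_simp
    · unfold rat
      have : MvPolynomial.aeval y P / MvPolynomial.aeval y Q =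
        (MvPolynomial.aeval y P * MvPolynomial.aeval y Q) / MvPolynomial.aeval y Q ^ 2 := by
        field_simp
      rw [this]
      positivity
  have hDpos' : ∀ z : Fin (m + 2) → ℝ,
      0 < MvPolynomial.aeval z (cub (m + 1) F0 F1 F2) := by
    intro z
    have := hDpos (Fin.init z) (z (Fin.last _))
    rwa [Fin.snoc_init_self] at this
  have hcont : Continuous fun z : Fin (m + 2) → ℝ =>
      1 / MvPolynomial.aeval z (cub (m + 1) F0 F1 F2) :=
    continuous_const.div (continuous_aeval' _) fun z => (hDpos' z).ne'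
  have hint : Integrable fun z : Fin (m + 2) → ℝ =>
      1 / MvPolynomial.aeval z (cub (m + 1) F0 F1 F2) := by
    refine integrable_of_snoc (m + 1) _ hcont.aestronglyMeasurable ?_ ?_
    · filter_upwards [ae_aeval_ne Q hQ] with y hy
      exact (hfib y hy).1
    · refine (hI.const_mul Real.pi).congr ?_
      filter_upwards [ae_aeval_ne Q hQ] with y hy
      rw [← (hfib y hy).2.1]
      refine integral_congr_ae (Filter.Eventually.of_forall fun t => ?_)
      simp only
      rw [Real.norm_of_nonneg (one_div_pos.2 (hDpos y t)).le]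
  have hcub : ∀ z : Fin (m + 2) → ℝ, MvPolynomial.aeval z (cub (m + 1) F0 F1 F2) =
      MvPolynomial.aeval z (cuA (m + 1) F1) ^ 2 + MvPolynomial.aeval z (cuB (m + 1) F0 F2) ^ 2 := by
    intro z
    unfold cub
    rw [map_add, map_pow, map_pow]
  refine ⟨cuA (m + 1) F1, cuB (m + 1) F0 F2, ?_, ?_, ?_⟩
  · simpa only [hcub] using hDpos'
  · simpa only [hcub] using hint
  simp only [← hcub]
  rw [integral_snoc (m + 1) _ hint]
  have h6 : (∫ y : Fin (m + 1) → ℝ, ∫ t : ℝ,
      1 / MvPolynomial.aeval (Fin.snoc y t : Fin (m + 2) → ℝ) (cub (m + 1) F0 F1 F2)) =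
      ∫ y : Fin (m + 1) → ℝ, Real.pi * rat P Q y := by
    refine integral_congr_ae ?_
    filter_upwards [ae_aeval_ne Q hQ] with y hy
    exact (hfib y hy).2.1
  rw [h6, integral_const_mul, hv]
  ring

end Pool.Agent.PWD
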