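import Pool.Agent.PWD.RPD

/-!
# PWD [RPS]: the period `1/π` and differences of squares of norms
-/

set_option autoImplicit false

open MeasureTheory

namespace Pool.Agent.PWD

theorem rs_diff (hH : St_HRW) (n : ℕ) (hn : 1 ≤ n) (x : ℝ) (h : Vd n x) :
    ∃ v w : ℝ, Rs (n + 1) v ∧ Rs (n + 1) w ∧ v - w = Real.pi ^ 2 * x := by
  obtain ⟨a, b, ha, hb, rfl⟩ := h
  have h1 := V_one_of n hn
  have ha0 := V_nn ha
  have hb0 := V_nn hb
  exact ⟨_, _, rc_of_vol hH n (a + 1) hn (thm_VAD _ _ _ hn ha h1) (by linarith),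
    rc_of_vol hH n (b + 1) hn (thm_VAD _ _ _ hn hb h1) (by linarith), by ring⟩

/-- `1/π` is a period if and only if `1` is a difference of two integrals of reciprocals -/
theorem thm_RPS (hH : St_HRW) : IsPeriod (1 / Real.pi) ↔
    ∃ (n : ℕ) (v w : ℝ), 1 ≤ n ∧ Rs n v ∧ Rs n w ∧ v - w = 1 := by
  have hpi := Real.pi_pos
  constructor
  · intro h
    obtain ⟨n, hn, h1⟩ := (thm_FRZ _).1 h
    obtain ⟨v, w, hv, hw, he⟩ := rs_diff hH (n + n) (by omega) _ (Vd_mul (by omega) h1 h1)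
    refine ⟨n + n + 1, v, w, by omega, hv, hw, ?_⟩
    rw [he]
    field_simp
  · rintro ⟨n, v, w, hn, hv, hw, he⟩
    obtain ⟨a, ha, -, rfl⟩ := vol_of_rc n v hn (rc_of_rs _ _ hv)
    obtain ⟨b, hb, -, rfl⟩ := vol_of_rc n w hn (rc_of_rs _ _ hw)
    rw [thm_FRZ]
    refine ⟨n, hn, a, b, ha, hb, ?_⟩
    rw [← he]
    field_simp

end Pool.Agent.PWD
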