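import Mathlib

/-!
# PWD [TRC]: the sum of a rational function over the roots of a polynomial is rational
-/

set_option autoImplicit false

open Polynomial

namespace Pool.Agent.PWD

theorem trc_prod (m : Multiset ℂ) (α β : ℂ → ℂ) :
    ((m.map fun a => C (β a) + X * C (α a)).prod).coeff 0 = (m.map β).prod ∧
    ((∀ a ∈ m, β a ≠ 0) →
      ((m.map fun a => C (β a) + X * C (α a)).prod).coeff 1 =
        (m.map β).prod * (m.map fun a => α a / β a).sum) := by
  induction m using Multiset.induction_on with
  | empty =>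
    refine ⟨by simp, fun _ => ?_⟩
    simp [coeff_one]
  | cons a m ih =>
    obtain ⟨h0, h1⟩ := ih
    simp only [Multiset.map_cons, Multiset.prod_cons, Multiset.sum_cons, Multiset.mem_cons]
    refine ⟨?_, fun hb => ?_⟩
    · rw [mul_coeff_zero, h0]
      simp
    · have hb1 : β a ≠ 0 := hb a (Or.inl rfl)
      have h2 := h1 fun c hc => hb c (Or.inr hc)
      rw [add_mul, coeff_add, coeff_C_mul, h2, mul_assoc, coeff_X_mul, coeff_C_mul, h0]
      field_simp
      ring

/-- `TRC`.  The sum of a rational function over the roots of a polynomial is rational. -/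
theorem thm_TRC (S : Type) [CommRing S] (f A B : S[X]) :
    ∃ u v : S, ∀ φ : S →+* ℂ, φ f.leadingCoeff ≠ 0 →
      (∀ a ∈ (f.map φ).roots, (B.map φ).eval a ≠ 0) →
      φ v ≠ 0 ∧
        φ u / φ v =
          ((f.map φ).roots.map fun a => (A.map φ).eval a / (B.map φ).eval a).sum := by
  classical
  obtain ⟨n, hn⟩ : ∃ n, n = max A.natDegree B.natDegree := ⟨_, rfl⟩
  obtain ⟨r, hr⟩ : ∃ r, r = resultant (f.map (C : S →+* S[X]))
      (B.map C + C X * A.map C) f.natDegree n := ⟨_, rfl⟩
  refine ⟨r.coeff 1, r.coeff 0, fun φ hφ hB => ?_⟩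
  have hfd : (f.map φ).natDegree = f.natDegree := natDegree_map_of_leadingCoeff_ne_zero φ hφ
  have hsp : (f.map φ).Splits := IsAlgClosed.splits _
  have hsp' : ((f.map φ).map (C : ℂ →+* ℂ[X])).Splits := hsp.map _
  have hr' : r.map φ = resultant ((f.map φ).map (C : ℂ →+* ℂ[X]))
      ((B.map φ).map C + C X * (A.map φ).map C) f.natDegree n := by
    rw [hr, ← coe_mapRingHom, ← resultant_map_map]
    congr 1
    · ext i j
      simp [coeff_C]
    · ext i j
      simp [coeff_C, coeff_map]
  have hdeg : ((B.map φ).map (C : ℂ →+* ℂ[X]) + C X * (A.map φ).map C).natDegree ≤ n := by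
    refine (natDegree_add_le _ _).trans (max_le ?_ ?_)
    · exact (natDegree_map_le.trans natDegree_map_le).trans (hn ▸ le_max_right _ _)
    · exact (natDegree_C_mul_le _ _).trans
        ((natDegree_map_le.trans natDegree_map_le).trans (hn ▸ le_max_left _ _))
  have hd2 : ((f.map φ).map (C : ℂ →+* ℂ[X])).natDegree = f.natDegree := by
    rw [natDegree_map_eq_of_injective C_injective, hfd]
  have h1 := resultant_eq_prod_eval ((f.map φ).map (C : ℂ →+* ℂ[X]))
    ((B.map φ).map C + C X * (A.map φ).map C) n hdeg hsp'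
  rw [hd2, ← hr', leadingCoeff_map_of_injective C_injective] at h1
  have hroots : ((f.map φ).map (C : ℂ →+* ℂ[X])).roots = (f.map φ).roots.map C := by
    rw [roots_map_of_injective_of_card_eq_natDegree C_injective]
    exact (splits_iff_card_roots.1 hsp)
  rw [hroots, Multiset.map_map] at h1
  have h2 : ((f.map φ).roots.map
      ((fun x => eval x ((B.map φ).map C + C X * (A.map φ).map C)) ∘ (C : ℂ → ℂ[X]))) =
      (f.map φ).roots.map fun a => C ((B.map φ).eval a) + X * C ((A.map φ).eval a) := by
    refine Multiset.map_congr rfl fun a _ => ?_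
    simp only [Function.comp_apply, eval_add, eval_mul, eval_C]
    rw [eval_map, eval_map, eval₂_hom, eval₂_hom]
  rw [h2, ← C_pow] at h1
  obtain ⟨c0, c1⟩ := trc_prod (f.map φ).roots (fun a => (A.map φ).eval a)
    (fun a => (B.map φ).eval a)
  have c1' := c1 hB
  have e0 : φ (r.coeff 0) = (f.map φ).leadingCoeff ^ n *
      ((f.map φ).roots.map fun a => (B.map φ).eval a).prod := by
    rw [← coeff_map, h1, coeff_C_mul, c0]
  have e1 : φ (r.coeff 1) = (f.map φ).leadingCoeff ^ n *
      (((f.map φ).roots.map fun a => (B.map φ).eval a).prod *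
        ((f.map φ).roots.map fun a => (A.map φ).eval a / (B.map φ).eval a).sum) := by
    rw [← coeff_map, h1, coeff_C_mul, c1']
  have hlc : (f.map φ).leadingCoeff ≠ 0 := by
    rw [leadingCoeff_map_of_leadingCoeff_ne_zero φ hφ]; exact hφ
  have hpr : ((f.map φ).roots.map fun a => (B.map φ).eval a).prod ≠ 0 := by
    rw [Ne, Multiset.prod_eq_zero_iff, Multiset.mem_map]
    rintro ⟨a, ha, h⟩
    exact hB a ha h
  refine ⟨?_, ?_⟩
  · rw [e0]; exact mul_ne_zero (pow_ne_zero _ hlc) hpr
  · rw [e0, e1]
    have := pow_ne_zero n hlc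
    field_simp

end Pool.Agent.PWD
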