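import Pool.Agent.PWD.StR
import Pool.Agent.PWD.AVG
import Pool.Agent.PWD.TRC

/-!
# Periods without domains: rationality of the sum over roots and signs
-/

set_option autoImplicit false

open Polynomial

namespace Pool.Agent.PWD

/-- evaluation at a real point, as a complex number -/
noncomputable def evC {ι : Type} (x : ι → ℝ) : MvPolynomial ι ℚ →+* ℂ :=
  (algebraMap ℝ ℂ).comp (MvPolynomial.aeval x).toRingHom

theorem evC_apply {ι : Type} (x : ι → ℝ) (p : MvPolynomial ι ℚ) :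
    evC x p = ((MvPolynomial.aeval x p : ℝ) : ℂ) := rfl

theorem spC_eq {ι : Type} (x : ι → ℝ) (f : (MvPolynomial ι ℚ)[X]) : spC x f = f.map (evC x) := rfl

theorem sg1 (n k : ℕ) (f : (MvPolynomial (Fin n) ℚ)[X]) (g : Fin k → (MvPolynomial (Fin n) ℚ)[X])
    (lp Gp Sp : MvPolynomial (Fin n) ℚ) (Lp : Fin k → MvPolynomial (Fin n) ℚ) :
    ∃ A B : MvPolynomial (Fin (n + 1)) ℚ, ∀ x : Fin n → ℝ,
      MvPolynomial.aeval x f.leadingCoeff ≠ 0 →
      ∀ σ : ℂ → Fin k → ℂ,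
        (∀ a ∈ (spC x f).roots, ∀ i, σ a i ^ 2 = (spC x (g i)).eval a) →
      ∀ t : ℝ,
        (∀ a ∈ (spC x f).roots, ∀ ε : Fin k → Bool,
          (((MvPolynomial.aeval x Sp * t : ℝ) : ℂ) - cen (MvPolynomial.aeval x lp)
            (fun i => MvPolynomial.aeval x (Lp i)) a (σ a) ε) ^ 2 +
            ((MvPolynomial.aeval x Gp : ℝ) : ℂ) ^ 2 ≠ 0) →
        MvPolynomial.aeval (Fin.snoc x t : Fin (n + 1) → ℝ) B ≠ 0 ∧
        ((rat A B (Fin.snoc x t : Fin (n + 1) → ℝ) : ℝ) : ℂ) =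
          ((spC x f).roots.map fun a => a * ((∑ ε : Fin k → Bool,
            ((MvPolynomial.aeval x Sp : ℝ) : ℂ) * ker (MvPolynomial.aeval x Gp)
              (cen (MvPolynomial.aeval x lp) (fun i => MvPolynomial.aeval x (Lp i)) a (σ a) ε)
              (MvPolynomial.aeval x Sp * t)) / 2 ^ k)).sum := by
  classical
  set ψ : MvPolynomial (Fin n) ℚ →+* MvPolynomial (Fin (n + 1)) ℚ :=
    (MvPolynomial.rename (Fin.castSucc : Fin n → Fin (n + 1))).toRingHom with hψ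
  have hψinj : Function.Injective ψ := MvPolynomial.rename_injective _ (Fin.castSucc_injective n)
  obtain ⟨A₁, B₁, hAB⟩ := thm_AVG ((MvPolynomial (Fin n) ℚ)[X]) k
    (fun i => C (Lp i) ^ 2 * g i) 1 ((X ^ 2 + C (C Gp) ^ 2) ^ 2)
  set τ₀ : (MvPolynomial (Fin (n + 1)) ℚ)[X] :=
    C (ψ Sp * MvPolynomial.X (Fin.last n)) - C (ψ lp) * X with hτ₀
  obtain ⟨u, v, huv⟩ := thm_TRC (MvPolynomial (Fin (n + 1)) ℚ) (f.map ψ)
    (X * A₁.eval₂ (mapRingHom ψ) τ₀) (B₁.eval₂ (mapRingHom ψ) τ₀)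
  refine ⟨ψ (2 * Gp ^ 3 * Sp) * u, MvPolynomial.C (2 ^ k) * v, ?_⟩
  intro x hlc σ hσ t hne
  set y : Fin (n + 1) → ℝ := Fin.snoc x t with hy
  have hcomp : (evC y).comp ψ = evC x := by
    refine RingHom.ext fun p => ?_
    show ((MvPolynomial.aeval y (MvPolynomial.rename Fin.castSucc p) : ℝ) : ℂ) =
      ((MvPolynomial.aeval x p : ℝ) : ℂ)
    rw [MvPolynomial.aeval_rename]
    congr 2
    have : y ∘ Fin.castSucc = x := by
      funext i
      simp [hy]
    rw [this]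
  have hψx : ∀ p, evC y (ψ p) = evC x p := fun p => by rw [← hcomp]; rfl
  have hlast : evC y (MvPolynomial.X (Fin.last n)) = (t : ℂ) := by
    rw [evC_apply, MvPolynomial.aeval_X, hy, Fin.snoc_last]
  have hmapf : (f.map ψ).map (evC y) = spC x f := by
    rw [Polynomial.map_map, hcomp, spC_eq]
  have hlc2 : evC y (f.map ψ).leadingCoeff ≠ 0 := by
    rw [leadingCoeff_map_of_injective hψinj, hψx, evC_apply]
    exact_mod_cast hlc
  -- evaluation at a root
  have hev : ∀ (Q : ((MvPolynomial (Fin n) ℚ)[X])[X]) (a : ℂ),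
      ((Q.eval₂ (mapRingHom ψ) τ₀).map (evC y)).eval a =
        Q.eval₂ ((evalRingHom a).comp (mapRingHom (evC x)))
          (evC x Sp * (t : ℂ) - evC x lp * a) := by
    intro Q a
    have h1 : ((Q.eval₂ (mapRingHom ψ) τ₀).map (evC y)).eval a =
        ((evalRingHom a).comp (mapRingHom (evC y))) (Q.eval₂ (mapRingHom ψ) τ₀) := rfl
    rw [h1, hom_eval₂]
    congr 1
    · refine RingHom.ext fun p => ?_
      show ((p.map ψ).map (evC y)).eval a = (p.map (evC x)).eval a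
      rw [Polynomial.map_map, hcomp]
    · show ((τ₀).map (evC y)).eval a = _
      rw [hτ₀, Polynomial.map_sub, Polynomial.map_mul, Polynomial.map_C, Polynomial.map_C,
        Polynomial.map_X, eval_sub, eval_mul, eval_C, eval_C, eval_X, map_mul, hψx, hψx, hlast]
  -- the signed data at a root
  have hroot : ∀ a ∈ (spC x f).roots,
      (∀ i, (fun i => ((MvPolynomial.aeval x (Lp i) : ℝ) : ℂ) * σ a i) i ^ 2 =
        ((evalRingHom a).comp (mapRingHom (evC x))) (C (Lp i) ^ 2 * g i)) := by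
    intro a ha i
    show (((MvPolynomial.aeval x (Lp i) : ℝ) : ℂ) * σ a i) ^ 2 =
      ((C (Lp i) ^ 2 * g i).map (evC x)).eval a
    rw [Polynomial.map_mul, Polynomial.map_pow, Polynomial.map_C, eval_mul, eval_pow, eval_C,
      mul_pow, hσ a ha i, ← spC_eq, evC_apply]
  have hB0 : ∀ (a w : ℂ), ((X ^ 2 + C (C Gp) ^ 2) ^ 2 : ((MvPolynomial (Fin n) ℚ)[X])[X]).eval₂
      ((evalRingHom a).comp (mapRingHom (evC x))) w =
        (w ^ 2 + ((MvPolynomial.aeval x Gp : ℝ) : ℂ) ^ 2) ^ 2 := by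
    intro a w
    rw [eval₂_pow, eval₂_add, eval₂_pow, eval₂_pow, eval₂_X, eval₂_C]
    show (w ^ 2 + ((C Gp).map (evC x)).eval a ^ 2) ^ 2 = _
    rw [Polynomial.map_C, eval_C, evC_apply]
  have hcen : ∀ (a : ℂ) (ε : Fin k → Bool),
      evC x Sp * (t : ℂ) - evC x lp * a - sgn ε (fun i =>
        ((MvPolynomial.aeval x (Lp i) : ℝ) : ℂ) * σ a i) =
      ((MvPolynomial.aeval x Sp * t : ℝ) : ℂ) - cen (MvPolynomial.aeval x lp)
            (fun i => MvPolynomial.aeval x (Lp i)) a (σ a) ε := by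
    intro a ε
    unfold cen
    rw [evC_apply, evC_apply]
    push_cast
    ring
  have hBne : ∀ a ∈ (spC x f).roots,
      B₁.eval₂ ((evalRingHom a).comp (mapRingHom (evC x)))
        (evC x Sp * (t : ℂ) - evC x lp * a) ≠ 0 := by
    intro a ha
    rw [(hAB ℂ _ _ _ (hroot a ha)).1]
    refine Finset.prod_ne_zero_iff.mpr fun ε _ => ?_
    rw [hB0, hcen]
    exact pow_ne_zero 2 (hne a ha ε)
  have hBne2 : ∀ a ∈ ((f.map ψ).map (evC y)).roots,
      ((B₁.eval₂ (mapRingHom ψ) τ₀).map (evC y)).eval a ≠ 0 := by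
    rw [hmapf]
    intro a ha
    rw [hev]
    exact hBne a ha
  obtain ⟨hv, hsum⟩ := huv (evC y) hlc2 hBne2
  rw [hmapf] at hsum
  have hvr : MvPolynomial.aeval y v ≠ 0 := by
    rw [evC_apply] at hv
    exact_mod_cast hv
  constructor
  · rw [map_mul, MvPolynomial.aeval_C]
    refine mul_ne_zero ?_ hvr
    rw [map_pow]
    exact pow_ne_zero _ (by simp)
  · have h2k : ((MvPolynomial.aeval y (MvPolynomial.C (2 ^ k) : MvPolynomial (Fin (n + 1)) ℚ) : ℝ)
        : ℂ) = 2 ^ k := by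
      rw [MvPolynomial.aeval_C]
      push_cast
      simp
    have hr : ((rat (ψ (2 * Gp ^ 3 * Sp) * u) (MvPolynomial.C (2 ^ k) * v) y : ℝ) : ℂ) =
        (2 * ((MvPolynomial.aeval x Gp : ℝ) : ℂ) ^ 3 * ((MvPolynomial.aeval x Sp : ℝ) : ℂ)) / 2 ^ k *
          (evC y u / evC y v) := by
      unfold rat
      rw [Complex.ofReal_div, map_mul (MvPolynomial.aeval y) (ψ (2 * Gp ^ 3 * Sp)) u,
        map_mul (MvPolynomial.aeval y) (MvPolynomial.C (2 ^ k)) v, Complex.ofReal_mul,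
        Complex.ofReal_mul, h2k]
      have e1 : ((MvPolynomial.aeval y (ψ (2 * Gp ^ 3 * Sp)) : ℝ) : ℂ) =
          2 * ((MvPolynomial.aeval x Gp : ℝ) : ℂ) ^ 3 * ((MvPolynomial.aeval x Sp : ℝ) : ℂ) := by
        have := hψx (2 * Gp ^ 3 * Sp)
        rw [evC_apply] at this
        rw [this, map_mul, map_mul, map_pow, evC_apply x Gp, evC_apply x Sp, map_ofNat]
      rw [e1, evC_apply, evC_apply]
      have h3 : ((MvPolynomial.aeval y v : ℝ) : ℂ) ≠ 0 := by exact_mod_cast hvr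
      field_simp
    rw [hr, hsum, ← Multiset.sum_map_mul_left]
    congr 1
    refine Multiset.map_congr rfl fun a ha => ?_
    rw [Polynomial.map_mul, Polynomial.map_X, eval_mul, eval_X, hev, hev, mul_div_assoc a,
      (hAB ℂ _ _ _ (hroot a ha)).2 (hBne a ha)]
    have e2 : ∀ ε : Fin k → Bool,
        ((MvPolynomial.aeval x Sp : ℝ) : ℂ) * ker (MvPolynomial.aeval x Gp)
              (cen (MvPolynomial.aeval x lp) (fun i => MvPolynomial.aeval x (Lp i)) a (σ a) ε)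
              (MvPolynomial.aeval x Sp * t) =
        (2 * ((MvPolynomial.aeval x Gp : ℝ) : ℂ) ^ 3 * ((MvPolynomial.aeval x Sp : ℝ) : ℂ)) *
        ((1 : ((MvPolynomial (Fin n) ℚ)[X])[X]).eval₂ ((evalRingHom a).comp (mapRingHom (evC x)))
          (evC x Sp * (t : ℂ) - evC x lp * a - sgn ε (fun i =>
            ((MvPolynomial.aeval x (Lp i) : ℝ) : ℂ) * σ a i)) /
        ((X ^ 2 + C (C Gp) ^ 2) ^ 2 : ((MvPolynomial (Fin n) ℚ)[X])[X]).eval₂
          ((evalRingHom a).comp (mapRingHom (evC x)))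
          (evC x Sp * (t : ℂ) - evC x lp * a - sgn ε (fun i =>
            ((MvPolynomial.aeval x (Lp i) : ℝ) : ℂ) * σ a i))) := by
      intro ε
      rw [hB0, eval₂_one, hcen]
      unfold ker
      ring
    rw [Finset.sum_congr rfl fun ε _ => e2 ε, ← Finset.mul_sum]
    ring

end Pool.Agent.PWD
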