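import Pool.Agent.PWD.NUM
import Pool.Agent.PWD.BND

/-!
# Periods without domains: the numbers of the trick at one root
-/

set_option autoImplicit false

namespace Pool.Agent.PWD

/-- multipliers -/
noncomputable def mL (D P : ℝ) (k : ℕ) (i : ℕ) : ℝ := P * D ^ (2 * i + 3) * (D ^ 2 + P ^ 2) ^ (k - 1 - i)

/-- lower bounds -/
noncomputable def mM (D P : ℝ) (k : ℕ) (i : ℕ) : ℝ := D ^ (2 * i + 2) * (D ^ 2 + P ^ 2) ^ (k - i)

theorem sqrt_bds (D P w : ℝ) (hD : 0 < D) (hP : D ≤ P) (hw : 0 ≤ w) (h1 : D ≤ P * w)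
    (h2 : w * D ≤ P) : D ≤ P * √w ∧ √w * D ≤ P := by
  have hP0 : 0 < P := lt_of_lt_of_le hD hP
  have hs : √w ^ 2 = w := Real.sq_sqrt hw
  have hs0 : 0 ≤ √w := Real.sqrt_nonneg w
  constructor
  · rcases le_or_gt (√w) 1 with h | h
    · have : w ≤ √w := by nlinarith
      exact h1.trans (mul_le_mul_of_nonneg_left this hP0.le)
    · nlinarith
  · rcases le_or_gt (√w) 1 with h | h
    · nlinarith
    · have : √w ≤ w := by nlinarith
      exact (mul_le_mul_of_nonneg_right this hD.le).trans h2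

theorem sg2_L (D P w N : ℝ) (k : ℕ) (i : Fin k) (hD : 0 < D) (hP : 0 < P) (hN : 0 ≤ N)
    (h1 : D ≤ P * w) (h2 : w * D ≤ P) :
    0 ≤ N * mL D P k i ∧ N * mM D P k i.succ ≤ N * mL D P k i * w ∧
      N * mM D P k i.succ + N * mL D P k i * w ≤ N * mM D P k i.castSucc := by
  have hE : 0 < D ^ 2 + P ^ 2 := by positivity
  have e0 : k - 1 - (i : ℕ) = k - ((i : ℕ) + 1) := by omega
  have e1 : k - (i : ℕ) = (k - ((i : ℕ) + 1)) + 1 := by
    have := i.isLt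
    omega
  unfold mL mM
  rw [Fin.val_succ, Fin.val_castSucc, e0, e1]
  set j := k - ((i : ℕ) + 1)
  have e2 : D ^ (2 * ((i : ℕ) + 1) + 2) = D ^ (2 * (i : ℕ) + 2) * D ^ 2 := by ring
  have e3 : D ^ (2 * (i : ℕ) + 3) = D ^ (2 * (i : ℕ) + 2) * D := by ring
  have hDD : 0 < D ^ (2 * (i : ℕ) + 2) := by positivity
  have hEj : 0 < (D ^ 2 + P ^ 2) ^ j := by positivity
  refine ⟨by positivity, ?_, ?_⟩
  · rw [mul_assoc]
    refine mul_le_mul_of_nonneg_left ?_ hN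
    rw [e2, e3]
    have : P * (D ^ (2 * (i : ℕ) + 2) * D) * (D ^ 2 + P ^ 2) ^ j * w =
        D ^ (2 * (i : ℕ) + 2) * (D ^ 2 + P ^ 2) ^ j * (D * (P * w)) := by ring
    rw [this]
    have : D ^ (2 * (i : ℕ) + 2) * D ^ 2 * (D ^ 2 + P ^ 2) ^ j =
        D ^ (2 * (i : ℕ) + 2) * (D ^ 2 + P ^ 2) ^ j * (D * D) := by ring
    rw [this]
    refine mul_le_mul_of_nonneg_left ?_ (by positivity)
    exact mul_le_mul_of_nonneg_left h1 hD.le
  · rw [mul_assoc, ← mul_add]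
    refine mul_le_mul_of_nonneg_left ?_ hN
    rw [e2, e3, pow_succ (D ^ 2 + P ^ 2) j]
    have : D ^ (2 * (i : ℕ) + 2) * D ^ 2 * (D ^ 2 + P ^ 2) ^ j +
        P * (D ^ (2 * (i : ℕ) + 2) * D) * (D ^ 2 + P ^ 2) ^ j * w =
        D ^ (2 * (i : ℕ) + 2) * (D ^ 2 + P ^ 2) ^ j * (D ^ 2 + P * (w * D)) := by ring
    rw [this]
    have : D ^ (2 * (i : ℕ) + 2) * ((D ^ 2 + P ^ 2) ^ j * (D ^ 2 + P ^ 2)) =
        D ^ (2 * (i : ℕ) + 2) * (D ^ 2 + P ^ 2) ^ j * (D ^ 2 + P * P) := by ring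
    rw [this]
    refine mul_le_mul_of_nonneg_left ?_ (by positivity)
    have := mul_le_mul_of_nonneg_left h2 hP.le
    linarith

/-- all numerical hypotheses of `FIB` at one root -/
theorem sg2 (D P N q : ℝ) (k : ℕ) (a : ℂ) (w : Fin k → ℝ) (hD : 0 < D) (hDP : D ≤ P)
    (hq : 1 ≤ q) (c e : ℝ) (hc : 0 ≤ c) (he : 0 < e)
    (ha1 : ‖a‖ * D ≤ P) (ha2 : a.im ≠ 0 → D ≤ P * |a.im|)
    (h1 : ∀ i, D ≤ P * w i) (h2 : ∀ i, w i * D ≤ P)
    (hN : 1 + 2 * D ^ (2 * k + 2) + 256 * c / e * P * D ^ (4 * k + 3) *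
      (D ^ 2 + P ^ 2) ^ (k + 1) * q ^ 2 ≤ N) :
    (a.im ≠ 0 → N * mM D P k (0 : Fin (k + 1)) ≤ N * (P * D * (D ^ 2 + P ^ 2) ^ k) * |a.im|) ∧
    0 < D ^ (4 * k + 4) ∧ 0 < N * D ^ (2 * k + 2) / 2 ∧
    D ^ (4 * k + 4) + N * D ^ (2 * k + 2) / 2 ≤ N * mM D P k (Fin.last k) ∧
    2 * (N * (P * D * (D ^ 2 + P ^ 2) ^ k) * ‖a‖ + ∑ i : Fin k, N * mL D P k i * w i) ≤
      N * (2 * (D ^ 2 + P ^ 2) ^ (k + 1)) ∧
    2 * (N * D ^ (2 * k + 2) / 2) ^ 2 ≤ (N * (2 * (D ^ 2 + P ^ 2) ^ (k + 1))) ^ 2 ∧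
    c * (‖a‖ * (8 * (D ^ (4 * k + 4)) ^ 3 * (N * (2 * (D ^ 2 + P ^ 2) ^ (k + 1))) * q ^ 2 /
      (N * D ^ (2 * k + 2) / 2) ^ 4)) ≤ e := by
  have hP : 0 < P := lt_of_lt_of_le hD hDP
  have hE : 0 < D ^ 2 + P ^ 2 := by positivity
  have hDE : D ^ 2 ≤ D ^ 2 + P ^ 2 := by
    have := sq_nonneg P
    linarith
  have hA : 0 ≤ 256 * c / e * P * D ^ (4 * k + 3) * (D ^ 2 + P ^ 2) ^ (k + 1) * q ^ 2 := by
    positivity
  have hB : 0 ≤ 2 * D ^ (2 * k + 2) := by positivity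
  have hN1 : 1 ≤ N := by linarith
  have hN0 : 0 < N := by linarith
  have hlast : mM D P k (Fin.last k) = D ^ (2 * k + 2) := by
    unfold mM
    rw [Fin.val_last, Nat.sub_self, pow_zero, mul_one]
  have hzero : mM D P k (0 : Fin (k + 1)) = D ^ 2 * (D ^ 2 + P ^ 2) ^ k := by
    unfold mM
    rw [Fin.val_zero, Nat.sub_zero, mul_zero, zero_add]
  refine ⟨?_, by positivity, by positivity, ?_, ?_, ?_, ?_⟩
  · intro him
    have h3 := ha2 him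
    rw [hzero, mul_assoc]
    refine mul_le_mul_of_nonneg_left ?_ hN0.le
    have : P * D * (D ^ 2 + P ^ 2) ^ k * |a.im| = (D ^ 2 + P ^ 2) ^ k * D * (P * |a.im|) := by ring
    rw [this]
    have : D ^ 2 * (D ^ 2 + P ^ 2) ^ k = (D ^ 2 + P ^ 2) ^ k * D * D := by ring
    rw [this]
    exact mul_le_mul_of_nonneg_left h3 (by positivity)
  · rw [hlast]
    have h3 : 2 * D ^ (2 * k + 2) ≤ N := by linarith
    have h4 : D ^ (4 * k + 4) = D ^ (2 * k + 2) * D ^ (2 * k + 2) := by ring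
    have h5 : 0 < D ^ (2 * k + 2) := by positivity
    nlinarith
  · have h3 : ∀ i : Fin k, N * mM D P k i.succ + N * mL D P k i * w i ≤
        N * mM D P k i.castSucc := fun i =>
      (sg2_L D P (w i) N k i hD hP hN0.le (h1 i) (h2 i)).2.2
    have h4 := bnd_tel (fun i : Fin k => N * mL D P k i * w i)
      (fun i : Fin (k + 1) => N * mM D P k i) h3
    have h5 : 0 ≤ N * mM D P k (Fin.last k) := by
      rw [hlast]
      positivity
    have h6 : ∑ i : Fin k, N * mL D P k i * w i ≤ N * (D ^ 2 * (D ^ 2 + P ^ 2) ^ k) := by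
      have h7 : N * mM D P k (Fin.last k) + ∑ i : Fin k, N * mL D P k i * w i ≤
        N * mM D P k (0 : Fin (k + 1)) := h4
      rw [hzero] at h7
      linarith
    have h8 : N * (P * D * (D ^ 2 + P ^ 2) ^ k) * ‖a‖ ≤ N * (P ^ 2 * (D ^ 2 + P ^ 2) ^ k) := by
      have : N * (P * D * (D ^ 2 + P ^ 2) ^ k) * ‖a‖ =
          N * (P * (D ^ 2 + P ^ 2) ^ k) * (‖a‖ * D) := by ring
      rw [this]
      have : N * (P ^ 2 * (D ^ 2 + P ^ 2) ^ k) = N * (P * (D ^ 2 + P ^ 2) ^ k) * P := by ring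
      rw [this]
      exact mul_le_mul_of_nonneg_left ha1 (by positivity)
    have h9 : N * (2 * (D ^ 2 + P ^ 2) ^ (k + 1)) =
        2 * (N * (P ^ 2 * (D ^ 2 + P ^ 2) ^ k) + N * (D ^ 2 * (D ^ 2 + P ^ 2) ^ k)) := by ring
    rw [h9]
    linarith
  · have h3 : D ^ (2 * k + 2) ≤ (D ^ 2 + P ^ 2) ^ (k + 1) := by
      have : D ^ (2 * k + 2) = (D ^ 2) ^ (k + 1) := by ring
      rw [this]
      exact pow_le_pow_left₀ (by positivity) hDE _
    have h4 : 0 < D ^ (2 * k + 2) := by positivity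
    have h5 : 0 ≤ N * D ^ (2 * k + 2) := by positivity
    have h6 : N * D ^ (2 * k + 2) ≤ N * (D ^ 2 + P ^ 2) ^ (k + 1) :=
      mul_le_mul_of_nonneg_left h3 hN0.le
    nlinarith
  · have hN3 : N ≤ N ^ 3 := by nlinarith [sq_nonneg N, sq_nonneg (N - 1)]
    have h3 : c * (‖a‖ * (8 * (D ^ (4 * k + 4)) ^ 3 * (N * (2 * (D ^ 2 + P ^ 2) ^ (k + 1))) *
        q ^ 2 / (N * D ^ (2 * k + 2) / 2) ^ 4)) =
        256 * c * (‖a‖ * D) * D ^ (4 * k + 3) * (D ^ 2 + P ^ 2) ^ (k + 1) * q ^ 2 / N ^ 3 := by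
      field_simp
      ring
    rw [h3, div_le_iff₀ (by positivity)]
    have h4 : 256 * c * (‖a‖ * D) * D ^ (4 * k + 3) * (D ^ 2 + P ^ 2) ^ (k + 1) * q ^ 2 ≤
        256 * c * P * D ^ (4 * k + 3) * (D ^ 2 + P ^ 2) ^ (k + 1) * q ^ 2 := by
      gcongr
    have h5 : 256 * c * P * D ^ (4 * k + 3) * (D ^ 2 + P ^ 2) ^ (k + 1) * q ^ 2 =
        e * (256 * c / e * P * D ^ (4 * k + 3) * (D ^ 2 + P ^ 2) ^ (k + 1) * q ^ 2) := by
      field_simp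
    rw [h5] at h4
    refine h4.trans (mul_le_mul_of_nonneg_left ?_ he.le)
    linarith

end Pool.Agent.PWD
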