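import Pool.Agent.PWD.SG1
import Pool.Agent.PWD.SG2
import Pool.Agent.PWD.FIB

/-!
# Periods without domains: one polynomial `f`, one family `g`
-/

set_option autoImplicit false

open MeasureTheory Polynomial

namespace Pool.Agent.PWD

theorem real_of_complex (F : ℝ → ℝ) (h : Integrable (fun t : ℝ => ((F t : ℝ) : ℂ))) :
    Integrable F ∧ ((∫ t : ℝ, F t : ℝ) : ℂ) = ∫ t : ℝ, ((F t : ℝ) : ℂ) := by
  refine ⟨?_, integral_complex_ofReal.symm⟩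
  have := h.re
  simpa using this

theorem spC_spR {ι : Type} (x : ι → ℝ) (f : (MvPolynomial ι ℚ)[X]) :
    spC x f = (spR x f).map (algebraMap ℝ ℂ) := by
  unfold spC spR
  rw [Polynomial.map_map]

theorem spC_eval_real {ι : Type} (x : ι → ℝ) (f : (MvPolynomial ι ℚ)[X]) (T : ℝ) :
    (spC x f).eval (T : ℂ) = (((spR x f).eval T : ℝ) : ℂ) := by
  rw [spC_spR, eval_map]
  exact eval₂_at_apply (algebraMap ℝ ℂ) T

/-- a square root of `g (x, a)`, real or purely imaginary for real `a` -/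
noncomputable def sqr {ι : Type} (x : ι → ℝ) (g : (MvPolynomial ι ℚ)[X]) (a : ℂ) : ℂ :=
  if a.im = 0 then csq ((spR x g).eval a.re)
  else (IsAlgClosed.exists_pow_nat_eq ((spC x g).eval a) (n := 2) (by norm_num)).choose

theorem sqr_sq {ι : Type} (x : ι → ℝ) (g : (MvPolynomial ι ℚ)[X]) (a : ℂ) :
    sqr x g a ^ 2 = (spC x g).eval a := by
  unfold sqr
  split_ifs with h
  · have ha : a = ((a.re : ℝ) : ℂ) := Complex.ext rfl (by simpa using h)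
    rw [csq_sq]
    conv_rhs => rw [ha]
    rw [spC_eval_real]
  · exact (IsAlgClosed.exists_pow_nat_eq ((spC x g).eval a) (n := 2) (by norm_num)).choose_spec

theorem sqr_norm {ι : Type} (x : ι → ℝ) (g : (MvPolynomial ι ℚ)[X]) (a : ℂ) :
    ‖sqr x g a‖ = √‖(spC x g).eval a‖ := by
  rw [← sqr_sq, norm_pow, Real.sqrt_sq (norm_nonneg _)]

theorem sqr_alt {ι : Type} (x : ι → ℝ) (g : (MvPolynomial ι ℚ)[X]) (a : ℂ) (h : a.im = 0) :
    (sqr x g a).re = 0 ∨ (sqr x g a).im = 0 := by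
  unfold sqr
  rw [if_pos h]
  exact csq_alt _

theorem sqr_im {ι : Type} (x : ι → ℝ) (g : (MvPolynomial ι ℚ)[X]) (a : ℂ) (h : a.im = 0)
    (hne : (spC x g).eval a ≠ 0) : (sqr x g a).im = 0 ↔ 0 < (spR x g).eval a.re := by
  unfold sqr
  rw [if_pos h, csq_im]
  refine ⟨fun h1 => lt_of_le_of_ne h1 fun h2 => hne ?_, le_of_lt⟩
  have ha : a = ((a.re : ℝ) : ℂ) := Complex.ext rfl (by simpa using h)
  rw [ha, spC_eval_real, ← h2]
  simp

theorem thm_SGL : St_SGL := by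
  classical
  intro n k f g d P e he hd hx
  obtain ⟨D, hD⟩ : ∃ D : MvPolynomial (Fin n) ℚ, D = d ^ 2 := ⟨_, rfl⟩
  obtain ⟨E, hE⟩ : ∃ E : MvPolynomial (Fin n) ℚ, E = D ^ 2 + P ^ 2 := ⟨_, rfl⟩
  obtain ⟨q, hq⟩ : ∃ q : MvPolynomial (Fin n) ℚ, q = ∏ i, (1 + MvPolynomial.X i ^ 2) := ⟨_, rfl⟩
  obtain ⟨c, hc⟩ : ∃ c : ℕ, c = f.natDegree := ⟨_, rfl⟩
  obtain ⟨N, hN⟩ : ∃ N : MvPolynomial (Fin n) ℚ, N = 1 + 2 * D ^ (2 * k + 2) +
    MvPolynomial.C (256 * (c : ℚ) / e) * P * D ^ (4 * k + 3) * E ^ (k + 1) * q ^ 2 := ⟨_, rfl⟩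
  obtain ⟨A, B, hAB⟩ := sg1 n k f g (N * (P * D * E ^ k)) (D ^ (4 * k + 4))
    (N * (2 * E ^ (k + 1))) (fun i => N * (P * D ^ (2 * (i : ℕ) + 3) * E ^ (k - 1 - (i : ℕ))))
  refine ⟨A, B, fun x hdx => ?_⟩
  obtain ⟨hlc, hnd, hP1, hDP, hroot⟩ := hx x hdx
  have hAB' := hAB x hlc
  clear hAB hx
  -- the numbers at `x`
  obtain ⟨Dx, hDx⟩ : ∃ Dx : ℝ, Dx = MvPolynomial.aeval x d ^ 2 := ⟨_, rfl⟩
  obtain ⟨Px, hPx⟩ : ∃ Px : ℝ, Px = MvPolynomial.aeval x P := ⟨_, rfl⟩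
  obtain ⟨qx, hqx⟩ : ∃ qx : ℝ, qx = ∏ i, (1 + x i ^ 2) := ⟨_, rfl⟩
  obtain ⟨Nx, hNx⟩ : ∃ Nx : ℝ, Nx = MvPolynomial.aeval x N := ⟨_, rfl⟩
  rw [← hPx] at hP1
  rw [← hPx, ← hDx] at hDP
  rw [← hPx, ← hDx] at hroot
  have hD0 : 0 < Dx := by rw [hDx]; positivity
  have eD : MvPolynomial.aeval x D = Dx := by rw [hD, map_pow, hDx]
  have eE : MvPolynomial.aeval x E = Dx ^ 2 + Px ^ 2 := by
    rw [hE, map_add, map_pow, map_pow, eD, hPx]
  have eq' : MvPolynomial.aeval x q = qx := by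
    rw [hq, map_prod, hqx]
    refine Finset.prod_congr rfl fun i _ => ?_
    rw [map_add, map_one, map_pow, MvPolynomial.aeval_X]
  have hq1 : 1 ≤ qx := by
    rw [hqx]
    have : ∏ _i : Fin n, (1 : ℝ) ≤ ∏ i, (1 + x i ^ 2) :=
      Finset.prod_le_prod (fun _ _ => zero_le_one) fun i _ => by nlinarith [sq_nonneg (x i)]
    simpa using this
  have hP0 : 0 < Px := by linarith
  have heR : (0 : ℝ) < (e : ℝ) := by exact_mod_cast he
  have eN : Nx = 1 + 2 * Dx ^ (2 * k + 2) + 256 * (c : ℝ) / (e : ℝ) * Px * Dx ^ (4 * k + 3) *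
      (Dx ^ 2 + Px ^ 2) ^ (k + 1) * qx ^ 2 := by
    rw [hNx, hN]
    simp only [map_add, map_mul, map_pow, map_one, map_ofNat, MvPolynomial.aeval_C, eD, eE, eq',
      ← hPx]
    simp
  have hcR : (0 : ℝ) ≤ (c : ℝ) := Nat.cast_nonneg c
  have hN0 : 0 ≤ Nx := by
    rw [eN]
    positivity
  have e1 : MvPolynomial.aeval x (N * (P * D * E ^ k)) =
      Nx * (Px * Dx * (Dx ^ 2 + Px ^ 2) ^ k) := by
    simp only [map_mul, map_pow, eD, eE, ← hPx, ← hNx]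
  have e2 : MvPolynomial.aeval x (D ^ (4 * k + 4)) = Dx ^ (4 * k + 4) := by
    rw [map_pow, eD]
  have e3 : MvPolynomial.aeval x (N * (2 * E ^ (k + 1))) =
      Nx * (2 * (Dx ^ 2 + Px ^ 2) ^ (k + 1)) := by
    simp only [map_mul, map_pow, map_ofNat, eE, ← hNx]
  have e4 : ∀ i : Fin k, MvPolynomial.aeval x
      (N * (P * D ^ (2 * (i : ℕ) + 3) * E ^ (k - 1 - (i : ℕ)))) = Nx * mL Dx Px k i := by
    intro i
    unfold mL
    simp only [map_mul, map_pow, eD, eE, ← hPx, ← hNx]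
  simp only [e1, e2, e3, e4] at hAB'
  -- the square roots
  obtain ⟨σ, hσ⟩ : ∃ σ : ℂ → Fin k → ℂ, σ = fun a i => sqr x (g i) a := ⟨_, rfl⟩
  have hσ2 : ∀ a ∈ (spC x f).roots, ∀ i, σ a i ^ 2 = (spC x (g i)).eval a := by
    intro a _ i
    rw [hσ]
    exact sqr_sq x (g i) a
  have hf0 : spC x f ≠ 0 := by
    intro h
    have h1 := congrArg (fun p => Polynomial.coeff p f.natDegree) h
    simp only [spC_eq, coeff_map, coeff_zero] at h1
    rw [evC_apply] at h1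
    exact hlc (by exact_mod_cast h1)
  have hrt : ∀ a ∈ (spC x f).roots, (spC x f).eval a = 0 := fun a ha => (mem_roots hf0).mp ha
  have hgne : ∀ a ∈ (spC x f).roots, ∀ i, (spC x (g i)).eval a ≠ 0 := by
    intro a ha i h0
    have := ((hroot a (hrt a ha)).2.2 i).1
    rw [h0, norm_zero, mul_zero] at this
    linarith
  have hσb : ∀ a ∈ (spC x f).roots, ∀ i, Dx ≤ Px * ‖σ a i‖ ∧ ‖σ a i‖ * Dx ≤ Px := by
    intro a ha i
    have h1 := (hroot a (hrt a ha)).2.2 i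
    rw [hσ]
    show Dx ≤ Px * ‖sqr x (g i) a‖ ∧ ‖sqr x (g i) a‖ * Dx ≤ Px
    rw [sqr_norm]
    exact sqrt_bds Dx Px _ hD0 hDP (norm_nonneg _) h1.1 h1.2
  have hnum := fun (a : ℂ) (ha : a ∈ (spC x f).roots) =>
    sg2 Dx Px Nx qx k a (fun i => ‖σ a i‖) hD0 hDP hq1 c e hcR heR
      (hroot a (hrt a ha)).1 (hroot a (hrt a ha)).2.1 (fun i => (hσb a ha i).1)
      (fun i => (hσb a ha i).2) (le_of_eq eN.symm)
  have hlN : 0 ≤ Nx * (Px * Dx * (Dx ^ 2 + Px ^ 2) ^ k) := by positivity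
  have hfib := fun (a : ℂ) (ha : a ∈ (spC x f).roots) =>
    thm_FIB k a (σ a) (Nx * (Px * Dx * (Dx ^ 2 + Px ^ 2) ^ k)) (fun i => Nx * mL Dx Px k i)
      (fun i => Nx * mM Dx Px k i) (Dx ^ (4 * k + 4)) (Nx * (2 * (Dx ^ 2 + Px ^ 2) ^ (k + 1)))
      (Nx * Dx ^ (2 * k + 2) / 2) qx hlN
      (fun i => (sg2_L Dx Px ‖σ a i‖ Nx k i hD0 hP0 hN0 (hσb a ha i).1 (hσb a ha i).2).1)
      (fun i => (sg2_L Dx Px ‖σ a i‖ Nx k i hD0 hP0 hN0 (hσb a ha i).1 (hσb a ha i).2).2.1)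
      (fun i => (sg2_L Dx Px ‖σ a i‖ Nx k i hD0 hP0 hN0 (hσb a ha i).1 (hσb a ha i).2).2.2)
      (hnum a ha).1
      (fun him i => by rw [hσ]; exact sqr_alt x (g i) a him)
      (hnum a ha).2.1 (hnum a ha).2.2.1 hq1 (hnum a ha).2.2.2.1 (hnum a ha).2.2.2.2.1
      (hnum a ha).2.2.2.2.2.1
  -- the sum
  obtain ⟨K, hK⟩ : ∃ K : ℂ → ℝ → ℂ, K = fun a t => ∑ ε : Fin k → Bool,
      ((Nx * (2 * (Dx ^ 2 + Px ^ 2) ^ (k + 1)) : ℝ) : ℂ) * ker (Dx ^ (4 * k + 4))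
        (cen (Nx * (Px * Dx * (Dx ^ 2 + Px ^ 2) ^ k)) (fun i => Nx * mL Dx Px k i) a (σ a) ε)
        (Nx * (2 * (Dx ^ 2 + Px ^ 2) ^ (k + 1)) * t) := ⟨_, rfl⟩
  obtain ⟨β, hβ⟩ : ∃ β : ℝ, β = 8 * (Dx ^ (4 * k + 4)) ^ 3 *
      (Nx * (2 * (Dx ^ 2 + Px ^ 2) ^ (k + 1))) * qx ^ 2 / (Nx * Dx ^ (2 * k + 2) / 2) ^ 4 :=
    ⟨_, rfl⟩
  obtain ⟨Z, hZ⟩ : ∃ Z : Finset ℂ, Z = ⟨(spC x f).roots, hnd⟩ := ⟨_, rfl⟩
  have hZm : ∀ a, a ∈ Z ↔ a ∈ (spC x f).roots := fun a => by rw [hZ]; rfl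
  obtain ⟨F, hF⟩ : ∃ F : ℝ → ℝ, F = fun t : ℝ => rat A B (Fin.snoc x t : Fin (n + 1) → ℝ) :=
    ⟨_, rfl⟩
  have hFs : ∀ t : ℝ, ((F t : ℝ) : ℂ) = ∑ a ∈ Z, a * (K a t / 2 ^ k) := by
    intro t
    have h1 := (hAB' σ hσ2 t (fun a ha ε => (hfib a ha).1 ε t)).2
    rw [hF, hZ, hK]
    exact h1
  have hKi : ∀ a ∈ Z, Integrable (K a) := by
    intro a ha
    rw [hK]
    exact (hfib a ((hZm a).mp ha)).2.1
  have hKsel : ∀ a ∈ Z, (a.im = 0 ∧ ∀ i, (σ a i).im = 0) →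
      (∫ t : ℝ, K a t) = 2 ^ k * Real.pi ∧ ∀ t : ℝ, (K a t).im = 0 ∧ 0 ≤ (K a t).re := by
    intro a ha hs
    rw [hK]
    exact (hfib a ((hZm a).mp ha)).2.2.1 hs
  have hKns : ∀ a ∈ Z, ¬ (a.im = 0 ∧ ∀ i, (σ a i).im = 0) →
      (∫ t : ℝ, K a t) = 0 ∧ ∀ t : ℝ, ‖K a t‖ ≤ 2 ^ k * (β / (t ^ 2 + qx) ^ 2) := by
    intro a ha hs
    rw [hK, hβ]
    exact (hfib a ((hZm a).mp ha)).2.2.2 hs
  have hβa : ∀ a ∈ Z, (c : ℝ) * (‖a‖ * β) ≤ e := by
    intro a ha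
    rw [hβ]
    exact (hnum a ((hZm a).mp ha)).2.2.2.2.2.2
  have hβ0 : 0 ≤ β := by
    rw [hβ]
    positivity
  have hcard : (Z.card : ℝ) ≤ c := by
    have h1 : Z.card = Multiset.card (spC x f).roots := by rw [hZ]; rfl
    have h2 : Z.card ≤ c := by
      rw [h1, hc]
      exact (card_roots' _).trans natDegree_map_le
    exact_mod_cast h2
  have hw : ∀ t : ℝ, wgt x t = 1 / (t ^ 2 + qx) ^ 2 := fun t => by rw [hqx]; rfl
  have hw0 : ∀ t : ℝ, 0 ≤ wgt x t := fun t => by rw [hw]; positivity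
  have hterm : ∀ a ∈ Z, ¬ (a.im = 0 ∧ ∀ i, (σ a i).im = 0) → ∀ t : ℝ,
      (c : ℝ) * ‖a * (K a t / 2 ^ k)‖ ≤ e * wgt x t := by
    intro a ha hs t
    have h1 := (hKns a ha hs).2 t
    have h2 : ‖a * (K a t / 2 ^ k)‖ ≤ ‖a‖ * (β / (t ^ 2 + qx) ^ 2) := by
      rw [norm_mul, norm_div, norm_pow, Complex.norm_ofNat]
      refine mul_le_mul_of_nonneg_left ?_ (norm_nonneg _)
      rw [div_le_iff₀ (by positivity)]
      linarith
    calc (c : ℝ) * ‖a * (K a t / 2 ^ k)‖ ≤ c * (‖a‖ * (β / (t ^ 2 + qx) ^ 2)) :=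
          mul_le_mul_of_nonneg_left h2 hcR
      _ = (c * (‖a‖ * β)) * (1 / (t ^ 2 + qx) ^ 2) := by ring
      _ ≤ e * (1 / (t ^ 2 + qx) ^ 2) :=
          mul_le_mul_of_nonneg_right (hβa a ha) (by positivity)
      _ = e * wgt x t := by rw [hw]
  have hsum : ∀ Z' : Finset ℂ, Z' ⊆ Z →
      (∀ a ∈ Z', ¬ (a.im = 0 ∧ ∀ i, (σ a i).im = 0)) → ∀ t : ℝ,
      ‖∑ a ∈ Z', a * (K a t / 2 ^ k)‖ ≤ e * wgt x t := by
    intro Z' hZ' hs t
    rcases Z'.eq_empty_or_nonempty with h0 | ⟨b, hb⟩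
    · rw [h0, Finset.sum_empty, norm_zero]
      exact mul_nonneg heR.le (hw0 t)
    · have hc0 : (0 : ℝ) < c := by
        have : 0 < Z.card := Finset.card_pos.mpr ⟨b, hZ' hb⟩
        have : (0 : ℝ) < Z.card := by exact_mod_cast this
        linarith
      have h1 : ∑ a ∈ Z', ‖a * (K a t / 2 ^ k)‖ ≤ ∑ _a ∈ Z', e * wgt x t / c := by
        refine Finset.sum_le_sum fun a ha => ?_
        rw [le_div_iff₀ hc0, mul_comm]
        exact hterm a (hZ' ha) (hs a ha) t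
      refine (norm_sum_le _ _).trans (h1.trans ?_)
      rw [Finset.sum_const, nsmul_eq_mul, mul_div_assoc', div_le_iff₀ hc0, mul_comm]
      refine mul_le_mul_of_nonneg_left ?_ (mul_nonneg heR.le (hw0 t))
      refine le_trans ?_ hcard
      exact_mod_cast Finset.card_le_card hZ'
  have hti : ∀ a ∈ Z, Integrable (fun t : ℝ => a * (K a t / 2 ^ k)) := fun a ha =>
    ((hKi a ha).div_const _).const_mul _
  have hFc : (fun t : ℝ => ((F t : ℝ) : ℂ)) = fun t : ℝ => ∑ a ∈ Z, a * (K a t / 2 ^ k) :=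
    funext hFs
  have hFi : Integrable (fun t : ℝ => ((F t : ℝ) : ℂ)) := by
    rw [hFc]
    exact integrable_finsetSum _ hti
  obtain ⟨hFr, hFint⟩ := real_of_complex F hFi
  have hFint2 : ((∫ t : ℝ, F t : ℝ) : ℂ) = ∑ a ∈ Z, a * ((∫ t : ℝ, K a t) / 2 ^ k) := by
    rw [hFint, hFc, integral_finsetSum _ hti]
    refine Finset.sum_congr rfl fun a _ => ?_
    rw [integral_const_mul, integral_div]
  have hsel : ∀ a ∈ Z, (a.im = 0 ∧ ∀ i, (σ a i).im = 0) ↔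
      ∃ T : ℝ, a = (T : ℂ) ∧ (spR x f).eval T = 0 ∧ ∀ i, 0 < (spR x (g i)).eval T := by
    intro a ha
    have har := (hZm a).mp ha
    constructor
    · rintro ⟨h1, h2⟩
      have haT : a = ((a.re : ℝ) : ℂ) := Complex.ext rfl (by simpa using h1)
      refine ⟨a.re, haT, ?_, fun i => ?_⟩
      · have h3 := hrt a har
        rw [haT, spC_eval_real] at h3
        exact_mod_cast h3
      · have h3 := h2 i
        rw [hσ] at h3
        exact (sqr_im x (g i) a h1 (hgne a har i)).mp h3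
    · rintro ⟨T, rfl, h1, h2⟩
      refine ⟨Complex.ofReal_im _, fun i => ?_⟩
      rw [hσ]
      refine (sqr_im x (g i) (T : ℂ) (Complex.ofReal_im _) (hgne _ har i)).mpr ?_
      rw [Complex.ofReal_re]
      exact h2 i
  refine ⟨fun t => (hAB' σ hσ2 t (fun a ha ε => (hfib a ha).1 ε t)).1, ?_, ?_, ?_⟩
  · have := hFr
    rwa [hF] at this
  · intro hno
    have hns : ∀ a ∈ Z, ¬ (a.im = 0 ∧ ∀ i, (σ a i).im = 0) := by
      intro a ha hs
      obtain ⟨T, -, h1, h2⟩ := (hsel a ha).mp hs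
      exact hno T h1 h2
    constructor
    · have h1 : ((∫ t : ℝ, F t : ℝ) : ℂ) = 0 := by
        rw [hFint2]
        refine Finset.sum_eq_zero fun a ha => ?_
        rw [(hKns a ha (hns a ha)).1]
        simp
      have h2 : (∫ t : ℝ, F t) = 0 := by exact_mod_cast h1
      rwa [hF] at h2
    · intro t
      have h1 := hsum Z (Finset.Subset.refl _) hns t
      rw [← hFs t, Complex.norm_real, Real.norm_eq_abs, hF] at h1
      exact h1
  · intro T hT hg hu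
    have hTr : ((T : ℝ) : ℂ) ∈ Z := by
      rw [hZm, mem_roots hf0]
      show (spC x f).eval ((T : ℝ) : ℂ) = 0
      rw [spC_eval_real, hT]
      simp
    have hTs := (hsel _ hTr).mpr ⟨T, rfl, hT, hg⟩
    have hns : ∀ a ∈ Z.erase ((T : ℝ) : ℂ), ¬ (a.im = 0 ∧ ∀ i, (σ a i).im = 0) := by
      intro a ha hs
      obtain ⟨h0, h1⟩ := Finset.mem_erase.mp ha
      obtain ⟨T', h2, h3, h4⟩ := (hsel a h1).mp hs
      apply h0
      rw [h2, hu T' h3 h4]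
    obtain ⟨hKT, hKT2⟩ := hKsel _ hTr hTs
    constructor
    · have h1 : ((∫ t : ℝ, F t : ℝ) : ℂ) = ((Real.pi * T : ℝ) : ℂ) := by
        rw [hFint2, ← Finset.add_sum_erase _ _ hTr, hKT]
        rw [Finset.sum_eq_zero fun a ha => by
          rw [(hKns a (Finset.mem_of_mem_erase ha) (hns a ha)).1]; simp]
        push_cast
        field_simp
        ring
      have h2 : (∫ t : ℝ, F t) = Real.pi * T := by exact_mod_cast h1
      rwa [hF] at h2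
    · intro t
      refine ⟨(K ((T : ℝ) : ℂ) t).re / 2 ^ k, div_nonneg (hKT2 t).2 (by positivity), ?_⟩
      have h1 := hsum (Z.erase ((T : ℝ) : ℂ)) (Finset.erase_subset _ _) hns t
      have h2 : K ((T : ℝ) : ℂ) t = (((K ((T : ℝ) : ℂ) t).re : ℝ) : ℂ) :=
        Complex.ext rfl (by simpa using (hKT2 t).1)
      have h3 : ((F t - (K ((T : ℝ) : ℂ) t).re / 2 ^ k * T : ℝ) : ℂ) =
          ∑ a ∈ Z.erase ((T : ℝ) : ℂ), a * (K a t / 2 ^ k) := by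
        rw [Complex.ofReal_sub, hFs t, ← Finset.add_sum_erase _ _ hTr]
        push_cast
        rw [← h2]
        ring
      rw [← h3, Complex.norm_real, Real.norm_eq_abs, hF] at h1
      exact h1

end Pool.Agent.PWD
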