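import Pool.Agent.PWD.WPI
import Pool.Agent.PWD.FRZ
import Pool.Agent.PWD.MRG
import Pool.Agent.PWD.BDS

/-!
# PWD [SIMP]: positive semialgebraic functions as line integrals of positive rational functions
(helper70)
-/

set_option autoImplicit false

open MeasureTheory Set
open Pool.Agent.PWQ

namespace Pool.Agent.PWD

/-- the inverse of a semialgebraic function -/
theorem SIMP_inv {ι : Type} {A : (ι → ℝ) → ℝ} (hA : SA (graph A)) :
    SA (graph (fun x => (A x)⁻¹)) := by
  have h0 := SA_zero (MvPolynomial.X (Sum.inr ()) : MvPolynomial (Option ι ⊕ Unit) ℚ)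
  have h1 := SA_zero (MvPolynomial.X (Sum.inl none) : MvPolynomial (Option ι ⊕ Unit) ℚ)
  have h2 := SA_eq (MvPolynomial.X (Sum.inl none) * MvPolynomial.X (Sum.inr ()) :
    MvPolynomial (Option ι ⊕ Unit) ℚ) 1
  have h := thm_CMP (ι := Option ι) (κ := Unit) (fun _ z => A (fun i => z (some i)))
    (fun _ => SA_reindex hA (Option.map some)) _
    (SA_or (SA_and (SA_not h0) h2) (SA_and h0 h1))
  refine (congrArg SA ?_).mp h
  ext z
  show (¬ (MvPolynomial.aeval (Sum.elim z fun _ => A fun i => z (some i))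
      (MvPolynomial.X (Sum.inr ()) : MvPolynomial (Option ι ⊕ Unit) ℚ) = 0) ∧
    MvPolynomial.aeval (Sum.elim z fun _ => A fun i => z (some i))
      (MvPolynomial.X (Sum.inl none) * MvPolynomial.X (Sum.inr ()) :
        MvPolynomial (Option ι ⊕ Unit) ℚ) =
    MvPolynomial.aeval (Sum.elim z fun _ => A fun i => z (some i))
      (1 : MvPolynomial (Option ι ⊕ Unit) ℚ)) ∨
    (MvPolynomial.aeval (Sum.elim z fun _ => A fun i => z (some i))
      (MvPolynomial.X (Sum.inr ()) : MvPolynomial (Option ι ⊕ Unit) ℚ) = 0 ∧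
    MvPolynomial.aeval (Sum.elim z fun _ => A fun i => z (some i))
      (MvPolynomial.X (Sum.inl none) : MvPolynomial (Option ι ⊕ Unit) ℚ) = 0) ↔
    z none = (A fun i => z (some i))⁻¹
  rw [map_mul, MvPolynomial.aeval_X, MvPolynomial.aeval_X, map_one]
  simp only [Sum.elim_inl, Sum.elim_inr]
  by_cases hz : (A fun i => z (some i)) = 0
  · rw [hz, inv_zero]
    simp
  · rw [← mul_eq_one_iff_eq_inv₀ hz]
    simp [hz]

/-- the weight is smaller than the Cauchy density -/
theorem SIMP_wgt {n : ℕ} (x : Fin n → ℝ) (t : ℝ) : wgt x t ≤ (1 + t ^ 2)⁻¹ := by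
  unfold wgt
  have h1 : 1 ≤ ∏ i, (1 + x i ^ 2) := by
    have h2 := Finset.prod_le_prod (s := Finset.univ) (f := fun _ : Fin n => (1 : ℝ))
      (g := fun i => 1 + x i ^ 2) (fun _ _ => zero_le_one) (fun i _ => by nlinarith [sq_nonneg (x i)])
    simpa using h2
  rw [one_div]
  refine inv_anti₀ (by positivity) ?_
  nlinarith [sq_nonneg t]

theorem SIMP_castSucc {m : ℕ} (f : MvPolynomial (Fin m) ℚ) (x : Fin m → ℝ) (t : ℝ) :
    MvPolynomial.aeval (Fin.snoc x t : Fin (m + 1) → ℝ) (MvPolynomial.rename Fin.castSucc f) =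
      MvPolynomial.aeval x f := by
  rw [MvPolynomial.aeval_rename]
  congr 1
  congr 1
  funext i
  simp

theorem thm_SIMP : St_SIMP := by
  intro m A hA hpos
  obtain ⟨p, r, hr, hb⟩ := thm_BDS (fun x => (A x)⁻¹) (SIMP_inv hA)
  obtain ⟨g, hg⟩ : ∃ g : MvPolynomial (Fin m) ℚ, g = MvPolynomial.C 2 * (1 + p ^ 2) := ⟨_, rfl⟩
  have hgv : ∀ x : Fin m → ℝ, MvPolynomial.aeval x g = 2 * (1 + MvPolynomial.aeval x p ^ 2) := by
    intro x
    rw [hg, map_mul, map_add, map_one, map_pow, MvPolynomial.aeval_C]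
    simp
  have hg0 : ∀ x : Fin m → ℝ, 0 < MvPolynomial.aeval x g := fun x => by
    rw [hgv]
    positivity
  obtain ⟨A1, hA1⟩ : ∃ A1 : (Fin m → ℝ) → ℝ, A1 = fun x => A x *
      (MvPolynomial.aeval x g / MvPolynomial.aeval x (r ^ 2)) - ((1 : ℚ) : ℝ) := ⟨_, rfl⟩
  have hS : SA (graph A1) := by
    rw [hA1]
    exact thm_DIF _ _ (SA_mul2 hA (SA_graph_div g (r ^ 2))) (SA_graph_rat 1)
  obtain ⟨P, Q, hQ, hPRA⟩ := thm_PRA m A1 (1 / 2) hS (by norm_num)
  -- generic points
  have hgen : ∀ᵐ x : Fin m → ℝ, MvPolynomial.aeval x r ≠ 0 ∧ 0 < A x := by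
    filter_upwards [ae_aeval_ne r hr, hpos] with x h1 h2
    exact ⟨h1, h2⟩
  have hA1v : ∀ x : Fin m → ℝ, A1 x =
      A x * (MvPolynomial.aeval x g / MvPolynomial.aeval x r ^ 2) - 1 := by
    intro x
    rw [hA1]
    simp
  have hA1n : ∀ x : Fin m → ℝ, MvPolynomial.aeval x r ≠ 0 → 0 < A x → 0 ≤ A1 x := by
    intro x h1 h2
    have h3 := hb x h1
    have h4 : 0 < MvPolynomial.aeval x r ^ 2 := by positivity
    rw [abs_of_pos (inv_pos.2 h2), inv_eq_one_div, div_le_div_iff₀ h2 h4, one_mul] at h3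
    rw [hA1v, hgv, sub_nonneg, ← mul_div_assoc, le_div_iff₀ h4, one_mul]
    refine h3.trans ?_
    rw [mul_comm]
    refine mul_le_mul_of_nonneg_left ?_ h2.le
    nlinarith [sq_nonneg (MvPolynomial.aeval x p - 1)]
  -- the polynomials
  obtain ⟨r', hr'⟩ : ∃ r' : MvPolynomial (Fin (m + 1)) ℚ,
      r' = MvPolynomial.rename Fin.castSucc r := ⟨_, rfl⟩
  obtain ⟨g', hg'⟩ : ∃ g' : MvPolynomial (Fin (m + 1)) ℚ,
      g' = MvPolynomial.rename Fin.castSucc g := ⟨_, rfl⟩
  obtain ⟨d, hd⟩ : ∃ d : MvPolynomial (Fin (m + 1)) ℚ,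
      d = 1 + MvPolynomial.X (Fin.last m) ^ 2 := ⟨_, rfl⟩
  have hdv : ∀ y : Fin (m + 1) → ℝ, MvPolynomial.aeval y d = 1 + y (Fin.last m) ^ 2 := by
    intro y
    rw [hd, map_add, map_one, map_pow, MvPolynomial.aeval_X]
  have hd0 : ∀ y : Fin (m + 1) → ℝ, 0 < MvPolynomial.aeval y d := fun y => by
    rw [hdv]
    positivity
  have hg'0 : ∀ y : Fin (m + 1) → ℝ, 0 < MvPolynomial.aeval y g' := fun y => by
    rw [hg', MvPolynomial.aeval_rename]
    exact hg0 _
  obtain ⟨PF, hPF⟩ : ∃ PF, PF = r' ^ 4 * (P * d + Q) := ⟨_, rfl⟩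
  obtain ⟨QF, hQF⟩ : ∃ QF, QF = r' ^ 2 * g' * Q * d := ⟨_, rfl⟩
  have hPFv : ∀ y : Fin (m + 1) → ℝ, MvPolynomial.aeval y PF = MvPolynomial.aeval y r' ^ 4 *
      (MvPolynomial.aeval y P * MvPolynomial.aeval y d + MvPolynomial.aeval y Q) := by
    intro y
    rw [hPF, map_mul, map_pow, map_add, map_mul]
  have hQFv : ∀ y : Fin (m + 1) → ℝ, MvPolynomial.aeval y QF = MvPolynomial.aeval y r' ^ 2 *
      MvPolynomial.aeval y g' * MvPolynomial.aeval y Q * MvPolynomial.aeval y d := by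
    intro y
    rw [hQF, map_mul, map_mul, map_mul, map_pow]
  have hr'0 : r' ≠ 0 := by
    rw [hr']
    intro h
    exact hr (MvPolynomial.rename_injective _ (Fin.castSucc_injective m) (by rw [h, map_zero]))
  have hne : ∀ q : MvPolynomial (Fin (m + 1)) ℚ,
      (∀ y : Fin (m + 1) → ℝ, 0 < MvPolynomial.aeval y q) → q ≠ 0 := by
    intro q hq h
    have := hq 0
    rw [h, map_zero] at this
    exact lt_irrefl _ this
  refine ⟨PF, QF, ?_, ?_, ?_⟩
  · rw [hQF]
    exact mul_ne_zero (mul_ne_zero (mul_ne_zero (pow_ne_zero 2 hr'0) (hne g' hg'0)) hQ) (hne d hd0)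
  · -- positivity
    have hH : ∀ᵐ y : Fin (m + 1) → ℝ, 0 ≤ MvPolynomial.aeval y
        ((P * d + Q) * Q - MvPolynomial.C (1 / 2) * Q ^ 2) := by
      refine ae_of_snoc m _ ?_
      filter_upwards [hPRA, hgen] with x hx hxg t
      obtain ⟨hx1, -, -, hx4⟩ := hx
      obtain ⟨c, hc, h2⟩ := hx4 t
      have h3 := hx1 t
      have h4 := SIMP_wgt x t
      obtain ⟨y, hy⟩ : ∃ y : Fin (m + 1) → ℝ, y = Fin.snoc x t := ⟨_, rfl⟩
      have hdy : MvPolynomial.aeval y d = 1 + t ^ 2 := by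
        rw [hdv, hy, Fin.snoc_last]
      rw [← hy] at h2 h3 ⊢
      rw [map_sub, map_mul, map_mul, map_add, map_mul, map_pow, MvPolynomial.aeval_C, eq_ratCast,
        hdy]
      have h5 : 0 ≤ c * A1 x := mul_nonneg hc (hA1n x hxg.1 hxg.2)
      have h6 := (abs_le.1 h2).1
      have h7 : MvPolynomial.aeval y P = rat P Q y * MvPolynomial.aeval y Q := by
        unfold rat
        field_simp
      have h8 : -(1 / 2 : ℝ) ≤ rat P Q y * (1 + t ^ 2) := by
        have h9 : -(1 / 2 * (1 + t ^ 2)⁻¹) ≤ rat P Q y := by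
          push_cast at h6
          linarith
        have h10 := mul_le_mul_of_nonneg_right h9 (by positivity : (0 : ℝ) ≤ 1 + t ^ 2)
        have h11 : -(1 / 2 * (1 + t ^ 2)⁻¹) * (1 + t ^ 2) = -(1 / 2 : ℝ) := by
          field_simp
        rwa [h11] at h10
      rw [h7]
      push_cast
      nlinarith [mul_nonneg (by linarith : 0 ≤ rat P Q y * (1 + t ^ 2) + 1 / 2)
        (sq_nonneg (MvPolynomial.aeval y Q))]
    have hopen : IsOpen {y : Fin (m + 1) → ℝ | MvPolynomial.aeval y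
        ((P * d + Q) * Q - MvPolynomial.C (1 / 2) * Q ^ 2) < 0} :=
      isOpen_lt (continuous_aeval' _) continuous_const
    have hnull : volume {y : Fin (m + 1) → ℝ | MvPolynomial.aeval y
        ((P * d + Q) * Q - MvPolynomial.C (1 / 2) * Q ^ 2) < 0} = 0 := by
      rw [ae_iff] at hH
      simpa only [not_le] using hH
    have hempty := (hopen.measure_eq_zero_iff volume).1 hnull
    intro y hy
    rw [hQFv] at hy
    have hQy : MvPolynomial.aeval y Q ≠ 0 := by
      intro h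
      rw [h, mul_zero, zero_mul] at hy
      exact hy rfl
    have hry : MvPolynomial.aeval y r' ≠ 0 := by
      intro h
      rw [h] at hy
      simp at hy
    have hHy : 0 ≤ MvPolynomial.aeval y ((P * d + Q) * Q - MvPolynomial.C (1 / 2) * Q ^ 2) := by
      by_contra h
      have : y ∈ {y : Fin (m + 1) → ℝ | MvPolynomial.aeval y
        ((P * d + Q) * Q - MvPolynomial.C (1 / 2) * Q ^ 2) < 0} := not_le.1 h
      rw [hempty] at this
      exact this
    rw [map_sub, map_mul, map_mul, map_add, map_mul, map_pow, MvPolynomial.aeval_C,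
      eq_ratCast] at hHy
    have hQ2 : 0 < MvPolynomial.aeval y Q ^ 2 := by positivity
    have h11 : 0 < (MvPolynomial.aeval y P * MvPolynomial.aeval y d + MvPolynomial.aeval y Q) *
        MvPolynomial.aeval y Q := by
      push_cast at hHy
      nlinarith
    have hD := hd0 y
    have hG := hg'0 y
    have h12 : rat PF QF y = MvPolynomial.aeval y r' ^ 2 *
        ((MvPolynomial.aeval y P * MvPolynomial.aeval y d + MvPolynomial.aeval y Q) *
        MvPolynomial.aeval y Q) /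
        (MvPolynomial.aeval y Q ^ 2 * MvPolynomial.aeval y g' * MvPolynomial.aeval y d) := by
      unfold rat
      rw [hPFv, hQFv]
      field_simp
    rw [h12]
    positivity
  · filter_upwards [hPRA, hgen] with x hx hxg
    obtain ⟨hx1, hx2, hx3, -⟩ := hx
    have hrx := hxg.1
    have hgx := hg0 x
    have hE : (fun t : ℝ => rat PF QF (Fin.snoc x t : Fin (m + 1) → ℝ)) = fun t =>
        MvPolynomial.aeval x r ^ 2 / MvPolynomial.aeval x g *
          (rat P Q (Fin.snoc x t : Fin (m + 1) → ℝ) + (1 + t ^ 2)⁻¹) := by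
      funext t
      have h1 := hx1 t
      have h2 : (0 : ℝ) < 1 + t ^ 2 := by positivity
      unfold rat
      rw [hPFv, hQFv, hr', hg', SIMP_castSucc, SIMP_castSucc, hdv, Fin.snoc_last]
      field_simp
    rw [hE]
    refine ⟨(hx2.add integrable_inv_one_add_sq).const_mul _, ?_⟩
    rw [integral_const_mul, integral_add hx2 integrable_inv_one_add_sq, hx3,
      integral_univ_inv_one_add_sq, hA1v]
    field_simp
    ring

end Pool.Agent.PWD
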