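import Mathlib

/-!
# Periods without domains: statements, block A (the square-root trick)

Every `def St_X : Prop` is a module `PWD/X.lean` with `theorem thm_X (h : St_Y) .. : St_X`.
-/

set_option autoImplicit false

open MeasureTheory

namespace Pool.Agent.PWD

/-- The kernel `2 G³ / ((t - θ)² + G²)²`. -/
noncomputable def ker (G : ℝ) (θ : ℂ) (t : ℝ) : ℂ :=
  2 * (G : ℂ) ^ 3 / (((t : ℂ) - θ) ^ 2 + (G : ℂ) ^ 2) ^ 2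

/-- The value of the rational function `P / Q`. -/
noncomputable def rat {ι : Type} (P Q : MvPolynomial ι ℚ) (y : ι → ℝ) : ℝ :=
  MvPolynomial.aeval y P / MvPolynomial.aeval y Q

/-- The basic open set `{y | ∀ i, 0 < g i y}`. -/
def U {ι κ : Type} (g : κ → MvPolynomial ι ℚ) : Set (ι → ℝ) :=
  {y | ∀ i, 0 < MvPolynomial.aeval y (g i)}

/-- `KRN`.  The line integral of the kernel: `π` for a real centre, `0` if both poles are on the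
same side of the real axis. -/
def St_KRN : Prop :=
  ∀ (G : ℝ) (θ : ℂ), 0 < G →
    (θ.im = 0 → Integrable (ker G θ) ∧ (∫ t : ℝ, ker G θ t) = Real.pi ∧
      ∀ t : ℝ, ((t : ℂ) - θ) ^ 2 + (G : ℂ) ^ 2 ≠ 0 ∧ (ker G θ t).im = 0 ∧ 0 ≤ (ker G θ t).re) ∧
    (G < |θ.im| → Integrable (ker G θ) ∧ (∫ t : ℝ, ker G θ t) = 0 ∧
      ∀ t : ℝ, ((t : ℂ) - θ) ^ 2 + (G : ℂ) ^ 2 ≠ 0 ∧
        ‖ker G θ t‖ ≤ 2 * G ^ 3 / ((t - θ.re) ^ 2 + (|θ.im| - G) ^ 2) ^ 2)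

/-- The signed sum `∑ ± s i`. -/
def sgn {L : Type} [Field L] {k : ℕ} (ε : Fin k → Bool) (s : Fin k → L) : L :=
  ∑ i, (if ε i then s i else - s i)

/-- `AVG`.  Sums over all signs of square roots are rational. -/
def St_AVG : Prop :=
  ∀ (S : Type) [CommRing S] (k : ℕ) (u : Fin k → S) (A₀ B₀ : Polynomial S),
    ∃ A B : Polynomial S,
      ∀ (L : Type) [Field L] (φ : S →+* L) (s : Fin k → L) (τ : L), (∀ i, s i ^ 2 = φ (u i)) →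
        B.eval₂ φ τ = ∏ ε : Fin k → Bool, B₀.eval₂ φ (τ - sgn ε s) ∧
        (B.eval₂ φ τ ≠ 0 →
          A.eval₂ φ τ / B.eval₂ φ τ =
            ∑ ε : Fin k → Bool, A₀.eval₂ φ (τ - sgn ε s) / B₀.eval₂ φ (τ - sgn ε s))

/-- `POL`.  The multipliers of the square roots. -/
def St_POL : Prop :=
  ∀ (S : Type) [CommRing S] (k : ℕ) (r K : Fin k → S),
    ∃ (L : Fin k → S) (M : Fin (k + 1) → S),
      M (Fin.last k) = ∏ i, r i ^ 2 ∧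
      (∀ i, L i * r i ^ 2 = (1 + r i ^ 2) * K i * M i.succ) ∧
      (∀ i, M i.castSucc = M i.succ + L i * K i)

/-- `PTW`.  The pointwise bound of the scaled kernel off the selected set. -/
def St_PTW : Prop :=
  ∀ (G S m q t : ℝ) (θ : ℂ), 0 < G → 0 < m → G + m ≤ |θ.im| → 2 * |θ.re| ≤ S →
    2 * m ^ 2 ≤ S ^ 2 → 1 ≤ q →
    ‖(S : ℂ) * ker G θ (S * t)‖ ≤ 8 * G ^ 3 * S * q ^ 2 / m ^ 4 / (t ^ 2 + q) ^ 2

/-- The centre `l a - ∑ ± L i σ i`. -/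
noncomputable def cen {k : ℕ} (l : ℝ) (L : Fin k → ℝ) (a : ℂ) (σ : Fin k → ℂ)
    (ε : Fin k → Bool) : ℂ :=
  (l : ℂ) * a + sgn ε (fun i => (L i : ℂ) * σ i)

/-- `BND`.  The imaginary part of the centre. -/
def St_BND : Prop :=
  ∀ (k : ℕ) (a : ℂ) (σ : Fin k → ℂ) (l : ℝ) (L : Fin k → ℝ) (M : Fin (k + 1) → ℝ),
    0 ≤ l → (∀ i, 0 ≤ L i) →
    (∀ i, M i.succ ≤ L i * ‖σ i‖) → (∀ i, M i.succ + L i * ‖σ i‖ ≤ M i.castSucc) →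
    (a.im ≠ 0 → M 0 ≤ l * |a.im|) →
    (a.im = 0 → ∀ i, (σ i).re = 0 ∨ (σ i).im = 0) →
    (a.im ≠ 0 ∨ ∃ i, (σ i).im ≠ 0) →
    ∀ ε : Fin k → Bool, M (Fin.last k) ≤ |(cen l L a σ ε).im|

/-- `FIB`.  One root `a` of the base polynomial, all signs of the square roots. -/
def St_FIB : Prop :=
  ∀ (k : ℕ) (a : ℂ) (σ : Fin k → ℂ) (l : ℝ) (L : Fin k → ℝ) (M : Fin (k + 1) → ℝ)
    (G S m q : ℝ),
    0 ≤ l → (∀ i, 0 ≤ L i) →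
    (∀ i, M i.succ ≤ L i * ‖σ i‖) → (∀ i, M i.succ + L i * ‖σ i‖ ≤ M i.castSucc) →
    (a.im ≠ 0 → M 0 ≤ l * |a.im|) →
    (a.im = 0 → ∀ i, (σ i).re = 0 ∨ (σ i).im = 0) →
    0 < G → 0 < m → 1 ≤ q → G + m ≤ M (Fin.last k) →
    2 * (l * ‖a‖ + ∑ i, L i * ‖σ i‖) ≤ S → 2 * m ^ 2 ≤ S ^ 2 →
    (∀ (ε : Fin k → Bool) (t : ℝ),
      (((S * t : ℝ) : ℂ) - cen l L a σ ε) ^ 2 + (G : ℂ) ^ 2 ≠ 0) ∧
    Integrable (fun t : ℝ => ∑ ε : Fin k → Bool, (S : ℂ) * ker G (cen l L a σ ε) (S * t)) ∧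
    ((a.im = 0 ∧ ∀ i, (σ i).im = 0) →
      (∫ t : ℝ, ∑ ε : Fin k → Bool, (S : ℂ) * ker G (cen l L a σ ε) (S * t)) =
        2 ^ k * Real.pi ∧
      ∀ t : ℝ, (∑ ε : Fin k → Bool, (S : ℂ) * ker G (cen l L a σ ε) (S * t)).im = 0 ∧
        0 ≤ (∑ ε : Fin k → Bool, (S : ℂ) * ker G (cen l L a σ ε) (S * t)).re) ∧
    (¬ (a.im = 0 ∧ ∀ i, (σ i).im = 0) →
      (∫ t : ℝ, ∑ ε : Fin k → Bool, (S : ℂ) * ker G (cen l L a σ ε) (S * t)) = 0 ∧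
      ∀ t : ℝ, ‖∑ ε : Fin k → Bool, (S : ℂ) * ker G (cen l L a σ ε) (S * t)‖ ≤
        2 ^ k * (8 * G ^ 3 * S * q ^ 2 / m ^ 4 / (t ^ 2 + q) ^ 2))

/-- The weight `1 / (t² + ∏ (1 + xᵢ²))²`; its integral over `ℝⁿ⁺¹` is `2ⁿ⁻¹ π`. -/
noncomputable def wgt {n : ℕ} (x : Fin n → ℝ) (t : ℝ) : ℝ :=
  1 / (t ^ 2 + ∏ i, (1 + x i ^ 2)) ^ 2

/-- `WGT`.  The weight is integrable with integral `2ⁿ⁻¹ π`. -/
def St_WGT : Prop :=
  ∀ n : ℕ, Integrable (fun y : Fin (n + 1) → ℝ => wgt (Fin.init y) (y (Fin.last n))) ∧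
    (∫ y : Fin (n + 1) → ℝ, wgt (Fin.init y) (y (Fin.last n))) = 2 ^ n * Real.pi / 2

/-- `BAS`.  The square-root trick: the integral of a rational function over a basic open set of
`ℝⁿ`, times `π`, is the integral of a rational function over all of `ℝⁿ⁺¹`, line by line, with
an arbitrarily small absolute value off the basic open set. -/
def St_BAS : Prop :=
  ∀ (n k : ℕ) (g : Fin k → MvPolynomial (Fin n) ℚ) (P Q : MvPolynomial (Fin n) ℚ) (e : ℚ),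
    0 < e → Q ≠ 0 → (∀ i, g i ≠ 0) →
    ∃ A B : MvPolynomial (Fin (n + 1)) ℚ, B ≠ 0 ∧
      (∀ᵐ x : Fin n → ℝ, Integrable (fun t : ℝ => rat A B (Fin.snoc x t : Fin (n + 1) → ℝ)) ∧
        (x ∈ U g → (∫ t : ℝ, rat A B (Fin.snoc x t : Fin (n + 1) → ℝ)) = Real.pi * rat P Q x ∧
          ∀ t : ℝ, ∃ c : ℝ, 0 ≤ c ∧ rat A B (Fin.snoc x t : Fin (n + 1) → ℝ) = c * rat P Q x) ∧
        (x ∉ U g → (∫ t : ℝ, rat A B (Fin.snoc x t : Fin (n + 1) → ℝ)) = 0 ∧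
          ∀ t : ℝ, |rat A B (Fin.snoc x t : Fin (n + 1) → ℝ)| ≤ e * wgt x t))

end Pool.Agent.PWD
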