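import Pool.Agent.PWD.Defs

/-!
# Semialgebraic functions: pieces and bounds (statements)
-/

set_option autoImplicit false

open Polynomial

namespace Pool.Agent.PWD

/-- `f(x, ·)` as a real polynomial -/
noncomputable def spR {ι : Type} (x : ι → ℝ) (f : Polynomial (MvPolynomial ι ℚ)) : ℝ[X] :=
  f.map (MvPolynomial.aeval x).toRingHom

/-- `f(x, ·)` as a complex polynomial -/
noncomputable def spC {ι : Type} (x : ι → ℝ) (f : Polynomial (MvPolynomial ι ℚ)) : ℂ[X] :=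
  f.map ((algebraMap ℝ ℂ).comp (MvPolynomial.aeval x).toRingHom)

/-- The pieces of a semialgebraic function. -/
def St_PIE : Prop := ∀ {ι : Type} [Fintype ι] (A : (ι → ℝ) → ℝ), SA (graph A) →
  ∃ (J I : Type) (_ : Fintype J) (_ : Fintype I)
    (f : J → Polynomial (MvPolynomial ι ℚ)) (g : J → I → Polynomial (MvPolynomial ι ℚ))
    (r : MvPolynomial ι ℚ), r ≠ 0 ∧ (∀ j, 1 ≤ (f j).natDegree) ∧
      ∀ x : ι → ℝ, MvPolynomial.aeval x r ≠ 0 →
        (∀ j, MvPolynomial.aeval x (f j).leadingCoeff ≠ 0) ∧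
        (∀ j, (spC x (f j)).roots.Nodup) ∧
        (∀ j i (a : ℂ), (spC x (f j)).eval a = 0 → (spC x (g j i)).eval a ≠ 0) ∧
        (∀ j (T : ℝ), (spR x (f j)).eval T = 0 → (∀ i, 0 < (spR x (g j i)).eval T) → T = A x) ∧
        ∃! j, (spR x (f j)).eval (A x) = 0 ∧ ∀ i, 0 < (spR x (g j i)).eval (A x)

/-- A semialgebraic function is generically bounded by a rational function. -/
def St_BDS : Prop := ∀ {ι : Type} [Fintype ι] (A : (ι → ℝ) → ℝ), SA (graph A) →
  ∃ p r : MvPolynomial ι ℚ, r ≠ 0 ∧ ∀ x : ι → ℝ, MvPolynomial.aeval x r ≠ 0 →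
    |A x| ≤ MvPolynomial.aeval x p / MvPolynomial.aeval x r ^ 2

end Pool.Agent.PWD
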