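import Pool.Agent.PWD.Defs

/-!
# Volumes and semialgebraic functions (statements)
-/

set_option autoImplicit false

open MeasureTheory

namespace Pool.Agent.PWD

/-- Semialgebraic sets are measurable. -/
def St_MSS : Prop := ∀ {ι : Type} [Fintype ι] (S : Set (ι → ℝ)), SA S → MeasurableSet S

/-- Semialgebraic functions are measurable. -/
def St_MSF : Prop := ∀ {ι : Type} [Fintype ι] (A : (ι → ℝ) → ℝ), SA (graph A) → Measurable A

/-- A semialgebraic set of positive measure contains a box with rational vertices. -/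
def St_BOX : Prop := ∀ {ι : Type} [Fintype ι] (S : Set (ι → ℝ)), SA S → volume S ≠ 0 →
  ∃ a b : ι → ℚ, (∀ i, a i < b i) ∧ {x : ι → ℝ | ∀ i, (a i : ℝ) < x i ∧ x i < b i} ⊆ S

/-- Substitution of semialgebraic functions. -/
def St_CMP : Prop := ∀ {ι κ : Type} [Finite κ] (B : κ → (ι → ℝ) → ℝ), (∀ k, SA (graph (B k))) →
  ∀ S : Set (ι ⊕ κ → ℝ), SA S → SA {x : ι → ℝ | Sum.elim x (fun k => B k x) ∈ S}

/-- Differences of semialgebraic functions. -/
def St_DIF : Prop := ∀ {ι : Type} (A B : (ι → ℝ) → ℝ), SA (graph A) → SA (graph B) →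
  SA (graph (fun x => A x - B x))

/-- Functions defined by cases. -/
def St_CAS : Prop := ∀ {ι : Type} (A B : (ι → ℝ) → ℝ) (S : Set (ι → ℝ)) [DecidablePred (· ∈ S)],
  SA (graph A) → SA (graph B) → SA S → SA (graph (fun x => if x ∈ S then A x else B x))

/-- The region under the graph. -/
def St_SBG : Prop := ∀ (m : ℕ) (A : (Fin m → ℝ) → ℝ), SA (graph A) →
  SA {z : Fin (m + 1) → ℝ | 0 < z (Fin.last m) ∧ z (Fin.last m) < A (Fin.init z)} ∧
    volume {z : Fin (m + 1) → ℝ | 0 < z (Fin.last m) ∧ z (Fin.last m) < A (Fin.init z)} =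
      ∫⁻ x : Fin m → ℝ, ENNReal.ofReal (A x)

/-- The length of the fibres of a semialgebraic set of finite volume. -/
def St_LEN : Prop := ∀ (m : ℕ) (U : Set (Fin (m + 1) → ℝ)), SA U → volume U ≠ ⊤ →
  ∃ l : (Fin m → ℝ) → ℝ, SA (graph l) ∧ (∀ x, 0 ≤ l x) ∧ Integrable l ∧
    (∫ x, l x) = (volume U).toReal

end Pool.Agent.PWD
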