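import Pool.Agent.PWD.StS

/-!
# Periods without domains: positive rational functions and marginals (statements)
-/

set_option autoImplicit false

open MeasureTheory

namespace Pool.Agent.PWD

/-- `SIMP`.  A semialgebraic function which is positive almost everywhere is almost everywhere `1/π`
times the line integral of a positive rational function. -/
def St_SIMP : Prop :=
  ∀ (m : ℕ) (A : (Fin m → ℝ) → ℝ), SA (graph A) → (∀ᵐ x : Fin m → ℝ, 0 < A x) →
    ∃ P Q : MvPolynomial (Fin (m + 1)) ℚ, Q ≠ 0 ∧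
      (∀ z : Fin (m + 1) → ℝ, MvPolynomial.aeval z Q ≠ 0 → 0 < rat P Q z) ∧
      ∀ᵐ x : Fin m → ℝ, Integrable (fun t : ℝ => rat P Q (Fin.snoc x t : Fin (m + 1) → ℝ)) ∧
        (∫ t : ℝ, rat P Q (Fin.snoc x t : Fin (m + 1) → ℝ)) = Real.pi * A x

/-- `MRG`.  If `ℝⁿ` carries a rational probability density then every integrable semialgebraic function
on `ℝᵐ` which is positive almost everywhere is a marginal of a positive rational function on `ℝᵐ⁺ⁿ`. -/
def St_MRG : Prop :=
  ∀ n : ℕ, 1 ≤ n → Wp n 1 → ∀ (m : ℕ) (f : (Fin m → ℝ) → ℝ), SA (graph f) →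
    (∀ᵐ x : Fin m → ℝ, 0 < f x) → Integrable f →
    ∃ P Q : MvPolynomial (Fin (m + n)) ℚ, Q ≠ 0 ∧
      (∀ z : Fin (m + n) → ℝ, MvPolynomial.aeval z Q ≠ 0 → 0 < rat P Q z) ∧
      Integrable (fun z : Fin (m + n) → ℝ => rat P Q z) ∧
      ∀ᵐ x : Fin m → ℝ, Integrable (fun z : Fin n → ℝ => rat P Q (Fin.append x z)) ∧
        f x = ∫ z : Fin n → ℝ, rat P Q (Fin.append x z)

end Pool.Agent.PWD
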