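import Pool.Agent.PWD.St
import Pool.Agent.PWD.StC

/-!
# Periods without domains: statements, block R (the full square-root trick with roots)
-/

set_option autoImplicit false

open MeasureTheory

namespace Pool.Agent.PWD

/-- `RBD`.  Rational bounds for the roots of `f j (x, ·)`, their imaginary parts and the values of
`g j i` at them. -/
def St_RBD : Prop :=
  ∀ (ι J I : Type) [Fintype ι] [Fintype J] [Fintype I]
    (f : J → Polynomial (MvPolynomial ι ℚ)) (g : J → I → Polynomial (MvPolynomial ι ℚ))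
    (r : MvPolynomial ι ℚ), r ≠ 0 →
    (∀ x : ι → ℝ, MvPolynomial.aeval x r ≠ 0 →
        (∀ j, MvPolynomial.aeval x (f j).leadingCoeff ≠ 0) ∧
        (∀ j, (spC x (f j)).roots.Nodup) ∧
        (∀ j i (a : ℂ), (spC x (f j)).eval a = 0 → (spC x (g j i)).eval a ≠ 0)) →
    ∃ d P : MvPolynomial ι ℚ, d ≠ 0 ∧ ∀ x : ι → ℝ, MvPolynomial.aeval x d ≠ 0 →
      MvPolynomial.aeval x r ≠ 0 ∧ 1 ≤ MvPolynomial.aeval x P ∧
      MvPolynomial.aeval x d ^ 2 ≤ MvPolynomial.aeval x P ∧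
      ∀ (j : J) (a : ℂ), (spC x (f j)).eval a = 0 →
        ‖a‖ * MvPolynomial.aeval x d ^ 2 ≤ MvPolynomial.aeval x P ∧
        (a.im ≠ 0 → MvPolynomial.aeval x d ^ 2 ≤ MvPolynomial.aeval x P * |a.im|) ∧
        ∀ i, MvPolynomial.aeval x d ^ 2 ≤
            MvPolynomial.aeval x P * ‖(spC x (g j i)).eval a‖ ∧
          ‖(spC x (g j i)).eval a‖ * MvPolynomial.aeval x d ^ 2 ≤ MvPolynomial.aeval x P

/-- `SGL`.  One `f`, one family `g`: the sum over the real roots `a` of `f (x, ·)` at which all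
`g i (x, ·)` are positive is a line integral of a rational function. -/
def St_SGL : Prop :=
  ∀ (n k : ℕ) (f : Polynomial (MvPolynomial (Fin n) ℚ))
    (g : Fin k → Polynomial (MvPolynomial (Fin n) ℚ))
    (d P : MvPolynomial (Fin n) ℚ) (e : ℚ), 0 < e → d ≠ 0 →
    (∀ x : Fin n → ℝ, MvPolynomial.aeval x d ≠ 0 →
      MvPolynomial.aeval x f.leadingCoeff ≠ 0 ∧ (spC x f).roots.Nodup ∧
      1 ≤ MvPolynomial.aeval x P ∧ MvPolynomial.aeval x d ^ 2 ≤ MvPolynomial.aeval x P ∧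
      ∀ a : ℂ, (spC x f).eval a = 0 →
        ‖a‖ * MvPolynomial.aeval x d ^ 2 ≤ MvPolynomial.aeval x P ∧
        (a.im ≠ 0 → MvPolynomial.aeval x d ^ 2 ≤ MvPolynomial.aeval x P * |a.im|) ∧
        ∀ i, MvPolynomial.aeval x d ^ 2 ≤
            MvPolynomial.aeval x P * ‖(spC x (g i)).eval a‖ ∧
          ‖(spC x (g i)).eval a‖ * MvPolynomial.aeval x d ^ 2 ≤ MvPolynomial.aeval x P) →
    ∃ A B : MvPolynomial (Fin (n + 1)) ℚ,
      ∀ x : Fin n → ℝ, MvPolynomial.aeval x d ≠ 0 →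
        (∀ t : ℝ, MvPolynomial.aeval (Fin.snoc x t : Fin (n + 1) → ℝ) B ≠ 0) ∧
        Integrable (fun t : ℝ => rat A B (Fin.snoc x t : Fin (n + 1) → ℝ)) ∧
        ((∀ T : ℝ, (spR x f).eval T = 0 → ¬ ∀ i, 0 < (spR x (g i)).eval T) →
          (∫ t : ℝ, rat A B (Fin.snoc x t : Fin (n + 1) → ℝ)) = 0 ∧
          ∀ t : ℝ, |rat A B (Fin.snoc x t : Fin (n + 1) → ℝ)| ≤ e * wgt x t) ∧
        ∀ T : ℝ, (spR x f).eval T = 0 → (∀ i, 0 < (spR x (g i)).eval T) →
          (∀ T' : ℝ, (spR x f).eval T' = 0 → (∀ i, 0 < (spR x (g i)).eval T') → T' = T) →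
          (∫ t : ℝ, rat A B (Fin.snoc x t : Fin (n + 1) → ℝ)) = Real.pi * T ∧
          ∀ t : ℝ, ∃ c : ℝ, 0 ≤ c ∧
            |rat A B (Fin.snoc x t : Fin (n + 1) → ℝ) - c * T| ≤ e * wgt x t

/-- `PRA`.  Every semialgebraic function is, generically, `1/π` times the line integral of a
rational function with rational coefficients, which is a nonnegative multiple of the function up
to an arbitrarily small multiple of the weight. -/
def St_PRA : Prop :=
  ∀ (n : ℕ) (A : (Fin n → ℝ) → ℝ) (e : ℚ), SA (graph A) → 0 < e →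
    ∃ P Q : MvPolynomial (Fin (n + 1)) ℚ, Q ≠ 0 ∧
      ∀ᵐ x : Fin n → ℝ,
        (∀ t : ℝ, MvPolynomial.aeval (Fin.snoc x t : Fin (n + 1) → ℝ) Q ≠ 0) ∧
        Integrable (fun t : ℝ => rat P Q (Fin.snoc x t : Fin (n + 1) → ℝ)) ∧
        (∫ t : ℝ, rat P Q (Fin.snoc x t : Fin (n + 1) → ℝ)) = Real.pi * A x ∧
        ∀ t : ℝ, ∃ c : ℝ, 0 ≤ c ∧
          |rat P Q (Fin.snoc x t : Fin (n + 1) → ℝ) - c * A x| ≤ e * wgt x t

end Pool.Agent.PWD
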