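import Pool.Agent.PWD.StR
import Pool.Agent.PWD.DefF

/-!
# Periods without domains: semialgebraic functions as line integrals (statement)
-/

set_option autoImplicit false

open MeasureTheory

namespace Pool.Agent.PWD

/-- `SIM`.  Part (5), `⇒`: a function which is a.e. equal to a semialgebraic function is a.e.
`1/π` times the line integral of a rational function `R` over `ℚ`, and `R` is integrable over the
whole space if the function is. -/
def St_SIM : Prop :=
  ∀ (m : ℕ) (A : (Fin m → ℝ) → ℝ),
    (∃ A' : (Fin m → ℝ) → ℝ, SA (graph A') ∧ A =ᵐ[volume] A') →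
    ∃ P Q : MvPolynomial (Fin (m + 1)) ℚ, Q ≠ 0 ∧
      (∀ᵐ x : Fin m → ℝ, Integrable (fun t : ℝ => rat P Q (Fin.snoc x t : Fin (m + 1) → ℝ)) ∧
        (∫ t : ℝ, rat P Q (Fin.snoc x t : Fin (m + 1) → ℝ)) = Real.pi * A x) ∧
      (Integrable A → Integrable (fun y : Fin (m + 1) → ℝ => rat P Q y))

end Pool.Agent.PWD
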