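import Pool.Agent.PWD.DefF

/-!
# Nonnegative differences of volumes are volumes: statements

Every `def St_X : Prop` is a module `PWD/X.lean` with `theorem thm_X (h : St_Y) .. : St_X`.
-/

set_option autoImplicit false

open MeasureTheory Filter Topology

namespace Pool.Agent.PWD

/-- `VSA`.  A rational number can be subtracted from a larger volume. -/
def St_VSA : Prop := ∀ (n : ℕ) (v : ℝ) (C : ℚ), 1 ≤ n → V n v → (C : ℝ) < v → V n (v - C)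

/-- `VSR`.  A function of one variable whose germs on the left and on the right are of constant
type is monotone. -/
def St_VSR : Prop := ∀ (f : ℝ → ℝ) (a b : ℝ),
  ((∀ y ∈ Set.Ioo a b, ∃ c > y, ∀ t ∈ Set.Ioo y c, f y < f t) ∨
    (∀ y ∈ Set.Ioo a b, ∃ c > y, ∀ t ∈ Set.Ioo y c, f t < f y) ∨
    (∀ y ∈ Set.Ioo a b, ∃ c > y, ∀ t ∈ Set.Ioo y c, f t = f y)) →
  ((∀ y ∈ Set.Ioo a b, ∃ c < y, ∀ t ∈ Set.Ioo c y, f y < f t) ∨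
    (∀ y ∈ Set.Ioo a b, ∃ c < y, ∀ t ∈ Set.Ioo c y, f t < f y) ∨
    (∀ y ∈ Set.Ioo a b, ∃ c < y, ∀ t ∈ Set.Ioo c y, f t = f y)) →
  MonotoneOn f (Set.Ioo a b) ∨ AntitoneOn f (Set.Ioo a b)

/-- `VSG`.  Growth at `0` of a function which satisfies a polynomial relation: the two largest
terms of the relation are of the same size. -/
def St_VSG : Prop := ∀ (d D : ℕ) (p : ℕ → Polynomial ℝ) (g : ℝ → ℝ),
  (∃ i ≤ d, p i ≠ 0) → (∀ i, (p i).natDegree ≤ D) →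
  (∀ᶠ w in 𝓝[>] (0 : ℝ), 0 ≤ g w ∧ ∑ i ∈ Finset.range (d + 1), (p i).eval w * g w ^ i = 0) →
  ∃ c C : ℝ, 0 < c ∧ 0 < C ∧ ∀ᶠ w in 𝓝[>] (0 : ℝ), g w = 0 ∨
    ∃ k a b : ℕ, 1 ≤ k ∧ k ≤ d ∧ a ≤ D ∧ b ≤ D ∧
      c * w ^ a ≤ g w ^ k * w ^ b ∧ g w ^ k * w ^ b ≤ C * w ^ a

/-- `VSO`.  The one-variable bound. -/
def St_VSO : Prop := ∀ (d D : ℕ) (p r : ℕ → Polynomial ℝ) (A R : ℝ → ℝ) (Z : Finset ℝ),
  1 ≤ d → (∃ i ≤ d, p i ≠ 0) → (∃ i ≤ d, r i ≠ 0) →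
  (∀ i, (p i).natDegree ≤ D) → (∀ i, (r i).natDegree ≤ D) →
  (∀ y, ∑ i ∈ Finset.range (d + 1), (p i).eval y * A y ^ i = 0) →
  (∀ y, ∑ i ∈ Finset.range (d + 1), (r i).eval y * R y ^ i = 0) →
  (∀ y, 0 ≤ A y) → (∀ y, 1 ≤ R y) → Integrable A → Z.Nonempty →
  (∀ a b : ℝ, (∀ z ∈ Z, z ∉ Set.Ioo a b) →
    MonotoneOn A (Set.Ioo a b) ∨ AntitoneOn A (Set.Ioo a b)) →
  (∀ a b : ℝ, (∀ z ∈ Z, z ∉ Set.Ioo a b) →
    MonotoneOn R (Set.Ioo a b) ∨ AntitoneOn R (Set.Ioo a b)) →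
  ∃ C : ℝ, ∀ y v : ℝ, 0 ≤ v → (∀ z ∈ Z, v ≤ |y - z|) →
    A y ^ (d * (D + 1)) * R y * v ^ (d * (D + 1) - 1) * (1 + v ^ 2) ≤ C

/-- `VSM`.  Semialgebraic functions are piecewise monotone in the last variable. -/
def St_VSM : Prop := ∀ {ι : Type} (F : (Option ι → ℝ) → ℝ), SA (graph F) →
  ∃ (N : ℕ) (ξ : Fin N → (ι → ℝ) → ℝ), (∀ i, SA (graph (ξ i))) ∧
    ∀ (x : ι → ℝ) (a b : ℝ), (∀ i, ξ i x ∉ Set.Ioo a b) →
      MonotoneOn (fun y => F (pt y x)) (Set.Ioo a b) ∨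
        AntitoneOn (fun y => F (pt y x)) (Set.Ioo a b)

/-- `VSP`.  The polynomial relation of a semialgebraic function on the lines. -/
def St_VSP : Prop := ∀ {ι : Type} (F : (Option ι → ℝ) → ℝ), SA (graph F) →
  ∃ (d D : ℕ) (r : MvPolynomial ι ℚ), r ≠ 0 ∧ ∀ x : ι → ℝ, MvPolynomial.aeval x r ≠ 0 →
    ∃ p : ℕ → Polynomial ℝ, (∃ i ≤ d, p i ≠ 0) ∧ (∀ i, (p i).natDegree ≤ D) ∧
      ∀ y, ∑ i ∈ Finset.range (d + 1), (p i).eval y * F (pt y x) ^ i = 0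

/-- The majorant of the kernel. -/
noncomputable def vphi (Q : ℕ) (v : ℝ) : ℝ := min |v| |v|⁻¹ ^ (1 / (Q : ℝ)) / |v|

/-- `VSH`.  The function `vphi Q` is semialgebraic and its integral is `4 Q`. -/
def St_VSH : Prop := ∀ Q : ℕ, 1 ≤ Q → Integrable (vphi Q) ∧ (∫ v : ℝ, vphi Q v) = 4 * Q ∧
  SA {z : Bool → ℝ | z false = vphi Q (z true)}

/-- `VSI`.  A semialgebraic integrable function `A ≥ 0` has a semialgebraic majorant whose integral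
is algebraic; there is even room for a small power of a semialgebraic function `R ≥ 1`. -/
def St_VSI : Prop := ∀ (m : ℕ) (A R : (Fin m → ℝ) → ℝ), SA (graph A) → SA (graph R) →
  (∀ x, 0 ≤ A x) → (∀ x, 1 ≤ R x) → Integrable A →
  ∃ (Q : ℕ) (M : (Fin m → ℝ) → ℝ), 1 ≤ Q ∧ SA (graph M) ∧ Integrable M ∧
    IsAlgebraic ℚ (∫ x, M x) ∧ ∀ᵐ x, A x * R x ^ (1 / (Q : ℝ)) ≤ M x

/-- `VSF`.  Nonnegative differences of volumes are volumes. -/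
def St_VSF : Prop := ∀ (n : ℕ) (a b : ℝ), 1 ≤ n → V n a → V n b → b ≤ a → V n (a - b)

end Pool.Agent.PWD
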