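import Pool.Agent.ITR.Defs2
import Pool.Agent.Helper23.Quadric
import Pool.Agent.Helper23.PeriodProof

/-!
# PWD (U*): mixed towers, definitions and statements of the modules
-/

set_option autoImplicit false

open MeasureTheory

namespace Pool.Agent.PWD

open Pool.Agent.Helper23.PeriodDefs
open Pool.Agent.Helper23.Quadric (PF evx)
open Pool.Agent.Helper23.PeriodProof (RB)
open Pool.Agent.ITR (PosProd DepOn)

/-- products of positive constants, of the functions `q i`, `i < k`, `i ∈ I`, and of the squares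
`(q i)^2`, `i < k` -/
inductive MixProd {n : ℕ} (I : Set (Fin n)) (q : Fin n → MultiPoly n) (k : Fin n) :
    ((Fin n → ℝ) → ℝ) → Prop
  | const (c : RealAlg) (hc : 0 < (c : ℝ)) : MixProd I q k (fun _ => c)
  | gen (i : Fin n) (hi : i < k) (hI : i ∈ I) : MixProd I q k (evalMulti (q i))
  | sq (i : Fin n) (hi : i < k) : MixProd I q k (fun x => evalMulti (q i) x ^ 2)
  | mul {f g : (Fin n → ℝ) → ℝ} (hf : MixProd I q k f) (hg : MixProd I q k g) :
      MixProd I q k (fun x => f x * g x)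

/-- the binary form `∑ f_j u^j v^(d-j)`, `d` the degree of `f` -/
noncomputable def hform (f : Polynomial RealAlg) (u v : ℝ) : ℝ :=
  ∑ j ∈ Finset.range (f.natDegree + 1), (f.coeff j : ℝ) * u ^ j * v ^ (f.natDegree - j)

/-- `q_1, ..., q_n` is a mixed tower: `q_k` is a polynomial in `x_1, ..., x_k`, and there are a
polynomial `b` in `x_1, ..., x_(k-1)` and `M`, `s` such that either `k ∈ I`,
`M q_k = (M x_k + b)^2 + s`, and `M`, `s` are products of positive constants, of polynomials `q_i`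
with `i < k`, `i ∈ I`, and of squares `q_i^2`, `i < k`; or `k ∉ I` and `q_k = f(M x_k + b, s)` for the
binary form `f(u, v)` of a polynomial `f(u)` without real zeros, and `M`, `s` are products of positive
constants and of polynomials `q_i`, `i < k`. -/
def MixTower {n : ℕ} (I : Set (Fin n)) (q : Fin n → MultiPoly n) : Prop :=
  ∀ k, DepOn {i | i ≤ k} (evalMulti (q k)) ∧
    ∃ (M s : (Fin n → ℝ) → ℝ) (b : MultiPoly n), DepOn {i | i < k} (evalMulti b) ∧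
      ((k ∈ I ∧ MixProd I q k M ∧ MixProd I q k s ∧
          ∀ x, M x * evalMulti (q k) x = (M x * x k + evalMulti b x) ^ 2 + s x) ∨
        (k ∉ I ∧ PosProd q k M ∧ PosProd q k s ∧ ∃ f : Polynomial RealAlg,
          (∀ t : ℝ, 0 < Polynomial.aeval t f) ∧
          ∀ x, evalMulti (q k) x = hform f (M x * x k + evalMulti b x) (s x)))

/-- [ONB] one integration, second kind.  (Model: `thm_ONE` in `Pool/Agent/ITR/ONE.lean`; tools:
`thm_SLS`, `ovf_alg` in `Pool/Agent/PWD/OVF.lean`.)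
PROOF.  `thm_SLS`: `P(y,t) = ∑_(k ≤ D) c_k(y) t^k`.  Fix `y`; `M, s > 0`; `d` the degree of `f`;
`hform f u v = v^d f(u/v)` for `v ≠ 0`.  Substitution `t = (s u - b)/M`:
`M^D P(y, (s u - b)/M) = (p₁.map (evx RB y)).eval u`, `p₁ = ∑_k C (c_k M^(D-k)) (C s * X - C b)^k`, and
`q(y,t)^m = s^(dm) f(u)^m`, so the integral is `s/(M^(D+1) s^(dm)) ∫ p₁(u)/f(u)^m du`, and this function of
`u` is integrable, so (at infinity) the coefficients of `u^k` in `p₁` with `k + 2 > d m` vanish at `y`.  For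
`k + 2 ≤ d m` the function `u^k/f(u)^m` is integrable with integral `π κ_k`, `κ_k ∈ RealAlg` (`ovf_alg`).  So
`P₁ = s * ∑_(k + 2 ≤ d m) κ_k p₁.coeff k`, `A = D + 1`, `C = d m`. -/
def St_ONB : Prop := ∀ (n m : ℕ) (P q : (Fin (n + 1) → ℝ) → ℝ) (M b s : (Fin n → ℝ) → ℝ)
  (f : Polynomial RealAlg), P ∈ PF RB (n + 1) → M ∈ PF RB n → b ∈ PF RB n → s ∈ PF RB n →
  (∀ y, 0 < M y) → (∀ y, 0 < s y) → (∀ t : ℝ, 0 < Polynomial.aeval t f) →
  (∀ (y : Fin n → ℝ) (t : ℝ), q (Fin.snoc y t) = hform f (M y * t + b y) (s y)) →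
  ∃ P₁ ∈ PF RB n, ∃ A C : ℕ, ∀ y : Fin n → ℝ,
    Integrable (fun t : ℝ => P (Fin.snoc y t) / q (Fin.snoc y t) ^ m) →
    ∫ t : ℝ, P (Fin.snoc y t) / q (Fin.snoc y t) ^ m =
      Real.pi * (P₁ y / (M y ^ A * s y ^ C))

/-- An abstract form of mixed towers: `A N ≤ B N` are monoids of positive polynomial functions of
`N` variables, `A N` contains the squares of the elements of `B N`. -/
structure AbsMix (n : ℕ) (A B : ∀ N : ℕ, Submonoid ((Fin N → ℝ) → ℝ)) : Prop where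
  pf : ∀ N, N ≤ n → ∀ w ∈ B N, w ∈ PF RB N ∧ ∀ x, 0 < w x
  ab : ∀ N, N ≤ n → ∀ w ∈ A N, w ∈ B N
  sq : ∀ N, N ≤ n → ∀ w ∈ B N, w ^ 2 ∈ A N
  st : ∀ N, N < n → ∃ (M b s : (Fin N → ℝ) → ℝ) (q : (Fin (N + 1) → ℝ) → ℝ), b ∈ PF RB N ∧
    (∀ v ∈ B (N + 1), ∃ v₀ ∈ B N, ∃ m : ℕ, ∀ (y : Fin N → ℝ) (t : ℝ),
      v (Fin.snoc y t) = v₀ y * q (Fin.snoc y t) ^ m) ∧
    ((M ∈ A N ∧ s ∈ A N ∧
      (∀ (y : Fin N → ℝ) (t : ℝ), M y * q (Fin.snoc y t) = (M y * t + b y) ^ 2 + s y) ∧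
      ∀ w ∈ A (N + 1), ∃ w₀ ∈ A N, ∃ m : ℕ, ∀ (y : Fin N → ℝ) (t : ℝ),
        w (Fin.snoc y t) = w₀ y * q (Fin.snoc y t) ^ m) ∨
     (M ∈ B N ∧ s ∈ B N ∧ (∃ f : Polynomial RealAlg, (∀ t : ℝ, 0 < Polynomial.aeval t f) ∧
        ∀ (y : Fin N → ℝ) (t : ℝ), q (Fin.snoc y t) = hform f (M y * t + b y) (s y)) ∧
      ∀ w ∈ A (N + 1), ∃ w₀ ∈ A N, ∃ m : ℕ, ∀ (y : Fin N → ℝ) (t : ℝ),
        w (Fin.snoc y t) = w₀ y * q (Fin.snoc y t) ^ (2 * m)))

/-- [MXA] mixed towers give abstract ones.  (Model: `Pool/Agent/ITR/ABT.lean`.)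
PROOF.  `B N` = closure of the positive constants in `RealAlg` and the functions
`y ↦ evalMulti (q i) (ext n N y)`, `i < N`; `A N` = closure of the positive constants, of these functions
for `i < N`, `i ∈ I`, and of their squares for `i < N`.  `ab`, `sq`: closure induction.  `st`: as in ABT for
`k = N`; if `k ∈ I` the element `w` of `A (N+1)` is `w₀ q^m`; if `k ∉ I` then `q_k` occurs in the generators of
`A (N+1)` only squared. -/
def St_MXA : Prop := ∀ (n : ℕ) (I : Set (Fin n)) (q : Fin n → MultiPoly n), MixTower I q →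
  ∃ A B : ∀ N : ℕ, Submonoid ((Fin N → ℝ) → ℝ), AbsMix n A B ∧
    ∀ m : Fin n → ℕ, (fun x : Fin n → ℝ => ∏ k, evalMulti (q k) x ^ m k) ∈ B n

/-- [MXI] the induction.  Hypothesis of the module: `St_ONB`.  (Model: `Pool/Agent/ITR/FAM.lean`,
`Pool/Agent/PWD/UEX.lean`.) -/
def St_MXI : Prop := ∀ (n : ℕ) (A B : ∀ N : ℕ, Submonoid ((Fin N → ℝ) → ℝ)), AbsMix n A B →
  1 ≤ n → ∀ P ∈ PF RB n, ∀ v ∈ B n, Integrable (fun x : Fin n → ℝ => P x / v x) →
  ∃ a ∈ RB, ∃ e : ℕ, ∫ x : Fin n → ℝ, P x / v x = a * Real.pi ^ (e + 1)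

/-- [MXU] the result. -/
def St_MXU : Prop := ∀ (n : ℕ) (I : Set (Fin n)) (q : Fin n → MultiPoly n) (P : MultiPoly n)
  (m : Fin n → ℕ), 1 ≤ n → MixTower I q →
  Integrable (fun x : Fin n → ℝ => evalMulti P x / ∏ k, evalMulti (q k) x ^ m k) →
  (∃ (a : RealAlg) (e : ℕ), (∫ x : Fin n → ℝ, evalMulti P x / ∏ k, evalMulti (q k) x ^ m k) =
    a * Real.pi ^ (e + 1)) ∧
  ((∫ x : Fin n → ℝ, evalMulti P x / ∏ k, evalMulti (q k) x ^ m k) ≠ 0 →
    Transcendental ℚ (∫ x : Fin n → ℝ, evalMulti P x / ∏ k, evalMulti (q k) x ^ m k))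

end Pool.Agent.PWD
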