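import Pool.Agent.ITR.Asm2
import Pool.Agent.Helper23.PiTrans

/-!
# PWD [UEX]: the unconditional exclusion for quadratic towers
-/

set_option autoImplicit false

open MeasureTheory Filter Topology

namespace Pool.Agent.PWD

open Pool.Agent.ITR Pool.Agent.Helper23 Pool.Agent.Helper23.PeriodDefs
open Pool.Agent.Helper23.Quadric (PF evx mem_PF)
open Pool.Agent.Helper23.PeriodProof (RB toRB aeval_toRB sqrt_mem_RB)

/-- The integral of a rational function whose denominator is a product of powers of a quadratic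
tower. -/
theorem uex_main (n : ℕ) (q : Fin (n + 1) → MultiPoly (n + 1)) (hq : QuadTower q)
    (P : MultiPoly (n + 1)) (m : Fin (n + 1) → ℕ)
    (hint : Integrable (fun x : Fin (n + 1) → ℝ =>
      evalMulti P x / ∏ k, evalMulti (q k) x ^ m k)) :
    ∃ (a : RealAlg) (e : ℕ), (∫ x : Fin (n + 1) → ℝ,
      evalMulti P x / ∏ k, evalMulti (q k) x ^ m k) = a * Real.pi ^ (e + 1) := by
  obtain ⟨T, hT, hw⟩ := thm_ABT (n + 1) q hq
  obtain ⟨v, hv⟩ : ∃ v : (Fin (n + 1) → ℝ) → ℝ, v = fun x => ∏ k, evalMulti (q k) x ^ m k :=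
    ⟨_, rfl⟩
  have hvT : v ∈ T (n + 1) := by rw [hv]; exact hw m
  obtain ⟨hvP, hv0⟩ := hT.pf (n + 1) le_rfl v hvT
  obtain ⟨M, b, s, r, hM, hs, hb, hr, hst⟩ := hT.st n (by omega)
  obtain ⟨w₀, hw₀, μ, hwμ⟩ := hst v hvT
  obtain ⟨hMP, hM0⟩ := hT.pf n (by omega) M hM
  obtain ⟨hsP, hs0⟩ := hT.pf n (by omega) s hs
  obtain ⟨hw₀P, hw₀0⟩ := hT.pf n (by omega) w₀ hw₀
  have hPF : (fun x : Fin (n + 1) → ℝ => MvPolynomial.aeval x P) ∈ PF RB (n + 1) := by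
    have h := mem_PF (B := RB) (MvPolynomial.map toRB P)
    have h2 : (fun x : Fin (n + 1) → ℝ => MvPolynomial.aeval x (MvPolynomial.map toRB P)) =
        fun x : Fin (n + 1) → ℝ => MvPolynomial.aeval x P := funext fun x => aeval_toRB P x
    rw [h2] at h
    exact h
  obtain ⟨P₁, hP₁, A, hint1⟩ := thm_ONE thm_SLS RB n (2 * μ) _ r M b s hPF hMP hb hsP hM0 hs0 hr
  have hr0 : ∀ (y : Fin n → ℝ) (t : ℝ), 0 < r (Fin.snoc y t) := by
    intro y t
    have h1 := hr y t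
    have h2 : 0 < (M y * t + b y) ^ 2 + s y := add_pos_of_nonneg_of_pos (sq_nonneg _) (hs0 y)
    rw [← h1] at h2
    exact (pos_iff_pos_of_mul_pos h2).1 (hM0 y)
  have hw₁T : w₀ ^ 2 * (M ^ A * s ^ (2 * μ - 1)) ∈ T n :=
    (T n).mul_mem ((T n).pow_mem hw₀ 2) ((T n).mul_mem ((T n).pow_mem hM A)
      ((T n).pow_mem hs (2 * μ - 1)))
  have hint' : Integrable (fun x : Fin (n + 1) → ℝ => MvPolynomial.aeval x P / v x) := by
    rw [hv]
    exact hint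
  obtain ⟨hF1, hF2, hF3⟩ := (thm_FUB n).1 _ hint'
  have hdec : ∀ (y : Fin n → ℝ) (t : ℝ),
      MvPolynomial.aeval (Fin.snoc y t : Fin (n + 1) → ℝ) P / v (Fin.snoc y t) =
      (w₀ y)⁻¹ * (MvPolynomial.aeval (Fin.snoc y t : Fin (n + 1) → ℝ) P /
        √(r (Fin.snoc y t) ^ (2 * μ))) := by
    intro y t
    have h1 : √(r (Fin.snoc y t) ^ (2 * μ)) = r (Fin.snoc y t) ^ μ := by
      rw [mul_comm 2 μ, pow_mul]
      exact Real.sqrt_sq (pow_nonneg (hr0 y t).le _)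
    rw [hwμ, h1]
    have h2 := (hw₀0 y).ne'
    have h3 := (pow_pos (hr0 y t) μ).ne'
    field_simp
  simp only [hdec] at hF1 hF2 hF3
  have hr0' : ∀ y : Fin n → ℝ, (w₀ y)⁻¹ ≠ 0 := fun y => inv_ne_zero (hw₀0 y).ne'
  have hsl : ∀ᵐ y : Fin n → ℝ,
      Integrable (fun t : ℝ => MvPolynomial.aeval (Fin.snoc y t : Fin (n + 1) → ℝ) P /
        √(r (Fin.snoc y t) ^ (2 * μ))) := by
    filter_upwards [hF1] with y hy
    rwa [integrable_const_mul_iff (isUnit_iff_ne_zero.mpr (hr0' y))] at hy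
  have hval : ∀ᵐ y : Fin n → ℝ,
      ∫ t : ℝ, (w₀ y)⁻¹ * (MvPolynomial.aeval (Fin.snoc y t : Fin (n + 1) → ℝ) P /
        √(r (Fin.snoc y t) ^ (2 * μ))) =
        Real.pi * (P₁ y / √((w₀ ^ 2 * (M ^ A * s ^ (2 * μ - 1))) y)) := by
    filter_upwards [hsl] with y hy
    have h4 : (2 * μ + 1) % 2 = 1 := by omega
    rw [integral_const_mul, hint1 y hy, h4, pow_one]
    simp only [Pi.mul_apply, Pi.pow_apply]
    rw [Real.sqrt_mul (by positivity : 0 ≤ w₀ y ^ 2), Real.sqrt_sq (hw₀0 y).le]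
    field_simp
  have hint₁ : Integrable (fun y : Fin n → ℝ =>
      P₁ y / √((w₀ ^ 2 * (M ^ A * s ^ (2 * μ - 1))) y)) := by
    have h1 := hF2.congr hval
    rwa [integrable_const_mul_iff (isUnit_iff_ne_zero.mpr Real.pi_ne_zero)] at h1
  have hFAM : St_FAM :=
    thm_FAM thm_SLS (thm_ONE thm_SLS) (thm_TYP thm_PRM) thm_AEC thm_SCL thm_FUB
  obtain ⟨-, a, ha, e, hae⟩ := hFAM (n + 1) T hT n (by omega) P₁ hP₁ _ hw₁T hint₁
  refine ⟨⟨a, ha⟩, e, ?_⟩
  have h5 : (∫ x : Fin (n + 1) → ℝ, evalMulti P x / ∏ k, evalMulti (q k) x ^ m k) =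
      ∫ x : Fin (n + 1) → ℝ, MvPolynomial.aeval x P / v x := by
    rw [hv]
    rfl
  rw [h5, hF3, integral_congr_ae hval, integral_const_mul, hae, pow_succ]
  show _ = a * _
  ring

/-- `UEX`.  Such an integral over `ℝⁿ`, `n ≥ 1`, is zero or transcendental. -/
theorem thm_UEX (n : ℕ) (hn : 1 ≤ n) (q : Fin n → MultiPoly n) (hq : QuadTower q)
    (P : MultiPoly n) (m : Fin n → ℕ)
    (hint : Integrable (fun x : Fin n → ℝ => evalMulti P x / ∏ k, evalMulti (q k) x ^ m k))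
    (hne : (∫ x : Fin n → ℝ, evalMulti P x / ∏ k, evalMulti (q k) x ^ m k) ≠ 0) :
    Transcendental ℚ (∫ x : Fin n → ℝ, evalMulti P x / ∏ k, evalMulti (q k) x ^ m k) := by
  obtain ⟨n, rfl⟩ : ∃ k, n = k + 1 := ⟨n - 1, by omega⟩
  obtain ⟨a, e, h⟩ := uex_main n q hq P m hint
  rw [h] at hne ⊢
  have ha0 : (a : ℝ) ≠ 0 := left_ne_zero_of_mul hne
  have haA : IsAlgebraic ℚ (a : ℝ) := (mem_algebraicClosure_iff ..).1 a.2
  intro halg
  have h1 : IsAlgebraic ℚ (Real.pi ^ (e + 1)) := by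
    have := halg.mul haA.inv
    have h2 : (a : ℝ) * Real.pi ^ (e + 1) * (a : ℝ)⁻¹ = Real.pi ^ (e + 1) := by
      field_simp
    rwa [h2] at this
  exact Pool.Agent.Helper23.PiT.transcendental_pi (IsAlgebraic.of_pow (Nat.succ_pos e) h1)

end Pool.Agent.PWD
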