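import Pool.Agent.QP.AsmB

/-!
# PWD [UQA]: the integrals of `p(t) / (t^N + Q)^l` over the line, `N = 4` or `N = 6`
-/

set_option autoImplicit false

open MeasureTheory Filter Topology

namespace Pool.Agent.PWD

open Pool.Agent.ITR Pool.Agent.QP Pool.Agent.Helper23.PeriodDefs

theorem uqa_rp (N M l : ℕ) (hN : 0 < N) (t : ℝ) :
    (1 + t ^ 2) ^ (-((N * (M * l) : ℕ) : ℝ) / N) = 1 / ((1 + t ^ 2) ^ M) ^ l := by
  have hNR : (N : ℝ) ≠ 0 := by exact_mod_cast hN.ne'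
  have h1 : -((N * (M * l) : ℕ) : ℝ) / N = -((M * l : ℕ) : ℝ) := by
    push_cast
    field_simp
  rw [h1, Real.rpow_neg (by positivity), Real.rpow_natCast, pow_mul, one_div]

theorem uqa_up (M : ℕ) (hM : M ≠ 0) (t : ℝ) : t ^ (2 * M) + 1 ≤ (1 + t ^ 2) ^ M := by
  have h := pow_add_pow_le (sq_nonneg t) zero_le_one hM
  rw [one_pow, ← pow_mul, add_comm (t ^ 2) 1] at h
  exact h

theorem uqa_dn (M : ℕ) (t : ℝ) : (1 + t ^ 2) ^ M ≤ 2 ^ M * (t ^ (2 * M) + 1) := by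
  have h := add_pow_le (zero_le_one (α := ℝ)) (sq_nonneg t) M
  rw [one_pow, ← pow_mul, add_comm 1 (t ^ (2 * M))] at h
  refine h.trans ?_
  have h1 : (2 : ℝ) ^ (M - 1) ≤ 2 ^ M := pow_le_pow_right₀ (by norm_num) (Nat.sub_le _ _)
  have h2 : 0 ≤ t ^ (2 * M) + 1 := by
    rw [pow_mul]
    positivity
  exact mul_le_mul_of_nonneg_right h1 h2

theorem uqa_fw (M l : ℕ) (hM : M ≠ 0) (p : Polynomial ℝ)
    (h : Integrable (fun t : ℝ => p.eval t / (t ^ (2 * M) + 1) ^ l)) :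
    Integrable (fun t : ℝ => p.eval t * (1 / ((1 + t ^ 2) ^ M) ^ l)) := by
  refine h.mono ?_ (Eventually.of_forall fun t => ?_)
  · apply Measurable.aestronglyMeasurable
    have := p.continuous.measurable
    fun_prop
  · have h1 := uqa_up M hM t
    have h0 : 0 < t ^ (2 * M) + 1 := by
      rw [pow_mul]
      positivity
    rw [mul_one_div, norm_div, norm_div,
      Real.norm_of_nonneg (by positivity : (0 : ℝ) ≤ ((1 + t ^ 2) ^ M) ^ l),
      Real.norm_of_nonneg (pow_nonneg h0.le l)]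
    exact div_le_div_of_nonneg_left (norm_nonneg _) (pow_pos h0 l) (pow_le_pow_left₀ h0.le h1 l)

theorem uqa_bw (M l j : ℕ) 
    (h : Integrable (fun t : ℝ => t ^ j * (1 / ((1 + t ^ 2) ^ M) ^ l))) :
    Integrable (fun t : ℝ => t ^ j / (t ^ (2 * M) + 1) ^ l) := by
  refine (h.const_mul ((2 ^ M) ^ l)).mono ?_ (Eventually.of_forall fun t => ?_)
  · apply Measurable.aestronglyMeasurable
    fun_prop
  · have h1 := uqa_dn M t
    have h0 : 0 < t ^ (2 * M) + 1 := by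
      rw [pow_mul]
      positivity
    have h2 : 0 < (1 + t ^ 2) ^ M := by positivity
    rw [norm_mul, mul_one_div, norm_div, norm_div, Real.norm_of_nonneg (pow_nonneg h0.le l),
      Real.norm_of_nonneg (pow_nonneg h2.le l),
      Real.norm_of_nonneg (by positivity : (0 : ℝ) ≤ (2 ^ M) ^ l)]
    rw [← mul_div_assoc, div_le_div_iff₀ (pow_pos h0 l) (pow_pos h2 l)]
    have h3 : ((1 + t ^ 2) ^ M) ^ l ≤ (2 ^ M) ^ l * (t ^ (2 * M) + 1) ^ l := by
      rw [← mul_pow]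
      exact pow_le_pow_left₀ h2.le h1 l
    nlinarith [mul_le_mul_of_nonneg_left h3 (norm_nonneg (t ^ j))]

theorem uqa_half {N : ℕ} (hN : N = 4 ∨ N = 6) : ∃ M, M ≠ 0 ∧ N = 2 * M := by
  rcases hN with rfl | rfl
  · exact ⟨2, by norm_num, by norm_num⟩
  · exact ⟨3, by norm_num, by norm_num⟩

theorem uqa_coef (N : ℕ) (hN : N = 4 ∨ N = 6) (l : ℕ) (p : Polynomial ℝ)
    (h : Integrable (fun t : ℝ => p.eval t / (t ^ N + 1) ^ l)) :
    ∀ j, N * l ≤ j + 1 → p.coeff j = 0 := by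
  obtain ⟨M, hM, hNM⟩ := uqa_half hN
  have hN0 : 0 < N := by omega
  have h1 := uqa_fw M l hM p (by rwa [← hNM])
  have h2 : Integrable (fun t : ℝ => p.eval t * (1 + t ^ 2) ^ (-((N * (M * l) : ℕ) : ℝ) / N)) := by
    refine h1.congr (Eventually.of_forall fun t => ?_)
    simp only
    rw [uqa_rp N M l hN0]
  intro j hj
  refine (((thm_JJQ thm_BIN thm_BVL N hN (N * (M * l))).2.2 p h2).1) j ?_
  calc 2 * (N * (M * l)) = N * ((2 * M) * l) := by ring
    _ = N * (N * l) := by rw [← hNM]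
    _ ≤ N * (j + 1) := Nat.mul_le_mul_left _ hj

theorem uqa_mono (N : ℕ) (hN : N = 4 ∨ N = 6) (l j : ℕ) (hj : j + 1 < N * l) :
    Integrable (fun t : ℝ => t ^ j / (t ^ N + 1) ^ l) := by
  obtain ⟨M, hM, hNM⟩ := uqa_half hN
  have hN0 : 0 < N := by omega
  have h0 : Integrable (fun t : ℝ => (0 : Polynomial ℝ).eval t *
      (1 + t ^ 2) ^ (-((N * (M * l) : ℕ) : ℝ) / N)) := by
    simp
  have h1 := ((thm_JJQ thm_BIN thm_BVL N hN (N * (M * l))).2.2 0 h0).2 j (by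
    calc N * (j + 1) < N * (N * l) := Nat.mul_lt_mul_of_pos_left hj hN0
      _ = N * ((2 * M) * l) := by rw [← hNM]
      _ = 2 * (N * (M * l)) := by ring)
  have h2 : Integrable (fun t : ℝ => t ^ j * (1 / ((1 + t ^ 2) ^ M) ^ l)) := by
    refine h1.congr (Eventually.of_forall fun t => ?_)
    simp only
    rw [uqa_rp N M l hN0]
  have h3 := uqa_bw M l j h2
  rwa [← hNM] at h3

/-- the beta integral over the half-line -/
theorem uqa_beta (x s : ℝ) :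
    ∫ u in Set.Ioi (0 : ℝ), u ^ (x - 1) * (1 + u) ^ (-s) =
      ∫ v in Set.Ioo (0 : ℝ) 1, v ^ (x - 1) * (1 - v) ^ (s - x - 1) := by
  have himg : (fun v : ℝ => v / (1 - v)) '' Set.Ioo 0 1 = Set.Ioi 0 := by
    ext u
    constructor
    · rintro ⟨v, ⟨h0, h1⟩, rfl⟩
      exact div_pos h0 (by linarith)
    · intro hu
      have hu' : 0 < u := hu
      refine ⟨u / (1 + u), ⟨by positivity, ?_⟩, ?_⟩
      · rw [div_lt_one (by positivity)]
        linarith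
      · have h1 : (1 : ℝ) + u ≠ 0 := by positivity
        have h2 : 1 - u / (1 + u) = 1 / (1 + u) := by
          field_simp
          ring
        change u / (1 + u) / (1 - u / (1 + u)) = u
        rw [h2]
        field_simp
  have hder : ∀ v ∈ Set.Ioo (0 : ℝ) 1, HasDerivWithinAt (fun v : ℝ => v / (1 - v))
      (1 / (1 - v) ^ 2) (Set.Ioo 0 1) v := by
    intro v hv
    have hw : (1 : ℝ) - v ≠ 0 := by
      have := hv.2
      intro h
      linarith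
    have h1 := (hasDerivAt_id v).div ((hasDerivAt_const v (1 : ℝ)).sub (hasDerivAt_id v)) hw
    have h2 : HasDerivAt (fun v : ℝ => v / (1 - v)) (1 / (1 - v) ^ 2) v := by
      refine HasDerivAt.congr_deriv h1 ?_
      simp only [id, Pi.sub_apply]
      congr 1
      ring
    exact h2.hasDerivWithinAt
  have hinj : Set.InjOn (fun v : ℝ => v / (1 - v)) (Set.Ioo 0 1) := by
    intro a ha b hb hab
    have h1 : (1 : ℝ) - a ≠ 0 := by
      have := ha.2
      intro h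
      linarith
    have h2 : (1 : ℝ) - b ≠ 0 := by
      have := hb.2
      intro h
      linarith
    have h3 : a / (1 - a) = b / (1 - b) := hab
    rw [div_eq_div_iff h1 h2] at h3
    linarith
  have h := integral_image_eq_integral_abs_deriv_smul (measurableSet_Ioo) hder hinj
    (fun u : ℝ => u ^ (x - 1) * (1 + u) ^ (-s))
  rw [himg] at h
  rw [h]
  refine setIntegral_congr_fun measurableSet_Ioo fun v hv => ?_
  obtain ⟨h0, h1⟩ := hv
  obtain ⟨w, hw⟩ : ∃ w : ℝ, w = 1 - v := ⟨_, rfl⟩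
  have hw0 : 0 < w := by linarith
  have e1 : (1 : ℝ) + v / w = w⁻¹ := by
    rw [hw] at hw0 ⊢
    field_simp
    ring
  change |1 / (1 - v) ^ 2| * ((v / (1 - v)) ^ (x - 1) * (1 + v / (1 - v)) ^ (-s)) =
    v ^ (x - 1) * (1 - v) ^ (s - x - 1)
  rw [← hw, e1, Real.div_rpow h0.le hw0.le, Real.inv_rpow hw0.le, Real.rpow_neg hw0.le, inv_inv]
  rw [abs_of_pos (by positivity : (0 : ℝ) < 1 / w ^ 2)]
  have e2 : (1 : ℝ) / w ^ 2 = w ^ (-2 : ℝ) := by
    rw [Real.rpow_neg hw0.le, Real.rpow_two, one_div]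
  have e3 : v ^ (x - 1) / w ^ (x - 1) = v ^ (x - 1) * w ^ (-(x - 1)) := by
    rw [Real.rpow_neg hw0.le, div_eq_mul_inv]
  rw [e2, e3]
  have e4 : w ^ (s - x - 1) = w ^ (-2 : ℝ) * w ^ (-(x - 1)) * w ^ s := by
    rw [← Real.rpow_add hw0, ← Real.rpow_add hw0]
    congr 1
    ring
  rw [e4]
  ring

theorem uqa_even (N : ℕ) (hN : N = 4 ∨ N = 6) (l i : ℕ) :
    ∫ t : ℝ, t ^ (2 * i) / (t ^ N + 1) ^ l =
      2 / N * ∫ u in Set.Ioi (0 : ℝ), u ^ ((2 * i + 1 : ℝ) / N - 1) * (1 + u) ^ (-(l : ℝ)) := by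
  obtain ⟨M, hM, hNM⟩ := uqa_half hN
  have hN0 : (0 : ℝ) < N := by
    have : 0 < N := by omega
    exact_mod_cast this
  have e1 : (fun t : ℝ => t ^ (2 * i) / (t ^ N + 1) ^ l) =
      fun t : ℝ => (fun r : ℝ => r ^ (2 * i) / (r ^ N + 1) ^ l) |t| := by
    funext t
    change t ^ (2 * i) / (t ^ N + 1) ^ l = |t| ^ (2 * i) / (|t| ^ N + 1) ^ l
    rw [hNM, pow_mul, pow_mul, pow_mul, pow_mul, sq_abs]
  rw [e1, integral_comp_abs (f := fun r : ℝ => r ^ (2 * i) / (r ^ N + 1) ^ l)]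
  rw [← integral_comp_rpow_Ioi_of_pos
    (g := fun u : ℝ => u ^ ((2 * i + 1 : ℝ) / N - 1) * (1 + u) ^ (-(l : ℝ))) (p := N) hN0]
  rw [← integral_const_mul, ← integral_const_mul]
  refine setIntegral_congr_fun measurableSet_Ioi fun x hx => ?_
  have hx0 : (0 : ℝ) < x := hx
  change 2 * (x ^ (2 * i) / (x ^ N + 1) ^ l) =
    2 / N * ((N * x ^ ((N : ℝ) - 1)) * ((x ^ (N : ℝ)) ^ ((2 * i + 1 : ℝ) / N - 1) *
      (1 + x ^ (N : ℝ)) ^ (-(l : ℝ))))
  have e2 : x ^ (2 * i) = x ^ ((N : ℝ) - 1) * (x ^ (N : ℝ)) ^ ((2 * i + 1 : ℝ) / N - 1) := by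
    rw [← Real.rpow_mul hx0.le, ← Real.rpow_add hx0, ← Real.rpow_natCast]
    congr 1
    push_cast
    field_simp
    ring
  have e3 : (1 + x ^ (N : ℝ)) ^ (-(l : ℝ)) = 1 / (x ^ N + 1) ^ l := by
    rw [Real.rpow_natCast, Real.rpow_neg (by positivity), Real.rpow_natCast, one_div, add_comm]
  rw [e2, e3]
  field_simp

theorem uqa_odd (N : ℕ) (hN : N = 4 ∨ N = 6) (l i : ℕ) :
    ∫ t : ℝ, t ^ (2 * i + 1) / (t ^ N + 1) ^ l = 0 := by
  obtain ⟨M, hM, hNM⟩ := uqa_half hN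
  have h := integral_neg_eq_self (fun t : ℝ => t ^ (2 * i + 1) / (t ^ N + 1) ^ l) volume
  have e : (fun t : ℝ => (-t) ^ (2 * i + 1) / ((-t) ^ N + 1) ^ l) =
      fun t : ℝ => -(t ^ (2 * i + 1) / (t ^ N + 1) ^ l) := by
    funext t
    rw [hNM, pow_mul (-t) 2 M, neg_sq, ← pow_mul, Odd.neg_pow (odd_two_mul_add_one i)]
    ring
  rw [e, integral_neg] at h
  linarith

/-- the constants are real algebraic multiples of `π` -/
theorem uqa_val (N : ℕ) (hN : N = 4 ∨ N = 6) (l j : ℕ) (hj : j + 1 < N * l) :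
    ∃ r : RealAlg, ∫ t : ℝ, t ^ j / (t ^ N + 1) ^ l = r * Real.pi := by
  obtain ⟨M, hM, hNM⟩ := uqa_half hN
  have hN0 : 0 < N := by omega
  have hNR : (0 : ℝ) < N := by exact_mod_cast hN0
  have hNQ : (0 : ℚ) < N := by exact_mod_cast hN0
  obtain ⟨i, rfl | rfl⟩ : ∃ i, j = 2 * i ∨ j = 2 * i + 1 := ⟨j / 2, by omega⟩
  swap
  · exact ⟨0, by rw [uqa_odd N hN]; simp⟩
  obtain ⟨x, hx⟩ : ∃ x : ℚ, x = (2 * i + 1 : ℚ) / N := ⟨_, rfl⟩
  obtain ⟨y, hy⟩ : ∃ y : ℚ, y = (l : ℚ) - x := ⟨_, rfl⟩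
  have hx0 : 0 < x := by rw [hx]; positivity
  have hy0 : 0 < y := by
    rw [hy, hx, sub_pos, div_lt_iff₀ hNQ]
    have : ((2 * i + 1 : ℕ) : ℚ) < ((N * l : ℕ) : ℚ) := by exact_mod_cast hj
    push_cast at this
    linarith
  have hxN : x * N = ((2 * i + 1 : ℤ) : ℚ) := by
    rw [hx]
    push_cast
    field_simp
  have hxz : ∃ z : ℤ, x * N = z := ⟨_, hxN⟩
  have hyz : ∃ z : ℤ, y * N = z := by
    refine ⟨(l : ℤ) * N - (2 * i + 1), ?_⟩
    rw [hy, sub_mul, hxN]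
    push_cast
    ring
  obtain ⟨a, ha⟩ := thm_BVL N hN x y hxz hyz hx0 hy0
  have hfx : Int.fract x ≠ 0 := by
    intro h
    rw [Int.fract_eq_iff] at h
    obtain ⟨_, _, z, hz⟩ := h
    rw [sub_zero] at hz
    rw [hz] at hxN
    have h2 : z * (N : ℤ) = 2 * i + 1 := by exact_mod_cast hxN
    rw [hNM] at h2
    push_cast at h2
    have h3 : (2 : ℤ) ∣ 2 * i + 1 := ⟨z * M, by rw [← h2]; ring⟩
    omega
  have hfy : Int.fract y = 1 - Int.fract x := by
    have : y = -x + (l : ℤ) := by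
      rw [hy]
      push_cast
      ring
    rw [this, Int.fract_add_intCast, Int.fract_neg hfx]
  have hfy0 : Int.fract y ≠ 0 := by
    rw [hfy]
    have := Int.fract_lt_one x
    intro h
    linarith
  have hew : ew x y = 1 := by
    unfold ew
    rw [if_pos ⟨hfx, hfy0, by rw [hfy]; linarith⟩]
  have heh : eh x y = 1 := by
    unfold eh
    rw [if_pos ⟨hfx, hfy0, by rw [hfy]; linarith⟩]
  rw [hew, heh, pow_one, pow_one] at ha
  obtain ⟨⟨b, hb0, hb⟩, _, _⟩ := asm_PIQ N hN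
  have hb0' : (b : ℝ) ≠ 0 := by
    intro h
    exact hb0 (Subtype.ext h)
  have hwh : per N * qer N = (b : ℝ)⁻¹ * Real.pi := by
    rw [hb]
    field_simp
  have hBI := (thm_BIN (x : ℝ) (y : ℝ) (by exact_mod_cast hx0) (by exact_mod_cast hy0)).2.1
  rw [uqa_even N hN, uqa_beta]
  have hxR : ((x : ℚ) : ℝ) = (2 * i + 1 : ℝ) / N := by rw [hx]; push_cast; ring
  have hyR : ((y : ℚ) : ℝ) = (l : ℝ) - (x : ℝ) := by rw [hy]; push_cast; ring
  rw [← hxR, ← hyR, hBI, ha, hwh]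
  refine ⟨2 / (N : RealAlg) * (a * b⁻¹), ?_⟩
  have h2 : ((2 : RealAlg) : ℝ) = 2 := rfl
  push_cast
  rw [h2]
  ring

end Pool.Agent.PWD
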