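import Pool.Agent.PWD.UQA

/-!
# PWD [UQB]: coefficients and scaling
-/

set_option autoImplicit false

open MeasureTheory Filter Topology

namespace Pool.Agent.PWD

open Pool.Agent.ITR Pool.Agent.QP Pool.Agent.Helper23.PeriodDefs

/-- a polynomial with vanishing high coefficients -/
theorem uqb_eval (D : ℕ) (p : Polynomial ℝ) (h : ∀ j, D ≤ j → p.coeff j = 0) (t : ℝ) :
    p.eval t = ∑ j ∈ Finset.range D, p.coeff j * t ^ j := by
  rw [Polynomial.eval_eq_sum, Polynomial.sum_def]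
  refine Finset.sum_subset ?_ ?_
  · intro j hj
    rw [Finset.mem_range]
    by_contra hc
    exact Polynomial.mem_support_iff.1 hj (h j (by omega))
  · intro j _ hj
    rw [Polynomial.notMem_support_iff.1 hj, zero_mul]

/-- the polynomial with given coefficients -/
noncomputable def vpoly (D : ℕ) (a : Fin D → ℝ) : Polynomial ℝ :=
  ∑ i : Fin D, Polynomial.C (a i) * Polynomial.X ^ (i : ℕ)

theorem vpoly_coeff (D : ℕ) (a : Fin D → ℝ) (i : Fin D) : (vpoly D a).coeff i = a i := by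
  unfold vpoly
  rw [Polynomial.finsetSum_coeff]
  simp only [Polynomial.coeff_C_mul, Polynomial.coeff_X_pow]
  rw [Finset.sum_eq_single i]
  · simp
  · intro b _ hb
    rw [if_neg, mul_zero]
    intro h
    exact hb (Fin.ext h.symm)
  · simp

theorem vpoly_coeff' (D : ℕ) (a : Fin D → ℝ) (j : ℕ) (hj : D ≤ j) : (vpoly D a).coeff j = 0 := by
  unfold vpoly
  rw [Polynomial.finsetSum_coeff]
  simp only [Polynomial.coeff_C_mul, Polynomial.coeff_X_pow]
  refine Finset.sum_eq_zero fun b _ => ?_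
  rw [if_neg, mul_zero]
  have := b.2
  omega

theorem vpoly_add (D : ℕ) (a b : Fin D → ℝ) : vpoly D (a + b) = vpoly D a + vpoly D b := by
  unfold vpoly
  rw [← Finset.sum_add_distrib]
  refine Finset.sum_congr rfl fun i _ => ?_
  rw [Pi.add_apply, Polynomial.C_add, add_mul]

theorem vpoly_smul (D : ℕ) (c : ℝ) (a : Fin D → ℝ) : vpoly D (c • a) = Polynomial.C c * vpoly D a := by
  unfold vpoly
  rw [Finset.mul_sum]
  refine Finset.sum_congr rfl fun i _ => ?_
  rw [Pi.smul_apply, smul_eq_mul, Polynomial.C_mul, mul_assoc]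

theorem vpoly_self (D : ℕ) (p : Polynomial ℝ) (h : ∀ j, D ≤ j → p.coeff j = 0) :
    vpoly D (fun i => p.coeff i) = p := by
  ext j
  rcases lt_or_ge j D with hj | hj
  · exact vpoly_coeff D _ ⟨j, hj⟩
  · rw [vpoly_coeff' D _ j hj, h j hj]

theorem uqb_vint (N : ℕ) (hN : N = 4 ∨ N = 6) (l : ℕ) (a : Fin (N * l - 1) → ℝ) :
    Integrable (fun t : ℝ => (vpoly _ a).eval t / (t ^ N + 1) ^ l) := by
  have h : (fun t : ℝ => (vpoly _ a).eval t / (t ^ N + 1) ^ l) =
      fun t : ℝ => ∑ i : Fin (N * l - 1), a i * (t ^ (i : ℕ) / (t ^ N + 1) ^ l) := by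
    funext t
    unfold vpoly
    rw [Polynomial.eval_finsetSum, Finset.sum_div]
    refine Finset.sum_congr rfl fun i _ => ?_
    rw [Polynomial.eval_mul, Polynomial.eval_C, Polynomial.eval_pow, Polynomial.eval_X, mul_div_assoc]
  rw [h]
  refine integrable_finsetSum _ fun i _ => (uqa_mono N hN l i ?_).const_mul _
  have := i.2
  omega

/-- the embedding of the coefficients in `L¹` -/
noncomputable def vmap (N : ℕ) (hN : N = 4 ∨ N = 6) (l : ℕ) :
    (Fin (N * l - 1) → ℝ) →ₗ[ℝ] (ℝ →₁[volume] ℝ) where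
  toFun a := (uqb_vint N hN l a).toL1 _
  map_add' a b := by
    rw [← Integrable.toL1_add, Integrable.toL1_eq_toL1_iff]
    refine Eventually.of_forall fun t => ?_
    simp only [Pi.add_apply, vpoly_add, Polynomial.eval_add, add_div]
  map_smul' c a := by
    rw [RingHom.id_apply, ← Integrable.toL1_smul, Integrable.toL1_eq_toL1_iff]
    refine Eventually.of_forall fun t => ?_
    simp only [vpoly_smul, Polynomial.eval_mul, Polynomial.eval_C, smul_eq_mul, mul_div_assoc]

theorem vmap_inj (N : ℕ) (hN : N = 4 ∨ N = 6) (l : ℕ) : LinearMap.ker (vmap N hN l) = ⊥ := by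
  obtain ⟨M, hM, hNM⟩ := uqa_half hN
  rw [LinearMap.ker_eq_bot']
  intro a ha
  have h0 : (uqb_vint N hN l a).toL1 _ = (integrable_zero ℝ ℝ volume).toL1 _ := by
    rw [Integrable.toL1_zero]
    exact ha
  rw [Integrable.toL1_eq_toL1_iff] at h0
  have h1 : ∀ᵐ t : ℝ, (vpoly _ a).eval t = 0 := by
    filter_upwards [h0] with t ht
    have hp : 0 < (t ^ N + 1) ^ l := by
      rw [hNM, pow_mul]
      positivity
    exact (div_eq_zero_iff.1 ht).resolve_right hp.ne'
  have h2 : vpoly _ a = 0 := by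
    by_contra hne
    have hfin : {t : ℝ | (vpoly _ a).eval t = 0}.Finite := by
      have := (vpoly _ a).roots.toFinset.finite_toSet
      refine this.subset fun t ht => ?_
      simpa [hne] using ht
    have h3 : volume {t : ℝ | ¬ (vpoly _ a).eval t = 0} = 0 := h1
    have h4 : volume {t : ℝ | (vpoly _ a).eval t = 0} = 0 := hfin.measure_zero _
    have h5 : (Set.univ : Set ℝ) ⊆ {t : ℝ | ¬ (vpoly _ a).eval t = 0} ∪
        {t : ℝ | (vpoly _ a).eval t = 0} := by
      intro t _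
      by_cases h : (vpoly _ a).eval t = 0
      · exact Or.inr h
      · exact Or.inl h
    have h6 := measure_mono_null h5 (measure_union_null h3 h4)
    simp at h6
  funext i
  rw [← vpoly_coeff _ a i, h2]
  simp

/-- The coefficients are bounded by the integral. -/
theorem uqb_norm (N : ℕ) (hN : N = 4 ∨ N = 6) (l : ℕ) : ∃ C : ℝ, 0 ≤ C ∧ ∀ p : Polynomial ℝ,
    Integrable (fun t : ℝ => p.eval t / (t ^ N + 1) ^ l) → ∀ j,
    |p.coeff j| ≤ C * ∫ t : ℝ, |p.eval t / (t ^ N + 1) ^ l| := by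
  obtain ⟨K, _, hK⟩ := (vmap N hN l).exists_antilipschitzWith (vmap_inj N hN l)
  refine ⟨K, K.2, fun p hp j => ?_⟩
  have hc := uqa_coef N hN l p hp
  have hI : 0 ≤ ∫ t : ℝ, |p.eval t / (t ^ N + 1) ^ l| := integral_nonneg fun t => abs_nonneg _
  rcases lt_or_ge j (N * l - 1) with hj | hj
  swap
  · rw [hc j (by omega), abs_zero]
    exact mul_nonneg K.2 hI
  have hself := vpoly_self (N * l - 1) p (fun j hj => hc j (by omega))
  have h1 := hK.le_mul_dist (fun i : Fin (N * l - 1) => p.coeff i) 0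
  rw [map_zero, dist_zero_right, dist_zero_right] at h1
  have h2 : ‖vmap N hN l (fun i => p.coeff i)‖ = ∫ t : ℝ, |p.eval t / (t ^ N + 1) ^ l| := by
    have : ‖vmap N hN l (fun i => p.coeff i)‖ = ∫ t : ℝ, ‖(vpoly (N * l - 1) fun i => p.coeff i).eval t /
        (t ^ N + 1) ^ l‖ := L1.norm_of_fun_eq_integral_norm (uqb_vint N hN l fun i => p.coeff i)
    rw [this, hself]
    rfl
  rw [h2] at h1
  refine le_trans ?_ h1
  have h3 := norm_le_pi_norm (fun i : Fin (N * l - 1) => p.coeff i) ⟨j, hj⟩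
  simpa using h3

/-- scaling -/
theorem uqb_fib (N : ℕ) (hN : N = 4 ∨ N = 6) (l : ℕ) : ∃ C : ℝ, 0 ≤ C ∧ ∀ Q r : ℝ, 0 < r → r ^ N = Q →
    ∀ p : Polynomial ℝ, Integrable (fun t : ℝ => p.eval t / (t ^ N + Q) ^ l) →
    (∀ j, N * l ≤ j + 1 → p.coeff j = 0) ∧
    (∫ t : ℝ, p.eval t / (t ^ N + Q) ^ l = ∑ j ∈ Finset.range (N * l - 1),
      (∫ t : ℝ, t ^ j / (t ^ N + 1) ^ l) * (p.coeff j * (r ^ (j + 1) / Q ^ l))) ∧
    ∀ j, |p.coeff j * (r ^ (j + 1) / Q ^ l)| ≤ C * ∫ t : ℝ, |p.eval t / (t ^ N + Q) ^ l| := by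
  obtain ⟨C, hC0, hC⟩ := uqb_norm N hN l
  refine ⟨C, hC0, fun Q r hr hrQ p hp => ?_⟩
  have hQ : 0 < Q := by rw [← hrQ]; positivity
  obtain ⟨g, hg⟩ : ∃ g : ℝ → ℝ, g = fun t => p.eval t / (t ^ N + Q) ^ l := ⟨_, rfl⟩
  obtain ⟨p', hp'⟩ : ∃ p', p' = p.comp (Polynomial.C r * Polynomial.X) := ⟨_, rfl⟩
  have hco : ∀ j, p'.coeff j = p.coeff j * r ^ j := by
    intro j
    rw [hp', Polynomial.comp_C_mul_X_coeff]
  have hgr : ∀ s : ℝ, p'.eval s / (s ^ N + 1) ^ l = Q ^ l * g (r * s) := by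
    intro s
    rw [hg, hp']
    simp only [Polynomial.eval_comp, Polynomial.eval_mul, Polynomial.eval_C, Polynomial.eval_X]
    have : (r * s) ^ N + Q = Q * (s ^ N + 1) := by
      rw [mul_pow, hrQ]
      ring
    rw [this, mul_pow, mul_div_assoc', mul_div_mul_left _ _ (pow_pos hQ l).ne']
  have hgi : Integrable g := by rw [hg]; exact hp
  have hgi2 : Integrable (fun s : ℝ => g (r * s)) := hgi.comp_mul_left' hr.ne'
  have hpi : Integrable (fun s : ℝ => p'.eval s / (s ^ N + 1) ^ l) := by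
    simp only [hgr]
    exact hgi2.const_mul _
  have hcoef := uqa_coef N hN l p' hpi
  have hint : ∫ s : ℝ, g (r * s) = r⁻¹ * ∫ t, g t := by
    rw [Measure.integral_comp_mul_left, abs_of_pos (by positivity), smul_eq_mul]
  have hint' : ∫ s : ℝ, |g (r * s)| = r⁻¹ * ∫ t, |g t| := by
    rw [Measure.integral_comp_mul_left (fun t => |g t|), abs_of_pos (by positivity), smul_eq_mul]
  have h1 : ∫ s : ℝ, p'.eval s / (s ^ N + 1) ^ l = Q ^ l * (r⁻¹ * ∫ t, g t) := by
    simp only [hgr]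
    rw [integral_const_mul, hint]
  have h1' : ∫ s : ℝ, |p'.eval s / (s ^ N + 1) ^ l| = Q ^ l * (r⁻¹ * ∫ t, |g t|) := by
    simp only [hgr, abs_mul, abs_of_pos (pow_pos hQ l)]
    rw [integral_const_mul, hint']
  have h2 : ∫ s : ℝ, p'.eval s / (s ^ N + 1) ^ l = ∑ j ∈ Finset.range (N * l - 1),
      (∫ t : ℝ, t ^ j / (t ^ N + 1) ^ l) * p'.coeff j := by
    have e : (fun s : ℝ => p'.eval s / (s ^ N + 1) ^ l) = fun s : ℝ =>
        ∑ j ∈ Finset.range (N * l - 1), p'.coeff j * (s ^ j / (s ^ N + 1) ^ l) := by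
      funext s
      rw [uqb_eval (N * l - 1) p' (fun j hj => hcoef j (by omega)) s, Finset.sum_div]
      refine Finset.sum_congr rfl fun j _ => ?_
      rw [mul_div_assoc]
    rw [e, integral_finsetSum _ fun j hj => (uqa_mono N hN l j (by
      have := Finset.mem_range.1 hj
      omega)).const_mul _]
    refine Finset.sum_congr rfl fun j _ => ?_
    rw [integral_const_mul, mul_comm]
  refine ⟨?_, ?_, ?_⟩
  · intro j hj
    have h := hcoef j hj
    rw [hco] at h
    exact (mul_eq_zero.1 h).resolve_right (pow_pos hr j).ne'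
  · have h3 : ∫ t : ℝ, p.eval t / (t ^ N + Q) ^ l = r / Q ^ l *
        ∫ s : ℝ, p'.eval s / (s ^ N + 1) ^ l := by
      rw [h1, hg]
      have := (pow_pos hQ l).ne'
      field_simp
    rw [h3, h2, Finset.mul_sum]
    refine Finset.sum_congr rfl fun j _ => ?_
    rw [hco, pow_succ]
    ring
  · intro j
    have h3 := hC p' hpi j
    rw [h1', hco, abs_mul, abs_of_pos (pow_pos hr j)] at h3
    have h4 : |p.coeff j * (r ^ (j + 1) / Q ^ l)| = r / Q ^ l * (|p.coeff j| * r ^ j) := by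
      rw [abs_mul, abs_of_pos (by positivity : 0 < r ^ (j + 1) / Q ^ l), pow_succ]
      ring
    rw [h4]
    calc r / Q ^ l * (|p.coeff j| * r ^ j) ≤ r / Q ^ l * (C * (Q ^ l * (r⁻¹ * ∫ t, |g t|))) :=
          mul_le_mul_of_nonneg_left h3 (by positivity)
      _ = C * ∫ t : ℝ, |p.eval t / (t ^ N + Q) ^ l| := by
        rw [hg]
        have := (pow_pos hQ l).ne'
        field_simp

end Pool.Agent.PWD
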