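import Pool.Agent.PWD.UQB
import Pool.Agent.PWD.FUB

/-!
# PWD [UQX]: the integral of `P(x, t) / ((t^N + w(x))^l v(x))`, `N = 4` or `N = 6`
-/

set_option autoImplicit false

open MeasureTheory Filter Topology

namespace Pool.Agent.PWD

open Pool.Agent.ITR Pool.Agent.QP Pool.Agent.Helper23 Pool.Agent.Helper23.PeriodDefs
open Pool.Agent.Helper23.Quadric (PF evx mem_PF)
open Pool.Agent.Helper23.PeriodProof (RB toRB aeval_toRB mem_RB)

theorem uqx_sum (n : ℕ) (x y : ℝ) (s : Finset ℕ) (g : ℕ → ℝ)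
    (h : ∀ j ∈ s, ∃ F : MvPolynomial (Fin 2) RealAlg, F.degreeOf 0 ≤ n ∧ F.degreeOf 1 ≤ n ∧
      g j = Real.pi * MvPolynomial.aeval ![x, y] F) :
    ∃ F : MvPolynomial (Fin 2) RealAlg, F.degreeOf 0 ≤ n ∧ F.degreeOf 1 ≤ n ∧
      ∑ j ∈ s, g j = Real.pi * MvPolynomial.aeval ![x, y] F := by
  classical
  induction s using Finset.induction_on with
  | empty =>
    refine ⟨0, ?_, ?_, ?_⟩
    · simp
    · simp
    · simp
  | insert a s ha ih =>
    obtain ⟨F, h1, h2, h3⟩ := ih fun j hj => h j (Finset.mem_insert_of_mem hj)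
    obtain ⟨G, g1, g2, g3⟩ := h a (Finset.mem_insert_self a s)
    refine ⟨G + F, (MvPolynomial.degreeOf_add_le _ _ _).trans (max_le g1 h1),
      (MvPolynomial.degreeOf_add_le _ _ _).trans (max_le g2 h2), ?_⟩
    rw [Finset.sum_insert ha, g3, h3, map_add, mul_add]

theorem uqx_mon (n : ℕ) (x y : ℝ) (a : RealAlg) (i k : ℕ) (hi : i ≤ n) (hk : k ≤ n) :
    ∃ F : MvPolynomial (Fin 2) RealAlg, F.degreeOf 0 ≤ n ∧ F.degreeOf 1 ≤ n ∧
      (a : ℝ) * (x ^ i * y ^ k) = MvPolynomial.aeval ![x, y] F := by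
  have hx : ∀ (u v : Fin 2) (e : ℕ), (MvPolynomial.X v ^ e : MvPolynomial (Fin 2) RealAlg).degreeOf u ≤
      if u = v then e else 0 := by
    intro u v e
    have h := MvPolynomial.degreeOf_pow_le u (MvPolynomial.X v : MvPolynomial (Fin 2) RealAlg) e
    rw [MvPolynomial.degreeOf_X] at h
    split_ifs at h ⊢ with hv
    · omega
    · omega
  refine ⟨MvPolynomial.C a * (MvPolynomial.X 0 ^ i * MvPolynomial.X 1 ^ k), ?_, ?_, ?_⟩
  · refine (MvPolynomial.degreeOf_C_mul_le _ _ _).trans ?_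
    refine (MvPolynomial.degreeOf_mul_le _ _ _).trans ?_
    have h1 := hx 0 0 i
    have h2 := hx 0 1 k
    rw [if_pos rfl] at h1
    rw [if_neg (by decide)] at h2
    omega
  · refine (MvPolynomial.degreeOf_C_mul_le _ _ _).trans ?_
    refine (MvPolynomial.degreeOf_mul_le _ _ _).trans ?_
    have h1 := hx 1 0 i
    have h2 := hx 1 1 k
    rw [if_neg (by decide)] at h1
    rw [if_pos rfl] at h2
    omega
  · simp

theorem pf_measurable {n : ℕ} {f : (Fin n → ℝ) → ℝ} (hf : f ∈ PF RB n) : Measurable f := by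
  obtain ⟨P, hP⟩ := Quadric.exists_of_mem_PF hf
  have h : f = fun x => MvPolynomial.aeval x P := funext fun x => (hP x).symm
  rw [h]
  have : Continuous fun x : Fin n → ℝ => MvPolynomial.aeval x P := by
    have e : (fun x : Fin n → ℝ => MvPolynomial.aeval x P) =
        fun x => MvPolynomial.eval x (MvPolynomial.map (algebraMap RB ℝ) P) := by
      funext x
      rw [MvPolynomial.aeval_def, MvPolynomial.eval₂_eq_eval_map]
    rw [e]
    exact MvPolynomial.continuous_eval _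
  exact this.measurable

/-- The functions of the parameters. -/
theorem uqx_root (N : ℕ) (hN : N = 4 ∨ N = 6) (l j : ℕ) (hj : j + 1 < N * l) (c w v r : ℝ)
    (hr : 0 < r) (hrw : r ^ N = w) (hv : 0 < v) :
    c / (w ^ (N * l - (j + 1)) * v ^ N) ^ ((1 : ℝ) / N) = c * (r ^ (j + 1) / w ^ l) * v⁻¹ := by
  have hN0 : N ≠ 0 := by omega
  have e1 : w ^ (N * l - (j + 1)) * v ^ N = (r ^ (N * l - (j + 1)) * v) ^ N := by
    rw [mul_pow, ← hrw, ← pow_mul, ← pow_mul, Nat.mul_comm N]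
  rw [e1, one_div, Real.pow_rpow_inv_natCast (by positivity) hN0]
  have e2 : w ^ l = r ^ (N * l - (j + 1)) * r ^ (j + 1) := by
    rw [← pow_add, Nat.sub_add_cancel hj.le, pow_mul, hrw]
  rw [e2]
  have h1 := (pow_pos hr (N * l - (j + 1))).ne'
  have h2 := (pow_pos hr (j + 1)).ne'
  field_simp

theorem uqx_main (N : ℕ) (hN : N = 4 ∨ N = 6) (n l : ℕ)
    (T : ∀ l : ℕ, Submonoid ((Fin l → ℝ) → ℝ)) (hT : AbsTower n T)
    (P : (Fin (n + 1) → ℝ) → ℝ) (hP : P ∈ PF RB (n + 1)) (w v : (Fin n → ℝ) → ℝ)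
    (hw : w ∈ T n) (hv : v ∈ T n)
    (hint : Integrable (fun z : Fin (n + 1) → ℝ =>
      P z / ((z (Fin.last n) ^ N + w (Fin.init z)) ^ l * v (Fin.init z)))) :
    ∃ F : MvPolynomial (Fin 2) RealAlg, F.degreeOf 0 ≤ n ∧ F.degreeOf 1 ≤ n ∧
      ∫ z : Fin (n + 1) → ℝ, P z / ((z (Fin.last n) ^ N + w (Fin.init z)) ^ l * v (Fin.init z)) =
        Real.pi * MvPolynomial.aeval ![per N, qer N] F := by
  have hN0 : N ≠ 0 := by omega
  obtain ⟨p, hp⟩ := thm_SLS RB n P hP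
  obtain ⟨hwP, hw0⟩ := hT.pf n le_rfl w hw
  obtain ⟨hvP, hv0⟩ := hT.pf n le_rfl v hv
  obtain ⟨C, hC0, hC⟩ := uqb_fib N hN l
  obtain ⟨f, hf⟩ : ∃ f : (Fin (n + 1) → ℝ) → ℝ, f = fun z =>
    P z / ((z (Fin.last n) ^ N + w (Fin.init z)) ^ l * v (Fin.init z)) := ⟨_, rfl⟩
  rw [← hf] at hint ⊢
  have hfs : ∀ (y : Fin n → ℝ) (t : ℝ), f (Fin.snoc y t) =
      (v y)⁻¹ * ((p.map (evx RB y)).eval t / (t ^ N + w y) ^ l) := by
    intro y t
    rw [hf]
    simp only [Fin.snoc_last, Fin.init_snoc]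
    rw [hp t y]
    have h1 := (hv0 y).ne'
    rw [div_mul_eq_div_div, div_eq_mul_inv, mul_comm]
  obtain ⟨r, hr⟩ : ∃ r : (Fin n → ℝ) → ℝ, r = fun y => (w y) ^ ((N : ℝ)⁻¹) := ⟨_, rfl⟩
  have hr0 : ∀ y, 0 < r y := by
    intro y
    rw [hr]
    exact Real.rpow_pos_of_pos (hw0 y) _
  have hrw : ∀ y, r y ^ N = w y := by
    intro y
    rw [hr]
    exact Real.rpow_inv_natCast_pow (hw0 y).le hN0
  have hfib : ∀ᵐ y : Fin n → ℝ,
      Integrable (fun t : ℝ => (p.map (evx RB y)).eval t / (t ^ N + w y) ^ l) := by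
    filter_upwards [integrable_snoc_ae n f hint] with y hy
    simp only [hfs] at hy
    rwa [integrable_const_mul_iff (isUnit_iff_ne_zero.mpr (inv_ne_zero (hv0 y).ne'))] at hy
  obtain ⟨G, hG⟩ : ∃ G : ℕ → (Fin n → ℝ) → ℝ, G = fun j y =>
    (p.coeff j).1 y / ((w ^ (N * l - (j + 1)) * v ^ N) y) ^ ((1 : ℝ) / N) := ⟨_, rfl⟩
  have hGe : ∀ j, j + 1 < N * l → ∀ y, G j y =
      (p.map (evx RB y)).coeff j * (r y ^ (j + 1) / w y ^ l) * (v y)⁻¹ := by
    intro j hj y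
    rw [hG]
    simp only [Pi.mul_apply, Pi.pow_apply]
    rw [uqx_root N hN l j hj _ (w y) (v y) (r y) (hr0 y) (hrw y) (hv0 y), Polynomial.coeff_map]
    rfl
  have hval : ∀ᵐ y : Fin n → ℝ, ∫ t : ℝ, f (Fin.snoc y t) =
      ∑ j ∈ Finset.range (N * l - 1), (∫ t : ℝ, t ^ j / (t ^ N + 1) ^ l) * G j y := by
    filter_upwards [hfib] with y hy
    simp only [hfs]
    rw [integral_const_mul, (hC (w y) (r y) (hr0 y) (hrw y) _ hy).2.1, Finset.mul_sum]
    refine Finset.sum_congr rfl fun j hj => ?_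
    rw [hGe j (by
      have := Finset.mem_range.1 hj
      omega)]
    ring
  have hGi : ∀ j, j + 1 < N * l → Integrable (G j) := by
    intro j hj
    have h1 := (integrable_snoc_norm n f hint).const_mul C
    refine h1.mono' ?_ ?_
    · apply Measurable.aestronglyMeasurable
      rw [hG]
      have m1 := pf_measurable (p.coeff j).2
      have m2 := pf_measurable hwP
      have m3 := pf_measurable hvP
      have m4 : Measurable (w ^ (N * l - (j + 1)) * v ^ N) :=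
        (m2.pow_const _).mul (m3.pow_const _)
      exact m1.div (m4.pow_const _)
    · filter_upwards [hfib] with y hy
      have h2 := (hC (w y) (r y) (hr0 y) (hrw y) _ hy).2.2 j
      rw [hGe j hj, Real.norm_eq_abs, abs_mul, abs_of_pos (inv_pos.2 (hv0 y))]
      have h3 : ∫ t : ℝ, ‖f (Fin.snoc y t)‖ =
          (v y)⁻¹ * ∫ t : ℝ, |(p.map (evx RB y)).eval t / (t ^ N + w y) ^ l| := by
        rw [← integral_const_mul]
        congr 1
        funext t
        rw [hfs, Real.norm_eq_abs, abs_mul, abs_of_pos (inv_pos.2 (hv0 y))]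
      rw [h3]
      calc _ ≤ (C * ∫ t : ℝ, |(p.map (evx RB y)).eval t / (t ^ N + w y) ^ l|) * (v y)⁻¹ :=
            mul_le_mul_of_nonneg_right h2 (inv_pos.2 (hv0 y)).le
        _ = _ := by ring
  rw [integral_snoc n f hint, integral_congr_ae hval, integral_finsetSum _ fun j hj =>
    (hGi j (by
      have := Finset.mem_range.1 hj
      omega)).const_mul _]
  refine uqx_sum n _ _ _ _ fun j hj => ?_
  have hj' : j + 1 < N * l := by
    have := Finset.mem_range.1 hj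
    omega
  obtain ⟨J, hJ⟩ := uqa_val N hN l j hj'
  have hGi' := hGi j hj'
  rw [hG] at hGi' ⊢
  obtain ⟨-, a, ha, i, hi, k, hk, he⟩ := asm_FMQ N hN n T hT n le_rfl (p.coeff j).1 (p.coeff j).2
    (w ^ (N * l - (j + 1)) * v ^ N) ((T n).mul_mem ((T n).pow_mem hw _) ((T n).pow_mem hv _)) hGi'
  obtain ⟨F, hF1, hF2, hF3⟩ := uqx_mon n (per N) (qer N) (J * ⟨a, mem_algebraicClosure_iff.2 (mem_RB.1 ha)⟩) i k hi hk
  refine ⟨F, hF1, hF2, ?_⟩
  rw [← hF3, integral_const_mul, he, hJ]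
  push_cast
  ring

end Pool.Agent.PWD
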