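import Pool.Agent.PWD.UQX
import Pool.Agent.QP.AsmA

/-!
# PWD [UQZ]: an unconditional exclusion from the theorem of Chudnovsky
-/

set_option autoImplicit false

open MeasureTheory Filter Topology

namespace Pool.Agent.PWD

open Pool.Agent.ITR Pool.Agent.QP Pool.Agent.Helper23 Pool.Agent.Helper23.PeriodDefs
open Pool.Agent.Helper23.Quadric (PF evx mem_PF)
open Pool.Agent.Helper23.PeriodProof (RB toRB aeval_toRB mem_RB)

/-- the function `P(x, t) / ((t^N + ∏ q_k(x)^(m_k))^l ∏ q_k(x)^(e_k))` -/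
noncomputable def rootFun {n : ℕ} (N l : ℕ) (q : Fin n → MultiPoly n) (P : MultiPoly (n + 1))
    (m e : Fin n → ℕ) (z : Fin (n + 1) → ℝ) : ℝ :=
  evalMulti P z / ((z (Fin.last n) ^ N + ∏ k, evalMulti (q k) (Fin.init z) ^ m k) ^ l *
    ∏ k, evalMulti (q k) (Fin.init z) ^ e k)

/-- `UQX`.  Let `N = 4` or `N = 6` and let `q` be a quadratic tower in `n` variables over the real
algebraic numbers `K`.  Every convergent integral over `ℝⁿ⁺¹` of
`P(x, t) / ((t^N + ∏ q_k(x)^(m_k))^l ∏ q_k(x)^(e_k))`, `P` a polynomial over `K`, is `π F(w, h)` with a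
polynomial `F` over `K` of degree at most `n` in each variable, `w = per N`, `h = qer N`.  So it is zero or
transcendental. -/
def St_UQX : Prop := ∀ N : ℕ, N = 4 ∨ N = 6 → ∀ (n l : ℕ) (q : Fin n → MultiPoly n)
  (P : MultiPoly (n + 1)) (m e : Fin n → ℕ), QuadTower q → Integrable (rootFun N l q P m e) →
  (∃ F : MvPolynomial (Fin 2) RealAlg, F.degreeOf 0 ≤ n ∧ F.degreeOf 1 ≤ n ∧
    ∫ z, rootFun N l q P m e z = Real.pi * MvPolynomial.aeval ![per N, qer N] F) ∧
  (∫ z, rootFun N l q P m e z ≠ 0 → Transcendental ℚ (∫ z, rootFun N l q P m e z))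

theorem uqx_tr (N : ℕ) (hN : N = 4 ∨ N = 6) (F : MvPolynomial (Fin 2) RealAlg)
    (h : Real.pi * MvPolynomial.aeval ![per N, qer N] F ≠ 0) :
    Transcendental ℚ (Real.pi * MvPolynomial.aeval ![per N, qer N] F) := by
  obtain ⟨-, hind, -⟩ := asm_FNQ asm_CHU N hN
  obtain ⟨⟨b, -, hb⟩, -, -⟩ := asm_PIQ N hN
  intro halg
  obtain ⟨α, hα⟩ : ∃ α : RealAlg, (α : ℝ) = Real.pi * MvPolynomial.aeval ![per N, qer N] F :=
    ⟨⟨_, mem_algebraicClosure_iff.2 halg⟩, rfl⟩
  have h1 : MvPolynomial.aeval ![per N, qer N]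
      (MvPolynomial.C b * (MvPolynomial.X 0 * MvPolynomial.X 1) * F - MvPolynomial.C α :
        MvPolynomial (Fin 2) RealAlg) = 0 := by
    rw [map_sub, map_mul, map_mul, map_mul, MvPolynomial.aeval_C, MvPolynomial.aeval_C,
      MvPolynomial.aeval_X, MvPolynomial.aeval_X]
    change (b : ℝ) * (per N * qer N) * _ - (α : ℝ) = 0
    rw [← hb, hα, sub_self]
  have h2 := hind.eq_zero_of_aeval_eq_zero _ h1
  have h3 := congrArg (MvPolynomial.aeval (fun _ : Fin 2 => (0 : RealAlg))) h2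
  rw [map_sub, map_mul, map_mul, map_mul, MvPolynomial.aeval_C, MvPolynomial.aeval_C,
    MvPolynomial.aeval_X, MvPolynomial.aeval_X, map_zero] at h3
  have h4 : α = 0 := by
    simpa using h3
  apply h
  rw [← hα, h4]
  rfl

theorem thm_UQX : St_UQX := by
  intro N hN n l q P m e hq hint
  obtain ⟨T, hT, hw⟩ := thm_ABT n q hq
  have hPF : (fun x : Fin (n + 1) → ℝ => MvPolynomial.aeval x P) ∈ PF RB (n + 1) := by
    have h := mem_PF (B := RB) (MvPolynomial.map toRB P)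
    have h2 : (fun x : Fin (n + 1) → ℝ => MvPolynomial.aeval x (MvPolynomial.map toRB P)) =
        fun x : Fin (n + 1) → ℝ => MvPolynomial.aeval x P := funext fun x => aeval_toRB P x
    rw [h2] at h
    exact h
  obtain ⟨F, h1, h2, h3⟩ := uqx_main N hN n l T hT _ hPF _ _ (hw m) (hw e) hint
  have h4 : ∫ z, rootFun N l q P m e z = Real.pi * MvPolynomial.aeval ![per N, qer N] F := h3
  refine ⟨⟨F, h1, h2, h4⟩, fun h0 => ?_⟩
  rw [h4] at h0 ⊢
  exact uqx_tr N hN F h0

end Pool.Agent.PWD
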