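import Pool.Agent.PWD.StV
import Pool.Agent.PWQ.SAD

/-!
# PWD [VSH]: the function `vphi`
-/

set_option autoImplicit false

open MeasureTheory Filter Topology Set
open Pool.Agent.PWQ

namespace Pool.Agent.PWD

theorem vsh_small {Q : ℕ} {t : ℝ} (h0 : 0 < t) (h1 : t ≤ 1) :
    min t t⁻¹ ^ (1 / (Q : ℝ)) / t = t ^ (1 / (Q : ℝ) - 1) := by
  have h2 : t ≤ t⁻¹ := h1.trans ((one_le_inv₀ h0).2 h1)
  rw [min_eq_left h2, Real.rpow_sub_one h0.ne']

theorem vsh_large {Q : ℕ} {t : ℝ} (h1 : 1 < t) :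
    min t t⁻¹ ^ (1 / (Q : ℝ)) / t = t ^ (-(1 / (Q : ℝ)) - 1) := by
  have h0 : 0 < t := lt_trans one_pos h1
  have h2 : t⁻¹ ≤ t := (inv_le_one_of_one_le₀ h1.le).trans h1.le
  rw [min_eq_right h2, Real.rpow_sub_one h0.ne', Real.inv_rpow h0.le, Real.rpow_neg h0.le]

theorem vsh_int (Q : ℕ) (hQ : 1 ≤ Q) :
    IntegrableOn (fun t : ℝ => min t t⁻¹ ^ (1 / (Q : ℝ)) / t) (Ioi 0) ∧
      ∫ t in Ioi (0 : ℝ), min t t⁻¹ ^ (1 / (Q : ℝ)) / t = 2 * Q := by
  have hQ0 : (0 : ℝ) < Q := by exact_mod_cast hQ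
  have hp : (0 : ℝ) < 1 / (Q : ℝ) := by positivity
  have hp1 : -1 < 1 / (Q : ℝ) - 1 := by linarith
  have hp2 : -(1 / (Q : ℝ)) - 1 < -1 := by linarith
  have e1 : ∀ t ∈ Ioc (0 : ℝ) 1, min t t⁻¹ ^ (1 / (Q : ℝ)) / t = t ^ (1 / (Q : ℝ) - 1) :=
    fun t ht => vsh_small ht.1 ht.2
  have e2 : ∀ t ∈ Ioi (1 : ℝ), min t t⁻¹ ^ (1 / (Q : ℝ)) / t = t ^ (-(1 / (Q : ℝ)) - 1) :=
    fun t ht => vsh_large ht
  have i1 : IntegrableOn (fun t : ℝ => min t t⁻¹ ^ (1 / (Q : ℝ)) / t) (Ioc 0 1) := by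
    refine IntegrableOn.congr_fun ?_ (fun t ht => (e1 t ht).symm) measurableSet_Ioc
    exact (intervalIntegrable_iff_integrableOn_Ioc_of_le zero_le_one).1
      (intervalIntegral.intervalIntegrable_rpow' hp1)
  have i2 : IntegrableOn (fun t : ℝ => min t t⁻¹ ^ (1 / (Q : ℝ)) / t) (Ioi 1) :=
    IntegrableOn.congr_fun (integrableOn_Ioi_rpow_of_lt hp2 one_pos)
      (fun t ht => (e2 t ht).symm) measurableSet_Ioi
  rw [← Ioc_union_Ioi_eq_Ioi (zero_le_one' ℝ)]
  refine ⟨i1.union i2, ?_⟩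
  rw [setIntegral_union (Ioc_disjoint_Ioi le_rfl) measurableSet_Ioi i1 i2,
    setIntegral_congr_fun measurableSet_Ioc e1, setIntegral_congr_fun measurableSet_Ioi e2,
    ← intervalIntegral.integral_of_le zero_le_one, integral_rpow (Or.inl hp1),
    integral_Ioi_rpow_of_lt hp2 one_pos]
  rw [sub_add_cancel, sub_add_cancel, Real.one_rpow, Real.one_rpow, Real.zero_rpow hp.ne']
  field_simp
  ring

theorem vsh_integrable (Q : ℕ) (hQ : 1 ≤ Q) : Integrable (vphi Q) := by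
  have hf : IntegrableOn (vphi Q) (Ioi 0) := by
    refine IntegrableOn.congr_fun (vsh_int Q hQ).1 (fun t ht => ?_) measurableSet_Ioi
    have ht' : |t| = t := abs_of_pos ht
    rw [vphi, ht']
  have hfi : IntegrableOn (vphi Q) (Iic 0) := by
    rw [← Measure.map_neg_eq_self (volume : Measure ℝ)]
    let m : MeasurableEmbedding fun x : ℝ => -x := (Homeomorph.neg ℝ).measurableEmbedding
    rw [m.integrableOn_map_iff]
    have e : (vphi Q ∘ fun x : ℝ => -x) = vphi Q := by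
      funext x
      simp only [Function.comp_apply, vphi, abs_neg]
    rw [e, neg_preimage, neg_Iic, neg_zero]
    exact Iff.mpr integrableOn_Ici_iff_integrableOn_Ioi hf
  have h := hfi.union hf
  rwa [Iic_union_Ioi, integrableOn_univ] at h

theorem vsh_iff {Q : ℕ} (hQ : 1 ≤ Q) {v : ℝ} (hv : 0 < v) (y : ℝ) :
    y = vphi Q v ↔ 0 < y ∧ ((v ≤ 1 ∧ (y * v) ^ Q = v) ∨ (1 < v ∧ (y * v) ^ Q * v = 1)) := by
  have hQ0 : Q ≠ 0 := by omega
  have hav : |v| = v := abs_of_pos hv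
  have hm : 0 < min v v⁻¹ := lt_min hv (inv_pos.2 hv)
  have key : y = vphi Q v ↔ 0 < y ∧ (y * v) ^ Q = min v v⁻¹ := by
    rw [vphi, hav, eq_div_iff hv.ne', one_div]
    constructor
    · intro h
      have h1 : 0 < y * v := by
        rw [h]
        exact Real.rpow_pos_of_pos hm _
      refine ⟨pos_of_mul_pos_left h1 hv.le, ?_⟩
      rw [h, Real.rpow_inv_natCast_pow hm.le hQ0]
    · rintro ⟨h0, h⟩
      rw [← h, Real.pow_rpow_inv_natCast (by positivity) hQ0]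
  rw [key]
  rcases le_or_gt v 1 with h1 | h1
  · have h2 : v ≤ v⁻¹ := h1.trans ((one_le_inv₀ hv).2 h1)
    rw [min_eq_left h2]
    constructor
    · rintro ⟨h0, h⟩
      exact ⟨h0, Or.inl ⟨h1, h⟩⟩
    · rintro ⟨h0, h | h⟩
      · exact ⟨h0, h.2⟩
      · exact absurd h.1 (not_lt.2 h1)
  · have h2 : v⁻¹ ≤ v := (inv_le_one_of_one_le₀ h1.le).trans h1.le
    rw [min_eq_right h2]
    constructor
    · rintro ⟨h0, h⟩
      refine ⟨h0, Or.inr ⟨h1, ?_⟩⟩
      rw [h, inv_mul_cancel₀ hv.ne']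
    · rintro ⟨h0, h | h⟩
      · exact absurd h.1 (not_le.2 h1)
      · exact ⟨h0, eq_inv_of_mul_eq_one_left h.2⟩

theorem vsh_SA_pos (Q : ℕ) (hQ : 1 ≤ Q) :
    SA {z : Bool → ℝ | 0 < z true ∧ z false = vphi Q (z true)} := by
  have h1 : SA {z : Bool → ℝ | z ∈ {z : Bool → ℝ | 0 < MvPolynomial.aeval z
      (MvPolynomial.X true : MvPolynomial Bool ℚ)} ∧
      z ∈ {z : Bool → ℝ | z ∈ {z : Bool → ℝ | 0 < MvPolynomial.aeval z
        (MvPolynomial.X false : MvPolynomial Bool ℚ)} ∧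
      z ∈ {z : Bool → ℝ |
        z ∈ {z : Bool → ℝ | z ∈ {z : Bool → ℝ | MvPolynomial.aeval z
            (MvPolynomial.X true : MvPolynomial Bool ℚ) ≤
            MvPolynomial.aeval z (1 : MvPolynomial Bool ℚ)} ∧
          z ∈ {z : Bool → ℝ | MvPolynomial.aeval z
            ((MvPolynomial.X false * MvPolynomial.X true) ^ Q : MvPolynomial Bool ℚ) =
            MvPolynomial.aeval z (MvPolynomial.X true : MvPolynomial Bool ℚ)}} ∨
        z ∈ {z : Bool → ℝ | z ∈ {z : Bool → ℝ | MvPolynomial.aeval z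
            (1 : MvPolynomial Bool ℚ) <
            MvPolynomial.aeval z (MvPolynomial.X true : MvPolynomial Bool ℚ)} ∧
          z ∈ {z : Bool → ℝ | MvPolynomial.aeval z
            ((MvPolynomial.X false * MvPolynomial.X true) ^ Q * MvPolynomial.X true :
              MvPolynomial Bool ℚ) =
            MvPolynomial.aeval z (1 : MvPolynomial Bool ℚ)}}}}} :=
    SA_and (SA_pos _) (SA_and (SA_pos _) (SA_or (SA_and (SA_le _ _) (SA_eq _ _))
      (SA_and (SA_lt _ _) (SA_eq _ _))))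
  refine (congrArg SA ?_).mp h1
  ext z
  simp only [mem_ofPred_eq, MvPolynomial.aeval_X, map_one, map_mul, map_pow]
  constructor
  · rintro ⟨h, h'⟩
    exact ⟨h, (vsh_iff hQ h _).2 h'⟩
  · rintro ⟨h, h'⟩
    exact ⟨h, (vsh_iff hQ h _).1 h'⟩

/-- [VSH] the function `vphi Q` -/
theorem thm_VSH : St_VSH := by
  intro Q hQ
  refine ⟨vsh_integrable Q hQ, ?_, ?_⟩
  · have h := integral_comp_abs (f := fun t : ℝ => min t t⁻¹ ^ (1 / (Q : ℝ)) / t)
    rw [(vsh_int Q hQ).2] at h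
    have h2 : (∫ v : ℝ, vphi Q v) = 2 * (2 * Q) := h
    rw [h2]
    ring
  · have h1 := vsh_SA_pos Q hQ
    have h2 := SA_sub h1 (fun b : Bool => (if b then - MvPolynomial.X true else
      MvPolynomial.X false : MvPolynomial Bool ℚ))
    have h3 : SA {z : Bool → ℝ | z ∈ {z : Bool → ℝ | MvPolynomial.aeval z
        (MvPolynomial.X true : MvPolynomial Bool ℚ) = 0} ∧
      z ∈ {z : Bool → ℝ | MvPolynomial.aeval z
        (MvPolynomial.X false : MvPolynomial Bool ℚ) = 0}} := SA_and (SA_zero _) (SA_zero _)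
    refine (congrArg SA ?_).mp (SA_or h3 (SA_or h1 h2))
    ext z
    simp only [mem_ofPred_eq, MvPolynomial.aeval_X, if_true, map_neg, Bool.false_eq_true,
      if_false]
    have e : vphi Q (- z true) = vphi Q (z true) := by
      simp only [vphi, abs_neg]
    have e0 : vphi Q 0 = 0 := by
      simp [vphi]
    rw [e]
    constructor
    · rintro (⟨h, h'⟩ | ⟨h, h'⟩ | ⟨h, h'⟩)
      · rw [h, h', e0]
      · exact h'
      · exact h'
    · intro h
      rcases lt_trichotomy (z true) 0 with h4 | h4 | h4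
      · exact Or.inr (Or.inr ⟨by linarith, h⟩)
      · refine Or.inl ⟨h4, ?_⟩
        rw [h, h4, e0]
      · exact Or.inr (Or.inl ⟨h4, h⟩)

end Pool.Agent.PWD
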