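import Pool.Agent.PWD.StV
import Pool.Agent.PWD.PIE

/-!
# PWD [VSP]: the polynomial relation of a semialgebraic function on the lines
-/

set_option autoImplicit false

open MeasureTheory Filter Topology

namespace Pool.Agent.PWD

/-- A semialgebraic function satisfies a polynomial relation everywhere. -/
theorem vsp_rel {κ : Type} (F : (κ → ℝ) → ℝ) (hF : SA (graph F)) :
    ∃ G : Polynomial (MvPolynomial κ ℚ), G ≠ 0 ∧ ∀ z : κ → ℝ, (spR z G).eval (F z) = 0 := by
  classical
  obtain ⟨P, hP⟩ := hF
  obtain ⟨S, hS⟩ : ∃ S : Finset (Polynomial (MvPolynomial κ ℚ)),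
      S = (P.image (MvPolynomial.optionEquivLeft ℚ κ)).filter (fun p => p ≠ 0) := ⟨_, rfl⟩
  refine ⟨∏ p ∈ S, p, Finset.prod_ne_zero_iff.2 fun p hp => ?_, fun z => ?_⟩
  · rw [hS] at hp
    exact (Finset.mem_filter.1 hp).2
  · by_contra hc
    have h1 : ∀ s ∈ S, (spR z s).eval (F z) ≠ 0 := by
      intro s hs h0
      refine hc ?_
      have h2 : (spR z (∏ p ∈ S, p)) = ∏ p ∈ S, spR z p := by
        unfold spR
        rw [Polynomial.map_prod]
      rw [h2, Polynomial.eval_prod]
      exact Finset.prod_eq_zero hs h0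
    obtain ⟨t, ht, h2⟩ := near_signs S z (F z) h1
    have h3 : pt (F z) z ∈ graph F := rfl
    have h4 := hP (pt (F z) z) (pt t z) (fun p hp => by
      rw [aeval_pt, aeval_pt]
      by_cases h0 : MvPolynomial.optionEquivLeft ℚ κ p = 0
      · rw [h0]
        simp [spR]
      · refine h2 _ ?_
        rw [hS]
        exact Finset.mem_filter.2 ⟨Finset.mem_image_of_mem _ hp, h0⟩) h3
    exact ht h4

theorem thm_VSP : St_VSP := by
  classical
  intro ι F hF
  obtain ⟨G, hG, h⟩ := vsp_rel F hF
  obtain ⟨i0, hi0⟩ : ∃ i, G.coeff i ≠ 0 := by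
    by_contra hc
    push Not at hc
    exact hG (Polynomial.ext fun i => by rw [hc i, Polynomial.coeff_zero])
  obtain ⟨q, hq⟩ : ∃ q : ℕ → Polynomial (MvPolynomial ι ℚ),
      q = fun i => MvPolynomial.optionEquivLeft ℚ ι (G.coeff i) := ⟨_, rfl⟩
  have hq0 : q i0 ≠ 0 := by
    rw [hq]
    simpa using hi0
  refine ⟨G.natDegree, ∑ i ∈ Finset.range (G.natDegree + 1), (q i).natDegree,
    (q i0).leadingCoeff, Polynomial.leadingCoeff_ne_zero.2 hq0, fun x hx => ?_⟩
  have hd : i0 ≤ G.natDegree := Polynomial.le_natDegree_of_ne_zero hi0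
  refine ⟨fun i => if i ≤ G.natDegree then spR x (q i) else 0, ⟨i0, hd, ?_⟩, ?_, ?_⟩
  · simp only [if_pos hd]
    intro h0
    have h1 : (spR x (q i0)).coeff (q i0).natDegree = 0 := by
      rw [h0, Polynomial.coeff_zero]
    unfold spR at h1
    rw [Polynomial.coeff_map] at h1
    exact hx h1
  · intro i
    by_cases hi : i ≤ G.natDegree
    · simp only [if_pos hi]
      have h1 : (spR x (q i)).natDegree ≤ (q i).natDegree := by
        unfold spR
        exact Polynomial.natDegree_map_le
      exact h1.trans (Finset.single_le_sum (f := fun i => (q i).natDegree) (fun _ _ => Nat.zero_le _)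
        (Finset.mem_range.2 (by omega)))
    · simp only [if_neg hi, Polynomial.natDegree_zero]
      exact Nat.zero_le _
  · intro y
    have h1 := h (pt y x)
    rw [Polynomial.eval_eq_sum_range' (n := G.natDegree + 1) (by
      have : (spR (pt y x) G).natDegree ≤ G.natDegree := by
        unfold spR
        exact Polynomial.natDegree_map_le
      omega)] at h1
    rw [← h1]
    refine Finset.sum_congr rfl fun i hi => ?_
    simp only
    rw [if_pos (by rw [Finset.mem_range] at hi; omega), hq]
    congr 1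
    rw [← aeval_pt]
    unfold spR
    rw [Polynomial.coeff_map]
    rfl

end Pool.Agent.PWD
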