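import Pool.Agent.PWD.VSS
import Pool.Agent.PWD.VSP
import Pool.Agent.PWD.VSH

/-!
# PWD [VSI]: semialgebraic majorants with algebraic integral
-/

set_option autoImplicit false

open MeasureTheory Filter Topology Pool.Agent.PWQ

namespace Pool.Agent.PWD

theorem vphi_nonneg (Q : ℕ) (v : ℝ) : 0 ≤ vphi Q v := by
  unfold vphi
  have h : 0 ≤ min |v| |v|⁻¹ := le_min (abs_nonneg _) (inv_nonneg.2 (abs_nonneg _))
  positivity

theorem vphi_abs (Q : ℕ) (v : ℝ) : vphi Q |v| = vphi Q v := by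
  unfold vphi
  rw [abs_abs]

/-- The pointwise inequality. -/
theorem vsi_pt (q Q' : ℕ) (hq : 1 ≤ q) (hQ' : 1 ≤ Q') (a r v h S M : ℝ) (ha : 0 ≤ a) (hr : 1 ≤ r)
    (hv : 0 < v) (h1 : a * v ≤ h) (h2 : a ^ q * r * v ^ (q - 1) * (1 + v ^ 2) ≤ S)
    (h3 : h * (1 + S / h ^ q) ^ (1 / (Q' : ℝ)) ≤ M) :
    a * r ^ (1 / ((q * Q' : ℕ) : ℝ)) ≤ M * vphi (q * Q') v := by
  have hr0 : 0 < r := by linarith
  have hh : 0 ≤ h := (mul_nonneg ha hv.le).trans h1
  have hS : 0 ≤ S := le_trans (by positivity) h2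
  have hM : 0 ≤ M := le_trans (by positivity) h3
  rcases eq_or_lt_of_le ha with h0 | h0
  · rw [← h0, zero_mul]
    exact mul_nonneg hM (vphi_nonneg _ _)
  have hh0 : 0 < h := lt_of_lt_of_le (mul_pos h0 hv) h1
  refine le_trans ?_ (mul_le_mul_of_nonneg_right h3 (vphi_nonneg _ _))
  have hQ0 : q * Q' ≠ 0 := Nat.mul_ne_zero (by omega) (by omega)
  obtain ⟨B, hB⟩ : ∃ B, B = 1 + S / h ^ q := ⟨_, rfl⟩
  have hB1 : 1 ≤ B := by
    rw [hB]
    have : 0 ≤ S / h ^ q := by positivity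
    linarith
  rw [← hB]
  have hB0 : 0 ≤ B := by linarith
  have hmin : 0 < min v v⁻¹ := lt_min hv (inv_pos.2 hv)
  have hphi : vphi (q * Q') v = min v v⁻¹ ^ (1 / ((q * Q' : ℕ) : ℝ)) / v := by
    unfold vphi
    rw [abs_of_pos hv]
  rw [hphi]
  have hY : 0 ≤ h * B ^ (1 / (Q' : ℝ)) * (min v v⁻¹ ^ (1 / ((q * Q' : ℕ) : ℝ)) / v) := by positivity
  refine le_of_pow_le_pow_left₀ hQ0 hY ?_
  have e1 : (a * r ^ (1 / ((q * Q' : ℕ) : ℝ))) ^ (q * Q') = a ^ (q * Q') * r := by
    rw [mul_pow, one_div, Real.rpow_inv_natCast_pow hr0.le hQ0]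
  have e2 : (B ^ (1 / (Q' : ℝ))) ^ (q * Q') = B ^ q := by
    rw [mul_comm q Q', pow_mul, one_div, Real.rpow_inv_natCast_pow hB0 (by omega)]
  have e3 : (min v v⁻¹ ^ (1 / ((q * Q' : ℕ) : ℝ))) ^ (q * Q') = min v v⁻¹ := by
    rw [one_div, Real.rpow_inv_natCast_pow hmin.le hQ0]
  rw [e1, mul_pow, mul_pow, div_pow, e2, e3]
  have h4 : S / h ^ q ≤ B ^ q := by
    refine le_trans (by rw [hB]; linarith) (le_self_pow₀ hB1 (by omega))
  obtain ⟨k, hk⟩ : ∃ k, q * Q' = q + k := ⟨q * Q' - q, by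
    have : q * 1 ≤ q * Q' := Nat.mul_le_mul_left q hQ'
    omega⟩
  obtain ⟨p, rfl⟩ : ∃ p, q = p + 1 := ⟨q - 1, by omega⟩
  rw [hk]
  have h5 : (a * v) ^ k * (a ^ (p + 1) * r * v ^ p * (1 + v ^ 2)) ≤ h ^ (p + 1 + k) * B ^ (p + 1) := by
    have h6 : h ^ (p + 1 + k) * (S / h ^ (p + 1)) = h ^ k * S := by
      rw [pow_add]
      field_simp
    calc (a * v) ^ k * (a ^ (p + 1) * r * v ^ p * (1 + v ^ 2)) ≤ h ^ k * S := by
          refine mul_le_mul (pow_le_pow_left₀ (by positivity) h1 k) ?_ (by positivity) (by positivity)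
          simpa using h2
      _ = h ^ (p + 1 + k) * (S / h ^ (p + 1)) := h6.symm
      _ ≤ _ := mul_le_mul_of_nonneg_left h4 (by positivity)
  have h7 : 1 ≤ (1 + v ^ 2) * min v v⁻¹ / v := by
    rw [le_div_iff₀ hv, one_mul]
    rcases le_total v 1 with h8 | h8
    · have : v ≤ v⁻¹ := h8.trans ((one_le_inv₀ hv).2 h8)
      rw [min_eq_left this]
      nlinarith [mul_pos hv (sq_pos_of_pos hv)]
    · have : v⁻¹ ≤ v := (inv_le_one_of_one_le₀ h8).trans h8
      rw [min_eq_right this]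
      have h9 : (1 + v ^ 2) * v⁻¹ = v⁻¹ + v := by
        field_simp
      rw [h9]
      have := inv_pos.2 hv
      linarith
  calc a ^ (p + 1 + k) * r = a ^ (p + 1 + k) * r * 1 := (mul_one _).symm
    _ ≤ a ^ (p + 1 + k) * r * ((1 + v ^ 2) * min v v⁻¹ / v) :=
        mul_le_mul_of_nonneg_left h7 (by positivity)
    _ = (a * v) ^ k * (a ^ (p + 1) * r * v ^ p * (1 + v ^ 2)) * (min v v⁻¹ / v ^ (p + 1 + k)) := by
        field_simp
        ring
    _ ≤ h ^ (p + 1 + k) * B ^ (p + 1) * (min v v⁻¹ / v ^ (p + 1 + k)) :=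
        mul_le_mul_of_nonneg_right h5 (by positivity)

theorem vsi_int (A : ℝ → ℝ) (hA : Integrable A) (h0 : ∀ y, 0 ≤ A y) (y v : ℝ) (hv : 0 ≤ v)
    (hm : MonotoneOn A (Set.Ioo (y - v) (y + v)) ∨ AntitoneOn A (Set.Ioo (y - v) (y + v))) :
    A y * v ≤ ∫ t, A t := by
  rcases eq_or_lt_of_le hv with h1 | h1
  · rw [← h1, mul_zero]
    exact integral_nonneg h0
  have key : ∀ a b : ℝ, b - a = v → (∀ t ∈ Set.Ioo a b, A y ≤ A t) → A y * v ≤ ∫ t, A t := by
    intro a b hab h2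
    have h3 : (∫ _t in Set.Ioo a b, A y) = A y * v := by
      rw [setIntegral_const, smul_eq_mul, measureReal_def, Real.volume_Ioo, hab,
        ENNReal.toReal_ofReal hv, mul_comm]
    rw [← h3]
    refine le_trans (setIntegral_mono_on ?_ hA.integrableOn measurableSet_Ioo h2)
      (setIntegral_le_integral hA (Eventually.of_forall h0))
    exact integrableOn_const (by rw [Real.volume_Ioo]; exact ENNReal.ofReal_ne_top)
  have hy : y ∈ Set.Ioo (y - v) (y + v) := ⟨by linarith, by linarith⟩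
  rcases hm with hm | hm
  · refine key y (y + v) (by ring) fun t ht => hm hy ⟨by linarith [ht.1], ht.2⟩ ht.1.le
  · refine key (y - v) y (by ring) fun t ht => hm ⟨ht.1, by linarith [ht.2]⟩ hy ht.2.le

theorem vsi_ae_of_snoc (n : ℕ) (p : (Fin (n + 1) → ℝ) → Prop) (hp : MeasurableSet {y | p y})
    (h : ∀ᵐ x : Fin n → ℝ, ∀ᵐ t : ℝ, p (Fin.snoc x t)) : ∀ᵐ y : Fin (n + 1) → ℝ, p y := by
  have h1 : MeasurableSet {y : Fin (n + 1) → ℝ | ¬ p y} := hp.compl
  have h2 : volume {y : Fin (n + 1) → ℝ | ¬ p y} = 0 := by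
    rw [← (snocM_mp n).measure_preimage_equiv, Measure.measure_prod_null
      ((snocM n).measurable h1)]
    filter_upwards [h] with x hx
    have e : Prod.mk x ⁻¹' ((snocM n) ⁻¹' {y | ¬ p y}) = {t : ℝ | ¬ p (Fin.snoc x t)} := by
      ext t
      show ¬ p (snocM n (x, t)) ↔ ¬ p (Fin.snoc x t)
      rw [snocM_apply]
    rw [e]
    exact hx
  exact h2

theorem vsi_snoc {m : ℕ} {A : (Fin (m + 1) → ℝ) → ℝ} (hA : SA (graph A)) :
    SA (graph fun z : Option (Fin m) → ℝ =>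
      A (Fin.snoc (fun i => z (some i)) (z none) : Fin (m + 1) → ℝ)) := by
  have h := SA_graph_comp hA (fun k : Fin (m + 1) =>
    (Fin.lastCases (motive := fun _ => Option (Fin m)) none (fun i => some i) k))
  simpa only [snoc_reindex] using h

theorem vsi_zero (A R : (Fin 0 → ℝ) → ℝ) :
    ∃ (Q : ℕ) (M : (Fin 0 → ℝ) → ℝ), 1 ≤ Q ∧ SA (graph M) ∧ Integrable M ∧
    IsAlgebraic ℚ (∫ x, M x) ∧ ∀ᵐ x, A x * R x ^ (1 / (Q : ℝ)) ≤ M x := by
  obtain ⟨c, hc⟩ := exists_rat_gt (A 0 * R 0 ^ (1 / ((1 : ℕ) : ℝ)))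
  refine ⟨1, fun _ => (c : ℝ), le_rfl, SA_graph_rat c, ?_, ?_, ?_⟩
  · exact integrable_const _
  · rw [integral_const]
    have : (volume : Measure (Fin 0 → ℝ)).real Set.univ = 1 := by
      rw [measureReal_def, ← Set.pi_univ Set.univ, volume_pi_pi]
      simp
    rw [this, one_smul]
    exact isAlgebraic_algebraMap c
  · refine Eventually.of_forall fun x => ?_
    have : x = 0 := Subsingleton.elim _ _
    rw [this]
    exact hc.le

/-- The data of the induction step. -/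
theorem vsi_data (hO : St_VSO) (m : ℕ) (A R : (Fin (m + 1) → ℝ) → ℝ) (hA : SA (graph A))
    (hR : SA (graph R)) (hA0 : ∀ x, 0 ≤ A x) (hR1 : ∀ x, 1 ≤ R x) (hAi : Integrable A) :
    ∃ (N : ℕ) (ζ : Fin (N + 1) → (Fin m → ℝ) → ℝ) (q : ℕ) (h S : (Fin m → ℝ) → ℝ), 1 ≤ q ∧
      (∀ i, SA (graph (ζ i))) ∧ SA (graph h) ∧ SA (graph S) ∧ (∀ x, 0 ≤ h x) ∧ (∀ x, 0 ≤ S x) ∧
      Integrable h ∧ ∀ᵐ x : Fin m → ℝ, ∀ y v : ℝ, 0 ≤ v → (∀ i, v ≤ |y - ζ i x|) →
        A (Fin.snoc x y : Fin (m + 1) → ℝ) * v ≤ h x ∧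
        A (Fin.snoc x y : Fin (m + 1) → ℝ) ^ q * R (Fin.snoc x y : Fin (m + 1) → ℝ) *
          v ^ (q - 1) * (1 + v ^ 2) ≤ S x := by
  classical
  obtain ⟨FA, hFA⟩ : ∃ FA : (Option (Fin m) → ℝ) → ℝ, FA = fun z =>
    A (Fin.snoc (fun i => z (some i)) (z none) : Fin (m + 1) → ℝ) := ⟨_, rfl⟩
  obtain ⟨FR, hFR⟩ : ∃ FR : (Option (Fin m) → ℝ) → ℝ, FR = fun z =>
    R (Fin.snoc (fun i => z (some i)) (z none) : Fin (m + 1) → ℝ) := ⟨_, rfl⟩
  have sFA : SA (graph FA) := by
    rw [hFA]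
    exact vsi_snoc hA
  have sFR : SA (graph FR) := by
    rw [hFR]
    exact vsi_snoc hR
  have eA : ∀ x y, FA (pt y x) = A (Fin.snoc x y : Fin (m + 1) → ℝ) := by
    intro x y
    rw [hFA]
    rfl
  have eR : ∀ x y, FR (pt y x) = R (Fin.snoc x y : Fin (m + 1) → ℝ) := by
    intro x y
    rw [hFR]
    rfl
  obtain ⟨N1, ξ1, a1, b1⟩ := thm_VSM FA sFA
  obtain ⟨N2, ξ2, a2, b2⟩ := thm_VSM FR sFR
  obtain ⟨ζ1, c1, c2, c3⟩ := vs_append ξ1 ξ2 a1 a2
  obtain ⟨ζ, e1, e2, e3⟩ := vs_append ζ1 (fun (_ : Fin 1) (_ : Fin m → ℝ) => (0 : ℝ)) c1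
    (fun _ => SA_graph_zero)
  obtain ⟨dA, DA, rA, hrA, pA⟩ := thm_VSP FA sFA
  obtain ⟨dR, DR, rR, hrR, pR⟩ := thm_VSP FR sFR
  obtain ⟨d, hd⟩ : ∃ d, d = max (max dA dR) 1 := ⟨_, rfl⟩
  obtain ⟨D, hD⟩ : ∃ D, D = max DA DR := ⟨_, rfl⟩
  obtain ⟨q, hq⟩ : ∃ q, q = d * (D + 1) := ⟨_, rfl⟩
  have hd1 : 1 ≤ d := by
    rw [hd]
    exact le_max_right _ _
  have hq1 : 1 ≤ q := by
    rw [hq]
    exact Nat.mul_pos hd1 (Nat.succ_pos D)
  obtain ⟨ΦA, hΦA⟩ : ∃ ΦA : (Option (Option (Fin m)) → ℝ) → ℝ, ΦA = fun w =>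
    FA (fun o => w (some o)) * w none := ⟨_, rfl⟩
  obtain ⟨ΦS, hΦS⟩ : ∃ ΦS : (Option (Option (Fin m)) → ℝ) → ℝ, ΦS = fun w =>
    FA (fun o => w (some o)) ^ q * FR (fun o => w (some o)) * w none ^ (q - 1) *
      (1 + w none ^ 2) := ⟨_, rfl⟩
  have sΦA : SA (graph ΦA) := by
    rw [hΦA]
    exact SA_mul2 (SA_graph_comp sFA some) (SA_graph_coord none)
  have sΦS : SA (graph ΦS) := by
    rw [hΦS]
    have h1 : SA (graph fun _ : Option (Option (Fin m)) → ℝ => (1 : ℝ)) := by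
      simpa using SA_graph_rat (ι := Option (Option (Fin m))) 1
    exact SA_mul2 (SA_mul2 (SA_mul2 (SA_powF (SA_graph_comp sFA some) q) (SA_graph_comp sFR some))
      (SA_powF (SA_graph_coord none) _)) (SA_sum2 h1 (SA_powF (SA_graph_coord none) 2))
  have hv0 : ∀ x, (0 : ℝ) ∈ vsT ζ ΦA x := by
    intro x
    refine ⟨0, 0, le_rfl, fun i => abs_nonneg _, ?_⟩
    rw [hΦA]
    show (0 : ℝ) = _ * 0
    rw [mul_zero]
  have hnn : ∀ x, 0 ≤ sSup (vsT ζ ΦA x) := by
    intro x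
    refine Real.sSup_nonneg ?_
    rintro t ⟨y, v, hv, -, rfl⟩
    rw [hΦA]
    show 0 ≤ FA (pt y x) * v
    rw [eA]
    exact mul_nonneg (hA0 _) hv
  have hnnS : ∀ x, 0 ≤ sSup (vsT ζ ΦS x) := by
    intro x
    refine Real.sSup_nonneg ?_
    rintro t ⟨y, v, hv, -, rfl⟩
    rw [hΦS]
    show 0 ≤ FA (pt y x) ^ q * FR (pt y x) * v ^ (q - 1) * (1 + v ^ 2)
    rw [eA, eR]
    have h1 := hA0 (Fin.snoc x y : Fin (m + 1) → ℝ)
    have h2 := hR1 (Fin.snoc x y : Fin (m + 1) → ℝ)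
    have h3 : 0 ≤ R (Fin.snoc x y : Fin (m + 1) → ℝ) := by linarith
    positivity
  have hmon : ∀ (x : Fin m → ℝ) (a b : ℝ), (∀ i, ζ i x ∉ Set.Ioo a b) →
      (MonotoneOn (fun y => A (Fin.snoc x y : Fin (m + 1) → ℝ)) (Set.Ioo a b) ∨
        AntitoneOn (fun y => A (Fin.snoc x y : Fin (m + 1) → ℝ)) (Set.Ioo a b)) ∧
      (MonotoneOn (fun y => R (Fin.snoc x y : Fin (m + 1) → ℝ)) (Set.Ioo a b) ∨
        AntitoneOn (fun y => R (Fin.snoc x y : Fin (m + 1) → ℝ)) (Set.Ioo a b)) := by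
    intro x a b hab
    constructor
    · have := b1 x a b (fun i => by
        obtain ⟨j, hj⟩ := c2 i
        obtain ⟨k, hk⟩ := e2 j
        rw [← hj, ← hk]
        exact hab k)
      simpa only [eA] using this
    · have := b2 x a b (fun i => by
        obtain ⟨j, hj⟩ := c3 i
        obtain ⟨k, hk⟩ := e2 j
        rw [← hj, ← hk]
        exact hab k)
      simpa only [eR] using this
  have hgen := ((ae_aeval_ne rA hrA).and (ae_aeval_ne rR hrR)).and (integrable_snoc_ae m A hAi)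
  -- the bound by the integral
  have hub : ∀ x : Fin m → ℝ, Integrable (fun t : ℝ => A (Fin.snoc x t : Fin (m + 1) → ℝ)) →
      ∀ t ∈ vsT ζ ΦA x, t ≤ ∫ t : ℝ, A (Fin.snoc x t : Fin (m + 1) → ℝ) := by
    rintro x hx t ⟨y, v, hv, hvi, rfl⟩
    rw [hΦA]
    show FA (pt y x) * v ≤ _
    rw [eA]
    refine vsi_int (fun t => A (Fin.snoc x t : Fin (m + 1) → ℝ)) hx (fun t => hA0 _) y v hv
      (hmon x _ _ fun i hi => ?_).1
    have h1 := hvi i
    have h2 : |y - ζ i x| < v := abs_lt.2 ⟨by linarith [hi.2], by linarith [hi.1]⟩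
    linarith
  refine ⟨N1 + N2, ζ, q, fun x => sSup (vsT ζ ΦA x), fun x => sSup (vsT ζ ΦS x), hq1, e1,
    SA_vsT ζ e1 ΦA sΦA, SA_vsT ζ e1 ΦS sΦS, hnn, hnnS, ?_, ?_⟩
  · refine Integrable.mono' (integrable_snoc_norm m A hAi)
      (measurable_of_SA (SA_vsT ζ e1 ΦA sΦA)).aestronglyMeasurable ?_
    filter_upwards [hgen] with x hx
    rw [Real.norm_of_nonneg (hnn x)]
    refine csSup_le ⟨0, hv0 x⟩ fun t ht => (hub x hx.2 t ht).trans (le_of_eq ?_)
    refine integral_congr_ae (Eventually.of_forall fun t => ?_)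
    exact (Real.norm_of_nonneg (hA0 _)).symm
  · filter_upwards [hgen] with x hx
    intro y v hv hvi
    obtain ⟨⟨hxA, hxR⟩, hxi⟩ := hx
    constructor
    · refine le_csSup ⟨_, fun t ht => hub x hxi t ht⟩ ⟨y, v, hv, hvi, ?_⟩
      rw [hΦA]
      show _ = FA (pt y x) * v
      rw [eA]
    · -- the one-variable bound
      obtain ⟨p, ⟨i0, hi0, hp0⟩, pD, pr⟩ := pA x hxA
      obtain ⟨r, ⟨j0, hj0, hr0⟩, rD, rr⟩ := pR x hxR
      have pad : ∀ (p : ℕ → Polynomial ℝ) (k : ℕ) (f : ℝ → ℝ), k ≤ d →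
          (∀ y, ∑ i ∈ Finset.range (k + 1), (p i).eval y * f y ^ i = 0) →
          ∀ y, ∑ i ∈ Finset.range (d + 1), (if i ≤ k then p i else 0).eval y * f y ^ i = 0 := by
        intro p k f hk h y
        rw [← h y, ← Finset.sum_subset (Finset.range_mono (Nat.add_le_add_right hk 1))]
        · refine Finset.sum_congr rfl fun i hi => ?_
          rw [if_pos (by rw [Finset.mem_range] at hi; omega)]
        · intro i _ hi
          rw [if_neg (by rw [Finset.mem_range] at hi; omega), Polynomial.eval_zero, zero_mul]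
      have hdA : dA ≤ d := by
        rw [hd]
        exact (le_max_left _ _).trans (le_max_left _ _)
      have hdR : dR ≤ d := by
        rw [hd]
        exact (le_max_right _ _).trans (le_max_left _ _)
      have hDA : DA ≤ D := by
        rw [hD]
        exact le_max_left _ _
      have hDR : DR ≤ D := by
        rw [hD]
        exact le_max_right _ _
      obtain ⟨C, hC⟩ := hO d D (fun i => if i ≤ dA then p i else 0) (fun i => if i ≤ dR then r i else 0)
        (fun t => A (Fin.snoc x t : Fin (m + 1) → ℝ)) (fun t => R (Fin.snoc x t : Fin (m + 1) → ℝ))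
        (Finset.univ.image fun i => ζ i x) hd1
        ⟨i0, hi0.trans hdA, by simpa only [if_pos hi0] using hp0⟩
        ⟨j0, hj0.trans hdR, by simpa only [if_pos hj0] using hr0⟩
        (fun i => by
          by_cases hi : i ≤ dA
          · simpa only [if_pos hi] using (pD i).trans hDA
          · simp only [if_neg hi, Polynomial.natDegree_zero]
            exact Nat.zero_le _)
        (fun i => by
          by_cases hi : i ≤ dR
          · simpa only [if_pos hi] using (rD i).trans hDR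
          · simp only [if_neg hi, Polynomial.natDegree_zero]
            exact Nat.zero_le _)
        (pad p dA _ hdA (by simpa only [eA] using pr)) (pad r dR _ hdR (by simpa only [eR] using rr))
        (fun t => hA0 _) (fun t => hR1 _) hxi
        ⟨ζ (Fin.last _) x, Finset.mem_image_of_mem _ (Finset.mem_univ _)⟩
        (fun a b hab => (hmon x a b fun i => hab _ (Finset.mem_image_of_mem _ (Finset.mem_univ _))).1)
        (fun a b hab => (hmon x a b fun i => hab _ (Finset.mem_image_of_mem _ (Finset.mem_univ _))).2)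
      rw [← hq] at hC
      have hmem : ∀ (y v : ℝ), 0 ≤ v → (∀ i, v ≤ |y - ζ i x|) →
          A (Fin.snoc x y : Fin (m + 1) → ℝ) ^ q * R (Fin.snoc x y : Fin (m + 1) → ℝ) *
          v ^ (q - 1) * (1 + v ^ 2) ≤ C := by
        intro y v hv hvi
        refine hC y v hv fun z hz => ?_
        obtain ⟨i, -, rfl⟩ := Finset.mem_image.1 hz
        exact hvi i
      refine le_csSup ⟨C, ?_⟩ ⟨y, v, hv, hvi, ?_⟩
      · rintro t ⟨y', v', hv', hvi', rfl⟩
        rw [hΦS]
        show FA (pt y' x) ^ q * FR (pt y' x) * v' ^ (q - 1) * (1 + v' ^ 2) ≤ C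
        rw [eA, eR]
        exact hmem y' v' hv' hvi'
      · rw [hΦS]
        show _ = FA (pt y x) ^ q * FR (pt y x) * v ^ (q - 1) * (1 + v ^ 2)
        rw [eA, eR]

theorem SA_vphi (hH : St_VSH) (Q : ℕ) (hQ : 1 ≤ Q) {ι : Type} {B : (ι → ℝ) → ℝ}
    (hB : SA (graph B)) : SA (graph fun x => vphi Q (B x)) := by
  have h1 := (hH Q hQ).2.2
  have h2 : SA (graph fun u : Unit → ℝ => vphi Q (u ())) := by
    have h3 := SA_reindex h1 (fun b : Bool => if b then some () else none)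
    refine (congrArg SA ?_).mp h3
    ext w
    show w (if false = true then some () else none) = vphi Q (w (if true = true then some () else none)) ↔
      w none = vphi Q (w (some ()))
    simp
  exact SA_comp h2 (fun _ => B) (fun _ => hB)

theorem thm_VSI (hO : St_VSO) (hH : St_VSH) : St_VSI := by
  classical
  intro m
  induction m with
  | zero =>
    intro A R _ _ _ _ _
    exact vsi_zero A R
  | succ m ih =>
    intro A R hA hR hA0 hR1 hAi
    obtain ⟨N, ζ, q, h, S, hq, sζ, sh, sS, h0, S0, hi, hx⟩ := vsi_data hO m A R hA hR hA0 hR1 hAi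
    have sR : SA (graph fun x => 1 + S x / h x ^ q) := by
      have h1 : SA (graph fun _ : Fin m → ℝ => (1 : ℝ)) := by
        simpa using SA_graph_rat (ι := Fin m) 1
      exact SA_sum2 h1 (SA_divF sS (SA_powF sh q))
    have R1 : ∀ x, 1 ≤ 1 + S x / h x ^ q := by
      intro x
      have h1 := h0 x
      have h2 := S0 x
      have : 0 ≤ S x / h x ^ q := by positivity
      linarith
    obtain ⟨Q', M', hQ', sM, iM, aM, leM⟩ := ih h _ sh sR h0 R1 hi
    have hQ : 1 ≤ q * Q' := Nat.mul_pos hq hQ'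
    obtain ⟨pi, pv, -⟩ := hH (q * Q') hQ
    obtain ⟨M, hM⟩ : ∃ M : (Fin (m + 1) → ℝ) → ℝ, M = fun z =>
      M' (Fin.init z) * ∑ i, vphi (q * Q') (z (Fin.last m) - ζ i (Fin.init z)) := ⟨_, rfl⟩
    have eM : ∀ x y, M (Fin.snoc x y : Fin (m + 1) → ℝ) =
        M' x * ∑ i, vphi (q * Q') (y - ζ i x) := by
      intro x y
      rw [hM]
      simp only [Fin.init_snoc, Fin.snoc_last]
    have sMM : SA (graph M) := by
      rw [hM]
      exact SA_mul2 (SA_init sM) (SA_sumF _ _ fun i _ => SA_vphi hH _ hQ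
        (thm_DIF _ _ (SA_graph_coord _) (SA_init (sζ i))))
    have mM : Measurable M := measurable_of_SA sMM
    have fibI : ∀ x : Fin m → ℝ, Integrable fun y : ℝ => ∑ i, vphi (q * Q') (y - ζ i x) := by
      intro x
      exact integrable_finsetSum _ fun i _ => pi.comp_sub_right (ζ i x)
    have fibV : ∀ x : Fin m → ℝ, (∫ y : ℝ, ∑ i, vphi (q * Q') (y - ζ i x)) =
        ((N : ℝ) + 1) * (4 * ((q * Q' : ℕ) : ℝ)) := by
      intro x
      rw [integral_finsetSum _ fun i _ => pi.comp_sub_right (ζ i x)]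
      have : ∀ i, (∫ y : ℝ, vphi (q * Q') (y - ζ i x)) = 4 * ((q * Q' : ℕ) : ℝ) := by
        intro i
        rw [integral_sub_right_eq_self (fun y => vphi (q * Q') y) (ζ i x), pv]
      rw [Finset.sum_congr rfl fun i _ => this i, Finset.sum_const, Finset.card_univ,
        Fintype.card_fin, nsmul_eq_mul]
      push_cast
      ring
    have iMM : Integrable M := by
      refine integrable_of_snoc m M mM.aestronglyMeasurable ?_ ?_
      · refine Eventually.of_forall fun x => ?_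
        simp only [eM]
        exact (fibI x).const_mul _
      · have e : (fun x : Fin m → ℝ => ∫ t : ℝ, ‖M (Fin.snoc x t : Fin (m + 1) → ℝ)‖) =
            fun x => ‖M' x‖ * (((N : ℝ) + 1) * (4 * ((q * Q' : ℕ) : ℝ))) := by
          funext x
          rw [← fibV x, ← integral_const_mul]
          refine integral_congr_ae (Eventually.of_forall fun t => ?_)
          show ‖M (Fin.snoc x t : Fin (m + 1) → ℝ)‖ = ‖M' x‖ * ∑ i, vphi (q * Q') (t - ζ i x)
          rw [eM, norm_mul, Real.norm_of_nonneg (Finset.sum_nonneg fun i _ => vphi_nonneg _ _)]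
        rw [e]
        exact iM.norm.mul_const _
    have vMM : (∫ z, M z) = (∫ x, M' x) * (((N : ℝ) + 1) * (4 * ((q * Q' : ℕ) : ℝ))) := by
      rw [integral_snoc m M iMM, ← integral_mul_const]
      refine integral_congr_ae (Eventually.of_forall fun x => ?_)
      simp only [eM]
      rw [integral_const_mul, fibV x]
    refine ⟨q * Q', M, hQ, sMM, iMM, ?_, ?_⟩
    · rw [vMM]
      refine aM.mul ?_
      have : (((N : ℝ) + 1) * (4 * ((q * Q' : ℕ) : ℝ))) =
          algebraMap ℚ ℝ (((N : ℚ) + 1) * (4 * ((q * Q' : ℕ) : ℚ))) := by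
        simp
      rw [this]
      exact isAlgebraic_algebraMap _
    · refine vsi_ae_of_snoc m _ ?_ ?_
      · exact measurableSet_le ((measurable_of_SA hA).mul ((measurable_of_SA hR).pow_const _)) mM
      · filter_upwards [hx, leM] with x h1 h2
        have h3 : ∀ᵐ t : ℝ, ∀ i, t ≠ ζ i x := by
          rw [eventually_all]
          intro i
          have : volume {t : ℝ | ¬ t ≠ ζ i x} = 0 := by
            have e : {t : ℝ | ¬ t ≠ ζ i x} = {ζ i x} := by
              ext t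
              simp
            rw [e]
            exact Real.volume_singleton
          exact this
        filter_upwards [h3] with t ht
        -- the distance to the centres
        obtain ⟨j, -, hj⟩ := Finset.exists_min_image (Finset.univ : Finset (Fin (N + 1)))
          (fun i => |t - ζ i x|) ⟨0, Finset.mem_univ _⟩
        have hv : 0 < |t - ζ j x| := abs_pos.2 (sub_ne_zero.2 (ht j))
        obtain ⟨h4, h5⟩ := h1 t |t - ζ j x| hv.le fun i => hj i (Finset.mem_univ i)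
        have h6 := vsi_pt q Q' hq hQ' _ _ _ (h x) (S x) (M' x) (hA0 _) (hR1 _) hv h4 h5 h2
        refine h6.trans ?_
        rw [eM, vphi_abs]
        have hM0 : 0 ≤ M' x := by
          refine le_trans ?_ h2
          have := h0 x
          have := R1 x
          positivity
        refine mul_le_mul_of_nonneg_left ?_ hM0
        exact Finset.single_le_sum (f := fun i => vphi (q * Q') (t - ζ i x))
          (fun i _ => vphi_nonneg _ _) (Finset.mem_univ j)

end Pool.Agent.PWD
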