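import Pool.Agent.PWD.StV

/-!
# PWD [VSR]: functions whose germs are of constant type are monotone
-/

set_option autoImplicit false

open MeasureTheory Filter Topology Set

namespace Pool.Agent.PWD

/-- A function which is increasing near every point is increasing. -/
theorem vsr_inc (f : ℝ → ℝ) (a b : ℝ)
    (hr : ∀ y ∈ Ioo a b, ∃ c > y, ∀ t ∈ Ioo y c, f y < f t)
    (hl : ∀ y ∈ Ioo a b, ∃ c < y, ∀ t ∈ Ioo c y, f t < f y) : StrictMonoOn f (Ioo a b) := by
  intro x hx z hz hxz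
  obtain ⟨C, hC⟩ : ∃ C : Set ℝ, C = {t | t ∈ Icc x z ∧ ∀ u, x < u → u ≤ t → f x < f u} := ⟨_, rfl⟩
  have hxC : x ∈ C := by
    rw [hC]
    exact ⟨⟨le_rfl, hxz.le⟩, fun u h1 h2 => absurd h1 (not_lt.2 h2)⟩
  have hbdd : BddAbove C := ⟨z, fun t ht => by
    rw [hC] at ht
    exact ht.1.2⟩
  obtain ⟨s, hs⟩ : ∃ s, s = sSup C := ⟨_, rfl⟩
  have h1 : x ≤ s := by
    rw [hs]
    exact le_csSup hbdd hxC
  have h2 : s ≤ z := by
    rw [hs]
    exact csSup_le ⟨x, hxC⟩ fun t ht => by
      rw [hC] at ht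
      exact ht.1.2
  have hlt : ∀ u, x < u → u < s → f x < f u := by
    intro u h3 h4
    rw [hs] at h4
    obtain ⟨t, ht, h5⟩ := exists_lt_of_lt_csSup ⟨x, hxC⟩ h4
    rw [hC] at ht
    exact ht.2 u h3 h5.le
  have hsI : s ∈ Ioo a b := ⟨lt_of_lt_of_le hx.1 h1, lt_of_le_of_lt h2 hz.2⟩
  have hsC : x < s → f x < f s := by
    intro h3
    obtain ⟨c, hc, h4⟩ := hl s hsI
    obtain ⟨t, ht1, ht2⟩ := exists_between (max_lt hc h3)
    have h5 := h4 t ⟨lt_of_le_of_lt (le_max_left _ _) ht1, ht2⟩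
    exact (hlt t (lt_of_le_of_lt (le_max_right _ _) ht1) ht2).trans h5
  rcases lt_or_eq_of_le h2 with h3 | h3
  · exfalso
    obtain ⟨c, hc, h4⟩ := hr s hsI
    obtain ⟨t, ht1, ht2⟩ := exists_between (lt_min hc h3)
    have h5 : t ∈ C := by
      rw [hC]
      refine ⟨⟨h1.trans ht1.le, (ht2.trans_le (min_le_right _ _)).le⟩, fun u h6 h7 => ?_⟩
      rcases lt_trichotomy u s with h8 | h8 | h8
      · exact hlt u h6 h8
      · rw [h8]
        exact hsC (h8 ▸ h6)
      · have h9 := h4 u ⟨h8, h7.trans_lt (ht2.trans_le (min_le_left _ _))⟩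
        rcases lt_or_eq_of_le h1 with h10 | h10
        · exact (hsC h10).trans h9
        · rw [h10]
          exact h9
    have h6 := le_csSup hbdd h5
    rw [← hs] at h6
    exact absurd h6 (not_le.2 ht1)
  · rw [← h3]
    exact hsC (h3 ▸ hxz)

/-- The strict local minima are countable, so they do not fill an interval. -/
theorem vsr_min (f : ℝ → ℝ) (a b : ℝ) (hab : a < b)
    (hr : ∀ y ∈ Ioo a b, ∃ c > y, ∀ t ∈ Ioo y c, f y < f t)
    (hl : ∀ y ∈ Ioo a b, ∃ c < y, ∀ t ∈ Ioo c y, f y < f t) : False := by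
  obtain ⟨E, hE⟩ : ∃ E : ℕ → Set ℝ, E = fun (n : ℕ) => {y | y ∈ Ioo a b ∧
      ∀ t, t ≠ y → |t - y| < 1 / ((n : ℝ) + 1) → f y < f t} := ⟨_, rfl⟩
  have h1 : Ioo a b ⊆ ⋃ n, E n := by
    intro y hy
    obtain ⟨c, hc, h2⟩ := hr y hy
    obtain ⟨c', hc', h3⟩ := hl y hy
    have h4 : 0 < min (c - y) (y - c') := lt_min (by linarith) (by linarith)
    obtain ⟨n, hn⟩ := exists_nat_one_div_lt h4
    refine mem_iUnion.2 ⟨n, ?_⟩
    rw [hE]
    refine ⟨hy, fun t ht h5 => ?_⟩
    have h6 := h5.trans hn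
    have h7 := lt_min_iff.1 h6
    rcases lt_or_gt_of_ne ht with h8 | h8
    · refine h3 t ⟨?_, h8⟩
      have := (abs_lt.1 h7.2).1
      linarith
    · refine h2 t ⟨h8, ?_⟩
      have := (abs_lt.1 h7.1).2
      linarith
  have h2 : ∀ n, (E n).Countable := by
    intro n
    have hpos : (0 : ℝ) < (n : ℝ) + 1 := by positivity
    refine Set.countable_of_injective_of_countable_image (f := fun y : ℝ => ⌊((n : ℝ) + 1) * y⌋) ?_
      (Set.to_countable _)
    intro y hy y' hy' h3
    by_contra hne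
    have h4 : |y - y'| < 1 / ((n : ℝ) + 1) := by
      have h5 := Int.abs_sub_lt_one_of_floor_eq_floor h3
      rw [← mul_sub, abs_mul, abs_of_pos hpos] at h5
      rw [lt_div_iff₀ hpos]
      linarith
    rw [hE] at hy hy'
    have h5 := hy'.2 y hne h4
    have h6 := hy.2 y' (Ne.symm hne) (by rwa [abs_sub_comm])
    exact lt_asymm h5 h6
  have h3 : (Ioo a b).Countable := (Set.countable_iUnion h2).mono h1
  have h4 := h3.measure_zero volume
  rw [Real.volume_Ioo, ENNReal.ofReal_eq_zero] at h4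
  linarith

/-- A locally constant function is constant. -/
theorem vsr_const (f : ℝ → ℝ) (a b : ℝ)
    (hr : ∀ y ∈ Ioo a b, ∃ c > y, ∀ t ∈ Ioo y c, f t = f y)
    (hl : ∀ y ∈ Ioo a b, ∃ c < y, ∀ t ∈ Ioo c y, f t = f y) : MonotoneOn f (Ioo a b) := by
  -- compare with `f + id`: it is strictly increasing
  have h : ∀ e : ℝ, 0 < e → StrictMonoOn (fun y => f y + e * y) (Ioo a b) := by
    intro e he
    refine vsr_inc _ a b ?_ ?_
    · intro y hy
      obtain ⟨c, hc, h1⟩ := hr y hy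
      refine ⟨c, hc, fun t ht => ?_⟩
      have h2 := h1 t ht
      have h3 := mul_lt_mul_of_pos_left ht.1 he
      linarith
    · intro y hy
      obtain ⟨c, hc, h1⟩ := hl y hy
      refine ⟨c, hc, fun t ht => ?_⟩
      have h2 := h1 t ht
      have h3 := mul_lt_mul_of_pos_left ht.2 he
      linarith
  intro x hx z hz hxz
  refine le_of_forall_pos_le_add fun e he => ?_
  rcases lt_or_eq_of_le hxz with h1 | h1
  · have h2 : 0 < e / (z - x) := div_pos he (by linarith)
    have h3 := h _ h2 hx hz h1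
    simp only at h3
    have h4 : e / (z - x) * z - e / (z - x) * x = e := by
      rw [← mul_sub]
      exact div_mul_cancel₀ _ (by linarith)
    linarith
  · rw [h1]
    linarith

theorem thm_VSR : St_VSR := by
  intro f a b hr hl
  rcases le_or_gt b a with hab | hab
  · left
    intro x hx
    exact absurd (hx.1.trans hx.2) (not_lt.2 hab)
  -- mixed cases with a constant side
  have mid : a < (a + b) / 2 ∧ (a + b) / 2 < b := ⟨by linarith, by linarith⟩
  rcases hr with hr | hr | hr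
  · rcases hl with hl | hl | hl
    · exact (vsr_min f a b hab hr hl).elim
    · exact Or.inl (vsr_inc f a b hr hl).monotoneOn
    · exfalso
      obtain ⟨c, hc, h1⟩ := hl _ mid
      obtain ⟨t, ht1, ht2⟩ := exists_between (max_lt hc mid.1)
      have h2 : t ∈ Ioo a b := ⟨lt_of_le_of_lt (le_max_right _ _) ht1, ht2.trans mid.2⟩
      obtain ⟨c', hc', h3⟩ := hr t h2
      obtain ⟨u, hu1, hu2⟩ := exists_between (lt_min hc' ht2)
      have h4 := h3 u ⟨hu1, hu2.trans_le (min_le_left _ _)⟩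
      have h5 := h1 u ⟨(lt_of_le_of_lt (le_max_left _ _) ht1).trans hu1, hu2.trans_le (min_le_right _ _)⟩
      have h6 := h1 t ⟨lt_of_le_of_lt (le_max_left _ _) ht1, ht2⟩
      rw [h5, h6] at h4
      exact lt_irrefl _ h4
  · rcases hl with hl | hl | hl
    · right
      have h1 := vsr_inc (fun y => - f y) a b
        (fun y hy => by
          obtain ⟨c, hc, h2⟩ := hr y hy
          exact ⟨c, hc, fun t ht => neg_lt_neg (h2 t ht)⟩)
        (fun y hy => by
          obtain ⟨c, hc, h2⟩ := hl y hy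
          exact ⟨c, hc, fun t ht => neg_lt_neg (h2 t ht)⟩)
      intro x hx z hz hxz
      have h2 := h1.monotoneOn hx hz hxz
      exact neg_le_neg_iff.1 h2
    · exfalso
      exact vsr_min (fun y => - f y) a b hab
        (fun y hy => by
          obtain ⟨c, hc, h2⟩ := hr y hy
          exact ⟨c, hc, fun t ht => neg_lt_neg (h2 t ht)⟩)
        (fun y hy => by
          obtain ⟨c, hc, h2⟩ := hl y hy
          exact ⟨c, hc, fun t ht => neg_lt_neg (h2 t ht)⟩)
    · exfalso
      obtain ⟨c, hc, h1⟩ := hl _ mid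
      obtain ⟨t, ht1, ht2⟩ := exists_between (max_lt hc mid.1)
      have h2 : t ∈ Ioo a b := ⟨lt_of_le_of_lt (le_max_right _ _) ht1, ht2.trans mid.2⟩
      obtain ⟨c', hc', h3⟩ := hr t h2
      obtain ⟨u, hu1, hu2⟩ := exists_between (lt_min hc' ht2)
      have h4 := h3 u ⟨hu1, hu2.trans_le (min_le_left _ _)⟩
      have h5 := h1 u ⟨(lt_of_le_of_lt (le_max_left _ _) ht1).trans hu1, hu2.trans_le (min_le_right _ _)⟩
      have h6 := h1 t ⟨lt_of_le_of_lt (le_max_left _ _) ht1, ht2⟩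
      rw [h5, h6] at h4
      exact lt_irrefl _ h4
  · have key : ∀ q : ℝ → ℝ → Prop, (∀ y, ¬ q y y) → (∀ y ∈ Ioo a b, ∃ c < y, ∀ t ∈ Ioo c y, q (f y) (f t)) →
        False := by
      intro q hq hl
      obtain ⟨c, hc, h1⟩ := hr _ mid
      obtain ⟨t, ht1, ht2⟩ := exists_between (lt_min hc mid.2)
      have h2 : t ∈ Ioo a b := ⟨mid.1.trans ht1, ht2.trans_le (min_le_right _ _)⟩
      obtain ⟨c', hc', h3⟩ := hl t h2
      obtain ⟨u, hu1, hu2⟩ := exists_between (max_lt hc' ht1)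
      have h4 := h3 u ⟨lt_of_le_of_lt (le_max_left _ _) hu1, hu2⟩
      have h5 := h1 u ⟨lt_of_le_of_lt (le_max_right _ _) hu1, hu2.trans (ht2.trans_le (min_le_left _ _))⟩
      have h6 := h1 t ⟨ht1, ht2.trans_le (min_le_left _ _)⟩
      rw [h5, h6] at h4
      exact hq _ h4
    rcases hl with hl | hl | hl
    · exact (key (fun u v => u < v) (fun y => lt_irrefl y) hl).elim
    · exact (key (fun u v => v < u) (fun y => lt_irrefl y) hl).elim
    · exact Or.inl (vsr_const f a b hr hl)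

end Pool.Agent.PWD
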