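import Pool.Agent.PWD.StV
import Pool.Agent.PWD.VSR
import Pool.Agent.PWD.LEC
import Pool.Agent.PWD.VIN

/-!
# PWD [VSM]: semialgebraic functions are piecewise monotone in the last variable
-/

set_option autoImplicit false

open MeasureTheory Filter Topology Pool.Agent.PWQ

namespace Pool.Agent.PWD

theorem SA_ex' {κ : Type} (p : (κ → ℝ) → ℝ → Prop)
    (h : SA {w : Option κ → ℝ | p (fun i => w (some i)) (w none)}) :
    SA {w : κ → ℝ | ∃ t, p w t} := SA_ex h

theorem SA_ltv {κ : Type} (p q : κ) : SA {w : κ → ℝ | w p < w q} := by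
  have h := SA_lt (i := κ) (MvPolynomial.X p) (MvPolynomial.X q)
  simpa using h

theorem SA_ltF {κ : Type} {A B : (κ → ℝ) → ℝ} (hA : SA (graph A)) (hB : SA (graph B)) :
    SA {w : κ → ℝ | A w < B w} := by
  have h := SA_posSet (thm_DIF B A hB hA)
  simpa only [sub_pos] using h

theorem SA_graph_pt {ι κ : Type} {F : (Option ι → ℝ) → ℝ} (hF : SA (graph F)) (n : κ) (g : ι → κ) :
    SA (graph (fun w : κ → ℝ => F (pt (w n) (fun i => w (g i))))) := by
  have h := SA_reindex hF (fun o : Option (Option ι) =>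
    o.elim none (fun o' => o'.elim (some n) (fun i => some (g i))) : Option (Option ι) → Option κ)
  have e : ∀ z : Option κ → ℝ, (fun o : Option (Option ι) =>
      z (o.elim none (fun o' => o'.elim (some n) (fun i => some (g i))))) =
      pt (z none) (pt (z (some n)) (fun i => z (some (g i)))) := by
    intro z
    funext o
    rcases o with _ | (_ | i) <;> rfl
  simp only [e] at h
  exact h

/-- The infimum of the fibres, when they are finite. -/
theorem SA_sInf_fin {ι : Type} {B : Set (Option ι → ℝ)} (hB : SA B)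
    (hfin : ∀ x : ι → ℝ, {y : ℝ | pt y x ∈ B}.Finite) :
    SA (graph fun x => sInf {y | pt y x ∈ B}) := by
  have h1 : SA {w : Option (Option ι) → ℝ | pt (w none) (fun i => w (some (some i))) ∈ B} :=
    SA_fib hB none (fun i => some (some i))
  have h2 := SA_all' (κ := Option ι) (fun w t => t < w none → ¬ pt t (fun i => w (some i)) ∈ B)
    (SA_imp (SA_ltv none (some none)) (SA_not h1))
  have h3 := SA_all' (κ := Option ι) (fun w t => ¬ pt t (fun i => w (some i)) ∈ B) (SA_not h1)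
  have h4 : SA {z : Option ι → ℝ | z none = 0} := by
    have := SA_zero (MvPolynomial.X none : MvPolynomial (Option ι) ℚ)
    simpa only [MvPolynomial.aeval_X] using this
  have h5 := SA_or (SA_and hB h2) (SA_and h3 h4)
  refine (congrArg SA ?_).mp h5
  ext z
  obtain ⟨x, hx⟩ : ∃ x : ι → ℝ, x = fun i => z (some i) := ⟨_, rfl⟩
  have hz : z = pt (z none) x := by
    funext o
    rw [hx]
    cases o <;> rfl
  constructor
  · rintro (⟨h6, h7⟩ | ⟨h6, h7⟩)
    · show z none = sInf {y | pt y (fun i => z (some i)) ∈ B}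
      rw [← hx]
      have h8 : z none ∈ {y | pt y x ∈ B} := by
        show pt (z none) x ∈ B
        rw [← hz]
        exact h6
      have h9 : z none ∈ lowerBounds {y | pt y x ∈ B} := by
        intro t ht
        by_contra hc
        refine h7 t (not_le.1 hc) ?_
        rw [← hx]
        exact ht
      exact ((IsLeast.csInf_eq ⟨h8, h9⟩)).symm
    · show z none = sInf {y | pt y (fun i => z (some i)) ∈ B}
      have h8 : {y | pt y (fun i => z (some i)) ∈ B} = ∅ := by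
        ext t
        exact iff_of_false (h6 t) (Set.notMem_empty t)
      rw [h8, Real.sInf_empty]
      exact h7
  · intro h6
    have h7 : z none = sInf {y | pt y (fun i => z (some i)) ∈ B} := h6
    rw [← hx] at h7
    rcases Set.eq_empty_or_nonempty {y | pt y x ∈ B} with h8 | h8
    · right
      refine ⟨fun t ht => ?_, ?_⟩
      · rw [← hx] at ht
        have : t ∈ {y | pt y x ∈ B} := ht
        rw [h8] at this
        exact this
      · show z none = 0
        rw [h7, h8, Real.sInf_empty]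
    · left
      have h9 := h8.csInf_mem (hfin x)
      rw [← h7] at h9
      refine ⟨?_, fun t ht ht' => ?_⟩
      · rw [hz]
        exact h9
      · rw [← hx] at ht'
        have h10 := csInf_le (hfin x).bddBelow (show t ∈ {y | pt y x ∈ B} from ht')
        rw [← h7] at h10
        exact absurd ht (not_lt.2 h10)

/-- Enumeration of finite fibres by semialgebraic functions. -/
theorem vs_enum {ι : Type} : ∀ (n : ℕ) (B : Set (Option ι → ℝ)), SA B →
    (∀ x : ι → ℝ, {y : ℝ | pt y x ∈ B}.Finite ∧ {y : ℝ | pt y x ∈ B}.ncard ≤ n) →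
    ∃ ξ : Fin n → (ι → ℝ) → ℝ, (∀ i, SA (graph (ξ i))) ∧
      ∀ x y, pt y x ∈ B → ∃ i, y = ξ i x := by
  intro n
  induction n with
  | zero =>
    intro B _ h
    refine ⟨fun i => i.elim0, fun i => i.elim0, fun x y hy => ?_⟩
    obtain ⟨h1, h2⟩ := h x
    rw [Nat.le_zero, Set.ncard_eq_zero h1] at h2
    have : y ∈ {y | pt y x ∈ B} := hy
    rw [h2] at this
    exact absurd this (Set.notMem_empty y)
  | succ n ih =>
    intro B hB h
    have h1 := SA_sInf_fin hB fun x => (h x).1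
    have h2 : SA {z : Option ι → ℝ | z ∈ B ∧ z ∉ graph fun x => sInf {y | pt y x ∈ B}} :=
      SA_and hB (SA_not h1)
    obtain ⟨ξ, hξ, hξ'⟩ := ih _ h2 (fun x => by
      have e : {y : ℝ | pt y x ∈ {z : Option ι → ℝ | z ∈ B ∧ z ∉ graph fun x => sInf {y | pt y x ∈ B}}} =
          {y | pt y x ∈ B} \ {sInf {y | pt y x ∈ B}} := by
        ext y
        rfl
      rw [e]
      refine ⟨(h x).1.subset Set.sdiff_subset, ?_⟩
      rcases Set.eq_empty_or_nonempty {y | pt y x ∈ B} with h8 | h8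
      · rw [h8]
        simp
      · have h9 := h8.csInf_mem (h x).1
        have h10 := Set.ncard_sdiff_singleton_add_one h9 (h x).1
        have h11 := (h x).2
        omega)
    refine ⟨Fin.cons (fun x => sInf {y | pt y x ∈ B}) ξ, fun i => ?_, fun x y hy => ?_⟩
    · refine Fin.cases ?_ (fun i => ?_) i
      · simpa using h1
      · simpa using hξ i
    · by_cases h3 : y = sInf {y | pt y x ∈ B}
      · exact ⟨0, by simpa using h3⟩
      · obtain ⟨i, hi⟩ := hξ' x y ⟨hy, h3⟩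
        exact ⟨i.succ, by simpa using hi⟩

/-- The fibres of a semialgebraic set are constant on the intervals which avoid finitely many
semialgebraic functions. -/
theorem vs_set {ι : Type} {S : Set (Option ι → ℝ)} (hS : SA S) :
    ∃ (N : ℕ) (ξ : Fin N → (ι → ℝ) → ℝ), (∀ i, SA (graph (ξ i))) ∧
      ∀ (x : ι → ℝ) (a b : ℝ), (∀ i, ξ i x ∉ Set.Ioo a b) →
        ∀ y ∈ Set.Ioo a b, ∀ y' ∈ Set.Ioo a b, (pt y x ∈ S ↔ pt y' x ∈ S) := by
  classical
  obtain ⟨P, hP⟩ := SA_mem_iff hS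
  obtain ⟨B, hB⟩ : ∃ B : Set (Option ι → ℝ), B = {z | ∃ p ∈ P, z ∈
      {z : Option ι → ℝ | MvPolynomial.aeval z p = 0 ∧
        ∃ t : ℝ, MvPolynomial.aeval (pt t (fun i => z (some i))) p ≠ 0}} := ⟨_, rfl⟩
  have hBS : SA B := by
    rw [hB]
    refine SA_bex P _ fun p _ => SA_and (SA_zero p) (SA_ex' (κ := Option ι)
      (fun w t => MvPolynomial.aeval (pt t (fun i => w (some i))) p ≠ 0) (SA_not ?_))
    exact SA_fib (SA_zero p) none (fun i => some (some i))
  have hroot : ∀ (x : ι → ℝ) (p : MvPolynomial (Option ι) ℚ), p ∈ P →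
      spR x (MvPolynomial.optionEquivLeft ℚ ι p) ≠ 0 →
      ∀ y, (spR x (MvPolynomial.optionEquivLeft ℚ ι p)).eval y = 0 → pt y x ∈ B := by
    intro x p hp h0 y hy
    rw [hB]
    refine ⟨p, hp, by rw [aeval_pt]; exact hy, ?_⟩
    obtain ⟨t, ht⟩ : ∃ t, (spR x (MvPolynomial.optionEquivLeft ℚ ι p)).eval t ≠ 0 := by
      by_contra hc
      push Not at hc
      exact h0 (Polynomial.funext fun t => by rw [hc t, Polynomial.eval_zero])
    refine ⟨t, ?_⟩
    have : (fun i => pt y x (some i)) = x := rfl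
    rw [this, aeval_pt]
    exact ht
  obtain ⟨n, hn⟩ : ∃ n, n = ∑ p ∈ P, (MvPolynomial.optionEquivLeft ℚ ι p).natDegree := ⟨_, rfl⟩
  have hsub : ∀ x : ι → ℝ, {y : ℝ | pt y x ∈ B} ⊆ ((P.biUnion
      (fun p => (spR x (MvPolynomial.optionEquivLeft ℚ ι p)).roots.toFinset) : Finset ℝ) : Set ℝ) := by
    intro x y hy
    have hy' : pt y x ∈ B := hy
    rw [hB] at hy'
    obtain ⟨p, hp, h1, t, ht⟩ := hy'
    have h2 : (fun i => pt y x (some i)) = x := rfl
    rw [h2, aeval_pt] at ht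
    rw [aeval_pt] at h1
    have h3 : spR x (MvPolynomial.optionEquivLeft ℚ ι p) ≠ 0 := by
      intro h4
      rw [h4, Polynomial.eval_zero] at ht
      exact ht rfl
    rw [Finset.mem_coe, Finset.mem_biUnion]
    exact ⟨p, hp, by rw [Multiset.mem_toFinset, Polynomial.mem_roots h3]; exact h1⟩
  obtain ⟨ξ, h1, h2⟩ := vs_enum n B hBS (fun x => by
    have h3 := hsub x
    refine ⟨(Finset.finite_toSet _).subset h3, (Set.ncard_le_ncard h3 (Finset.finite_toSet _)).trans ?_⟩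
    rw [Set.ncard_coe_finset, hn]
    refine Finset.card_biUnion_le.trans (Finset.sum_le_sum fun p _ => ?_)
    refine (Multiset.toFinset_card_le _).trans ((Polynomial.card_roots' _).trans ?_)
    unfold spR
    exact Polynomial.natDegree_map_le)
  refine ⟨n, ξ, h1, fun x a b hab y hy y' hy' => hP _ _ fun p hp => ?_⟩
  rw [aeval_pt, aeval_pt]
  by_cases h0 : spR x (MvPolynomial.optionEquivLeft ℚ ι p) = 0
  · rw [h0]
    simp
  · apply sign_eq_of_no_root
    intro v hv hv0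
    obtain ⟨i, hi⟩ := h2 x v (hroot x p hp h0 v hv0)
    refine hab i ?_
    rw [← hi]
    rcases hv with ⟨h3, h4⟩ | ⟨h3, h4⟩
    · exact ⟨lt_of_lt_of_le hy.1 h3, lt_of_le_of_lt h4 hy'.2⟩
    · exact ⟨lt_of_lt_of_le hy'.1 h3, lt_of_le_of_lt h4 hy.2⟩

theorem vs_gap_right {N : ℕ} (c : Fin N → ℝ) (y : ℝ) : ∃ b > y, ∀ i, c i ∉ Set.Ioo y b := by
  have h : ∀ᶠ b in 𝓝[>] y, ∀ i, c i ∉ Set.Ioo y b := by
    rw [eventually_all]
    intro i
    rcases le_or_gt (c i) y with h1 | h1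
    · exact Eventually.of_forall fun b hb => absurd hb.1 (not_lt.2 h1)
    · have h2 : ∀ᶠ b in 𝓝[>] y, b < c i := Ioo_mem_nhdsGT h1 |> mem_of_superset <| fun b hb => hb.2
      filter_upwards [h2] with b hb hb'
      exact absurd hb'.2 (not_lt.2 hb.le)
  obtain ⟨b, h1, h2⟩ := (h.and self_mem_nhdsWithin).exists
  exact ⟨b, h2, h1⟩

theorem vs_gap_left {N : ℕ} (c : Fin N → ℝ) (y : ℝ) : ∃ a < y, ∀ i, c i ∉ Set.Ioo a y := by
  obtain ⟨b, hb, h⟩ := vs_gap_right (fun i => - c i) (-y)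
  refine ⟨-b, by linarith, fun i hi => h i ⟨by linarith [hi.2], by linarith [hi.1]⟩⟩

theorem vs_germ_right {ι : Type} {S : Set (Option ι → ℝ)} (hS : SA S) (x : ι → ℝ) (y : ℝ) :
    (∃ c > y, ∀ t ∈ Set.Ioo y c, pt t x ∈ S) ∨ (∃ c > y, ∀ t ∈ Set.Ioo y c, pt t x ∉ S) := by
  obtain ⟨N, ξ, -, h⟩ := vs_set hS
  obtain ⟨b, hb, h1⟩ := vs_gap_right (fun i => ξ i x) y
  have h2 := h x y b h1
  obtain ⟨u, hu⟩ := Set.nonempty_Ioo.2 hb
  by_cases h3 : pt u x ∈ S
  · exact Or.inl ⟨b, hb, fun t ht => (h2 u hu t ht).1 h3⟩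
  · exact Or.inr ⟨b, hb, fun t ht h4 => h3 ((h2 u hu t ht).2 h4)⟩

theorem vs_germ_left {ι : Type} {S : Set (Option ι → ℝ)} (hS : SA S) (x : ι → ℝ) (y : ℝ) :
    (∃ c < y, ∀ t ∈ Set.Ioo c y, pt t x ∈ S) ∨ (∃ c < y, ∀ t ∈ Set.Ioo c y, pt t x ∉ S) := by
  obtain ⟨N, ξ, -, h⟩ := vs_set hS
  obtain ⟨b, hb, h1⟩ := vs_gap_left (fun i => ξ i x) y
  have h2 := h x b y h1
  obtain ⟨u, hu⟩ := Set.nonempty_Ioo.2 hb
  by_cases h3 : pt u x ∈ S
  · exact Or.inl ⟨b, hb, fun t ht => (h2 u hu t ht).1 h3⟩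
  · exact Or.inr ⟨b, hb, fun t ht h4 => h3 ((h2 u hu t ht).2 h4)⟩

/-- the points with a given germ on the right -/
theorem SA_germ_right {ι : Type} {T : Set (Option (Option ι) → ℝ)} (hT : SA T) :
    SA {z : Option ι → ℝ | ∃ c, z none < c ∧ ∀ t, z none < t → t < c → pt t z ∈ T} := by
  refine SA_ex' (κ := Option ι) (fun z c => z none < c ∧ ∀ t, z none < t → t < c → pt t z ∈ T)
    (SA_and (SA_ltv (some none) none) ?_)
  refine SA_all' (κ := Option (Option ι))
    (fun w t => w (some none) < t → t < w none → pt t (fun i => w (some i)) ∈ T) ?_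
  exact SA_imp (SA_ltv (some (some none)) none) (SA_imp (SA_ltv none (some none))
    (SA_fib hT none (fun i => some (some i))))

theorem SA_germ_left {ι : Type} {T : Set (Option (Option ι) → ℝ)} (hT : SA T) :
    SA {z : Option ι → ℝ | ∃ c, c < z none ∧ ∀ t, c < t → t < z none → pt t z ∈ T} := by
  refine SA_ex' (κ := Option ι) (fun z c => c < z none ∧ ∀ t, c < t → t < z none → pt t z ∈ T)
    (SA_and (SA_ltv none (some none)) ?_)
  refine SA_all' (κ := Option (Option ι))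
    (fun w t => w none < t → t < w (some none) → pt t (fun i => w (some i)) ∈ T) ?_
  exact SA_imp (SA_ltv (some none) none) (SA_imp (SA_ltv none (some (some none)))
    (SA_fib hT none (fun i => some (some i))))

theorem vs_append {ι : Type} {N N' : ℕ} (ξ : Fin N → (ι → ℝ) → ℝ) (ξ' : Fin N' → (ι → ℝ) → ℝ)
    (h : ∀ i, SA (graph (ξ i))) (h' : ∀ i, SA (graph (ξ' i))) :
    ∃ ζ : Fin (N + N') → (ι → ℝ) → ℝ, (∀ i, SA (graph (ζ i))) ∧
      (∀ i, ∃ j, ζ j = ξ i) ∧ ∀ i, ∃ j, ζ j = ξ' i := by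
  refine ⟨Fin.append ξ ξ', fun i => ?_, fun i => ⟨Fin.castAdd _ i, Fin.append_left _ _ i⟩,
    fun i => ⟨Fin.natAdd _ i, Fin.append_right _ _ i⟩⟩
  refine Fin.addCases (fun i => ?_) (fun i => ?_) i
  · rw [Fin.append_left]
    exact h i
  · rw [Fin.append_right]
    exact h' i

theorem thm_VSM : St_VSM := by
  intro ι F hF
  -- the two comparison sets
  have hT1 : SA {w : Option (Option ι) → ℝ |
      F (fun o => w (some o)) < F (pt (w none) (fun i => w (some (some i))))} :=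
    SA_ltF (SA_reindex hF (Option.map some)) (SA_graph_pt hF none (fun i => some (some i)))
  have hT2 : SA {w : Option (Option ι) → ℝ |
      F (pt (w none) (fun i => w (some (some i)))) < F (fun o => w (some o))} :=
    SA_ltF (SA_graph_pt hF none (fun i => some (some i))) (SA_reindex hF (Option.map some))
  have m1 : ∀ (x : ι → ℝ) (y t : ℝ), pt t (pt y x) ∈ {w : Option (Option ι) → ℝ |
      F (fun o => w (some o)) < F (pt (w none) (fun i => w (some (some i))))} ↔
      F (pt y x) < F (pt t x) := fun x y t => Iff.rfl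
  have m2 : ∀ (x : ι → ℝ) (y t : ℝ), pt t (pt y x) ∈ {w : Option (Option ι) → ℝ |
      F (pt (w none) (fun i => w (some (some i)))) < F (fun o => w (some o))} ↔
      F (pt t x) < F (pt y x) := fun x y t => Iff.rfl
  obtain ⟨N1, ξ1, a1, b1⟩ := vs_set (SA_germ_right hT1)
  obtain ⟨N2, ξ2, a2, b2⟩ := vs_set (SA_germ_right hT2)
  obtain ⟨N3, ξ3, a3, b3⟩ := vs_set (SA_germ_left hT1)
  obtain ⟨N4, ξ4, a4, b4⟩ := vs_set (SA_germ_left hT2)
  obtain ⟨ζ1, c1, c2, c3⟩ := vs_append ξ1 ξ2 a1 a2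
  obtain ⟨ζ2, d1, d2, d3⟩ := vs_append ξ3 ξ4 a3 a4
  obtain ⟨ζ, e1, e2, e3⟩ := vs_append ζ1 ζ2 c1 d1
  refine ⟨_, ζ, e1, fun x a b hab => ?_⟩
  have g1 : ∀ i, ξ1 i x ∉ Set.Ioo a b := fun i => by
    obtain ⟨j, hj⟩ := c2 i
    obtain ⟨k, hk⟩ := e2 j
    rw [← hj, ← hk]
    exact hab k
  have g2 : ∀ i, ξ2 i x ∉ Set.Ioo a b := fun i => by
    obtain ⟨j, hj⟩ := c3 i
    obtain ⟨k, hk⟩ := e2 j
    rw [← hj, ← hk]
    exact hab k
  have g3 : ∀ i, ξ3 i x ∉ Set.Ioo a b := fun i => by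
    obtain ⟨j, hj⟩ := d2 i
    obtain ⟨k, hk⟩ := e3 j
    rw [← hj, ← hk]
    exact hab k
  have g4 : ∀ i, ξ4 i x ∉ Set.Ioo a b := fun i => by
    obtain ⟨j, hj⟩ := d3 i
    obtain ⟨k, hk⟩ := e3 j
    rw [← hj, ← hk]
    exact hab k
  rcases le_or_gt b a with hba | hba
  · left
    intro y hy
    exact absurd (hy.1.trans hy.2) (not_lt.2 hba)
  obtain ⟨u, hu⟩ := Set.nonempty_Ioo.2 hba
  have s1 := b1 x a b g1 u hu
  have s2 := b2 x a b g2 u hu
  have s3 := b3 x a b g3 u hu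
  have s4 := b4 x a b g4 u hu
  refine thm_VSR (fun y => F (pt y x)) a b ?_ ?_
  · by_cases h1 : ∃ c, u < c ∧ ∀ t, u < t → t < c → F (pt u x) < F (pt t x)
    · left
      intro y hy
      obtain ⟨c, hc, h2⟩ := (s1 y hy).1 h1
      exact ⟨c, hc, fun t ht => h2 t ht.1 ht.2⟩
    · by_cases h2 : ∃ c, u < c ∧ ∀ t, u < t → t < c → F (pt t x) < F (pt u x)
      · right
        left
        intro y hy
        obtain ⟨c, hc, h3⟩ := (s2 y hy).1 h2
        exact ⟨c, hc, fun t ht => h3 t ht.1 ht.2⟩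
      · right
        right
        intro y hy
        have h3 : ¬ ∃ c, y < c ∧ ∀ t, y < t → t < c → F (pt y x) < F (pt t x) :=
          fun h => h1 ((s1 y hy).2 h)
        have h4 : ¬ ∃ c, y < c ∧ ∀ t, y < t → t < c → F (pt t x) < F (pt y x) :=
          fun h => h2 ((s2 y hy).2 h)
        rcases vs_germ_right hT1 (pt y x) y with ⟨c, hc, h5⟩ | ⟨c, hc, h5⟩
        · exact absurd ⟨c, hc, fun t ht ht' => h5 t ⟨ht, ht'⟩⟩ h3
        rcases vs_germ_right hT2 (pt y x) y with ⟨c', hc', h6⟩ | ⟨c', hc', h6⟩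
        · exact absurd ⟨c', hc', fun t ht ht' => h6 t ⟨ht, ht'⟩⟩ h4
        refine ⟨min c c', lt_min hc hc', fun t ht => le_antisymm ?_ ?_⟩
        · exact not_lt.1 (h5 t ⟨ht.1, ht.2.trans_le (min_le_left _ _)⟩)
        · exact not_lt.1 (h6 t ⟨ht.1, ht.2.trans_le (min_le_right _ _)⟩)
  · by_cases h1 : ∃ c, c < u ∧ ∀ t, c < t → t < u → F (pt u x) < F (pt t x)
    · left
      intro y hy
      obtain ⟨c, hc, h2⟩ := (s3 y hy).1 h1
      exact ⟨c, hc, fun t ht => h2 t ht.1 ht.2⟩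
    · by_cases h2 : ∃ c, c < u ∧ ∀ t, c < t → t < u → F (pt t x) < F (pt u x)
      · right
        left
        intro y hy
        obtain ⟨c, hc, h3⟩ := (s4 y hy).1 h2
        exact ⟨c, hc, fun t ht => h3 t ht.1 ht.2⟩
      · right
        right
        intro y hy
        have h3 : ¬ ∃ c, c < y ∧ ∀ t, c < t → t < y → F (pt y x) < F (pt t x) :=
          fun h => h1 ((s3 y hy).2 h)
        have h4 : ¬ ∃ c, c < y ∧ ∀ t, c < t → t < y → F (pt t x) < F (pt y x) :=
          fun h => h2 ((s4 y hy).2 h)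
        rcases vs_germ_left hT1 (pt y x) y with ⟨c, hc, h5⟩ | ⟨c, hc, h5⟩
        · exact absurd ⟨c, hc, fun t ht ht' => h5 t ⟨ht, ht'⟩⟩ h3
        rcases vs_germ_left hT2 (pt y x) y with ⟨c', hc', h6⟩ | ⟨c', hc', h6⟩
        · exact absurd ⟨c', hc', fun t ht ht' => h6 t ⟨ht, ht'⟩⟩ h4
        refine ⟨max c c', max_lt hc hc', fun t ht => le_antisymm ?_ ?_⟩
        · exact not_lt.1 (h5 t ⟨lt_of_le_of_lt (le_max_left _ _) ht.1, ht.2⟩)
        · exact not_lt.1 (h6 t ⟨lt_of_le_of_lt (le_max_right _ _) ht.1, ht.2⟩)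

end Pool.Agent.PWD
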