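import Pool.Agent.PWD.VSM
import Pool.Agent.PWD.MRG

/-!
# PWD [VSS]: semialgebraic tools for the majorant
-/

set_option autoImplicit false

open MeasureTheory Filter Topology Pool.Agent.PWQ

namespace Pool.Agent.PWD

theorem SA_comp_set {ι κ : Type} [Finite κ] (B : κ → (ι → ℝ) → ℝ) (hB : ∀ k, SA (graph (B k)))
    {S : Set (κ → ℝ)} (hS : SA S) : SA {x : ι → ℝ | (fun k => B k x) ∈ S} :=
  thm_CMP B hB {w : ι ⊕ κ → ℝ | (fun k => w (Sum.inr k)) ∈ S} (SA_reindex hS Sum.inr)

theorem SA_graph_coord {κ : Type} (p : κ) : SA (graph fun w : κ → ℝ => w p) := by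
  have h := SA_eq (i := Option κ) (MvPolynomial.X none) (MvPolynomial.X (some p))
  simpa [graph] using h

theorem SA_comp {ι κ : Type} [Finite κ] {φ : (κ → ℝ) → ℝ} (hφ : SA (graph φ))
    (B : κ → (ι → ℝ) → ℝ) (hB : ∀ k, SA (graph (B k))) :
    SA (graph fun x => φ (fun k => B k x)) := by
  have h := SA_comp_set (ι := Option ι) (κ := Option κ)
    (fun o => o.elim (fun z => z none) (fun k z => B k (fun i => z (some i))))
    (fun o => by
      cases o with
      | none => exact SA_graph_coord none
      | some k => exact SA_graph_comp (hB k) some) hφ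
  exact h

theorem SA_leF {κ : Type} {A B : (κ → ℝ) → ℝ} (hA : SA (graph A)) (hB : SA (graph B)) :
    SA {w : κ → ℝ | A w ≤ B w} := by
  have h := SA_not (SA_ltF hB hA)
  simpa using h

theorem SA_eqF {κ : Type} {A B : (κ → ℝ) → ℝ} (hA : SA (graph A)) (hB : SA (graph B)) :
    SA {w : κ → ℝ | A w = B w} := by
  have h := SA_and (SA_leF hA hB) (SA_leF hB hA)
  simpa [le_antisymm_iff] using h

theorem SA_powF {ι : Type} {A : (ι → ℝ) → ℝ} (hA : SA (graph A)) (n : ℕ) :
    SA (graph fun x => A x ^ n) := by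
  induction n with
  | zero =>
    have h := SA_graph_rat (ι := ι) 1
    simpa using h
  | succ n ih =>
    have h := SA_mul2 ih hA
    simpa only [pow_succ] using h

theorem SA_sumF {ι α : Type} (s : Finset α) (f : α → (ι → ℝ) → ℝ) (hf : ∀ i ∈ s, SA (graph (f i))) :
    SA (graph fun x => ∑ i ∈ s, f i x) := by
  classical
  induction s using Finset.induction_on with
  | empty => simpa using SA_graph_zero (ι := ι)
  | insert a s ha ih =>
    have h := SA_sum2 (hf a (Finset.mem_insert_self _ _))
      (ih fun i hi => hf i (Finset.mem_insert_of_mem hi))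
    simpa only [Finset.sum_insert ha] using h

theorem SA_divF {ι : Type} {A B : (ι → ℝ) → ℝ} (hA : SA (graph A)) (hB : SA (graph B)) :
    SA (graph fun x => A x / B x) := by
  have hc : ∀ p : Option Bool, SA (graph fun w : Option Bool → ℝ => w p) := fun p => SA_graph_coord p
  have h0 : SA (graph fun _ : Option Bool → ℝ => (0 : ℝ)) := SA_graph_zero
  have h1 : SA (graph fun u : Bool → ℝ => u true / u false) := by
    have h2 := SA_or (SA_and (SA_not (SA_eqF (hc (some false)) h0))
      (SA_eqF (SA_mul2 (hc none) (hc (some false))) (hc (some true))))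
      (SA_and (SA_eqF (hc (some false)) h0) (SA_eqF (hc none) h0))
    refine (congrArg SA ?_).mp h2
    ext z
    show (¬ z (some false) = 0 ∧ z none * z (some false) = z (some true)) ∨
      (z (some false) = 0 ∧ z none = 0) ↔ z none = z (some true) / z (some false)
    by_cases hz : z (some false) = 0
    · simp [hz]
    · simp only [hz, not_false_eq_true, true_and, false_and, or_false]
      rw [eq_div_iff hz]
  have h := SA_comp h1 (fun b : Bool => if b then A else B) (fun b => by
    cases b
    · simpa using hB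
    · simpa using hA)
  simpa using h

theorem SA_absF {ι : Type} {A : (ι → ℝ) → ℝ} (hA : SA (graph A)) :
    SA (graph fun x => |A x|) := by
  classical
  have h0 : SA (graph fun _ : ι → ℝ => (0 : ℝ)) := SA_graph_zero
  have h := thm_CAS A (fun x => 0 - A x) {x | 0 ≤ A x} hA (thm_DIF _ _ h0 hA) (SA_leF h0 hA)
  refine (congrArg (fun f => SA (graph f)) ?_).mp h
  funext x
  by_cases hx : 0 ≤ A x
  · simp [hx, abs_of_nonneg hx]
  · simp [hx, abs_of_neg (not_le.1 hx)]

/-- The supremum of the fibres of a semialgebraic set. -/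
theorem SA_sSup {ι : Type} {T : Set (Option ι → ℝ)} (hT : SA T) :
    SA (graph fun x => sSup {t | pt t x ∈ T}) := by
  classical
  have f1 : SA {w : Option (Option ι) → ℝ | pt (w none) (fun i => w (some (some i))) ∈ T} :=
    SA_fib hT none (fun i => some (some i))
  have f2 : SA {w : Option (Option (Option ι)) → ℝ |
      pt (w none) (fun i => w (some (some (some i)))) ∈ T} :=
    SA_fib hT none (fun i => some (some (some i)))
  have hne := SA_ex' (κ := Option ι) (fun z t => pt t (fun i => z (some i)) ∈ T) f1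
  have hub : SA {w : Option (Option ι) → ℝ | ∀ t, pt t (fun i => w (some (some i))) ∈ T →
      t ≤ w none} :=
    SA_all' (κ := Option (Option ι)) (fun w t => pt t (fun i => w (some (some i))) ∈ T → t ≤ w none)
      (SA_imp f2 (SA_leF (SA_graph_coord none) (SA_graph_coord (some none))))
  have hbd := SA_ex' (κ := Option ι)
    (fun z u => ∀ t, pt t (fun i => z (some i)) ∈ T → t ≤ u) hub
  have hl1 := SA_all' (κ := Option ι) (fun z t => pt t (fun i => z (some i)) ∈ T → t ≤ z none)
    (SA_imp f1 (SA_leF (SA_graph_coord none) (SA_graph_coord (some none))))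
  have hl2 := SA_all' (κ := Option ι)
    (fun z u => (∀ t, pt t (fun i => z (some i)) ∈ T → t ≤ u) → z none ≤ u)
    (SA_imp hub (SA_leF (SA_graph_coord (some none)) (SA_graph_coord none)))
  have h0 := SA_eqF (SA_graph_coord (none : Option ι)) SA_graph_zero
  have h := SA_or (SA_and (SA_and hne hbd) (SA_and hl1 hl2)) (SA_and (SA_not (SA_and hne hbd)) h0)
  refine (congrArg SA ?_).mp h
  ext z
  obtain ⟨W, hW⟩ : ∃ W : Set ℝ, W = {t | pt t (fun i => z (some i)) ∈ T} := ⟨_, rfl⟩
  have e1 : (∃ t, pt t (fun i => z (some i)) ∈ T) ↔ W.Nonempty := by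
    rw [hW]
    rfl
  have e2 : (∃ u, ∀ t, pt t (fun i => z (some i)) ∈ T → t ≤ u) ↔ BddAbove W := by
    rw [hW]
    constructor
    · rintro ⟨u, hu⟩
      exact ⟨u, fun t ht => hu t ht⟩
    · rintro ⟨u, hu⟩
      exact ⟨u, fun t ht => hu ht⟩
  have e3 : ((∀ t, pt t (fun i => z (some i)) ∈ T → t ≤ z none) ∧
      ∀ u, (∀ t, pt t (fun i => z (some i)) ∈ T → t ≤ u) → z none ≤ u) ↔ IsLUB W (z none) := by
    rw [hW]
    constructor
    · rintro ⟨h1, h2⟩
      exact ⟨fun t ht => h1 t ht, fun u hu => h2 u fun t ht => hu ht⟩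
    · rintro ⟨h1, h2⟩
      exact ⟨fun t ht => h1 ht, fun u hu => h2 fun t ht => hu t ht⟩
  show (((∃ t, pt t (fun i => z (some i)) ∈ T) ∧ (∃ u, ∀ t, pt t (fun i => z (some i)) ∈ T → t ≤ u)) ∧
      ((∀ t, pt t (fun i => z (some i)) ∈ T → t ≤ z none) ∧
      ∀ u, (∀ t, pt t (fun i => z (some i)) ∈ T → t ≤ u) → z none ≤ u)) ∨
      (¬ ((∃ t, pt t (fun i => z (some i)) ∈ T) ∧
        (∃ u, ∀ t, pt t (fun i => z (some i)) ∈ T → t ≤ u)) ∧ z none = 0) ↔
      z none = sSup {t | pt t (fun i => z (some i)) ∈ T}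
  rw [e1, e2, e3, ← hW]
  by_cases hb : W.Nonempty ∧ BddAbove W
  · constructor
    · rintro (⟨-, h1⟩ | ⟨h1, -⟩)
      · exact (h1.csSup_eq hb.1).symm
      · exact absurd hb h1
    · intro h1
      left
      refine ⟨hb, ?_⟩
      rw [h1]
      exact isLUB_csSup hb.1 hb.2
  · have h2 : sSup W = 0 := by
      rcases Set.eq_empty_or_nonempty W with h3 | h3
      · rw [h3, Real.sSup_empty]
      · exact Real.sSup_of_not_bddAbove fun h4 => hb ⟨h3, h4⟩
    rw [h2]
    constructor
    · rintro (⟨h1, -⟩ | ⟨-, h1⟩)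
      · exact absurd h1 hb
      · exact h1
    · intro h1
      exact Or.inr ⟨hb, h1⟩

/-- the values of `Φ (v, y, x)` for `v` at most the distance of `y` to the centres -/
def vsT {ι : Type} {N : ℕ} (ζ : Fin N → (ι → ℝ) → ℝ) (Φ : (Option (Option ι) → ℝ) → ℝ)
    (x : ι → ℝ) : Set ℝ :=
  {t | ∃ y v : ℝ, 0 ≤ v ∧ (∀ i, v ≤ |y - ζ i x|) ∧ t = Φ (pt v (pt y x))}

theorem SA_vsT {ι : Type} {N : ℕ} (ζ : Fin N → (ι → ℝ) → ℝ) (hζ : ∀ i, SA (graph (ζ i)))
    (Φ : (Option (Option ι) → ℝ) → ℝ) (hΦ : SA (graph Φ)) :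
    SA (graph fun x => sSup (vsT ζ Φ x)) := by
  have h1 : SA {w : Option (Option (Option ι)) → ℝ | 0 ≤ w none ∧
      (∀ i ∈ (Finset.univ : Finset (Fin N)), w ∈ {w : Option (Option (Option ι)) → ℝ |
        w none ≤ |w (some none) - ζ i (fun k => w (some (some (some k))))|}) ∧
      w (some (some none)) = Φ (fun o => w (o.elim none fun o' => o'.elim (some none)
        fun k => some (some (some k))))} := by
    refine SA_and (SA_leF SA_graph_zero (SA_graph_coord none)) (SA_and ?_ ?_)
    · refine SA_ball _ _ fun i _ => SA_leF (SA_graph_coord none) (SA_absF (thm_DIF _ _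
        (SA_graph_coord (some none)) (SA_graph_comp (hζ i) _)))
    · exact SA_eqF (SA_graph_coord _) (SA_graph_comp hΦ _)
  have h2 := SA_ex' (κ := Option (Option ι)) (fun w v => 0 ≤ v ∧
      (∀ i ∈ (Finset.univ : Finset (Fin N)), v ≤ |w none - ζ i (fun k => w (some (some k)))|) ∧
      w (some none) = Φ (fun o => o.elim v fun o' => o'.elim (w none)
        fun k => w (some (some k)))) (by
    refine (congrArg SA ?_).mp h1
    ext w
    have e : (fun o : Option (Option ι) => w (o.elim none fun o' => o'.elim (some none)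
        fun k => some (some (some k)))) = fun o : Option (Option ι) => o.elim (w none) fun o' =>
          o'.elim (w (some none)) fun k => w (some (some (some k))) := by
      funext o
      rcases o with _ | (_ | k) <;> rfl
    simp only [Set.mem_ofPred_eq]
    rw [e])
  have h3 := SA_ex' (κ := Option ι) (fun z y => ∃ v : ℝ, 0 ≤ v ∧
      (∀ i ∈ (Finset.univ : Finset (Fin N)), v ≤ |y - ζ i (fun k => z (some k))|) ∧
      z none = Φ (fun o => o.elim v fun o' => o'.elim y fun k => z (some k))) h2
  have h4 := SA_sSup h3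
  refine (congrArg (fun f => SA (graph f)) ?_).mp h4
  funext x
  congr 1
  ext t
  constructor
  · rintro ⟨y, v, h5, h6, h7⟩
    refine ⟨y, v, h5, fun i => h6 i (Finset.mem_univ i), ?_⟩
    have e : (fun o : Option (Option ι) => o.elim v fun o' => o'.elim y fun k => pt t x (some k)) =
        pt v (pt y x) := by
      funext o
      rcases o with _ | (_ | k) <;> rfl
    rw [← e]
    exact h7
  · rintro ⟨y, v, h5, h6, h7⟩
    refine ⟨y, v, h5, fun i _ => h6 i, ?_⟩
    have e : (fun o : Option (Option ι) => o.elim v fun o' => o'.elim y fun k => pt t x (some k)) =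
        pt v (pt y x) := by
      funext o
      rcases o with _ | (_ | k) <;> rfl
    simp only [e]
    exact h7

end Pool.Agent.PWD
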