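import Pool.Agent.PWD.VSF
import Pool.Agent.PWD.RPD
import Pool.Agent.PWD.HRW
import Pool.Agent.PWD.WPI

/-!
# PWD [VSX]: positive periods are volumes; `1/π` and reciprocals of sums of two squares
-/

set_option autoImplicit false

open MeasureTheory

namespace Pool.Agent.PWD

/-- The nonnegative differences of volumes in `ℝⁿ` are the volumes in `ℝⁿ`. -/
theorem vsx_V (n : ℕ) (hn : 1 ≤ n) (x : ℝ) : V n x ↔ Vd n x ∧ 0 ≤ x := by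
  constructor
  · intro h
    exact ⟨⟨x, 0, h, V_zero n, by ring⟩, V_nn h⟩
  · rintro ⟨⟨a, b, ha, hb, rfl⟩, h0⟩
    exact thm_VS n a b hn ha hb (by linarith)

/-- The nonnegative periods are the volumes. -/
theorem vsx_per (x : ℝ) : (IsPeriod x ∧ 0 ≤ x) ↔ ∃ n, 1 ≤ n ∧ V n x := by
  constructor
  · rintro ⟨h, h0⟩
    obtain ⟨n, hn, h1⟩ := (thm_FRZ x).1 h
    exact ⟨n, hn, (vsx_V n hn x).2 ⟨h1, h0⟩⟩
  · rintro ⟨n, hn, h⟩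
    obtain ⟨h1, h2⟩ := (vsx_V n hn x).1 h
    exact ⟨(thm_FRZ x).2 ⟨n, hn, h1⟩, h2⟩

/-- The positive integrals of rational functions over `ℝⁿ` are the integrals of positive rational
functions over `ℝⁿ`. -/
theorem vsx_W (n : ℕ) (hn : 1 ≤ n) (v : ℝ) : Wp n v ↔ W n v ∧ 0 < v := by
  have hpi := Real.pi_pos
  obtain ⟨m, rfl⟩ : ∃ m, n = m + 1 := ⟨n - 1, by omega⟩
  constructor
  · intro h
    have h0 := wp_pos (m + 1) v h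
    obtain ⟨P, Q, hQ, hI, -, hv⟩ := h
    exact ⟨⟨P, Q, hQ, hI, hv⟩, h0⟩
  · rintro ⟨h, h0⟩
    obtain ⟨x, hx, rfl⟩ := thm_WSB thm_VDI m v h
    have h1 : 0 < x := by
      by_contra hc
      have := mul_nonpos_of_nonneg_of_nonpos hpi.le (not_lt.1 hc)
      linarith
    exact thm_WPI.2 m x ((vsx_V (m + 1) hn x).2 ⟨hx, h1.le⟩) h1

theorem thm_VSX :
    (∀ n : ℕ, 1 ≤ n → ∀ x : ℝ, V n x ↔ Vd n x ∧ 0 ≤ x) ∧
    (∀ x : ℝ, (IsPeriod x ∧ 0 ≤ x) ↔ ∃ n, 1 ≤ n ∧ V n x) ∧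
    (∀ n : ℕ, 1 ≤ n → ∀ v : ℝ, Wp n v ↔ W n v ∧ 0 < v) ∧
    (∀ x : ℝ, IsPeriod x → 0 < x → ∃ n, 1 ≤ n ∧ Rs n (Real.pi ^ 2 * x)) ∧
    (IsPeriod (1 / Real.pi) ↔ ∃ n, 1 ≤ n ∧ Rs n 1) ∧
    (¬ IsPeriod (1 / Real.pi) ↔ ∀ (n : ℕ) (v : ℝ), 1 ≤ n → Rc n v → Transcendental ℚ v) ∧
    (IsPeriod (1 / Real.pi) → ∀ x : ℝ, IsPeriod x → 0 < x → ∃ n, 1 ≤ n ∧ Rs n x) := by
  have hpi := Real.pi_pos
  have e : IsPeriod (1 / Real.pi) ↔ ∃ n, 1 ≤ n ∧ V n (1 / Real.pi) := by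
    rw [← vsx_per]
    exact ⟨fun h => ⟨h, by positivity⟩, fun h => h.1⟩
  obtain ⟨h1, h2, h3⟩ := thm_RPI thm_HRW
  rw [← e] at h1 h2 h3
  refine ⟨vsx_V, vsx_per, vsx_W, ?_, h1, h2, ?_⟩
  · intro x hx h0
    obtain ⟨n, hn, h⟩ := (vsx_per x).1 ⟨hx, h0.le⟩
    exact ⟨n + 1, by omega, rc_of_vol thm_HRW n x hn h h0⟩
  · intro h x hx h0
    obtain ⟨n, hn, hV⟩ := (vsx_per x).1 ⟨hx, h0.le⟩
    exact h3 h n x hn hV h0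

end Pool.Agent.PWD
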